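import Pool.Agent.AMU0.Defs

/-! Basic lemmas for the campaign AMU0: words and homomorphisms of the braid group. -/

open Matrix

namespace Pool.Agent.AMU

/-! ### Words -/

lemma pw_nil (m : ℕ) : pw m [] = 1 := rfl

lemma pw_cons (m x : ℕ) (X : List ℕ) : pw m (x :: X) = sg m x * pw m X := by
  simp [pw]

lemma pw_append (m : ℕ) (X Y : List ℕ) : pw m (X ++ Y) = pw m X * pw m Y := by
  simp [pw]

lemma pw_single (m x : ℕ) : pw m [x] = sg m x := by
  simp [pw]

lemma braid_nil (m : ℕ) : braid m [] = 1 := rfl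

lemma braid_cons (m : ℕ) (x : ℕ × Bool) (w : List (ℕ × Bool)) :
    braid m (x :: w) = (if x.2 then sg m x.1 else (sg m x.1)⁻¹) * braid m w := by
  simp [braid]

lemma braid_append (m : ℕ) (u w : List (ℕ × Bool)) : braid m (u ++ w) = braid m u * braid m w := by
  simp [braid]

theorem braid_posw (m : ℕ) (X : List ℕ) : braid m (posw X) = pw m X := by
  unfold braid posw pw
  rw [List.map_map]
  congr 1

lemma braid_winv (m : ℕ) : ∀ w : List (ℕ × Bool), braid m (winv w) = (braid m w)⁻¹
  | [] => by simp [winv, braid]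
  | x :: w => by
    have h2 : winv (x :: w) = winv w ++ [linv x] := by simp [winv]
    rw [h2, braid_append, braid_winv m w, braid_cons m x w, _root_.mul_inv_rev]
    congr 1
    rcases x with ⟨i, s⟩
    cases s <;> simp [braid, linv]

lemma lt_nil (m : ℕ) : Lt m [] := fun x hx => by simp at hx

lemma lt_cons {m x : ℕ} {X : List ℕ} : Lt m (x :: X) ↔ x + 1 < m ∧ Lt m X := by
  simp [Lt]

lemma lt_append {m : ℕ} {X Y : List ℕ} : Lt m (X ++ Y) ↔ Lt m X ∧ Lt m Y := by
  unfold Lt
  constructor
  · exact fun h => ⟨fun x hx => h x (by simp [hx]), fun x hx => h x (by simp [hx])⟩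
  · rintro ⟨h1, h2⟩ x hx
    rcases List.mem_append.1 hx with h | h
    · exact h1 x h
    · exact h2 x h

lemma letters_posw {m : ℕ} {X : List ℕ} (hX : Lt m X) : Letters m (posw X) := by
  intro x hx
  unfold posw at hx
  obtain ⟨y, hy, rfl⟩ := List.mem_map.1 hx
  exact hX y hy

lemma lt_of_letters {m : ℕ} {X : List ℕ} (hX : Letters m (posw X)) : Lt m X := by
  intro x hx
  exact hX (x, true) (List.mem_map.2 ⟨x, hx, rfl⟩)

/-! ### The generators -/

lemma sg_far {m i j : ℕ} (h : i + 2 ≤ j) : sg m i * sg m j = sg m j * sg m i := by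
  unfold sg
  by_cases hi : i < m - 1
  · by_cases hj : j < m - 1
    · rw [dif_pos hi, dif_pos hj]
      have h1 : (PresentedGroup.mk (braidRels m) (FreeGroup.of ⟨i, hi⟩ * FreeGroup.of ⟨j, hj⟩ *
          (FreeGroup.of ⟨j, hj⟩ * FreeGroup.of ⟨i, hi⟩)⁻¹)) = 1 :=
        PresentedGroup.one_of_mem (Or.inr ⟨⟨i, hi⟩, ⟨j, hj⟩, h, rfl⟩)
      rw [map_mul, map_inv, mul_inv_eq_one, map_mul, map_mul] at h1
      exact h1
    · rw [dif_neg hj, mul_one, one_mul]
  · rw [dif_neg hi, mul_one, one_mul]

lemma sg_near {m i : ℕ} (h : i + 2 < m) :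
    sg m i * sg m (i + 1) * sg m i = sg m (i + 1) * sg m i * sg m (i + 1) := by
  unfold sg
  have hi : i < m - 1 := by omega
  have hj : i + 1 < m - 1 := by omega
  rw [dif_pos hi, dif_pos hj]
  have h1 : (PresentedGroup.mk (braidRels m) (FreeGroup.of ⟨i, hi⟩ * FreeGroup.of ⟨i + 1, hj⟩ *
      FreeGroup.of ⟨i, hi⟩ * (FreeGroup.of ⟨i + 1, hj⟩ * FreeGroup.of ⟨i, hi⟩ *
        FreeGroup.of ⟨i + 1, hj⟩)⁻¹)) = 1 :=
    PresentedGroup.one_of_mem (Or.inl ⟨⟨i, hi⟩, ⟨i + 1, hj⟩, rfl, rfl⟩)
  rw [map_mul, map_inv, mul_inv_eq_one, map_mul, map_mul, map_mul, map_mul] at h1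
  exact h1

theorem sg_brRel (m : ℕ) : BrRel (sg m) m :=
  ⟨fun _ _ h _ => sg_far h, fun _ h => sg_near h⟩

/-! ### Homomorphisms -/

/-- the homomorphism given by elements which satisfy the braid relations -/
theorem exists_hom {G : Type*} [Group G] {m : ℕ} {s : ℕ → G} (h : BrRel s m) :
    ∃ φ : BraidGroup m →* G, ∀ i, i + 1 < m → φ (sg m i) = s i := by
  refine ⟨PresentedGroup.toGroup (f := fun i : Fin (m - 1) => s i) ?_, ?_⟩
  · rintro r (⟨i, j, hij, rfl⟩ | ⟨i, j, hij, rfl⟩)
    · rw [map_mul, map_inv, map_mul, map_mul, map_mul, map_mul, FreeGroup.lift_apply_of,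
        FreeGroup.lift_apply_of, mul_inv_eq_one, ← hij]
      exact h.2 i (by have := j.2; omega)
    · rw [map_mul, map_inv, map_mul, map_mul, FreeGroup.lift_apply_of,
        FreeGroup.lift_apply_of, mul_inv_eq_one]
      exact h.1 i j hij (by have := j.2; omega)
  · intro i hi
    unfold sg
    rw [dif_pos (by omega)]
    exact PresentedGroup.toGroup.of _

lemma hom_pw {G : Type*} [Group G] {m : ℕ} {s : ℕ → G} {φ : BraidGroup m →* G}
    (h : ∀ i, i + 1 < m → φ (sg m i) = s i) : ∀ {X : List ℕ}, Lt m X → φ (pw m X) = (X.map s).prod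
  | [], _ => by simp [pw]
  | x :: X, hX => by
    obtain ⟨h1, h2⟩ := lt_cons.1 hX
    rw [pw_cons, map_mul, h x h1, hom_pw h h2, List.map_cons, List.prod_cons]

lemma hom_braid {G : Type*} [Group G] {m : ℕ} {s : ℕ → G} {φ : BraidGroup m →* G}
    (h : ∀ i, i + 1 < m → φ (sg m i) = s i) : ∀ {w : List (ℕ × Bool)}, Letters m w →
    φ (braid m w) = (w.map fun x => if x.2 then s x.1 else (s x.1)⁻¹).prod
  | [], _ => by simp [braid]
  | x :: w, hw => by
    have h1 : x.1 + 1 < m := hw x (by simp)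
    have h2 : Letters m w := fun y hy => hw y (by simp [hy])
    rw [braid_cons, map_mul, hom_braid h h2, List.map_cons, List.prod_cons]
    congr 1
    split_ifs
    · exact h _ h1
    · rw [map_inv, h _ h1]

/-- every braid is given by a word -/
theorem exists_braid (m : ℕ) (f : BraidGroup m) : ∃ w, Letters m w ∧ braid m w = f := by
  obtain ⟨x, rfl⟩ := PresentedGroup.mk_surjective (braidRels m) f
  induction x using FreeGroup.induction_on with
  | C1 => exact ⟨[], fun x hx => by simp at hx, by simp [braid]⟩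
  | of i =>
    refine ⟨[((i : ℕ), true)], fun x hx => ?_, ?_⟩
    · rw [List.mem_singleton] at hx
      subst hx
      have := i.2
      simp only []
      omega
    · have hi := i.2
      simp only [braid, List.map_cons, List.map_nil, List.prod_cons, List.prod_nil, mul_one, if_true]
      unfold sg
      rw [dif_pos hi]
      rfl
  | inv_of i _ =>
    refine ⟨[((i : ℕ), false)], fun x hx => ?_, ?_⟩
    · rw [List.mem_singleton] at hx
      subst hx
      have := i.2
      simp only []
      omega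
    · have hi := i.2
      simp only [braid, List.map_cons, List.map_nil, List.prod_cons, List.prod_nil, mul_one,
        Bool.false_eq_true, if_false]
      unfold sg
      rw [dif_pos hi, map_inv]
      rfl
  | mul x y hx hy =>
    obtain ⟨w, hw, h1⟩ := hx
    obtain ⟨w', hw', h2⟩ := hy
    exact ⟨w ++ w', letters_append hw hw', by rw [braid_append, h1, h2, map_mul]⟩

/-! ### Length and permutation -/

/-- the length homomorphism -/
theorem exists_len (m : ℕ) : ∃ φ : BraidGroup m →* Multiplicative ℤ,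
    ∀ X, Lt m X → φ (pw m X) = Multiplicative.ofAdd (X.length : ℤ) := by
  obtain ⟨φ, hφ⟩ := exists_hom (m := m) (s := fun _ => Multiplicative.ofAdd (1 : ℤ))
    ⟨fun _ _ _ _ => rfl, fun _ _ => rfl⟩
  refine ⟨φ, fun X hX => ?_⟩
  rw [hom_pw hφ hX]
  clear hX
  induction X with
  | nil => simp
  | cons x X ih =>
    rw [List.map_cons, List.prod_cons, ih, ← ofAdd_add]
    congr 1
    push_cast [List.length_cons]
    ring

/-- equal positive braids have the same length -/
theorem length_eq {m : ℕ} {X Y : List ℕ} (hX : Lt m X) (hY : Lt m Y) (h : pw m X = pw m Y) :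
    X.length = Y.length := by
  obtain ⟨φ, hφ⟩ := exists_len m
  have h1 := hφ X hX
  rw [h, hφ Y hY] at h1
  have h2 := Multiplicative.ofAdd.injective h1
  exact_mod_cast h2.symm

lemma swap_brRel (m : ℕ) : BrRel (fun k => Equiv.swap k (k + 1)) m := by
  constructor
  · intro i j h _
    refine (Equiv.Perm.Disjoint.commute ?_).eq
    intro k
    by_cases h1 : k = i ∨ k = i + 1
    · right
      exact Equiv.swap_apply_of_ne_of_ne (by omega) (by omega)
    · left
      push Not at h1
      exact Equiv.swap_apply_of_ne_of_ne h1.1 h1.2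
  · intro i _
    show Equiv.swap i (i + 1) * Equiv.swap (i + 1) (i + 2) * Equiv.swap i (i + 1) =
      Equiv.swap (i + 1) (i + 2) * Equiv.swap i (i + 1) * Equiv.swap (i + 1) (i + 2)
    rw [Equiv.swap_mul_swap_mul_swap (x := i) (y := i + 1) (z := i + 2) (by omega) (by omega),
      Equiv.swap_comm i (i + 1), Equiv.swap_comm (i + 1) (i + 2),
      Equiv.swap_mul_swap_mul_swap (x := i + 2) (y := i + 1) (z := i) (by omega) (by omega),
      Equiv.swap_comm]

/-- the permutation of a braid -/
theorem exists_perm (m : ℕ) : ∃ φ : BraidGroup m →* Equiv.Perm ℕ,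
    (∀ X, Lt m X → φ (pw m X) = pm X) ∧ ∀ w, Letters m w → ∀ l, φ (braid m w) l = outl l w := by
  obtain ⟨φ, hφ⟩ := exists_hom (swap_brRel m)
  refine ⟨φ, fun X hX => hom_pw hφ hX, fun w hw l => ?_⟩
  rw [hom_braid hφ hw]
  clear hw
  induction w with
  | nil => rfl
  | cons x w ih =>
    rw [List.map_cons, List.prod_cons, Equiv.Perm.mul_apply, ih]
    show _ = Equiv.swap x.1 (x.1 + 1) (outl l w)
    split_ifs
    · rfl
    · rw [Equiv.swap_inv]

/-- words with the same braid have the same permutation -/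
theorem outl_braid {m : ℕ} {w w' : List (ℕ × Bool)} (hw : Letters m w) (hw' : Letters m w')
    (h : braid m w = braid m w') (l : ℕ) : outl l w = outl l w' := by
  obtain ⟨φ, -, hφ⟩ := exists_perm m
  rw [← hφ w hw, ← hφ w' hw', h]

/-- positive words with the same braid have the same permutation -/
theorem pm_pw {m : ℕ} {X Y : List ℕ} (hX : Lt m X) (hY : Lt m Y) (h : pw m X = pw m Y) :
    pm X = pm Y := by
  obtain ⟨φ, hφ, -⟩ := exists_perm m
  rw [← hφ X hX, ← hφ Y hY, h]

lemma pm_append (X Y : List ℕ) : pm (X ++ Y) = pm X * pm Y := by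
  simp [pm]

lemma pm_cons (x : ℕ) (X : List ℕ) : pm (x :: X) = Equiv.swap x (x + 1) * pm X := by
  simp [pm]

/-- permutations of braids fix the numbers which are not smaller than `m` -/
lemma pm_ge {m : ℕ} : ∀ {X : List ℕ}, Lt m X → ∀ {x}, m ≤ x → pm X x = x
  | [], _, x, _ => rfl
  | y :: X, hX, x, hx => by
    obtain ⟨h1, h2⟩ := lt_cons.1 hX
    rw [pm_cons, Equiv.Perm.mul_apply, pm_ge h2 hx, Equiv.swap_apply_of_ne_of_ne (by omega)
      (by omega)]

end Pool.Agent.AMU
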