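import Pool.Agent.AMU0.Rank

open Matrix Polynomial

namespace Pool.Agent.AMU

/-- the crossings of the four strands `w`, `r`, `s`, `k`, where `w` crosses neither `r` nor `s` -/
private lemma cc_cases {p : ℕ → ℕ} {w r s k : ℕ} (hwr : ¬ Crs p w r) (hws : ¬ Crs p w s) (t : ℕ) :
    ev p t r s ∨ ev p t s r ∨ ev p t r k ∨ ev p t k r ∨ ev p t s k ∨ ev p t k s ∨ ev p t k w ∨
      ev p t w k ∨ ∃ a b, ev p t a b ∧
        (a ∉ ({w, r, s, k} : Finset ℕ) ∨ b ∉ ({w, r, s, k} : Finset ℕ)) := by
  have he := ev_self p t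
  generalize conf p t (p t) = a at he
  generalize conf p t (p t + 1) = b at he
  have hne := ev_ne he
  have g1 : ¬ ev p t w r := fun h => hwr ⟨t, Or.inl h⟩
  have g2 : ¬ ev p t r w := fun h => hwr ⟨t, Or.inr h⟩
  have g3 : ¬ ev p t w s := fun h => hws ⟨t, Or.inl h⟩
  have g4 : ¬ ev p t s w := fun h => hws ⟨t, Or.inr h⟩
  by_cases ha : a ∈ ({w, r, s, k} : Finset ℕ)
  · by_cases hb : b ∈ ({w, r, s, k} : Finset ℕ)
    · simp only [Finset.mem_insert, Finset.mem_singleton] at ha hb
      rcases ha with rfl | rfl | rfl | rfl <;> rcases hb with rfl | rfl | rfl | rfl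
      all_goals first
        | exact absurd rfl hne
        | exact absurd he g1
        | exact absurd he g2
        | exact absurd he g3
        | exact absurd he g4
        | tauto
    · exact Or.inr (Or.inr (Or.inr (Or.inr (Or.inr (Or.inr (Or.inr (Or.inr
        ⟨a, b, he, Or.inr hb⟩)))))))
  · exact Or.inr (Or.inr (Or.inr (Or.inr (Or.inr (Or.inr (Or.inr (Or.inr
      ⟨a, b, he, Or.inl ha⟩)))))))

/-- the recursion for the three minors -/
private structure CCRec (p : ℕ → ℕ) (w r s k s0 : ℕ) (A B C : ℕ → ℤ[X]) : Prop where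
  zero : A 0 = 1
  rs : ∀ t, ev p (s0 + t) r s →
    A (t + 1) = X * A t ∧ B (t + 1) = B t + (X - 1) * C t ∧ C (t + 1) = X * C t
  sr : ∀ t, ev p (s0 + t) s r →
    A (t + 1) = X * A t ∧ B (t + 1) = X * B t ∧ C (t + 1) = C t + (X - 1) * B t
  rk : ∀ t, ev p (s0 + t) r k →
    A (t + 1) = X * A t ∧ B (t + 1) = B t + (X - 1) * A t ∧ C (t + 1) = X * C t
  kr : ∀ t, ev p (s0 + t) k r →
    A (t + 1) = A t + (X - 1) * B t ∧ B (t + 1) = X * B t ∧ C (t + 1) = X * C t
  sk : ∀ t, ev p (s0 + t) s k →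
    A (t + 1) = X * A t ∧ B (t + 1) = X * B t ∧ C (t + 1) = C t + (X - 1) * A t
  ks : ∀ t, ev p (s0 + t) k s →
    A (t + 1) = A t + (X - 1) * C t ∧ B (t + 1) = X * B t ∧ C (t + 1) = X * C t
  kw : ∀ t, ev p (s0 + t) k w → A (t + 1) = A t ∧ B (t + 1) = 0 ∧ C (t + 1) = 0
  wk : ∀ t, ev p (s0 + t) w k → A (t + 1) = A t
  oth : ∀ t a b, ev p (s0 + t) a b →
    (a ∉ ({w, r, s, k} : Finset ℕ) ∨ b ∉ ({w, r, s, k} : Finset ℕ)) →
      A (t + 1) = A t ∧ B (t + 1) = B t ∧ C (t + 1) = C t

/-- `w` is to the left of `k` after a crossing which is not the one of `k` and `w` -/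
private lemma cc_back {p : ℕ → ℕ} {w k t : ℕ} (hwk : w ≠ k) (h1 : ps p (t + 1) w < ps p (t + 1) k)
    (h2 : ¬ ev p t k w) : ps p t w < ps p t k := by
  by_contra h3
  have h4 : ps p t w ≠ ps p t k := fun h => hwk (ps_inj h)
  rcases order_succ (p := p) (t := t) (s := k) (s' := w) (by omega) with h5 | h5
  · omega
  · exact h2 h5

private lemma cc_inv {p : ℕ → ℕ} {w r s k s0 : ℕ} {A B C : ℕ → ℤ[X]}
    (H : CCRec p w r s k s0 A B C) (hwr : ¬ Crs p w r) (hws : ¬ Crs p w s) (hlr : w < r)
    (hls : w < s) (hwk : w ≠ k) (h0 : ps p s0 k < ps p s0 w) : ∀ t,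
    (A t).eval 1 = 1 ∧ (∃ b : ℕ, (derivative (A t)).eval 1 = (b : ℤ) ∧ 2 ^ b ≤ (A t).eval 2) ∧
      (ps p (s0 + t) w < ps p (s0 + t) k → (B t).eval 1 = 0 ∧ (C t).eval 1 = 0 ∧
        0 ≤ (B t).eval 2 ∧ 0 ≤ (C t).eval 2)
  | 0 => by
    refine ⟨by rw [H.zero]; simp, ⟨0, by rw [H.zero]; simp, by rw [H.zero]; simp⟩, fun h1 => ?_⟩
    rw [Nat.add_zero] at h1
    omega
  | t + 1 => by
    obtain ⟨i1, ⟨b, i2, i3⟩, i4⟩ := cc_inv H hwr hws hlr hls hwk h0 t
    have hpos : (0 : ℤ) < 2 ^ b := by positivity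
    rcases cc_cases (k := k) hwr hws (s0 + t) with
      he | he | he | he | he | he | he | he | ⟨a, c, he, hac⟩
    · -- `r s`
      obtain ⟨e1, e2, e3⟩ := H.rs t he
      refine ⟨by rw [e1]; simp [i1], ⟨b + 1, ?_, ?_⟩, fun h1 => ?_⟩
      · rw [e1]
        simp [i1, i2]
        ring
      · rw [e1, pow_succ]
        simp
        linarith
      · obtain ⟨j1, j2, j3, j4⟩ := i4 (cc_back hwk h1 fun h => by
          obtain ⟨h5, h6⟩ := ev_unique he h
          omega)
        rw [e2, e3]
        simp [j1, j2]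
        constructor <;> linarith
    · -- `s r`
      obtain ⟨e1, e2, e3⟩ := H.sr t he
      refine ⟨by rw [e1]; simp [i1], ⟨b + 1, ?_, ?_⟩, fun h1 => ?_⟩
      · rw [e1]
        simp [i1, i2]
        ring
      · rw [e1, pow_succ]
        simp
        linarith
      · obtain ⟨j1, j2, j3, j4⟩ := i4 (cc_back hwk h1 fun h => by
          obtain ⟨h5, h6⟩ := ev_unique he h
          omega)
        rw [e2, e3]
        simp [j1, j2]
        constructor <;> linarith
    · -- `r k`
      obtain ⟨e1, e2, e3⟩ := H.rk t he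
      refine ⟨by rw [e1]; simp [i1], ⟨b + 1, ?_, ?_⟩, fun h1 => ?_⟩
      · rw [e1]
        simp [i1, i2]
        ring
      · rw [e1, pow_succ]
        simp
        linarith
      · obtain ⟨j1, j2, j3, j4⟩ := i4 (cc_back hwk h1 fun h => by
          obtain ⟨h5, h6⟩ := ev_unique he h
          omega)
        rw [e2, e3]
        simp [j1, j2]
        constructor <;> linarith
    · -- `k r`
      obtain ⟨e1, e2, e3⟩ := H.kr t he
      have hr : ps p (s0 + t) w < ps p (s0 + t) k :=
        (ev_adj he hwk (by omega)).2 (never_lt hwr hlr _)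
      obtain ⟨j1, j2, j3, j4⟩ := i4 hr
      refine ⟨by rw [e1]; simp [i1], ⟨b, ?_, ?_⟩, fun h1 => ?_⟩
      · rw [e1]
        simp [i2, j1]
      · rw [e1]
        simp
        linarith
      · rw [e2, e3]
        simp [j1, j2]
        constructor <;> linarith
    · -- `s k`
      obtain ⟨e1, e2, e3⟩ := H.sk t he
      refine ⟨by rw [e1]; simp [i1], ⟨b + 1, ?_, ?_⟩, fun h1 => ?_⟩
      · rw [e1]
        simp [i1, i2]
        ring
      · rw [e1, pow_succ]
        simp
        linarith
      · obtain ⟨j1, j2, j3, j4⟩ := i4 (cc_back hwk h1 fun h => by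
          obtain ⟨h5, h6⟩ := ev_unique he h
          omega)
        rw [e2, e3]
        simp [j1, j2]
        constructor <;> linarith
    · -- `k s`
      obtain ⟨e1, e2, e3⟩ := H.ks t he
      have hr : ps p (s0 + t) w < ps p (s0 + t) k :=
        (ev_adj he hwk (by omega)).2 (never_lt hws hls _)
      obtain ⟨j1, j2, j3, j4⟩ := i4 hr
      refine ⟨by rw [e1]; simp [i1], ⟨b, ?_, ?_⟩, fun h1 => ?_⟩
      · rw [e1]
        simp [i2, j2]
      · rw [e1]
        simp
        linarith
      · rw [e2, e3]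
        simp [j1, j2]
        constructor <;> linarith
    · -- `k w`
      obtain ⟨e1, e2, e3⟩ := H.kw t he
      rw [e1, e2, e3]
      exact ⟨i1, ⟨b, i2, i3⟩, fun _ => by simp⟩
    · -- `w k`
      have e1 := H.wk t he
      rw [e1]
      refine ⟨i1, ⟨b, i2, i3⟩, fun h1 => ?_⟩
      have h2 := ev_lt' he
      rw [add_assoc] at h2
      omega
    · obtain ⟨e1, e2, e3⟩ := H.oth t a c he hac
      rw [e1, e2, e3]
      refine ⟨i1, ⟨b, i2, i3⟩, fun h1 => i4 (cc_back hwk h1 fun h => ?_)⟩
      obtain ⟨h5, h6⟩ := ev_unique he h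
      rw [h5, h6] at hac
      simp at hac

/-- between `t₁` and `t₃` the strand `k` is to the right of `w` and does not cross it -/
private lemma cc_right {p : ℕ → ℕ} {w r k t1 t3 : ℕ} (hwr : ¬ Crs p w r) (hlr : w < r)
    (hwk : w ≠ k) (h1 : ev p t1 r k)
    (hn : ∀ u, t1 < u → u < t3 → ¬ ev p u w k ∧ ¬ ev p u k w) {u : ℕ} (hu1 : t1 < u)
    (hu3 : u ≤ t3) : ps p u w < ps p u k := by
  have h2 : ps p t1 w < ps p t1 k := (ev_adj h1 (by omega) hwk).1 (never_lt hwr hlr _)
  have h3 : ps p (t1 + 1) w < ps p (t1 + 1) k := by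
    rcases order_succ h2 with h | h
    · exact h
    · obtain ⟨h5, h6⟩ := ev_unique h1 h
      omega
  exact order_keep (by omega) h3 fun v hv1 hv2 => (hn v (by omega) (by omega)).1

private lemma cc_str {p : ℕ → ℕ} {w r s k s0 : ℕ} {A B C : ℕ → ℤ[X]}
    (H : CCRec p w r s k s0 A B C) (hwr : ¬ Crs p w r) (hws : ¬ Crs p w s) (hlr : w < r)
    (hls : w < s) (hwk : w ≠ k) (h0 : ps p s0 k < ps p s0 w) {t1 t2 t3 : ℕ} (ht2 : t1 < t2)
    (ht3 : t2 < t3) (h1 : ev p (s0 + t1) r k) (h2 : ev p (s0 + t2) s r) (h3 : ev p (s0 + t3) k s)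
    (hn : ∀ u, s0 + t1 < u → u < s0 + t3 → ¬ ev p u w k ∧ ¬ ev p u k w) : ∀ t,
    (t1 < t → t ≤ t2 → 0 < (B t).eval 2) ∧ (t2 < t → t ≤ t3 → 0 < (C t).eval 2) ∧
      (t3 < t → ∃ b : ℕ, (derivative (A t)).eval 1 = (b : ℤ) ∧ 2 ^ b < (A t).eval 2)
  | 0 => ⟨fun h => by omega, fun h => by omega, fun h => by omega⟩
  | t + 1 => by
    obtain ⟨i1, ⟨b, i2, i3⟩, i4⟩ := cc_inv H hwr hws hlr hls hwk h0 t
    have hpos : (0 : ℤ) < 2 ^ b := by positivity
    obtain ⟨k1, k2, k3⟩ := cc_str H hwr hws hlr hls hwk h0 ht2 ht3 h1 h2 h3 hn t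
    refine ⟨fun g1 g2 => ?_, fun g1 g2 => ?_, fun g1 => ?_⟩
    · rcases Nat.lt_or_ge t1 t with g3 | g3
      · have k4 := k1 g3 (by omega)
        have hr := cc_right hwr hlr hwk h1 hn (u := s0 + t) (by omega) (by omega)
        obtain ⟨j1, j2, j3, j4⟩ := i4 hr
        obtain ⟨n1, n2⟩ := hn (s0 + t) (by omega) (by omega)
        rcases cc_cases (k := k) hwr hws (s0 + t) with
          he | he | he | he | he | he | he | he | ⟨a, c, he, hac⟩
        · obtain ⟨e1, e2, e3⟩ := H.rs t he
          rw [e2]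
          simp
          linarith
        · obtain ⟨e1, e2, e3⟩ := H.sr t he
          rw [e2]
          simp
          linarith
        · obtain ⟨e1, e2, e3⟩ := H.rk t he
          rw [e2]
          simp
          linarith
        · obtain ⟨e1, e2, e3⟩ := H.kr t he
          rw [e2]
          simp
          linarith
        · obtain ⟨e1, e2, e3⟩ := H.sk t he
          rw [e2]
          simp
          linarith
        · obtain ⟨e1, e2, e3⟩ := H.ks t he
          rw [e2]
          simp
          linarith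
        · exact absurd he n2
        · exact absurd he n1
        · obtain ⟨e1, e2, e3⟩ := H.oth t a c he hac
          rw [e2]
          exact k4
      · have g4 : t = t1 := by omega
        subst g4
        obtain ⟨e1, e2, e3⟩ := H.rk t h1
        have h2 : ps p (s0 + t) w < ps p (s0 + t) k :=
          (ev_adj h1 (by omega) hwk).1 (never_lt hwr hlr _)
        obtain ⟨j1, j2, j3, j4⟩ := i4 h2
        rw [e2]
        simp
        linarith
    · have hr := cc_right hwr hlr hwk h1 hn (u := s0 + t) (by omega) (by omega)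
      obtain ⟨j1, j2, j3, j4⟩ := i4 hr
      obtain ⟨n1, n2⟩ := hn (s0 + t) (by omega) (by omega)
      rcases Nat.lt_or_ge t2 t with g3 | g3
      · have k4 := k2 g3 (by omega)
        rcases cc_cases (k := k) hwr hws (s0 + t) with
          he | he | he | he | he | he | he | he | ⟨a, c, he, hac⟩
        · obtain ⟨e1, e2, e3⟩ := H.rs t he
          rw [e3]
          simp
          linarith
        · obtain ⟨e1, e2, e3⟩ := H.sr t he
          rw [e3]
          simp
          linarith
        · obtain ⟨e1, e2, e3⟩ := H.rk t he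
          rw [e3]
          simp
          linarith
        · obtain ⟨e1, e2, e3⟩ := H.kr t he
          rw [e3]
          simp
          linarith
        · obtain ⟨e1, e2, e3⟩ := H.sk t he
          rw [e3]
          simp
          linarith
        · obtain ⟨e1, e2, e3⟩ := H.ks t he
          rw [e3]
          simp
          linarith
        · exact absurd he n2
        · exact absurd he n1
        · obtain ⟨e1, e2, e3⟩ := H.oth t a c he hac
          rw [e3]
          exact k4
      · have g4 : t = t2 := by omega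
        subst g4
        have k4 := k1 ht2 le_rfl
        obtain ⟨e1, e2, e3⟩ := H.sr t h2
        rw [e3]
        simp
        linarith
    · rcases Nat.lt_or_ge t3 t with g3 | g3
      · obtain ⟨b, i2, i3⟩ := k3 g3
        have hpos : (0 : ℤ) < 2 ^ b := by positivity
        rcases cc_cases (k := k) hwr hws (s0 + t) with
          he | he | he | he | he | he | he | he | ⟨a, c, he, hac⟩
        · obtain ⟨e1, e2, e3⟩ := H.rs t he
          refine ⟨b + 1, ?_, ?_⟩
          · rw [e1]
            simp [i1, i2]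
            ring
          · rw [e1, pow_succ]
            simp
            linarith
        · obtain ⟨e1, e2, e3⟩ := H.sr t he
          refine ⟨b + 1, ?_, ?_⟩
          · rw [e1]
            simp [i1, i2]
            ring
          · rw [e1, pow_succ]
            simp
            linarith
        · obtain ⟨e1, e2, e3⟩ := H.rk t he
          refine ⟨b + 1, ?_, ?_⟩
          · rw [e1]
            simp [i1, i2]
            ring
          · rw [e1, pow_succ]
            simp
            linarith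
        · obtain ⟨e1, e2, e3⟩ := H.kr t he
          have hr : ps p (s0 + t) w < ps p (s0 + t) k :=
            (ev_adj he hwk (by omega)).2 (never_lt hwr hlr _)
          obtain ⟨j1, j2, j3, j4⟩ := i4 hr
          refine ⟨b, ?_, ?_⟩
          · rw [e1]
            simp [i2, j1]
          · rw [e1]
            simp
            linarith
        · obtain ⟨e1, e2, e3⟩ := H.sk t he
          refine ⟨b + 1, ?_, ?_⟩
          · rw [e1]
            simp [i1, i2]
            ring
          · rw [e1, pow_succ]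
            simp
            linarith
        · obtain ⟨e1, e2, e3⟩ := H.ks t he
          have hr : ps p (s0 + t) w < ps p (s0 + t) k :=
            (ev_adj he hwk (by omega)).2 (never_lt hws hls _)
          obtain ⟨j1, j2, j3, j4⟩ := i4 hr
          refine ⟨b, ?_, ?_⟩
          · rw [e1]
            simp [i2, j2]
          · rw [e1]
            simp
            linarith
        · obtain ⟨e1, e2, e3⟩ := H.kw t he
          rw [e1]
          exact ⟨b, i2, i3⟩
        · rw [H.wk t he]
          exact ⟨b, i2, i3⟩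
        · obtain ⟨e1, e2, e3⟩ := H.oth t a c he hac
          rw [e1]
          exact ⟨b, i2, i3⟩
      · have g4 : t = t3 := by omega
        subst g4
        have k4 := k2 ht3 le_rfl
        have hr := cc_right hwr hlr hwk h1 hn (u := s0 + t) (by omega) le_rfl
        obtain ⟨j1, j2, j3, j4⟩ := i4 hr
        obtain ⟨e1, e2, e3⟩ := H.ks t h3
        refine ⟨b, ?_, ?_⟩
        · rw [e1]
          simp [i2, j2]
        · rw [e1]
          simp
          linarith

/-- a minor in the columns `r`, `s` -/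
private noncomputable def ccm {m : ℕ} (D : Matrix (Fin m) (Fin m) ℤ[X]) (r s x y : Fin m) : ℤ[X] :=
  D x r * D y s - D y r * D x s

/-- the weights -/
private noncomputable def ccv (w : ℕ) (x : ℕ) : ℤ[X] :=
  if x ∈ ({w} : Finset ℕ) then (0 : ℤ[X]) else X ^ (1 : ℕ)

private lemma ccv_wall (w : ℕ) : ccv w w = 0 := by
  unfold ccv
  rw [if_pos (Finset.mem_singleton_self w)]

private lemma ccv_ne {w x : ℕ} (h : x ≠ w) : ccv w x = X := by
  unfold ccv
  rw [if_neg (by simpa using h), pow_one]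

private lemma cc_rec {m : ℕ} {p : ℕ → ℕ} (w r s k : Fin m) (s0 : ℕ) (hwr : w ≠ r)
    (hws : w ≠ s) (hwk : w ≠ k) (hrs : r ≠ s) (hrk : r ≠ k) (hsk : s ≠ k) :
    CCRec p w r s k s0
      (fun t => ccm (dmat m {(w : ℕ), (r : ℕ), (s : ℕ), (k : ℕ)} (ccv w) p s0 t) r s r s)
      (fun t => ccm (dmat m {(w : ℕ), (r : ℕ), (s : ℕ), (k : ℕ)} (ccv w) p s0 t) r s s k)
      (fun t => ccm (dmat m {(w : ℕ), (r : ℕ), (s : ℕ), (k : ℕ)} (ccv w) p s0 t) r s k r) := by
  have vw := ccv_wall w
  have vr : ccv w r = X := ccv_ne fun h => hwr (Fin.ext h.symm)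
  have vs : ccv w s = X := ccv_ne fun h => hws (Fin.ext h.symm)
  have vk : ccv w k = X := ccv_ne fun h => hwk (Fin.ext h.symm)
  have n1 : (w : ℕ) ≠ r := fun h => hwr (Fin.ext h)
  have n2 : (w : ℕ) ≠ s := fun h => hws (Fin.ext h)
  have n3 : (w : ℕ) ≠ k := fun h => hwk (Fin.ext h)
  have n4 : (r : ℕ) ≠ s := fun h => hrs (Fin.ext h)
  have n5 : (r : ℕ) ≠ k := fun h => hrk (Fin.ext h)
  have n6 : (s : ℕ) ≠ k := fun h => hsk (Fin.ext h)
  have key : ∀ (t : ℕ) (a b : Fin m), ev p (s0 + t) a b →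
      (a : ℕ) ∈ ({(w : ℕ), (r : ℕ), (s : ℕ), (k : ℕ)} : Finset ℕ) →
      (b : ℕ) ∈ ({(w : ℕ), (r : ℕ), (s : ℕ), (k : ℕ)} : Finset ℕ) → ∀ x z : Fin m,
      dmat m {(w : ℕ), (r : ℕ), (s : ℕ), (k : ℕ)} (ccv w) p s0 (t + 1) x z =
        if (x : ℕ) = a then ccv w b *
          dmat m {(w : ℕ), (r : ℕ), (s : ℕ), (k : ℕ)} (ccv w) p s0 t a z
        else if (x : ℕ) = b then
          dmat m {(w : ℕ), (r : ℕ), (s : ℕ), (k : ℕ)} (ccv w) p s0 t b z + (1 - ccv w a) *
            dmat m {(w : ℕ), (r : ℕ), (s : ℕ), (k : ℕ)} (ccv w) p s0 t a z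
        else dmat m {(w : ℕ), (r : ℕ), (s : ℕ), (k : ℕ)} (ccv w) p s0 t x z :=
    fun t a b he ha hb x z => stepT_mul he ha hb ⟨a.2, b.2⟩ _ x z
  refine ⟨?_, ?_, ?_, ?_, ?_, ?_, ?_, ?_, ?_, ?_⟩
  · simp [ccm, dmat, Matrix.one_apply, hrs, hrs.symm]
  · intro t he
    have h1 := key t r s he (by simp) (by simp)
    simp only [ccm, h1, vr, vs, n4, n4.symm, n5, n5.symm, n6, n6.symm, if_true, if_false]
    refine ⟨by ring, by ring, by ring⟩
  · intro t he
    have h1 := key t s r he (by simp) (by simp)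
    simp only [ccm, h1, vr, vs, n4, n4.symm, n5, n5.symm, n6, n6.symm, if_true, if_false]
    refine ⟨by ring, by ring, by ring⟩
  · intro t he
    have h1 := key t r k he (by simp) (by simp)
    simp only [ccm, h1, vr, vk, n4, n4.symm, n5, n5.symm, n6, n6.symm, if_true, if_false]
    refine ⟨by ring, by ring, by ring⟩
  · intro t he
    have h1 := key t k r he (by simp) (by simp)
    simp only [ccm, h1, vr, vk, n4, n4.symm, n5, n5.symm, n6, n6.symm, if_true, if_false]
    refine ⟨by ring, by ring, by ring⟩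
  · intro t he
    have h1 := key t s k he (by simp) (by simp)
    simp only [ccm, h1, vs, vk, n4, n4.symm, n5, n5.symm, n6, n6.symm, if_true, if_false]
    refine ⟨by ring, by ring, by ring⟩
  · intro t he
    have h1 := key t k s he (by simp) (by simp)
    simp only [ccm, h1, vs, vk, n4, n4.symm, n5, n5.symm, n6, n6.symm, if_true, if_false]
    refine ⟨by ring, by ring, by ring⟩
  · intro t he
    have h1 := key t k w he (by simp) (by simp)
    simp only [ccm, h1, vw, vk, n1.symm, n2.symm, n3.symm, n4, n4.symm, n5, n5.symm, n6, n6.symm,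
      if_true, if_false]
    refine ⟨?_, ?_, ?_⟩ <;> first | trivial | ring
  · intro t he
    have h1 := key t w k he (by simp) (by simp)
    simp only [ccm, h1, vw, vk, n1.symm, n2.symm, n3.symm, n4, n4.symm, n5, n5.symm, n6, n6.symm,
      if_true, if_false]
  · intro t a b he hab
    have h1 : dmat m {(w : ℕ), (r : ℕ), (s : ℕ), (k : ℕ)} (ccv w) p s0 (t + 1) =
        dmat m {(w : ℕ), (r : ℕ), (s : ℕ), (k : ℕ)} (ccv w) p s0 t := by
      show stepT m _ (ccv w) p (s0 + t) * _ = _
      rw [stepT_out he hab, one_mul]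
    simp only [h1]
    exact ⟨trivial, trivial, trivial⟩

/-- the block at `q = 1` -/
private lemma cc_one {m : ℕ} {p : ℕ → ℕ} {w r s k : Fin m} (hwr : ¬ Crs p w r)
    (hws : ¬ Crs p w s) (hwr' : w ≠ r) (hws' : w ≠ s) (s0 : ℕ) : ∀ (n : ℕ) (x y : Fin m),
    y = r ∨ y = s → dmat m {(w : ℕ), (r : ℕ), (s : ℕ), (k : ℕ)}
      (fun s => if s ∈ ({(w : ℕ)} : Finset ℕ) then (0 : ℤ) else 1) p s0 n x y =
        if x = y then 1 else 0
  | 0, x, y, _ => by
    show (1 : Matrix (Fin m) (Fin m) ℤ) x y = _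
    rw [Matrix.one_apply]
  | n + 1, x, y, hy => by
    have ih := cc_one (k := k) hwr hws hwr' hws' s0 n
    have he := ev_self p (s0 + n)
    generalize conf p (s0 + n) (p (s0 + n)) = a at he
    generalize conf p (s0 + n) (p (s0 + n) + 1) = b at he
    show (stepT m _ _ p (s0 + n) * dmat m _ _ p s0 n : Matrix (Fin m) (Fin m) ℤ) x y = _
    have hyw : (y : ℕ) ≠ w := by
      rcases hy with rfl | rfl
      · exact fun h => hwr' (Fin.ext h.symm)
      · exact fun h => hws' (Fin.ext h.symm)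
    by_cases hab : a ∈ ({(w : ℕ), (r : ℕ), (s : ℕ), (k : ℕ)} : Finset ℕ) ∧
        b ∈ ({(w : ℕ), (r : ℕ), (s : ℕ), (k : ℕ)} : Finset ℕ)
    · have hm : ∀ c ∈ ({(w : ℕ), (r : ℕ), (s : ℕ), (k : ℕ)} : Finset ℕ), c < m := by
        intro c hc
        simp only [Finset.mem_insert, Finset.mem_singleton] at hc
        rcases hc with rfl | rfl | rfl | rfl
        · exact w.2
        · exact r.2
        · exact s.2
        · exact k.2
      rw [stepT_mul he hab.1 hab.2 ⟨hm _ hab.1, hm _ hab.2⟩, ih _ _ hy, ih _ _ hy, ih _ _ hy]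
      have hbw : a = y → b ∉ ({(w : ℕ)} : Finset ℕ) := by
        intro h1 h2
        rw [Finset.mem_singleton] at h2
        rw [h1, h2] at he
        rcases hy with rfl | rfl
        · exact hwr ⟨_, Or.inr he⟩
        · exact hws ⟨_, Or.inr he⟩
      have haw : a = y → a ∉ ({(w : ℕ)} : Finset ℕ) := by
        intro h1
        rw [h1, Finset.mem_singleton]
        exact hyw
      by_cases hxa : (x : ℕ) = a
      · rw [if_pos hxa]
        have h1 : (⟨a, hm _ hab.1⟩ : Fin m) = x := Fin.ext hxa.symm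
        rw [h1]
        by_cases hxy : x = y
        · rw [if_pos hxy, if_neg (hbw (by rw [← hxa, hxy])), one_mul]
        · rw [if_neg hxy, mul_zero]
      · rw [if_neg hxa]
        by_cases hxb : (x : ℕ) = b
        · rw [if_pos hxb]
          have h1 : (⟨b, hm _ hab.2⟩ : Fin m) = x := Fin.ext hxb.symm
          rw [h1]
          by_cases hya : (⟨a, hm _ hab.1⟩ : Fin m) = y
          · rw [if_neg (haw (by rw [← hya])), sub_self, zero_mul, add_zero]
          · rw [if_neg hya, mul_zero, add_zero]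
        · rw [if_neg hxb]
    · rw [stepT_out he (by tauto), one_mul]
      exact ih x y hy

theorem noC {m L : ℕ} {p : ℕ → ℕ} (h : IsTrack m L p) (hG : Good m L p) : NoC m p := by
  intro w r s k t₁ t₂ t₃ hlr hls hr hs hk hwr hws hkw h12 h23 e1 e2 e3 hn
  have hL := h.Lpos
  have hrk : r ≠ k := ev_ne e1
  have hsr : s ≠ r := ev_ne e2
  have hks : k ≠ s := ev_ne e3
  have hwk : w ≠ k := by
    obtain ⟨t, ht | ht⟩ := hkw
    · exact (ev_ne ht).symm
    · exact ev_ne ht
  obtain ⟨u, hu1, hu2, hu⟩ := (crs_both h (crs_symm hkw) t₁).1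
  -- all the times are shifted by one period
  have hL1 : ∀ t a b, ev p (t + L) a b ↔ ev p t a b := by
    intro t a b
    have := ev_mul h t 1 a b
    rwa [one_mul] at this
  have h0 : ps p (u + 1) k < ps p (u + 1) w := ev_lt' hu
  obtain ⟨τ1, hτ1⟩ := Nat.exists_eq_add_of_le (show u + 1 ≤ t₁ + L by omega)
  obtain ⟨τ2, hτ2⟩ := Nat.exists_eq_add_of_le (show u + 1 ≤ t₂ + L by omega)
  obtain ⟨τ3, hτ3⟩ := Nat.exists_eq_add_of_le (show u + 1 ≤ t₃ + L by omega)
  have f1 : ev p (u + 1 + τ1) r k := by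
    rw [← hτ1, hL1]
    exact e1
  have f2 : ev p (u + 1 + τ2) s r := by
    rw [← hτ2, hL1]
    exact e2
  have f3 : ev p (u + 1 + τ3) k s := by
    rw [← hτ3, hL1]
    exact e3
  have fn : ∀ v, u + 1 + τ1 < v → v < u + 1 + τ3 → ¬ ev p v w k ∧ ¬ ev p v k w := by
    intro v hv1 hv3
    obtain ⟨v', rfl⟩ := Nat.exists_eq_add_of_le (show L ≤ v by omega)
    rw [add_comm L v', hL1, hL1]
    exact hn v' (by omega) (by omega)
  have hw : w < m := by omega
  let fw : Fin m := ⟨w, hw⟩
  let fr : Fin m := ⟨r, hr⟩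
  let fs : Fin m := ⟨s, hs⟩
  let fk : Fin m := ⟨k, hk⟩
  have g1 : fw ≠ fr := fun h => by
    have := congrArg Fin.val h
    simp only [fw, fr] at this
    omega
  have g2 : fw ≠ fs := fun h => by
    have := congrArg Fin.val h
    simp only [fw, fs] at this
    omega
  have g3 : fw ≠ fk := fun h => hwk (congrArg Fin.val h)
  have g4 : fr ≠ fs := fun h => hsr (congrArg Fin.val h).symm
  have g5 : fr ≠ fk := fun h => hrk (congrArg Fin.val h)
  have g6 : fs ≠ fk := fun h => hks (congrArg Fin.val h).symm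
  have hrec := cc_rec (p := p) fw fr fs fk (u + 1) g1 g2 g3 g4 g5 g6
  set n : ℕ := τ3 + 1 with hn0
  have hnL : τ3 < n * L := by
    have : n * 1 ≤ n * L := Nat.mul_le_mul_left n hL
    omega
  -- the block
  have hwr1 : ps p (u + 1) w < ps p (u + 1) r := never_lt hwr hlr _
  have hws1 : ps p (u + 1) w < ps p (u + 1) s := never_lt hws hls _
  have hmem : ∀ a : Fin m, ((a : ℕ) ∈ ({w, r, s, k} : Finset ℕ) ∧
      ps p (u + 1) w < ps p (u + 1) a) ↔ a = fr ∨ a = fs := by
    intro a
    constructor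
    · rintro ⟨ha, ha'⟩
      simp only [Finset.mem_insert, Finset.mem_singleton] at ha
      rcases ha with ha | ha | ha | ha
      · rw [ha] at ha'
        omega
      · exact Or.inl (Fin.ext ha)
      · exact Or.inr (Fin.ext ha)
      · rw [ha] at ha'
        omega
    · rintro (rfl | rfl)
      · exact ⟨by simp [fr], hwr1⟩
      · exact ⟨by simp [fs], hws1⟩
  obtain ⟨a, ha⟩ := det_one h hG {w, r, s, k} {w} 1 (fun _ => 1) le_rfl (fun _ => Or.inl rfl)
    (w := w) (by simp) (by simp) (u + 1) n (by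
      ext x y
      rw [Matrix.toSquareBlockProp_def, Matrix.of_apply, Matrix.one_apply]
      have := cc_one (p := p) (k := fk) (w := fw) (r := fr) (s := fs) hwr hws g1 g2 (u + 1)
        (n * L) x y ((hmem _).1 y.2)
      rw [this]
      by_cases hxy : x = y
      · rw [if_pos hxy, if_pos (congrArg _ hxy)]
      · rw [if_neg hxy, if_neg fun h => hxy (Subtype.ext h)])
  -- the determinant of the block
  have hdet : ccm (dmat m {w, r, s, k} (ccv w) p (u + 1) (n * L)) fr fs fr fs = X ^ a := by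
    rw [← ha]
    have hbij : Function.Bijective (fun i : Fin 2 => if i = 0 then
        (⟨fr, (hmem _).2 (Or.inl rfl)⟩ : {a : Fin m // (a : ℕ) ∈ ({w, r, s, k} : Finset ℕ) ∧
          ps p (u + 1) w < ps p (u + 1) a}) else ⟨fs, (hmem _).2 (Or.inr rfl)⟩) := by
      constructor
      · intro i j hij
        fin_cases i <;> fin_cases j
        · rfl
        · exact absurd (congrArg Subtype.val hij) g4
        · exact absurd (congrArg Subtype.val hij).symm g4
        · rfl
      · rintro ⟨x, hx⟩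
        rcases (hmem _).1 hx with rfl | rfl
        · exact ⟨0, rfl⟩
        · exact ⟨1, rfl⟩
    rw [← Matrix.det_submatrix_equiv_self (Equiv.ofBijective _ hbij), Matrix.det_fin_two]
    show _ = dmat m {w, r, s, k} (ccv w) p (u + 1) (n * L) fr fr *
      dmat m {w, r, s, k} (ccv w) p (u + 1) (n * L) fs fs -
      dmat m {w, r, s, k} (ccv w) p (u + 1) (n * L) fr fs *
      dmat m {w, r, s, k} (ccv w) p (u + 1) (n * L) fs fr
    unfold ccm
    ring
  obtain ⟨-, -, i3⟩ := cc_str hrec hwr hws hlr hls hwk h0 (t1 := τ1) (t2 := τ2) (t3 := τ3)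
    (by omega) (by omega) f1 f2 f3 fn (n * L)
  obtain ⟨b, j1, j2⟩ := i3 hnL
  have hdet' : ccm (dmat m {(fw : ℕ), (fr : ℕ), (fs : ℕ), (fk : ℕ)} (ccv fw) p (u + 1) (n * L))
    fr fs fr fs = X ^ a := hdet
  rw [hdet'] at j1 j2
  rw [derivative_X_pow] at j1
  simp at j1 j2
  rw [j1] at j2
  exact lt_irrefl _ j2

end Pool.Agent.AMU
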