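import Pool.Agent.AMU0.Base

open Matrix

namespace Pool.Agent.AMU

/-- the colours `c` are the pull-back of the colours `c'` along `c0` -/
def cabcab_PB (c0 c c' : ℕ → ℕ) : Prop :=
  (∀ i, c0 i ≤ 1) ∧ ∀ i, c i = if c0 i = 0 then 0 else c' (off c0 i)

lemma cabcab_zero {c0 c c' : ℕ → ℕ} (h : cabcab_PB c0 c c') {i : ℕ} (hi : c0 i = 0) : c i = 0 := by
  rw [h.2 i, if_pos hi]

lemma cabcab_one {c0 c c' : ℕ → ℕ} (h : cabcab_PB c0 c c') {i : ℕ} (hi : c0 i = 1) :
    c i = c' (off c0 i) := by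
  rw [h.2 i, if_neg (by omega)]

lemma cabcab_01 {c0 c c' : ℕ → ℕ} (h : cabcab_PB c0 c c') (i : ℕ) : c0 i = 0 ∨ c0 i = 1 := by
  have := h.1 i
  omega

lemma cabcab_off {c0 c c' : ℕ → ℕ} (h : cabcab_PB c0 c c') : ∀ i, off c i = off c' (off c0 i)
  | 0 => by simp [off]
  | i + 1 => by
    rw [off_succ, off_succ, cabcab_off h i]
    rcases cabcab_01 h i with h1 | h1
    · rw [cabcab_zero h h1, h1, Nat.add_zero, Nat.add_zero]
    · rw [cabcab_one h h1, h1, off_succ]

lemma cabcab_bw_zero (o b : ℕ) : bw o 0 b = [] := by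
  induction b with
  | zero => rfl
  | succ b ih =>
    rw [bw, ih]
    rfl

lemma cabcab_bw_one (o : ℕ) : bw o 1 1 = [(o, true)] := rfl

lemma cabcab_winv_nil : winv [] = [] := rfl

lemma cabcab_block_nil {c : ℕ → ℕ} {x : ℕ × Bool} (h : c x.1 = 0 ∨ c (x.1 + 1) = 0) :
    blockLetter c x = [] := by
  unfold blockLetter
  rcases h with h | h
  · rw [h]
    split_ifs
    · exact cabcab_bw_zero _ _
    · rfl
  · rw [h]
    split_ifs
    · rfl
    · rw [cabcab_bw_zero]
      rfl

lemma cabcab_block_one {c : ℕ → ℕ} {x : ℕ × Bool} (h : c x.1 = 1) (h' : c (x.1 + 1) = 1) :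
    blockLetter c x = [(off c x.1, x.2)] := by
  unfold blockLetter
  rw [h, h', cabcab_bw_one]
  split_ifs with h1
  · rw [h1]
  · rw [Bool.not_eq_true] at h1
    rw [h1]
    rfl

/-- one letter -/
lemma cabcab_letter {c0 c c' : ℕ → ℕ} (h : cabcab_PB c0 c c') (x : ℕ × Bool) :
    blockLetter c x = cab c' (blockLetter c0 x) ∧
      cabcab_PB (cs c0 x.1) (cs c x.1) (outc c' (blockLetter c0 x)) := by
  have hoff := cabcab_off h
  have h01 := cabcab_01 h
  by_cases hz : c0 x.1 = 0 ∨ c0 (x.1 + 1) = 0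
  · have hz' : c x.1 = 0 ∨ c (x.1 + 1) = 0 := by
      rcases hz with h1 | h1
      · exact Or.inl (cabcab_zero h h1)
      · exact Or.inr (cabcab_zero h h1)
    rw [cabcab_block_nil hz, cabcab_block_nil hz']
    refine ⟨rfl, fun j => h.1 _, fun j => ?_⟩
    show cs c x.1 j = if cs c0 x.1 j = 0 then 0 else c' (off (cs c0 x.1) j)
    rcases Nat.lt_trichotomy j x.1 with h1 | h1 | h1
    · rw [cs_apply_ne c (by omega) (by omega), cs_apply_ne c0 (by omega) (by omega),
        off_cs_le c0 h1.le]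
      exact h.2 j
    · rw [h1, cs_apply_left, cs_apply_left, off_cs_le c0 le_rfl, h.2 (x.1 + 1), off_succ]
      rcases h01 (x.1 + 1) with h2 | h2
      · rw [if_pos h2, if_pos h2]
      · rw [if_neg (by omega), if_neg (by omega)]
        rcases hz with h3 | h3
        · rw [h3, Nat.add_zero]
        · omega
    · rcases Nat.lt_or_ge j (x.1 + 2) with h4 | h4
      · have h5 : j = x.1 + 1 := by omega
        rw [h5, cs_apply_right, cs_apply_right, off_succ, off_cs_le c0 le_rfl, cs_apply_left,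
          h.2 x.1]
        rcases h01 x.1 with h2 | h2
        · rw [if_pos h2, if_pos h2]
        · rw [if_neg (by omega), if_neg (by omega)]
          rcases hz with h3 | h3
          · omega
          · rw [h3, Nat.add_zero]
      · rw [cs_apply_ne c (by omega) (by omega), cs_apply_ne c0 (by omega) (by omega),
          off_cs_ge c0 h4]
        exact h.2 j
  · push Not at hz
    have h1 : c0 x.1 = 1 := by
      have := h01 x.1
      omega
    have h2 : c0 (x.1 + 1) = 1 := by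
      have := h01 (x.1 + 1)
      omega
    have h3 : c x.1 = c' (off c0 x.1) := cabcab_one h h1
    have h4 : c (x.1 + 1) = c' (off c0 x.1 + 1) := by
      rw [cabcab_one h h2, off_succ, h1]
    rw [cabcab_block_one h1 h2]
    refine ⟨?_, fun j => h.1 _, fun j => ?_⟩
    · show blockLetter c x = blockLetter c' (off c0 x.1, x.2) ++ []
      rw [List.append_nil]
      unfold blockLetter
      show (if x.2 then bw (off c x.1) (c x.1) (c (x.1 + 1)) else
        winv (bw (off c x.1) (c (x.1 + 1)) (c x.1))) =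
        (if x.2 then bw (off c' (off c0 x.1)) (c' (off c0 x.1)) (c' (off c0 x.1 + 1)) else
        winv (bw (off c' (off c0 x.1)) (c' (off c0 x.1 + 1)) (c' (off c0 x.1))))
      rw [hoff, h3, h4]
    · show cs c x.1 j = if cs c0 x.1 j = 0 then 0 else
        cs c' (off c0 x.1) (off (cs c0 x.1) j)
      rcases Nat.lt_trichotomy j x.1 with h5 | h5 | h5
      · rw [cs_apply_ne c (by omega) (by omega), cs_apply_ne c0 (by omega) (by omega),
          off_cs_le c0 h5.le, h.2 j]
        rcases h01 j with h6 | h6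
        · rw [if_pos h6, if_pos h6]
        · rw [if_neg (by omega), if_neg (by omega)]
          have h7 : off c0 (j + 1) ≤ off c0 x.1 := off_mono c0 h5
          rw [off_succ, h6] at h7
          rw [cs_apply_ne c' (by omega) (by omega)]
      · rw [h5, cs_apply_left, cs_apply_left, off_cs_le c0 le_rfl, cs_apply_left,
          if_neg (by omega), h4]
      · rcases Nat.lt_or_ge j (x.1 + 2) with h6 | h6
        · have h7 : j = x.1 + 1 := by omega
          rw [h7, cs_apply_right, cs_apply_right, off_succ, off_cs_le c0 le_rfl, cs_apply_left,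
            if_neg (by omega), h2, cs_apply_right, h3]
        · rw [cs_apply_ne c (by omega) (by omega), cs_apply_ne c0 (by omega) (by omega),
            off_cs_ge c0 h6, h.2 j]
          rcases h01 j with h7 | h7
          · rw [if_pos h7, if_pos h7]
          · rw [if_neg (by omega), if_neg (by omega)]
            have h8 : off c0 (x.1 + 2) ≤ off c0 j := off_mono c0 h6
            rw [off_succ, off_succ, h1, h2] at h8
            rw [cs_apply_ne c' (by omega) (by omega)]

lemma cabcab_outc_append (c : ℕ → ℕ) : ∀ u v : List (ℕ × Bool),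
    outc c (u ++ v) = outc (outc c v) u
  | [], _ => rfl
  | x :: u, v => by
    show cs (outc c (u ++ v)) x.1 = cs (outc (outc c v) u) x.1
    rw [cabcab_outc_append c u v]

/-- words -/
lemma cabcab_word {c0 c c' : ℕ → ℕ} (h : cabcab_PB c0 c c') : ∀ w : List (ℕ × Bool),
    cab c w = cab c' (cab c0 w) ∧ cabcab_PB (outc c0 w) (outc c w) (outc c' (cab c0 w))
  | [] => ⟨rfl, h⟩
  | x :: w => by
    obtain ⟨h1, h2⟩ := cabcab_word h w
    obtain ⟨h3, h4⟩ := cabcab_letter h2 x
    refine ⟨?_, ?_⟩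
    · rw [cab, cab, cab_append, h1, h3]
    · rw [cab, cabcab_outc_append]
      exact h4

/-- vectors of `n` strands which are killed by the Temperley-Lieb generators at the positions `S` -/
def cabcab_CB (n : ℕ) (S : Set ℕ) (A : ℂ) (k : ℕ) (v : Idx n → ℂ) : Prop :=
  v ∈ block n A k ∧ ∀ q ∈ S, tl n A A⁻¹ q *ᵥ v = 0

def cabcab_S (m : ℕ) (c : ℕ → ℕ) : Set ℕ := {q | ∃ l u, l < m ∧ u + 2 ≤ c l ∧ q = off c l + u}

lemma cabcab_mem {m : ℕ} {c : ℕ → ℕ} {A : ℂ} {k : ℕ} {v : Idx (off c m) → ℂ} :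
    v ∈ colBlock m c A k ↔ cabcab_CB (off c m) (cabcab_S m c) A k v := by
  constructor
  · rintro ⟨h1, h2⟩
    refine ⟨h1, ?_⟩
    rintro q ⟨l, u, hl, hu, rfl⟩
    exact h2 l u hl hu
  · rintro ⟨h1, h2⟩
    exact ⟨h1, fun l u hl hu => h2 _ ⟨l, u, hl, hu, rfl⟩⟩

lemma cabcab_transfer {n n' : ℕ} (hn : n = n') {S S' : Set ℕ} (hS : S ⊆ S') {W W' : List (ℕ × Bool)}
    (hW : W = W') {A : ℂ} {k p : ℕ} {t : ℂ}
    (h : ∃ v, cabcab_CB n' S' A k v ∧ (wordMat n' A A⁻¹ W' ^ p) *ᵥ v ≠ t • v) :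
    ∃ v, cabcab_CB n S A k v ∧ (wordMat n A A⁻¹ W ^ p) *ᵥ v ≠ t • v := by
  subst hn hW
  obtain ⟨v, hv, h1⟩ := h
  exact ⟨v, ⟨hv.1, fun q hq => hv.2 q (hS hq)⟩, h1⟩

/-- cabling after deleting strands is a cabling with zero colours -/
theorem cab_cab {m : ℕ} {w : List (ℕ × Bool)} (hw : PureWord m w) (c0 : ℕ → ℕ)
    (hc0 : ∀ i, c0 i ≤ 1) (c' : ℕ → ℕ) : ∃ c : ℕ → ℕ, ∀ (A : ℂ) (k : ℕ),
      ColInfinite (off c0 m) c' A (cab c0 w) k → ColInfinite m c A w k := by
  have _ := hw
  obtain ⟨c, hc⟩ : ∃ c : ℕ → ℕ, ∀ i, c i = if c0 i = 0 then 0 else c' (off c0 i) :=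
    ⟨fun i => if c0 i = 0 then 0 else c' (off c0 i), fun i => rfl⟩
  have hPB : cabcab_PB c0 c c' := ⟨hc0, hc⟩
  refine ⟨c, fun A k hinf p hp t => ?_⟩
  obtain ⟨v, hv, h1⟩ := hinf p hp t
  have h2 : ∃ v, cabcab_CB (off c m) (cabcab_S m c) A k v ∧
      (wordMat (off c m) A A⁻¹ (cab c w) ^ p) *ᵥ v ≠ t • v := by
    refine cabcab_transfer (cabcab_off hPB m) (S' := cabcab_S (off c0 m) c') ?_
      (cabcab_word hPB w).1 ⟨v, cabcab_mem.1 hv, h1⟩
    rintro q ⟨l, u, hl, hu, rfl⟩
    have h3 : c0 l = 1 := by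
      rcases cabcab_01 hPB l with h3 | h3
      · rw [cabcab_zero hPB h3] at hu
        omega
      · exact h3
    have h4 : off c0 (l + 1) ≤ off c0 m := off_mono c0 hl
    rw [off_succ, h3] at h4
    refine ⟨off c0 l, u, by omega, ?_, ?_⟩
    · rw [← cabcab_one hPB h3]
      exact hu
    · rw [cabcab_off hPB]
  obtain ⟨v', hv', h3⟩ := h2
  exact ⟨v', cabcab_mem.2 hv', h3⟩

lemma cabcab_outl_ge {m p : ℕ} (hp : m ≤ p) : ∀ {w : List (ℕ × Bool)}, Letters m w → outl p w = p
  | [], _ => rfl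
  | x :: w, hw => by
    have h1 : x.1 + 1 < m := hw x (by simp)
    have h2 : Letters m w := fun y hy => hw y (by simp [hy])
    rw [outl, cabcab_outl_ge hp h2, Equiv.swap_apply_of_ne_of_ne (by omega) (by omega)]

theorem cab_pure {m : ℕ} {w : List (ℕ × Bool)} (hw : PureWord m w) (c0 : ℕ → ℕ) :
    PureWord (off c0 m) (cab c0 w) := by
  refine ⟨letters_cab c0 hw.1, fun l => ?_⟩
  rcases Nat.lt_or_ge l (off c0 m) with h1 | h1
  · exact outl_cab_pure hw c0 h1
  · exact cabcab_outl_ge h1 (letters_cab c0 hw.1)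

end Pool.Agent.AMU
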