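import Pool.Agent.AMU0.CabCab

open Matrix

namespace Pool.Agent.AMU

/-- cabling after deleting strands is a cabling with zero colours; divisibility of the colours is
inherited -/
theorem cab_cab_dvd {m : ℕ} (w : List (ℕ × Bool)) (c0 : ℕ → ℕ)
    (hc0 : ∀ i, c0 i ≤ 1) (c' : ℕ → ℕ) : ∃ c : ℕ → ℕ, (∀ d, (∀ i, d ∣ c' i) → ∀ i, d ∣ c i) ∧
      off c m = off c' (off c0 m) ∧ ∀ (A : ℂ) (k : ℕ),
      ColInfinite (off c0 m) c' A (cab c0 w) k → ColInfinite m c A w k := by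
  obtain ⟨c, hc⟩ : ∃ c : ℕ → ℕ, ∀ i, c i = if c0 i = 0 then 0 else c' (off c0 i) :=
    ⟨fun i => if c0 i = 0 then 0 else c' (off c0 i), fun i => rfl⟩
  have hPB : cabcab_PB c0 c c' := ⟨hc0, hc⟩
  refine ⟨c, fun d hd i => ?_, cabcab_off hPB m, fun A k hinf p hp t => ?_⟩
  · rw [hc]
    split_ifs
    · exact dvd_zero d
    · exact hd _
  obtain ⟨v, hv, h1⟩ := hinf p hp t
  have h2 : ∃ v, cabcab_CB (off c m) (cabcab_S m c) A k v ∧
      (wordMat (off c m) A A⁻¹ (cab c w) ^ p) *ᵥ v ≠ t • v := by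
    refine cabcab_transfer (cabcab_off hPB m) (S' := cabcab_S (off c0 m) c') ?_
      (cabcab_word hPB w).1 ⟨v, cabcab_mem.1 hv, h1⟩
    rintro q ⟨l, u, hl, hu, rfl⟩
    have h3 : c0 l = 1 := by
      rcases cabcab_01 hPB l with h3 | h3
      · rw [cabcab_zero hPB h3] at hu
        omega
      · exact h3
    have h4 : off c0 (l + 1) ≤ off c0 m := off_mono c0 hl
    rw [off_succ, h3] at h4
    refine ⟨off c0 l, u, by omega, ?_, ?_⟩
    · rw [← cabcab_one hPB h3]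
      exact hu
    · rw [cabcab_off hPB]
  obtain ⟨v', hv', h3⟩ := h2
  exact ⟨v', cabcab_mem.2 hv', h3⟩

end Pool.Agent.AMU
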