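import Pool.Agent.AMU0.Trk

open Matrix

namespace Pool.Agent.AMU

section
variable {R : Type*} [CommRing R] {m L : ℕ} {p : ℕ → ℕ} {T : Finset ℕ} {v : ℕ → R}

theorem dmat_add (m : ℕ) (T : Finset ℕ) (v : ℕ → R) (p : ℕ → ℕ) (s n k : ℕ) :
    dmat m T v p s (n + k) = dmat m T v p (s + n) k * dmat m T v p s n := by
  induction k with
  | zero =>
    show dmat m T v p s n = 1 * dmat m T v p s n
    rw [one_mul]
  | succ k ih =>
    show stepT m T v p (s + (n + k)) * dmat m T v p s (n + k) =
      stepT m T v p (s + n + k) * dmat m T v p (s + n) k * dmat m T v p s n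
    rw [ih, Matrix.mul_assoc, add_assoc]

private lemma dm_step_map {S : Type*} [CommRing S] (f : R →+* S) (m : ℕ) (T : Finset ℕ) (v : ℕ → R)
    (p : ℕ → ℕ) (t : ℕ) :
    (stepT m T v p t).map f = stepT m T (fun x => f (v x)) p t := by
  unfold stepT
  split_ifs with h
  · ext x y
    simp only [stepM, Matrix.map_apply]
    split_ifs <;> simp
  · exact Matrix.map_one f (map_zero f) (map_one f)

theorem dmat_map {S : Type*} [CommRing S] (f : R →+* S) (m : ℕ) (T : Finset ℕ) (v : ℕ → R)
    (p : ℕ → ℕ) (s n : ℕ) :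
    (dmat m T v p s n).map f = dmat m T (fun x => f (v x)) p s n := by
  induction n with
  | zero => exact Matrix.map_one f (map_zero f) (map_one f)
  | succ n ih =>
    show (stepT m T v p (s + n) * dmat m T v p s n).map f =
      stepT m T (fun x => f (v x)) p (s + n) * dmat m T (fun x => f (v x)) p s n
    rw [Matrix.map_mul, dm_step_map, ih]

/-- rows of `stepM * M` which are not the row `b` -/
private lemma dm_row {a b : ℕ} (M : Matrix (Fin m) (Fin m) R) (x z : Fin m) (hx : (x : ℕ) ≠ b) :
    (stepM m v a b * M) x z = (if (x : ℕ) = a then v b else 1) * M x z := by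
  rw [Matrix.mul_apply, Finset.sum_eq_single x]
  · simp [stepM]
  · intro y _ hy
    have h1 : (x : ℕ) ≠ y := fun h => hy (Fin.ext h.symm)
    simp [stepM, h1, hx]
  · intro h
    exact absurd (Finset.mem_univ x) h

private lemma dm_rowb {a b : ℕ} (hab : a ≠ b) (ha : a < m) (M : Matrix (Fin m) (Fin m) R)
    (x z : Fin m) (hx : (x : ℕ) = b) :
    (stepM m v a b * M) x z = M x z + (1 - v a) * M ⟨a, ha⟩ z := by
  have h0 : x ≠ (⟨a, ha⟩ : Fin m) := by
    intro h
    apply hab
    rw [← hx, h]
  rw [Matrix.mul_apply, ← Finset.sum_subset (Finset.subset_univ ({x, ⟨a, ha⟩} : Finset (Fin m)))]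
  · rw [Finset.sum_pair h0]
    have h2 : ¬ (b = a) := fun h => hab h.symm
    simp [stepM, hx, h2]
  · intro y _ hy
    simp only [Finset.mem_insert, Finset.mem_singleton, not_or] at hy
    have h1 : (x : ℕ) ≠ y := fun h => hy.1 (Fin.ext h.symm)
    have h2 : (y : ℕ) ≠ a := fun h => hy.2 (Fin.ext h)
    simp [stepM, h1, h2]

private lemma dm_stepT_eq {a b s : ℕ} (he : ev p s a b) (ha : a ∈ T) (hb : b ∈ T) :
    stepT m T v p s = stepM m v a b := by
  obtain ⟨h1, h2⟩ := he
  unfold stepT
  rw [h1, h2, if_pos ⟨ha, hb⟩]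

/-- the step in coordinates, if both strands are in `T` -/
theorem stepT_mul {a b s : ℕ} (he : ev p s a b) (ha : a ∈ T) (hb : b ∈ T) (hab : a < m ∧ b < m)
    (M : Matrix (Fin m) (Fin m) R) (x z : Fin m) :
    (stepT m T v p s * M) x z =
      if (x : ℕ) = a then v b * M ⟨a, hab.1⟩ z
      else if (x : ℕ) = b then M ⟨b, hab.2⟩ z + (1 - v a) * M ⟨a, hab.1⟩ z
      else M x z := by
  rw [dm_stepT_eq he ha hb]
  have hne : a ≠ b := ev_ne he
  by_cases h1 : (x : ℕ) = a
  · rw [dm_row M x z (by rw [h1]; exact hne), if_pos h1, if_pos h1]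
    have : x = ⟨a, hab.1⟩ := Fin.ext h1
    rw [this]
  · rw [if_neg h1]
    by_cases h2 : (x : ℕ) = b
    · rw [dm_rowb hne hab.1 M x z h2, if_pos h2]
      have : x = ⟨b, hab.2⟩ := Fin.ext h2
      rw [this]
    · rw [dm_row M x z h2, if_neg h1, if_neg h2, one_mul]

/-- the step is trivial if one of the strands is not in `T` -/
theorem stepT_out {a b s : ℕ} (he : ev p s a b) (h : a ∉ T ∨ b ∉ T) :
    stepT m T v p s = 1 := by
  obtain ⟨h1, h2⟩ := he
  unfold stepT
  rw [h1, h2, if_neg]
  rintro ⟨h3, h4⟩
  rcases h with h | h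
  · exact h h3
  · exact h h4

theorem stepT_det {a b s : ℕ} (he : ev p s a b) (ha : a ∈ T) (hb : b ∈ T) (hab : a < m ∧ b < m) :
    (stepT m T v p s).det = v b := by
  rw [dm_stepT_eq he ha hb]
  have hne : a ≠ b := ev_ne he
  have hprod : ∏ i : Fin m, stepM m v a b i i = v b := by
    rw [Finset.prod_eq_single (⟨a, hab.1⟩ : Fin m)]
    · simp [stepM]
    · intro i _ hi
      have h1 : (i : ℕ) ≠ a := fun h => hi (Fin.ext h)
      simp [stepM, h1]
    · intro h
      exact absurd (Finset.mem_univ _) h
  rcases lt_or_gt_of_ne hne with hlt | hlt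
  · rw [Matrix.det_of_isLowerTriangular, hprod]
    intro i j hij
    have hij' : i < j := hij
    have h1 : (i : ℕ) < j := hij'
    have h2 : (i : ℕ) ≠ j := by omega
    have h3 : ¬ ((i : ℕ) = b ∧ (j : ℕ) = a) := by omega
    simp only [stepM]
    rw [if_neg h2, if_neg h3]
  · rw [Matrix.det_of_isUpperTriangular, hprod]
    intro i j hij
    have hij' : j < i := hij
    have h1 : (j : ℕ) < i := hij'
    have h2 : (i : ℕ) ≠ j := by omega
    have h3 : ¬ ((i : ℕ) = b ∧ (j : ℕ) = a) := by omega
    simp only [stepM]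
    rw [if_neg h2, if_neg h3]

private lemma dm_stepT_per (h : IsTrack m L p) (T : Finset ℕ) (v : ℕ → R) (t k : ℕ) :
    stepT m T v p (t + k * L) = stepT m T v p t := by
  unfold stepT
  rw [per_mul h, conf_mul h]

theorem dmat_per (h : IsTrack m L p) (T : Finset ℕ) (v : ℕ → R) (s n k : ℕ) :
    dmat m T v p (s + k * L) n = dmat m T v p s n := by
  induction n with
  | zero => rfl
  | succ n ih =>
    show stepT m T v p (s + k * L + n) * dmat m T v p (s + k * L) n =
      stepT m T v p (s + n) * dmat m T v p s n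
    rw [ih, show s + k * L + n = s + n + k * L by ring, dm_stepT_per h]

theorem dmat_pow (h : IsTrack m L p) (T : Finset ℕ) (v : ℕ → R) (s n : ℕ) :
    dmat m T v p s (n * L) = dmat m T v p s L ^ n := by
  induction n with
  | zero =>
    rw [zero_mul, pow_zero]
    rfl
  | succ n ih =>
    rw [show (n + 1) * L = n * L + L by ring, dmat_add, dmat_per h, ih, pow_succ']

theorem dmat_out {s n : ℕ} {a c : Fin m} (hac : (a : ℕ) ∉ T ∨ (c : ℕ) ∉ T) :
    dmat m T v p s n a c = if a = c then 1 else 0 := by
  induction n generalizing a with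
  | zero =>
    show (1 : Matrix (Fin m) (Fin m) R) a c = _
    rw [Matrix.one_apply]
  | succ n ih =>
    show (stepT m T v p (s + n) * dmat m T v p s n) a c = _
    set t := s + n with ht
    by_cases hT : conf p t (p t) ∈ T ∧ conf p t (p t + 1) ∈ T
    · rw [dm_stepT_eq (ev_self p t) hT.1 hT.2]
      rcases hac with h | h
      · have h1 : (a : ℕ) ≠ conf p t (p t) := fun e => h (e ▸ hT.1)
        have h2 : (a : ℕ) ≠ conf p t (p t + 1) := fun e => h (e ▸ hT.2)
        rw [dm_row _ a c h2, if_neg h1, one_mul, ih (Or.inl h)]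
      · have h1 : (c : ℕ) ≠ conf p t (p t) := fun e => h (e ▸ hT.1)
        rw [Matrix.mul_apply]
        have h3 : ∀ y : Fin m, stepM m v (conf p t (p t)) (conf p t (p t + 1)) a y *
            dmat m T v p s n y c =
            if y = c then stepM m v (conf p t (p t)) (conf p t (p t + 1)) a c else 0 := by
          intro y
          rw [ih (Or.inr h)]
          by_cases hy : y = c
          · rw [if_pos hy, if_pos hy, mul_one, hy]
          · rw [if_neg hy, if_neg hy, mul_zero]
        rw [Finset.sum_congr rfl fun y _ => h3 y, Finset.sum_ite_eq' Finset.univ c,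
          if_pos (Finset.mem_univ c)]
        simp only [stepM]
        by_cases hac' : a = c
        · rw [if_pos (congrArg Fin.val hac'), if_pos hac', if_neg]
          rw [hac']
          exact h1
        · have h4 : (a : ℕ) ≠ c := fun e => hac' (Fin.ext e)
          rw [if_neg h4, if_neg hac', if_neg]
          rintro ⟨_, h5⟩
          exact h1 h5
    · have h1 : stepT m T v p t = 1 := by
        unfold stepT
        rw [if_neg hT]
      rw [h1, one_mul, ih hac]

/-- Nothing passes from the left of a wall to its right. -/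
theorem wall_tri (h : IsTrack m L p) {w : ℕ} (hwT : w ∈ T) (hv : v w = 0) {s n : ℕ} {a c : Fin m}
    (ha : (a : ℕ) ∈ T) (hc : (c : ℕ) ∈ T) (hc' : ps p s c ≤ ps p s w)
    (ha' : ps p (s + n) w < ps p (s + n) a) : dmat m T v p s n a c = 0 := by
  induction n generalizing a with
  | zero =>
    show (1 : Matrix (Fin m) (Fin m) R) a c = 0
    apply Matrix.one_apply_ne
    rintro rfl
    rw [add_zero] at ha'
    omega
  | succ n ih =>
    show (stepT m T v p (s + n) * dmat m T v p s n) a c = 0
    have hs : s + (n + 1) = (s + n) + 1 := by ring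
    rw [hs] at ha'
    set t := s + n with ht
    set x := conf p t (p t) with hx
    set y := conf p t (p t + 1) with hy
    have he : ev p t x y := ev_self p t
    have key : ∀ z : ℕ, z ≠ w → ¬ ev p t z w → ps p (t + 1) w < ps p (t + 1) z →
        ps p t w < ps p t z := by
      intro z hzw hz hz'
      by_contra hcon
      have h1 : ps p t z ≠ ps p t w := fun e => hzw (ps_inj e)
      have h2 : ps p t z < ps p t w := by omega
      rcases order_succ h2 with h3 | h3
      · omega
      · exact hz h3
    have haw : (a : ℕ) ≠ w := by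
      intro e
      rw [e] at ha'
      omega
    have hxy := ev_ltm h he
    by_cases hT : x ∈ T ∧ y ∈ T
    · rw [stepT_mul he hT.1 hT.2 hxy]
      by_cases h1 : (a : ℕ) = x
      · rw [if_pos h1]
        by_cases h2 : y = w
        · have h3 : v y = 0 := by
            rw [h2]
            exact hv
          rw [h3, zero_mul]
        · rw [ih (a := ⟨x, hxy.1⟩) hT.1, mul_zero]
          show ps p t w < ps p t x
          rw [← h1]
          refine key a haw ?_ ha'
          intro h3
          exact h2 (ev_unique he h3).2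
      · rw [if_neg h1]
        by_cases h2 : (a : ℕ) = y
        · rw [if_pos h2]
          have h3 : ps p (t + 1) y = p t := ps_succ_right he
          have h4 : ps p (t + 1) x = p t + 1 := ps_succ_left he
          rw [h2, h3] at ha'
          have h5 : w ≠ x := by
            intro e
            rw [e, h4] at ha'
            omega
          have h6 : w ≠ y := by
            intro e
            rw [e, h3] at ha'
            omega
          have h7 := ps_succ_ne he h5 h6
          have h8 := (ev_ps.1 he)
          rw [ih (a := ⟨y, hxy.2⟩) hT.2 (by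
            show ps p t w < ps p t y
            omega), ih (a := ⟨x, hxy.1⟩) hT.1 (by
            show ps p t w < ps p t x
            omega), mul_zero, add_zero]
        · rw [if_neg h2]
          exact ih ha (key a haw (fun h3 => h1 (ev_unique he h3).1.symm) ha')
    · have h1 : stepT m T v p t = 1 := by
        unfold stepT
        rw [if_neg hT]
      rw [h1, one_mul]
      refine ih ha (key a haw ?_ ha')
      intro h3
      apply hT
      have h4 := ev_unique he h3
      rw [h4.1, h4.2]
      exact ⟨ha, hwT⟩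

end

section
variable {m : ℕ} {p : ℕ → ℕ} {T : Finset ℕ} {v : ℕ → ℝ}

private lemma dm_stepT_nonneg (h0 : ∀ s, 0 ≤ v s) (h1 : ∀ s, v s ≤ 1) (t : ℕ) (x y : Fin m) :
    0 ≤ stepT m T v p t x y := by
  unfold stepT
  split_ifs with h
  · simp only [stepM]
    split_ifs with h2 h3 h4
    · exact h0 _
    · exact zero_le_one
    · exact sub_nonneg.2 (h1 _)
    · exact le_refl 0
  · rw [Matrix.one_apply]
    split_ifs
    · exact zero_le_one
    · exact le_refl 0

theorem dmat_nonneg (h0 : ∀ s, 0 ≤ v s) (h1 : ∀ s, v s ≤ 1) (s n : ℕ) (x y : Fin m) :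
    0 ≤ dmat m T v p s n x y := by
  induction n generalizing x with
  | zero =>
    show 0 ≤ (1 : Matrix (Fin m) (Fin m) ℝ) x y
    rw [Matrix.one_apply]
    split_ifs
    · exact zero_le_one
    · exact le_refl 0
  | succ n ih =>
    show 0 ≤ (stepT m T v p (s + n) * dmat m T v p s n) x y
    rw [Matrix.mul_apply]
    exact Finset.sum_nonneg fun z _ => mul_nonneg (dm_stepT_nonneg h0 h1 _ _ _) (ih z)

theorem dmat_ge (h0 : ∀ s, 0 ≤ v s) (h1 : ∀ s, v s ≤ 1) (s n k : ℕ) (x y z : Fin m) :
    dmat m T v p (s + n) k x y * dmat m T v p s n y z ≤ dmat m T v p s (n + k) x z := by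
  rw [dmat_add, Matrix.mul_apply]
  exact Finset.single_le_sum
    (f := fun y => dmat m T v p (s + n) k x y * dmat m T v p s n y z)
    (fun i _ => mul_nonneg (dmat_nonneg h0 h1 _ _ _ _) (dmat_nonneg h0 h1 _ _ _ _))
    (Finset.mem_univ y)

/-- staying on a strand -/
theorem dmat_stay (h0 : ∀ s, 0 ≤ v s) (h1 : ∀ s, v s ≤ 1) {s n : ℕ} {x : Fin m}
    (h : ∀ u b, s ≤ u → u < s + n → b ∈ T → ev p u x b → 0 < v b) :
    0 < dmat m T v p s n x x := by
  induction n with
  | zero =>
    show 0 < (1 : Matrix (Fin m) (Fin m) ℝ) x x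
    rw [Matrix.one_apply_eq]
    exact zero_lt_one
  | succ n ih =>
    have h2 := ih fun u b hu hu' hb he => h u b hu (by omega) hb he
    show 0 < (stepT m T v p (s + n) * dmat m T v p s n) x x
    rw [Matrix.mul_apply]
    have h3 : 0 < stepT m T v p (s + n) x x := by
      unfold stepT
      split_ifs with hT
      · unfold stepM
        rw [if_pos rfl]
        split_ifs with hx
        · exact h (s + n) _ (by omega) (by omega) hT.2 ⟨hx.symm, rfl⟩
        · exact zero_lt_one
      · rw [Matrix.one_apply_eq]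
        exact zero_lt_one
    calc 0 < stepT m T v p (s + n) x x * dmat m T v p s n x x := mul_pos h3 h2
      _ ≤ _ := Finset.single_le_sum
        (f := fun y => stepT m T v p (s + n) x y * dmat m T v p s n y x)
        (fun i _ => mul_nonneg (dm_stepT_nonneg h0 h1 _ _ _) (dmat_nonneg h0 h1 _ _ _ _))
        (Finset.mem_univ x)

/-- jumping to the other strand -/
theorem dmat_jump {s : ℕ} {a b : Fin m} (he : ev p s a b) (ha : (a : ℕ) ∈ T) (hb : (b : ℕ) ∈ T) :
    dmat m T v p s 1 b a = 1 - v a := by
  show (stepT m T v p (s + 0) * (1 : Matrix (Fin m) (Fin m) ℝ)) b a = 1 - v a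
  have hne : (b : ℕ) ≠ a := fun e => ev_ne he e.symm
  rw [Matrix.mul_one, add_zero, dm_stepT_eq he ha hb]
  unfold stepM
  rw [if_neg hne, if_pos ⟨rfl, rfl⟩]

end

end Pool.Agent.AMU
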