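import Pool.Agent.AMU0.Ginv
import Pool.Agent.AMU0.Dm

open Matrix

namespace Pool.Agent.AMU

private noncomputable def dynG (q z : ℂ) (K : ℕ) (p : ℕ → ℕ) (F : GV) : ℕ → GV
  | 0 => F
  | t + 1 => gop q z K (p t) (dynG q z K p F t)

private lemma dynG_congr {q z : ℂ} {K : ℕ} {p p' : ℕ → ℕ} {F : GV} : ∀ t, (∀ u, u < t → p u = p' u) →
    dynG q z K p F t = dynG q z K p' F t
  | 0, _ => rfl
  | t + 1, h => by
    show gop q z K (p t) (dynG q z K p F t) = gop q z K (p' t) (dynG q z K p' F t)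
    rw [dynG_congr t fun u hu => h u (by omega), h t (by omega)]

private lemma dynG_gw (q z : ℂ) (K : ℕ) (F : GV) : ∀ X : List ℕ,
    gw q z K (posw X) F = dynG q z K (trk X) F X.length
  | [] => rfl
  | x :: X => by
    have h1 : gw q z K (posw (x :: X)) F = gop q z K x (gw q z K (posw X) F) := if_pos rfl
    have h2 : dynG q z K (trk (x :: X)) F (x :: X).length =
      gop q z K (trk (x :: X) X.length) (dynG q z K (trk (x :: X)) F X.length) := rfl
    rw [h1, h2, trk_cons, dynG_gw q z K F X, dynG_congr (p := trk (x :: X)) (p' := trk X) X.length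
      fun u hu => trk_cons_lt hu]

open Classical in
private noncomputable def dynF (m : ℕ) (κ0 : ℕ → Fin 4) (c : Equiv.Perm ℕ) (y : Fin m → ℂ) : GV :=
  fun κ pos => if h : κ = κ0 ∘ c ∧ c pos < m then y ⟨c pos, h.2⟩ else 0

private lemma dynF_pos {m : ℕ} {κ0 : ℕ → Fin 4} {c : Equiv.Perm ℕ} {y : Fin m → ℂ}
    {κ : ℕ → Fin 4} {pos : ℕ} (h : κ = κ0 ∘ c) {a : Fin m} (ha : c pos = a) :
    dynF m κ0 c y κ pos = y a := by
  unfold dynF
  rw [dif_pos ⟨h, by rw [ha]; exact a.2⟩]
  congr 1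
  exact Fin.ext ha

private lemma dynF_neg {m : ℕ} {κ0 : ℕ → Fin 4} {c : Equiv.Perm ℕ} {y : Fin m → ℂ}
    {κ : ℕ → Fin 4} {pos : ℕ} (h : ¬ (κ = κ0 ∘ c ∧ c pos < m)) :
    dynF m κ0 c y κ pos = 0 := by
  unfold dynF
  rw [dif_neg h]

private lemma dyn_csw {κ0 : ℕ → Fin 4} {c : Equiv.Perm ℕ} {k : ℕ} {κ : ℕ → Fin 4} :
    csw κ k = κ0 ∘ c ↔ κ = κ0 ∘ (c * Equiv.swap k (k + 1) : Equiv.Perm ℕ) := by
  unfold csw
  constructor
  · intro h
    funext s
    have h1 := congrFun h (Equiv.swap k (k + 1) s)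
    simp only [Function.comp_apply, Equiv.swap_apply_self] at h1
    rw [h1]
    rfl
  · intro h
    rw [h]
    funext s
    simp only [Function.comp_apply, Equiv.Perm.mul_apply, Equiv.swap_apply_self]

private lemma dyn_step (q z : ℂ) (K m : ℕ) (κ0 : ℕ → Fin 4) (c : Equiv.Perm ℕ) (k : ℕ) (a b : Fin m)
    (ha : c k = a) (hb : c (k + 1) = b) (y y' : Fin m → ℂ)
    (hy1 : (κ0 a = 0 ∨ κ0 b = 0) → y' = y)
    (hy2 : ¬ (κ0 a = 0 ∨ κ0 b = 0) → ∀ s, y' s =
      if (s : ℕ) = a then wt4 q z K (κ0 b) * y a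
      else if (s : ℕ) = b then y b + (1 - wt4 q z K (κ0 a)) * y a else y s) :
    gop q z K k (dynF m κ0 c y) = dynF m κ0 (c * Equiv.swap k (k + 1)) y' := by
  have hab : (a : ℕ) ≠ b := by
    intro h
    rw [← ha, ← hb] at h
    have := c.injective h
    omega
  funext κ pos
  by_cases hκ : κ = κ0 ∘ (c * Equiv.swap k (k + 1) : Equiv.Perm ℕ)
  · have hκ' : csw κ k = κ0 ∘ c := dyn_csw.2 hκ
    have hκk : κ k = κ0 b := by
      rw [hκ]
      simp only [Function.comp_apply, Equiv.Perm.mul_apply, Equiv.swap_apply_left]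
      rw [hb]
    have hκk1 : κ (k + 1) = κ0 a := by
      rw [hκ]
      simp only [Function.comp_apply, Equiv.Perm.mul_apply, Equiv.swap_apply_right]
      rw [ha]
    have hFa : dynF m κ0 c y (csw κ k) k = y a := dynF_pos hκ' ha
    have hFb : dynF m κ0 c y (csw κ k) (k + 1) = y b := dynF_pos hκ' hb
    unfold gop
    simp only [hκk, hκk1]
    by_cases h1 : pos = k + 1
    · rw [if_pos h1]
      have h2 : dynF m κ0 (c * Equiv.swap k (k + 1)) y' κ pos = y' a := by
        apply dynF_pos hκ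
        rw [h1, Equiv.Perm.mul_apply, Equiv.swap_apply_right, ha]
      rw [h2, hFa]
      by_cases h3 : κ0 b = 0 ∨ κ0 a = 0
      · rw [if_pos h3, hy1 (Or.symm h3)]
      · rw [if_neg h3, hy2 (fun h => h3 (Or.symm h)), if_pos rfl]
    · rw [if_neg h1]
      by_cases h2 : pos = k
      · rw [if_pos h2]
        have h4 : dynF m κ0 (c * Equiv.swap k (k + 1)) y' κ pos = y' b := by
          apply dynF_pos hκ
          rw [h2, Equiv.Perm.mul_apply, Equiv.swap_apply_left, hb]
        rw [h4, hFa, hFb]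
        by_cases h3 : κ0 b = 0 ∨ κ0 a = 0
        · rw [if_pos h3, hy1 (Or.symm h3)]
        · rw [if_neg h3, hy2 (fun h => h3 (Or.symm h)), if_neg (fun h => hab h.symm), if_pos rfl]
          ring
      · rw [if_neg h2]
        have h5 : (c * Equiv.swap k (k + 1) : Equiv.Perm ℕ) pos = c pos := by
          rw [Equiv.Perm.mul_apply, Equiv.swap_apply_of_ne_of_ne h2 h1]
        by_cases h6 : c pos < m
        · rw [dynF_pos (a := ⟨c pos, h6⟩) hκ' rfl, dynF_pos (a := ⟨c pos, h6⟩) hκ h5]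
          by_cases h3 : κ0 a = 0 ∨ κ0 b = 0
          · rw [hy1 h3]
          · rw [hy2 h3, if_neg, if_neg]
            · show c pos ≠ b
              rw [← hb]
              exact fun h => h1 (c.injective h)
            · show c pos ≠ a
              rw [← ha]
              exact fun h => h2 (c.injective h)
        · rw [dynF_neg (fun h => h6 h.2), dynF_neg (fun h => h6 (h5 ▸ h.2))]
  · have h0 : ∀ r, dynF m κ0 c y (csw κ k) r = 0 := fun r =>
      dynF_neg fun h => hκ (dyn_csw.1 h.1)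
    rw [dynF_neg (fun h => hκ h.1)]
    unfold gop
    simp only [h0, mul_zero, add_zero, ite_self]

/-- the colours of the strands -/
private noncomputable def dynκ (T Z : Finset ℕ) (e : ℕ → ℕ) (s : ℕ) : Fin 4 :=
  if s ∈ T then (if s ∈ Z then 1 else if e s = 1 then 2 else 3) else 0

private lemma dynκ_zero {T Z : Finset ℕ} {e : ℕ → ℕ} {s : ℕ} : dynκ T Z e s = 0 ↔ s ∉ T := by
  unfold dynκ
  by_cases h : s ∈ T
  · rw [if_pos h]
    constructor
    · intro h1
      exfalso
      by_cases h2 : s ∈ Z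
      · rw [if_pos h2] at h1
        exact absurd h1 (by decide)
      · rw [if_neg h2] at h1
        by_cases h3 : e s = 1
        · rw [if_pos h3] at h1
          exact absurd h1 (by decide)
        · rw [if_neg h3] at h1
          exact absurd h1 (by decide)
    · intro h1
      exact absurd h h1
  · rw [if_neg h]
    exact ⟨fun _ => h, fun _ => rfl⟩

private lemma dynκ_wt {T Z : Finset ℕ} {e : ℕ → ℕ} {K : ℕ} (he : ∀ s, e s = 1 ∨ e s = K) (q z : ℂ)
    {s : ℕ} (hs : s ∈ T) : wt4 q z K (dynκ T Z e s) = if s ∈ Z then z else q ^ e s := by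
  unfold dynκ
  rw [if_pos hs]
  by_cases h2 : s ∈ Z
  · rw [if_pos h2, if_pos h2]
    rfl
  · rw [if_neg h2, if_neg h2]
    by_cases h3 : e s = 1
    · rw [if_pos h3, h3, pow_one]
      rfl
    · rw [if_neg h3]
      rcases he s with h4 | h4
      · exact absurd h4 h3
      · rw [h4]
        rfl

private lemma dyn_main {m L : ℕ} {p : ℕ → ℕ} (h : IsTrack m L p) (T Z : Finset ℕ) (K : ℕ)
    (e : ℕ → ℕ) (he : ∀ s, e s = 1 ∨ e s = K) (q z : ℂ) (x : Fin m → ℂ) : ∀ t,
    dynG q z K p (dynF m (dynκ T Z e) 1 x) t = dynF m (dynκ T Z e) (conf p t)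
      (dmat m T (fun s => if s ∈ Z then z else q ^ e s) p 0 t *ᵥ x)
  | 0 => by
    show dynF m (dynκ T Z e) 1 x = dynF m (dynκ T Z e) 1 ((1 : Matrix (Fin m) (Fin m) ℂ) *ᵥ x)
    rw [Matrix.one_mulVec]
  | t + 1 => by
    have hev := ev_self p t
    obtain ⟨hla, hlb⟩ := ev_ltm h hev
    show gop q z K (p t) (dynG q z K p (dynF m (dynκ T Z e) 1 x) t) = _
    rw [dyn_main h T Z K e he q z x t]
    have hc : conf p (t + 1) = conf p t * Equiv.swap (p t) (p t + 1) := rfl
    rw [hc]
    apply dyn_step q z K m (dynκ T Z e) (conf p t) (p t) ⟨conf p t (p t), hla⟩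
      ⟨conf p t (p t + 1), hlb⟩ rfl rfl
    · intro h1
      have h2 : conf p t (p t) ∉ T ∨ conf p t (p t + 1) ∉ T := by
        rcases h1 with h1 | h1
        · exact Or.inl (dynκ_zero.1 h1)
        · exact Or.inr (dynκ_zero.1 h1)
      show (stepT m T _ p (0 + t) * dmat m T _ p 0 t) *ᵥ x = _
      rw [Nat.zero_add, stepT_out hev h2, Matrix.one_mul]
    · intro h1 s
      have h2 : conf p t (p t) ∈ T := by
        by_contra h3
        exact h1 (Or.inl (dynκ_zero.2 h3))
      have h2' : conf p t (p t + 1) ∈ T := by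
        by_contra h3
        exact h1 (Or.inr (dynκ_zero.2 h3))
      have h4 : (dmat m T (fun s => if s ∈ Z then z else q ^ e s) p 0 (t + 1) *ᵥ x) s =
          ∑ r, (stepT m T (fun s => if s ∈ Z then z else q ^ e s) p t *
            dmat m T (fun s => if s ∈ Z then z else q ^ e s) p 0 t) s r * x r := by
        show ((stepT m T _ p (0 + t) * dmat m T _ p 0 t) *ᵥ x) s = _
        rw [Nat.zero_add]
        rfl
      rw [h4]
      simp only [stepT_mul hev h2 h2' ⟨hla, hlb⟩]
      show _ = if (s : ℕ) = conf p t (p t) then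
          wt4 q z K (dynκ T Z e (conf p t (p t + 1))) * _
        else if (s : ℕ) = conf p t (p t + 1) then
          _ + (1 - wt4 q z K (dynκ T Z e (conf p t (p t)))) * _ else _
      rw [dynκ_wt he q z h2, dynκ_wt he q z h2']
      by_cases h5 : (s : ℕ) = conf p t (p t)
      · simp only [if_pos h5]
        show _ = _ * ∑ r, _ * x r
        rw [Finset.mul_sum]
        exact Finset.sum_congr rfl fun r _ => by rw [mul_assoc]
      · simp only [if_neg h5]
        by_cases h6 : (s : ℕ) = conf p t (p t + 1)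
        · simp only [if_pos h6]
          show _ = (∑ r, _ * x r) + _ * ∑ r, _ * x r
          rw [Finset.mul_sum, ← Finset.sum_add_distrib]
          exact Finset.sum_congr rfl fun r _ => by rw [add_mul, mul_assoc]
        · simp only [if_neg h6]
          rfl

private lemma dyn_spec {m : ℕ} (M : Matrix (Fin m) (Fin m) ℂ) (l : ℂ) :
    Eig M l ↔ l ∈ spectrum ℂ M := by
  rw [eig_iff_det, spectrum.mem_iff, Matrix.isUnit_iff_isUnit_det, isUnit_iff_ne_zero, not_not]
  rfl

private lemma dyn_det {m L : ℕ} {p : ℕ → ℕ} (h : IsTrack m L p) (T : Finset ℕ) (v : ℕ → ℂ)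
    (hv : ∀ s, v s ≠ 0) : ∀ t, (dmat m T v p 0 t).det ≠ 0
  | 0 => by
    show (1 : Matrix (Fin m) (Fin m) ℂ).det ≠ 0
    rw [Matrix.det_one]
    exact one_ne_zero
  | t + 1 => by
    have hev := ev_self p t
    show (stepT m T v p (0 + t) * dmat m T v p 0 t).det ≠ 0
    rw [Nat.zero_add, Matrix.det_mul]
    apply mul_ne_zero _ (dyn_det h T v hv t)
    by_cases h1 : conf p t (p t) ∈ T ∧ conf p t (p t + 1) ∈ T
    · rw [stepT_det hev h1.1 h1.2 (ev_ltm h hev)]
      exact hv _
    · rw [stepT_out hev (by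
        by_contra h2
        push Not at h2
        exact h1 h2), Matrix.det_one]
      exact one_ne_zero

theorem good_of_u1 {m : ℕ} {X : List ℕ} (hX : X ≠ []) (hL : Lt m X) (hp : PureWord m (posw X))
    (h : U1 (posw X)) : Good m X.length (trk X) := by
  intro T Z K e hK he q z hq hz s0 n l hl
  have hT : IsTrack m X.length (trk X) := isTrack_trk hX hL hp
  set v : ℕ → ℂ := fun s => if s ∈ Z then z else q ^ e s with hvdef
  have hv : ∀ s, v s ≠ 0 := by
    intro s h0
    have h1 : ‖v s‖ = 1 := by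
      simp only [hvdef]
      by_cases h2 : s ∈ Z
      · rw [if_pos h2, hz]
      · rw [if_neg h2, norm_pow, hq, one_pow]
    rw [h0, norm_zero] at h1
    exact zero_ne_one h1
  -- the eigenvalues over one period from time `0`
  have key0 : ∀ μ : ℂ, Eig (dmat m T v (trk X) 0 X.length) μ → ‖μ‖ = 1 := by
    rintro μ ⟨x, hx, hμ⟩
    have hF : gw q z K (posw X) (dynF m (dynκ T Z e) 1 x) = μ • dynF m (dynκ T Z e) 1 x := by
      rw [dynG_gw, dyn_main hT T Z K e he q z x X.length, hT.pure]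
      show dynF m (dynκ T Z e) 1 (dmat m T v (trk X) 0 X.length *ᵥ x) = _
      rw [hμ]
      funext κ pos
      show dynF m (dynκ T Z e) 1 (μ • x) κ pos = μ * dynF m (dynκ T Z e) 1 x κ pos
      by_cases h1 : κ = dynκ T Z e ∘ (1 : Equiv.Perm ℕ) ∧ (1 : Equiv.Perm ℕ) pos < m
      · rw [dynF_pos (a := ⟨(1 : Equiv.Perm ℕ) pos, h1.2⟩) h1.1 rfl,
          dynF_pos (a := ⟨(1 : Equiv.Perm ℕ) pos, h1.2⟩) h1.1 rfl]
        rfl
      · rw [dynF_neg h1, dynF_neg h1, mul_zero]
    have hne : dynF m (dynκ T Z e) 1 x ≠ 0 := by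
      intro h0
      apply hx
      funext i
      have h1 := congrFun (congrFun h0 (dynκ T Z e ∘ (1 : Equiv.Perm ℕ))) (i : ℕ)
      rw [dynF_pos (a := i) rfl rfl] at h1
      exact h1
    exact h K q z hK hq hz _ μ hne hF
  -- other starting times
  have hconj : dmat m T v (trk X) s0 X.length * dmat m T v (trk X) 0 s0 =
      dmat m T v (trk X) 0 s0 * dmat m T v (trk X) 0 X.length := by
    have h1 := dmat_add m T v (trk X) 0 s0 X.length
    have h2 := dmat_add m T v (trk X) 0 X.length s0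
    have h3 := dmat_per hT T v 0 s0 1
    rw [Nat.one_mul] at h3
    rw [Nat.zero_add] at h1
    rw [h3] at h2
    rw [← h1, ← h2, Nat.add_comm]
  have key1 : ∀ μ : ℂ, Eig (dmat m T v (trk X) s0 X.length) μ → ‖μ‖ = 1 := by
    rintro μ ⟨y, hy, hμ⟩
    apply key0 μ
    have hdet : IsUnit (dmat m T v (trk X) 0 s0).det := isUnit_iff_ne_zero.2 (dyn_det hT T v hv s0)
    refine ⟨(dmat m T v (trk X) 0 s0)⁻¹ *ᵥ y, ?_, ?_⟩
    · intro h0
      apply hy
      have h1 := congrArg (fun w => dmat m T v (trk X) 0 s0 *ᵥ w) h0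
      simp only [Matrix.mulVec_mulVec, Matrix.mul_nonsing_inv _ hdet, Matrix.one_mulVec,
        Matrix.mulVec_zero] at h1
      exact h1
    · have h2 : dmat m T v (trk X) 0 X.length =
          (dmat m T v (trk X) 0 s0)⁻¹ * (dmat m T v (trk X) s0 X.length *
            dmat m T v (trk X) 0 s0) := by
        rw [hconj, ← Matrix.mul_assoc, Matrix.nonsing_inv_mul _ hdet, Matrix.one_mul]
      rw [h2, Matrix.mulVec_mulVec, Matrix.mul_assoc, Matrix.mul_assoc,
        Matrix.mul_nonsing_inv _ hdet, Matrix.mul_one, ← Matrix.mulVec_mulVec, hμ,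
        Matrix.mulVec_smul]
  -- several periods
  rw [dmat_pow hT] at hl
  rcases Nat.eq_zero_or_pos n with hn | hn
  · rw [hn, pow_zero] at hl
    obtain ⟨y, hy, hμ⟩ := hl
    rw [Matrix.one_mulVec] at hμ
    have h1 : (l - 1) • y = 0 := by
      rw [sub_smul, one_smul, ← hμ, sub_self]
    rcases smul_eq_zero.1 h1 with h2 | h2
    · rw [sub_eq_zero.1 h2, norm_one]
    · exact absurd h2 hy
  · rw [dyn_spec, spectrum.map_pow_of_pos _ hn] at hl
    obtain ⟨μ, hμ, rfl⟩ := hl
    show ‖μ ^ n‖ = 1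
    rw [norm_pow, key1 μ ((dyn_spec _ μ).2 hμ), one_pow]

end Pool.Agent.AMU
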