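import Pool.Agent.AMU0.HRW1

open Matrix

namespace Pool.Agent.AMU

variable {m L : ℕ} {p : ℕ → ℕ} {R W : Finset ℕ}

/-- the next exit from the region -/
private lemma hrw3_exit (h : IsTrack m L p) (hW : W.Nonempty) {n u : ℕ} (hin : inP p W u n)
    (hc : ∀ w ∈ W, Crs p n w) :
    ∃ t₃ w₂, u ≤ t₃ ∧ w₂ ∈ W ∧ ev p t₃ n w₂ ∧ ∀ s, u ≤ s → s ≤ t₃ → inP p W s n := by
  classical
  obtain ⟨w, hw⟩ := hW
  obtain ⟨⟨v, hv1, -, hv2⟩, -⟩ := crs_both h (hc w hw) u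
  have hex : ∃ v, u ≤ v ∧ ∃ w ∈ W, ev p v n w := ⟨v, hv1, w, hw, hv2⟩
  obtain ⟨h1, w₂, h2, h3⟩ := Nat.find_spec hex
  refine ⟨Nat.find hex, w₂, h1, h2, h3, fun s hs1 hs2 w' hw' => ?_⟩
  refine order_keep hs1 (hin w' hw') fun v' h4 h5 h6 => ?_
  exact Nat.find_min hex (lt_of_lt_of_le h5 hs2) ⟨h4, w', hw', h6⟩

/-- the last time before `t` with a property -/
private lemma hrw3_last {P : ℕ → Prop} {t u : ℕ} (hu : u < t) (hP : P u) :
    ∃ t₀, t₀ < t ∧ P t₀ ∧ ∀ s, t₀ < s → s < t → ¬ P s := by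
  induction t with
  | zero => omega
  | succ t ih =>
    by_cases h1 : P t
    · exact ⟨t, by omega, h1, fun s h2 h3 => by omega⟩
    · have h2 : u < t := by
        by_contra h3
        have h4 : u = t := by omega
        exact h1 (h4 ▸ hP)
      obtain ⟨t₀, h3, h4, h5⟩ := ih h2
      refine ⟨t₀, by omega, h4, fun s h6 h7 => ?_⟩
      by_cases h8 : s = t
      · rw [h8]
        exact h1
      · exact h5 s h6 (by omega)

/-- after an entry the strands of `R` are on the left -/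
private lemma hrw3_entry (h : IsTrack m L p) (hRW : RW m p R W) {t w n r : ℕ} (he : ev p t w n)
    (hw : w ∈ W) (hr : r ∈ R) (hnR : n ∉ R) : ps p (t + 1) r < ps p (t + 1) n := by
  have h1 := hrw_left h hRW (t + 1) r hr w hw
  have h2 := ps_succ_left he
  have h3 := ps_succ_right he
  have h4 : ps p (t + 1) r ≠ ps p (t + 1) n := fun e => hnR (ps_inj e ▸ hr)
  omega

/-- A strand which enters the region, crosses `y ∈ R` and leaves the region has crossed `x ∈ R` as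
well. -/
theorem hrw_visit (h : IsTrack m L p) (hRW : RW m p R W) (h1 : NoRR m p) (h5 : NoM m p)
    {n x y w₁ w₂ t₁ t₂ t₃ : ℕ} (hn : n < m) (hnR : n ∉ R) (hnW : n ∉ W) (hx : x ∈ R) (hy : y ∈ R)
    (hw₁ : w₁ ∈ W) (hw₂ : w₂ ∈ W) (h12 : t₁ < t₂) (h23 : t₂ < t₃) (e₁ : ev p t₁ w₁ n)
    (e₂ : ev p t₂ y n) (e₃ : ev p t₃ n w₂) (hin : ∀ u, t₁ < u → u ≤ t₃ → inP p W u n) :
    ∃ u, t₁ < u ∧ u < t₃ ∧ ev p u x n := by
  by_cases hxy : x = y
  · exact ⟨t₂, h12, h23, hxy ▸ e₂⟩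
  by_contra hcon
  push Not at hcon
  have hA := rw_typeA h hRW hn hnR (hin (t₁ + 1) (by omega) (by omega)) hx
    (hrw3_entry h hRW e₁ hw₁ hx hnR)
  by_cases hww : w₁ = w₂
  · subst hww
    exact h1 x w₁ n t₁ t₃ (hRW.lt x hx w₁ hw₁) (hRW.Wm w₁ hw₁) hn (hRW.nev x hx w₁ hw₁) (hA.1 x hx)
      (by omega) e₁ e₃ fun u h2 h3 => hcon u h2 h3
  have hc1 : Crs p w₁ w₂ := by
    have h2 : ps p (t₁ + 1) w₁ < ps p (t₁ + 1) w₂ := by
      have h3 := hin (t₁ + 1) (by omega) (by omega) w₂ hw₂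
      have h4 := ps_succ_left e₁
      have h6 := ps_succ_right e₁
      have h7 : ps p (t₁ + 1) w₁ ≠ ps p (t₁ + 1) w₂ := fun e => hww (ps_inj e)
      omega
    have h3 : ps p t₃ w₂ < ps p t₃ w₁ := by
      have h4 := hin t₃ (by omega) le_rfl w₁ hw₁
      obtain ⟨h6, h7⟩ := ev_ps.1 e₃
      have h8 : ps p t₃ w₁ ≠ ps p t₃ w₂ := fun e => hww (ps_inj e)
      omega
    obtain ⟨u, -, -, hu⟩ := exists_ev (by omega) h2 h3
    exact ⟨u, Or.inl hu⟩
  -- `x` stays to the left of `n`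
  have hxn : ∀ u, t₁ < u → u ≤ t₃ → ps p u x < ps p u n := by
    intro u h2 h3
    refine order_keep (t := t₁ + 1) (by omega) (hrw3_entry h hRW e₁ hw₁ hx hnR) fun v h4 h6 => ?_
    exact hcon v (by omega) (by omega)
  have hc2 : Crs p x y := by
    by_contra hncr
    have h2 : ps p (t₂ + 1) x < ps p (t₂ + 1) y := by
      have h3 := hxn (t₂ + 1) (by omega) (by omega)
      have h4 := ps_succ_left e₂
      have h6 := ps_succ_right e₂
      omega
    have hlt : x < y := by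
      by_contra h3
      have h4 := never_lt (fun hx => hncr (crs_symm hx)) (show y < x by omega) (t₂ + 1)
      omega
    have h3 : ps p t₃ y < ps p t₃ n := by
      have h4 := hrw_left h hRW t₃ y hy w₂ hw₂
      obtain ⟨h6, h7⟩ := ev_ps.1 e₃
      have h8 : ps p t₃ y ≠ ps p t₃ n := fun e => hnR (ps_inj e ▸ hy)
      omega
    obtain ⟨u, h4, h6, h7⟩ := exists_ev (by omega) (ev_lt' e₂) h3
    exact h1 x y n t₂ u hlt (hRW.Rm y hy) hn hncr (hA.1 x hx) (by omega) e₂ h7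
      fun v h8 h9 => hcon v (by omega) (by omega)
  exact h5 x y w₁ w₂ n t₁ t₂ t₃ (hRW.lt x hx w₁ hw₁) (hRW.lt x hx w₂ hw₂) (hRW.lt y hy w₁ hw₁)
    (hRW.lt y hy w₂ hw₂) (hRW.Wm w₁ hw₁) (hRW.Wm w₂ hw₂) hn (hRW.nev x hx w₁ hw₁)
    (hRW.nev x hx w₂ hw₂) (hRW.nev y hy w₁ hw₁) (hRW.nev y hy w₂ hw₂) hc2 hc1 (hA.1 x hx) h12 h23
    e₁ e₂ e₃ fun u h2 h3 => hcon u h2 h3

theorem hrw_rr (h : IsTrack m L p) (hRW : RW m p R W) (h1 : NoRR m p) (h4 : NoCL m p)
    (h5 : NoM m p) {t x y n : ℕ} (ht : L ≤ t) (he : ev p t x y) (hx : x ∈ R) (hy : y ∈ R)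
    (hn : n < m) (hnR : n ∉ R) (hin : inP p W t n) (hlt : ps p t y < ps p t n) :
    ¬ (sgn p W t n x = false ∧ sgn p W t n y = true) := by
  classical
  rintro ⟨hs1, hs2⟩
  unfold sgn at hs1 hs2
  rw [decide_eq_false_iff_not] at hs1
  rw [decide_eq_true_iff] at hs2
  obtain ⟨u, hu1, hu2, hu3⟩ := hs2
  have hnW : n ∉ W := fun hw => lt_irrefl _ (hin n hw)
  have hA := rw_typeA h hRW hn hnR hin hy hlt
  have hut : t < u := by
    rcases Nat.lt_or_ge t u with h2 | h2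
    · exact h2
    · have h3 : u = t := by omega
      rw [h3] at hu2
      exact absurd (ev_unique he hu2).1 (ev_ne he)
  have hinu : inP p W u n := hu3 u hu1 le_rfl
  obtain ⟨t₃, w₂, h31, hw₂, h33, h34⟩ := hrw3_exit h hRW.Wne hinu hA.2
  have hu3t : u < t₃ := by
    rcases Nat.lt_or_ge u t₃ with h2 | h2
    · exact h2
    · have h3 : t₃ = u := by omega
      rw [h3] at h33
      exact absurd ((ev_unique hu2 h33).1 ▸ hy) hnR
  have hint : ∀ s, t ≤ s → s ≤ t₃ → inP p W s n := by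
    intro s h2 h3
    rcases Nat.lt_or_ge s u with h6 | h6
    · exact hu3 s h2 h6.le
    · exact h34 s h6 h3
  have hnox : ∀ v, t ≤ v → v ≤ t₃ → ¬ ev p v x n := fun v h2 h3 h6 =>
    hs1 ⟨v, h2, h6, fun s h7 h8 => hint s h7 (by omega)⟩
  have hxn : ps p t x < ps p t n := (ev_lt he).trans hlt
  obtain ⟨v₀, hv1, hv2, hv3⟩ := (crs_both h (hA.1 x hx) (t - L)).1
  obtain ⟨t₀, h01, h02, h03⟩ := hrw3_last (P := fun s => (∃ w ∈ W, ev p s w n) ∨ ev p s n x)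
    (show v₀ < t by omega) (Or.inr hv3)
  have hin0 : ∀ s, t₀ < s → s ≤ t₃ → inP p W s n := by
    intro s h2 h3
    rcases Nat.lt_or_ge s t with h6 | h6
    · intro w hw
      by_contra h7
      have h8 : ps p s n ≠ ps p s w := fun e => hnW (ps_inj e ▸ hw)
      obtain ⟨v, h9, h10, h11⟩ := exists_ev h6.le (show ps p s w < ps p s n by omega) (hin w hw)
      exact h03 v (by omega) h10 (Or.inl ⟨w, hw, h11⟩)
    · exact hint s h6 h3
  rcases h02 with ⟨w₁, hw₁, h02⟩ | h02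
  · obtain ⟨v, h6, h7, h8⟩ := hrw_visit h hRW h1 h5 hn hnR hnW hx hy hw₁ hw₂
      (show t₀ < u by omega) hu3t h02 hu2 h33 hin0
    rcases Nat.lt_or_ge v t with h9 | h9
    · obtain ⟨v', h10, h11, h12⟩ := exists_ev (show v + 1 ≤ t by omega) (ev_lt' h8) hxn
      exact h03 v' (by omega) h11 (Or.inr h12)
    · exact hnox v h9 (by omega) h8
  · obtain ⟨w, hw⟩ := hRW.Wne
    refine h4 w x y n t₀ t u (hRW.lt x hx w hw) (hRW.lt y hy w hw) (hRW.Wm w hw) hn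
      (fun hc => hRW.nev x hx w hw (crs_symm hc)) (fun hc => hRW.nev y hy w hw (crs_symm hc))
      (hA.2 w hw) h01 hut h02 he hu2 fun v h6 h7 => ⟨fun h8 => ?_, fun h8 => ?_⟩
    · have h9 := hin0 v h6 (by omega) w hw
      have h10 := ev_lt h8
      omega
    · have h9 := hin0 (v + 1) (by omega) (by omega) w hw
      have h10 := ev_lt' h8
      omega

private lemma hrw3_en (h : IsTrack m L p) (hRW : RW m p R W) (h1 : NoRR m p) (h5 : NoM m p)
    {t x y r r' : ℕ} (he : ev p t x y) (hy : y ∉ R) (hx : x ∈ W) (hr : r ∈ R) (hr' : r' ∈ R)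
    (hin : inP p W (t + 1) y) (hs : sgn p W (t + 1) y r = true) :
    sgn p W (t + 1) y r' = true := by
  classical
  unfold sgn at hs ⊢
  rw [decide_eq_true_iff] at hs ⊢
  obtain ⟨u, hu1, hu2, hu3⟩ := hs
  have hyW : y ∉ W := fun hw => lt_irrefl _ (hin y hw)
  have hym := (ev_ltm h he).2
  have hA := rw_typeA h hRW hym hy hin hr (hrw3_entry h hRW he hx hr hy)
  have hinu : inP p W u y := hu3 u hu1 le_rfl
  obtain ⟨t₃, w₂, h31, hw₂, h33, h34⟩ := hrw3_exit h hRW.Wne hinu hA.2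
  have hu3t : u < t₃ := by
    rcases Nat.lt_or_ge u t₃ with h2 | h2
    · exact h2
    · have h3 : t₃ = u := by omega
      rw [h3] at h33
      exact absurd ((ev_unique hu2 h33).1 ▸ hr) hy
  have hint : ∀ s, t < s → s ≤ t₃ → inP p W s y := by
    intro s h2 h3
    rcases Nat.lt_or_ge s u with h6 | h6
    · exact hu3 s h2 h6.le
    · exact h34 s h6 h3
  obtain ⟨v, h6, h7, h8⟩ := hrw_visit h hRW h1 h5 hym hy hyW hr' hr hx hw₂
    (show t < u by omega) hu3t he hu2 h33 hint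
  exact ⟨v, h6, h8, fun s h9 h10 => hint s h9 (by omega)⟩

theorem hrw_en (h : IsTrack m L p) (hRW : RW m p R W) (h1 : NoRR m p) (h5 : NoM m p)
    {t x y r r' : ℕ} (he : ev p t x y) (hy : y ∉ R) (hx : x ∈ W) (hr : r ∈ R) (hr' : r' ∈ R)
    (hin : inP p W (t + 1) y) : sgn p W (t + 1) y r = sgn p W (t + 1) y r' := by
  rw [Bool.eq_iff_iff]
  exact ⟨hrw3_en h hRW h1 h5 he hy hx hr hr' hin, hrw3_en h hRW h1 h5 he hy hx hr' hr hin⟩

end Pool.Agent.AMU
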