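import Pool.Agent.AMU0.HRW2
import Pool.Agent.AMU0.HRW3

open Matrix

namespace Pool.Agent.AMU

theorem hrw {m L : ℕ} {p : ℕ → ℕ} (h : IsTrack m L p) (h1 : NoRR m p) (h2 : NoLL m p)
    (h3 : NoBad m p) (h4 : NoCL m p) (h5 : NoM m p) {R W : Finset ℕ} (hRW : RW m p R W) {t : ℕ}
    (ht : L ≤ t) : StrH m p R W (sgn p W) t where
  left := hrw_left h hRW t
  rr := fun x y n he hx hy hn hnR hin hlt => hrw_rr h hRW h1 h4 h5 ht he hx hy hn hnR hin hlt
  nn := fun x y r he hx hy hr hx' hy' hlt => hrw_nn h hRW h2 h3 ht he hx hy hr hx' hy' hlt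
  nr := fun x y he hx hy _ => hrw_nr h hRW h2 he hx hy
  rn := fun x y he _ _ hy' => hrw_rn he hy'
  leave := fun x y r r' he _ hy _ _ _ => by rw [hrw_lv he hy, hrw_lv he hy]
  enter := fun x y r r' he hy hx hr hr' hin => hrw_en h hRW h1 h5 he hy hx hr hr' hin
  keep := fun n r _ _ _ ha hb hc hd => hrw_keep ha hb hc hd

end Pool.Agent.AMU
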