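import Pool.Agent.AMU0.Rank

open Matrix Polynomial

namespace Pool.Agent.AMU

/-! ### The column of a strand, as a function on the natural numbers -/

section col

variable {R : Type*} [CommRing R]

/-- the column of the strand `c` of the matrix of the times `s, …, s + n - 1` -/
private def mmY (m : ℕ) (T : Finset ℕ) (v : ℕ → R) (p : ℕ → ℕ) (s : ℕ) (c : Fin m) (n x : ℕ) : R :=
  if h : x < m then dmat m T v p s n ⟨x, h⟩ c else 0

variable {m L : ℕ} {p : ℕ → ℕ} {T : Finset ℕ} {v : ℕ → R} {s : ℕ} {c : Fin m}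

private lemma mmY_eq (n : ℕ) (x : Fin m) : mmY m T v p s c n x = dmat m T v p s n x c := by
  unfold mmY
  rw [dif_pos x.2]

private lemma mmY_zero (x : ℕ) : mmY m T v p s c 0 x = if x = c then 1 else 0 := by
  unfold mmY dmat
  by_cases h : x < m
  · rw [dif_pos h, Matrix.one_apply]
    congr 1
    rw [Fin.ext_iff]
  · rw [dif_neg h, if_neg]
    rintro rfl
    exact h c.2

private lemma mmY_in (h : IsTrack m L p) {n a b : ℕ} (he : ev p (s + n) a b) (ha : a ∈ T)
    (hb : b ∈ T) (x : ℕ) : mmY m T v p s c (n + 1) x =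
      if x = a then v b * mmY m T v p s c n a
      else if x = b then mmY m T v p s c n b + (1 - v a) * mmY m T v p s c n a
      else mmY m T v p s c n x := by
  obtain ⟨ham, hbm⟩ := ev_ltm h he
  by_cases hx : x < m
  · have h1 : mmY m T v p s c (n + 1) x =
        (stepT m T v p (s + n) * dmat m T v p s n) ⟨x, hx⟩ c := by
      unfold mmY
      rw [dif_pos hx]
      rfl
    rw [h1, stepT_mul he ha hb ⟨ham, hbm⟩]
    unfold mmY
    rw [dif_pos ham, dif_pos hbm, dif_pos hx]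
  · have h1 : x ≠ a := by
      rintro rfl
      exact hx ham
    have h2 : x ≠ b := by
      rintro rfl
      exact hx hbm
    rw [if_neg h1, if_neg h2]
    unfold mmY
    rw [dif_neg hx, dif_neg hx]

private lemma mmY_out {n a b : ℕ} (he : ev p (s + n) a b) (hab : a ∉ T ∨ b ∉ T) (x : ℕ) :
    mmY m T v p s c (n + 1) x = mmY m T v p s c n x := by
  unfold mmY
  by_cases hx : x < m
  · rw [dif_pos hx, dif_pos hx]
    show (stepT m T v p (s + n) * dmat m T v p s n) ⟨x, hx⟩ c = _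
    rw [stepT_out he hab, one_mul]
  · rw [dif_neg hx, dif_neg hx]

end col

/-- two strands keep their order in a step, unless they cross -/
private lemma mm_back {p : ℕ → ℕ} {t a b : ℕ} (h : ps p (t + 1) a < ps p (t + 1) b)
    (hne : ¬ ev p t b a) : ps p t a < ps p t b := by
  by_contra h1
  have hab : a ≠ b := by
    rintro rfl
    omega
  have h3 : ps p t a ≠ ps p t b := fun h => hab (ps_inj h)
  rcases order_succ (p := p) (t := t) (s := b) (s' := a) (by omega) with h4 | h4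
  · omega
  · exact hne h4

/-! ### Real weights -/

section real

variable {m L : ℕ} {p : ℕ → ℕ} {T : Finset ℕ} {s : ℕ} {c : Fin m}

private lemma mmY_nonneg {v : ℕ → ℝ} (h0 : ∀ s, 0 ≤ v s) (h1 : ∀ s, v s ≤ 1) (n x : ℕ) :
    0 ≤ mmY m T v p s c n x := by
  unfold mmY
  split_ifs
  · exact dmat_nonneg h0 h1 _ _ _ _
  · exact le_rfl

/-- The weight of `w` is made smaller: the entries to the right of `w` get smaller. -/
private lemma mm_cmp (h : IsTrack m L p) {v v' : ℕ → ℝ} {w : ℕ} (hw : w ∈ T)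
    (hag : ∀ x, x ≠ w → v x = v' x) (h0 : ∀ x, 0 ≤ v' x) (h1 : ∀ x, v' x ≤ 1) (hv : v w = 0) :
    ∀ n x, x ∈ T → ps p (s + n) w < ps p (s + n) x →
      mmY m T v p s c n x ≤ mmY m T v' p s c n x := by
  intro n
  induction n with
  | zero =>
    intro x _ _
    rw [mmY_zero, mmY_zero]
  | succ n ih =>
    intro x hx hlt
    have hxw : x ≠ w := by
      rintro rfl
      omega
    have he := ev_self p (s + n)
    set a := conf p (s + n) (p (s + n))
    set b := conf p (s + n) (p (s + n) + 1)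
    have hab := ev_ne he
    rw [← add_assoc] at hlt
    by_cases hT : a ∈ T ∧ b ∈ T
    · rw [mmY_in h he hT.1 hT.2, mmY_in h he hT.1 hT.2]
      by_cases hxa : x = a
      · rw [if_pos hxa, if_pos hxa]
        by_cases hbw : b = w
        · rw [hbw, hv, zero_mul]
          exact mul_nonneg (h0 _) (mmY_nonneg h0 h1 _ _)
        · rw [hag b hbw]
          refine mul_le_mul_of_nonneg_left (ih a hT.1 ?_) (h0 _)
          rw [← hxa]
          refine mm_back hlt fun h2 => hbw ?_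
          exact (ev_unique he h2).2
      · rw [if_neg hxa, if_neg hxa]
        by_cases hxb : x = b
        · rw [if_pos hxb, if_pos hxb]
          have haw : a ≠ w := by
            intro h2
            have h3 := ev_lt' he
            rw [h2, ← hxb] at h3
            omega
          have h4 : ps p (s + n) w < ps p (s + n) b := by
            rw [← hxb]
            refine mm_back hlt fun h2 => hxa ?_
            exact (ev_unique h2 he).1
          have h5 : ps p (s + n) w < ps p (s + n) a :=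
            (ev_adj he (Ne.symm haw) (fun h2 => hxw (hxb.trans h2.symm))).2 h4
          rw [hag a haw]
          exact add_le_add (ih b hT.2 h4)
            (mul_le_mul_of_nonneg_left (ih a hT.1 h5) (sub_nonneg.2 (h1 _)))
        · rw [if_neg hxb, if_neg hxb]
          exact ih x hx (mm_back hlt fun h2 => hxa (ev_unique h2 he).1)
    · have hT' : a ∉ T ∨ b ∉ T := by
        by_contra h2
        push Not at h2
        exact hT h2
      rw [mmY_out he hT', mmY_out he hT']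
      refine ih x hx (mm_back hlt fun h2 => hT ?_)
      obtain ⟨h3, h4⟩ := ev_unique h2 he
      exact ⟨h3 ▸ hx, h4 ▸ hw⟩

end real

/-- Two walls which cross: nothing returns to the right one. -/
private lemma mm_two {R : Type*} [CommRing R] {m L : ℕ} {p : ℕ → ℕ} (h : IsTrack m L p)
    {T : Finset ℕ} {v : ℕ → R} {a b s N : ℕ} (ha : a ∈ T) (hb : b ∈ T) (hva : v a = 0)
    (hvb : v b = 0) (hc : Crs p a b) (hN : L ≤ N) (hab : ps p (s + N) a < ps p (s + N) b)
    (x : Fin m) (hx : (x : ℕ) = b) : dmat m T v p s N x x = 0 := by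
  obtain ⟨⟨u, hu1, hu2, hu3⟩, -⟩ := crs_both h hc s
  obtain ⟨j, hj⟩ := Nat.exists_eq_add_of_le (show s ≤ u + 1 by omega)
  obtain ⟨r, hr⟩ := Nat.exists_eq_add_of_le (show j ≤ N by omega)
  have h1 := ev_lt' hu3
  rw [hj] at h1
  rw [hr, dmat_add, Matrix.mul_apply]
  refine Finset.sum_eq_zero fun y _ => ?_
  rw [hr, ← add_assoc] at hab
  by_cases hy : (y : ℕ) ∈ T
  · by_cases hy2 : ps p (s + j) y ≤ ps p (s + j) a
    · rw [wall_tri h ha hva (by rw [hx]; exact hb) hy hy2 (by rw [hx]; exact hab), zero_mul]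
    · rw [wall_tri h hb hvb hy (by rw [hx]; exact hb) (by rw [hx]) (by omega), mul_zero]
  · rw [dmat_out (Or.inl hy), if_neg, mul_zero]
    rintro rfl
    exact hy (by rw [hx]; exact hb)

/-- the left one of two strands -/
private def mmL (p : ℕ → ℕ) (r r' t : ℕ) : ℕ := if ps p t r < ps p t r' then r else r'

private lemma mmL_cases (p : ℕ → ℕ) (r r' t : ℕ) : mmL p r r' t = r ∨ mmL p r r' t = r' := by
  unfold mmL
  split_ifs
  · exact Or.inl rfl
  · exact Or.inr rfl

/-- the left one after a crossing of the two strands -/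
private lemma mmL_cross {p : ℕ → ℕ} {r r' t a b : ℕ} (he : ev p t a b)
    (h : a = r ∧ b = r' ∨ a = r' ∧ b = r) : mmL p r r' (t + 1) = b := by
  have h1 := ev_lt' he
  unfold mmL
  rcases h with ⟨rfl, rfl⟩ | ⟨rfl, rfl⟩
  · rw [if_neg (by omega)]
  · rw [if_pos h1]

/-- the left one does not change, if the two strands do not cross -/
private lemma mmL_keep {p : ℕ → ℕ} {r r' t a b : ℕ} (hr : r ≠ r') (he : ev p t a b)
    (h : ¬ (a = r ∧ b = r' ∨ a = r' ∧ b = r)) : mmL p r r' (t + 1) = mmL p r r' t := by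
  unfold mmL
  have h3 : ps p t r ≠ ps p t r' := fun h => hr (ps_inj h)
  have h4 : ps p (t + 1) r ≠ ps p (t + 1) r' := fun h => hr (ps_inj h)
  by_cases h1 : ps p t r < ps p t r'
  · rw [if_pos h1, if_pos]
    rcases order_succ h1 with h2 | h2
    · exact h2
    · exact absurd (Or.inl ⟨(ev_unique he h2).1, (ev_unique he h2).2⟩) h
  · rw [if_neg h1, if_neg]
    rcases order_succ (p := p) (t := t) (s := r') (s' := r) (by omega) with h2 | h2
    · omega
    · exact absurd (Or.inr ⟨(ev_unique he h2).1, (ev_unique he h2).2⟩) h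

/-- Conditions for a function on times and strands, used for entries and differences of entries. -/
private structure MMF (p : ℕ → ℕ) (s r r' : ℕ) (F : ℕ → ℕ → ℝ) : Prop where
  ne : r ≠ r'
  nn : ∀ n x, x = r ∨ x = r' → 0 ≤ F n x
  cr : ∀ n a b, ev p (s + n) a b → (a = r ∧ b = r' ∨ a = r' ∧ b = r) → F n a + F n b ≤ F (n + 1) b
  oth : ∀ n a b x, ev p (s + n) a b → ¬ (a = r ∧ b = r' ∨ a = r' ∧ b = r) → x = r ∨ x = r' →
    1 / 2 * F n x ≤ F (n + 1) x

private lemma MMF.some_step {p : ℕ → ℕ} {s r r' : ℕ} {F : ℕ → ℕ → ℝ} (hF : MMF p s r r' F) (n : ℕ)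
    (h : 0 < F n r ∨ 0 < F n r') : 0 < F (n + 1) r ∨ 0 < F (n + 1) r' := by
  have he := ev_self p (s + n)
  have hr := hF.nn n r (Or.inl rfl)
  have hr' := hF.nn n r' (Or.inr rfl)
  by_cases hc : (conf p (s + n) (p (s + n)) = r ∧ conf p (s + n) (p (s + n) + 1) = r' ∨
      conf p (s + n) (p (s + n)) = r' ∧ conf p (s + n) (p (s + n) + 1) = r)
  · have h1 := hF.cr n _ _ he hc
    rcases hc with ⟨h2, h3⟩ | ⟨h2, h3⟩
    · right
      rw [h2, h3] at h1
      rcases h with h | h <;> linarith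
    · left
      rw [h2, h3] at h1
      rcases h with h | h <;> linarith
  · rcases h with h | h
    · left
      have := hF.oth n _ _ r he hc (Or.inl rfl)
      linarith
    · right
      have := hF.oth n _ _ r' he hc (Or.inr rfl)
      linarith

private lemma MMF.some_le {p : ℕ → ℕ} {s r r' : ℕ} {F : ℕ → ℕ → ℝ} (hF : MMF p s r r' F) {n : ℕ}
    (h : 0 < F n r ∨ 0 < F n r') : ∀ j, 0 < F (n + j) r ∨ 0 < F (n + j) r'
  | 0 => h
  | j + 1 => hF.some_step _ (hF.some_le h j)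

/-- after a crossing of the two strands the value at the left one is positive -/
private lemma MMF.cross {p : ℕ → ℕ} {s r r' : ℕ} {F : ℕ → ℕ → ℝ} (hF : MMF p s r r' F) {n a b : ℕ}
    (h : 0 < F n r ∨ 0 < F n r') (he : ev p (s + n) a b) (hab : a = r ∧ b = r' ∨ a = r' ∧ b = r) :
    0 < F (n + 1) (mmL p r r' (s + (n + 1))) := by
  have hr := hF.nn n r (Or.inl rfl)
  have hr' := hF.nn n r' (Or.inr rfl)
  have h1 := hF.cr n _ _ he hab
  rw [← add_assoc, mmL_cross he hab]
  rcases hab with ⟨h2, h3⟩ | ⟨h2, h3⟩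
  · rw [h2, h3] at h1
    rw [h3]
    rcases h with h | h <;> linarith
  · rw [h2, h3] at h1
    rw [h3]
    rcases h with h | h <;> linarith

private lemma MMF.left_step {p : ℕ → ℕ} {s r r' : ℕ} {F : ℕ → ℕ → ℝ} (hF : MMF p s r r' F) (n : ℕ)
    (h : 0 < F n (mmL p r r' (s + n))) : 0 < F (n + 1) (mmL p r r' (s + (n + 1))) := by
  have he := ev_self p (s + n)
  have h0 : 0 < F n r ∨ 0 < F n r' := by
    rcases mmL_cases p r r' (s + n) with h1 | h1
    · rw [h1] at h
      exact Or.inl h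
    · rw [h1] at h
      exact Or.inr h
  by_cases hc : (conf p (s + n) (p (s + n)) = r ∧ conf p (s + n) (p (s + n) + 1) = r' ∨
      conf p (s + n) (p (s + n)) = r' ∧ conf p (s + n) (p (s + n) + 1) = r)
  · exact hF.cross h0 he hc
  · rw [← add_assoc, mmL_keep hF.ne he hc]
    have := hF.oth n _ _ _ he hc (mmL_cases p r r' (s + n))
    linarith

private lemma MMF.left_le {p : ℕ → ℕ} {s r r' : ℕ} {F : ℕ → ℕ → ℝ} (hF : MMF p s r r' F) {n : ℕ}
    (h : 0 < F n (mmL p r r' (s + n))) : ∀ j, 0 < F (n + j) (mmL p r r' (s + (n + j)))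
  | 0 => h
  | j + 1 => hF.left_step _ (hF.left_le h j)

/-! ### The configuration -/

/-- the strands -/
private def mmT (w₁ w₂ r₁ r₂ k : ℕ) : Finset ℕ := {w₁, w₂, r₁, r₂, k}

/-- the weights -/
private noncomputable def mmW (w₁ w₂ r₁ r₂ : ℕ) (β : ℝ) (x : ℕ) : ℝ :=
  if x = w₁ ∨ x = r₁ ∨ x = r₂ then 0 else if x = w₂ then β else 1 / 2

/-- two walls on the left, two strands on the right, and another strand -/
private structure MMS (m L : ℕ) (p : ℕ → ℕ) (w₁ w₂ r₁ r₂ k : ℕ) : Prop where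
  tr : IsTrack m L p
  m1 : r₁ < m
  m2 : r₂ < m
  m3 : k < m
  l11 : w₁ < r₁
  l12 : w₁ < r₂
  l21 : w₂ < r₁
  l22 : w₂ < r₂
  n11 : ¬ Crs p w₁ r₁
  n12 : ¬ Crs p w₁ r₂
  n21 : ¬ Crs p w₂ r₁
  n22 : ¬ Crs p w₂ r₂
  cw : Crs p w₁ w₂
  cr : Crs p r₁ r₂
  ww : w₁ ≠ w₂
  rr : r₁ ≠ r₂
  k1 : k ≠ w₁
  k2 : k ≠ w₂
  k3 : k ≠ r₁
  k4 : k ≠ r₂

section conf

variable {m L : ℕ} {p : ℕ → ℕ} {w₁ w₂ r₁ r₂ k : ℕ}

private lemma mmW_nonneg {β : ℝ} (h : 0 ≤ β) (x : ℕ) : 0 ≤ mmW w₁ w₂ r₁ r₂ β x := by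
  unfold mmW
  split_ifs
  · exact le_rfl
  · exact h
  · norm_num

private lemma mmW_le {β : ℝ} (h : β ≤ 1) (x : ℕ) : mmW w₁ w₂ r₁ r₂ β x ≤ 1 := by
  unfold mmW
  split_ifs
  · norm_num
  · exact h
  · norm_num

private lemma mem_mmT {x : ℕ} :
    x ∈ mmT w₁ w₂ r₁ r₂ k ↔ x = w₁ ∨ x = w₂ ∨ x = r₁ ∨ x = r₂ ∨ x = k := by
  simp [mmT]

/-- the strands which cross `r₁` or `r₂` -/
private lemma MMS.oth (S : MMS m L p w₁ w₂ r₁ r₂ k) {x r : ℕ} (hx : x ∈ mmT w₁ w₂ r₁ r₂ k)
    (hr : r = r₁ ∨ r = r₂) {t : ℕ} (he : ev p t x r ∨ ev p t r x) (h1 : x ≠ r₁) (h2 : x ≠ r₂) :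
    x = k := by
  have hc : Crs p x r := ⟨t, he⟩
  rcases mem_mmT.1 hx with h | h | h | h | h
  · rcases hr with h' | h'
    · exact absurd (h ▸ h' ▸ hc) S.n11
    · exact absurd (h ▸ h' ▸ hc) S.n12
  · rcases hr with h' | h'
    · exact absurd (h ▸ h' ▸ hc) S.n21
    · exact absurd (h ▸ h' ▸ hc) S.n22
  · exact absurd h h1
  · exact absurd h h2
  · exact h

private lemma MMS.w_lt (S : MMS m L p w₁ w₂ r₁ r₂ k) {r : ℕ} (hr : r = r₁ ∨ r = r₂) (t : ℕ) :
    ps p t w₁ < ps p t r ∧ ps p t w₂ < ps p t r := by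
  rcases hr with rfl | rfl
  · exact ⟨never_lt S.n11 S.l11 t, never_lt S.n21 S.l21 t⟩
  · exact ⟨never_lt S.n12 S.l12 t, never_lt S.n22 S.l22 t⟩

private lemma mmW_r (β : ℝ) {r : ℕ} (hr : r = r₁ ∨ r = r₂) : mmW w₁ w₂ r₁ r₂ β r = 0 := by
  unfold mmW
  rw [if_pos (Or.inr hr)]

private lemma MMS.W_k (S : MMS m L p w₁ w₂ r₁ r₂ k) (β : ℝ) : mmW w₁ w₂ r₁ r₂ β k = 1 / 2 := by
  unfold mmW
  rw [if_neg, if_neg S.k2]
  rintro (h | h | h)
  · exact S.k1 h
  · exact S.k3 h
  · exact S.k4 h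

private lemma MMS.W_2 (S : MMS m L p w₁ w₂ r₁ r₂ k) (β : ℝ) : mmW w₁ w₂ r₁ r₂ β w₂ = β := by
  unfold mmW
  rw [if_neg, if_pos rfl]
  rintro (h | h | h)
  · exact S.ww h.symm
  · have := S.l21
    omega
  · have := S.l22
    omega

/-- the difference of two columns -/
private noncomputable def mmD (m : ℕ) (p : ℕ → ℕ) (w₁ w₂ r₁ r₂ k s : ℕ) (c : Fin m) (β θ : ℝ)
    (n x : ℕ) : ℝ :=
  mmY m (mmT w₁ w₂ r₁ r₂ k) (mmW w₁ w₂ r₁ r₂ β) p s c n x -
    θ * mmY m (mmT w₁ w₂ r₁ r₂ k) (mmW w₁ w₂ r₁ r₂ 0) p s c n x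

private lemma MMS.D_nonneg (S : MMS m L p w₁ w₂ r₁ r₂ k) {s : ℕ} {c : Fin m} {β θ : ℝ}
    (h0 : 0 ≤ β) (h1 : β ≤ 1) (t1 : θ ≤ 1) {n x : ℕ} (hx : x ∈ mmT w₁ w₂ r₁ r₂ k)
    (hlt : ps p (s + n) w₂ < ps p (s + n) x) : 0 ≤ mmD m p w₁ w₂ r₁ r₂ k s c β θ n x := by
  have h2 := mm_cmp (c := c) S.tr (v := mmW w₁ w₂ r₁ r₂ 0) (v' := mmW w₁ w₂ r₁ r₂ β) (w := w₂)
    (T := mmT w₁ w₂ r₁ r₂ k) (mem_mmT.2 (Or.inr (Or.inl rfl))) (fun y hy => by
      unfold mmW
      rw [if_neg hy, if_neg hy]) (mmW_nonneg h0) (mmW_le h1) (S.W_2 0) n x hx hlt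
  have h3 : 0 ≤ mmY m (mmT w₁ w₂ r₁ r₂ k) (mmW w₁ w₂ r₁ r₂ 0) p s c n x :=
    mmY_nonneg (mmW_nonneg le_rfl) (mmW_le zero_le_one) _ _
  unfold mmD
  nlinarith

private lemma MMS.D_F (S : MMS m L p w₁ w₂ r₁ r₂ k) (s : ℕ) (c : Fin m) {β θ : ℝ}
    (h0 : 0 ≤ β) (h1 : β ≤ 1) (t1 : θ ≤ 1) :
    MMF p s r₁ r₂ (mmD m p w₁ w₂ r₁ r₂ k s c β θ) where
  ne := S.rr
  nn := fun n x hx => S.D_nonneg h0 h1 t1
    (mem_mmT.2 (by rcases hx with h | h <;> simp [h])) (S.w_lt hx _).2
  cr := fun n a b he hab => by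
    have ha : a ∈ mmT w₁ w₂ r₁ r₂ k := mem_mmT.2 (by rcases hab with h | h <;> simp [h.1])
    have hb : b ∈ mmT w₁ w₂ r₁ r₂ k := mem_mmT.2 (by rcases hab with h | h <;> simp [h.2])
    have ha' : a = r₁ ∨ a = r₂ := by rcases hab with h | h <;> simp [h.1]
    have hne := ev_ne he
    unfold mmD
    rw [mmY_in S.tr he ha hb, mmY_in S.tr he ha hb, if_neg (Ne.symm hne), if_neg (Ne.symm hne),
      if_pos rfl, if_pos rfl, mmW_r _ ha', mmW_r _ ha']
    apply le_of_eq
    ring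
  oth := fun n a b x he hab hx => by
    have hxT : x ∈ mmT w₁ w₂ r₁ r₂ k := mem_mmT.2 (by rcases hx with h | h <;> simp [h])
    have hF : 0 ≤ mmD m p w₁ w₂ r₁ r₂ k s c β θ n x :=
      S.D_nonneg h0 h1 t1 hxT (S.w_lt hx _).2
    by_cases hT : a ∈ mmT w₁ w₂ r₁ r₂ k ∧ b ∈ mmT w₁ w₂ r₁ r₂ k
    · obtain ⟨ha, hb⟩ := hT
      by_cases hxa : x = a
      · have hb1 : b ≠ r₁ := by
          rintro h2
          have := ev_ne he
          rcases hx with h3 | h3
          · exact this (by rw [← hxa, h2, h3])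
          · exact hab (Or.inr ⟨by rw [← hxa, h3], h2⟩)
        have hb2 : b ≠ r₂ := by
          rintro h2
          have := ev_ne he
          rcases hx with h3 | h3
          · exact hab (Or.inl ⟨by rw [← hxa, h3], h2⟩)
          · exact this (by rw [← hxa, h2, h3])
        have hbk : b = k := S.oth hb hx (t := s + n) (Or.inr (by rw [hxa]; exact he)) hb1 hb2
        unfold mmD
        rw [mmY_in S.tr he ha hb, mmY_in S.tr he ha hb, if_pos hxa, if_pos hxa, hbk, S.W_k,
          S.W_k, hxa]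
        apply le_of_eq
        ring
      · by_cases hxb : x = b
        · have ha1 : a ≠ r₁ := by
            rintro h2
            have := ev_ne he
            rcases hx with h3 | h3
            · exact this (by rw [← hxb, h2, h3])
            · exact hab (Or.inl ⟨h2, by rw [← hxb, h3]⟩)
          have ha2 : a ≠ r₂ := by
            rintro h2
            have := ev_ne he
            rcases hx with h3 | h3
            · exact hab (Or.inr ⟨h2, by rw [← hxb, h3]⟩)
            · exact this (by rw [← hxb, h2, h3])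
          have hak : a = k := S.oth ha hx (t := s + n) (Or.inl (by rw [hxb]; exact he)) ha1 ha2
          have h5 : ps p (s + n) w₂ < ps p (s + n) k := by
            rw [← hak]
            have h6 := (S.w_lt hx (s + n)).2
            refine (ev_adj he ?_ ?_).2 (by rw [← hxb]; exact h6)
            · rw [hak]
              exact S.k2.symm
            · rintro h7
              rw [hxb, ← h7] at h6
              omega
          have h6 : 0 ≤ mmD m p w₁ w₂ r₁ r₂ k s c β θ n k :=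
            S.D_nonneg h0 h1 t1 (mem_mmT.2 (by simp)) h5
          unfold mmD at h6 hF ⊢
          rw [mmY_in S.tr he ha hb, mmY_in S.tr he ha hb, if_neg hxa, if_neg hxa, if_pos hxb,
            if_pos hxb, hak, S.W_k, S.W_k, ← hxb]
          linarith
        · unfold mmD at hF ⊢
          rw [mmY_in S.tr he ha hb, mmY_in S.tr he ha hb, if_neg hxa, if_neg hxa, if_neg hxb,
            if_neg hxb]
          linarith
    · have hT' : a ∉ mmT w₁ w₂ r₁ r₂ k ∨ b ∉ mmT w₁ w₂ r₁ r₂ k := by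
        by_contra h2
        push Not at h2
        exact hT h2
      unfold mmD at hF ⊢
      rw [mmY_out he hT', mmY_out he hT']
      linarith

private lemma mm_last {P : ℕ → Prop} {a : ℕ} (ha : P a) : ∀ b, a ≤ b → ¬ P b →
    ∃ t, a ≤ t ∧ t < b ∧ P t ∧ ∀ u, t < u → u ≤ b → ¬ P u
  | 0, hab, hb => by
    rw [Nat.le_zero] at hab
    exact absurd (hab ▸ ha) hb
  | b + 1, hab, hb => by
    by_cases h : P b
    · refine ⟨b, ?_, by omega, h, fun u h1 h2 => ?_⟩
      · rcases Nat.lt_or_ge b a with h3 | h3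
        · exfalso
          have : a = b + 1 := by omega
          exact hb (this ▸ ha)
        · exact h3
      · have : u = b + 1 := by omega
        rw [this]
        exact hb
    · rcases Nat.lt_or_ge b a with h3 | h3
      · exfalso
        have : a = b + 1 := by omega
        exact hb (this ▸ ha)
      · obtain ⟨t, h4, h5, h6, h7⟩ := mm_last ha b h3 h
        refine ⟨t, h4, by omega, h6, fun u h1 h2 => ?_⟩
        rcases Nat.lt_or_ge b u with h8 | h8
        · have : u = b + 1 := by omega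
          rw [this]
          exact hb
        · exact h7 u h1 h8

private lemma mm_first {P : ℕ → Prop} {a b : ℕ} (hab : a ≤ b) (ha : P a) (hb : ¬ P b) :
    ∃ t, a ≤ t ∧ t < b ∧ (∀ u, a ≤ u → u ≤ t → P u) ∧ ¬ P (t + 1) := by
  by_contra hcon
  have key : ∀ j, a + j ≤ b → ∀ u, a ≤ u → u ≤ a + j → P u := by
    intro j
    induction j with
    | zero =>
      intro _ u h1 h2
      have : u = a := by omega
      rw [this]
      exact ha
    | succ j ih =>
      intro hj u h1 h2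
      rcases Nat.lt_or_ge u (a + (j + 1)) with h3 | h3
      · exact ih (by omega) u h1 (by omega)
      · have h4 : u = a + j + 1 := by omega
        by_contra h5
        exact hcon ⟨a + j, by omega, by omega, fun v h6 h7 => ih (by omega) v h6 h7, h4 ▸ h5⟩
  obtain ⟨j, rfl⟩ := Nat.exists_eq_add_of_le hab
  exact hb (key j le_rfl _ hab le_rfl)

/-- the value at the left one is positive -/
private lemma MMS.pos_left (S : MMS m L p w₁ w₂ r₁ r₂ k) {s : ℕ} {c : Fin m}
    (hc : (c : ℕ) = mmL p r₁ r₂ s) {β : ℝ} (h0 : 0 ≤ β) (h1 : β ≤ 1) (n : ℕ) :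
    0 < mmY m (mmT w₁ w₂ r₁ r₂ k) (mmW w₁ w₂ r₁ r₂ β) p s c n (mmL p r₁ r₂ (s + n)) := by
  have hF := S.D_F s c h0 h1 (θ := 0) zero_le_one
  have h2 := hF.left_le (n := 0) (by
    unfold mmD
    rw [mmY_zero, add_zero, if_pos hc.symm]
    norm_num) n
  rw [zero_add] at h2
  unfold mmD at h2
  linarith

/-- the main inequality -/
private lemma MMS.strict (S : MMS m L p w₁ w₂ r₁ r₂ k) {s t₁ t₂ t₃ N : ℕ} {c : Fin m}
    (hc : (c : ℕ) = mmL p r₁ r₂ s) {β : ℝ} (h0 : 0 < β) (h1 : β ≤ 1) (hs : s ≤ t₁) (h12 : t₁ < t₂)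
    (h23 : t₂ < t₃) (e1 : ev p t₁ r₁ k) (e2 : ev p t₂ w₂ k) (e3 : ev p t₃ k r₂)
    (hno : ∀ u, t₁ < u → u < t₃ → ¬ ev p u w₁ k) (hN : t₃ + 1 + L ≤ s + N) :
    mmY m (mmT w₁ w₂ r₁ r₂ k) (mmW w₁ w₂ r₁ r₂ 0) p s c N (mmL p r₁ r₂ (s + N)) <
      mmY m (mmT w₁ w₂ r₁ r₂ k) (mmW w₁ w₂ r₁ r₂ β) p s c N (mmL p r₁ r₂ (s + N)) := by
  have hkT : k ∈ mmT w₁ w₂ r₁ r₂ k := mem_mmT.2 (by simp)
  have hw2T : w₂ ∈ mmT w₁ w₂ r₁ r₂ k := mem_mmT.2 (by simp)
  -- `k` is to the right of `w₁`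
  have hkw : ∀ u, t₁ < u → u ≤ t₃ → ps p u w₁ < ps p u k := by
    intro u hu1 hu2
    have h2 : ps p t₁ w₁ < ps p t₁ k := (S.w_lt (Or.inl rfl) t₁).1.trans (ev_lt e1)
    refine order_keep (t := t₁ + 1) (by omega) ?_ fun v hv1 hv2 => hno v (by omega) (by omega)
    rcases order_succ h2 with h3 | h3
    · exact h3
    · have h4 := (ev_unique h3 e1).1
      have := S.l11
      omega
  -- the interval on which `k` is to the left of `r₁` and `r₂`
  have hL2 : ps p t₂ k < ps p t₂ r₁ ∧ ps p t₂ k < ps p t₂ r₂ := by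
    constructor
    · have h2 := (S.w_lt (Or.inl rfl) t₂).2
      have h3 := (ev_adj e2 (s := r₁) (by have := S.l21; omega) S.k3.symm)
      have h4 : ps p t₂ r₁ ≠ ps p t₂ k := fun h => S.k3.symm (ps_inj h)
      omega
    · have h2 := (S.w_lt (Or.inr rfl) t₂).2
      have h3 := (ev_adj e2 (s := r₂) (by have := S.l22; omega) S.k4.symm)
      have h4 : ps p t₂ r₂ ≠ ps p t₂ k := fun h => S.k4.symm (ps_inj h)
      omega
  obtain ⟨a, ha1, ha2, ha3, ha4⟩ := mm_last
    (P := fun t => ¬ (ps p t k < ps p t r₁ ∧ ps p t k < ps p t r₂)) (a := t₁)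
    (fun h => by have := ev_lt e1; omega) t₂ h12.le (not_not.2 hL2)
  obtain ⟨b, hb1, hb2, hb3, hb4⟩ := mm_first
    (P := fun t => ps p t k < ps p t r₁ ∧ ps p t k < ps p t r₂) (a := t₂) (b := t₃ + 1)
    (by omega) hL2 (fun h => by have := ev_lt' e3; omega)
  have hLk : ∀ u, a < u → u ≤ b → ps p u k < ps p u r₁ ∧ ps p u k < ps p u r₂ := by
    intro u hu1 hu2
    rcases Nat.lt_or_ge u t₂ with h2 | h2
    · exact not_not.1 (ha4 u hu1 h2.le)
    · exact hb3 u h2 hu2
  -- the events at the ends of the interval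
  have hea : ∃ r, (r = r₁ ∨ r = r₂) ∧ ev p a r k ∧ mmL p r₁ r₂ a = r := by
    have h2 := hLk (a + 1) (by omega) (by omega)
    by_cases h3 : ev p a r₁ k
    · refine ⟨r₁, Or.inl rfl, h3, ?_⟩
      have h4 : ps p a k < ps p a r₂ := mm_back h2.2 fun h5 => S.rr (ev_unique h3 h5).1
      unfold mmL
      rw [if_pos ((ev_lt h3).trans h4)]
    · have h4 : ps p a k < ps p a r₁ := mm_back h2.1 h3
      have h5 : ev p a r₂ k := by
        by_contra h6
        exact ha3 ⟨h4, mm_back h2.2 h6⟩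
      refine ⟨r₂, Or.inr rfl, h5, ?_⟩
      have := ev_lt h5
      unfold mmL
      rw [if_neg (by omega)]
  have heb : ∃ r, (r = r₁ ∨ r = r₂) ∧ ev p b k r := by
    have h2 := hb3 b hb1 le_rfl
    rcases order_succ h2.1 with h3 | h3
    · rcases order_succ h2.2 with h4 | h4
      · exact absurd ⟨h3, h4⟩ hb4
      · exact ⟨r₂, Or.inr rfl, h4⟩
    · exact ⟨r₁, Or.inl rfl, h3⟩
  obtain ⟨ra, hra, hea, hla⟩ := hea
  obtain ⟨rb, hrb, heb⟩ := heb
  have hraT : ra ∈ mmT w₁ w₂ r₁ r₂ k := mem_mmT.2 (by rcases hra with h | h <;> simp [h])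
  have hrbT : rb ∈ mmT w₁ w₂ r₁ r₂ k := mem_mmT.2 (by rcases hrb with h | h <;> simp [h])
  -- crossings of `k` to the right
  have hkr : ∀ u, a < u → u < b → ∀ y, ev p u k y → y ∈ mmT w₁ w₂ r₁ r₂ k → y = w₂ := by
    intro u hu1 hu2 y he hy
    have h2 := hLk (u + 1) (by omega) (by omega)
    have h3 := ev_lt he
    have h4 := ev_lt' he
    rcases mem_mmT.1 hy with h | h | h | h | h
    · have h5 := hkw u (by omega) (by omega)
      rw [h] at h3
      omega
    · exact h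
    · rw [h] at h4
      omega
    · rw [h] at h4
      omega
    · rw [h] at h3
      omega
  obtain ⟨na, hna⟩ := Nat.exists_eq_add_of_le (show s ≤ a by omega)
  obtain ⟨nb, hnb⟩ := Nat.exists_eq_add_of_le (show s ≤ b by omega)
  have hpos1 : 0 < mmY m (mmT w₁ w₂ r₁ r₂ k) (mmW w₁ w₂ r₁ r₂ β) p s c (na + 1) k := by
    have h2 := S.pos_left hc h0.le h1 na
    rw [← hna, hla] at h2
    have h3 : 0 ≤ mmY m (mmT w₁ w₂ r₁ r₂ k) (mmW w₁ w₂ r₁ r₂ β) p s c na k :=
      mmY_nonneg (mmW_nonneg h0.le) (mmW_le h1) _ _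
    have h4 : k ≠ ra := Ne.symm (ev_ne hea)
    rw [mmY_in S.tr (hna ▸ hea) hraT hkT, if_neg h4, if_pos rfl, mmW_r _ hra]
    linarith
  have hpos : ∀ j, na + 1 + j ≤ nb →
      0 < mmY m (mmT w₁ w₂ r₁ r₂ k) (mmW w₁ w₂ r₁ r₂ β) p s c (na + 1 + j) k := by
    intro j
    induction j with
    | zero =>
      intro _
      exact hpos1
    | succ j ih =>
      intro hj
      have ih' := ih (by omega)
      have he := ev_self p (s + (na + 1 + j))
      set x := conf p (s + (na + 1 + j)) (p (s + (na + 1 + j)))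
      set y := conf p (s + (na + 1 + j)) (p (s + (na + 1 + j)) + 1)
      rw [← add_assoc]
      by_cases hT : x ∈ mmT w₁ w₂ r₁ r₂ k ∧ y ∈ mmT w₁ w₂ r₁ r₂ k
      · rw [mmY_in S.tr he hT.1 hT.2]
        by_cases hkx : k = x
        · have hy : y = w₂ := hkr (s + (na + 1 + j)) (by omega) (by omega) y
            (by rw [← hkx] at he; exact he) hT.2
          rw [if_pos hkx, hy, S.W_2, ← hkx]
          exact mul_pos h0 ih'
        · rw [if_neg hkx]
          by_cases hky : k = y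
          · rw [if_pos hky, ← hky]
            have h3 : 0 ≤ mmY m (mmT w₁ w₂ r₁ r₂ k) (mmW w₁ w₂ r₁ r₂ β) p s c (na + 1 + j) x :=
              mmY_nonneg (mmW_nonneg h0.le) (mmW_le h1) _ _
            have h4 := mmW_le (w₁ := w₁) (w₂ := w₂) (r₁ := r₁) (r₂ := r₂) h1 x
            nlinarith
          · rw [if_neg hky]
            exact ih'
      · have hT' : x ∉ mmT w₁ w₂ r₁ r₂ k ∨ y ∉ mmT w₁ w₂ r₁ r₂ k := by
          by_contra h2
          push Not at h2
          exact hT h2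
        rw [mmY_out he hT']
        exact ih'
  -- the last crossing of `k` over `w₂`
  have hkwb : ps p b w₂ < ps p b k := by
    have h6 := (S.w_lt hrb b).2
    refine (ev_adj heb S.k2.symm ?_).2 h6
    rintro h7
    rw [← h7] at h6
    omega
  obtain ⟨d, hd1, hd2, hd3, hd4⟩ := mm_last (P := fun t => ¬ (ps p t w₂ < ps p t k))
    (a := t₂ + 1) (fun h => by have := ev_lt' e2; omega) b (by
      rcases Nat.lt_or_ge t₂ b with h2 | h2
      · omega
      · exfalso
        have h3 : b = t₂ := by omega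
        rw [h3] at heb
        have h4 := (ev_unique heb e2).1
        exact S.k2 h4) (not_not.2 hkwb)
  have hd5 : ∀ u, d < u → u ≤ b → ps p u w₂ < ps p u k := fun u h2 h3 => not_not.1 (hd4 u h2 h3)
  have hed : ev p d k w₂ := by
    by_contra h2
    exact hd3 (mm_back (hd5 (d + 1) (by omega) (by omega)) h2)
  obtain ⟨nd, hnd⟩ := Nat.exists_eq_add_of_le (show s ≤ d by omega)
  have hD1 : 0 < mmD m p w₁ w₂ r₁ r₂ k s c β 1 (nd + 1) k := by
    unfold mmD
    rw [mmY_in S.tr (hnd ▸ hed) hkT hw2T, mmY_in S.tr (hnd ▸ hed) hkT hw2T, if_pos rfl, if_pos rfl,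
      S.W_2, S.W_2]
    obtain ⟨j, hj⟩ := Nat.exists_eq_add_of_le (show na + 1 ≤ nd by omega)
    have h2 := hpos j (by omega)
    rw [← hj] at h2
    have h3 := mul_pos h0 h2
    linarith
  have hD : ∀ j, nd + 1 + j ≤ nb → 0 < mmD m p w₁ w₂ r₁ r₂ k s c β 1 (nd + 1 + j) k := by
    intro j
    induction j with
    | zero =>
      intro _
      exact hD1
    | succ j ih =>
      intro hj
      have ih' := ih (by omega)
      have he := ev_self p (s + (nd + 1 + j))
      set x := conf p (s + (nd + 1 + j)) (p (s + (nd + 1 + j)))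
      set y := conf p (s + (nd + 1 + j)) (p (s + (nd + 1 + j)) + 1)
      rw [← add_assoc]
      have h2 := hd5 (s + (nd + 1 + j)) (by omega) (by omega)
      have h3 := hd5 (s + (nd + 1 + j) + 1) (by omega) (by omega)
      have h4 := hLk (s + (nd + 1 + j)) (by omega) (by omega)
      by_cases hT : x ∈ mmT w₁ w₂ r₁ r₂ k ∧ y ∈ mmT w₁ w₂ r₁ r₂ k
      · have hkx : k ≠ x := by
          intro hkx
          have hy : y = w₂ := hkr (s + (nd + 1 + j)) (by omega) (by omega) y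
            (by rw [← hkx] at he; exact he) hT.2
          have h5 := ev_lt he
          rw [hy, ← hkx] at h5
          omega
        have hky : k ≠ y := by
          intro hky
          rw [← hky] at he
          have h5 := ev_lt he
          have h6 := ev_lt' he
          rcases mem_mmT.1 hT.1 with h | h | h | h | h
          · rw [h] at he
            exact hno _ (by omega) (by omega) he
          · rw [h] at h6
            omega
          · rw [h] at h5
            omega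
          · rw [h] at h5
            omega
          · exact hkx h.symm
        unfold mmD
        rw [mmY_in S.tr he hT.1 hT.2, mmY_in S.tr he hT.1 hT.2, if_neg hkx, if_neg hkx, if_neg hky,
          if_neg hky]
        exact ih'
      · have hT' : x ∉ mmT w₁ w₂ r₁ r₂ k ∨ y ∉ mmT w₁ w₂ r₁ r₂ k := by
          by_contra h2
          push Not at h2
          exact hT h2
        unfold mmD
        rw [mmY_out he hT', mmY_out he hT']
        exact ih'
  -- the difference reaches `r₁` or `r₂`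
  have hF := S.D_F s c h0.le h1 (θ := 1) le_rfl
  have hDb : 0 < mmD m p w₁ w₂ r₁ r₂ k s c β 1 (nb + 1) rb := by
    obtain ⟨j, hj⟩ := Nat.exists_eq_add_of_le (show nd + 1 ≤ nb by omega)
    have h2 := hD j (by omega)
    rw [← hj] at h2
    have h3 := hF.nn nb rb hrb
    have h4 : rb ≠ k := Ne.symm (ev_ne heb)
    unfold mmD at h2 h3 ⊢
    rw [mmY_in S.tr (hnb ▸ heb) hkT hrbT, mmY_in S.tr (hnb ▸ heb) hkT hrbT, if_neg h4, if_neg h4,
      if_pos rfl, if_pos rfl, S.W_k, S.W_k]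
    linarith
  have hsome : 0 < mmD m p w₁ w₂ r₁ r₂ k s c β 1 (nb + 1) r₁ ∨
      0 < mmD m p w₁ w₂ r₁ r₂ k s c β 1 (nb + 1) r₂ := by
    rcases hrb with h | h
    · exact Or.inl (h ▸ hDb)
    · exact Or.inr (h ▸ hDb)
  obtain ⟨⟨u, hu1, hu2, hu3⟩, -⟩ := crs_both S.tr S.cr (b + 1)
  obtain ⟨j, hj⟩ := Nat.exists_eq_add_of_le (show b + 1 ≤ u by omega)
  have h2 := hF.some_le hsome j
  have h3 := hF.cross h2 (a := r₁) (b := r₂) (by
    rw [show s + (nb + 1 + j) = u by omega]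
    exact hu3) (Or.inl ⟨rfl, rfl⟩)
  obtain ⟨i, hi⟩ := Nat.exists_eq_add_of_le (show nb + 1 + j + 1 ≤ N by omega)
  have h4 := hF.left_le h3 i
  rw [← hi] at h4
  unfold mmD at h4
  linarith

/-- Nothing arrives at the right one of `r₁` and `r₂`. -/
private lemma MMS.row {R : Type*} [CommRing R] (S : MMS m L p w₁ w₂ r₁ r₂ k) {v : ℕ → R}
    (hv1 : v r₁ = 0) (hv2 : v r₂ = 0) {s n : ℕ} (hn : 1 ≤ n) (x c : Fin m)
    (hx : (x : ℕ) = r₁ ∨ (x : ℕ) = r₂) (hxl : (x : ℕ) ≠ mmL p r₁ r₂ s)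
    (hc : (c : ℕ) ∈ mmT w₁ w₂ r₁ r₂ k) (hck : (c : ℕ) ≠ k) :
    dmat m (mmT w₁ w₂ r₁ r₂ k) v p s (n * L) x c = 0 := by
  have hr1T : r₁ ∈ mmT w₁ w₂ r₁ r₂ k := mem_mmT.2 (by simp)
  have hr2T : r₂ ∈ mmT w₁ w₂ r₁ r₂ k := mem_mmT.2 (by simp)
  have hN : L ≤ n * L := Nat.le_mul_of_pos_left _ hn
  -- `ρ` is the left one
  obtain ⟨ρ, hρ, hρT, hvρ, hlt, hcr, hvx⟩ : ∃ ρ, (ρ = r₁ ∨ ρ = r₂) ∧ ρ ∈ mmT w₁ w₂ r₁ r₂ k ∧
      v ρ = 0 ∧ ps p s ρ < ps p s x ∧ Crs p ρ x ∧ v x = 0 := by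
    unfold mmL at hxl
    by_cases h1 : ps p s r₁ < ps p s r₂
    · rw [if_pos h1] at hxl
      rcases hx with h2 | h2
      · exact absurd h2 hxl
      · exact ⟨r₁, Or.inl rfl, hr1T, hv1, by rw [h2]; exact h1, by rw [h2]; exact S.cr,
          by rw [h2]; exact hv2⟩
    · rw [if_neg h1] at hxl
      have h3 : ps p s r₁ ≠ ps p s r₂ := fun h => S.rr (ps_inj h)
      rcases hx with h2 | h2
      · exact ⟨r₂, Or.inr rfl, hr2T, hv2, by rw [h2]; omega, by rw [h2]; exact crs_symm S.cr,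
          by rw [h2]; exact hv1⟩
      · exact absurd h2 hxl
  have hxT : (x : ℕ) ∈ mmT w₁ w₂ r₁ r₂ k := mem_mmT.2 (by rcases hx with h | h <;> simp [h])
  have hlt' : ps p (s + n * L) ρ < ps p (s + n * L) x := by
    rw [ps_mul S.tr, ps_mul S.tr]
    exact hlt
  by_cases hcx : c = x
  · rw [hcx]
    exact mm_two S.tr hρT hxT hvρ hvx hcr hN hlt' x rfl
  · refine wall_tri S.tr hρT hvρ hxT hc ?_ hlt'
    have hcx' : (c : ℕ) ≠ x := fun h => hcx (Fin.ext h)
    have hlr : ps p s w₁ < ps p s ρ ∧ ps p s w₂ < ps p s ρ := S.w_lt hρ s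
    rcases mem_mmT.1 hc with h | h | h | h | h
    · rw [h]
      exact hlr.1.le
    · rw [h]
      exact hlr.2.le
    · have h2 : (c : ℕ) = ρ := by
        have h3 := ev_ne (t := 0) (p := p) (a := ρ) (b := x)
        rcases hρ with h4 | h4
        · rw [h, h4]
        · rcases hx with h5 | h5
          · exact absurd (h.trans h5.symm) hcx'
          · rw [h4, ← h5] at hlt
            omega
      rw [h2]
    · have h2 : (c : ℕ) = ρ := by
        rcases hρ with h4 | h4
        · rcases hx with h5 | h5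
          · rw [h4, ← h5] at hlt
            omega
          · exact absurd (h.trans h5.symm) hcx'
        · rw [h, h4]
      rw [h2]
    · exact absurd h hck

/-! ### The matrix at `q = 1` -/

/-- the weights at `q = 1` -/
private def mmV (w₁ r₁ r₂ x : ℕ) : ℤ := if x ∈ ({w₁, r₁, r₂} : Finset ℕ) then 0 else 1

private lemma mmV_zero {x : ℕ} (h : x = w₁ ∨ x = r₁ ∨ x = r₂) : mmV w₁ r₁ r₂ x = 0 := by
  unfold mmV
  rw [if_pos (by simpa using h)]

private lemma mmV_one {x : ℕ} (h : ¬ (x = w₁ ∨ x = r₁ ∨ x = r₂)) : mmV w₁ r₁ r₂ x = 1 := by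
  unfold mmV
  rw [if_neg (by simpa using h)]

private lemma MMS.V_2 (S : MMS m L p w₁ w₂ r₁ r₂ k) : mmV w₁ r₁ r₂ w₂ = 1 := by
  apply mmV_one
  rintro (h | h | h)
  · exact S.ww h.symm
  · have := S.l21
    omega
  · have := S.l22
    omega

private lemma MMS.V_k (S : MMS m L p w₁ w₂ r₁ r₂ k) : mmV w₁ r₁ r₂ k = 1 := by
  apply mmV_one
  rintro (h | h | h)
  · exact S.k1 h
  · exact S.k3 h
  · exact S.k4 h

/-- nothing arrives at `w₁` -/
private lemma MMS.z1 (S : MMS m L p w₁ w₂ r₁ r₂ k) {s : ℕ} {c : Fin m} (hc : (c : ℕ) ≠ w₁) (n : ℕ) :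
    mmY m (mmT w₁ w₂ r₁ r₂ k) (mmV w₁ r₁ r₂) p s c n w₁ = 0 := by
  induction n with
  | zero => rw [mmY_zero, if_neg (Ne.symm hc)]
  | succ n ih =>
    have he := ev_self p (s + n)
    set a := conf p (s + n) (p (s + n))
    set b := conf p (s + n) (p (s + n) + 1)
    by_cases hT : a ∈ mmT w₁ w₂ r₁ r₂ k ∧ b ∈ mmT w₁ w₂ r₁ r₂ k
    · rw [mmY_in S.tr he hT.1 hT.2]
      by_cases ha : w₁ = a
      · rw [if_pos ha, ← ha, ih, mul_zero]
      · rw [if_neg ha]
        by_cases hb : w₁ = b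
        · rw [if_pos hb, ← hb, ih, zero_add]
          have h1 : mmV w₁ r₁ r₂ a = 1 := by
            rw [← hb] at he
            rcases mem_mmT.1 hT.1 with h | h | h | h | h
            · exact absurd h.symm ha
            · rw [h]
              exact S.V_2
            · exact absurd ⟨_, Or.inr (h ▸ he)⟩ S.n11
            · exact absurd ⟨_, Or.inr (h ▸ he)⟩ S.n12
            · rw [h]
              exact S.V_k
          rw [h1, sub_self, zero_mul]
        · rw [if_neg hb, ih]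
    · have hT' : a ∉ mmT w₁ w₂ r₁ r₂ k ∨ b ∉ mmT w₁ w₂ r₁ r₂ k := by
        by_contra h2
        push Not at h2
        exact hT h2
      rw [mmY_out he hT', ih]

/-- nothing arrives at `w₂` -/
private lemma MMS.z2 (S : MMS m L p w₁ w₂ r₁ r₂ k) {s : ℕ} {c : Fin m} (hc : (c : ℕ) ≠ w₁) (n : ℕ)
    (ih : mmY m (mmT w₁ w₂ r₁ r₂ k) (mmV w₁ r₁ r₂) p s c n w₂ = 0) :
    mmY m (mmT w₁ w₂ r₁ r₂ k) (mmV w₁ r₁ r₂) p s c (n + 1) w₂ = 0 := by
  have he := ev_self p (s + n)
  set a := conf p (s + n) (p (s + n))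
  set b := conf p (s + n) (p (s + n) + 1)
  by_cases hT : a ∈ mmT w₁ w₂ r₁ r₂ k ∧ b ∈ mmT w₁ w₂ r₁ r₂ k
  · rw [mmY_in S.tr he hT.1 hT.2]
    by_cases ha : w₂ = a
    · rw [if_pos ha, ← ha, ih, mul_zero]
    · rw [if_neg ha]
      by_cases hb : w₂ = b
      · rw [if_pos hb, ← hb, ih, zero_add]
        rw [← hb] at he
        rcases mem_mmT.1 hT.1 with h | h | h | h | h
        · rw [h, S.z1 hc, mul_zero]
        · exact absurd h.symm ha
        · exact absurd ⟨_, Or.inr (h ▸ he)⟩ S.n21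
        · exact absurd ⟨_, Or.inr (h ▸ he)⟩ S.n22
        · rw [h, S.V_k, sub_self, zero_mul]
      · rw [if_neg hb, ih]
  · have hT' : a ∉ mmT w₁ w₂ r₁ r₂ k ∨ b ∉ mmT w₁ w₂ r₁ r₂ k := by
      by_contra h2
      push Not at h2
      exact hT h2
    rw [mmY_out he hT', ih]

private lemma MMS.z3 (S : MMS m L p w₁ w₂ r₁ r₂ k) {s : ℕ} {c : Fin m} (hc : (c : ℕ) ≠ w₁) {N : ℕ}
    (hN : L ≤ N) : mmY m (mmT w₁ w₂ r₁ r₂ k) (mmV w₁ r₁ r₂) p s c N w₂ = 0 := by
  obtain ⟨-, u, hu1, hu2, hu3⟩ := crs_both S.tr S.cw s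
  obtain ⟨n, hn⟩ := Nat.exists_eq_add_of_le hu1
  rw [hn] at hu3
  have h1 : mmY m (mmT w₁ w₂ r₁ r₂ k) (mmV w₁ r₁ r₂) p s c (n + 1) w₂ = 0 := by
    rw [mmY_in S.tr hu3 (mem_mmT.2 (by simp)) (mem_mmT.2 (by simp)), if_pos rfl,
      mmV_zero (Or.inl rfl), zero_mul]
  obtain ⟨j, hj⟩ := Nat.exists_eq_add_of_le (show n + 1 ≤ N by omega)
  rw [hj]
  clear hj
  induction j with
  | zero => exact h1
  | succ j ih => exact S.z2 hc _ ih

/-- the column of the left one -/
private lemma MMS.z4 (S : MMS m L p w₁ w₂ r₁ r₂ k) {s : ℕ} {c : Fin m}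
    (hc : (c : ℕ) = mmL p r₁ r₂ s) : ∀ n x, x = r₁ ∨ x = r₂ →
    mmY m (mmT w₁ w₂ r₁ r₂ k) (mmV w₁ r₁ r₂) p s c n x =
      if x = mmL p r₁ r₂ (s + n) then 1 else 0 := by
  intro n
  induction n with
  | zero =>
    intro x hx
    rw [mmY_zero, add_zero, hc]
  | succ n ih =>
    intro x hx
    have he := ev_self p (s + n)
    set a := conf p (s + n) (p (s + n))
    set b := conf p (s + n) (p (s + n) + 1)
    have hne := ev_ne he
    by_cases hab : a = r₁ ∧ b = r₂ ∨ a = r₂ ∧ b = r₁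
    · have ha : a ∈ mmT w₁ w₂ r₁ r₂ k := mem_mmT.2 (by rcases hab with h | h <;> simp [h.1])
      have hb : b ∈ mmT w₁ w₂ r₁ r₂ k := mem_mmT.2 (by rcases hab with h | h <;> simp [h.2])
      have ha' : a = r₁ ∨ a = r₂ := by rcases hab with h | h <;> simp [h.1]
      have hb' : b = r₁ ∨ b = r₂ := by rcases hab with h | h <;> simp [h.2]
      rw [mmY_in S.tr he ha hb, ← add_assoc, mmL_cross he hab, mmV_zero (Or.inr ha'),
        mmV_zero (Or.inr hb'), zero_mul, ih a ha', ih b hb']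
      by_cases hxa : x = a
      · rw [if_pos hxa, if_neg]
        rw [hxa]
        exact hne
      · have hxb : x = b := by
          rcases hab with h | h
          · rcases hx with h3 | h3
            · exact absurd (h3.trans h.1.symm) hxa
            · exact h3.trans h.2.symm
          · rcases hx with h3 | h3
            · exact h3.trans h.2.symm
            · exact absurd (h3.trans h.1.symm) hxa
        rw [if_neg hxa, if_pos hxb, if_pos hxb]
        have h5 : mmL p r₁ r₂ (s + n) = a ∨ mmL p r₁ r₂ (s + n) = b := by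
          rcases mmL_cases p r₁ r₂ (s + n) with h6 | h6
          · rcases hab with h | h
            · exact Or.inl (h6.trans h.1.symm)
            · exact Or.inr (h6.trans h.2.symm)
          · rcases hab with h | h
            · exact Or.inr (h6.trans h.2.symm)
            · exact Or.inl (h6.trans h.1.symm)
        rcases h5 with h5 | h5
        · rw [h5, if_neg (Ne.symm hne), if_pos rfl]
          norm_num
        · rw [h5, if_pos rfl, if_neg hne]
          norm_num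
    · rw [← add_assoc, mmL_keep S.rr he hab]
      by_cases hT : a ∈ mmT w₁ w₂ r₁ r₂ k ∧ b ∈ mmT w₁ w₂ r₁ r₂ k
      · obtain ⟨ha, hb⟩ := hT
        rw [mmY_in S.tr he ha hb]
        by_cases hxa : x = a
        · have hb1 : b ≠ r₁ := by
            rintro h2
            rcases hx with h3 | h3
            · exact hne (by rw [← hxa, h2, h3])
            · exact hab (Or.inr ⟨by rw [← hxa, h3], h2⟩)
          have hb2 : b ≠ r₂ := by
            rintro h2
            rcases hx with h3 | h3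
            · exact hab (Or.inl ⟨by rw [← hxa, h3], h2⟩)
            · exact hne (by rw [← hxa, h2, h3])
          have hbk : b = k := S.oth hb hx (t := s + n) (Or.inr (by rw [hxa]; exact he)) hb1 hb2
          rw [if_pos hxa, hbk, S.V_k, one_mul, ← hxa, ih x hx]
        · rw [if_neg hxa]
          by_cases hxb : x = b
          · have ha1 : a ≠ r₁ := by
              rintro h2
              rcases hx with h3 | h3
              · exact hne (by rw [← hxb, h2, h3])
              · exact hab (Or.inl ⟨h2, by rw [← hxb, h3]⟩)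
            have ha2 : a ≠ r₂ := by
              rintro h2
              rcases hx with h3 | h3
              · exact hab (Or.inr ⟨h2, by rw [← hxb, h3]⟩)
              · exact hne (by rw [← hxb, h2, h3])
            have hak : a = k := S.oth ha hx (t := s + n) (Or.inl (by rw [hxb]; exact he)) ha1 ha2
            rw [if_pos hxb, hak, S.V_k, sub_self, zero_mul, add_zero, ← hxb, ih x hx]
          · rw [if_neg hxb, ih x hx]
      · have hT' : a ∉ mmT w₁ w₂ r₁ r₂ k ∨ b ∉ mmT w₁ w₂ r₁ r₂ k := by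
          by_contra h2
          push Not at h2
          exact hT h2
        rw [mmY_out he hT', ih x hx]

/-- the characteristic polynomial of the block at `q = 1` -/
private lemma MMS.charp (S : MMS m L p w₁ w₂ r₁ r₂ k) {s n : ℕ} (hn : 1 ≤ n)
    (hk : ps p s k < ps p s w₁) (Z : Finset ℕ) (hZ : Z = {w₁, r₁, r₂}) :
    ∃ d : ℕ, ((dmat m (mmT w₁ w₂ r₁ r₂ k) (fun s => if s ∈ Z then (0 : ℤ) else 1) p s
      (n * L)).toSquareBlockProp fun a => (a : ℕ) ∈ mmT w₁ w₂ r₁ r₂ k ∧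
        ps p s w₁ < ps p s a).charpoly = X ^ d * (X - 1) := by
  subst hZ
  have hN : L ≤ n * L := Nat.le_mul_of_pos_left _ hn
  have hρm : mmL p r₁ r₂ s < m := by
    rcases mmL_cases p r₁ r₂ s with h | h
    · rw [h]
      exact S.m1
    · rw [h]
      exact S.m2
  have hρT : mmL p r₁ r₂ s ∈ mmT w₁ w₂ r₁ r₂ k :=
    mem_mmT.2 (by rcases mmL_cases p r₁ r₂ s with h | h <;> simp [h])
  have hρw := (S.w_lt (mmL_cases p r₁ r₂ s) s).1
  set M := dmat m (mmT w₁ w₂ r₁ r₂ k)
    (fun s => if s ∈ ({w₁, r₁, r₂} : Finset ℕ) then (0 : ℤ) else 1) p s (n * L) with hM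
  let c : Fin m := ⟨mmL p r₁ r₂ s, hρm⟩
  let c' : {a : Fin m // (a : ℕ) ∈ mmT w₁ w₂ r₁ r₂ k ∧ ps p s w₁ < ps p s a} := ⟨c, hρT, hρw⟩
  have h1 : M c c = 1 := by
    have h2 := S.z4 (c := c) rfl (n * L) (mmL p r₁ r₂ s) (mmL_cases p r₁ r₂ s)
    have h3 : mmL p r₁ r₂ (s + n * L) = mmL p r₁ r₂ s := by
      unfold mmL
      rw [ps_mul S.tr, ps_mul S.tr]
    rw [h3, if_pos rfl] at h2
    rw [← h2]
    exact (mmY_eq (v := mmV w₁ r₁ r₂) (n * L) c).symm
  have h2 : ∀ a b : {a : Fin m // (a : ℕ) ∈ mmT w₁ w₂ r₁ r₂ k ∧ ps p s w₁ < ps p s a}, a ≠ c' →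
      M a b = 0 := by
    intro a b hab
    have hb1 : ((b : Fin m) : ℕ) ≠ w₁ := by
      intro h
      have := b.2.2
      rw [h] at this
      omega
    have hbk : ((b : Fin m) : ℕ) ≠ k := by
      intro h
      have := b.2.2
      rw [h] at this
      omega
    have hne : ((a : Fin m) : ℕ) ≠ mmL p r₁ r₂ s := fun h => hab (Subtype.ext (Fin.ext h))
    rcases mem_mmT.1 a.2.1 with h | h | h | h | h
    · have := a.2.2
      rw [h] at this
      omega
    · have h3 : mmY m (mmT w₁ w₂ r₁ r₂ k) (mmV w₁ r₁ r₂) p s (b : Fin m) (n * L)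
          ((a : Fin m) : ℕ) = 0 := by
        rw [h]
        exact S.z3 hb1 hN (s := s)
      rw [mmY_eq] at h3
      exact h3
    · exact S.row (v := mmV w₁ r₁ r₂) (mmV_zero (by simp)) (mmV_zero (by simp)) hn a b (Or.inl h)
        hne b.2.1 hbk
    · exact S.row (v := mmV w₁ r₁ r₂) (mmV_zero (by simp)) (mmV_zero (by simp)) hn a b (Or.inr h)
        hne b.2.1 hbk
    · have := a.2.2
      rw [h] at this
      omega
  have h3 : M.toSquareBlockProp (fun a => (a : ℕ) ∈ mmT w₁ w₂ r₁ r₂ k ∧ ps p s w₁ < ps p s a) =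
      vecMulVec (Pi.single c' 1) (fun b : {a : Fin m // (a : ℕ) ∈ mmT w₁ w₂ r₁ r₂ k ∧
        ps p s w₁ < ps p s a} => M c b) := by
    ext a b
    rw [vecMulVec_apply]
    show M a b = _
    by_cases hac : a = c'
    · rw [hac, Pi.single_eq_same, one_mul]
    · rw [Pi.single_eq_of_ne hac, zero_mul]
      exact h2 a b hac
  have h4 : 0 < Fintype.card {a : Fin m // (a : ℕ) ∈ mmT w₁ w₂ r₁ r₂ k ∧ ps p s w₁ < ps p s a} :=
    Fintype.card_pos_iff.2 ⟨c'⟩
  obtain ⟨d, hd⟩ := Nat.exists_eq_add_of_lt h4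
  refine ⟨d, ?_⟩
  rw [h3, Matrix.charpoly_vecMulVec, hd]
  have h5 : (Pi.single c' 1 ⬝ᵥ fun b : {a : Fin m // (a : ℕ) ∈ mmT w₁ w₂ r₁ r₂ k ∧
      ps p s w₁ < ps p s a} => M c b) = 1 := by
    rw [single_one_dotProduct]
    exact h1
  rw [h5, one_smul, zero_add, Nat.add_sub_cancel, pow_succ]
  ring

/-! ### The conclusion -/

private lemma mm_cont (T : Finset ℕ) (v : ℝ → ℕ → ℝ) (hv : ∀ x, Continuous fun β => v β x)
    (s : ℕ) : ∀ n, Continuous fun β => dmat m T (v β) p s n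
  | 0 => by
    unfold dmat
    exact continuous_const
  | n + 1 => by
    have h1 : Continuous fun β => stepT m T (v β) p (s + n) := by
      unfold stepT
      split_ifs
      · refine continuous_pi fun x => continuous_pi fun y => ?_
        unfold stepM
        split_ifs
        · exact hv _
        · exact continuous_const
        · exact continuous_const.sub (hv _)
        · exact continuous_const
      · exact continuous_const
    exact h1.matrix_mul (mm_cont T v hv s n)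

private lemma mmW_cont (x : ℕ) : Continuous fun β => mmW w₁ w₂ r₁ r₂ β x := by
  unfold mmW
  split_ifs
  · exact continuous_const
  · exact continuous_id
  · exact continuous_const

/-- powers of `1 / 2` do not accumulate from above at a positive number -/
private lemma mm_powers {f : ℝ → ℝ} (hf : Continuous f) (h0 : 0 < f 0)
    (h1 : ∀ K : ℕ, 1 ≤ K → f 0 < f ((1 / 2) ^ K) ∧ ∃ a : ℕ, f ((1 / 2) ^ K) = (1 / 2) ^ a) :
    False := by
  have hex : ∃ n : ℕ, (1 / 2 : ℝ) ^ n ≤ f 0 := by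
    obtain ⟨n, hn⟩ := exists_pow_lt_of_lt_one h0 (show (1 / 2 : ℝ) < 1 by norm_num)
    exact ⟨n, hn.le⟩
  classical
  have hN := Nat.find_spec hex
  have hmin := fun {j : ℕ} (hj : j < Nat.find hex) => Nat.find_min hex hj
  set N := Nat.find hex
  have hN0 : N ≠ 0 := by
    intro h2
    rw [h2, pow_zero] at hN
    obtain ⟨h3, a, h4⟩ := h1 1 le_rfl
    rw [h4] at h3
    have h5 : (1 / 2 : ℝ) ^ a ≤ 1 := pow_le_one₀ (by norm_num) (by norm_num)
    linarith
  have hpred : f 0 < (1 / 2 : ℝ) ^ (N - 1) := by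
    have := hmin (j := N - 1) (by omega)
    push Not at this
    exact this
  have hge : ∀ K : ℕ, 1 ≤ K → (1 / 2 : ℝ) ^ (N - 1) ≤ f ((1 / 2) ^ K) := by
    intro K hK
    obtain ⟨h3, a, h4⟩ := h1 K hK
    rw [h4] at h3 ⊢
    refine pow_le_pow_of_le_one (by norm_num) (by norm_num) ?_
    by_contra h5
    have h6 : (1 / 2 : ℝ) ^ a ≤ (1 / 2 : ℝ) ^ N :=
      pow_le_pow_of_le_one (by norm_num) (by norm_num) (by omega)
    linarith
  have hlim : Filter.Tendsto (fun K : ℕ => f ((1 / 2) ^ K)) Filter.atTop (nhds (f 0)) :=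
    (hf.tendsto 0).comp
      (tendsto_pow_atTop_nhds_zero_of_lt_one (by norm_num) (by norm_num))
  have := ge_of_tendsto hlim (Filter.eventually_atTop.2 ⟨1, hge⟩)
  linarith

end conf

theorem noM {m L : ℕ} {p : ℕ → ℕ} (h : IsTrack m L p) (hG : Good m L p) : NoM m p := by
  intro w₁ w₂ r₁ r₂ k t₁ t₂ t₃ l11 l12 l21 l22 m1 m2 m3 n11 n12 n21 n22 cw cr ck h12 h23 e1 e2 e3
    hno
  have S : MMS m L p w₁ w₂ r₁ r₂ k :=
    { tr := h, m1 := m1, m2 := m2, m3 := m3, l11 := l11, l12 := l12, l21 := l21, l22 := l22,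
      n11 := n11, n12 := n12, n21 := n21, n22 := n22, cw := cw, cr := cr,
      ww := by
        obtain ⟨t, h1 | h1⟩ := cw
        · exact ev_ne h1
        · exact (ev_ne h1).symm
      rr := by
        obtain ⟨t, h1 | h1⟩ := cr
        · exact ev_ne h1
        · exact (ev_ne h1).symm
      k1 := by
        obtain ⟨t, h1 | h1⟩ := ck
        · exact ev_ne h1
        · exact (ev_ne h1).symm
      k2 := (ev_ne e2).symm
      k3 := (ev_ne e1).symm
      k4 := ev_ne e3 }
  obtain ⟨-, u, hu1, hu2, hu3⟩ := crs_both h ck t₁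
  have hL := h.Lpos
  have hk := ev_lt' hu3
  -- the times
  obtain ⟨s, hs⟩ : ∃ s, s = u + 1 := ⟨_, rfl⟩
  rw [← hs] at hk
  obtain ⟨n, hn⟩ : ∃ n, n = t₃ + 1 + 2 * L := ⟨_, rfl⟩
  have hnL : n ≤ n * L := Nat.le_mul_of_pos_right _ hL
  have hn1 : 1 ≤ n := by omega
  have e1' : ev p (t₁ + 1 * L) r₁ k := (ev_mul h _ _ _ _).2 e1
  have e2' : ev p (t₂ + 1 * L) w₂ k := (ev_mul h _ _ _ _).2 e2
  have e3' : ev p (t₃ + 1 * L) k r₂ := (ev_mul h _ _ _ _).2 e3
  have hno' : ∀ v, t₁ + 1 * L < v → v < t₃ + 1 * L → ¬ ev p v w₁ k := by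
    intro v hv1 hv2 hv3
    obtain ⟨j, hj⟩ := Nat.exists_eq_add_of_le (show 1 * L ≤ v by omega)
    have h1 : v = j + 1 * L := by omega
    rw [h1, ev_mul h] at hv3
    exact hno j (by omega) (by omega) hv3
  have hρm : mmL p r₁ r₂ s < m := by
    rcases mmL_cases p r₁ r₂ s with h1 | h1
    · rw [h1]
      exact m1
    · rw [h1]
      exact m2
  have hρT : mmL p r₁ r₂ s ∈ mmT w₁ w₂ r₁ r₂ k :=
    mem_mmT.2 (by rcases mmL_cases p r₁ r₂ s with h | h <;> simp [h])
  have hρw := (S.w_lt (mmL_cases p r₁ r₂ s) s).1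
  let c : Fin m := ⟨mmL p r₁ r₂ s, hρm⟩
  have hρN : mmL p r₁ r₂ (s + n * L) = mmL p r₁ r₂ s := by
    unfold mmL
    rw [ps_mul h, ps_mul h]
  -- the trace
  let f : ℝ → ℝ := fun β => ∑ a : Fin m,
    if (a : ℕ) ∈ mmT w₁ w₂ r₁ r₂ k ∧ ps p s w₁ < ps p s a then
      dmat m (mmT w₁ w₂ r₁ r₂ k) (mmW w₁ w₂ r₁ r₂ β) p s (n * L) a a else 0
  have hf : Continuous f := by
    refine continuous_finsetSum _ fun a _ => ?_
    split_ifs
    · exact (continuous_apply a).comp ((continuous_apply a).comp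
        (mm_cont (p := p) (mmT w₁ w₂ r₁ r₂ k) _ (fun x => mmW_cont x) s (n * L)))
    · exact continuous_const
  have hf0 : f 0 = dmat m (mmT w₁ w₂ r₁ r₂ k) (mmW w₁ w₂ r₁ r₂ 0) p s (n * L) c c := by
    show ∑ a : Fin m, _ = _
    rw [Finset.sum_eq_single c]
    · rw [if_pos ⟨hρT, hρw⟩]
    · intro a _ hac
      by_cases ha : (a : ℕ) ∈ mmT w₁ w₂ r₁ r₂ k ∧ ps p s w₁ < ps p s a
      · rw [if_pos ha]
        have hne : (a : ℕ) ≠ mmL p r₁ r₂ s := fun h => hac (Fin.ext h)
        have hak : (a : ℕ) ≠ k := by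
          intro h1
          have := ha.2
          rw [h1] at this
          omega
        rcases mem_mmT.1 ha.1 with h1 | h1 | h1 | h1 | h1
        · have := ha.2
          rw [h1] at this
          omega
        · refine mm_two h (a := w₁) (b := w₂) (mem_mmT.2 (by simp)) (mem_mmT.2 (by simp)) ?_
            (S.W_2 0) cw (by nlinarith) ?_ a h1
          · unfold mmW
            rw [if_pos (Or.inl rfl)]
          · rw [ps_mul h, ps_mul h, ← h1]
            exact ha.2
        · exact S.row (mmW_r _ (Or.inl rfl)) (mmW_r _ (Or.inr rfl)) hn1 a a (Or.inl h1) hne ha.1 hak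
        · exact S.row (mmW_r _ (Or.inl rfl)) (mmW_r _ (Or.inr rfl)) hn1 a a (Or.inr h1) hne ha.1 hak
        · exact absurd h1 hak
      · rw [if_neg ha]
    · intro h1
      exact absurd (Finset.mem_univ c) h1
  have hf1 : ∀ β : ℝ, 0 ≤ β → β ≤ 1 →
      dmat m (mmT w₁ w₂ r₁ r₂ k) (mmW w₁ w₂ r₁ r₂ β) p s (n * L) c c ≤ f β := by
    intro β h0 h1
    have h2 : dmat m (mmT w₁ w₂ r₁ r₂ k) (mmW w₁ w₂ r₁ r₂ β) p s (n * L) c c =
        if (c : ℕ) ∈ mmT w₁ w₂ r₁ r₂ k ∧ ps p s w₁ < ps p s c then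
          dmat m (mmT w₁ w₂ r₁ r₂ k) (mmW w₁ w₂ r₁ r₂ β) p s (n * L) c c else 0 := by
      rw [if_pos ⟨hρT, hρw⟩]
    rw [h2]
    refine Finset.single_le_sum (f := fun a : Fin m =>
      if (a : ℕ) ∈ mmT w₁ w₂ r₁ r₂ k ∧ ps p s w₁ < ps p s a then
        dmat m (mmT w₁ w₂ r₁ r₂ k) (mmW w₁ w₂ r₁ r₂ β) p s (n * L) a a else 0) ?_
        (Finset.mem_univ c)
    intro a _
    by_cases h3 : (a : ℕ) ∈ mmT w₁ w₂ r₁ r₂ k ∧ ps p s w₁ < ps p s a
    · rw [if_pos h3]
      exact dmat_nonneg (mmW_nonneg h0) (mmW_le h1) _ _ _ _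
    · rw [if_neg h3]
  refine mm_powers hf ?_ ?_
  · rw [hf0]
    have h1 := S.pos_left (c := c) rfl le_rfl zero_le_one (n * L)
    rw [hρN] at h1
    have h2 := mmY_eq (v := mmW w₁ w₂ r₁ r₂ 0) (T := mmT w₁ w₂ r₁ r₂ k) (p := p) (s := s)
      (c := c) (n * L) c
    rw [← h2]
    exact h1
  · intro K hK
    have hβ0 : (0 : ℝ) < (1 / 2) ^ K := by positivity
    have hβ1 : ((1 : ℝ) / 2) ^ K ≤ 1 := pow_le_one₀ (by norm_num) (by norm_num)
    constructor
    · rw [hf0]
      refine lt_of_lt_of_le ?_ (hf1 _ hβ0.le hβ1)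
      have h1 := S.strict (c := c) (s := s) (N := n * L) rfl hβ0 hβ1
        (t₁ := t₁ + 1 * L) (t₂ := t₂ + 1 * L) (t₃ := t₃ + 1 * L) (by omega) (by omega) (by omega)
        e1' e2' e3' hno' (by omega)
      rw [hρN] at h1
      have h2 := mmY_eq (v := mmW w₁ w₂ r₁ r₂ 0) (T := mmT w₁ w₂ r₁ r₂ k) (p := p) (s := s)
        (c := c) (n * L) c
      have h3 := mmY_eq (v := mmW w₁ w₂ r₁ r₂ ((1 / 2) ^ K)) (T := mmT w₁ w₂ r₁ r₂ k) (p := p)
        (s := s) (c := c) (n * L) c
      rw [← h2, ← h3]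
      exact h1
    · obtain ⟨a, ha⟩ := rank_one h hG (mmT w₁ w₂ r₁ r₂ k) {w₁, r₁, r₂} K
        (fun x => if x = w₂ then K else 1) hK (fun x => by
          by_cases h1 : x = w₂
          · right
            simp [h1]
          · left
            simp [h1]) (w := w₁) (mem_mmT.2 (by simp)) (by simp) s n (S.charp hn1 hk _ rfl)
      refine ⟨a, ?_⟩
      let φ : ℤ[X] →+* ℝ := Polynomial.eval₂RingHom (Int.castRingHom ℝ) (1 / 2)
      have hφ : φ X = 1 / 2 := Polynomial.eval₂_X _ _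
      have h1 := congrArg φ ha
      rw [map_pow, hφ, map_sum] at h1
      rw [← h1]
      refine Finset.sum_congr rfl fun b _ => ?_
      split_ifs with h2
      · have h3 := dmat_map φ m (mmT w₁ w₂ r₁ r₂ k) (fun s => if s ∈ ({w₁, r₁, r₂} : Finset ℕ) then
          (0 : ℤ[X]) else X ^ (if s = w₂ then K else 1)) p s (n * L)
        have h4 : (fun x => φ (if x ∈ ({w₁, r₁, r₂} : Finset ℕ) then
            (0 : ℤ[X]) else X ^ (if x = w₂ then K else 1))) = mmW w₁ w₂ r₁ r₂ ((1 / 2) ^ K) := by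
          funext x
          unfold mmW
          by_cases h5 : x = w₁ ∨ x = r₁ ∨ x = r₂
          · rw [if_pos h5, if_pos (by simpa using h5), map_zero]
          · rw [if_neg h5, if_neg (by simpa using h5), map_pow, hφ]
            split_ifs
            · rfl
            · rw [pow_one]
        rw [h4] at h3
        rw [← h3]
        rfl
      · rw [map_zero]

end Pool.Agent.AMU
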