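import Pool.Agent.AMU0.Dm

open Matrix Polynomial

namespace Pool.Agent.AMU

/-- one step of the vector, all weights `-1` -/
private def pp4st (T : Finset ℕ) (p : ℕ → ℕ) (t : ℕ) (f : ℕ → ℂ) : ℕ → ℂ := fun z =>
  if conf p t (p t) ∈ T ∧ conf p t (p t + 1) ∈ T then
    (if z = conf p t (p t) then -f z
      else if z = conf p t (p t + 1) then f z + 2 * f (conf p t (p t)) else f z)
  else f z

/-- the vector at time `s + n` -/
private def pp4G (T : Finset ℕ) (p : ℕ → ℕ) (s : ℕ) (f : ℕ → ℂ) : ℕ → ℕ → ℂ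
  | 0 => f
  | n + 1 => pp4st T p (s + n) (pp4G T p s f n)

private lemma pp4_mulVec {m L : ℕ} {p : ℕ → ℕ} (h : IsTrack m L p) (T : Finset ℕ) (t : ℕ)
    (f : ℕ → ℂ) :
    (stepT m T (fun _ => (-1 : ℂ)) p t) *ᵥ (fun i : Fin m => f i) =
      fun i : Fin m => pp4st T p t f i := by
  have he := ev_self p t
  have hlt := ev_ltm h he
  funext z
  unfold pp4st
  by_cases hT : conf p t (p t) ∈ T ∧ conf p t (p t + 1) ∈ T
  · rw [if_pos hT]
    have h1 := stepT_mul (v := fun _ => (-1 : ℂ)) he hT.1 hT.2 hlt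
      (Matrix.of fun (i _ : Fin m) => f i) z z
    rw [Matrix.mul_apply] at h1
    show ∑ j, stepT m T (fun _ => (-1 : ℂ)) p t z j * f j = _
    simp only [Matrix.of_apply] at h1
    rw [h1]
    by_cases h2 : (z : ℕ) = conf p t (p t)
    · rw [if_pos h2, if_pos h2, h2]
      ring
    · rw [if_neg h2, if_neg h2]
      by_cases h3 : (z : ℕ) = conf p t (p t + 1)
      · rw [if_pos h3, if_pos h3, h3]
        ring
      · rw [if_neg h3, if_neg h3]
  · rw [if_neg hT]
    have h4 : conf p t (p t) ∉ T ∨ conf p t (p t + 1) ∉ T := by tauto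
    rw [stepT_out he h4, Matrix.one_mulVec]

private lemma pp4_dmat {m L : ℕ} {p : ℕ → ℕ} (h : IsTrack m L p) (T : Finset ℕ) (s : ℕ)
    (f : ℕ → ℂ) : ∀ n, (dmat m T (fun _ => (-1 : ℂ)) p s n) *ᵥ (fun i : Fin m => f i) =
      fun i : Fin m => pp4G T p s f n i
  | 0 => by
    show (1 : Matrix (Fin m) (Fin m) ℂ) *ᵥ _ = _
    rw [Matrix.one_mulVec]
    rfl
  | n + 1 => by
    show (stepT m T (fun _ => (-1 : ℂ)) p (s + n) * dmat m T (fun _ => (-1 : ℂ)) p s n) *ᵥ _ = _
    rw [← Matrix.mulVec_mulVec, pp4_dmat h T s f n, pp4_mulVec h]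
    rfl

private lemma pp4_out {T : Finset ℕ} {p : ℕ → ℕ} {t x y : ℕ} (he : ev p t x y)
    (hT : ¬ (x ∈ T ∧ y ∈ T)) (f : ℕ → ℂ) : pp4st T p t f = f := by
  funext z
  unfold pp4st
  rw [he.1, he.2, if_neg hT]

private lemma pp4_left {T : Finset ℕ} {p : ℕ → ℕ} {t x y : ℕ} (he : ev p t x y)
    (hx : x ∈ T) (hy : y ∈ T) (f : ℕ → ℂ) : pp4st T p t f x = -f x := by
  unfold pp4st
  rw [he.1, he.2, if_pos ⟨hx, hy⟩, if_pos rfl]

private lemma pp4_right {T : Finset ℕ} {p : ℕ → ℕ} {t x y : ℕ} (he : ev p t x y)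
    (hx : x ∈ T) (hy : y ∈ T) (f : ℕ → ℂ) : pp4st T p t f y = f y + 2 * f x := by
  unfold pp4st
  rw [he.1, he.2, if_pos ⟨hx, hy⟩, if_neg (ev_ne he).symm, if_pos rfl]

private lemma pp4_ne {T : Finset ℕ} {p : ℕ → ℕ} {t x y z : ℕ} (he : ev p t x y)
    (h1 : z ≠ x) (h2 : z ≠ y) (f : ℕ → ℂ) : pp4st T p t f z = f z := by
  unfold pp4st
  rw [he.1, he.2, if_neg h1, if_neg h2, ite_self]

private lemma pp4_keep {p : ℕ → ℕ} {t x y : ℕ} (h : ps p t x < ps p t y) (h' : ¬ ev p t x y) :
    ps p (t + 1) x < ps p (t + 1) y := (order_succ h).resolve_right h'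

/-- the progress of the pair `a, c` and the values of the vector there -/
private def pp4A (p : ℕ → ℕ) (a c : ℕ) (r : ℂ) (s t : ℕ) (e ga gc : ℂ) : Prop :=
  (ps p t c < ps p t a ∧ (∀ u, s < u → u < t → ¬ ev p u c a) ∧ ga = e * (2 * r - 1) ∧
    gc = e * (1 - r)) ∨
  (ps p t a < ps p t c ∧ ga = e ∧ gc = e * (r - 1)) ∨
  (ps p t c < ps p t a ∧ (∃ u, s < u ∧ u < t ∧ ev p u a c) ∧ ga = -e ∧ gc = e * (1 + r))

/-- the progress of the pair `d, b` and the values of the vector there -/
private def pp4D (p : ℕ → ℕ) (b d : ℕ) (r : ℂ) (s t : ℕ) (e gb gd : ℂ) : Prop :=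
  (ps p t d < ps p t b ∧ (∀ u, s < u → u < t → ¬ ev p u d b) ∧ gb = e * (1 - r) ∧
    gd = -e) ∨
  (ps p t b < ps p t d ∧ gb = e * (-1 - r) ∧ gd = e) ∨
  (ps p t d < ps p t b ∧ (∃ u, s < u ∧ u < t ∧ ev p u b d) ∧ gb = e * (1 + r) ∧
    gd = e * (-1 - 2 * r))

private lemma pp4A_keep {p : ℕ → ℕ} {a c s t : ℕ} {r e ga gc : ℂ}
    (h : pp4A p a c r s t e ga gc) (h1 : ¬ ev p t a c) (h2 : ¬ ev p t c a) :
    pp4A p a c r s (t + 1) e ga gc := by
  rcases h with ⟨h3, h4, h5, h6⟩ | ⟨h3, h5, h6⟩ | ⟨h3, ⟨u, hu1, hu2, hu3⟩, h5, h6⟩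
  · refine Or.inl ⟨pp4_keep h3 h2, fun u hu hu' => ?_, h5, h6⟩
    rcases Nat.lt_or_ge u t with h7 | h7
    · exact h4 u hu h7
    · have : u = t := by omega
      rw [this]
      exact h2
  · exact Or.inr (Or.inl ⟨pp4_keep h3 h1, h5, h6⟩)
  · exact Or.inr (Or.inr ⟨pp4_keep h3 h2, ⟨u, hu1, by omega, hu3⟩, h5, h6⟩)

private lemma pp4D_keep {p : ℕ → ℕ} {b d s t : ℕ} {r e gb gd : ℂ}
    (h : pp4D p b d r s t e gb gd) (h1 : ¬ ev p t b d) (h2 : ¬ ev p t d b) :
    pp4D p b d r s (t + 1) e gb gd := by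
  rcases h with ⟨h3, h4, h5, h6⟩ | ⟨h3, h5, h6⟩ | ⟨h3, ⟨u, hu1, hu2, hu3⟩, h5, h6⟩
  · refine Or.inl ⟨pp4_keep h3 h2, fun u hu hu' => ?_, h5, h6⟩
    rcases Nat.lt_or_ge u t with h7 | h7
    · exact h4 u hu h7
    · have : u = t := by omega
      rw [this]
      exact h2
  · exact Or.inr (Or.inl ⟨pp4_keep h3 h1, h5, h6⟩)
  · exact Or.inr (Or.inr ⟨pp4_keep h3 h2, ⟨u, hu1, by omega, hu3⟩, h5, h6⟩)

/-- the invariant -/
private def pp4Inv (p : ℕ → ℕ) (a b c d : ℕ) (r l : ℂ) (s0 t : ℕ) (g : ℕ → ℂ) : Prop :=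
  (∀ z, z ≠ a → z ≠ b → z ≠ c → z ≠ d → g z = 0) ∧
  ((∃ k : ℕ, ps p t d < ps p t a ∧ g a = l ^ k * (2 * r - 3) ∧ g b = l ^ k * (1 - r) ∧
      g c = l ^ k * (1 - r) ∧ g d = l ^ k ∧ (k = 0 → ∀ u, s0 ≤ u → u < t → ¬ ev p u d a)) ∨
    ∃ k s : ℕ, s < t ∧ ev p s d a ∧ (∀ u, s < u → u < t → ¬ ev p u a d) ∧
      ps p t a < ps p t d ∧ pp4A p a c r s t (l ^ k) (g a) (g c) ∧
      pp4D p b d r s t (l ^ k) (g b) (g d))

private lemma pp4_step {m : ℕ} {p : ℕ → ℕ} {a b c d : ℕ} (ham : a < m) (hbm : b < m) (hcm : c < m)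
    (hdm : d < m) (hab : a < b) (hcb : c < b) (hcd : c < d) (nab : ¬ Crs p a b)
    (nbc : ¬ Crs p b c) (ncd : ¬ Crs p c d) (cac : Crs p a c) (cad : Crs p a d)
    (cbd : Crs p b d) (hR : NoRR m p) (hL : NoLL m p) {r l : ℂ} (hr : r * r = 2)
    (hl : l = -3 - 2 * r) {T : Finset ℕ} (hT : T = {a, b, c, d}) {s0 t : ℕ} {g : ℕ → ℂ}
    (hI : pp4Inv p a b c d r l s0 t g) : pp4Inv p a b c d r l s0 (t + 1) (pp4st T p t g) := by
  have nab' : ∀ u, ¬ ev p u a b ∧ ¬ ev p u b a := fun u =>
    ⟨fun h => nab ⟨u, Or.inl h⟩, fun h => nab ⟨u, Or.inr h⟩⟩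
  have nbc' : ∀ u, ¬ ev p u b c ∧ ¬ ev p u c b := fun u =>
    ⟨fun h => nbc ⟨u, Or.inl h⟩, fun h => nbc ⟨u, Or.inr h⟩⟩
  have ncd' : ∀ u, ¬ ev p u c d ∧ ¬ ev p u d c := fun u =>
    ⟨fun h => ncd ⟨u, Or.inl h⟩, fun h => ncd ⟨u, Or.inr h⟩⟩
  have oab : ∀ u, ps p u a < ps p u b := never_lt nab hab
  have ocb : ∀ u, ps p u c < ps p u b := never_lt (fun h => nbc (crs_symm h)) hcb
  have ocd : ∀ u, ps p u c < ps p u d := never_lt ncd hcd
  have hac : a ≠ c := fun h => by
    obtain ⟨u, h1 | h1⟩ := cac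
    · exact ev_ne h1 h
    · exact ev_ne h1 h.symm
  have had : a ≠ d := fun h => by
    obtain ⟨u, h1 | h1⟩ := cad
    · exact ev_ne h1 h
    · exact ev_ne h1 h.symm
  have hbd : b ≠ d := fun h => by
    obtain ⟨u, h1 | h1⟩ := cbd
    · exact ev_ne h1 h
    · exact ev_ne h1 h.symm
  have hab' : a ≠ b := by omega
  have hcb' : c ≠ b := by omega
  have hcd' : c ≠ d := by omega
  obtain ⟨x, y, he⟩ : ∃ x y, ev p t x y := ⟨_, _, ev_self p t⟩
  have aT : a ∈ T := by rw [hT]; simp
  have bT : b ∈ T := by rw [hT]; simp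
  have cT : c ∈ T := by rw [hT]; simp
  have dT : d ∈ T := by rw [hT]; simp
  obtain ⟨h0, hS⟩ := hI
  -- the coordinates outside of `T`
  have h0' : ∀ z, z ≠ a → z ≠ b → z ≠ c → z ≠ d → pp4st T p t g z = 0 := by
    intro z h1 h2 h3 h4
    by_cases hxy : x ∈ T ∧ y ∈ T
    · have h5 : z ∉ T := by rw [hT]; simp [h1, h2, h3, h4]
      rw [pp4_ne he (fun h => h5 (by rw [h]; exact hxy.1)) (fun h => h5 (by rw [h]; exact hxy.2))]
      exact h0 z h1 h2 h3 h4
    · rw [pp4_out he hxy]
      exact h0 z h1 h2 h3 h4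
  refine ⟨h0', ?_⟩
  by_cases hxy : x ∈ T ∧ y ∈ T
  · have hx : x = a ∨ x = b ∨ x = c ∨ x = d := by
      have := hxy.1
      rw [hT] at this
      simpa using this
    have hy : y = a ∨ y = b ∨ y = c ∨ y = d := by
      have := hxy.2
      rw [hT] at this
      simpa using this
    rcases hS with ⟨k, h1, h2, h3, h4, h5, h6⟩ | ⟨k, s, h1, h2, h3, h4, hA, hD⟩
    · -- `d` is to the left of `a`
      have q1 := oab t
      have q2 := ocb t
      have q3 := ocd t
      rcases hx with rfl | rfl | rfl | rfl <;> rcases hy with rfl | rfl | rfl | rfl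
      · exact absurd rfl (ev_ne he)
      · exact absurd he (nab' t).1
      · exact absurd (ev_lt he) (by omega)
      · exact absurd (ev_lt he) (by omega)
      · exact absurd he (nab' t).2
      · exact absurd rfl (ev_ne he)
      · exact absurd he (nbc' t).1
      · exact absurd (ev_lt he) (by omega)
      · have := ev_adj he hcd'.symm had.symm
        omega
      · exact absurd he (nbc' t).2
      · exact absurd rfl (ev_ne he)
      · exact absurd he (ncd' t).1
      · -- the crossing of `d` and `a`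
        right
        refine ⟨k, t, by omega, he, fun u hu hu' => by omega, ev_lt' he, ?_, ?_⟩
        · left
          refine ⟨?_, fun u hu hu' => by omega, ?_, ?_⟩
          · exact pp4_keep (by omega) (fun h => hcd' (ev_unique h he).1)
          · rw [pp4_right he dT aT, h2, h5]; ring
          · rw [pp4_ne he hcd' hac.symm, h4]
        · left
          refine ⟨?_, fun u hu hu' => by omega, ?_, ?_⟩
          · exact pp4_keep (by omega) (fun h => hab'.symm (ev_unique h he).2)
          · rw [pp4_ne he hbd hab'.symm, h3]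
          · rw [pp4_left he dT aT, h5]
      · have := ev_adj he had hab'
        omega
      · exact absurd he (ncd' t).2
      · exact absurd rfl (ev_ne he)
    · -- `a` is to the left of `d`
      have q1 := oab t
      have q2 := ocb t
      have q3 := ocd t
      have keep3 : ¬ ev p t a d → ∀ u, s < u → u < t + 1 → ¬ ev p u a d := by
        intro h7 u hu hu'
        rcases Nat.lt_or_ge u t with h8 | h8
        · exact h3 u hu h8
        · have : u = t := by omega
          rw [this]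
          exact h7
      rcases hx with rfl | rfl | rfl | rfl <;> rcases hy with rfl | rfl | rfl | rfl
      · exact absurd rfl (ev_ne he)
      · exact absurd he (nab' t).1
      · -- `a c`
        right
        have n1 : ¬ ev p t x d := fun h => hcd'.symm (ev_unique h he).2
        have n2 : ¬ ev p t b d := fun h => hab'.symm (ev_unique h he).1
        have n3 : ¬ ev p t d b := fun h => had.symm (ev_unique h he).1
        refine ⟨k, s, by omega, h2, keep3 n1, pp4_keep h4 n1, ?_, ?_⟩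
        · rcases hA with ⟨h5, h6, h7, h8⟩ | ⟨h5, h7, h8⟩ | ⟨h5, h6, h7, h8⟩
          · exact absurd (ev_lt he) (by omega)
          · refine Or.inr (Or.inr ⟨ev_lt' he, ⟨t, h1, by omega, he⟩, ?_, ?_⟩)
            · rw [pp4_left he aT cT, h7]
            · rw [pp4_right he aT cT, h7, h8]; ring
          · exact absurd (ev_lt he) (by omega)
        · rw [pp4_ne he hab'.symm hcb'.symm, pp4_ne he had.symm hcd'.symm]
          exact pp4D_keep hD n2 n3
      · -- `a d`
        left
        rcases hA with ⟨h5, h6, h7, h8⟩ | ⟨h5, h7, h8⟩ | ⟨h5, h6, h7, h8⟩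
        · exact (hR c y x s t hcd hdm ham ncd cac h1 h2 he h6).elim
        · have := ev_adj he hac.symm hcd'
          omega
        · rcases hD with ⟨g5, g6, g7, g8⟩ | ⟨g5, g7, g8⟩ | ⟨g5, g6, g7, g8⟩
          · exact (hL x b y s t hab hbm hdm nab (crs_symm cbd) h1 h2 he g6).elim
          · have := ev_adj he hab'.symm hbd
            omega
          · refine ⟨k + 1, ev_lt' he, ?_, ?_, ?_, ?_, fun h => by omega⟩
            · rw [pp4_left he aT dT, h7, hl, pow_succ]
              linear_combination (4 * (-3 - 2 * r) ^ k) * hr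
            · rw [pp4_ne he hab'.symm hbd, g7, hl, pow_succ]
              linear_combination (-2 * (-3 - 2 * r) ^ k) * hr
            · rw [pp4_ne he hac.symm hcd', h8, hl, pow_succ]
              linear_combination (-2 * (-3 - 2 * r) ^ k) * hr
            · rw [pp4_right he aT dT, h7, g8, hl, pow_succ]
              ring
      · exact absurd he (nab' t).2
      · exact absurd rfl (ev_ne he)
      · exact absurd he (nbc' t).1
      · -- `b d`
        right
        have n1 : ¬ ev p t a y := fun h => hab' (ev_unique h he).1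
        have n2 : ¬ ev p t a c := fun h => hab' (ev_unique h he).1
        have n3 : ¬ ev p t c a := fun h => hcb' (ev_unique h he).1
        refine ⟨k, s, by omega, h2, keep3 n1, pp4_keep h4 n1, ?_, ?_⟩
        · rw [pp4_ne he hab' had, pp4_ne he hcb' hcd']
          exact pp4A_keep hA n2 n3
        · rcases hD with ⟨h5, h6, h7, h8⟩ | ⟨h5, h7, h8⟩ | ⟨h5, h6, h7, h8⟩
          · exact absurd (ev_lt he) (by omega)
          · refine Or.inr (Or.inr ⟨ev_lt' he, ⟨t, h1, by omega, he⟩, ?_, ?_⟩)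
            · rw [pp4_left he bT dT, h7]; ring
            · rw [pp4_right he bT dT, h7, h8]; ring
          · exact absurd (ev_lt he) (by omega)
      · -- `c a`
        right
        have n1 : ¬ ev p t y d := fun h => hac (ev_unique h he).1
        have n2 : ¬ ev p t b d := fun h => hcb'.symm (ev_unique h he).1
        have n3 : ¬ ev p t d b := fun h => hcd'.symm (ev_unique h he).1
        refine ⟨k, s, by omega, h2, keep3 n1, pp4_keep h4 n1, ?_, ?_⟩
        · rcases hA with ⟨h5, h6, h7, h8⟩ | ⟨h5, h7, h8⟩ | ⟨h5, ⟨u, hu1, hu2, hu3⟩, h7, h8⟩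
          · refine Or.inr (Or.inl ⟨ev_lt' he, ?_, ?_⟩)
            · rw [pp4_right he cT aT, h7, h8]; ring
            · rw [pp4_left he cT aT, h8]; ring
          · exact absurd (ev_lt he) (by omega)
          · exact (hL x d y u t hcd hdm ham ncd cad hu2 hu3 he
              fun v hv hv' => h3 v (by omega) hv').elim
        · rw [pp4_ne he hcb'.symm hab'.symm, pp4_ne he hcd'.symm had.symm]
          exact pp4D_keep hD n2 n3
      · exact absurd he (nbc' t).2
      · exact absurd rfl (ev_ne he)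
      · exact absurd he (ncd' t).1
      · exact absurd (ev_lt he) (by omega)
      · -- `d b`
        right
        have n1 : ¬ ev p t a x := fun h => had (ev_unique h he).1
        have n2 : ¬ ev p t a c := fun h => had (ev_unique h he).1
        have n3 : ¬ ev p t c a := fun h => hcd' (ev_unique h he).1
        refine ⟨k, s, by omega, h2, keep3 n1, pp4_keep h4 n1, ?_, ?_⟩
        · rw [pp4_ne he had hab', pp4_ne he hcd' hcb']
          exact pp4A_keep hA n2 n3
        · rcases hD with ⟨h5, h6, h7, h8⟩ | ⟨h5, h7, h8⟩ | ⟨h5, ⟨u, hu1, hu2, hu3⟩, h7, h8⟩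
          · refine Or.inr (Or.inl ⟨ev_lt' he, ?_, ?_⟩)
            · rw [pp4_right he dT bT, h7, h8]; ring
            · rw [pp4_left he dT bT, h8]; ring
          · exact absurd (ev_lt he) (by omega)
          · exact (hR a y x u t hab hbm hdm nab (crs_symm cad) hu2 hu3 he
              fun v hv hv' => h3 v (by omega) hv').elim
      · exact absurd he (ncd' t).2
      · exact absurd rfl (ev_ne he)
  · -- nothing happens
    rw [pp4_out he hxy]
    have hno : ∀ x' y', x' ∈ T → y' ∈ T → ¬ ev p t x' y' := by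
      intro x' y' hx' hy' h
      obtain ⟨h1, h2⟩ := ev_unique he h
      exact hxy ⟨by rw [h1]; exact hx', by rw [h2]; exact hy'⟩
    rcases hS with ⟨k, h1, h2, h3, h4, h5, h6⟩ | ⟨k, s, h1, h2, h3, h4, hA, hD⟩
    · left
      refine ⟨k, pp4_keep h1 (hno _ _ dT aT), h2, h3, h4, h5, fun hk u hu hu' => ?_⟩
      rcases Nat.lt_or_ge u t with h7 | h7
      · exact h6 hk u hu h7
      · have : u = t := by omega
        rw [this]
        exact hno _ _ dT aT
    · right
      refine ⟨k, s, by omega, h2, fun u hu hu' => ?_, pp4_keep h4 (hno _ _ aT dT),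
        pp4A_keep hA (hno _ _ aT cT) (hno _ _ cT aT), pp4D_keep hD (hno _ _ bT dT) (hno _ _ dT bT)⟩
      rcases Nat.lt_or_ge u t with h7 | h7
      · exact h3 u hu h7
      · have : u = t := by omega
        rw [this]
        exact hno _ _ aT dT

private lemma pp4_main {m L : ℕ} {p : ℕ → ℕ} (h : IsTrack m L p) (hG : Good m L p) {a b c d : ℕ}
    (ham : a < m) (hbm : b < m) (hcm : c < m)
    (hdm : d < m) (hab : a < b) (hcb : c < b) (hcd : c < d) (nab : ¬ Crs p a b)
    (nbc : ¬ Crs p b c) (ncd : ¬ Crs p c d) (cac : Crs p a c) (cad : Crs p a d)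
    (cbd : Crs p b d) (hR : NoRR m p) (hL : NoLL m p) : False := by
  obtain ⟨⟨t0, -, -, ht0⟩, -⟩ := crs_both h cad 0
  set s0 := t0 + 1 with hs0
  set r : ℂ := ((√2 : ℝ) : ℂ) with hrdef
  have hr : r * r = 2 := by
    rw [hrdef, ← Complex.ofReal_mul, Real.mul_self_sqrt (by norm_num)]
    norm_num
  set l : ℂ := -3 - 2 * r with hl
  set T : Finset ℕ := {a, b, c, d} with hT
  have hac : a ≠ c := fun h => by
    obtain ⟨u, h1 | h1⟩ := cac
    · exact ev_ne h1 h
    · exact ev_ne h1 h.symm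
  have had : a ≠ d := fun h => by
    obtain ⟨u, h1 | h1⟩ := cad
    · exact ev_ne h1 h
    · exact ev_ne h1 h.symm
  have hbd : b ≠ d := fun h => by
    obtain ⟨u, h1 | h1⟩ := cbd
    · exact ev_ne h1 h
    · exact ev_ne h1 h.symm
  have hab' : a ≠ b := by omega
  have hcb' : c ≠ b := by omega
  have hcd' : c ≠ d := by omega
  let f : ℕ → ℂ := fun z => if z = a then 2 * r - 3 else if z = b then 1 - r
    else if z = c then 1 - r else if z = d then 1 else 0
  have fa : f a = 2 * r - 3 := if_pos rfl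
  have fb : f b = 1 - r := by
    show (if b = a then _ else _) = _
    rw [if_neg hab'.symm, if_pos rfl]
  have fc : f c = 1 - r := by
    show (if c = a then _ else _) = _
    rw [if_neg hac.symm, if_neg hcb', if_pos rfl]
  have fd : f d = 1 := by
    show (if d = a then _ else _) = _
    rw [if_neg had.symm, if_neg hbd.symm, if_neg hcd'.symm, if_pos rfl]
  have f0 : ∀ z, z ≠ a → z ≠ b → z ≠ c → z ≠ d → f z = 0 := by
    intro z h1 h2 h3 h4
    show (if z = a then _ else _) = _
    rw [if_neg h1, if_neg h2, if_neg h3, if_neg h4]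
  have hInv : ∀ n, pp4Inv p a b c d r l s0 (s0 + n) (pp4G T p s0 f n) := by
    intro n
    induction n with
    | zero =>
      refine ⟨f0, Or.inl ⟨0, ev_lt' ht0, ?_, ?_, ?_, ?_, fun _ u hu hu' => by omega⟩⟩
      · rw [pow_zero, one_mul]; exact fa
      · rw [pow_zero, one_mul]; exact fb
      · rw [pow_zero, one_mul]; exact fc
      · rw [pow_zero]; exact fd
    | succ n ih =>
      exact pp4_step ham hbm hcm hdm hab hcb hcd nab nbc ncd cac cad cbd hR hL hr hl hT ih
  obtain ⟨h0, hS⟩ := hInv L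
  have e1 := ps_mul h s0 1 a
  have e2 := ps_mul h s0 1 d
  rw [one_mul] at e1 e2
  have e3 : ps p s0 d < ps p s0 a := ev_lt' ht0
  rcases hS with ⟨k, h1, h2, h3, h4, h5, h6⟩ | ⟨k, s, h1, h2, h3, h4, hA, hD⟩
  · have hk : k ≠ 0 := by
      intro hk
      obtain ⟨-, u, hu1, hu2, hu3⟩ := crs_both h cad s0
      exact h6 hk u hu1 hu2 hu3
    have hEig : Eig (dmat m T (fun s => if s ∈ (∅ : Finset ℕ) then (1 : ℂ) else
        (-1 : ℂ) ^ ((fun _ => 1) s)) p s0 (1 * L)) (l ^ k) := by
      have hv : (fun s => if s ∈ (∅ : Finset ℕ) then (1 : ℂ) else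
        (-1 : ℂ) ^ ((fun _ => 1) s)) = fun _ => -1 := by
        funext s
        simp
      rw [hv, one_mul]
      refine ⟨fun i : Fin m => f i, ?_, ?_⟩
      · intro h7
        have := congrFun h7 ⟨d, hdm⟩
        simp only [Pi.zero_apply] at this
        rw [fd] at this
        exact one_ne_zero this
      · rw [pp4_dmat h T s0 f L]
        funext z
        show pp4G T p s0 f L z = l ^ k * f z
        by_cases ha : (z : ℕ) = a
        · rw [ha, h2, fa]
        · by_cases hb : (z : ℕ) = b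
          · rw [hb, h3, fb]
          · by_cases hc : (z : ℕ) = c
            · rw [hc, h4, fc]
            · by_cases hd : (z : ℕ) = d
              · rw [hd, h5, fd, mul_one]
              · rw [h0 z ha hb hc hd, f0 z ha hb hc hd, mul_zero]
    have h8 := hG T ∅ 1 (fun _ => 1) le_rfl (fun _ => Or.inl rfl) (-1) 1 (by simp) (by simp)
      s0 1 (l ^ k) hEig
    rw [norm_pow] at h8
    have h9 : ‖l‖ = 1 := (pow_eq_one_iff_of_nonneg (norm_nonneg l) hk).1 h8
    have h10 : l = ((-(3 + 2 * √2) : ℝ) : ℂ) := by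
      rw [hl, hrdef]
      push_cast
      ring
    rw [h10, Complex.norm_real, Real.norm_eq_abs, abs_neg, abs_of_nonneg (by positivity)] at h9
    have := Real.sqrt_nonneg 2
    linarith
  · omega

theorem noP4 {m L : ℕ} {p : ℕ → ℕ} (h : IsTrack m L p) (hG : Good m L p) (hR : NoRR m p)
    (hL : NoLL m p) : NoP4 m p := by
  intro a b c d ham hbm hcm hdm hab hbc hcd hac had hbd nab nbc ncd cac cad cbd
  rcases Nat.lt_or_ge a b with h1 | h1
  · have h2 : c < b := by
      by_contra h3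
      have h4 : b < c := by omega
      have o1 := never_lt nab h1
      have o2 := never_lt nbc h4
      obtain ⟨⟨u, -, -, hu⟩, u', -, -, hu'⟩ := crs_both h cac 0
      have := ev_lt hu'
      have := o1 u'
      have := o2 u'
      omega
    have h3 : c < d := by
      by_contra h3
      have h4 : d < c := by omega
      have o1 := never_lt (fun h => nbc (crs_symm h)) h2
      have o2 := never_lt (fun h => ncd (crs_symm h)) h4
      obtain ⟨⟨u, -, -, hu⟩, u', -, -, hu'⟩ := crs_both h cbd 0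
      have := ev_lt hu
      have := o1 u
      have := o2 u
      omega
    exact pp4_main h hG ham hbm hcm hdm h1 h2 h3 nab nbc ncd cac cad cbd hR hL
  · have h1' : b < a := by omega
    have h2 : b < c := by
      by_contra h3
      have h4 : c < b := by omega
      have o1 := never_lt (fun h => nab (crs_symm h)) h1'
      have o2 := never_lt (fun h => nbc (crs_symm h)) h4
      obtain ⟨⟨u, -, -, hu⟩, u', -, -, hu'⟩ := crs_both h cac 0
      have := ev_lt hu
      have := o1 u
      have := o2 u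
      omega
    have h3 : d < c := by
      by_contra h3
      have h4 : c < d := by omega
      have o1 := never_lt nbc h2
      have o2 := never_lt ncd h4
      obtain ⟨⟨u, -, -, hu⟩, u', -, -, hu'⟩ := crs_both h cbd 0
      have := ev_lt hu'
      have := o1 u'
      have := o2 u'
      omega
    exact pp4_main h hG hdm hcm hbm ham h3 h2 h1' (fun h => ncd (crs_symm h))
      (fun h => nbc (crs_symm h)) (fun h => nab (crs_symm h)) (crs_symm cbd) (crs_symm cad)
      (crs_symm cac) hR hL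

end Pool.Agent.AMU
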