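import Pool.Agent.AMU0.Base

/-! Basic facts about crossing sequences. -/

namespace Pool.Agent.AMU

lemma ps_conf (p : ℕ → ℕ) (t x : ℕ) : ps p t (conf p t x) = x := by
  exact (conf p t).symm_apply_apply x

lemma conf_ps (p : ℕ → ℕ) (t s : ℕ) : conf p t (ps p t s) = s := by
  exact (conf p t).apply_symm_apply s

lemma ps_inj {p : ℕ → ℕ} {t s s' : ℕ} (h : ps p t s = ps p t s') : s = s' := by
  rw [← conf_ps p t s, h, conf_ps]

lemma ps_zero (p : ℕ → ℕ) (s : ℕ) : ps p 0 s = s := rfl

lemma ps_succ (p : ℕ → ℕ) (t s : ℕ) :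
    ps p (t + 1) s = Equiv.swap (p t) (p t + 1) (ps p t s) := by
  show (conf p t * Equiv.swap (p t) (p t + 1))⁻¹ s = _
  rw [mul_inv_rev, Equiv.swap_inv]
  rfl

lemma ev_ps {p : ℕ → ℕ} {t a b : ℕ} : ev p t a b ↔ ps p t a = p t ∧ ps p t b = p t + 1 := by
  constructor
  · rintro ⟨rfl, rfl⟩
    exact ⟨ps_conf _ _ _, ps_conf _ _ _⟩
  · rintro ⟨h1, h2⟩
    exact ⟨by rw [← h1, conf_ps], by rw [← h2, conf_ps]⟩

lemma ev_self (p : ℕ → ℕ) (t : ℕ) : ev p t (conf p t (p t)) (conf p t (p t + 1)) := ⟨rfl, rfl⟩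

lemma ev_unique {p : ℕ → ℕ} {t a b a' b' : ℕ} (h : ev p t a b) (h' : ev p t a' b') :
    a = a' ∧ b = b' := ⟨h.1.symm.trans h'.1, h.2.symm.trans h'.2⟩

lemma ev_ne {p : ℕ → ℕ} {t a b : ℕ} (h : ev p t a b) : a ≠ b := by
  rw [ev_ps] at h
  intro hab
  subst hab
  omega

lemma ps_succ_left {p : ℕ → ℕ} {t a b : ℕ} (h : ev p t a b) : ps p (t + 1) a = p t + 1 := by
  rw [ps_succ, (ev_ps.1 h).1, Equiv.swap_apply_left]

lemma ps_succ_right {p : ℕ → ℕ} {t a b : ℕ} (h : ev p t a b) : ps p (t + 1) b = p t := by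
  rw [ps_succ, (ev_ps.1 h).2, Equiv.swap_apply_right]

lemma ps_succ_ne {p : ℕ → ℕ} {t a b s : ℕ} (h : ev p t a b) (ha : s ≠ a) (hb : s ≠ b) :
    ps p (t + 1) s = ps p t s := by
  rw [ps_succ, Equiv.swap_apply_of_ne_of_ne]
  · intro h1
    exact ha (ps_inj (h1.trans (ev_ps.1 h).1.symm))
  · intro h1
    exact hb (ps_inj (h1.trans (ev_ps.1 h).2.symm))

/-- no strand is between two strands which cross -/
lemma ev_adj {p : ℕ → ℕ} {t a b s : ℕ} (h : ev p t a b) (ha : s ≠ a) (hb : s ≠ b) :
    ps p t s < ps p t a ↔ ps p t s < ps p t b := by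
  obtain ⟨h1, h2⟩ := ev_ps.1 h
  have h3 : ps p t s ≠ ps p t a := fun h => ha (ps_inj h)
  have h4 : ps p t s ≠ ps p t b := fun h => hb (ps_inj h)
  omega

lemma ev_lt {p : ℕ → ℕ} {t a b : ℕ} (h : ev p t a b) : ps p t a < ps p t b := by
  obtain ⟨h1, h2⟩ := ev_ps.1 h
  omega

lemma ev_lt' {p : ℕ → ℕ} {t a b : ℕ} (h : ev p t a b) : ps p (t + 1) b < ps p (t + 1) a := by
  rw [ps_succ_left h, ps_succ_right h]
  omega

lemma order_succ {p : ℕ → ℕ} {t s s' : ℕ} (h : ps p t s < ps p t s') :
    ps p (t + 1) s < ps p (t + 1) s' ∨ ev p t s s' := by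
  have he := ev_self p t
  set a := conf p t (p t)
  set b := conf p t (p t + 1)
  obtain ⟨h1, h2⟩ := ev_ps.1 he
  by_cases hsa : s = a
  · rw [hsa] at h ⊢
    by_cases hs'b : s' = b
    · right
      rw [hs'b]
      exact he
    · left
      have hne : s' ≠ a := by
        intro h3
        rw [h3] at h
        omega
      rw [ps_succ_ne he hne hs'b, ps_succ_left he]
      have h4 : ps p t s' ≠ ps p t b := fun h5 => hs'b (ps_inj h5)
      omega
  · by_cases hsb : s = b
    · left
      rw [hsb] at h ⊢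
      have hne : s' ≠ b := by
        intro h3
        rw [h3] at h
        omega
      have hne' : s' ≠ a := by
        intro h3
        rw [h3] at h
        omega
      rw [ps_succ_right he, ps_succ_ne he hne' hne]
      omega
    · left
      rw [ps_succ_ne he hsa hsb]
      by_cases hs'a : s' = a
      · rw [hs'a] at h ⊢
        rw [ps_succ_left he]
        omega
      · by_cases hs'b : s' = b
        · rw [hs'b] at h ⊢
          rw [ps_succ_right he]
          have h4 : ps p t s ≠ ps p t a := fun h5 => hsa (ps_inj h5)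
          omega
        · rw [ps_succ_ne he hs'a hs'b]
          exact h

lemma order_change {p : ℕ → ℕ} {t s s' : ℕ} (h : ps p t s < ps p t s') : ∀ n,
    ps p (t + n) s' < ps p (t + n) s → ∃ u, t ≤ u ∧ u < t + n ∧ ev p u s s'
  | 0, h' => by
    rw [Nat.add_zero] at h'
    omega
  | n + 1, h' => by
    by_cases h1 : ps p (t + n) s < ps p (t + n) s'
    · rcases order_succ h1 with h2 | h2
      · rw [← add_assoc] at h'
        omega
      · exact ⟨t + n, by omega, by omega, h2⟩
    · have hne : s ≠ s' := by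
        rintro rfl
        omega
      have h3 : ps p (t + n) s ≠ ps p (t + n) s' := fun h => hne (ps_inj h)
      obtain ⟨u, hu1, hu2, hu3⟩ := order_change h n (by omega)
      exact ⟨u, hu1, by omega, hu3⟩

/-- if two strands change their order, they cross in between -/
lemma exists_ev {p : ℕ → ℕ} {t t' s s' : ℕ} (htt : t ≤ t') (h : ps p t s < ps p t s')
    (h' : ps p t' s' < ps p t' s) : ∃ u, t ≤ u ∧ u < t' ∧ ev p u s s' := by
  obtain ⟨n, rfl⟩ := Nat.exists_eq_add_of_le htt
  exact order_change h n h'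

/-- strands which do not cross between two times keep their order -/
lemma order_keep {p : ℕ → ℕ} {t t' s s' : ℕ} (htt : t ≤ t') (h : ps p t s < ps p t s')
    (h' : ∀ u, t ≤ u → u < t' → ¬ ev p u s s') : ps p t' s < ps p t' s' := by
  by_contra hne
  have hss : s ≠ s' := by
    rintro rfl
    omega
  have h3 : ps p t' s ≠ ps p t' s' := fun h => hss (ps_inj h)
  obtain ⟨u, h1, h2, h4⟩ := exists_ev htt h (by omega)
  exact h' u h1 h2 h4

lemma never_lt {p : ℕ → ℕ} {s s' : ℕ} (h : ¬ Crs p s s') (hlt : s < s') (t : ℕ) :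
    ps p t s < ps p t s' :=
  order_keep (Nat.zero_le t) (by rw [ps_zero, ps_zero]; exact hlt)
    fun u _ _ he => h ⟨u, Or.inl he⟩

lemma crs_symm {p : ℕ → ℕ} {a b : ℕ} (h : Crs p a b) : Crs p b a := by
  obtain ⟨t, h | h⟩ := h
  · exact ⟨t, Or.inr h⟩
  · exact ⟨t, Or.inl h⟩

section track

variable {m L : ℕ} {p : ℕ → ℕ}

lemma conf_add (h : IsTrack m L p) : ∀ t, conf p (t + L) = conf p t
  | 0 => by rw [Nat.zero_add, h.pure]; rfl
  | t + 1 => by
    rw [show t + 1 + L = (t + L) + 1 by ring]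
    show conf p (t + L) * Equiv.swap (p (t + L)) (p (t + L) + 1) = conf p t * _
    rw [conf_add h t, h.per]

lemma per_mul (h : IsTrack m L p) (t : ℕ) : ∀ n, p (t + n * L) = p t
  | 0 => by rw [Nat.zero_mul, Nat.add_zero]
  | n + 1 => by
    rw [show t + (n + 1) * L = (t + n * L) + L by ring, h.per, per_mul h t n]

lemma conf_mul (h : IsTrack m L p) (t : ℕ) : ∀ n, conf p (t + n * L) = conf p t
  | 0 => by rw [Nat.zero_mul, Nat.add_zero]
  | n + 1 => by
    rw [show t + (n + 1) * L = (t + n * L) + L by ring, conf_add h, conf_mul h t n]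

lemma ps_mul (h : IsTrack m L p) (t n s : ℕ) : ps p (t + n * L) s = ps p t s := by
  unfold ps
  rw [conf_mul h]

lemma ev_mul (h : IsTrack m L p) (t n a b : ℕ) : ev p (t + n * L) a b ↔ ev p t a b := by
  unfold ev
  rw [conf_mul h, per_mul h]

lemma conf_lt (h : IsTrack m L p) : ∀ t x, (conf p t x < m ↔ x < m)
  | 0, _ => Iff.rfl
  | t + 1, x => by
    show conf p t (Equiv.swap (p t) (p t + 1) x) < m ↔ _
    rw [conf_lt h t]
    have h1 := h.lt t
    by_cases h2 : x = p t
    · rw [h2, Equiv.swap_apply_left]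
      omega
    · by_cases h3 : x = p t + 1
      · rw [h3, Equiv.swap_apply_right]
        omega
      · rw [Equiv.swap_apply_of_ne_of_ne h2 h3]

lemma ps_lt (h : IsTrack m L p) (t s : ℕ) : ps p t s < m ↔ s < m := by
  rw [← conf_lt h t, conf_ps]

lemma ev_ltm (h : IsTrack m L p) {t a b : ℕ} (he : ev p t a b) : a < m ∧ b < m := by
  obtain ⟨h1, h2⟩ := he
  have h3 := h.lt t
  rw [← h1, ← h2]
  exact ⟨(conf_lt h _ _).2 (by omega), (conf_lt h _ _).2 (by omega)⟩

/-- an event occurs in every window of length `L` -/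
lemma ev_window (h : IsTrack m L p) {t a b : ℕ} (he : ev p t a b) (s : ℕ) :
    ∃ u, s ≤ u ∧ u < s + L ∧ ev p u a b := by
  have hL := h.Lpos
  have h1 : ev p (t % L) a b := by
    have h2 := ev_mul h (t % L) (t / L) a b
    rw [Nat.mod_add_div'] at h2
    exact h2.1 he
  have hr : t % L < L := Nat.mod_lt _ hL
  have hs : s % L < L := Nat.mod_lt _ hL
  have hd := Nat.mod_add_div' s L
  rcases Nat.lt_or_ge (t % L) (s % L) with h3 | h3
  · refine ⟨t % L + (s / L + 1) * L, ?_, ?_, (ev_mul h _ _ _ _).2 h1⟩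
    · have : (s / L + 1) * L = s / L * L + L := by ring
      omega
    · have : (s / L + 1) * L = s / L * L + L := by ring
      omega
  · refine ⟨t % L + s / L * L, ?_, ?_, (ev_mul h _ _ _ _).2 h1⟩
    · omega
    · omega

/-- strands which cross do so in both directions in every window of length `L` -/
lemma crs_both (h : IsTrack m L p) {a b : ℕ} (hc : Crs p a b) (s : ℕ) :
    (∃ u, s ≤ u ∧ u < s + L ∧ ev p u a b) ∧ ∃ u, s ≤ u ∧ u < s + L ∧ ev p u b a := by
  have key : ∀ {a b t}, ev p t a b → ∃ u, ev p u b a := by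
    intro a b t he
    have h1 := ev_lt he
    have h2 := ev_lt' he
    have h3 : ps p (t + L) a < ps p (t + L) b := by
      have := ps_mul h t 1 a
      have h4 := ps_mul h t 1 b
      rw [one_mul] at this h4
      rw [this, h4]
      exact h1
    obtain ⟨u, _, _, hu⟩ := exists_ev (by have := h.Lpos; omega) h2 h3
    exact ⟨u, hu⟩
  obtain ⟨t, he | he⟩ := hc
  · obtain ⟨u, hu⟩ := key he
    exact ⟨ev_window h he s, ev_window h hu s⟩
  · obtain ⟨u, hu⟩ := key he
    exact ⟨ev_window h hu s, ev_window h he s⟩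

end track

/-! ### Positive words -/

lemma trk_lt {m : ℕ} {X : List ℕ} (hX : X ≠ []) (hL : Lt m X) (t : ℕ) : trk X t + 1 < m := by
  unfold trk
  have h0 : 0 < X.length := List.length_pos_iff.2 hX
  have h1 : t % X.length < X.reverse.length := by
    rw [List.length_reverse]
    exact Nat.mod_lt _ h0
  rw [List.getD_eq_getElem _ _ h1]
  exact hL _ (List.mem_reverse.1 (List.getElem_mem _))

lemma trk_per (X : List ℕ) (t : ℕ) : trk X (t + X.length) = trk X t := by
  unfold trk
  rw [Nat.add_mod_right]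

/-- the crossing sequence of a word without periodicity -/
lemma trk_cons {x : ℕ} {X : List ℕ} : trk (x :: X) X.length = x := by
  unfold trk
  rw [List.reverse_cons, List.length_cons, Nat.mod_eq_of_lt (by omega), List.getD_eq_getElem _ _ (by
    simp), List.getElem_append_right (by simp)]
  simp

lemma trk_cons_lt {x : ℕ} {X : List ℕ} {t : ℕ} (ht : t < X.length) :
    trk (x :: X) t = trk X t := by
  unfold trk
  rw [List.reverse_cons, List.length_cons, Nat.mod_eq_of_lt (by omega), Nat.mod_eq_of_lt ht,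
    List.getD_eq_getElem _ _ (by simp; omega), List.getD_eq_getElem _ _ (by simp; omega),
    List.getElem_append_left (by simp; omega)]

lemma conf_congr {p p' : ℕ → ℕ} : ∀ t, (∀ u, u < t → p u = p' u) → conf p t = conf p' t
  | 0, _ => rfl
  | t + 1, h => by
    show conf p t * _ = conf p' t * _
    rw [conf_congr t fun u hu => h u (by omega), h t (by omega)]

lemma seg_congr {G : Type*} [Group G] (g : ℕ → G) {p p' : ℕ → ℕ} (s : ℕ) : ∀ n,
    (∀ u, s ≤ u → u < s + n → p u = p' u) → seg g p s n = seg g p' s n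
  | 0, _ => rfl
  | n + 1, h => by
    show g (p (s + n)) * _ = g (p' (s + n)) * _
    rw [seg_congr g s n fun u h1 h2 => h u h1 (by omega), h (s + n) (by omega) (by omega)]

lemma seg_add {G : Type*} [Group G] (g : ℕ → G) (p : ℕ → ℕ) (s n : ℕ) : ∀ k,
    seg g p s (n + k) = seg g p (s + n) k * seg g p s n
  | 0 => by simp [seg]
  | k + 1 => by
    show g (p (s + (n + k))) * seg g p s (n + k) = g (p (s + n + k)) * seg g p (s + n) k * _
    rw [seg_add g p s n k, ← add_assoc, mul_assoc]

lemma seg_shift {G : Type*} [Group G] (g : ℕ → G) {p : ℕ → ℕ} {L : ℕ} (h : ∀ t, p (t + L) = p t)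
    (s : ℕ) : ∀ n, seg g p (s + L) n = seg g p s n
  | 0 => rfl
  | n + 1 => by
    show g (p (s + L + n)) * _ = g (p (s + n)) * _
    rw [seg_shift g h s n, show s + L + n = s + n + L by ring, h]

lemma seg_trk (m : ℕ) : ∀ X : List ℕ, seg (sg m) (trk X) 0 X.length = pw m X
  | [] => rfl
  | x :: X => by
    show sg m (trk (x :: X) (0 + X.length)) * seg (sg m) (trk (x :: X)) 0 X.length = _
    rw [Nat.zero_add, trk_cons, seg_congr (p' := trk X) _ 0 _ fun u _ hu => trk_cons_lt (by omega),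
      seg_trk m X]
    simp [pw]

lemma conf_trk : ∀ X : List ℕ, conf (trk X) X.length = (pm X)⁻¹
  | [] => by simp [conf, pm]
  | x :: X => by
    show conf (trk (x :: X)) X.length * Equiv.swap (trk (x :: X) X.length) _ = _
    rw [trk_cons, conf_congr (p' := trk X) _ fun u hu => trk_cons_lt (by omega), conf_trk X]
    simp [pm, mul_inv_rev]

lemma outl_posw (X : List ℕ) (s : ℕ) : outl s (posw X) = pm X s := by
  induction X with
  | nil => rfl
  | cons x X ih =>
    show Equiv.swap x (x + 1) (outl s (posw X)) = _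
    rw [ih]
    simp [pm]

lemma isTrack_trk {m : ℕ} {X : List ℕ} (hX : X ≠ []) (hL : Lt m X) (hp : PureWord m (posw X)) :
    IsTrack m X.length (trk X) where
  Lpos := List.length_pos_iff.2 hX
  lt := trk_lt hX hL
  per := trk_per X
  pure := by
    rw [conf_trk, inv_eq_one]
    ext s
    rw [← outl_posw, hp.2 s]
    rfl

end Pool.Agent.AMU
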