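import Pool.Agent.AMU0.Sort1
import Pool.Agent.AMU0.Trk

open Matrix

namespace Pool.Agent.AMU

private lemma split_label {m L : ℕ} {p : ℕ → ℕ} (hT : IsTrack m L p) (A : ℕ → Prop)
    (h : ∀ a b, a < m → b < m → A a → ¬ A b → ¬ Crs p a b) :
    ∀ t x, A (conf p t x) ↔ A x
  | 0, _ => Iff.rfl
  | t + 1, x => by
    show A (conf p t (Equiv.swap (p t) (p t + 1) x)) ↔ _
    rw [split_label hT A h t]
    have he := ev_self p t
    obtain ⟨ha, hb⟩ := ev_ltm hT he
    have h1 : A (conf p t (p t)) ↔ A (conf p t (p t + 1)) := by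
      by_contra hne
      by_cases h2 : A (conf p t (p t))
      · have h3 : ¬ A (conf p t (p t + 1)) := fun h3 => hne ⟨fun _ => h3, fun _ => h2⟩
        exact h _ _ ha hb h2 h3 ⟨t, Or.inl he⟩
      · have h3 : A (conf p t (p t + 1)) := by
          by_contra h3
          exact hne ⟨fun h4 => absurd h4 h2, fun h4 => absurd h4 h3⟩
        exact h _ _ hb ha h3 h2 ⟨t, Or.inr he⟩
    rw [split_label hT A h t, split_label hT A h t] at h1
    by_cases h2 : x = p t
    · rw [h2, Equiv.swap_apply_left]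
      exact h1.symm
    · by_cases h3 : x = p t + 1
      · rw [h3, Equiv.swap_apply_right]
        exact h1
      · rw [Equiv.swap_apply_of_ne_of_ne h2 h3]

private lemma split_not {m L : ℕ} {p : ℕ → ℕ} (hT : IsTrack m L p) (A : ℕ → Prop)
    (h : ∀ a b, a < m → b < m → A a → ¬ A b → ¬ Crs p a b) (t : ℕ) : A (p t) ↔ A (p t + 1) := by
  have h1 := split_label hT A h (t + 1) (p t)
  have h2 := split_label hT A h t (p t + 1)
  have h3 : conf p (t + 1) (p t) = conf p t (p t + 1) := by
    show conf p t (Equiv.swap (p t) (p t + 1) (p t)) = _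
    rw [Equiv.swap_apply_left]
  rw [h3] at h1
  exact h1.symm.trans h2

private lemma split_change {m : ℕ} (A : ℕ → Prop) (hA : ∃ a, a < m ∧ A a)
    (hA' : ∃ a, a < m ∧ ¬ A a) : ∃ o, o + 1 < m ∧ ¬ (A o ↔ A (o + 1)) := by
  by_contra hne
  push Not at hne
  have h1 : ∀ x, x < m → (A x ↔ A 0) := by
    intro x
    induction x with
    | zero => exact fun _ => Iff.rfl
    | succ x ih =>
      intro hx
      exact (hne x hx).symm.trans (ih (by omega))
  obtain ⟨a, ha, h2⟩ := hA
  obtain ⟨b, hb, h3⟩ := hA'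
  exact h3 ((h1 b hb).2 ((h1 a ha).1 h2))

private lemma split_mem {X : List ℕ} {x : ℕ} (hx : x ∈ X) : ∃ t, trk X t = x := by
  obtain ⟨i, hi, h⟩ := List.mem_iff_getElem.1 (List.mem_reverse.2 hx)
  refine ⟨i, ?_⟩
  unfold trk
  have h1 : i < X.length := by
    rw [List.length_reverse] at hi
    exact hi
  rw [Nat.mod_eq_of_lt h1, List.getD_eq_getElem _ _ hi, h]

private lemma split_comm {m : ℕ} {g : BraidGroup m} : ∀ X : List ℕ,
    (∀ x ∈ X, Commute g (sg m x)) → Commute (pw m X) g
  | [], _ => Commute.one_left g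
  | x :: X, h => by
    rw [pw_cons]
    exact Commute.mul_left (h x (by simp)).symm (split_comm X fun y hy => h y (by simp [hy]))

/-- If the strands fall into two parts which never cross, the braid is reducible. -/
theorem split {m : ℕ} (hm : 3 ≤ m) {X : List ℕ} (hX : X ≠ []) (hL : Lt m X)
    (hp : PureWord m (posw X)) (A : ℕ → Prop) (hA : ∃ a, a < m ∧ A a) (hA' : ∃ a, a < m ∧ ¬ A a)
    (h : ∀ a b, a < m → b < m → A a → ¬ A b → ¬ Crs (trk X) a b) :
    ∃ (o l : ℕ), 2 ≤ l ∧ l < m ∧ o + l ≤ m ∧ Commute (pw m X) (tw (sg m) o l) := by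
  have hT := isTrack_trk hX hL hp
  obtain ⟨o, ho, hne⟩ := split_change A hA hA'
  have hno : ∀ x ∈ X, x ≠ o := by
    rintro x hx rfl
    obtain ⟨t, rfl⟩ := split_mem hx
    exact hne (split_not hT A h t)
  rcases Nat.eq_zero_or_pos o with h0 | h0
  · subst h0
    refine ⟨1, m - 1, by omega, by omega, by omega, split_comm X fun x hx => ?_⟩
    have h1 := hno x hx
    have h2 := hL x hx
    exact tw_gen (sg_brRel m) (by omega) (by omega) (by omega)
  · refine ⟨0, o + 1, by omega, by omega, by omega, split_comm X fun x hx => ?_⟩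
    have h1 := hno x hx
    have h2 := hL x hx
    rcases Nat.lt_or_ge x o with h3 | h3
    · exact tw_gen (sg_brRel m) (by omega) (by omega) (by omega)
    · exact tw_far (sg_brRel m) (by omega) h2 (Or.inr (by omega))

end Pool.Agent.AMU
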