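import Pool.Agent.AMU0.Base

open Matrix

namespace Pool.Agent.AMU

variable {G : Type*} [Group G] {s : ℕ → G} {m : ℕ}

/-- the product of `n` neighbouring elements -/
private def sort1P (g : ℕ → G) (b n : ℕ) : G := ((List.range n).map fun j => g (b + j)).prod

private theorem sort1P_zero (g : ℕ → G) (b : ℕ) : sort1P g b 0 = 1 := by
  simp [sort1P]

private theorem sort1P_succ (g : ℕ → G) (b n : ℕ) :
    sort1P g b (n + 1) = sort1P g b n * g (b + n) := by
  unfold sort1P
  rw [List.range_succ, List.map_append, List.prod_append]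
  simp

private theorem sort1_comm {g : ℕ → G} {x : G} {b : ℕ} : ∀ n : ℕ,
    (∀ i, i < n → Commute (g (b + i)) x) → Commute (sort1P g b n) x
  | 0, _ => by
    rw [sort1P_zero]
    exact Commute.one_left x
  | n + 1, h => by
    rw [sort1P_succ]
    exact Commute.mul_left (sort1_comm n (fun i hi => h i (by omega))) (h n (by omega))

private theorem sort1_semi {g : ℕ → G} {b : ℕ}
    (hg1 : ∀ i j, (i + 2 ≤ j ∨ j + 2 ≤ i) → i + 1 < m → j + 1 < m → Commute (g i) (s j))
    (hg2 : ∀ i, i + 2 < m → g i * g (i + 1) * s i = s (i + 1) * (g i * g (i + 1))) :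
    ∀ n i, i + 2 ≤ n → b + n + 1 ≤ m → SemiconjBy (sort1P g b n) (s (b + i)) (s (b + i + 1)) := by
  intro n
  induction n with
  | zero => intro i hi; omega
  | succ n ih =>
    intro i hi hb
    rcases Nat.lt_or_ge (i + 2) (n + 1) with h1 | h1
    · rw [sort1P_succ]
      have h2 : SemiconjBy (sort1P g b n) (s (b + i)) (s (b + i + 1)) := ih i (by omega) (by omega)
      have h3 : Commute (g (b + n)) (s (b + i)) := hg1 _ _ (Or.inr (by omega)) (by omega) (by omega)
      exact SemiconjBy.mul_left h2 h3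
    · have hn : n = i + 1 := by omega
      subst hn
      rw [sort1P_succ, sort1P_succ, mul_assoc]
      have h2 : Commute (sort1P g b i) (s (b + i + 1)) :=
        sort1_comm i (fun j hj => hg1 _ _ (Or.inl (by omega)) (by omega) (by omega))
      have h3 : SemiconjBy (g (b + i) * g (b + (i + 1))) (s (b + i)) (s (b + i + 1)) := by
        have := hg2 (b + i) (by omega)
        rw [add_assoc b i 1] at this
        exact this
      exact SemiconjBy.mul_left h2 h3

private theorem sort1_pos (h : BrRel s m) :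
    (∀ i j, (i + 2 ≤ j ∨ j + 2 ≤ i) → i + 1 < m → j + 1 < m → Commute (s i) (s j)) ∧
    (∀ i, i + 2 < m → s i * s (i + 1) * s i = s (i + 1) * (s i * s (i + 1))) := by
  refine ⟨?_, ?_⟩
  · rintro i j (h1 | h1) hi hj
    · exact h.1 i j h1 hj
    · exact (h.1 j i h1 hi).symm
  · intro i hi
    rw [h.2 i hi, mul_assoc]

private theorem sort1_inv (h : BrRel s m) :
    (∀ i j, (i + 2 ≤ j ∨ j + 2 ≤ i) → i + 1 < m → j + 1 < m → Commute ((s i)⁻¹) (s j)) ∧
    (∀ i, i + 2 < m → (s i)⁻¹ * (s (i + 1))⁻¹ * s i = s (i + 1) * ((s i)⁻¹ * (s (i + 1))⁻¹)) := by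
  refine ⟨?_, ?_⟩
  · intro i j h1 hi hj
    exact ((sort1_pos h).1 i j h1 hi hj).inv_left
  · intro i hi
    have h1 := h.2 i hi
    have h2 : s i = s (i + 1) * s i * (s (i + 1) * ((s i)⁻¹ * (s (i + 1))⁻¹)) := by
      rw [← mul_assoc (s (i + 1) * s i), ← h1]
      group
    calc (s i)⁻¹ * (s (i + 1))⁻¹ * s i
        = (s i)⁻¹ * (s (i + 1))⁻¹ * (s (i + 1) * s i * (s (i + 1) * ((s i)⁻¹ * (s (i + 1))⁻¹))) := by
          rw [← h2]
      _ = s (i + 1) * ((s i)⁻¹ * (s (i + 1))⁻¹) := by group

private theorem sort1_semi_pow {d : G} {o n : ℕ}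
    (h : ∀ i, i + 2 ≤ n → SemiconjBy d (s (o + i)) (s (o + i + 1))) : ∀ i, i + 1 ≤ n →
    SemiconjBy (d ^ i) (s o) (s (o + i))
  | 0, _ => by
    rw [pow_zero, add_zero]
    exact SemiconjBy.one_left _
  | i + 1, hi => by
    rw [pow_succ']
    exact SemiconjBy.mul_left (h i (by omega)) (sort1_semi_pow h i (by omega))

private theorem sort1_semi_prod {d : G} {o n : ℕ}
    (h : ∀ i, i + 2 ≤ n → SemiconjBy d (s (o + i)) (s (o + i + 1))) : ∀ i, i + 1 ≤ n →
    SemiconjBy d (sort1P s o i) (sort1P s (o + 1) i)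
  | 0, _ => by
    rw [sort1P_zero, sort1P_zero]
    exact SemiconjBy.one_right _
  | i + 1, hi => by
    rw [sort1P_succ, sort1P_succ]
    have h1 := sort1_semi_prod h i (by omega)
    have h2 := h i (by omega)
    have e : o + 1 + i = o + i + 1 := by omega
    rw [e]
    exact SemiconjBy.mul_right h1 h2

private theorem sort1P_head (g : ℕ → G) (b : ℕ) : ∀ n : ℕ,
    sort1P g b (n + 1) = g b * sort1P g (b + 1) n
  | 0 => by
    rw [sort1P_succ, sort1P_zero, sort1P_zero]
    simp
  | n + 1 => by
    rw [sort1P_succ, sort1P_head g b n, sort1P_succ, mul_assoc]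
    congr 2
    congr 1
    omega

/-- the full twist commutes with the generators of its strands -/
theorem tw_gen (h : BrRel s m) {o l j : ℕ} (ho : o + l ≤ m) (hj : o ≤ j) (hj' : j + 1 < o + l) :
    Commute (tw s o l) (s j) := by
  obtain ⟨n, rfl⟩ : ∃ n, l = n + 2 := ⟨l - 2, by omega⟩
  obtain ⟨i, rfl⟩ : ∃ i, j = o + i := ⟨j - o, by omega⟩
  have htw : tw s o (n + 2) = (sort1P s o (n + 1)) ^ (n + 2) := rfl
  rw [htw]
  set d := sort1P s o (n + 1) with hd
  have hsemi : ∀ i, i + 2 ≤ n + 1 → SemiconjBy d (s (o + i)) (s (o + i + 1)) := fun i hi =>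
    sort1_semi (sort1_pos h).1 (sort1_pos h).2 (n + 1) i hi (by omega)
  have h1 := sort1_semi_prod hsemi n (by omega)
  -- the square
  have h2 : s o * (d * d) = d * d * s (o + n) := by
    have e1 : d = sort1P s o n * s (o + n) := by rw [hd, sort1P_succ]
    have e2 : d = s o * sort1P s (o + 1) n := by rw [hd, sort1P_head]
    calc s o * (d * d) = s o * (d * (sort1P s o n * s (o + n))) := by rw [← e1]
      _ = s o * ((d * sort1P s o n) * s (o + n)) := by rw [mul_assoc]
      _ = s o * ((sort1P s (o + 1) n * d) * s (o + n)) := by rw [h1.eq]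
      _ = (s o * sort1P s (o + 1) n) * d * s (o + n) := by simp only [mul_assoc]
      _ = d * d * s (o + n) := by rw [← e2]
  have h3 := sort1_semi_pow hsemi n (by omega)
  have h4 : Commute (d ^ (n + 2)) (s o) := by
    show d ^ (n + 2) * s o = s o * d ^ (n + 2)
    have e3 : d ^ (n + 2) = d * d * d ^ n := by
      rw [pow_add, pow_two]
      exact ((Commute.refl d).pow_left n).mul_right ((Commute.refl d).pow_left n)
    rw [e3, mul_assoc, h3.eq, ← mul_assoc, ← h2, mul_assoc, mul_assoc]
  have h5 := sort1_semi_pow hsemi i (by omega)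
  have h6 : s (o + i) = d ^ i * s o * (d ^ i)⁻¹ := by
    rw [h5.eq, mul_inv_cancel_right]
  rw [h6]
  have h7 : Commute (d ^ (n + 2)) (d ^ i) := Commute.pow_pow_self d _ _
  exact (h7.mul_right h4).mul_right h7.inv_right

/-- the full twist commutes with far generators -/
theorem tw_far (h : BrRel s m) {o l j : ℕ} (ho : o + l ≤ m) (hj : j + 1 < m)
    (hj' : j + 1 < o ∨ o + l ≤ j) : Commute (tw s o l) (s j) := by
  have htw : tw s o l = (sort1P s o (l - 1)) ^ l := rfl
  rw [htw]
  refine Commute.pow_left (sort1_comm _ (fun i hi => ?_)) l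
  exact (sort1_pos h).1 _ _ (by omega) (by omega) hj

private theorem sort1_col (g : ℕ → G) (e : Bool) (hg : ∀ j, g j = if e then s j else (s j)⁻¹) :
    ∀ (l b : ℕ), col s b (List.replicate l e) = sort1P g b l
  | 0, b => by
    rw [sort1P_zero]
    rfl
  | l + 1, b => by
    rw [sort1P_head, List.replicate_succ, ← sort1_col g e hg l (b + 1), hg b]
    rfl

/-- a uniform column carries the full twist along -/
theorem col_tw (h : BrRel s m) {b l : ℕ} (hb : b + l + 1 ≤ m) (e : Bool) :
    col s b (List.replicate l e) * tw s b l = tw s (b + 1) l * col s b (List.replicate l e) := by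
  have htw : ∀ b, tw s b l = (sort1P s b (l - 1)) ^ l := fun _ => rfl
  rw [htw, htw]
  set c := col s b (List.replicate l e) with hc
  have hsemi : ∀ i, i + 2 ≤ l → SemiconjBy c (s (b + i)) (s (b + i + 1)) := by
    intro i hi
    cases e with
    | true =>
      rw [hc, sort1_col s true (fun j => by simp)]
      exact sort1_semi (sort1_pos h).1 (sort1_pos h).2 l i hi (by omega)
    | false =>
      rw [hc, sort1_col (fun j => (s j)⁻¹) false (fun j => by simp)]
      exact sort1_semi (sort1_inv h).1 (sort1_inv h).2 l i hi (by omega)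
  rcases Nat.eq_zero_or_pos l with hl | hl
  · subst hl
    simp
  · have h1 : SemiconjBy c (sort1P s b (l - 1)) (sort1P s (b + 1) (l - 1)) :=
      sort1_semi_prod hsemi (l - 1) (by omega)
    exact h1.pow_right l

end Pool.Agent.AMU
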