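import Pool.Agent.AMU0.StrS
import Pool.Agent.AMU0.Sort1

open Matrix

namespace Pool.Agent.AMU

private lemma stra_tw {G : Type*} [Group G] (s : ℕ → G) (o : ℕ) : tw s o 2 = s o * s o := by
  unfold tw
  simp [sq]

/-- straightening of two strands which never cross -/
theorem str_alpha {m L t0 i j : ℕ} {p : ℕ → ℕ} (h : IsTrack m L p) (hij : i < j) (hj : j < m)
    (hc : ¬ Crs p i j) {eps : ℕ → ℕ → ℕ → Bool}
    (hs : ∀ t, t0 ≤ t → t < t0 + L → StrH m p {i} {j} eps t)
    (hlv : ∀ t x, t0 ≤ t → t < t0 + L → ev p t x j → x ≠ i → eps t x i = false)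
    (hen : ∀ t y, t0 ≤ t → t < t0 + L → ev p t j y → eps (t + 1) y i = true)
    (hper : ∀ n r, eps (t0 + L) n r = eps t0 n r) (h0 : ∃ N, t0 = N * L) :
    ∃ (g : BraidGroup m) (o : ℕ), o + 2 ≤ m ∧
      Commute (seg (sg m) p 0 L) (g * tw (sg m) o 2 * g⁻¹) := by
  have hB := sg_brRel m
  have hl : ∀ t, ∀ r ∈ ({i} : Finset ℕ), ∀ w ∈ ({j} : Finset ℕ), ps p t r < ps p t w := by
    intro t r hr w hw
    rw [Finset.mem_singleton] at hr hw
    rw [hr, hw]
    exact never_lt hc hij t
  have hW : ∀ w ∈ ({j} : Finset ℕ), w < m := by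
    intro w hw
    rw [Finset.mem_singleton] at hw
    rw [hw]
    exact hj
  have hWn : ({j} : Finset ℕ).Nonempty := ⟨j, Finset.mem_singleton_self j⟩
  have hcard : ∀ t, (gam (sg m) p {i} {j} eps t).1 + 1 < m := fun t => by
    obtain ⟨h1, h2⟩ := gam_card (s := sg m) (eps := eps) h hW hWn (hl t)
    rw [Finset.card_singleton] at h1
    omega
  have hbr : ∀ o, o + 2 < m → sg m o * sg m (o + 1) * sg m o =
      sg m (o + 1) * sg m o * sg m (o + 1) := fun o ho => hB.2 o ho
  have key : ∀ n, n ≤ L → SemiconjBy ((gam (sg m) p {i} {j} eps (t0 + n)).2.2 *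
      seg (sg m) p t0 n * ((gam (sg m) p {i} {j} eps t0).2.2)⁻¹)
      (tw (sg m) (gam (sg m) p {i} {j} eps t0).1 2)
      (tw (sg m) (gam (sg m) p {i} {j} eps (t0 + n)).1 2) := by
    intro n
    induction n with
    | zero =>
      intro _
      rw [Nat.add_zero]
      show SemiconjBy ((gam (sg m) p {i} {j} eps t0).2.2 * 1 *
        ((gam (sg m) p {i} {j} eps t0).2.2)⁻¹) _ _
      rw [mul_one, mul_inv_cancel]
      exact SemiconjBy.one_left _
    | succ n ih =>
      intro hn
      have ih' := ih (by omega)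
      have hst := gam_step (s := sg m) hB h hW hWn hl (hs (t0 + n) (by omega) (by omega))
      rw [Finset.card_singleton] at hst
      have hc1 := hcard (t0 + n)
      have hc2 := hcard (t0 + n + 1)
      rw [show t0 + (n + 1) = t0 + n + 1 by ring]
      have hseg : seg (sg m) p t0 (n + 1) = sg m (p (t0 + n)) * seg (sg m) p t0 n := rfl
      rw [hseg]
      -- it is enough to consider the crossing
      suffices hC : ∀ C : BraidGroup m,
          (gam (sg m) p {i} {j} eps (t0 + n + 1)).2.2 * sg m (p (t0 + n)) =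
            C * (gam (sg m) p {i} {j} eps (t0 + n)).2.2 →
          SemiconjBy C (tw (sg m) (gam (sg m) p {i} {j} eps (t0 + n)).1 2)
            (tw (sg m) (gam (sg m) p {i} {j} eps (t0 + n + 1)).1 2) by
        have h1 := hC ((gam (sg m) p {i} {j} eps (t0 + n + 1)).2.2 * sg m (p (t0 + n)) *
          ((gam (sg m) p {i} {j} eps (t0 + n)).2.2)⁻¹) (by rw [inv_mul_cancel_right])
        have h2 := h1.mul_left ih'
        have h3 : (gam (sg m) p {i} {j} eps (t0 + n + 1)).2.2 * sg m (p (t0 + n)) *
            ((gam (sg m) p {i} {j} eps (t0 + n)).2.2)⁻¹ *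
            ((gam (sg m) p {i} {j} eps (t0 + n)).2.2 *
            seg (sg m) p t0 n * ((gam (sg m) p {i} {j} eps t0).2.2)⁻¹) =
            (gam (sg m) p {i} {j} eps (t0 + n + 1)).2.2 * (sg m (p (t0 + n)) *
            seg (sg m) p t0 n) * ((gam (sg m) p {i} {j} eps t0).2.2)⁻¹ := by group
        rw [h3] at h2
        exact h2
      intro C hCeq
      rcases hst with ⟨g, h1, h2, h3⟩ | ⟨a, haW, b, hbR, hbW, hev, hin, h1, l, hl1, hl2, h2⟩ |
        ⟨a, haR, haW, b, hbW, hev, hin, h1, l, hl1, hl2, h2⟩
      · have hCg : C = g := by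
          rw [hCeq] at h2
          exact mul_right_cancel h2
        rw [hCg, h1]
        rcases h3 with rfl | ⟨j', rfl, hj', h4⟩
        · exact SemiconjBy.one_left _
        · show Commute _ _
          refine Commute.symm ?_
          rcases h4 with h4 | ⟨h4, h5⟩ | h4 | ⟨h4, a, ha, b, hb, hab⟩
          · exact tw_far hB (by omega) hj' (Or.inl h4)
          · omega
          · exact tw_far hB (by omega) hj' (Or.inr (by omega))
          · rw [Finset.mem_singleton] at ha hb
            exact absurd (ha.trans hb.symm) (ev_ne hab)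
      · rw [Finset.mem_singleton] at haW
        obtain ⟨r, rfl⟩ := List.length_eq_one_iff.1 hl1
        have hr := hl2 r (by simp)
        rw [Finset.mem_singleton] at hr
        rw [haW] at hev
        have he := hen (t0 + n) b (by omega) (by omega) hev
        rw [hr] at h2
        simp only [List.map_cons, List.map_nil, he, col, if_true, mul_one] at h2
        have hCg : C = sg m (gam (sg m) p {i} {j} eps (t0 + n)).1 *
            sg m ((gam (sg m) p {i} {j} eps (t0 + n)).1 + 1) := by
          rw [hCeq, ← mul_assoc] at h2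
          exact mul_right_cancel h2
        rw [hCg, h1, stra_tw, stra_tw]
        rw [h1] at hc2
        have h3 := hbr (gam (sg m) p {i} {j} eps (t0 + n)).1 (by omega)
        generalize (gam (sg m) p {i} {j} eps (t0 + n)).1 = o at h3 ⊢
        show sg m o * sg m (o + 1) * (sg m o * sg m o) =
          sg m (o + 1) * sg m (o + 1) * (sg m o * sg m (o + 1))
        calc sg m o * sg m (o + 1) * (sg m o * sg m o)
            = (sg m o * sg m (o + 1) * sg m o) * sg m o := by group
          _ = (sg m (o + 1) * sg m o * sg m (o + 1)) * sg m o := by rw [h3]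
          _ = sg m (o + 1) * (sg m o * sg m (o + 1) * sg m o) := by group
          _ = sg m (o + 1) * (sg m (o + 1) * sg m o * sg m (o + 1)) := by rw [h3]
          _ = sg m (o + 1) * sg m (o + 1) * (sg m o * sg m (o + 1)) := by group
      · rw [Finset.mem_singleton] at haR hbW
        obtain ⟨r, rfl⟩ := List.length_eq_one_iff.1 hl1
        have hr := hl2 r (by simp)
        rw [Finset.mem_singleton] at hr
        rw [hbW] at hev
        have he := hlv (t0 + n) a (by omega) (by omega) hev haR
        rw [hr] at h2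
        simp only [List.map_cons, List.map_nil, he, col, mul_one] at h2
        have hCg : C = sg m ((gam (sg m) p {i} {j} eps (t0 + n + 1)).1 + 1) *
            sg m (gam (sg m) p {i} {j} eps (t0 + n + 1)).1 := by
          rw [hCeq, ← mul_assoc] at h2
          have h3 := mul_right_cancel h2
          rw [h3]
          simp
        rw [hCg, h1, stra_tw, stra_tw]
        rw [h1] at hc1
        have h3 := hbr (gam (sg m) p {i} {j} eps (t0 + n + 1)).1 (by omega)
        generalize (gam (sg m) p {i} {j} eps (t0 + n + 1)).1 = o at h3 ⊢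
        show sg m (o + 1) * sg m o * (sg m (o + 1) * sg m (o + 1)) =
          sg m o * sg m o * (sg m (o + 1) * sg m o)
        calc sg m (o + 1) * sg m o * (sg m (o + 1) * sg m (o + 1))
            = (sg m (o + 1) * sg m o * sg m (o + 1)) * sg m (o + 1) := by group
          _ = (sg m o * sg m (o + 1) * sg m o) * sg m (o + 1) := by rw [h3]
          _ = sg m o * (sg m (o + 1) * sg m o * sg m (o + 1)) := by group
          _ = sg m o * (sg m o * sg m (o + 1) * sg m o) := by rw [h3]
          _ = sg m o * sg m o * (sg m (o + 1) * sg m o) := by group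
  -- one period
  have hper' : gam (sg m) p {i} {j} eps (t0 + L) = gam (sg m) p {i} {j} eps t0 := gam_per h hper
  have hfin := key L le_rfl
  rw [hper'] at hfin
  have hseg : seg (sg m) p t0 L = seg (sg m) p 0 L := by
    obtain ⟨N, rfl⟩ := h0
    clear hfin hper' key hs hper hlv hen
    induction N with
    | zero => rw [Nat.zero_mul]
    | succ N ih => rw [Nat.succ_mul, seg_shift (sg m) h.per, ih]
  rw [hseg] at hfin
  refine ⟨((gam (sg m) p {i} {j} eps t0).2.2)⁻¹, (gam (sg m) p {i} {j} eps t0).1, by have := hcard t0; omega, ?_⟩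
  rw [inv_inv]
  have h1 : (gam (sg m) p {i} {j} eps t0).2.2 * seg (sg m) p 0 L *
      ((gam (sg m) p {i} {j} eps t0).2.2)⁻¹ * tw (sg m) (gam (sg m) p {i} {j} eps t0).1 2 =
      tw (sg m) (gam (sg m) p {i} {j} eps t0).1 2 * ((gam (sg m) p {i} {j} eps t0).2.2 *
      seg (sg m) p 0 L * ((gam (sg m) p {i} {j} eps t0).2.2)⁻¹) := hfin
  generalize (gam (sg m) p {i} {j} eps t0).2.2 = Γ at h1 ⊢
  generalize tw (sg m) (gam (sg m) p {i} {j} eps t0).1 2 = T at h1 ⊢
  generalize seg (sg m) p 0 L = S at h1 ⊢
  show S * (Γ⁻¹ * T * Γ) = Γ⁻¹ * T * Γ * S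
  have h2 : S * (Γ⁻¹ * T * Γ) = Γ⁻¹ * (Γ * S * Γ⁻¹ * T) * Γ := by group
  rw [h2, h1]
  group

end Pool.Agent.AMU
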