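import Pool.Agent.AMU0.StrS
import Pool.Agent.AMU0.Sort1

open Matrix

namespace Pool.Agent.AMU

/-- straightening of a block of strands -/
theorem str_beta {m L t0 : ℕ} {p : ℕ → ℕ} (h : IsTrack m L p) {R W : Finset ℕ}
    (hR : ∀ r ∈ R, r < m) (hRn : R.Nonempty) (hW : ∀ w ∈ W, w < m) (hWn : W.Nonempty)
    (hRW : ∀ r ∈ R, ∀ w ∈ W, ¬ Crs p r w ∧ r < w) {eps : ℕ → ℕ → ℕ → Bool}
    (hs : ∀ t, t0 ≤ t → t < t0 + L → StrH m p R W eps t)
    (hper : ∀ n r, eps (t0 + L) n r = eps t0 n r) (h0 : ∃ N, t0 = N * L) :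
    ∃ (g : BraidGroup m) (o : ℕ), o + R.card ≤ m ∧
      Commute (seg (sg m) p 0 L) (g * tw (sg m) o R.card * g⁻¹) := by
  have hB := sg_brRel m
  have hl : ∀ t, ∀ r ∈ R, ∀ w ∈ W, ps p t r < ps p t w := fun t r hr w hw =>
    never_lt (hRW r hr w hw).1 (hRW r hr w hw).2 t
  obtain ⟨r0, hr0⟩ := hRn
  have hcard : ∀ t, (gam (sg m) p R W eps t).1 + R.card < m := fun t => by
    obtain ⟨h1, h2⟩ := gam_card (s := sg m) (eps := eps) h hW hWn (hl t)
    omega
  have key : ∀ n, n ≤ L → SemiconjBy ((gam (sg m) p R W eps (t0 + n)).2.2 *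
      seg (sg m) p t0 n * ((gam (sg m) p R W eps t0).2.2)⁻¹)
      (tw (sg m) (gam (sg m) p R W eps t0).1 R.card)
      (tw (sg m) (gam (sg m) p R W eps (t0 + n)).1 R.card) := by
    intro n
    induction n with
    | zero =>
      intro _
      rw [Nat.add_zero]
      show SemiconjBy ((gam (sg m) p R W eps t0).2.2 * 1 * ((gam (sg m) p R W eps t0).2.2)⁻¹) _ _
      rw [mul_one, mul_inv_cancel]
      exact SemiconjBy.one_left _
    | succ n ih =>
      intro hn
      have ih' := ih (by omega)
      have hst := gam_step (s := sg m) hB h hW hWn hl (hs (t0 + n) (by omega) (by omega))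
      have hst1 := hs (t0 + n) (by omega) (by omega)
      have hc1 := hcard (t0 + n)
      have hc2 := hcard (t0 + n + 1)
      rw [show t0 + (n + 1) = t0 + n + 1 by ring]
      have hseg : seg (sg m) p t0 (n + 1) = sg m (p (t0 + n)) * seg (sg m) p t0 n := rfl
      rw [hseg]
      -- it is enough to consider the crossing
      suffices hC : ∀ C : BraidGroup m,
          (gam (sg m) p R W eps (t0 + n + 1)).2.2 * sg m (p (t0 + n)) =
            C * (gam (sg m) p R W eps (t0 + n)).2.2 →
          SemiconjBy C (tw (sg m) (gam (sg m) p R W eps (t0 + n)).1 R.card)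
            (tw (sg m) (gam (sg m) p R W eps (t0 + n + 1)).1 R.card) by
        have h1 := hC ((gam (sg m) p R W eps (t0 + n + 1)).2.2 * sg m (p (t0 + n)) *
          ((gam (sg m) p R W eps (t0 + n)).2.2)⁻¹) (by rw [inv_mul_cancel_right])
        have h2 := h1.mul_left ih'
        have h3 : (gam (sg m) p R W eps (t0 + n + 1)).2.2 * sg m (p (t0 + n)) *
            ((gam (sg m) p R W eps (t0 + n)).2.2)⁻¹ * ((gam (sg m) p R W eps (t0 + n)).2.2 *
            seg (sg m) p t0 n * ((gam (sg m) p R W eps t0).2.2)⁻¹) =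
            (gam (sg m) p R W eps (t0 + n + 1)).2.2 * (sg m (p (t0 + n)) *
            seg (sg m) p t0 n) * ((gam (sg m) p R W eps t0).2.2)⁻¹ := by group
        rw [h3] at h2
        exact h2
      intro C hCeq
      rcases hst with ⟨g, h1, h2, h3⟩ | ⟨a, haW, b, hbR, hbW, hev, hin, h1, l, hl1, hl2, h2⟩ |
        ⟨a, haR, haW, b, hbW, hev, hin, h1, l, hl1, hl2, h2⟩
      · have hCg : C = g := by
          rw [hCeq] at h2
          exact mul_right_cancel h2
        rw [hCg, h1]
        rcases h3 with rfl | ⟨j, rfl, hj, h4⟩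
        · exact SemiconjBy.one_left _
        · show Commute _ _
          refine Commute.symm ?_
          rcases h4 with h4 | ⟨h4, h5⟩ | h4 | ⟨h4, _⟩
          · exact tw_far hB hc1.le hj (Or.inl h4)
          · exact tw_gen hB hc1.le h4 h5
          · exact tw_far hB hc1.le hj (Or.inr (by omega))
          · exact tw_far hB hc1.le hj (Or.inr (by omega))
      · have hrep : l.map (eps (t0 + n + 1) b) =
            List.replicate R.card (eps (t0 + n + 1) b r0) := by
          rw [← hl1]
          rw [List.eq_replicate_iff]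
          refine ⟨by rw [List.length_map], ?_⟩
          intro e he
          obtain ⟨r, hr, rfl⟩ := List.mem_map.1 he
          exact hst1.enter a b r r0 hev hbR haW (hl2 r hr) hr0 hin
        rw [hrep] at h2
        have hCg : C = col (sg m) (gam (sg m) p R W eps (t0 + n)).1
            (List.replicate R.card (eps (t0 + n + 1) b r0)) *
            sg m ((gam (sg m) p R W eps (t0 + n)).1 + R.card) := by
          rw [hCeq, ← mul_assoc] at h2
          exact mul_right_cancel h2
        rw [hCg, h1]
        rw [h1] at hc2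
        have h5 : SemiconjBy (sg m ((gam (sg m) p R W eps (t0 + n)).1 + R.card))
            (tw (sg m) (gam (sg m) p R W eps (t0 + n)).1 R.card)
            (tw (sg m) (gam (sg m) p R W eps (t0 + n)).1 R.card) :=
          (tw_far hB hc1.le (by omega) (Or.inr le_rfl)).symm
        have h6 : SemiconjBy (col (sg m) (gam (sg m) p R W eps (t0 + n)).1
            (List.replicate R.card (eps (t0 + n + 1) b r0)))
            (tw (sg m) (gam (sg m) p R W eps (t0 + n)).1 R.card)
            (tw (sg m) ((gam (sg m) p R W eps (t0 + n)).1 + 1) R.card) :=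
          col_tw hB (by omega) _
        exact h6.mul_left h5
      · have hrep : l.map (eps (t0 + n) a) = List.replicate R.card (eps (t0 + n) a r0) := by
          rw [← hl1]
          rw [List.eq_replicate_iff]
          refine ⟨by rw [List.length_map], ?_⟩
          intro e he
          obtain ⟨r, hr, rfl⟩ := List.mem_map.1 he
          exact hst1.leave a b r r0 hev haR hbW (hl2 r hr) hr0 hin
        rw [hrep] at h2
        have hCg : C = sg m ((gam (sg m) p R W eps (t0 + n + 1)).1 + R.card) *
            (col (sg m) (gam (sg m) p R W eps (t0 + n + 1)).1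
            (List.replicate R.card (eps (t0 + n) a r0)))⁻¹ := by
          rw [hCeq, ← mul_assoc] at h2
          exact mul_right_cancel h2
        rw [hCg, h1]
        rw [h1] at hc1
        have h5 : SemiconjBy (sg m ((gam (sg m) p R W eps (t0 + n + 1)).1 + R.card))
            (tw (sg m) (gam (sg m) p R W eps (t0 + n + 1)).1 R.card)
            (tw (sg m) (gam (sg m) p R W eps (t0 + n + 1)).1 R.card) :=
          (tw_far hB hc2.le (by omega) (Or.inr le_rfl)).symm
        have h6 : SemiconjBy (col (sg m) (gam (sg m) p R W eps (t0 + n + 1)).1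
            (List.replicate R.card (eps (t0 + n) a r0)))
            (tw (sg m) (gam (sg m) p R W eps (t0 + n + 1)).1 R.card)
            (tw (sg m) ((gam (sg m) p R W eps (t0 + n + 1)).1 + 1) R.card) :=
          col_tw hB (by omega) _
        exact h5.mul_left h6.inv_symm_left
  -- one period
  have hper' : gam (sg m) p R W eps (t0 + L) = gam (sg m) p R W eps t0 := gam_per h hper
  have hfin := key L le_rfl
  rw [hper'] at hfin
  have hseg : seg (sg m) p t0 L = seg (sg m) p 0 L := by
    obtain ⟨N, rfl⟩ := h0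
    clear hfin hper' key hs hper
    induction N with
    | zero => rw [Nat.zero_mul]
    | succ N ih => rw [Nat.succ_mul, seg_shift (sg m) h.per, ih]
  rw [hseg] at hfin
  refine ⟨((gam (sg m) p R W eps t0).2.2)⁻¹, (gam (sg m) p R W eps t0).1, (hcard t0).le, ?_⟩
  rw [inv_inv]
  have h1 : (gam (sg m) p R W eps t0).2.2 * seg (sg m) p 0 L *
      ((gam (sg m) p R W eps t0).2.2)⁻¹ * tw (sg m) (gam (sg m) p R W eps t0).1 R.card =
      tw (sg m) (gam (sg m) p R W eps t0).1 R.card * ((gam (sg m) p R W eps t0).2.2 *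
      seg (sg m) p 0 L * ((gam (sg m) p R W eps t0).2.2)⁻¹) := hfin
  generalize (gam (sg m) p R W eps t0).2.2 = Γ at h1 ⊢
  generalize tw (sg m) (gam (sg m) p R W eps t0).1 R.card = T at h1 ⊢
  generalize seg (sg m) p 0 L = S at h1 ⊢
  show S * (Γ⁻¹ * T * Γ) = Γ⁻¹ * T * Γ * S
  have h2 : S * (Γ⁻¹ * T * Γ) = Γ⁻¹ * (Γ * S * Γ⁻¹ * T) * Γ := by group
  rw [h2, h1]
  group

end Pool.Agent.AMU
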