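import Pool.Agent.AMU0.Trk

open Matrix

namespace Pool.Agent.AMU

variable {m L : ℕ} {p : ℕ → ℕ}

private lemma flip_conf (hp : ∀ t, p t + 1 < m) : ∀ t x, x < m →
    conf (flp m p) t x = m - 1 - conf p t (m - 1 - x)
  | 0, x, hx => by
    show x = m - 1 - (m - 1 - x)
    omega
  | t + 1, x, hx => by
    have h1 := hp t
    show conf (flp m p) t (Equiv.swap (flp m p t) (flp m p t + 1) x) =
      m - 1 - conf p t (Equiv.swap (p t) (p t + 1) (m - 1 - x))
    have h2 : flp m p t = m - 2 - p t := rfl
    by_cases h3 : x = flp m p t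
    · have h4 : m - 1 - x = p t + 1 := by omega
      rw [← h3, Equiv.swap_apply_left, h4, Equiv.swap_apply_right,
        flip_conf hp t (x + 1) (by omega)]
      congr 2
      omega
    · by_cases h4 : x = flp m p t + 1
      · have h5 : m - 1 - x = p t := by omega
        rw [← h4, Equiv.swap_apply_right, h5, Equiv.swap_apply_left,
          flip_conf hp t _ (by omega)]
        congr 2
        omega
      · rw [Equiv.swap_apply_of_ne_of_ne h3 h4,
          Equiv.swap_apply_of_ne_of_ne (by omega) (by omega)]
        exact flip_conf hp t x hx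

private lemma flip_conf_ge {q : ℕ → ℕ} (hq : ∀ t, q t + 1 < m) : ∀ t x, m ≤ x → conf q t x = x
  | 0, _, _ => rfl
  | t + 1, x, hx => by
    have h1 := hq t
    show conf q t (Equiv.swap (q t) (q t + 1) x) = x
    rw [Equiv.swap_apply_of_ne_of_ne (by omega) (by omega)]
    exact flip_conf_ge hq t x hx

theorem flp_track (h : IsTrack m L p) : IsTrack m L (flp m p) where
  Lpos := h.Lpos
  lt := fun t => by
    have := h.lt t
    show m - 2 - p t + 1 < m
    omega
  per := fun t => by
    show m - 2 - p (t + L) = m - 2 - p t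
    rw [h.per t]
  pure := by
    have h1 : ∀ t, flp m p t + 1 < m := fun t => by
      have := h.lt t
      show m - 2 - p t + 1 < m
      omega
    ext x
    rcases Nat.lt_or_ge x m with hx | hx
    · rw [flip_conf h.lt L x hx, h.pure]
      show m - 1 - (m - 1 - x) = x
      omega
    · rw [flip_conf_ge h1 L x hx]
      rfl

theorem ev_flp (h : IsTrack m L p) {t a b : ℕ} (ha : a < m) (hb : b < m) :
    ev (flp m p) t a b ↔ ev p t (m - 1 - b) (m - 1 - a) := by
  have h1 := h.lt t
  have h2 : flp m p t = m - 2 - p t := rfl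
  have e1 : conf (flp m p) t (flp m p t) = m - 1 - conf p t (p t + 1) := by
    rw [flip_conf h.lt t _ (by omega)]
    congr 2
    omega
  have e2 : conf (flp m p) t (flp m p t + 1) = m - 1 - conf p t (p t) := by
    rw [flip_conf h.lt t _ (by omega)]
    congr 2
    omega
  have l1 : conf p t (p t + 1) < m := (conf_lt h t _).2 (by omega)
  have l2 : conf p t (p t) < m := (conf_lt h t _).2 (by omega)
  unfold ev
  rw [e1, e2]
  constructor
  · rintro ⟨h3, h4⟩
    constructor <;> omega
  · rintro ⟨h3, h4⟩
    constructor <;> omega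

theorem crs_flp (h : IsTrack m L p) {a b : ℕ} (ha : a < m) (hb : b < m) :
    Crs (flp m p) a b ↔ Crs p (m - 1 - a) (m - 1 - b) := by
  unfold Crs
  refine exists_congr fun t => ?_
  rw [ev_flp h ha hb, ev_flp h hb ha, or_comm]

theorem flp_flp (h : IsTrack m L p) : flp m (flp m p) = p := by
  funext t
  have := h.lt t
  show m - 2 - (m - 2 - p t) = p t
  omega

theorem noLL_of_flp (h : IsTrack m L p) (hf : NoRR m (flp m p)) : NoLL m p := by
  intro i j k s t hij hj hk hn hc hst h1 h2 h3
  have ei : m - 1 - (m - 1 - i) = i := by omega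
  have ej : m - 1 - (m - 1 - j) = j := by omega
  have ek : m - 1 - (m - 1 - k) = k := by omega
  refine hf (m - 1 - j) (m - 1 - i) (m - 1 - k) s t (by omega) (by omega) (by omega) ?_ ?_ hst
    ?_ ?_ fun u hu hu' => ?_
  · rw [crs_flp h (by omega) (by omega), ei, ej]
    exact fun h => hn (crs_symm h)
  · rw [crs_flp h (by omega) (by omega), ek, ej]
    exact hc
  · rw [ev_flp h (by omega) (by omega), ek, ei]
    exact h1
  · rw [ev_flp h (by omega) (by omega), ek, ei]
    exact h2
  · rw [ev_flp h (by omega) (by omega), ek, ej]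
    exact h3 u hu hu'

theorem noCL_of_flp (h : IsTrack m L p) (hf : NoC m (flp m p)) : NoCL m p := by
  intro w r s k t₁ t₂ t₃ hrw hsw hw hk nwr nws hkw h12 h23 h1 h2 h3 h4
  have ew : m - 1 - (m - 1 - w) = w := by omega
  have er : m - 1 - (m - 1 - r) = r := by omega
  have es : m - 1 - (m - 1 - s) = s := by omega
  have ek : m - 1 - (m - 1 - k) = k := by omega
  refine hf (m - 1 - w) (m - 1 - r) (m - 1 - s) (m - 1 - k) t₁ t₂ t₃ (by omega) (by omega)
    (by omega) (by omega) (by omega) ?_ ?_ ?_ h12 h23 ?_ ?_ ?_ fun u hu hu' => ?_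
  · rw [crs_flp h (by omega) (by omega), ew, er]
    exact nwr
  · rw [crs_flp h (by omega) (by omega), ew, es]
    exact nws
  · rw [crs_flp h (by omega) (by omega), ek, ew]
    exact hkw
  · rw [ev_flp h (by omega) (by omega), ek, er]
    exact h1
  · rw [ev_flp h (by omega) (by omega), er, es]
    exact h2
  · rw [ev_flp h (by omega) (by omega), es, ek]
    exact h3
  · rw [ev_flp h (by omega) (by omega), ev_flp h (by omega) (by omega), ek, ew]
    exact ⟨(h4 u hu hu').2, (h4 u hu hu').1⟩

theorem trk_flip {X : List ℕ} (hX : X ≠ []) : trk (X.map fun x => m - 2 - x) = flp m (trk X) := by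
  funext t
  have h0 : 0 < X.length := List.length_pos_iff.2 hX
  have h1 : t % X.length < X.length := Nat.mod_lt _ h0
  show (X.map fun x => m - 2 - x).reverse.getD (t % (X.map fun x => m - 2 - x).length) 0 =
    m - 2 - X.reverse.getD (t % X.length) 0
  rw [List.length_map, ← List.map_reverse, List.getD_eq_getElem _ _ (by simpa using h1),
    List.getD_eq_getElem _ _ (by simpa using h1), List.getElem_map]

end Pool.Agent.AMU
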