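import Pool.Agent.AMU0.Seins
import Pool.Agent.AMU0.Flip

open Matrix

namespace Pool.Agent.AMU

private lemma struct_mid {p : ℕ → ℕ} {a z b : ℕ} (h1 : a < z) (h2 : z < b) (h3 : ¬ Crs p a z)
    (h4 : ¬ Crs p z b) : ¬ Crs p a b := by
  rintro ⟨t, h | h⟩
  · have h5 := never_lt h3 h1 t
    have h6 := never_lt h4 h2 t
    have h7 := ev_ps.1 h
    omega
  · have h5 := never_lt h3 h1 t
    have h6 := never_lt h4 h2 t
    have h7 := ev_ps.1 h
    omega

/-- the structure of the set of pairs which never cross -/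
theorem struct {m L : ℕ} {p : ℕ → ℕ} (h : IsTrack m L p) (hP : NoP4 m p)
    (hn : ∃ i j, i < j ∧ j < m ∧ ¬ Crs p i j) :
    (∃ A : ℕ → Prop, (∃ a, a < m ∧ A a) ∧ (∃ a, a < m ∧ ¬ A a) ∧
      ∀ a b, a < m → b < m → A a → ¬ A b → ¬ Crs p a b) ∨
    (∃ R W : Finset ℕ, RW m p R W ∧ 2 ≤ R.card) ∨
    (∃ R W : Finset ℕ, RW m (flp m p) R W ∧ 2 ≤ R.card) ∨
    (∃ i j, RW m p {i} {j}) := by
  classical
  right
  obtain ⟨i, j, hij, hj, hnc⟩ := hn
  -- the component of `i`
  obtain ⟨S, hS⟩ : ∃ S : Finset ℕ, ∀ x, x ∈ S ↔ x < m ∧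
      Relation.ReflTransGen (fun a b => a < m ∧ b < m ∧ a ≠ b ∧ ¬ Crs p a b) i x :=
    ⟨(Finset.range m).filter fun x =>
      Relation.ReflTransGen (fun a b => a < m ∧ b < m ∧ a ≠ b ∧ ¬ Crs p a b) i x, fun x => by
      rw [Finset.mem_filter, Finset.mem_range]⟩
  have hSm : ∀ x ∈ S, x < m := fun x hx => ((hS x).1 hx).1
  have hiS : i ∈ S := (hS i).2 ⟨by omega, Relation.ReflTransGen.refl⟩
  have hjS : j ∈ S := (hS j).2 ⟨hj, Relation.ReflTransGen.single ⟨by omega, hj, by omega, hnc⟩⟩
  have hcl : ∀ x ∈ S, ∀ y, y < m → y ∉ S → Crs p x y := by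
    intro x hx y hy hyS
    by_contra hc
    refine hyS ((hS y).2 ⟨hy, ((hS x).1 hx).2.tail ⟨hSm x hx, hy, ?_, hc⟩⟩)
    rintro rfl
    exact hyS hx
  have hcard : 2 ≤ S.card := Finset.one_lt_card.2 ⟨i, hiS, j, hjS, by omega⟩
  have hsein := seinsche S (fun a b => a ≠ b ∧ ¬ Crs p a b)
    (fun a b hab => ⟨hab.1.symm, fun hc => hab.2 (crs_symm hc)⟩) hcard (by
    intro a ha b hb c hc d hd hab hbc hcd hac had hbd e1 e2 e3 e4 e5 e6
    refine hP a b c d (hSm a ha) (hSm b hb) (hSm c hc) (hSm d hd) hab hbc hcd hac had hbd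
      e1.2 e2.2 e3.2 ?_ ?_ ?_
    · by_contra hx
      exact e4 ⟨hac, hx⟩
    · by_contra hx
      exact e5 ⟨had, hx⟩
    · by_contra hx
      exact e6 ⟨hbd, hx⟩)
  rcases hsein with ⟨A, hAS, hAn, hAne, hA⟩ | ⟨A, hAS, hAn, hAne, hA⟩
  · -- `S` is connected
    exfalso
    have key : ∀ x, Relation.ReflTransGen
        (fun a b => a < m ∧ b < m ∧ a ≠ b ∧ ¬ Crs p a b) i x → (x ∈ A ↔ i ∈ A) := by
      intro x hx
      induction hx with
      | refl => exact Iff.rfl
      | tail hb hbc ih =>
        rename_i b c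
        rw [← ih]
        have hbS : b ∈ S := (hS b).2 ⟨hbc.1, hb⟩
        have hcS : c ∈ S := (hS c).2 ⟨hbc.2.1, hb.tail hbc⟩
        constructor
        · intro hc
          by_contra hbA
          exact hA c hc b hbS hbA ⟨hbc.2.2.1.symm, fun hx => hbc.2.2.2 (crs_symm hx)⟩
        · intro hbA
          by_contra hc
          exact hA b hbA c hcS hc ⟨hbc.2.2.1, hbc.2.2.2⟩
    obtain ⟨a, ha⟩ := hAn
    have hiA : i ∈ A := (key a ((hS a).1 (hAS ha)).2).1 ha
    refine hAne (Finset.Subset.antisymm hAS fun x hx => ?_)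
    exact (key x ((hS x).1 hx).2).2 hiA
  · -- co-components
    have hco : ∀ x ∈ S, ∃ C : Finset ℕ, C ⊆ S ∧ x ∈ C ∧
        (∀ y ∈ C, ∀ z ∈ S, z ∉ C → ¬ Crs p y z) ∧ (∀ y ∈ S, Crs p x y → y ∈ C) ∧
        (∃ z ∈ S, z ∉ C) ∧ ∀ z ∈ S, z ∉ C → ∀ y ∈ C, (y < z ↔ x < z) := by
      intro x hx
      obtain ⟨C, hC⟩ : ∃ C : Finset ℕ, ∀ y, y ∈ C ↔ y ∈ S ∧
          Relation.ReflTransGen (fun a b => a ∈ S ∧ b ∈ S ∧ Crs p a b) x y :=
        ⟨S.filter fun y =>
          Relation.ReflTransGen (fun a b => a ∈ S ∧ b ∈ S ∧ Crs p a b) x y, fun y => by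
          rw [Finset.mem_filter]⟩
      have hc2 : ∀ y ∈ C, ∀ z ∈ S, z ∉ C → ¬ Crs p y z := by
        intro y hy z hz hzC hc
        exact hzC ((hC z).2 ⟨hz, ((hC y).1 hy).2.tail ⟨((hC y).1 hy).1, hz, hc⟩⟩)
      refine ⟨C, fun y hy => ((hC y).1 hy).1, (hC x).2 ⟨hx, Relation.ReflTransGen.refl⟩, hc2,
        fun y hy hc => (hC y).2 ⟨hy, Relation.ReflTransGen.single ⟨hx, hy, hc⟩⟩, ?_, ?_⟩
      · have key : ∀ y, Relation.ReflTransGen (fun a b => a ∈ S ∧ b ∈ S ∧ Crs p a b) x y →
            (y ∈ A ↔ x ∈ A) := by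
          intro y hy
          induction hy with
          | refl => exact Iff.rfl
          | tail hb hbc ih =>
            rename_i b c
            rw [← ih]
            constructor
            · intro hc
              by_contra hbA
              exact (hA c hc b hbc.1 hbA).2 (crs_symm hbc.2.2)
            · intro hbA
              by_contra hc
              exact (hA b hbA c hbc.2.1 hc).2 hbc.2.2
        by_cases hxA : x ∈ A
        · obtain ⟨z, hz, hzA⟩ : ∃ z ∈ S, z ∉ A := by
            by_contra hcon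
            push Not at hcon
            exact hAne (Finset.Subset.antisymm hAS hcon)
          exact ⟨z, hz, fun hzC => hzA ((key z ((hC z).1 hzC).2).2 hxA)⟩
        · obtain ⟨a, ha⟩ := hAn
          exact ⟨a, hAS ha, fun haC => hxA ((key a ((hC a).1 haC).2).1 ha)⟩
      · intro z hz hzC y hy
        have hy2 := ((hC y).1 hy).2
        clear hy
        induction hy2 with
        | refl => exact Iff.rfl
        | tail hb hbc ih =>
          rename_i b c
          refine Iff.trans ?_ ih
          have hbC : b ∈ C := (hC b).2 ⟨hbc.1, hb⟩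
          have hcC : c ∈ C := (hC c).2 ⟨hbc.2.1, hb.tail hbc⟩
          have hbz : b ≠ z := fun e => hzC (e ▸ hbC)
          have hcz : c ≠ z := fun e => hzC (e ▸ hcC)
          have n1 := hc2 b hbC z hz hzC
          have n2 := hc2 c hcC z hz hzC
          constructor
          · intro h1
            by_contra h2
            exact struct_mid h1 (by omega) n2 (fun hx => n1 (crs_symm hx)) (crs_symm hbc.2.2)
          · intro h1
            by_contra h2
            exact struct_mid h1 (by omega) n1 (fun hx => n2 (crs_symm hx)) hbc.2.2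
    by_cases hex : ∃ x ∈ S, ∃ y ∈ S, y ≠ x ∧ Crs p x y
    · obtain ⟨x, hx, y, hy, hyx, hxy⟩ := hex
      obtain ⟨C, hCS, hxC, hc2, hc3, ⟨z₀, hz₀, hz₀C⟩, hc4⟩ := hco x hx
      have hyC : y ∈ C := hc3 y hy hxy
      have hC2 : 2 ≤ C.card := Finset.one_lt_card.2 ⟨x, hxC, y, hyC, hyx.symm⟩
      by_cases hW : ∃ z ∈ S, z ∉ C ∧ x < z
      · left
        obtain ⟨W, hWd⟩ : ∃ W : Finset ℕ, ∀ z, z ∈ W ↔ z ∈ S ∧ z ∉ C ∧ x < z :=
          ⟨S.filter fun z => z ∉ C ∧ x < z, fun z => by rw [Finset.mem_filter]⟩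
        refine ⟨C, W, ⟨fun r hr => hSm r (hCS hr), fun w hw => hSm w ((hWd w).1 hw).1, ⟨x, hxC⟩,
          ?_, ?_, ?_, ?_⟩, hC2⟩
        · obtain ⟨z, hz⟩ := hW
          exact ⟨z, (hWd z).2 hz⟩
        · intro r hr w hw
          obtain ⟨h1, h2, h3⟩ := (hWd w).1 hw
          exact (hc4 w h1 h2 r hr).2 h3
        · intro r hr w hw
          obtain ⟨h1, h2, h3⟩ := (hWd w).1 hw
          exact hc2 r hr w h1 h2
        · intro n hn hnC hnW
          by_cases hnS : n ∈ S
          · right
            left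
            intro r hr
            refine ⟨fun hx => hc2 r hr n hnS hnC (crs_symm hx), ?_⟩
            have h1 : ¬ x < n := fun h2 => hnW ((hWd n).2 ⟨hnS, hnC, h2⟩)
            have h2 := hc4 n hnS hnC r hr
            have h3 : r ≠ n := fun e => hnC (e ▸ hr)
            omega
          · left
            exact ⟨fun r hr => crs_symm (hcl r (hCS hr) n hn hnS),
              fun w hw => crs_symm (hcl w ((hWd w).1 hw).1 n hn hnS)⟩
      · right
        left
        push Not at hW
        have hlt : ∀ r ∈ C, ∀ z ∈ S, z ∉ C → z < r := by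
          intro r hr z hz hzC
          have h1 := hW z hz hzC
          have h2 := hc4 z hz hzC r hr
          have h3 : r ≠ z := fun e => hzC (e ▸ hr)
          omega
        have hinv : ∀ x, x < m → m - 1 - (m - 1 - x) = x := fun x hx => by omega
        refine ⟨C.image fun x => m - 1 - x, (S \ C).image fun x => m - 1 - x,
          ⟨?_, ?_, ?_, ?_, ?_, ?_, ?_⟩, ?_⟩
        · intro r hr
          obtain ⟨r', hr', rfl⟩ := Finset.mem_image.1 hr
          omega
        · intro r hr
          obtain ⟨r', hr', rfl⟩ := Finset.mem_image.1 hr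
          omega
        · exact ⟨_, Finset.mem_image.2 ⟨x, hxC, rfl⟩⟩
        · exact ⟨_, Finset.mem_image.2 ⟨z₀, Finset.mem_sdiff.2 ⟨hz₀, hz₀C⟩, rfl⟩⟩
        · intro r hr w hw
          obtain ⟨r', hr', rfl⟩ := Finset.mem_image.1 hr
          obtain ⟨w', hw', rfl⟩ := Finset.mem_image.1 hw
          obtain ⟨h1, h2⟩ := Finset.mem_sdiff.1 hw'
          have h3 := hlt r' hr' w' h1 h2
          have h4 := hSm r' (hCS hr')
          omega
        · intro r hr w hw
          obtain ⟨r', hr', rfl⟩ := Finset.mem_image.1 hr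
          obtain ⟨w', hw', rfl⟩ := Finset.mem_image.1 hw
          obtain ⟨h1, h2⟩ := Finset.mem_sdiff.1 hw'
          have h4 := hSm r' (hCS hr')
          have h5 := hSm w' h1
          rw [crs_flp h (by omega) (by omega), hinv r' h4, hinv w' h5]
          exact hc2 r' hr' w' h1 h2
        · intro n hn hnC hnW
          have hn1 : m - 1 - n ∉ C := fun h1 => hnC (Finset.mem_image.2 ⟨_, h1, hinv n hn⟩)
          have hn2 : m - 1 - n ∉ S := fun h1 =>
            hnW (Finset.mem_image.2 ⟨_, Finset.mem_sdiff.2 ⟨h1, hn1⟩, hinv n hn⟩)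
          left
          constructor
          · intro r hr
            obtain ⟨r', hr', rfl⟩ := Finset.mem_image.1 hr
            have h4 := hSm r' (hCS hr')
            rw [crs_flp h hn (by omega), hinv r' h4]
            exact crs_symm (hcl r' (hCS hr') _ (by omega) hn2)
          · intro w hw
            obtain ⟨w', hw', rfl⟩ := Finset.mem_image.1 hw
            obtain ⟨h1, h2⟩ := Finset.mem_sdiff.1 hw'
            have h5 := hSm w' h1
            rw [crs_flp h hn (by omega), hinv w' h5]
            exact crs_symm (hcl w' h1 _ (by omega) hn2)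
        · rw [Finset.card_image_of_injOn]
          · exact hC2
          · intro a ha b hb hab
            have h1 := hSm a (hCS ha)
            have h2 := hSm b (hCS hb)
            have h3 : m - 1 - a = m - 1 - b := hab
            omega
    · right
      right
      push Not at hex
      have hSn : S.Nonempty := ⟨i, hiS⟩
      have haS := S.min'_mem hSn
      set a := S.min' hSn with ha
      have hSe : (S.erase a).Nonempty := by
        rw [← Finset.card_pos, Finset.card_erase_of_mem haS]
        omega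
      have hbS := (S.erase a).min'_mem hSe
      set b := (S.erase a).min' hSe with hb
      obtain ⟨hba, hbS'⟩ := Finset.mem_erase.1 hbS
      have hab : a < b := by
        have h1 : a ≤ b := S.min'_le b hbS'
        omega
      have hncr : ¬ Crs p a b := hex a haS b hbS' hba
      refine ⟨a, b, ⟨?_, ?_, ⟨a, Finset.mem_singleton_self a⟩, ⟨b, Finset.mem_singleton_self b⟩,
        ?_, ?_, ?_⟩⟩
      · intro r hr
        rw [Finset.mem_singleton.1 hr]
        exact hSm a haS
      · intro r hr
        rw [Finset.mem_singleton.1 hr]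
        exact hSm b hbS'
      · intro r hr w hw
        rw [Finset.mem_singleton.1 hr, Finset.mem_singleton.1 hw]
        exact hab
      · intro r hr w hw
        rw [Finset.mem_singleton.1 hr, Finset.mem_singleton.1 hw]
        exact hncr
      · intro n hn hna hnb
        have hna' : n ≠ a := fun e => hna (Finset.mem_singleton.2 e)
        have hnb' : n ≠ b := fun e => hnb (Finset.mem_singleton.2 e)
        by_cases hnS : n ∈ S
        · right
          right
          intro w hw
          rw [Finset.mem_singleton.1 hw]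
          have h1 : b ≤ n := (S.erase a).min'_le n (Finset.mem_erase.2 ⟨hna', hnS⟩)
          exact ⟨hex n hnS b hbS' hnb'.symm, by omega⟩
        · left
          constructor
          · intro r hr
            rw [Finset.mem_singleton.1 hr]
            exact crs_symm (hcl a haS n hn hnS)
          · intro w hw
            rw [Finset.mem_singleton.1 hw]
            exact crs_symm (hcl b hbS' n hn hnS)

end Pool.Agent.AMU
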