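import Pool.Agent.AMU0.Half1

open Matrix

namespace Pool.Agent.AMU

/-- the invariant functional -/
def gph (q z : ℂ) (K m : ℕ) (F : GV) (κ : ℕ → Fin 4) : ℂ :=
  ∑ l ∈ Finset.range m, (1 - wt4 q z K (κ l)) * F κ l

private lemma gfull_sum_two {m k : ℕ} (hk : k + 1 < m) (f g : ℕ → ℂ)
    (h : ∀ l, l ≠ k → l ≠ k + 1 → f l = g l) (h2 : f k + f (k + 1) = g k + g (k + 1)) :
    ∑ l ∈ Finset.range m, f l = ∑ l ∈ Finset.range m, g l := by
  have h1 : k ∈ Finset.range m := by simp; omega
  have h3 : k + 1 ∈ (Finset.range m).erase k := by simp; omega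
  rw [← Finset.add_sum_erase _ f h1, ← Finset.add_sum_erase _ f h3,
    ← Finset.add_sum_erase _ g h1, ← Finset.add_sum_erase _ g h3, ← add_assoc, ← add_assoc, h2]
  congr 1
  refine Finset.sum_congr rfl fun l hl => ?_
  simp only [Finset.mem_erase] at hl
  exact h l hl.2.1 hl.1

private lemma gfull_wt0 (q z : ℂ) (K : ℕ) : wt4 q z K 0 = 1 := by simp [wt4]

private lemma gfull_csw_left (κ : ℕ → Fin 4) (k : ℕ) : csw κ k k = κ (k + 1) := by
  simp [csw]

private lemma gfull_csw_right (κ : ℕ → Fin 4) (k : ℕ) : csw κ k (k + 1) = κ k := by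
  simp [csw]

private lemma gfull_csw_ne (κ : ℕ → Fin 4) {k l : ℕ} (h1 : l ≠ k) (h2 : l ≠ k + 1) :
    csw κ k l = κ l := by
  simp [csw, Equiv.swap_apply_of_ne_of_ne h1 h2]

theorem gph_gop {m k : ℕ} (hk : k + 1 < m) (q z : ℂ) (K : ℕ) (F : GV) (κ : ℕ → Fin 4) :
    gph q z K m (gop q z K k F) κ = gph q z K m F (csw κ k) := by
  unfold gph
  refine gfull_sum_two hk _ _ (fun l h1 h2 => ?_) ?_
  · rw [gfull_csw_ne κ h1 h2]
    simp only [gop, if_neg h2, if_neg h1]
  · rw [gfull_csw_left, gfull_csw_right]
    have hne : k ≠ k + 1 := by omega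
    simp only [gop, if_neg hne, if_true]
    by_cases h : κ k = 0 ∨ κ (k + 1) = 0
    · simp only [if_pos h]
      rcases h with h | h <;> rw [h, gfull_wt0] <;> ring
    · simp only [if_neg h]
      ring

private lemma gfull_wt_ne {q z : ℂ} (hq : q ≠ 0) (hz : z ≠ 0) (K : ℕ) (i : Fin 4) :
    wt4 q z K i ≠ 0 := by
  fin_cases i <;> simp [wt4, hq, hz]

theorem gph_gopi {m k : ℕ} (hk : k + 1 < m) {q z : ℂ} (hq : q ≠ 0) (hz : z ≠ 0) (K : ℕ) (F : GV)
    (κ : ℕ → Fin 4) : gph q z K m (gopi q z K k F) κ = gph q z K m F (csw κ k) := by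
  unfold gph
  refine gfull_sum_two hk _ _ (fun l h1 h2 => ?_) ?_
  · rw [gfull_csw_ne κ h1 h2]
    simp only [gopi, if_neg h2, if_neg h1]
  · rw [gfull_csw_left, gfull_csw_right]
    have hne : k + 1 ≠ k := by omega
    simp only [gopi, if_neg hne, if_true]
    by_cases h : κ k = 0 ∨ κ (k + 1) = 0
    · simp only [if_pos h]
      rcases h with h | h <;> rw [h, gfull_wt0] <;> ring
    · simp only [if_neg h]
      have h1 := gfull_wt_ne hq hz K (κ (k + 1))
      field_simp
      ring

private lemma gfull_word {m : ℕ} {q z : ℂ} (hq : q ≠ 0) (hz : z ≠ 0) (K : ℕ) (F : GV) :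
    ∀ (w : List (ℕ × Bool)), Letters m w → ∀ κ : ℕ → Fin 4,
    gph q z K m (gw q z K w F) κ = gph q z K m F (fun l => κ (outl l w))
  | [], _, κ => rfl
  | x :: w, hw, κ => by
    have h1 : x.1 + 1 < m := hw x (by simp)
    have h2 : Letters m w := fun y hy => hw y (by simp [hy])
    have h3 : gph q z K m (gw q z K (x :: w) F) κ = gph q z K m (gw q z K w F) (csw κ x.1) := by
      rw [gw]
      split_ifs
      · exact gph_gop h1 q z K _ κ
      · exact gph_gopi h1 hq hz K _ κ
    rw [h3, gfull_word hq hz K F w h2 (csw κ x.1)]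
    rfl

theorem gph_pure {m : ℕ} {w : List (ℕ × Bool)} (hw : PureWord m w) {q z : ℂ} (hq : q ≠ 0)
    (hz : z ≠ 0) (K : ℕ) (F : GV) (κ : ℕ → Fin 4) :
    gph q z K m (gw q z K w F) κ = gph q z K m F κ := by
  rw [gfull_word hq hz K F w hw.1 κ]
  congr 1
  funext l
  rw [hw.2 l]

/-- the source colouring of the column word -/
private def gfullD (n : ℕ) (κ : ℕ → Fin 4) : ℕ → Fin 4 := fun c =>
  if c = 0 then κ n else if c ≤ n then κ (c - 1) else κ c

/-- the source colouring of the half twist -/
private def gfullH (n : ℕ) (κ : ℕ → Fin 4) : ℕ → Fin 4 := fun b =>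
  if b < n then κ (n - 1 - b) else κ b

private lemma gfull_D_csw (n : ℕ) (κ : ℕ → Fin 4) : gfullD n (csw κ n) = gfullD (n + 1) κ := by
  funext c
  unfold gfullD
  by_cases h0 : c = 0
  · rw [if_pos h0, if_pos h0, gfull_csw_left]
  · rw [if_neg h0, if_neg h0]
    by_cases h1 : c ≤ n
    · rw [if_pos h1, if_pos (by omega), gfull_csw_ne κ (by omega) (by omega)]
    · rw [if_neg h1]
      by_cases h2 : c = n + 1
      · subst h2
        rw [if_pos le_rfl, gfull_csw_right]
        simp
      · rw [if_neg (by omega), gfull_csw_ne κ (by omega) (by omega)]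

private lemma gfull_D_H (n : ℕ) (κ : ℕ → Fin 4) : gfullD n (gfullH n κ) = gfullH (n + 1) κ := by
  funext c
  unfold gfullD gfullH
  by_cases h0 : c = 0
  · subst h0
    simp
  · rw [if_neg h0]
    by_cases h1 : c ≤ n
    · rw [if_pos h1, if_pos (by omega), if_pos (by omega)]
      congr 1
      omega
    · rw [if_neg h1, if_neg (by omega), if_neg (by omega)]

private lemma gfull_H_H (n : ℕ) (κ : ℕ → Fin 4) : gfullH n (gfullH n κ) = κ := by
  funext c
  unfold gfullH
  by_cases h1 : c < n
  · rw [if_pos h1, if_pos (by omega)]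
    congr 1
    omega
  · rw [if_neg h1, if_neg h1]

private lemma gfull_append (q z : ℂ) (K : ℕ) (F : GV) : ∀ u v : List (ℕ × Bool),
    gw q z K (u ++ v) F = gw q z K u (gw q z K v F)
  | [], _ => rfl
  | x :: u, v => by
    rw [List.cons_append, gw, gw, gfull_append q z K F u v]

private lemma gfull_posw_append (X Y : List ℕ) : posw (X ++ Y) = posw X ++ posw Y := by
  simp [posw]

private lemma gfull_desc (n : ℕ) : desc (n + 1) = n :: desc n := by
  simp [desc, List.range_succ]

/-- the column word -/
private lemma gfull_col (q z : ℂ) (K : ℕ) (F : GV) : ∀ (n : ℕ) (κ : ℕ → Fin 4) (p : ℕ),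
    gw q z K (posw (desc n)) F κ p =
      if p < n then
        F (gfullD n κ) (p + 1) + (if κ p = 0 then 0 else (1 - wt4 q z K (κ n)) *
          (∏ c ∈ Finset.range p, wt4 q z K (κ c)) * F (gfullD n κ) 0)
      else if p = n then
        (if κ n = 0 then F (gfullD n κ) 0
          else (∏ c ∈ Finset.range n, wt4 q z K (κ c)) * F (gfullD n κ) 0)
      else F (gfullD n κ) p
  | 0, κ, p => by
    have h : gfullD 0 κ = κ := by
      funext c
      unfold gfullD
      by_cases h0 : c = 0
      · rw [if_pos h0, h0]
      · rw [if_neg h0, if_neg (by omega)]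
    rw [h]
    have h1 : posw (desc 0) = [] := by simp [posw, desc]
    rw [h1]
    simp only [gw]
    rw [if_neg (by omega)]
    by_cases h0 : p = 0
    · rw [if_pos h0, h0]
      simp
    · rw [if_neg h0]
  | n + 1, κ, p => by
    have h1 : posw (desc (n + 1)) = (n, true) :: posw (desc n) := by
      rw [gfull_desc]
      simp [posw]
    have ih := gfull_col q z K F n (csw κ n)
    rw [gfull_D_csw, gfull_csw_left] at ih
    have hP : ∀ j, j ≤ n → ∏ c ∈ Finset.range j, wt4 q z K (csw κ n c) =
        ∏ c ∈ Finset.range j, wt4 q z K (κ c) := by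
      intro j hj
      refine Finset.prod_congr rfl fun c hc => ?_
      rw [Finset.mem_range] at hc
      rw [gfull_csw_ne κ (by omega) (by omega)]
    rw [h1, gw]
    simp only [if_true, gop]
    by_cases hp1 : p = n + 1
    · subst hp1
      have e1 := ih n
      rw [if_neg (lt_irrefl n), if_pos rfl, hP n le_rfl] at e1
      rw [e1, if_pos rfl, if_neg (lt_irrefl (n + 1)), if_pos rfl, Finset.prod_range_succ]
      by_cases h2 : κ (n + 1) = 0
      · rw [if_pos h2, if_pos h2, if_pos (Or.inr h2)]
      · rw [if_neg h2, if_neg h2]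
        by_cases h3 : κ n = 0
        · rw [if_pos (Or.inl h3), h3, gfull_wt0, mul_one]
        · rw [if_neg (not_or.mpr ⟨h3, h2⟩)]
          ring
    · rw [if_neg hp1]
      by_cases hp2 : p = n
      · subst hp2
        have e1 := ih p
        rw [if_neg (lt_irrefl p), if_pos rfl, hP p le_rfl] at e1
        have e2 := ih (p + 1)
        rw [if_neg (show ¬ (p + 1 < p) by omega), if_neg (show ¬ (p + 1 = p) by omega)] at e2
        rw [e1, e2, if_pos rfl, if_pos (show p < p + 1 by omega)]
        by_cases h3 : κ p = 0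
        · rw [if_pos (Or.inl h3), if_pos h3, add_zero]
        · rw [if_neg h3]
          by_cases h2 : κ (p + 1) = 0
          · rw [if_pos (Or.inr h2), h2, gfull_wt0]
            ring
          · rw [if_neg (not_or.mpr ⟨h3, h2⟩), if_neg h2]
            ring
      · rw [if_neg hp2, ih p]
        by_cases hp3 : p < n
        · rw [if_pos hp3, if_pos (show p < n + 1 by omega), gfull_csw_ne κ (by omega) (by omega),
            hP p hp3.le]
        · rw [if_neg hp3, if_neg hp2, if_neg (show ¬ (p < n + 1) by omega), if_neg hp1]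

private lemma gfull_tel (w : ℕ → ℂ) : ∀ b : ℕ,
    ∏ c ∈ Finset.range b, w c + ∑ a ∈ Finset.range b, (1 - w a) * ∏ c ∈ Finset.range a, w c = 1
  | 0 => by simp
  | b + 1 => by
    have := gfull_tel w b
    rw [Finset.prod_range_succ, Finset.sum_range_succ]
    linear_combination this

/-- the half twist -/
private lemma gfull_half (q z : ℂ) (K : ℕ) : ∀ (n : ℕ) (F : GV) (κ : ℕ → Fin 4) (p : ℕ),
    gw q z K (posw (hw n)) F κ p =
      if p < n then
        (if κ p = 0 then F (gfullH n κ) (n - 1 - p)
          else (∏ l ∈ Finset.range p, wt4 q z K (κ l)) * (F (gfullH n κ) (n - 1 - p) +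
            ∑ a ∈ Finset.range (n - 1 - p), (1 - wt4 q z K (gfullH n κ a)) * F (gfullH n κ) a))
      else F (gfullH n κ) p
  | 0, F, κ, p => by
    have h : gfullH 0 κ = κ := by
      funext c
      unfold gfullH
      rw [if_neg (by omega)]
    rw [h]
    simp [hw, posw, gw]
  | n + 1, F, κ, p => by
    rw [hw, gfull_posw_append, gfull_append, gfull_half q z K n (gw q z K (posw (desc n)) F) κ p]
    have hc := gfull_col q z K F n (gfullH n κ)
    rw [gfull_D_H] at hc
    have hHn : gfullH n κ n = κ n := by
      unfold gfullH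
      rw [if_neg (by omega)]
    rw [hHn] at hc
    have hH0 : gfullH (n + 1) κ 0 = κ n := by
      unfold gfullH
      rw [if_pos (by omega)]
      rfl
    have hH1 : ∀ a, a < n → gfullH (n + 1) κ (a + 1) = gfullH n κ a := by
      intro a ha
      unfold gfullH
      rw [if_pos (by omega), if_pos ha]
      congr 1
      omega
    by_cases hp1 : p < n
    · rw [if_pos hp1, if_pos (show p < n + 1 by omega)]
      have hb : n + 1 - 1 - p = (n - 1 - p) + 1 := by omega
      rw [hb]
      set b := n - 1 - p with hbdef
      have hbn : b < n := by omega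
      have hκb : gfullH n κ b = κ p := by
        unfold gfullH
        rw [if_pos hbn]
        congr 1
        omega
      rw [hc b, if_pos hbn, hκb]
      by_cases h0 : κ p = 0
      · rw [if_pos h0, if_pos h0, if_pos h0, add_zero]
      · rw [if_neg h0, if_neg h0, if_neg h0]
        congr 1
        have h5 : ∑ a ∈ Finset.range b, (1 - wt4 q z K (gfullH n κ a)) *
            gw q z K (posw (desc n)) F (gfullH n κ) a =
            ∑ a ∈ Finset.range b, (1 - wt4 q z K (gfullH (n + 1) κ (a + 1))) *
              F (gfullH (n + 1) κ) (a + 1) +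
            (1 - wt4 q z K (κ n)) * F (gfullH (n + 1) κ) 0 *
              ∑ a ∈ Finset.range b, (1 - wt4 q z K (gfullH n κ a)) *
                ∏ c ∈ Finset.range a, wt4 q z K (gfullH n κ c) := by
          rw [Finset.mul_sum, ← Finset.sum_add_distrib]
          refine Finset.sum_congr rfl fun a ha => ?_
          rw [Finset.mem_range] at ha
          rw [hc a, if_pos (by omega), hH1 a (by omega)]
          by_cases h6 : gfullH n κ a = 0
          · rw [if_pos h6, h6, gfull_wt0]
            ring
          · rw [if_neg h6]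
            ring
        rw [h5, Finset.sum_range_succ', hH0]
        have h7 := gfull_tel (fun c => wt4 q z K (gfullH n κ c)) b
        linear_combination ((1 - wt4 q z K (κ n)) * F (gfullH (n + 1) κ) 0) * h7
    · rw [if_neg hp1, hc p, if_neg hp1]
      by_cases hp2 : p = n
      · subst hp2
        rw [if_pos rfl, if_pos (show p < p + 1 by omega)]
        have h8 : p + 1 - 1 - p = 0 := by omega
        rw [h8]
        by_cases h0 : κ p = 0
        · rw [if_pos h0, if_pos h0]
        · rw [if_neg h0, if_neg h0]
          simp only [Finset.range_zero, Finset.sum_empty, add_zero]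
          congr 1
          rw [← Finset.prod_range_reflect]
          refine Finset.prod_congr rfl fun a ha => ?_
          rw [Finset.mem_range] at ha
          unfold gfullH
          rw [if_pos (by omega)]
          congr 2
          omega
      · rw [if_neg hp2, if_neg (by omega)]

/-- the full twist in the coloured Gassner representation -/
theorem gw_full (m : ℕ) (q z : ℂ) (K : ℕ) (F : GV) (κ : ℕ → Fin 4) (p : ℕ) :
    gw q z K (posw (hw m ++ hw m)) F κ p =
      if p < m ∧ κ p ≠ 0 then
        (∏ l ∈ Finset.range m, wt4 q z K (κ l)) * F κ p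
          + gph q z K m F κ * ∏ l ∈ Finset.range p, wt4 q z K (κ l)
      else F κ p := by
  rw [gfull_posw_append, gfull_append, gfull_half q z K m (gw q z K (posw (hw m)) F) κ p]
  have hc := gfull_half q z K m F (gfullH m κ)
  rw [gfull_H_H] at hc
  by_cases hp : p < m
  · rw [if_pos hp]
    have hb : m - 1 - (m - 1 - p) = p := by omega
    have hκb : ∀ a, a < m → gfullH m κ a = κ (m - 1 - a) := by
      intro a ha
      unfold gfullH
      rw [if_pos ha]
    by_cases h0 : κ p = 0
    · rw [if_pos h0, if_neg (by tauto), hc, if_pos (by omega), hκb _ (by omega), hb, if_pos h0]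
    · rw [if_neg h0, if_pos ⟨hp, h0⟩]
      set φ : ℕ → ℂ := fun n => ∑ c ∈ Finset.range n, (1 - wt4 q z K (κ c)) * F κ c with hφ
      set Pr : ℕ → ℂ := fun a => ∏ l ∈ Finset.range a, wt4 q z K (gfullH m κ l) with hPr
      have hS : ∀ b, b ≤ m → ∑ a ∈ Finset.range b, (1 - wt4 q z K (gfullH m κ a)) *
          gw q z K (posw (hw m)) F (gfullH m κ) a = φ m - Pr b * φ (m - b) := by
        intro b
        induction b with
        | zero =>
          intro _
          simp [hPr]
        | succ b ih =>
          intro hb1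
          rw [Finset.sum_range_succ, ih (by omega), hc b, if_pos (by omega)]
          have h1 : φ (m - b) = φ (m - (b + 1)) +
              (1 - wt4 q z K (κ (m - 1 - b))) * F κ (m - 1 - b) := by
            have h2 : m - b = (m - 1 - b) + 1 := by omega
            have h3 : m - (b + 1) = m - 1 - b := by omega
            rw [h3, h2]
            simp only [hφ]
            rw [Finset.sum_range_succ]
          have h4 : Pr (b + 1) = Pr b * wt4 q z K (κ (m - 1 - b)) := by
            simp only [hPr]
            rw [Finset.prod_range_succ, hκb b (by omega)]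
          have h5 : m - (b + 1) = m - 1 - b := by omega
          rw [h1, h4, hκb b (by omega), h5]
          by_cases h6 : κ (m - 1 - b) = 0
          · rw [if_pos h6, h6, gfull_wt0]
            ring
          · rw [if_neg h6]
            show _ + _ * (Pr b * (_ + φ (m - 1 - b))) = _
            ring
      rw [hS (m - 1 - p) (by omega), hc (m - 1 - p), if_pos (by omega), hκb _ (by omega), hb,
        if_neg h0]
      have h9 : m - (m - 1 - p) = p + 1 := by omega
      have h10 : φ (p + 1) = φ p + (1 - wt4 q z K (κ p)) * F κ p := by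
        simp only [hφ]
        rw [Finset.sum_range_succ]
      have h11 : ∏ l ∈ Finset.range m, wt4 q z K (κ l) =
          (∏ l ∈ Finset.range p, wt4 q z K (κ l)) * wt4 q z K (κ p) * Pr (m - 1 - p) := by
        have h12 : m = (p + 1) + (m - 1 - p) := by omega
        have h13 : ∏ l ∈ Finset.range m, wt4 q z K (κ l) =
            ∏ l ∈ Finset.range ((p + 1) + (m - 1 - p)), wt4 q z K (κ l) := by
          rw [← h12]
        rw [h13, Finset.prod_range_add, Finset.prod_range_succ]
        congr 1
        simp only [hPr]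
        rw [← Finset.prod_range_reflect]
        refine Finset.prod_congr rfl fun a ha => ?_
        rw [Finset.mem_range] at ha
        rw [hκb a (by omega)]
        congr 2
        omega
      rw [h9, h10, h11]
      show _ * (Pr (m - 1 - p) * (_ + φ p) + _) = _ + φ m * _
      ring
  · rw [if_neg hp, if_neg (by tauto), hc, if_neg hp]

end Pool.Agent.AMU
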