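import Pool.Agent.AMU0.Half2

open Matrix

namespace Pool.Agent.AMU

theorem hw_left {m i : ℕ} (hi : i + 1 < m) :
    ∃ Y, Lt m Y ∧ pw m (hw m) = sg m i * pw m Y := by
  have hinv : ∀ x, x < m → (pm (hw m))⁻¹ x = m - 1 - x := by
    intro x hx
    rw [Equiv.Perm.inv_eq_iff_eq, pm_hw]
    split_ifs <;> omega
  have h : linvr (hw m) i (i + 1) := by
    unfold linvr
    rw [hinv i (by omega), hinv (i + 1) hi]
    omega
  obtain ⟨Y, hY, -, -, h4, -⟩ := red_split (hw_lt m) (hw_red m) hi h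
  exact ⟨Y, hY, by rw [← h4, pw_cons]⟩

theorem hw_right {m i : ℕ} (hi : i + 1 < m) :
    ∃ Y, Lt m Y ∧ pw m (hw m) = pw m Y * sg m i := by
  obtain ⟨Y, hY, h⟩ := hw_left (m := m) (i := m - 2 - i) (by omega)
  refine ⟨Y, hY, ?_⟩
  have h1 := hw_conj hi
  have h2 : sg m (m - 2 - i) * (pw m Y * sg m i) = sg m (m - 2 - i) * pw m (hw m) := by
    rw [← mul_assoc, ← h]
    exact h1
  exact (mul_left_cancel h2).symm

private lemma half3_pos (m : ℕ) : ∀ w : List (ℕ × Bool), Letters m w →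
    ∃ (e : ℕ) (Y : List ℕ), Lt m Y ∧ tw (sg m) 0 m ^ e * braid m w = pw m Y
  | [], _ => ⟨0, [], lt_nil m, by rw [pow_zero, braid_nil, pw_nil, one_mul]⟩
  | x :: w, hL => by
    have h1 : x.1 + 1 < m := hL x (by simp)
    have h2 : Letters m w := fun y hy => hL y (by simp [hy])
    obtain ⟨e, Y, hY, h⟩ := half3_pos m w h2
    rw [braid_cons]
    by_cases hx : x.2 = true
    · refine ⟨e, x.1 :: Y, lt_cons.2 ⟨h1, hY⟩, ?_⟩
      rw [if_pos hx, pw_cons, ← h, ← mul_assoc, ← mul_assoc]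
      rw [((tw_comm (sg m x.1)).pow_left e).eq]
    · obtain ⟨Z, hZ, h3⟩ := hw_right h1
      refine ⟨e + 1, hw m ++ (Z ++ Y), ?_, ?_⟩
      · exact lt_append.2 ⟨hw_lt m, lt_append.2 ⟨hZ, hY⟩⟩
      · have h4 : tw (sg m) 0 m * (sg m x.1)⁻¹ = pw m (hw m) * pw m Z := by
          rw [← hw_sq]
          nth_rw 2 [h3]
          rw [mul_assoc, mul_assoc, mul_inv_cancel, mul_one]
        have h5 : tw (sg m) 0 m ^ e * (sg m x.1)⁻¹ = (sg m x.1)⁻¹ * tw (sg m) 0 m ^ e :=
          ((tw_comm (sg m x.1)⁻¹).pow_left e).eq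
        rw [if_neg hx, pw_append, pw_append]
        calc tw (sg m) 0 m ^ (e + 1) * ((sg m x.1)⁻¹ * braid m w)
            = tw (sg m) 0 m * (tw (sg m) 0 m ^ e * (sg m x.1)⁻¹) * braid m w := by
              rw [pow_succ']
              simp only [mul_assoc]
          _ = (tw (sg m) 0 m * (sg m x.1)⁻¹) * (tw (sg m) 0 m ^ e * braid m w) := by
              rw [h5]
              simp only [mul_assoc]
          _ = pw m (hw m) * (pw m Z * pw m Y) := by
              rw [h4, h, mul_assoc]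

/-- every braid is positive up to full twists -/
theorem exists_positive (m : ℕ) (f : BraidGroup m) :
    ∃ (e : ℕ) (Y : List ℕ), Lt m Y ∧ tw (sg m) 0 m ^ e * f = pw m Y := by
  obtain ⟨w, h1, h2⟩ := exists_braid m f
  obtain ⟨e, Y, h3, h4⟩ := half3_pos m w h1
  exact ⟨e, Y, h3, by rw [← h2, h4]⟩

theorem pw_flip {m : ℕ} {X : List ℕ} (hX : Lt m X) :
    pw m (X.map fun x => m - 2 - x) = pw m (hw m) * pw m X * (pw m (hw m))⁻¹ := by
  induction X with
  | nil => rw [List.map_nil, pw_nil, mul_one, mul_inv_cancel]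
  | cons x X ih =>
    obtain ⟨h1, h2⟩ := lt_cons.1 hX
    rw [List.map_cons, pw_cons, ih h2, pw_cons, ← mul_assoc, ← mul_assoc, ← hw_conj h1]
    simp only [mul_assoc]

end Pool.Agent.AMU
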