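import Pool.Agent.AMU0.Ginv
import Pool.Agent.AMU0.Gfull
import Pool.Agent.AMU0.Half3

open Matrix

namespace Pool.Agent.AMU

private lemma u1x_wt {q z : ℂ} (hq : ‖q‖ = 1) (hz : ‖z‖ = 1) (K : ℕ) (i : Fin 4) :
    ‖wt4 q z K i‖ = 1 := by
  fin_cases i <;> simp [wt4, hq, hz]

private lemma u1x_zero (q z : ℂ) (K : ℕ) (w : List (ℕ × Bool)) : gw q z K w 0 = 0 := by
  have h := gw_smul q z K w 0 0
  rwa [zero_smul, zero_smul] at h

/-- the word of a power of the full twist -/
private def u1xT (m : ℕ) : ℕ → List (ℕ × Bool)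
  | 0 => []
  | n + 1 => posw (hw m ++ hw m) ++ u1xT m n

private lemma u1x_letters (m : ℕ) : ∀ n, Letters m (u1xT m n)
  | 0 => fun x hx => by simp [u1xT] at hx
  | n + 1 => letters_append (letters_posw (lt_append.2 ⟨hw_lt m, hw_lt m⟩)) (u1x_letters m n)

private lemma u1x_braid (m : ℕ) : ∀ n, braid m (u1xT m n) = tw (sg m) 0 m ^ n
  | 0 => by simp [u1xT, braid]
  | n + 1 => by
    rw [u1xT, braid_append, braid_posw, pw_append, hw_sq, u1x_braid m n, pow_succ']

private lemma u1x_winv_letters {m : ℕ} {w : List (ℕ × Bool)} (hw : Letters m w) :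
    Letters m (winv w) := by
  intro x hx
  unfold winv at hx
  rw [List.mem_reverse] at hx
  obtain ⟨y, hy, rfl⟩ := List.mem_map.1 hx
  exact hw y hy

private lemma u1x_pow {m : ℕ} {q z : ℂ} {K : ℕ} {F : GV} {a : ℂ}
    (h : gw q z K (posw (hw m ++ hw m)) F = a • F) : ∀ n, gw q z K (u1xT m n) F = a ^ n • F
  | 0 => by simp [u1xT, gw]
  | n + 1 => by
    rw [u1xT, gw_append, u1x_pow h n, gw_smul, h, smul_smul, pow_succ]

/-- `U1` is inherited by conjugates, up to full twists -/
theorem u1_conj {m : ℕ} {w w' u : List (ℕ × Bool)} {e : ℤ} (hw : PureWord m w)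
    (hw' : PureWord m w') (hu : Letters m u)
    (h : braid m w = tw (sg m) 0 m ^ e * (braid m u * braid m w' * (braid m u)⁻¹)) (h1 : U1 w) :
    U1 w' := by
  intro K q z hK hq hz F l hF hl
  have hq0 : q ≠ 0 := by rintro rfl; simp at hq
  have hz0 : z ≠ 0 := by rintro rfl; simp at hz
  by_cases hph : ∃ κ, gph q z K m F κ ≠ 0
  · obtain ⟨κ, hκ⟩ := hph
    have h2 := gph_pure hw' hq0 hz0 K F κ
    rw [hl] at h2
    have h3 : gph q z K m (l • F) κ = l * gph q z K m F κ := by
      unfold gph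
      rw [Finset.mul_sum]
      refine Finset.sum_congr rfl fun p _ => ?_
      simp only [Pi.smul_apply, smul_eq_mul]
      ring
    rw [h3] at h2
    have h4 : l = 1 := mul_right_cancel₀ hκ (by rw [h2, one_mul])
    rw [h4, norm_one]
  push Not at hph
  obtain ⟨κ0, hκ0⟩ : ∃ κ, F κ ≠ 0 := by
    by_contra hcon
    push Not at hcon
    exact hF (funext hcon)
  by_cases hdel : ∃ p, F κ0 p ≠ 0 ∧ (m ≤ p ∨ κ0 p = 0)
  · obtain ⟨p, hp, hp2⟩ := hdel
    have h2 := gw_deleted hw' q z K F hp2
    rw [hl] at h2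
    simp only [Pi.smul_apply, smul_eq_mul] at h2
    have h4 : l = 1 := mul_right_cancel₀ hp (by rw [h2, one_mul])
    rw [h4, norm_one]
  have hdel' : ∀ p, (m ≤ p ∨ κ0 p = 0) → F κ0 p = 0 := by
    intro p hp
    by_contra hcon
    exact hdel ⟨p, hcon, hp⟩
  -- restriction to one colouring
  obtain ⟨F', hF'0, hF'1⟩ : ∃ F' : GV, F' κ0 = F κ0 ∧ ∀ κ, κ ≠ κ0 → F' κ = 0 := by
    classical
    exact ⟨fun κ => if κ = κ0 then F κ0 else 0, by simp, fun κ hκ => by simp [hκ]⟩
  have hF'ne : F' ≠ 0 := by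
    intro hcon
    apply hκ0
    rw [← hF'0, hcon]
    rfl
  have hl' : gw q z K w' F' = l • F' := by
    funext κ
    by_cases hκ : κ = κ0
    · subst hκ
      rw [gw_pure hw' q z K hF'0, hl, Pi.smul_apply, Pi.smul_apply, hF'0]
    · have h2 : F' κ = (0 : GV) κ := hF'1 κ hκ
      rw [gw_pure hw' q z K h2, u1x_zero, Pi.smul_apply, h2]
      simp
  set a : ℂ := ∏ p ∈ Finset.range m, wt4 q z K (κ0 p) with ha
  have hanorm : ‖a‖ = 1 := by
    rw [ha, norm_prod]
    exact Finset.prod_eq_one fun p _ => u1x_wt hq hz K _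
  have ha0 : a ≠ 0 := by
    intro hcon
    rw [hcon, norm_zero] at hanorm
    exact zero_ne_one hanorm
  have hT : gw q z K (posw (AMU.hw m ++ AMU.hw m)) F' = a • F' := by
    funext κ p
    rw [gw_full]
    by_cases hκ : κ = κ0
    · subst hκ
      have h2 : gph q z K m F' κ = 0 := by
        have h3 := hph κ
        unfold gph at h3 ⊢
        rw [hF'0]
        exact h3
      rw [h2]
      simp only [Pi.smul_apply, smul_eq_mul]
      split_ifs with h3
      · ring
      · have h4 : F' κ p = 0 := by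
          rw [hF'0]
          apply hdel'
          by_contra hcon
          push Not at hcon
          exact h3 hcon
        rw [h4, mul_zero]
    · have h2 : gph q z K m F' κ = 0 := by
        unfold gph
        rw [hF'1 κ hκ]
        simp
      rw [h2]
      simp only [Pi.smul_apply, smul_eq_mul]
      rw [hF'1 κ hκ]
      simp
  -- powers of the full twist
  obtain ⟨T, hTl, hTb, hTg⟩ : ∃ T : List (ℕ × Bool), Letters m T ∧
      braid m T = tw (sg m) 0 m ^ e ∧ gw q z K T F' = a ^ e • F' := by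
    obtain ⟨n, rfl | rfl⟩ := e.eq_nat_or_neg
    · refine ⟨u1xT m n, u1x_letters m n, ?_, ?_⟩
      · rw [u1x_braid, zpow_natCast]
      · rw [u1x_pow hT, zpow_natCast]
    · refine ⟨winv (u1xT m n), u1x_winv_letters (u1x_letters m n), ?_, ?_⟩
      · rw [braid_winv, u1x_braid, _root_.zpow_neg, zpow_natCast]
      · have h2 := gw_winv hq0 hz0 K (u1xT m n) F'
        rw [u1x_pow hT, gw_smul] at h2
        rw [_root_.zpow_neg, zpow_natCast]
        conv_rhs => rw [← h2]
        rw [smul_smul, inv_mul_cancel₀ (pow_ne_zero n ha0), one_smul]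
  have hne : gw q z K u F' ≠ 0 := by
    intro hcon
    apply hF'ne
    rw [← gw_winv hq0 hz0 K u F', hcon, u1x_zero]
  have hwb : braid m w = braid m (u ++ (w' ++ (T ++ winv u))) := by
    rw [h, braid_append, braid_append, braid_append, braid_winv, hTb]
    have h2 : Commute (tw (sg m) 0 m ^ e) (braid m u * braid m w') := (tw_comm _).zpow_left e
    rw [← mul_assoc (tw (sg m) 0 m ^ e), h2.eq]
    simp only [mul_assoc]
  have hlet : Letters m (u ++ (w' ++ (T ++ winv u))) :=
    letters_append hu (letters_append hw'.1 (letters_append hTl (u1x_winv_letters hu)))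
  have h2 := gw_braid hw.1 hlet hwb hq0 hz0 K (gw q z K u F')
  rw [gw_append, gw_append, gw_append, gw_winv hq0 hz0, hTg, gw_smul, hl', smul_smul,
    gw_smul] at h2
  have h3 := h1 K q z hK hq hz _ _ hne h2
  rw [norm_mul, norm_zpow, hanorm, _root_.one_zpow, one_mul] at h3
  exact h3

end Pool.Agent.AMU
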