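import Pool.Agent.AMU0.F12
import Pool.Agent.AMU0.CC
import Pool.Agent.AMU0.MM
import Pool.Agent.AMU0.PP4
import Pool.Agent.AMU0.Struct
import Pool.Agent.AMU0.StrB
import Pool.Agent.AMU0.StrA
import Pool.Agent.AMU0.HRW
import Pool.Agent.AMU0.Split
import Pool.Agent.AMU0.Dyn
import Pool.Agent.AMU0.U1X

open Matrix

namespace Pool.Agent.AMU

/-- all excluded patterns -/
private structure combPat (m : ℕ) (p : ℕ → ℕ) : Prop where
  rr : NoRR m p
  ll : NoLL m p
  bad : NoBad m p
  cl : NoCL m p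
  mm : NoM m p

private lemma comb_beta {m L : ℕ} {p : ℕ → ℕ} (h : IsTrack m L p) (hp : combPat m p)
    {R W : Finset ℕ} (hRW : RW m p R W) :
    ∃ (g : BraidGroup m) (o : ℕ), o + R.card ≤ m ∧
      Commute (seg (sg m) p 0 L) (g * tw (sg m) o R.card * g⁻¹) := by
  refine str_beta (t0 := L) h hRW.Rm hRW.Rne hRW.Wm hRW.Wne
    (fun r hr w hw => ⟨hRW.nev r hr w hw, hRW.lt r hr w hw⟩) (eps := sgn p W) ?_ ?_ ⟨1, by simp⟩
  · intro t ht _
    exact hrw h hp.rr hp.ll hp.bad hp.cl hp.mm hRW ht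
  · intro n r
    have := sgn_per h W L n r 1
    rwa [one_mul] at this

private lemma comb_card {m : ℕ} {p : ℕ → ℕ} {R W : Finset ℕ} (hRW : RW m p R W) : R.card < m := by
  obtain ⟨w, hw⟩ := hRW.Wne
  have h1 : insert w R ⊆ Finset.range m := by
    intro x hx
    rw [Finset.mem_insert] at hx
    rw [Finset.mem_range]
    rcases hx with rfl | hx
    · exact hRW.Wm _ hw
    · exact hRW.Rm _ hx
  have h2 : w ∉ R := fun h => absurd (hRW.lt w h w hw) (lt_irrefl _)
  have h3 := Finset.card_le_card h1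
  rw [Finset.card_insert_of_notMem h2, Finset.card_range] at h3
  omega

private lemma comb_alpha {m L : ℕ} {p : ℕ → ℕ} (h : IsTrack m L p) (hp : combPat m p)
    {i j : ℕ} (hRW : RW m p {i} {j}) :
    ∃ (g : BraidGroup m) (o : ℕ), o + 2 ≤ m ∧
      Commute (seg (sg m) p 0 L) (g * tw (sg m) o 2 * g⁻¹) := by
  have hi : i ∈ ({i} : Finset ℕ) := Finset.mem_singleton_self i
  have hj : j ∈ ({j} : Finset ℕ) := Finset.mem_singleton_self j
  refine str_alpha (t0 := L) h (hRW.lt i hi j hj) (hRW.Wm j hj) (hRW.nev i hi j hj)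
    (eps := sgn p {j}) ?_ ?_ ?_ ?_ ⟨1, by simp⟩
  · intro t ht _
    exact hrw h hp.rr hp.ll hp.bad hp.cl hp.mm hRW ht
  · intro t x _ _ he _
    exact hrw_lv he hj
  · intro t y _ _ he
    exact hrw_enter1 h hp.rr hRW he
  · intro n r
    have := sgn_per h {j} L n r 1
    rwa [one_mul] at this

/-- the combinatorial part: positive pure braids with unimodular coloured Gassner eigenvalues and two
strands which never cross are reducible -/
theorem comb {m : ℕ} (hm : 3 ≤ m) {X : List ℕ} (hX : X ≠ []) (hL : Lt m X)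
    (hp : PureWord m (posw X)) (h : U1 (posw X)) (hn : ∃ i j, i < j ∧ j < m ∧ ¬ Crs (trk X) i j) :
    ∃ (g : BraidGroup m) (o l : ℕ), 2 ≤ l ∧ l < m ∧ o + l ≤ m ∧
      Commute (pw m X) (g * tw (sg m) o l * g⁻¹) := by
  -- the flipped word
  set X' : List ℕ := X.map fun x => m - 2 - x with hX'
  have hXne' : X' ≠ [] := by
    intro h0
    rw [hX', List.map_eq_nil_iff] at h0
    exact hX h0
  have hL' : Lt m X' := by
    intro x hx
    rw [hX', List.mem_map] at hx
    obtain ⟨y, hy, rfl⟩ := hx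
    have := hL y hy
    omega
  have hlen : X'.length = X.length := by rw [hX', List.length_map]
  have hT := isTrack_trk hX hL hp
  have htr : trk X' = flp m (trk X) := trk_flip hX
  have hT' : IsTrack m X.length (flp m (trk X)) := flp_track hT
  have hfl : pw m X' = pw m (hw m) * pw m X * (pw m (hw m))⁻¹ := pw_flip hL
  have hp' : PureWord m (posw X') := by
    refine ⟨letters_posw hL', fun l => ?_⟩
    have h1 : pm X' = 1 := by
      obtain ⟨φ, hφ, -⟩ := exists_perm m
      have h2 : pm X = 1 := by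
        ext l
        rw [← outl_posw, hp.2 l]
        rfl
      rw [← hφ X' hL', hfl, map_mul, map_mul, hφ X hL, h2, mul_one, map_inv, mul_inv_cancel]
    rw [outl_posw, h1]
    rfl
  have hU' : U1 (posw X') := by
    refine u1_conj (w := posw X) (u := posw (hw m)) (e := 0) hp hp' (letters_posw (hw_lt m)) ?_ h
    rw [braid_posw, braid_posw, braid_posw, hfl, zpow_zero, one_mul]
    have h1 : pw m (hw m) * pw m (hw m) = tw (sg m) 0 m := hw_sq m
    have h2 : Commute (tw (sg m) 0 m) (pw m X) := tw_comm _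
    rw [← h1] at h2
    unfold Commute SemiconjBy at h2
    calc pw m X = (pw m (hw m) * pw m (hw m)) * pw m X * (pw m (hw m) * pw m (hw m))⁻¹ := by
          rw [h2]; group
      _ = _ := by group
  have hG : Good m X.length (trk X) := good_of_u1 hX hL hp h
  have hG' : Good m X.length (flp m (trk X)) := by
    have := good_of_u1 hXne' hL' hp' hU'
    rwa [hlen, htr] at this
  have hff : flp m (flp m (trk X)) = trk X := flp_flp hT
  obtain ⟨r1, b1⟩ := noRR_noBad hT hG
  obtain ⟨r2, b2⟩ := noRR_noBad hT' hG'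
  have l1 : NoLL m (trk X) := noLL_of_flp hT r2
  have l2 : NoLL m (flp m (trk X)) := noLL_of_flp hT' (by rw [hff]; exact r1)
  have c1 : NoCL m (trk X) := noCL_of_flp hT (noC hT' hG')
  have c2 : NoCL m (flp m (trk X)) := noCL_of_flp hT' (by rw [hff]; exact noC hT hG)
  have p1 : combPat m (trk X) := ⟨r1, l1, b1, c1, noM hT hG⟩
  have p2 : combPat m (flp m (trk X)) := ⟨r2, l2, b2, c2, noM hT' hG'⟩
  rcases struct hT (noP4 hT hG r1 l1) hn with ⟨A, hA, hA', hAA⟩ | ⟨R, W, hRW, hc⟩ |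
      ⟨R, W, hRW, hc⟩ | ⟨i, j, hRW⟩
  · obtain ⟨o, l, h1, h2, h3, h4⟩ := split hm hX hL hp A hA hA' hAA
    exact ⟨1, o, l, h1, h2, h3, by simpa using h4⟩
  · obtain ⟨g, o, h1, h2⟩ := comb_beta hT p1 hRW
    rw [seg_trk] at h2
    exact ⟨g, o, R.card, hc, comb_card hRW, h1, h2⟩
  · obtain ⟨g, o, h1, h2⟩ := comb_beta hT' p2 hRW
    rw [← htr, ← hlen, seg_trk, hfl] at h2
    refine ⟨(pw m (hw m))⁻¹ * g, o, R.card, hc, comb_card hRW, h1, ?_⟩
    unfold Commute SemiconjBy at h2 ⊢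
    calc pw m X * ((pw m (hw m))⁻¹ * g * tw (sg m) o R.card * ((pw m (hw m))⁻¹ * g)⁻¹)
        = (pw m (hw m))⁻¹ * ((pw m (hw m) * pw m X * (pw m (hw m))⁻¹) *
            (g * tw (sg m) o R.card * g⁻¹)) * pw m (hw m) := by group
      _ = (pw m (hw m))⁻¹ * ((g * tw (sg m) o R.card * g⁻¹) *
            (pw m (hw m) * pw m X * (pw m (hw m))⁻¹)) * pw m (hw m) := by rw [h2]
      _ = _ := by group
  · obtain ⟨g, o, h1, h2⟩ := comb_alpha hT p1 hRW
    rw [seg_trk] at h2
    exact ⟨g, o, 2, le_rfl, by omega, h1, h2⟩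

end Pool.Agent.AMU
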