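import Pool.Agent.AMU.Coloured

/-!
Definitions for the proof of the AMU conjecture in genus `0`
(all modules of the campaign AMU0 import this file; the paper is `AMU0_paper.md`).

Words are read as products of operators: the last letter of a word acts first.
Strands and positions are counted from `0`.
-/

open Matrix

namespace Pool.Agent.AMU

/-! ### Braid groups -/

/-- The Artin generator number `i` of the braid group on `m` strands (counted from `0`; the
trivial element if there is no such generator). -/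
noncomputable def sg (m i : ℕ) : BraidGroup m :=
  if h : i < m - 1 then PresentedGroup.of ⟨i, h⟩ else 1

/-- The braid of a word in the generators and their inverses. -/
noncomputable def braid (m : ℕ) (w : List (ℕ × Bool)) : BraidGroup m :=
  (w.map fun x => if x.2 then sg m x.1 else (sg m x.1)⁻¹).prod

/-- The full twist on the `l` strands `o, o + 1, …, o + l - 1`, in terms of a sequence of
generators. -/
def tw {G : Type*} [Group G] (s : ℕ → G) (o l : ℕ) : G :=
  (((List.range (l - 1)).map fun j => s (o + j)).prod) ^ l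

/-- The braid `f` on `m ≥ 3` strands commutes with no conjugate of the full twist on `l`
neighbouring strands, `2 ≤ l < m`. For pure braids this means, by the Nielsen-Thurston
classification, that `f` is pseudo-Anosov. -/
def Irr (m : ℕ) (f : BraidGroup m) : Prop :=
  3 ≤ m ∧ ∀ (g : BraidGroup m) (o l : ℕ), 2 ≤ l → l < m → o + l ≤ m →
    ¬ Commute f (g * tw (sg m) o l * g⁻¹)

/-- the braid of a positive word -/
noncomputable def pw (m : ℕ) (X : List ℕ) : BraidGroup m := (X.map (sg m)).prod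

/-- a positive word as a word in the generators and their inverses -/
def posw (X : List ℕ) : List (ℕ × Bool) := X.map fun i => (i, true)

/-- all letters are generators of the braid group on `m` strands -/
def Lt (m : ℕ) (X : List ℕ) : Prop := ∀ x ∈ X, x + 1 < m

/-- the word `σ_{n-1} σ_{n-2} ⋯ σ_0` -/
def desc (n : ℕ) : List ℕ := (List.range n).reverse

/-- the half twist on `m` strands as a positive word -/
def hw : ℕ → List ℕ
  | 0 => []
  | m + 1 => hw m ++ desc m

/-- For the braid word `w` on `m` strands, the negation of the conclusion of the AMU conjecture for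
each single colouring. -/
def Fail (m : ℕ) (w : List (ℕ × Bool)) : Prop :=
  ∀ (c : ℕ → ℕ) (k N0 : ℕ), ∃ N, N0 ≤ N ∧ ∃ A : ℂ, IsPrimitiveRoot A N ∧ ¬ ColInfinite m c A w k

/-! ### Permutations and reduced words -/

/-- the permutation of a positive word -/
def pm (u : List ℕ) : Equiv.Perm ℕ := (u.map fun k => Equiv.swap k (k + 1)).prod

/-- left inversions of the permutation of a word (for `i < j`) -/
def linvr (u : List ℕ) (i j : ℕ) : Prop := (pm u)⁻¹ j < (pm u)⁻¹ i

/-- reduced words -/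
def Red : List ℕ → Prop
  | [] => True
  | k :: u => Red u ∧ (pm u)⁻¹ k < (pm u)⁻¹ (k + 1)

/-- The pairs `i < j` for which the row `(i, j)` of the Krammer matrix of a positive word vanishes
at `t = 0`. -/
def zr : List ℕ → ℕ → ℕ → Prop
  | [], _, _ => False
  | k :: y, i, j =>
    if i = k ∧ j = k + 1 then True
    else if j = k then zr y i k ∧ zr y i (k + 1)
    else if j = k + 1 then zr y i k
    else if i = k then zr y (k + 1) j
    else if i = k + 1 then zr y k j ∧ zr y (k + 1) j
    else zr y i j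

/-! ### The representation of Lawrence, Krammer and Bigelow -/

/-- pairs `i < j` of strands -/
abbrev Pr (m : ℕ) : Type := {x : Fin m × Fin m // x.1 < x.2}

section LKB

variable {R : Type*} [CommRing R]

/-- coordinates, extended by `0` -/
def gt {m : ℕ} (ξ : Pr m → R) (i j : ℕ) : R :=
  if h : i < j ∧ j < m then ξ ⟨(⟨i, by omega⟩, ⟨j, h.2⟩), by simpa using h.1⟩ else 0

/-- the operator of `σ_k` (Krammer's representation, `0 ≤ k`, `k + 1 < m`) -/
def lop (m : ℕ) (q t : R) (k : ℕ) (ξ : Pr m → R) : Pr m → R := fun x =>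
  let i : ℕ := x.1.1
  let j : ℕ := x.1.2
  if i = k ∧ j = k + 1 then
    t * (q ^ 2 * gt ξ k (k + 1)
      + ∑ i' ∈ Finset.range k, q ^ (k - i' + 1) * (q - 1) * gt ξ i' (k + 1)
      + ∑ j' ∈ Finset.Ico (k + 2) m, q * (q - 1) * gt ξ k j'
      + ∑ i' ∈ Finset.range k, ∑ j' ∈ Finset.Ico (k + 2) m,
          q ^ (k - i') * (q - 1) ^ 2 * gt ξ i' j')
  else if j = k then (1 - q) * gt ξ i k + gt ξ i (k + 1)
  else if j = k + 1 then q * gt ξ i k
  else if i = k then gt ξ (k + 1) j
  else if i = k + 1 then q * gt ξ k j + (1 - q) * gt ξ (k + 1) j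
  else gt ξ i j

/-- the matrix of `σ_k` -/
def lmat (m : ℕ) (q t : R) (k : ℕ) : Matrix (Pr m) (Pr m) R := fun x y =>
  lop m q t k (Pi.single y 1) x

/-- the matrix of a positive word -/
def lpm (m : ℕ) (q t : R) (X : List ℕ) : Matrix (Pr m) (Pr m) R := (X.map (lmat m q t)).prod

end LKB

/-- the matrix of a word -/
noncomputable def lwm (m : ℕ) (q t : ℂ) (w : List (ℕ × Bool)) : Matrix (Pr m) (Pr m) ℂ :=
  (w.map fun x => if x.2 then lmat m q t x.1 else (lmat m q t x.1)⁻¹).prod

/-- All eigenvalues of the LKB matrices on the torus are unimodular. -/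
def U2 (m : ℕ) (w : List (ℕ × Bool)) : Prop :=
  ∀ q t : ℂ, ‖q‖ = 1 → ‖t‖ = 1 → ∀ l, Eig (lwm m q t w) l → ‖l‖ = 1

/-! ### The coloured Gassner representation -/

/-- the four colours: deleted, wall, ordinary, ordinary with another weight -/
def wt4 {R : Type*} [CommRing R] (q z : R) (K : ℕ) (i : Fin 4) : R := ![1, z, q, q ^ K] i

/-- functions of a colouring of the positions and a position -/
abbrev GV : Type := (ℕ → Fin 4) → ℕ → ℂ

/-- exchange of two neighbouring colours -/
def csw (κ : ℕ → Fin 4) (k : ℕ) : ℕ → Fin 4 := κ ∘ Equiv.swap k (k + 1)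

/-- the operator of `σ_k`; after the crossing the strand coming from the left is at `k + 1` and the
strand coming from the right is at `k` -/
def gop (q z : ℂ) (K k : ℕ) (F : GV) : GV := fun κ p =>
  if p = k + 1 then
    if κ k = 0 ∨ κ (k + 1) = 0 then F (csw κ k) k
    else wt4 q z K (κ k) * F (csw κ k) k
  else if p = k then
    if κ k = 0 ∨ κ (k + 1) = 0 then F (csw κ k) (k + 1)
    else (1 - wt4 q z K (κ (k + 1))) * F (csw κ k) k + F (csw κ k) (k + 1)
  else F (csw κ k) p

/-- the inverse operator -/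
noncomputable def gopi (q z : ℂ) (K k : ℕ) (F : GV) : GV := fun κ p =>
  if p = k then
    if κ k = 0 ∨ κ (k + 1) = 0 then F (csw κ k) (k + 1)
    else (wt4 q z K (κ (k + 1)))⁻¹ * F (csw κ k) (k + 1)
  else if p = k + 1 then
    if κ k = 0 ∨ κ (k + 1) = 0 then F (csw κ k) k
    else F (csw κ k) k -
      (1 - wt4 q z K (κ k)) * (wt4 q z K (κ (k + 1)))⁻¹ * F (csw κ k) (k + 1)
  else F (csw κ k) p

/-- the operator of a word -/
noncomputable def gw (q z : ℂ) (K : ℕ) : List (ℕ × Bool) → GV → GV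
  | [], F => F
  | x :: w, F => if x.2 then gop q z K x.1 (gw q z K w F) else gopi q z K x.1 (gw q z K w F)

/-- All eigenvalues of the coloured Gassner matrices on the torus are unimodular. -/
def U1 (w : List (ℕ × Bool)) : Prop :=
  ∀ (K : ℕ) (q z : ℂ), 1 ≤ K → ‖q‖ = 1 → ‖z‖ = 1 → ∀ (F : GV) (l : ℂ), F ≠ 0 →
    gw q z K w F = l • F → ‖l‖ = 1

/-! ### Periodic crossing sequences -/

/-- the strand at each position at time `t`; at time `t` the strands at the positions `p t` and
`p t + 1` cross -/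
def conf (p : ℕ → ℕ) : ℕ → Equiv.Perm ℕ
  | 0 => 1
  | t + 1 => conf p t * Equiv.swap (p t) (p t + 1)

/-- the position of a strand at time `t` -/
def ps (p : ℕ → ℕ) (t s : ℕ) : ℕ := (conf p t)⁻¹ s

/-- at time `t` the strand `a` (on the left) crosses the strand `b` (on the right) -/
def ev (p : ℕ → ℕ) (t a b : ℕ) : Prop := conf p t (p t) = a ∧ conf p t (p t + 1) = b

instance (p : ℕ → ℕ) (t a b : ℕ) : Decidable (ev p t a b) :=
  inferInstanceAs (Decidable (_ ∧ _))

/-- the strands `a`, `b` cross at some time -/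
def Crs (p : ℕ → ℕ) (a b : ℕ) : Prop := ∃ t, ev p t a b ∨ ev p t b a

/-- a periodic crossing sequence of a pure braid on `m` strands -/
structure IsTrack (m L : ℕ) (p : ℕ → ℕ) : Prop where
  Lpos : 0 < L
  lt : ∀ t, p t + 1 < m
  per : ∀ t, p (t + L) = p t
  pure : conf p L = 1

/-- the crossing sequence of a positive word (repeated periodically; the last letter first) -/
def trk (X : List ℕ) (t : ℕ) : ℕ := X.reverse.getD (t % X.length) 0

/-- the product `g (p (s + n - 1)) ⋯ g (p (s + 1)) g (p s)` -/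
def seg {G : Type*} [Group G] (g : ℕ → G) (p : ℕ → ℕ) (s : ℕ) : ℕ → G
  | 0 => 1
  | n + 1 => g (p (s + n)) * seg g p s n

section dmat

variable {R : Type*} [CommRing R]

/-- the matrix of a crossing of the strand `a` (on the left) and the strand `b` (on the right);
column `a`: `v b` at `a` and `1 - v a` at `b` -/
def stepM (m : ℕ) (v : ℕ → R) (a b : ℕ) : Matrix (Fin m) (Fin m) R := fun x y =>
  if (x : ℕ) = y then (if (x : ℕ) = a then v b else 1)
  else if (x : ℕ) = b ∧ (y : ℕ) = a then 1 - v a else 0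

/-- the matrix of the crossing at time `t`, if both strands are in `T` -/
def stepT (m : ℕ) (T : Finset ℕ) (v : ℕ → R) (p : ℕ → ℕ) (t : ℕ) : Matrix (Fin m) (Fin m) R :=
  if conf p t (p t) ∈ T ∧ conf p t (p t + 1) ∈ T then
    stepM m v (conf p t (p t)) (conf p t (p t + 1))
  else 1

/-- the matrix of the times `s, s + 1, …, s + n - 1` -/
def dmat (m : ℕ) (T : Finset ℕ) (v : ℕ → R) (p : ℕ → ℕ) (s : ℕ) : ℕ → Matrix (Fin m) (Fin m) R
  | 0 => 1
  | n + 1 => stepT m T v p (s + n) * dmat m T v p s n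

end dmat

/-- the strand-labelled form of `U1`: wall strands have the weight `z`, the other strands `s` of `T`
the weight `q ^ e s` -/
def Good (m L : ℕ) (p : ℕ → ℕ) : Prop :=
  ∀ (T Z : Finset ℕ) (K : ℕ) (e : ℕ → ℕ), 1 ≤ K → (∀ s, e s = 1 ∨ e s = K) → ∀ q z : ℂ,
    ‖q‖ = 1 → ‖z‖ = 1 → ∀ (s0 n : ℕ) (l : ℂ),
      Eig (dmat m T (fun s => if s ∈ Z then z else q ^ e s) p s0 (n * L)) l → ‖l‖ = 1

/-- the flipped sequence -/
def flp (m : ℕ) (p : ℕ → ℕ) (t : ℕ) : ℕ := m - 2 - p t

/-! ### Excluded patterns -/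

/-- no strand turns back (right - right) between two strands which never cross -/
def NoRR (m : ℕ) (p : ℕ → ℕ) : Prop := ∀ i j k s t, i < j → j < m → k < m → ¬ Crs p i j → Crs p k i →
  s < t → ev p s j k → ev p t k j → (∀ u, s < u → u < t → ¬ ev p u i k) → False

/-- no strand turns back (left - left) between two strands which never cross -/
def NoLL (m : ℕ) (p : ℕ → ℕ) : Prop := ∀ i j k s t, i < j → j < m → k < m → ¬ Crs p i j → Crs p k j →
  s < t → ev p s k i → ev p t i k → (∀ u, s < u → u < t → ¬ ev p u k j) → False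

/-- no bad crossing between two strands which never cross -/
def NoBad (m : ℕ) (p : ℕ → ℕ) : Prop := ∀ i j k l s t u, i < j → j < m → k < m → l < m →
  ¬ Crs p i j → Crs p k i → Crs p l i → s < t → t < u → ev p s j k → ev p t k l → ev p u l j →
  (∀ v, s < v → v < t → ¬ ev p v i k) → (∀ v, t < v → v < u → ¬ ev p v i l) → False

/-- wall `w` on the left -/
def NoC (m : ℕ) (p : ℕ → ℕ) : Prop := ∀ w r s k t₁ t₂ t₃, w < r → w < s → r < m → s < m → k < m →
  ¬ Crs p w r → ¬ Crs p w s → Crs p k w → t₁ < t₂ → t₂ < t₃ → ev p t₁ r k → ev p t₂ s r →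
  ev p t₃ k s → (∀ u, t₁ < u → u < t₃ → ¬ ev p u w k ∧ ¬ ev p u k w) → False

/-- wall `w` on the right -/
def NoCL (m : ℕ) (p : ℕ → ℕ) : Prop := ∀ w r s k t₁ t₂ t₃, r < w → s < w → w < m → k < m →
  ¬ Crs p w r → ¬ Crs p w s → Crs p k w → t₁ < t₂ → t₂ < t₃ → ev p t₁ k r → ev p t₂ r s →
  ev p t₃ s k → (∀ u, t₁ < u → u < t₃ → ¬ ev p u w k ∧ ¬ ev p u k w) → False

/-- walls `w₁`, `w₂` on the left -/
def NoM (m : ℕ) (p : ℕ → ℕ) : Prop := ∀ w₁ w₂ r₁ r₂ k t₁ t₂ t₃, w₁ < r₁ → w₁ < r₂ → w₂ < r₁ →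
  w₂ < r₂ → r₁ < m → r₂ < m → k < m → ¬ Crs p w₁ r₁ → ¬ Crs p w₁ r₂ → ¬ Crs p w₂ r₁ →
  ¬ Crs p w₂ r₂ → Crs p w₁ w₂ → Crs p r₁ r₂ → Crs p k w₁ → t₁ < t₂ → t₂ < t₃ → ev p t₁ r₁ k →
  ev p t₂ w₂ k → ev p t₃ k r₂ → (∀ u, t₁ < u → u < t₃ → ¬ ev p u w₁ k) → False

/-- no induced path on four strands in the graph of the pairs which never cross -/
def NoP4 (m : ℕ) (p : ℕ → ℕ) : Prop := ∀ a b c d, a < m → b < m → c < m → d < m → a ≠ b → b ≠ c →
  c ≠ d → a ≠ c → a ≠ d → b ≠ d → ¬ Crs p a b → ¬ Crs p b c → ¬ Crs p c d → Crs p a c → Crs p a d →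
  Crs p b d → False

/-! ### Straightening -/

section straight

variable {G : Type*} [Group G] (s : ℕ → G)

/-- the strand at the position `b + l` moves to the position `b` in front of or behind `l`
strands, `l` the length of the list -/
def col (b : ℕ) : List Bool → G
  | [] => 1
  | e :: es => (if e then s b else (s b)⁻¹) * col (b + 1) es

/-- Sorting: the strands of `R` are moved to the right of the other strands. State: number of other
strands, the strands of `R`, and the braid. -/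
def sst (R : Finset ℕ) (eps : ℕ → ℕ → Bool) (st : ℕ × List ℕ × G) (x : ℕ) : ℕ × List ℕ × G :=
  if x ∈ R then (st.1, st.2.1 ++ [x], st.2.2)
  else (st.1 + 1, st.2.1, col s st.1 (st.2.1.map (eps x)) * st.2.2)

/-- sorting of a list of strands -/
def srt (R : Finset ℕ) (eps : ℕ → ℕ → Bool) (P : List ℕ) : ℕ × List ℕ × G :=
  P.foldl (sst s R eps) (0, [], 1)

/-- the relations of the braid group on `m` strands -/
def BrRel (m : ℕ) : Prop :=
  (∀ i j, i + 2 ≤ j → j + 1 < m → s i * s j = s j * s i) ∧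
    ∀ i, i + 2 < m → s i * s (i + 1) * s i = s (i + 1) * s i * s (i + 1)

end straight

/-- the strand `n` is to the left of all strands of `W` at time `t` -/
def inP (p : ℕ → ℕ) (W : Finset ℕ) (t n : ℕ) : Prop := ∀ w ∈ W, ps p t n < ps p t w

/-- The hypotheses of straightening at time `t` (`x` and `y` are the strands which cross). -/
structure StrH (m : ℕ) (p : ℕ → ℕ) (R W : Finset ℕ) (eps : ℕ → ℕ → ℕ → Bool) (t : ℕ) : Prop where
  left : ∀ r ∈ R, ∀ w ∈ W, ps p t r < ps p t w
  rr : ∀ x y n, ev p t x y → x ∈ R → y ∈ R → n < m → n ∉ R → inP p W t n → ps p t y < ps p t n →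
    ¬ (eps t n x = false ∧ eps t n y = true)
  nn : ∀ x y r, ev p t x y → x ∉ R → y ∉ R → r ∈ R → inP p W t x → inP p W t y →
    ps p t r < ps p t x → ¬ (eps t x r = true ∧ eps t y r = false)
  nr : ∀ x y, ev p t x y → x ∉ R → y ∈ R → inP p W t x → eps (t + 1) x y = false
  rn : ∀ x y, ev p t x y → x ∈ R → y ∉ R → inP p W t y → eps t y x = true
  leave : ∀ x y r r', ev p t x y → x ∉ R → y ∈ W → r ∈ R → r' ∈ R → inP p W t x →
    eps t x r = eps t x r'
  enter : ∀ x y r r', ev p t x y → y ∉ R → x ∈ W → r ∈ R → r' ∈ R → inP p W (t + 1) y →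
    eps (t + 1) y r = eps (t + 1) y r'
  keep : ∀ n r, n < m → n ∉ R → r ∈ R → inP p W t n → inP p W (t + 1) n → ps p t r < ps p t n →
    ps p (t + 1) r < ps p (t + 1) n → eps (t + 1) n r = eps t n r

/-- The structure needed for straightening: the strands of `R` are to the left of the walls `W`, and
never cross them; any other strand crosses all of `R` and `W`, or never crosses `R` and is on its
left, or never crosses `W` and is on its right. -/
structure RW (m : ℕ) (p : ℕ → ℕ) (R W : Finset ℕ) : Prop where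
  Rm : ∀ r ∈ R, r < m
  Wm : ∀ w ∈ W, w < m
  Rne : R.Nonempty
  Wne : W.Nonempty
  lt : ∀ r ∈ R, ∀ w ∈ W, r < w
  nev : ∀ r ∈ R, ∀ w ∈ W, ¬ Crs p r w
  oth : ∀ n, n < m → n ∉ R → n ∉ W →
    ((∀ r ∈ R, Crs p n r) ∧ (∀ w ∈ W, Crs p n w)) ∨ (∀ r ∈ R, ¬ Crs p n r ∧ n < r) ∨
      (∀ w ∈ W, ¬ Crs p n w ∧ w < n)

/-! ### Polynomials -/

open Polynomial in
/-- evaluation of a polynomial in `t` over `ℤ[q]` -/
noncomputable def ev2 (q t : ℂ) : ℤ[X][X] →+* ℂ :=
  Polynomial.eval₂RingHom (Polynomial.aeval q : ℤ[X] →ₐ[ℤ] ℂ).toRingHom t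

/-! ### Vectors with one or two particles -/

/-- weight function of a cable at the position `o` with `a` strands -/
noncomputable def wc (A : ℂ) (o a p : ℕ) : ℂ :=
  if o ≤ p ∧ p < o + a then A ^ (4 * o) * (A⁻¹) ^ (2 * p) else 0

/-- vector with one particle -/
noncomputable def vec1 (n : ℕ) (φ : ℕ → ℂ) : Idx n → ℂ := fun x =>
  if ones n x = 1 then ∑ p ∈ Finset.range n, (if bit n x p then φ p else 0) else 0

/-- vector with two particles -/
noncomputable def vec2 (n : ℕ) (φ : ℕ → ℕ → ℂ) : Idx n → ℂ := fun x =>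
  if ones n x = 2 then ∑ p ∈ Finset.range n, ∑ p' ∈ Finset.range n,
    (if p < p' ∧ bit n x p ∧ bit n x p' then φ p p' else 0) else 0

/-- the vector with one particle in one of `m` cables with colours `c`, with coefficients `f` -/
noncomputable def Ph (n m : ℕ) (c : ℕ → ℕ) (A : ℂ) (f : ℕ → ℂ) : Idx n → ℂ :=
  vec1 n fun p => ∑ l ∈ Finset.range m, f l * wc A (off c l) (c l) p

section glet

variable {R : Type*} [CommRing R]

/-- the action of a letter on coefficients; `Q` stands for `A⁻⁴` and `Qi` for `A⁴` -/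
def glet (c : ℕ → ℕ) (Q Qi : R) (x : ℕ × Bool) (f : ℕ → R) : ℕ → R := fun p =>
  if c x.1 = 0 ∨ c (x.1 + 1) = 0 then f (Equiv.swap x.1 (x.1 + 1) p)
  else if x.2 then
    if p = x.1 + 1 then Q ^ c (x.1 + 1) * f x.1
    else if p = x.1 then (1 - Q ^ c x.1) * f x.1 + f (x.1 + 1)
    else f p
  else
    if p = x.1 then Qi ^ c x.1 * f (x.1 + 1)
    else if p = x.1 + 1 then f x.1 - (1 - Q ^ c (x.1 + 1)) * Qi ^ c x.1 * f (x.1 + 1)
    else f p

/-- the action of a word on coefficients -/
def gl (c : ℕ → ℕ) (Q Qi : R) : List (ℕ × Bool) → (ℕ → R) → (ℕ → R)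
  | [], f => f
  | x :: w, f => glet (outc c w) Q Qi x (gl c Q Qi w f)

end glet

/-- passage from Krammer's coordinates to the coordinates of two particles -/
def vco {m : ℕ} (q : ℂ) (ξ : Pr m → ℂ) (i j : ℕ) : ℂ :=
  gt ξ i j - (1 - q) * ∑ i' ∈ Finset.range i, q ^ (i - i' - 1) * gt ξ i' j

/-- the vector with two particles of a vector of the LKB module; all cables have the colour `c` -/
noncomputable def Ps (n m c : ℕ) (A : ℂ) (ξ : Pr m → ℂ) : Idx n → ℂ :=
  vec2 n fun p p' =>
    (∑ i ∈ Finset.range m, ∑ j ∈ Finset.Ico (i + 1) m,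
      (1 - A ^ 4 * A⁻¹ ^ (4 * c)) * vco (A⁻¹ ^ (4 * c)) ξ i j * wc A (c * i) c p * wc A (c * j) c p')
    + ∑ a ∈ Finset.range m,
      (-(1 - A⁻¹ ^ (4 * c)) * (∑ i ∈ Finset.range a, vco (A⁻¹ ^ (4 * c)) ξ i a
        + A ^ 4 * ∑ j ∈ Finset.Ico (a + 1) m, vco (A⁻¹ ^ (4 * c)) ξ a j))
        * wc A (c * a) c p * wc A (c * a) c p'

end Pool.Agent.AMU
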