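import Pool.Agent.AMU0.Rank

open Matrix Polynomial

namespace Pool.Agent.AMU

/-- the weights: `0` on the wall `i`, `q` on the other strands -/
def f12v {R : Type*} [CommRing R] (q : R) (i : ℕ) : ℕ → R := fun s => if s = i then 0 else q

lemma f12v_self {R : Type*} [CommRing R] (q : R) (i : ℕ) : f12v q i i = 0 := by simp [f12v]

lemma f12v_ne {R : Type*} [CommRing R] (q : R) {i a : ℕ} (h : a ≠ i) : f12v q i a = q := by
  simp [f12v, h]

/-- the number of crossings of `j` (on the left) with strands of `T` -/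
def f12c (p : ℕ → ℕ) (T : Finset ℕ) (j s : ℕ) : ℕ → ℕ
  | 0 => 0
  | n + 1 => f12c p T j s n +
      (if conf p (s + n) (p (s + n)) = j ∧ conf p (s + n) (p (s + n) + 1) ∈ T then 1 else 0)

section generic

variable {R : Type*} [CommRing R] {m L : ℕ} {p : ℕ → ℕ} {T : Finset ℕ}

theorem f12_off (h : IsTrack m L p) (q : R) {i : ℕ} (s : ℕ) {y : Fin m} (hy : (y : ℕ) ≠ i) :
    ∀ (n : ℕ) (x : Fin m), x ≠ y → (1 - q) ∣ dmat m T (f12v q i) p s n x y
  | 0, x, hx => by simp [dmat, hx]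
  | n + 1, x, hx => by
    have he := ev_self p (s + n)
    obtain ⟨ham, hbm⟩ := ev_ltm h he
    show (1 - q) ∣ (stepT m T (f12v q i) p (s + n) * dmat m T (f12v q i) p s n) x y
    by_cases hT : conf p (s + n) (p (s + n)) ∈ T ∧ conf p (s + n) (p (s + n) + 1) ∈ T
    · rw [stepT_mul he hT.1 hT.2 ⟨ham, hbm⟩]
      split_ifs with h1 h2
      · have h3 : (⟨conf p (s + n) (p (s + n)), ham⟩ : Fin m) = x := Fin.ext h1.symm
        rw [h3]
        exact Dvd.dvd.mul_left (f12_off h q s hy n x hx) _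
      · have h3 : (⟨conf p (s + n) (p (s + n) + 1), hbm⟩ : Fin m) = x := Fin.ext h2.symm
        rw [h3]
        refine dvd_add (f12_off h q s hy n x hx) ?_
        by_cases hay : (⟨conf p (s + n) (p (s + n)), ham⟩ : Fin m) = y
        · have h4 : conf p (s + n) (p (s + n)) ≠ i := by
            rw [← hay] at hy
            exact hy
          rw [f12v_ne q h4]
          exact dvd_mul_right _ _
        · exact Dvd.dvd.mul_left (f12_off h q s hy n _ hay) _
      · exact f12_off h q s hy n x hx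
    · rw [stepT_out he (by tauto), one_mul]
      exact f12_off h q s hy n x hx

theorem f12_jj (h : IsTrack m L p) (q : R) {i j : ℕ} (hn : ¬ Crs p i j) (hjT : j ∈ T)
    (hjm : j < m) (s : ℕ) (hij : i < j) :
    ∀ n : ℕ, (1 - q) ^ 2 ∣ dmat m T (f12v q i) p s n ⟨j, hjm⟩ ⟨j, hjm⟩ - q ^ f12c p T j s n
  | 0 => by simp [dmat, f12c]
  | n + 1 => by
    have he := ev_self p (s + n)
    obtain ⟨ham, hbm⟩ := ev_ltm h he
    have ih := f12_jj h q hn hjT hjm s hij n
    show (1 - q) ^ 2 ∣ (stepT m T (f12v q i) p (s + n) * dmat m T (f12v q i) p s n) _ _ -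
      q ^ (f12c p T j s n +
      (if conf p (s + n) (p (s + n)) = j ∧ conf p (s + n) (p (s + n) + 1) ∈ T then 1 else 0))
    have hab := ev_ne he
    by_cases hT : conf p (s + n) (p (s + n)) ∈ T ∧ conf p (s + n) (p (s + n) + 1) ∈ T
    · rw [stepT_mul he hT.1 hT.2 ⟨ham, hbm⟩]
      by_cases h1 : j = conf p (s + n) (p (s + n))
      · have hbi : conf p (s + n) (p (s + n) + 1) ≠ i := by
          intro hbi
          apply hn
          refine ⟨s + n, Or.inr ?_⟩
          rw [← hbi, h1]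
          exact he
        rw [if_pos (show ((⟨j, hjm⟩ : Fin m) : ℕ) = _ from h1), if_pos ⟨h1.symm, hT.2⟩,
          f12v_ne q hbi]
        have h3 : (⟨conf p (s + n) (p (s + n)), ham⟩ : Fin m) = ⟨j, hjm⟩ := Fin.ext h1.symm
        rw [h3, pow_succ q (f12c p T j s n), mul_comm (q ^ _) q, ← mul_sub]
        exact Dvd.dvd.mul_left ih _
      · rw [if_neg (show ¬ ((⟨j, hjm⟩ : Fin m) : ℕ) = conf p (s + n) (p (s + n)) from h1),
          if_neg (show ¬ (conf p (s + n) (p (s + n)) = j ∧ conf p (s + n) (p (s + n) + 1) ∈ T)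
            from fun hh => h1 hh.1.symm), add_zero]
        by_cases h2 : j = conf p (s + n) (p (s + n) + 1)
        · rw [if_pos (show ((⟨j, hjm⟩ : Fin m) : ℕ) = _ from h2)]
          have h3 : (⟨conf p (s + n) (p (s + n) + 1), hbm⟩ : Fin m) = ⟨j, hjm⟩ :=
            Fin.ext h2.symm
          rw [h3, add_sub_right_comm]
          refine dvd_add ih ?_
          have hai : conf p (s + n) (p (s + n)) ≠ i := by
            intro hai
            apply hn
            refine ⟨s + n, Or.inl ?_⟩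
            rw [← hai, h2]
            exact he
          rw [f12v_ne q hai, pow_two]
          refine mul_dvd_mul_left _ (f12_off h q s ?_ n _ ?_)
          · show j ≠ i
            omega
          · intro hh
            exact h1 (congrArg Fin.val hh).symm
        · rw [if_neg (show ¬ ((⟨j, hjm⟩ : Fin m) : ℕ) = _ from h2)]
          exact ih
    · rw [stepT_out he (by tauto), one_mul, if_neg, add_zero]
      · exact ih
      · rintro ⟨h1, h2⟩
        exact hT ⟨by rw [h1]; exact hjT, h2⟩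

theorem f12_kk (h : IsTrack m L p) (q : R) {i k : ℕ} (hki : k ≠ i) (hiT : i ∈ T) (hkT : k ∈ T)
    (hkm : k < m) (s : ℕ) :
    ∀ n : ℕ, (∃ u, s ≤ u ∧ u < s + n ∧ ev p u k i) → ps p (s + n) i < ps p (s + n) k →
      (1 - q) ^ 2 ∣ dmat m T (f12v q i) p s n ⟨k, hkm⟩ ⟨k, hkm⟩
  | 0, ⟨u, h1, h2, _⟩, _ => by omega
  | n + 1, ⟨u, h1, h2, h3⟩, hlt => by
    have he := ev_self p (s + n)
    obtain ⟨ham, hbm⟩ := ev_ltm h he
    show (1 - q) ^ 2 ∣ (stepT m T (f12v q i) p (s + n) * dmat m T (f12v q i) p s n) _ _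
    by_cases hev : ev p (s + n) k i
    · obtain ⟨_, him⟩ := ev_ltm h hev
      rw [stepT_mul hev hkT hiT ⟨hkm, him⟩, if_pos (show ((⟨k, hkm⟩ : Fin m) : ℕ) = k from rfl),
        f12v_self, zero_mul]
      exact dvd_zero _
    · have hu : u < s + n := by
        rcases Nat.lt_or_ge u (s + n) with h4 | h4
        · exact h4
        · have h5 : u = s + n := by omega
          rw [h5] at h3
          exact absurd h3 hev
      have hlt' : ps p (s + n) i < ps p (s + n) k := by
        by_contra hc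
        have h4 : ps p (s + n) k ≠ ps p (s + n) i := fun h5 => hki (ps_inj h5)
        rcases order_succ (p := p) (t := s + n) (s := k) (s' := i) (by omega) with h6 | h6
        · have h7 : s + (n + 1) = s + n + 1 := rfl
          rw [h7] at hlt
          omega
        · exact hev h6
      have ih := f12_kk h q hki hiT hkT hkm s n ⟨u, h1, hu, h3⟩ hlt'
      by_cases hT : conf p (s + n) (p (s + n)) ∈ T ∧ conf p (s + n) (p (s + n) + 1) ∈ T
      · rw [stepT_mul he hT.1 hT.2 ⟨ham, hbm⟩]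
        split_ifs with h4 h5
        · have h6 : (⟨conf p (s + n) (p (s + n)), ham⟩ : Fin m) = ⟨k, hkm⟩ := Fin.ext h4.symm
          rw [h6]
          exact Dvd.dvd.mul_left ih _
        · have h6 : (⟨conf p (s + n) (p (s + n) + 1), hbm⟩ : Fin m) = ⟨k, hkm⟩ :=
            Fin.ext h5.symm
          rw [h6]
          refine dvd_add ih ?_
          have hai : conf p (s + n) (p (s + n)) ≠ i := by
            intro hai
            have h7 : ev p (s + n) i k := by
              rw [← hai, show k = conf p (s + n) (p (s + n) + 1) from h5]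
              exact he
            have h8 := ev_lt' h7
            have h9 : s + (n + 1) = s + n + 1 := rfl
            rw [h9] at hlt
            omega
          rw [f12v_ne q hai, pow_two]
          refine mul_dvd_mul_left _ (f12_off h q s hki n _ ?_)
          intro hh
          exact h4 (congrArg Fin.val hh).symm
        · exact ih
      · rw [stepT_out he (by tauto), one_mul]
        exact ih

end generic

section tr

variable {m L : ℕ} {p : ℕ → ℕ} {T : Finset ℕ}

theorem f12_kk' {R : Type*} [CommRing R] (h : IsTrack m L p) (q : R) {i j : ℕ}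
    (hiT : i ∈ T) (hc : ∀ x ∈ T, x ≠ i → x ≠ j → Crs p x i) {n : ℕ} (hn1 : 1 ≤ n)
    (a : Fin m) (haT : (a : ℕ) ∈ T) (hai : ps p 0 i < ps p 0 a) (haj : (a : ℕ) ≠ j) :
    (1 - q) ^ 2 ∣ dmat m T (f12v q i) p 0 (n * L) a a := by
  have hne : (a : ℕ) ≠ i := by
    intro hh
    rw [hh] at hai
    omega
  obtain ⟨⟨u, hu1, hu2, hu3⟩, _⟩ := crs_both h (hc _ haT hne haj) 0
  have hL := h.Lpos
  refine f12_kk h q hne hiT haT a.2 0 (n * L) ⟨u, hu1, ?_, hu3⟩ ?_
  · have : L ≤ n * L := Nat.le_mul_of_pos_left L hn1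
    omega
  · rw [ps_mul h 0 n, ps_mul h 0 n]
    exact hai

theorem f12_trace (h : IsTrack m L p) (hG : Good m L p) {i j : ℕ} (hij : i < j) (hjm : j < m)
    (hn : ¬ Crs p i j) (hiT : i ∈ T) (hjT : j ∈ T) (hc : ∀ x ∈ T, x ≠ i → x ≠ j → Crs p x i)
    {n : ℕ} (hn1 : 1 ≤ n) :
    ∑ a : Fin m, (if (a : ℕ) ∈ T ∧ ps p 0 i < ps p 0 a then
      dmat m T (f12v (X : ℤ[X]) i) p 0 (n * L) a a else 0) = X ^ f12c p T j 0 (n * L) := by
  have hw : (fun s => if s ∈ ({i} : Finset ℕ) then (0 : ℤ[X]) else X ^ ((fun _ => 1 : ℕ → ℕ) s)) =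
      f12v (X : ℤ[X]) i := by
    funext s
    simp [f12v]
  have hw1 : (fun s => if s ∈ ({i} : Finset ℕ) then (0 : ℤ) else 1) = f12v (1 : ℤ) i := by
    funext s
    simp [f12v]
  have h1 : ∃ d : ℕ, ((dmat m T (fun s => if s ∈ ({i} : Finset ℕ) then (0 : ℤ) else 1) p 0
        (n * L)).toSquareBlockProp fun a => (a : ℕ) ∈ T ∧ ps p 0 i < ps p 0 a).charpoly
          = X ^ d * (X - 1) := by
    rw [hw1]
    have hdiag : ((dmat m T (f12v (1 : ℤ) i) p 0 (n * L)).toSquareBlockProp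
        fun a => (a : ℕ) ∈ T ∧ ps p 0 i < ps p 0 a) =
        Matrix.diagonal fun a : {a : Fin m // (a : ℕ) ∈ T ∧ ps p 0 i < ps p 0 a} =>
          if ((a : Fin m) : ℕ) = j then (1 : ℤ) else 0 := by
      ext x y
      show dmat m T (f12v (1 : ℤ) i) p 0 (n * L) x y = _
      by_cases hxy : x = y
      · subst hxy
        rw [Matrix.diagonal_apply_eq]
        by_cases hxj : ((x : Fin m) : ℕ) = j
        · rw [if_pos hxj]
          have h2 := f12_jj h (1 : ℤ) hn hjT hjm 0 hij (n * L)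
          have h3 : (x : Fin m) = ⟨j, hjm⟩ := Fin.ext hxj
          rw [h3]
          rw [sub_self, one_pow, zero_pow (by norm_num), zero_dvd_iff] at h2
          omega
        · rw [if_neg hxj]
          have h2 := f12_kk' h (1 : ℤ) (j := j) hiT hc hn1 x x.2.1 x.2.2 hxj
          rwa [sub_self, zero_pow (by norm_num), zero_dvd_iff] at h2
      · rw [Matrix.diagonal_apply_ne _ hxy]
        have h2 := f12_off (T := T) h (1 : ℤ) (i := i) 0 (y := y)
          (by
            intro hh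
            have := y.2.2
            rw [hh] at this
            omega) (n * L) x (fun hh => hxy (Subtype.ext hh))
        rwa [sub_self, zero_dvd_iff] at h2
    rw [hdiag, Matrix.charpoly_diagonal]
    have hj0 : (⟨j, hjm⟩ : Fin m).1 ∈ T ∧ ps p 0 i < ps p 0 (⟨j, hjm⟩ : Fin m).1 :=
      ⟨hjT, by rw [ps_zero, ps_zero]; exact hij⟩
    refine ⟨(Finset.univ.erase (⟨⟨j, hjm⟩, hj0⟩ :
      {a : Fin m // (a : ℕ) ∈ T ∧ ps p 0 i < ps p 0 a})).card, ?_⟩
    rw [← Finset.prod_erase_mul Finset.univ _ (Finset.mem_univ (⟨⟨j, hjm⟩, hj0⟩ :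
      {a : Fin m // (a : ℕ) ∈ T ∧ ps p 0 i < ps p 0 a}))]
    rw [if_pos rfl, map_one]
    rw [Finset.prod_congr rfl (g := fun _ => (X : ℤ[X])), Finset.prod_const]
    intro x hx
    have hxj : ((x : Fin m) : ℕ) ≠ j := by
      intro hh
      exact (Finset.mem_erase.1 hx).1 (Subtype.ext (Fin.ext hh))
    rw [if_neg hxj, map_zero, sub_zero]
  obtain ⟨k, hk⟩ := rank_one h hG T {i} 1 (fun _ => 1) le_rfl (fun _ => Or.inl rfl) hiT
    (Finset.mem_singleton_self i) 0 n h1
  rw [hw] at hk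
  -- congruence modulo (1 - X)^2
  have hdvd : (1 - X : ℤ[X]) ^ 2 ∣ X ^ k - X ^ f12c p T j 0 (n * L) := by
    rw [← hk, ← Finset.add_sum_erase _ _ (Finset.mem_univ (⟨j, hjm⟩ : Fin m))]
    rw [if_pos (show ((⟨j, hjm⟩ : Fin m) : ℕ) ∈ T ∧ ps p 0 i < ps p 0 (⟨j, hjm⟩ : Fin m) from
      ⟨hjT, by rw [ps_zero, ps_zero]; exact hij⟩), add_sub_right_comm]
    refine dvd_add (f12_jj h (X : ℤ[X]) hn hjT hjm 0 hij (n * L)) (Finset.dvd_sum ?_)
    intro a ha
    split_ifs with h2
    · refine f12_kk' h (X : ℤ[X]) (j := j) hiT hc hn1 a h2.1 h2.2 ?_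
      intro hh
      exact (Finset.mem_erase.1 ha).1 (Fin.ext hh)
    · exact dvd_zero _
  have hkc : (k : ℤ) = f12c p T j 0 (n * L) := by
    obtain ⟨g, hg⟩ := hdvd
    have h2 := congrArg (fun f => (derivative f).eval 1) hg
    simp only [derivative_sub, derivative_mul, derivative_pow, eval_sub,
      eval_mul, eval_add, eval_pow, eval_X, eval_one, one_pow, mul_one, eval_C] at h2
    simp only [sub_self] at h2
    norm_num at h2
    linarith
  rw [hk]
  congr 1
  exact_mod_cast hkc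

theorem f12_gt (h : IsTrack m L p) {i j l u : ℕ} (hij : i < j) (hjm : j < m)
    (hn : ¬ Crs p i j) (hjT : j ∈ T) (hlT : l ∈ T) (hlm : l < m)
    (hl : ev p u l j) (hli : l ≠ i)
    (hpos : 0 < dmat m T (f12v (1 / 2 : ℝ) i) p 0 u ⟨l, hlm⟩ ⟨j, hjm⟩) :
    ∀ n, ((1 / 2 : ℝ) ^ f12c p T j 0 n ≤ dmat m T (f12v (1 / 2 : ℝ) i) p 0 n ⟨j, hjm⟩ ⟨j, hjm⟩) ∧
      (u < n → (1 / 2 : ℝ) ^ f12c p T j 0 n <
        dmat m T (f12v (1 / 2 : ℝ) i) p 0 n ⟨j, hjm⟩ ⟨j, hjm⟩)
  | 0 => by simp [dmat, f12c]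
  | n + 1 => by
    have h0 : ∀ s, 0 ≤ f12v (1 / 2 : ℝ) i s := by
      intro s
      unfold f12v
      split_ifs <;> norm_num
    have h1 : ∀ s, f12v (1 / 2 : ℝ) i s ≤ 1 := by
      intro s
      unfold f12v
      split_ifs <;> norm_num
    have he := ev_self p (0 + n)
    obtain ⟨ham, hbm⟩ := ev_ltm h he
    obtain ⟨ih1, ih2⟩ := f12_gt h hij hjm hn hjT hlT hlm hl hli hpos n
    have hlj := ev_ne hl
    have hun : u < n + 1 → u < n ∨ (u = n ∧ conf p (0 + n) (p (0 + n)) = l ∧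
        conf p (0 + n) (p (0 + n) + 1) = j) := by
      intro h2
      rcases Nat.lt_or_ge u n with h3 | h3
      · exact Or.inl h3
      · have h4 : u = n := by omega
        right
        refine ⟨h4, ?_⟩
        have h5 := hl
        rw [h4] at h5
        rw [Nat.zero_add]
        exact h5
    show ((1 / 2 : ℝ) ^ (f12c p T j 0 n +
      (if conf p (0 + n) (p (0 + n)) = j ∧ conf p (0 + n) (p (0 + n) + 1) ∈ T then 1 else 0)) ≤
        (stepT m T (f12v (1 / 2 : ℝ) i) p (0 + n) * dmat m T (f12v (1 / 2 : ℝ) i) p 0 n) _ _) ∧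
      (u < n + 1 → (1 / 2 : ℝ) ^ (f12c p T j 0 n +
      (if conf p (0 + n) (p (0 + n)) = j ∧ conf p (0 + n) (p (0 + n) + 1) ∈ T then 1 else 0)) <
        (stepT m T (f12v (1 / 2 : ℝ) i) p (0 + n) * dmat m T (f12v (1 / 2 : ℝ) i) p 0 n) _ _)
    by_cases hT : conf p (0 + n) (p (0 + n)) ∈ T ∧ conf p (0 + n) (p (0 + n) + 1) ∈ T
    · rw [stepT_mul he hT.1 hT.2 ⟨ham, hbm⟩]
      by_cases h2 : j = conf p (0 + n) (p (0 + n))
      · have hbi : conf p (0 + n) (p (0 + n) + 1) ≠ i := by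
          intro hbi
          apply hn
          refine ⟨0 + n, Or.inr ?_⟩
          rw [← hbi, h2]
          exact he
        rw [if_pos (show ((⟨j, hjm⟩ : Fin m) : ℕ) = _ from h2), if_pos ⟨h2.symm, hT.2⟩,
          f12v_ne _ hbi]
        have h3 : (⟨conf p (0 + n) (p (0 + n)), ham⟩ : Fin m) = ⟨j, hjm⟩ := Fin.ext h2.symm
        rw [h3, pow_succ]
        refine ⟨by linarith, fun h4 => ?_⟩
        rcases hun h4 with h5 | ⟨_, h5, _⟩
        · linarith [ih2 h5]
        · exact absurd (h5.symm.trans h2.symm) hlj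
      · rw [if_neg (show ¬ ((⟨j, hjm⟩ : Fin m) : ℕ) = conf p (0 + n) (p (0 + n)) from h2),
          if_neg (show ¬ (conf p (0 + n) (p (0 + n)) = j ∧ conf p (0 + n) (p (0 + n) + 1) ∈ T)
            from fun hh => h2 hh.1.symm), add_zero]
        by_cases h3 : j = conf p (0 + n) (p (0 + n) + 1)
        · rw [if_pos (show ((⟨j, hjm⟩ : Fin m) : ℕ) = _ from h3)]
          have h4 : (⟨conf p (0 + n) (p (0 + n) + 1), hbm⟩ : Fin m) = ⟨j, hjm⟩ :=
            Fin.ext h3.symm
          rw [h4]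
          have hnn := dmat_nonneg (m := m) (p := p) (T := T) h0 h1 0 n
            ⟨conf p (0 + n) (p (0 + n)), ham⟩ ⟨j, hjm⟩
          have h5 := h1 (conf p (0 + n) (p (0 + n)))
          have h6 : 0 ≤ (1 - f12v (1 / 2 : ℝ) i (conf p (0 + n) (p (0 + n)))) *
              dmat m T (f12v (1 / 2 : ℝ) i) p 0 n ⟨conf p (0 + n) (p (0 + n)), ham⟩ ⟨j, hjm⟩ :=
            mul_nonneg (by linarith) hnn
          refine ⟨by linarith, fun h7 => ?_⟩
          rcases hun h7 with h8 | ⟨h8, h9, _⟩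
          · linarith [ih2 h8]
          · have h10 : (⟨conf p (0 + n) (p (0 + n)), ham⟩ : Fin m) = ⟨l, hlm⟩ := Fin.ext h9
            rw [h10, h9, f12v_ne _ hli]
            rw [h8] at hpos
            linarith
        · rw [if_neg (show ¬ ((⟨j, hjm⟩ : Fin m) : ℕ) = _ from h3)]
          refine ⟨ih1, fun h7 => ?_⟩
          rcases hun h7 with h8 | ⟨_, _, h9⟩
          · exact ih2 h8
          · exact absurd h9.symm h3
    · rw [stepT_out he (by tauto), one_mul, if_neg, add_zero]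
      · refine ⟨ih1, fun h7 => ?_⟩
        rcases hun h7 with h8 | ⟨_, h9, h10⟩
        · exact ih2 h8
        · exact absurd ⟨by rw [h9]; exact hlT, by rw [h10]; exact hjT⟩ hT
      · rintro ⟨h2, h3⟩
        exact hT ⟨by rw [h2]; exact hjT, h3⟩

/-- The main contradiction. -/
theorem f12_core (h : IsTrack m L p) (hG : Good m L p) {i j l u : ℕ} (hij : i < j) (hjm : j < m)
    (hn : ¬ Crs p i j) (hiT : i ∈ T) (hjT : j ∈ T) (hc : ∀ x ∈ T, x ≠ i → x ≠ j → Crs p x i)
    (hlT : l ∈ T) (hlm : l < m) (hl : ev p u l j)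
    (hpos : 0 < dmat m T (f12v (1 / 2 : ℝ) i) p 0 u ⟨l, hlm⟩ ⟨j, hjm⟩) : False := by
  have hli : l ≠ i := by
    intro hh
    apply hn
    refine ⟨u, Or.inl ?_⟩
    rw [← hh]
    exact hl
  have hL := h.Lpos
  have hu : u < (u + 1) * L := by
    have : u + 1 ≤ (u + 1) * L := Nat.le_mul_of_pos_right _ hL
    omega
  have h1 := (f12_gt h hij hjm hn hjT hlT hlm hl hli hpos ((u + 1) * L)).2 hu
  have h2 := f12_trace h hG hij hjm hn hiT hjT hc (n := u + 1) (by omega)
  have h3 := congrArg (Polynomial.eval₂RingHom (Int.castRingHom ℝ) (1 / 2 : ℝ)) h2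
  rw [map_sum, map_pow] at h3
  have h4 : ∀ a : Fin m, (Polynomial.eval₂RingHom (Int.castRingHom ℝ) (1 / 2 : ℝ))
      (if (a : ℕ) ∈ T ∧ ps p 0 i < ps p 0 a then
        dmat m T (f12v (X : ℤ[X]) i) p 0 ((u + 1) * L) a a else 0) =
      if (a : ℕ) ∈ T ∧ ps p 0 i < ps p 0 a then
        dmat m T (f12v (1 / 2 : ℝ) i) p 0 ((u + 1) * L) a a else 0 := by
    intro a
    split_ifs with h5
    · have h6 := congrFun (congrFun (dmat_map (Polynomial.eval₂RingHom (Int.castRingHom ℝ)
        (1 / 2 : ℝ)) m T (f12v (X : ℤ[X]) i) p 0 ((u + 1) * L)) a) a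
      rw [Matrix.map_apply] at h6
      rw [h6]
      have h7 : (fun x => (Polynomial.eval₂RingHom (Int.castRingHom ℝ) (1 / 2 : ℝ))
          (f12v (X : ℤ[X]) i x)) = f12v (1 / 2 : ℝ) i := by
        funext x
        unfold f12v
        split_ifs
        · exact map_zero _
        · simp
      rw [h7]
    · exact map_zero _
  rw [Finset.sum_congr rfl fun a _ => h4 a] at h3
  have h0 : ∀ s, 0 ≤ f12v (1 / 2 : ℝ) i s := by
    intro s
    unfold f12v
    split_ifs <;> norm_num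
  have h1' : ∀ s, f12v (1 / 2 : ℝ) i s ≤ 1 := by
    intro s
    unfold f12v
    split_ifs <;> norm_num
  have h5 : dmat m T (f12v (1 / 2 : ℝ) i) p 0 ((u + 1) * L) ⟨j, hjm⟩ ⟨j, hjm⟩ ≤
      ∑ a : Fin m, (if (a : ℕ) ∈ T ∧ ps p 0 i < ps p 0 a then
        dmat m T (f12v (1 / 2 : ℝ) i) p 0 ((u + 1) * L) a a else 0) := by
    refine le_trans (le_of_eq ?_) (Finset.single_le_sum
      (f := fun a : Fin m => if (a : ℕ) ∈ T ∧ ps p 0 i < ps p 0 a then
        dmat m T (f12v (1 / 2 : ℝ) i) p 0 ((u + 1) * L) a a else 0) ?_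
      (Finset.mem_univ (⟨j, hjm⟩ : Fin m)))
    · show _ = if ((⟨j, hjm⟩ : Fin m) : ℕ) ∈ T ∧ ps p 0 i < ps p 0 (⟨j, hjm⟩ : Fin m) then
        dmat m T (f12v (1 / 2 : ℝ) i) p 0 ((u + 1) * L) ⟨j, hjm⟩ ⟨j, hjm⟩ else 0
      rw [if_pos]
      exact ⟨hjT, by rw [ps_zero, ps_zero]; exact hij⟩
    · intro a _
      show 0 ≤ if (a : ℕ) ∈ T ∧ ps p 0 i < ps p 0 a then
        dmat m T (f12v (1 / 2 : ℝ) i) p 0 ((u + 1) * L) a a else 0
      split_ifs
      · exact dmat_nonneg h0 h1' _ _ _ _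
      · exact le_rfl
  rw [h3] at h5
  have h6 : (Polynomial.eval₂RingHom (Int.castRingHom ℝ) (1 / 2 : ℝ)) X = 1 / 2 := by simp
  rw [h6] at h5
  linarith

/-- staying right of the wall `i` after a jump to `k` at time `s` -/
theorem f12_stay {i k s t : ℕ} (hkm : k < m) (hst : s < t)
    (hr : ps p (s + 1) i < ps p (s + 1) k) (hno : ∀ u, s < u → u < t → ¬ ev p u i k) :
    0 < dmat m T (f12v (1 / 2 : ℝ) i) p (s + 1) (t - (s + 1)) ⟨k, hkm⟩ ⟨k, hkm⟩ := by
  have h0 : ∀ s, 0 ≤ f12v (1 / 2 : ℝ) i s := by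
    intro s
    unfold f12v
    split_ifs <;> norm_num
  have h1 : ∀ s, f12v (1 / 2 : ℝ) i s ≤ 1 := by
    intro s
    unfold f12v
    split_ifs <;> norm_num
  refine dmat_stay h0 h1 ?_
  intro u b hu1 hu2 _ he
  have hbi : b ≠ i := by
    intro hh
    rw [hh] at he
    have h2 := ev_lt he
    have h3 : ps p u i < ps p u k := order_keep (t := s + 1) (t' := u) hu1 hr
      fun v hv1 hv2 => hno v (by omega) (by omega)
    have h4 : ps p u ((⟨k, hkm⟩ : Fin m) : ℕ) < ps p u i := h2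
    change ps p u k < ps p u i at h4
    omega
  rw [f12v_ne _ hbi]
  norm_num

/-- staying on `j`, which never meets the wall -/
theorem f12_stayj {i j : ℕ} (hjm : j < m) (hn : ¬ Crs p i j) (n : ℕ) :
    0 < dmat m T (f12v (1 / 2 : ℝ) i) p 0 n ⟨j, hjm⟩ ⟨j, hjm⟩ := by
  have h0 : ∀ s, 0 ≤ f12v (1 / 2 : ℝ) i s := by
    intro s
    unfold f12v
    split_ifs <;> norm_num
  have h1 : ∀ s, f12v (1 / 2 : ℝ) i s ≤ 1 := by
    intro s
    unfold f12v
    split_ifs <;> norm_num
  refine dmat_stay h0 h1 ?_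
  intro u b _ _ _ he
  have hbi : b ≠ i := by
    intro hh
    rw [hh] at he
    exact hn ⟨u, Or.inr he⟩
  rw [f12v_ne _ hbi]
  norm_num

/-- after the crossing `(a, b)` the strand `b` is to the right of `i` if `a` was -/
theorem f12_right {i a b t : ℕ} (he : ev p t a b) (hi : ps p t i < ps p t a) (hib : i ≠ b) :
    ps p (t + 1) i < ps p (t + 1) b := by
  have hia : i ≠ a := by
    intro hh
    rw [hh] at hi
    omega
  rw [ps_succ_ne he hia hib, ps_succ_right he, ← (ev_ps.1 he).1]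
  exact hi

/-- positivity is transported by a jump from `a` to `b` and staying on `b` -/
theorem f12_chain {i a b s t : ℕ} {y : Fin m} (ham : a < m) (hbm : b < m) (haT : a ∈ T)
    (hbT : b ∈ T) (hai : a ≠ i) (hst : s < t) (he : ev p s a b)
    (hpos : 0 < dmat m T (f12v (1 / 2 : ℝ) i) p 0 s ⟨a, ham⟩ y)
    (hstay : 0 < dmat m T (f12v (1 / 2 : ℝ) i) p (s + 1) (t - (s + 1)) ⟨b, hbm⟩ ⟨b, hbm⟩) :
    0 < dmat m T (f12v (1 / 2 : ℝ) i) p 0 t ⟨b, hbm⟩ y := by
  have h0 : ∀ s, 0 ≤ f12v (1 / 2 : ℝ) i s := by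
    intro s
    unfold f12v
    split_ifs <;> norm_num
  have h1 : ∀ s, f12v (1 / 2 : ℝ) i s ≤ 1 := by
    intro s
    unfold f12v
    split_ifs <;> norm_num
  have hj : dmat m T (f12v (1 / 2 : ℝ) i) p s 1 ⟨b, hbm⟩ ⟨a, ham⟩ = 1 - f12v (1 / 2 : ℝ) i a :=
    dmat_jump (a := ⟨a, ham⟩) (b := ⟨b, hbm⟩) he haT hbT
  rw [f12v_ne _ hai] at hj
  have h2 := dmat_ge (m := m) (p := p) (T := T) h0 h1 0 s 1 ⟨b, hbm⟩ ⟨a, ham⟩ y
  rw [Nat.zero_add, hj] at h2
  have h3 : 0 < dmat m T (f12v (1 / 2 : ℝ) i) p 0 (s + 1) ⟨b, hbm⟩ y := by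
    have : (0 : ℝ) < (1 - 1 / 2) * dmat m T (f12v (1 / 2 : ℝ) i) p 0 s ⟨a, ham⟩ y :=
      mul_pos (by norm_num) hpos
    linarith
  have h4 := dmat_ge (m := m) (p := p) (T := T) h0 h1 0 (s + 1) (t - (s + 1)) ⟨b, hbm⟩
    ⟨b, hbm⟩ y
  rw [Nat.zero_add, show s + 1 + (t - (s + 1)) = t by omega] at h4
  exact lt_of_lt_of_le (mul_pos hstay h3) h4

end tr

theorem noRR_noBad {m L : ℕ} {p : ℕ → ℕ} (h : IsTrack m L p) (hG : Good m L p) : NoRR m p ∧ NoBad m p := by
  constructor
  · intro i j k s t hij hjm hkm hn hki hst hs ht hno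
    have hjk := ev_ne hs
    have hik : i ≠ k := by
      rintro rfl
      obtain ⟨u, hu | hu⟩ := hki
      · exact ev_ne hu rfl
      · exact ev_ne hu rfl
    have hir : ps p (s + 1) i < ps p (s + 1) k := f12_right hs (never_lt hn hij s) hik
    refine f12_core (T := {i, j, k}) h hG hij hjm hn (by simp) (by simp) ?_ (l := k) (u := t)
      (by simp) hkm ht ?_
    · intro x hx hxi hxj
      simp only [Finset.mem_insert, Finset.mem_singleton] at hx
      rcases hx with rfl | rfl | rfl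
      · exact absurd rfl hxi
      · exact absurd rfl hxj
      · exact hki
    · exact f12_chain (a := j) (b := k) (s := s) (t := t) hjm hkm (by simp) (by simp)
        (by omega) hst hs (f12_stayj hjm hn s) (f12_stay hkm hst hir hno)
  · intro i j k l s t u hij hjm hkm hlm hn hki hli hst htu hs ht hu hno1 hno2
    have hik : i ≠ k := by
      rintro rfl
      obtain ⟨u, hu | hu⟩ := hki
      · exact ev_ne hu rfl
      · exact ev_ne hu rfl
    have hil : i ≠ l := by
      rintro rfl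
      obtain ⟨u, hu | hu⟩ := hli
      · exact ev_ne hu rfl
      · exact ev_ne hu rfl
    have hir : ps p (s + 1) i < ps p (s + 1) k := f12_right hs (never_lt hn hij s) hik
    have hirt : ps p t i < ps p t k := order_keep (t := s + 1) (t' := t) hst hir
      fun v hv1 hv2 => hno1 v (by omega) (by omega)
    have hir2 : ps p (t + 1) i < ps p (t + 1) l := f12_right ht hirt hil
    refine f12_core (T := {i, j, k, l}) h hG hij hjm hn (by simp) (by simp) ?_ (l := l) (u := u)
      (by simp) hlm hu ?_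
    · intro x hx hxi hxj
      simp only [Finset.mem_insert, Finset.mem_singleton] at hx
      rcases hx with rfl | rfl | rfl | rfl
      · exact absurd rfl hxi
      · exact absurd rfl hxj
      · exact hki
      · exact hli
    · refine f12_chain (a := k) (b := l) (s := t) (t := u) hkm hlm (by simp) (by simp)
        (Ne.symm hik) htu ht ?_ (f12_stay hlm htu hir2 hno2)
      exact f12_chain (a := j) (b := k) (s := s) (t := t) hjm hkm (by simp) (by simp)
        (by omega) hst hs (f12_stayj hjm hn s) (f12_stay hkm hst hir hno1)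

end Pool.Agent.AMU
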