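import Pool.Agent.AMU0.Base

open Matrix

namespace Pool.Agent.AMU

variable {R : Type*} [CommRing R]

theorem gl_map {S : Type*} [CommRing S] (g : R →+* S) (c : ℕ → ℕ) (Q Qi : R)
    (w : List (ℕ × Bool)) (f : ℕ → R) (p : ℕ) :
    g (gl c Q Qi w f p) = gl c (g Q) (g Qi) w (fun x => g (f x)) p := by
  induction w generalizing p with
  | nil => rfl
  | cons x w ih =>
    show g (glet (outc c w) Q Qi x (gl c Q Qi w f) p) =
      glet (outc c w) (g Q) (g Qi) x (gl c (g Q) (g Qi) w (fun x => g (f x))) p
    unfold glet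
    split_ifs <;> simp only [map_mul, map_add, map_sub, map_one, map_pow, ih]

theorem gl_add (c : ℕ → ℕ) (Q Qi : R) (w : List (ℕ × Bool)) (f f' : ℕ → R) :
    gl c Q Qi w (f + f') = gl c Q Qi w f + gl c Q Qi w f' := by
  induction w with
  | nil => rfl
  | cons x w ih =>
    show glet (outc c w) Q Qi x (gl c Q Qi w (f + f')) =
      glet (outc c w) Q Qi x (gl c Q Qi w f) + glet (outc c w) Q Qi x (gl c Q Qi w f')
    rw [ih]
    funext p
    simp only [glet, Pi.add_apply]
    split_ifs <;> ring

theorem gl_smul (c : ℕ → ℕ) (Q Qi : R) (w : List (ℕ × Bool)) (a : R) (f : ℕ → R) :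
    gl c Q Qi w (a • f) = a • gl c Q Qi w f := by
  induction w with
  | nil => rfl
  | cons x w ih =>
    show glet (outc c w) Q Qi x (gl c Q Qi w (a • f)) =
      a • glet (outc c w) Q Qi x (gl c Q Qi w f)
    rw [ih]
    funext p
    simp only [glet, Pi.smul_apply, smul_eq_mul]
    split_ifs <;> ring

private lemma gl_swap_lt {m i p : ℕ} (hi : i + 1 < m) (hp : p < m) :
    Equiv.swap i (i + 1) p < m := by
  by_cases h1 : p = i
  · rw [h1, Equiv.swap_apply_left]; exact hi
  · by_cases h2 : p = i + 1
    · rw [h2, Equiv.swap_apply_right]; omega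
    · rw [Equiv.swap_apply_of_ne_of_ne h1 h2]; exact hp

private lemma gl_outl_ge {m p : ℕ} (hp : m ≤ p) : ∀ {w : List (ℕ × Bool)}, Letters m w →
    outl p w = p
  | [], _ => rfl
  | x :: w, hw => by
    have h1 := gl_outl_ge hp (w := w) fun x hx => hw x (by simp [hx])
    have h2 := hw x (by simp)
    rw [outl, h1, Equiv.swap_apply_of_ne_of_ne (by omega) (by omega)]

private lemma gl_deleted_aux {m : ℕ} (c : ℕ → ℕ) (Q Qi : R) (f : ℕ → R) {p : ℕ}
    (h : m ≤ p ∨ c p = 0) : ∀ {w : List (ℕ × Bool)}, Letters m w →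
    gl c Q Qi w f (outl p w) = f p
  | [], _ => rfl
  | x :: w, hw => by
    have hw' : Letters m w := fun x hx => hw x (by simp [hx])
    have h1 := gl_deleted_aux c Q Qi f h hw'
    have h2 := hw x (by simp)
    show glet (outc c w) Q Qi x (gl c Q Qi w f) (Equiv.swap x.1 (x.1 + 1) (outl p w)) = f p
    set F := gl c Q Qi w f with hF
    by_cases hd : outc c w x.1 = 0 ∨ outc c w (x.1 + 1) = 0
    · unfold glet
      rw [if_pos hd, Equiv.swap_apply_self]
      exact h1
    · have h3 : outl p w ≠ x.1 ∧ outl p w ≠ x.1 + 1 := by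
        rcases h with h | h
        · rw [gl_outl_ge h hw']
          omega
        · have h4 := outc_outl c p w
          rw [h] at h4
          constructor
          · intro h5
            exact hd (Or.inl (h5 ▸ h4))
          · intro h5
            exact hd (Or.inr (h5 ▸ h4))
      rw [Equiv.swap_apply_of_ne_of_ne h3.1 h3.2]
      unfold glet
      rw [if_neg hd, if_neg h3.1, if_neg h3.2, if_neg h3.1, if_neg h3.2]
      simpa using h1

/-- a pure word acts trivially on deleted strands and beyond `m` -/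
theorem gl_deleted {m : ℕ} {w : List (ℕ × Bool)} (hw : PureWord m w) (c : ℕ → ℕ) (Q Qi : R)
    (f : ℕ → R) {p : ℕ} (h : m ≤ p ∨ c p = 0) : gl c Q Qi w f p = f p := by
  have h1 := gl_deleted_aux c Q Qi f h hw.1
  rwa [hw.2 p] at h1

private lemma gl_indep_aux {m : ℕ} (c : ℕ → ℕ) (Q Qi : R) {f f' : ℕ → R}
    (h : ∀ x, x < m → 0 < c x → f x = f' x) : ∀ {w : List (ℕ × Bool)}, Letters m w →
    ∀ p, p < m → 0 < outc c w p → gl c Q Qi w f p = gl c Q Qi w f' p
  | [], _, p, hp, hc => h p hp hc
  | x :: w, hw, p, hp, hc => by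
    have hw' : Letters m w := fun x hx => hw x (by simp [hx])
    have ih := gl_indep_aux c Q Qi h hw'
    have h2 := hw x (by simp)
    show glet (outc c w) Q Qi x (gl c Q Qi w f) p = glet (outc c w) Q Qi x (gl c Q Qi w f') p
    have hc' : 0 < outc c w (Equiv.swap x.1 (x.1 + 1) p) := hc
    unfold glet
    by_cases hd : outc c w x.1 = 0 ∨ outc c w (x.1 + 1) = 0
    · rw [if_pos hd, if_pos hd]
      exact ih _ (gl_swap_lt h2 hp) hc'
    · have hi := ih x.1 (by omega) (Nat.pos_of_ne_zero fun h => hd (Or.inl h))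
      have hi' := ih (x.1 + 1) h2 (Nat.pos_of_ne_zero fun h => hd (Or.inr h))
      rw [if_neg hd, if_neg hd, hi, hi']
      by_cases h3 : p = x.1
      · subst h3
        simp
      · by_cases h4 : p = x.1 + 1
        · subst h4
          simp
        · rw [Equiv.swap_apply_of_ne_of_ne h3 h4] at hc'
          rw [if_neg h3, if_neg h4, if_neg h3, if_neg h4, if_neg h4, if_neg h3, if_neg h3,
            if_neg h4, ih p hp hc']

/-- the values at the strands which are not deleted do not depend on the other values -/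
theorem gl_indep {m : ℕ} {w : List (ℕ × Bool)} (hw : PureWord m w) (c : ℕ → ℕ) (Q Qi : R)
    {f f' : ℕ → R} (h : ∀ x, x < m → 0 < c x → f x = f' x) {p : ℕ} (hp : p < m) (hc : 0 < c p) :
    gl c Q Qi w f p = gl c Q Qi w f' p :=
  gl_indep_aux c Q Qi h hw.1 p hp (by rw [outc_pure hw c]; exact hc)

private lemma gl_sum_two {m i : ℕ} (hi : i + 1 < m) (g : ℕ → R) :
    ∑ l ∈ Finset.range m, g l = g i + g (i + 1) +
      ∑ l ∈ ((Finset.range m).erase i).erase (i + 1), g l := by
  rw [← Finset.add_sum_erase (Finset.range m) g (Finset.mem_range.2 (show i < m by omega)),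
    ← Finset.add_sum_erase ((Finset.range m).erase i) g (a := i + 1)
      (Finset.mem_erase.2 ⟨by omega, Finset.mem_range.2 hi⟩), add_assoc]

private lemma gl_phi_letter {m : ℕ} (c : ℕ → ℕ) {Q Qi : R} (hQ : Q * Qi = 1) (x : ℕ × Bool)
    (hx : x.1 + 1 < m) (f : ℕ → R) :
    ∑ l ∈ Finset.range m, (1 - Q ^ cs c x.1 l) * glet c Q Qi x f l =
      ∑ l ∈ Finset.range m, (1 - Q ^ c l) * f l := by
  rw [gl_sum_two hx, gl_sum_two hx]
  have hrest : ∑ l ∈ ((Finset.range m).erase x.1).erase (x.1 + 1),
      (1 - Q ^ cs c x.1 l) * glet c Q Qi x f l =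
      ∑ l ∈ ((Finset.range m).erase x.1).erase (x.1 + 1), (1 - Q ^ c l) * f l := by
    refine Finset.sum_congr rfl fun l hl => ?_
    obtain ⟨h1, h2⟩ := Finset.mem_erase.1 hl
    have h3 := (Finset.mem_erase.1 h2).1
    rw [cs_apply_ne c h3 h1]
    unfold glet
    rw [Equiv.swap_apply_of_ne_of_ne h3 h1, if_neg h1, if_neg h3, if_neg h3, if_neg h1]
    split_ifs <;> rfl
  rw [hrest, cs_apply_left, cs_apply_right]
  congr 1
  unfold glet
  by_cases hd : c x.1 = 0 ∨ c (x.1 + 1) = 0
  · rw [if_pos hd, if_pos hd, Equiv.swap_apply_left, Equiv.swap_apply_right]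
    ring
  · rw [if_neg hd, if_neg hd]
    have h1 : x.1 ≠ x.1 + 1 := by omega
    rcases x with ⟨i, s⟩
    cases s
    · have h2 : Q ^ c i * Qi ^ c i = 1 := by rw [← mul_pow, hQ, one_pow]
      simp only [Bool.false_eq_true, if_false, if_true, Nat.succ_ne_self]
      linear_combination (1 - Q ^ c (i + 1)) * f (i + 1) * h2
    · have h3 : i ≠ i + 1 := h1
      simp only [if_true, if_neg h3, Nat.succ_ne_self, if_false]
      ring

private lemma gl_phi_aux {m : ℕ} (c : ℕ → ℕ) {Q Qi : R} (hQ : Q * Qi = 1) (f : ℕ → R) :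
    ∀ {w : List (ℕ × Bool)}, Letters m w →
    ∑ l ∈ Finset.range m, (1 - Q ^ outc c w l) * gl c Q Qi w f l =
      ∑ l ∈ Finset.range m, (1 - Q ^ c l) * f l
  | [], _ => rfl
  | x :: w, hw => by
    have hw' : Letters m w := fun x hx => hw x (by simp [hx])
    rw [← gl_phi_aux c hQ f hw']
    exact gl_phi_letter (outc c w) hQ x (hw x (by simp)) (gl c Q Qi w f)

/-- the invariant functional -/
theorem gl_phi {m : ℕ} {w : List (ℕ × Bool)} (hw : PureWord m w) (c : ℕ → ℕ) {Q Qi : R}
    (hQ : Q * Qi = 1) (f : ℕ → R) : ∑ l ∈ Finset.range m, (1 - Q ^ c l) * gl c Q Qi w f l =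
      ∑ l ∈ Finset.range m, (1 - Q ^ c l) * f l := by
  have h := gl_phi_aux c hQ f hw.1
  rwa [outc_pure hw c] at h

/-- the matrix of a letter -/
private def glLet (m : ℕ) (c : ℕ → ℕ) (Q Qi : R) (x : ℕ × Bool) : Matrix (Fin m) (Fin m) R :=
  Matrix.of fun a b : Fin m => glet c Q Qi x (fun p => if p = b then 1 else 0) a

private lemma glet_sum {m : ℕ} (c : ℕ → ℕ) (Q Qi : R) (x : ℕ × Bool) (hx : x.1 + 1 < m)
    (f : ℕ → R) {p : ℕ} (hp : p < m) :
    glet c Q Qi x f p =
      ∑ b : Fin m, glet c Q Qi x (fun p => if p = (b : ℕ) then 1 else 0) p * f b := by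
  have key : ∀ a, a < m → ∑ b : Fin m, (if a = (b : ℕ) then (1 : R) else 0) * f b = f a := by
    intro a ha
    rw [Finset.sum_eq_single (⟨a, ha⟩ : Fin m)]
    · simp
    · intro b _ hb
      rw [if_neg, zero_mul]
      intro h
      exact hb (Fin.ext h.symm)
    · intro h
      exact absurd (Finset.mem_univ _) h
  have hi : x.1 < m := by omega
  unfold glet
  by_cases hd : c x.1 = 0 ∨ c (x.1 + 1) = 0
  · simp only [if_pos hd]
    exact (key _ (gl_swap_lt hx hp)).symm
  · simp only [if_neg hd]
    rcases x with ⟨i, s⟩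
    cases s
    · simp only [Bool.false_eq_true, if_false]
      by_cases h1 : p = i
      · simp only [if_pos h1]
        rw [← key (i + 1) hx, Finset.mul_sum]
        refine Finset.sum_congr rfl fun b _ => by ring
      · simp only [if_neg h1]
        by_cases h2 : p = i + 1
        · simp only [if_pos h2]
          rw [← key (i + 1) hx, ← key i hi, Finset.mul_sum, ← Finset.sum_sub_distrib]
          refine Finset.sum_congr rfl fun b _ => by ring
        · simp only [if_neg h2]
          exact (key p hp).symm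
    · simp only [if_true]
      by_cases h2 : p = i + 1
      · simp only [if_pos h2]
        rw [← key i hi, Finset.mul_sum]
        refine Finset.sum_congr rfl fun b _ => by ring
      · simp only [if_neg h2]
        by_cases h1 : p = i
        · simp only [if_pos h1]
          rw [← key (i + 1) hx, ← key i hi, Finset.mul_sum, ← Finset.sum_add_distrib]
          refine Finset.sum_congr rfl fun b _ => by ring
        · simp only [if_neg h1]
          exact (key p hp).symm

private lemma gl_mat_cons {m : ℕ} (c : ℕ → ℕ) (Q Qi : R) (x : ℕ × Bool) (w : List (ℕ × Bool))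
    (hx : x.1 + 1 < m) :
    (Matrix.of fun a b : Fin m => gl c Q Qi (x :: w) (fun p => if p = b then 1 else 0) a) =
      glLet m (outc c w) Q Qi x *
        Matrix.of fun a b : Fin m => gl c Q Qi w (fun p => if p = b then 1 else 0) a := by
  ext a b
  rw [mul_apply]
  show glet (outc c w) Q Qi x (gl c Q Qi w (fun p => if p = (b : ℕ) then 1 else 0)) a = _
  rw [glet_sum (outc c w) Q Qi x hx _ a.2]
  rfl

private lemma gl_det_letter {m : ℕ} (c : ℕ → ℕ) (Q Qi : R) (x : ℕ × Bool) (hx : x.1 + 1 < m) :
    ∃ a b : ℕ, (glLet m c Q Qi x).det = -(Q ^ a * Qi ^ b) := by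
  obtain ⟨i, s⟩ := x
  have hx' : i + 1 < m := hx
  have hi : i < m := by omega
  set I : Fin m := ⟨i, hi⟩ with hI
  set J : Fin m := ⟨i + 1, hx'⟩ with hJ
  have hIJ : I ≠ J := by
    intro h
    have := congrArg Fin.val h
    simp only [hI, hJ] at this
    omega
  have hperm := det_permute (Equiv.swap I J) (glLet m c Q Qi (i, s))
  rw [Equiv.Perm.sign_swap hIJ] at hperm
  set L' := (glLet m c Q Qi (i, s)).submatrix (Equiv.swap I J) id with hL'
  have hdet : (glLet m c Q Qi (i, s)).det = - L'.det := by
    rw [hperm]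
    simp
  rw [hdet]
  have hsw : ∀ a : Fin m, ((Equiv.swap I J a : Fin m) : ℕ) = Equiv.swap i (i + 1) (a : ℕ) := by
    intro a
    by_cases h1 : a = I
    · rw [h1, Equiv.swap_apply_left, hI, Equiv.swap_apply_left]
    · by_cases h2 : a = J
      · rw [h2, Equiv.swap_apply_right, hJ, Equiv.swap_apply_right]
      · rw [Equiv.swap_apply_of_ne_of_ne h1 h2, Equiv.swap_apply_of_ne_of_ne]
        · intro h
          exact h1 (Fin.ext h)
        · intro h
          exact h2 (Fin.ext h)
  have hval : ∀ a b : Fin m, L' a b = glet c Q Qi (i, s) (fun p => if p = (b : ℕ) then 1 else 0)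
      (Equiv.swap i (i + 1) (a : ℕ)) := by
    intro a b
    rw [← hsw]
    rfl
  by_cases hd : c i = 0 ∨ c (i + 1) = 0
  · refine ⟨0, 0, ?_⟩
    have h1 : L' = 1 := by
      ext a b
      rw [hval]
      unfold glet
      rw [if_pos hd, Equiv.swap_apply_self, one_apply]
      simp only [Fin.ext_iff]
    rw [h1, det_one]
    simp
  · cases s
    · refine ⟨0, c i, ?_⟩
      have hup : L'.BlockTriangular id := by
        intro a b hab
        have hab' : (b : ℕ) < a := hab
        rw [hval]
        unfold glet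
        rw [if_neg hd]
        simp only [Bool.false_eq_true, if_false]
        by_cases h1 : (a : ℕ) = i
        · rw [h1, Equiv.swap_apply_left, if_neg (by omega), if_pos rfl, if_neg (by omega),
            if_neg (by omega)]
          ring
        · by_cases h2 : (a : ℕ) = i + 1
          · rw [h2, Equiv.swap_apply_right, if_pos rfl, if_neg (by omega)]
            ring
          · rw [Equiv.swap_apply_of_ne_of_ne h1 h2, if_neg h1, if_neg h2, if_neg (by omega)]
      rw [det_of_isUpperTriangular hup]
      have hprod : ∀ a : Fin m, L' a a = if a = J then Qi ^ c i else 1 := by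
        intro a
        rw [hval]
        unfold glet
        rw [if_neg hd]
        simp only [Bool.false_eq_true, if_false]
        by_cases h1 : a = I
        · have h5 : a ≠ J := fun h => hIJ (h1.symm.trans h)
          have h6 : (a : ℕ) = i := by rw [h1]
          rw [if_neg h5, h6, Equiv.swap_apply_left, if_neg (by omega), if_pos rfl, if_pos rfl,
            if_neg (by omega)]
          ring
        · by_cases h2 : a = J
          · have h6 : (a : ℕ) = i + 1 := by rw [h2]
            rw [if_pos h2, h6, Equiv.swap_apply_right, if_pos rfl, if_pos rfl, mul_one]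
          · have h3 : (a : ℕ) ≠ i := fun h => h1 (Fin.ext h)
            have h4 : (a : ℕ) ≠ i + 1 := fun h => h2 (Fin.ext h)
            rw [if_neg h2, Equiv.swap_apply_of_ne_of_ne h3 h4, if_neg h3, if_neg h4, if_pos rfl]
      rw [Finset.prod_congr rfl fun a _ => hprod a, Finset.prod_ite_eq' Finset.univ J,
        if_pos (Finset.mem_univ _), pow_zero, one_mul]
    · refine ⟨c (i + 1), 0, ?_⟩
      have hlo : L'.BlockTriangular OrderDual.toDual := by
        intro a b hab
        have hab' : (a : ℕ) < b := hab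
        rw [hval]
        unfold glet
        rw [if_neg hd]
        simp only [if_true]
        by_cases h1 : (a : ℕ) = i
        · rw [h1, Equiv.swap_apply_left, if_pos rfl, if_neg (by omega)]
          ring
        · by_cases h2 : (a : ℕ) = i + 1
          · rw [h2, Equiv.swap_apply_right, if_neg (by omega), if_pos rfl, if_neg (by omega),
              if_neg (by omega)]
            ring
          · rw [Equiv.swap_apply_of_ne_of_ne h1 h2, if_neg h2, if_neg h1, if_neg (by omega)]
      rw [det_of_isLowerTriangular L' hlo]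
      have hprod : ∀ a : Fin m, L' a a = if a = I then Q ^ c (i + 1) else 1 := by
        intro a
        rw [hval]
        unfold glet
        rw [if_neg hd]
        simp only [if_true]
        by_cases h1 : a = I
        · have h6 : (a : ℕ) = i := by rw [h1]
          rw [if_pos h1, h6, Equiv.swap_apply_left, if_pos rfl, if_pos rfl, mul_one]
        · by_cases h2 : a = J
          · have h6 : (a : ℕ) = i + 1 := by rw [h2]
            rw [if_neg h1, h6, Equiv.swap_apply_right, if_neg (by omega), if_pos rfl,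
              if_neg (by omega), if_pos rfl]
            ring
          · have h3 : (a : ℕ) ≠ i := fun h => h1 (Fin.ext h)
            have h4 : (a : ℕ) ≠ i + 1 := fun h => h2 (Fin.ext h)
            rw [if_neg h1, Equiv.swap_apply_of_ne_of_ne h3 h4, if_neg h4, if_neg h3, if_pos rfl]
      rw [Finset.prod_congr rfl fun a _ => hprod a, Finset.prod_ite_eq' Finset.univ I,
        if_pos (Finset.mem_univ _), pow_zero, mul_one]

private lemma gl_det_aux {m : ℕ} (c : ℕ → ℕ) (Q Qi : R) : ∀ {w : List (ℕ × Bool)}, Letters m w →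
    ∃ a b : ℕ, (Matrix.of fun x y : Fin m =>
      gl c Q Qi w (fun p => if p = y then 1 else 0) x).det =
        (-1) ^ w.length * (Q ^ a * Qi ^ b)
  | [], _ => by
    refine ⟨0, 0, ?_⟩
    have h1 : (Matrix.of fun x y : Fin m => gl c Q Qi [] (fun p => if p = y then 1 else 0) x) =
        1 := by
      ext x y
      show (if (x : ℕ) = y then (1 : R) else 0) = _
      rw [one_apply]
      simp only [Fin.ext_iff]
    rw [h1, det_one]
    simp
  | x :: w, hw => by
    have hw' : Letters m w := fun x hx => hw x (by simp [hx])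
    have hx := hw x (by simp)
    obtain ⟨a, b, h1⟩ := gl_det_aux c Q Qi hw'
    obtain ⟨a', b', h2⟩ := gl_det_letter (m := m) (outc c w) Q Qi x hx
    refine ⟨a' + a, b' + b, ?_⟩
    rw [gl_mat_cons c Q Qi x w hx, det_mul, h1, h2, List.length_cons]
    ring

/-- a pure word has an even number of letters -/
private lemma gl_even {m : ℕ} {w : List (ℕ × Bool)} (hw : PureWord m w) :
    (-1 : ℤ) ^ w.length = 1 := by
  obtain ⟨a, b, h1⟩ := gl_det_aux (m := m) (fun _ => 0) (1 : ℤ) 1 hw.1
  have h2 : (Matrix.of fun x y : Fin m =>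
      gl (fun _ => 0) (1 : ℤ) 1 w (fun p => if p = y then 1 else 0) x) = 1 := by
    ext x y
    show gl (fun _ => 0) (1 : ℤ) 1 w (fun p => if p = (y : ℕ) then 1 else 0) (x : ℕ) = _
    rw [gl_deleted hw (fun _ => 0) 1 1 _ (Or.inr rfl), one_apply]
    simp only [Fin.ext_iff]
  rw [h2, det_one] at h1
  simpa using h1.symm

/-- the determinant of a letter or a word is a monomial -/
theorem gl_det {m : ℕ} {w : List (ℕ × Bool)} (hw : PureWord m w) (c : ℕ → ℕ) {Q Qi : R}
    (hQ : Q * Qi = 1) : ∃ a b : ℕ, (Matrix.of fun x y : Fin m =>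
      gl c Q Qi w (fun p => if p = y then 1 else 0) x).det * Q ^ a = Q ^ b := by
  obtain ⟨a, b, h1⟩ := gl_det_aux (m := m) c Q Qi hw.1
  refine ⟨b, a, ?_⟩
  have h2 : ((-1 : R)) ^ w.length = 1 := by
    have h3 := gl_even hw
    have h4 := congrArg (Int.cast : ℤ → R) h3
    push_cast at h4
    exact h4
  rw [h1, h2, one_mul, mul_assoc, ← mul_pow, mul_comm Qi Q, hQ, one_pow, mul_one]

end Pool.Agent.AMU
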