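import Pool.Agent.AMU0.V1

open Matrix

namespace Pool.Agent.AMU

private lemma v1m_wc_succ (A : ℂ) (o a p : ℕ) : wc A o (a + 1) p =
    wc A o a p + if p = o + a then A ^ (4 * o) * (A⁻¹) ^ (2 * p) else 0 := by
  unfold wc
  by_cases h : p = o + a
  · rw [if_pos (by omega), if_neg (by omega), if_pos h, zero_add]
  · by_cases h2 : o ≤ p ∧ p < o + a
    · rw [if_pos (by omega), if_pos h2, if_neg h, add_zero]
    · rw [if_neg (by omega), if_neg h2, if_neg h, add_zero]

private lemma v1m_sum {A : ℂ} (hA : A ≠ 0) (n o : ℕ) : ∀ a : ℕ, o + a ≤ n →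
    ∑ p ∈ Finset.range n, A⁻¹ ^ p * A ^ (n - 1 - p) * wc A o a p =
      A ^ (n - 1) * ∑ u ∈ Finset.range a, (A⁻¹ ^ 4) ^ u
  | 0, _ => by
    rw [Finset.sum_eq_zero]
    · simp
    · intro p _
      unfold wc
      rw [if_neg (by omega), mul_zero]
  | a + 1, h => by
    have ih := v1m_sum hA n o a (by omega)
    rw [Finset.sum_range_succ, mul_add, ← ih]
    have h1 : ∀ p ∈ Finset.range n, A⁻¹ ^ p * A ^ (n - 1 - p) * wc A o (a + 1) p =
        A⁻¹ ^ p * A ^ (n - 1 - p) * wc A o a p +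
          if p = o + a then A⁻¹ ^ p * A ^ (n - 1 - p) * (A ^ (4 * o) * (A⁻¹) ^ (2 * p)) else 0 := by
      intro p _
      rw [v1m_wc_succ]
      split_ifs <;> ring
    rw [Finset.sum_congr rfl h1, Finset.sum_add_distrib]
    congr 1
    rw [Finset.sum_ite_eq' (Finset.range n) (o + a), if_pos (Finset.mem_range.2 (by omega))]
    have hAA : A * A⁻¹ = 1 := mul_inv_cancel₀ hA
    have e1 : A ^ (n - 1) = A ^ (n - 1 - (o + a)) * A ^ (o + a) := by
      rw [← pow_add]
      congr 1
      omega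
    rw [e1]
    have e2 : A ^ (o + a) * (A⁻¹ ^ 4) ^ a = A⁻¹ ^ (o + a) * (A ^ (4 * o) * A⁻¹ ^ (2 * (o + a))) := by
      have e3 : A ^ (o + a) * A⁻¹ ^ (o + a) = 1 := by rw [← mul_pow, hAA, one_pow]
      have e4 : A ^ (4 * o) * A⁻¹ ^ (4 * o) = 1 := by rw [← mul_pow, hAA, one_pow]
      have e5 : A⁻¹ ^ (o + a) * (A ^ (4 * o) * A⁻¹ ^ (2 * (o + a))) =
          (A ^ (o + a) * A⁻¹ ^ (o + a)) * (A⁻¹ ^ (o + a) * (A ^ (4 * o) * A⁻¹ ^ (2 * (o + a)))) := by
        rw [e3, one_mul]
      rw [e5]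
      have e6 : (A ^ (o + a) * A⁻¹ ^ (o + a)) * (A⁻¹ ^ (o + a) * (A ^ (4 * o) *
          A⁻¹ ^ (2 * (o + a)))) = (A ^ (4 * o) * A⁻¹ ^ (4 * o)) * (A ^ (o + a) *
            (A⁻¹ ^ 4) ^ a) := by
        rw [← pow_mul]
        have e7 : A⁻¹ ^ (2 * (o + a)) = A⁻¹ ^ (o + a) * A⁻¹ ^ (o + a) := by
          rw [← pow_add]
          congr 1
          omega
        have e8 : A⁻¹ ^ (4 * o) * A⁻¹ ^ (4 * a) =
            A⁻¹ ^ (o + a) * A⁻¹ ^ (o + a) * (A⁻¹ ^ (o + a) * A⁻¹ ^ (o + a)) := by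
          rw [← pow_add, ← pow_add, ← pow_add]
          congr 1
          omega
        rw [e7]
        linear_combination (-(A ^ (4 * o) * A ^ (o + a))) * e8
      rw [e6, e4, one_mul]
    linear_combination (-(A ^ (n - 1 - (o + a)))) * e2

private lemma v1m_cab (c : ℕ → ℕ) {l l' u : ℕ} (hu : u < c l) :
    (off c l' ≤ off c l + u ∧ off c l + u < off c l' + c l') ↔ l' = l := by
  constructor
  · rintro ⟨h1, h2⟩
    by_contra hne
    rcases Nat.lt_or_gt_of_ne hne with h | h
    · have := off_mono c (show l' + 1 ≤ l from h)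
      rw [off_succ] at this
      omega
    · have := off_mono c (show l + 1 ≤ l' from h)
      rw [off_succ] at this
      omega
  · rintro rfl
    omega

theorem ph_mem {m : ℕ} (c : ℕ → ℕ) {A : ℂ} (hA : A ≠ 0) (hA4 : A ^ 4 ≠ 1) (f : ℕ → ℂ)
    (hf : ∑ l ∈ Finset.range m, (1 - (A⁻¹ ^ 4) ^ c l) * f l = 0) :
    Ph (off c m) m c A f ∈ colBlock m c A 1 := by
  have hQ : (1 : ℂ) - A⁻¹ ^ 4 ≠ 0 := by
    intro h
    apply hA4
    have h1 : A⁻¹ ^ 4 = 1 := (sub_eq_zero.1 h).symm
    rw [inv_pow] at h1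
    exact inv_eq_one.1 h1
  have hle : ∀ l ∈ Finset.range m, off c l + c l ≤ off c m := by
    intro l hl
    rw [← off_succ]
    exact off_mono c (Finset.mem_range.1 hl)
  refine ⟨⟨?_, ?_⟩, ?_⟩
  · funext x
    unfold Ph
    rw [raise_vec1 hA, Pi.zero_apply]
    split_ifs with hx
    · apply mul_left_cancel₀ hQ
      rw [mul_zero]
      have h1 : ∑ p ∈ Finset.range (off c m), A⁻¹ ^ p * A ^ (off c m - 1 - p) *
          ∑ l ∈ Finset.range m, f l * wc A (off c l) (c l) p =
          ∑ l ∈ Finset.range m, f l * (A ^ (off c m - 1) *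
            ∑ u ∈ Finset.range (c l), (A⁻¹ ^ 4) ^ u) := by
        rw [Finset.sum_congr rfl fun p _ => Finset.mul_sum _ _ _, Finset.sum_comm]
        refine Finset.sum_congr rfl fun l hl => ?_
        rw [← v1m_sum hA (off c m) (off c l) (c l) (hle l hl), Finset.mul_sum]
        refine Finset.sum_congr rfl fun p _ => ?_
        ring
      rw [h1, Finset.mul_sum]
      have h2 : ∀ l ∈ Finset.range m, (1 - A⁻¹ ^ 4) * (f l * (A ^ (off c m - 1) *
          ∑ u ∈ Finset.range (c l), (A⁻¹ ^ 4) ^ u)) =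
          A ^ (off c m - 1) * ((1 - (A⁻¹ ^ 4) ^ c l) * f l) := by
        intro l _
        have h3 := mul_neg_geom_sum (A⁻¹ ^ 4) (c l)
        linear_combination (f l * A ^ (off c m - 1)) * h3
      rw [Finset.sum_congr rfl h2, ← Finset.mul_sum, hf, mul_zero]
    · rfl
  · intro x hx
    exact v1_vec1_of_ne hx _
  · intro l u hl hu
    have hpos : off c l + u + 1 < off c m := by
      have := hle l (Finset.mem_range.2 hl)
      omega
    have hAA : A * A⁻¹ = 1 := mul_inv_cancel₀ hA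
    unfold Ph
    rw [tl_vec1 hpos]
    have h1 : (∑ l' ∈ Finset.range m, f l' * wc A (off c l') (c l') (off c l + u + 1)) =
        A⁻¹ ^ 2 * ∑ l' ∈ Finset.range m, f l' * wc A (off c l') (c l') (off c l + u) := by
      rw [Finset.mul_sum]
      refine Finset.sum_congr rfl fun l' _ => ?_
      have e1 := v1m_cab c (l := l) (l' := l') (u := u) (by omega)
      have e2 := v1m_cab c (l := l) (l' := l') (u := u + 1) (by omega)
      rw [← add_assoc] at e2
      unfold wc
      by_cases h : l' = l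
      · rw [if_pos (e2.2 h), if_pos (e1.2 h)]
        have : 2 * (off c l + u + 1) = 2 * (off c l + u) + 2 := by ring
        rw [this, pow_add]
        ring
      · rw [if_neg (fun hh => h (e2.1 hh)), if_neg (fun hh => h (e1.1 hh))]
        ring
    have h2 : vec1 (off c m) (fun p =>
        if p = off c l + u + 1 then
          (∑ l' ∈ Finset.range m, f l' * wc A (off c l') (c l') (off c l + u)) -
            A ^ 2 * ∑ l' ∈ Finset.range m, f l' * wc A (off c l') (c l') (off c l + u + 1)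
        else if p = off c l + u then
          -(A⁻¹ ^ 2) * (∑ l' ∈ Finset.range m, f l' * wc A (off c l') (c l') (off c l + u)) +
            ∑ l' ∈ Finset.range m, f l' * wc A (off c l') (c l') (off c l + u + 1)
        else 0) = vec1 (off c m) (fun p => (0 : ℂ) * 0) := by
      refine vec1_congr fun p _ => ?_
      rw [h1]
      split_ifs
      · have h3 : A ^ 2 * A⁻¹ ^ 2 = 1 := by rw [← mul_pow, hAA, one_pow]
        linear_combination (-(∑ l' ∈ Finset.range m,
          f l' * wc A (off c l') (c l') (off c l + u))) * h3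
      · ring
      · ring
    rw [h2, vec1_smul, zero_smul]

theorem ph_inj {m : ℕ} (c : ℕ → ℕ) {A : ℂ} (hA : A ≠ 0) (f : ℕ → ℂ)
    (h : Ph (off c m) m c A f = 0) {l : ℕ} (hl : l < m) (hc : 0 < c l) : f l = 0 := by
  have hle : off c l + c l ≤ off c m := by
    rw [← off_succ]
    exact off_mono c hl
  have h1 := vec1_zero h (p := off c l) (by omega)
  rw [Finset.sum_eq_single l] at h1
  · unfold wc at h1
    rw [if_pos (by omega)] at h1
    have h2 : A ^ (4 * off c l) * A⁻¹ ^ (2 * off c l) ≠ 0 :=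
      mul_ne_zero (pow_ne_zero _ hA) (pow_ne_zero _ (inv_ne_zero hA))
    exact (mul_eq_zero.1 h1).resolve_right h2
  · intro l' _ hne
    have e1 := v1m_cab c (l := l) (l' := l') (u := 0) hc
    rw [add_zero] at e1
    unfold wc
    rw [if_neg (fun hh => hne (e1.1 hh)), mul_zero]
  · intro h'
    exact absurd (Finset.mem_range.2 hl) h'

end Pool.Agent.AMU
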