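import Pool.Agent.AMU0.V1W
import Pool.Agent.AMU0.V1M
import Pool.Agent.AMU0.Gl

open Matrix

namespace Pool.Agent.AMU

/-! ### Linearity of `Ph` -/

private lemma fin1_vec1_add (n : ℕ) (φ ψ : ℕ → ℂ) :
    vec1 n (fun p => φ p + ψ p) = vec1 n φ + vec1 n ψ := by
  funext x
  unfold vec1
  rw [Pi.add_apply]
  by_cases h : ones n x = 1
  · rw [if_pos h, if_pos h, if_pos h, ← Finset.sum_add_distrib]
    refine Finset.sum_congr rfl fun p _ => ?_
    by_cases hp : bit n x p = true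
    · rw [if_pos hp, if_pos hp, if_pos hp]
    · rw [if_neg hp, if_neg hp, if_neg hp, add_zero]
  · rw [if_neg h, if_neg h, if_neg h, add_zero]

private lemma fin1_vec1_smul (n : ℕ) (a : ℂ) (φ : ℕ → ℂ) :
    vec1 n (fun p => a * φ p) = a • vec1 n φ := by
  funext x
  unfold vec1
  rw [Pi.smul_apply, smul_eq_mul]
  by_cases h : ones n x = 1
  · rw [if_pos h, if_pos h, Finset.mul_sum]
    refine Finset.sum_congr rfl fun p _ => ?_
    by_cases hp : bit n x p = true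
    · rw [if_pos hp, if_pos hp]
    · rw [if_neg hp, if_neg hp, mul_zero]
  · rw [if_neg h, if_neg h, mul_zero]

private lemma fin1_ph_add (n m : ℕ) (c : ℕ → ℕ) (A : ℂ) (f g : ℕ → ℂ) :
    Ph n m c A (f + g) = Ph n m c A f + Ph n m c A g := by
  unfold Ph
  rw [← fin1_vec1_add]
  congr 1
  funext p
  rw [← Finset.sum_add_distrib]
  refine Finset.sum_congr rfl fun l _ => ?_
  rw [Pi.add_apply, add_mul]

private lemma fin1_ph_smul (n m : ℕ) (c : ℕ → ℕ) (A a : ℂ) (f : ℕ → ℂ) :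
    Ph n m c A (a • f) = a • Ph n m c A f := by
  unfold Ph
  rw [← fin1_vec1_smul]
  congr 1
  funext p
  rw [Finset.mul_sum]
  refine Finset.sum_congr rfl fun l _ => ?_
  rw [Pi.smul_apply, smul_eq_mul, mul_assoc]

/-! ### The operator on coefficients -/

/-- `gl` as a linear map -/
private noncomputable def fin1G (c : ℕ → ℕ) (Q Qi : ℂ) (w : List (ℕ × Bool)) :
    (ℕ → ℂ) →ₗ[ℂ] (ℕ → ℂ) where
  toFun := gl c Q Qi w
  map_add' := gl_add c Q Qi w
  map_smul' := gl_smul c Q Qi w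

private lemma fin1G_apply (c : ℕ → ℕ) (Q Qi : ℂ) (w : List (ℕ × Bool)) (f : ℕ → ℂ) :
    fin1G c Q Qi w f = gl c Q Qi w f := rfl

/-- extension by zero -/
private def fin1E {m : ℕ} (g : Fin m → ℂ) : ℕ → ℂ := fun p => if h : p < m then g ⟨p, h⟩ else 0

private lemma fin1E_val {m : ℕ} (g : Fin m → ℂ) (x : Fin m) : fin1E g x = g x := by
  unfold fin1E
  rw [dif_pos x.2]

private lemma fin1E_out {m : ℕ} (g : Fin m → ℂ) {p : ℕ} (h : m ≤ p) : fin1E g p = 0 := by
  unfold fin1E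
  rw [dif_neg (by omega)]

/-- the matrix of `gl` -/
private noncomputable def fin1M (m : ℕ) (c : ℕ → ℕ) (Q Qi : ℂ) (w : List (ℕ × Bool)) :
    Matrix (Fin m) (Fin m) ℂ :=
  Matrix.of fun x y : Fin m => gl c Q Qi w (fun p => if p = y then 1 else 0) x

private lemma fin1E_sum {m : ℕ} (g : Fin m → ℂ) :
    fin1E g = ∑ y : Fin m, g y • (fun p : ℕ => if p = y then (1 : ℂ) else 0) := by
  funext p
  rw [Finset.sum_apply]
  by_cases hp : p < m
  · rw [Finset.sum_eq_single (⟨p, hp⟩ : Fin m)]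
    · rw [Pi.smul_apply, smul_eq_mul, if_pos rfl, mul_one]
      unfold fin1E
      rw [dif_pos hp]
    · intro y _ hy
      rw [Pi.smul_apply, smul_eq_mul, if_neg, mul_zero]
      intro h
      exact hy (Fin.ext h.symm)
    · intro h
      exact absurd (Finset.mem_univ _) h
  · rw [fin1E_out g (by omega)]
    refine (Finset.sum_eq_zero fun y _ => ?_).symm
    rw [Pi.smul_apply, smul_eq_mul, if_neg, mul_zero]
    intro h
    have := y.2
    omega

private lemma fin1_step {m : ℕ} {w : List (ℕ × Bool)} (hw : PureWord m w) (c : ℕ → ℕ) (Q Qi : ℂ)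
    (g : Fin m → ℂ) : fin1E (fin1M m c Q Qi w *ᵥ g) = fin1G c Q Qi w (fin1E g) := by
  funext p
  by_cases hp : p < m
  · have h1 : fin1E (fin1M m c Q Qi w *ᵥ g) p = (fin1M m c Q Qi w *ᵥ g) ⟨p, hp⟩ :=
      fin1E_val _ ⟨p, hp⟩
    rw [h1, fin1E_sum g, map_sum, Finset.sum_apply]
    show ∑ y, fin1M m c Q Qi w ⟨p, hp⟩ y * g y = _
    refine Finset.sum_congr rfl fun y _ => ?_
    rw [map_smul, Pi.smul_apply, smul_eq_mul, mul_comm]
    rfl
  · rw [fin1E_out _ (by omega), fin1G_apply, gl_deleted hw c Q Qi _ (Or.inl (by omega)),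
      fin1E_out _ (by omega)]

private lemma fin1_pow {m : ℕ} {w : List (ℕ × Bool)} (hw : PureWord m w) (c : ℕ → ℕ) (Q Qi : ℂ)
    (g : Fin m → ℂ) : ∀ j : ℕ,
      fin1E ((fin1M m c Q Qi w ^ j) *ᵥ g) = ((fin1G c Q Qi w) ^ j) (fin1E g)
  | 0 => by rw [pow_zero, pow_zero, Matrix.one_mulVec]; rfl
  | j + 1 => by
    rw [pow_succ', ← Matrix.mulVec_mulVec, fin1_step hw, fin1_pow hw c Q Qi g j, pow_succ']
    rfl

private lemma fin1_pow_deleted {m : ℕ} {w : List (ℕ × Bool)} (hw : PureWord m w) (c : ℕ → ℕ)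
    (Q Qi : ℂ) (f : ℕ → ℂ) {p : ℕ} (h : m ≤ p ∨ c p = 0) : ∀ j : ℕ,
      ((fin1G c Q Qi w) ^ j) f p = f p
  | 0 => rfl
  | j + 1 => by
    rw [pow_succ']
    show gl c Q Qi w (((fin1G c Q Qi w) ^ j) f) p = f p
    rw [gl_deleted hw c Q Qi _ h, fin1_pow_deleted hw c Q Qi f h j]

private lemma fin1_pow_phi {m : ℕ} {w : List (ℕ × Bool)} (hw : PureWord m w) (c : ℕ → ℕ)
    {Q Qi : ℂ} (hQ : Q * Qi = 1) (f : ℕ → ℂ) : ∀ j : ℕ,
      ∑ l ∈ Finset.range m, (1 - Q ^ c l) * ((fin1G c Q Qi w) ^ j) f l =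
        ∑ l ∈ Finset.range m, (1 - Q ^ c l) * f l
  | 0 => rfl
  | j + 1 => by
    rw [← fin1_pow_phi hw c hQ f j, pow_succ']
    exact gl_phi hw c hQ _

private lemma fin1_pow_eig {m : ℕ} {w : List (ℕ × Bool)} (hw : PureWord m w) (c : ℕ → ℕ)
    (Q Qi : ℂ) (f : ℕ → ℂ) (l : ℂ)
    (hfl : ∀ x, x < m → 0 < c x → gl c Q Qi w f x = l * f x) : ∀ j : ℕ, ∀ x, x < m → 0 < c x →
      ((fin1G c Q Qi w) ^ j) f x = l ^ j * f x
  | 0, x, _, _ => by rw [pow_zero, pow_zero, one_mul]; rfl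
  | j + 1, x, hx, hc => by
    rw [pow_succ']
    show gl c Q Qi w (((fin1G c Q Qi w) ^ j) f) x = l ^ (j + 1) * f x
    have h1 : gl c Q Qi w (((fin1G c Q Qi w) ^ j) f) x = gl c Q Qi w (l ^ j • f) x :=
      gl_indep hw c Q Qi (fun y hy hcy => fin1_pow_eig hw c Q Qi f l hfl j y hy hcy) hx hc
    rw [h1, gl_smul, Pi.smul_apply, smul_eq_mul, hfl x hx hc, pow_succ]
    ring

private lemma fin1_word {m : ℕ} {w : List (ℕ × Bool)} (hw : PureWord m w) (c : ℕ → ℕ) {A : ℂ}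
    {e : ℤ} (he : ∀ f : ℕ → ℂ, wordMat (off c m) A A⁻¹ (cab c w) *ᵥ Ph (off c m) m c A f =
        A ^ e • Ph (off c m) m (outc c w) A (gl c (A⁻¹ ^ 4) (A ^ 4) w f)) (f : ℕ → ℂ) : ∀ j : ℕ,
      (wordMat (off c m) A A⁻¹ (cab c w) ^ j) *ᵥ Ph (off c m) m c A f =
        (A ^ e) ^ j • Ph (off c m) m c A (((fin1G c (A⁻¹ ^ 4) (A ^ 4) w) ^ j) f)
  | 0 => by rw [pow_zero, pow_zero, pow_zero, Matrix.one_mulVec, one_smul]; rfl
  | j + 1 => by
    rw [pow_succ', ← Matrix.mulVec_mulVec, fin1_word hw c he f j, Matrix.mulVec_smul, he,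
      outc_pure hw, smul_smul, pow_succ (A ^ e) j, pow_succ' (fin1G c (A⁻¹ ^ 4) (A ^ 4) w) j]
    rfl

/-! ### The determinant -/

private lemma fin1_det {m : ℕ} (c : Fin m → ℕ) (v : Fin m → ℂ) (hv : ∀ x, c x = 0 → v x = 0)
    (P : Matrix (Fin m) (Fin m) ℂ) (T : ℂ) (hT : T ≠ 0)
    (hP0 : ∀ g : Fin m → ℂ, ∀ x, c x = 0 → (P *ᵥ g) x = g x)
    (hP1 : ∀ g : Fin m → ℂ, v ⬝ᵥ g = 0 → ∀ x, 0 < c x → (P *ᵥ g) x = T * g x)
    (hP2 : ∀ g : Fin m → ℂ, v ⬝ᵥ (P *ᵥ g) = v ⬝ᵥ g) {x0 : Fin m} (hx0 : 0 < c x0)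
    (hvx0 : v x0 ≠ 0) :
    T * P.det = T ^ (Finset.univ.filter fun x : Fin m => 0 < c x).card := by
  classical
  let dv : Fin m → ℂ := fun x => if 0 < c x then T else 1
  let di : Fin m → ℂ := fun x => if 0 < c x then T⁻¹ else 1
  have hdd : ∀ x, dv x * di x = 1 := by
    intro x
    by_cases hx : 0 < c x
    · simp only [dv, di, if_pos hx]
      exact mul_inv_cancel₀ hT
    · simp only [dv, di, if_neg hx, mul_one]
  let f0 : Fin m → ℂ := Pi.single x0 (v x0)⁻¹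
  have hf0 : v ⬝ᵥ f0 = 1 := by
    simp only [f0, dotProduct_single]
    exact mul_inv_cancel₀ hvx0
  have hDf0 : Matrix.diagonal dv *ᵥ f0 = T • f0 := by
    funext x
    rw [Matrix.mulVec_diagonal, Pi.smul_apply, smul_eq_mul]
    by_cases hx : x = x0
    · subst hx
      simp only [dv, if_pos hx0]
    · simp only [f0, Pi.single_eq_of_ne hx, mul_zero]
  let u : Fin m → ℂ := P *ᵥ f0 - T • f0
  have hact : ∀ g : Fin m → ℂ, P *ᵥ g = Matrix.diagonal dv *ᵥ g + (v ⬝ᵥ g) • u := by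
    intro g
    have hg' : v ⬝ᵥ (g - (v ⬝ᵥ g) • f0) = 0 := by
      rw [dotProduct_sub, dotProduct_smul, hf0, smul_eq_mul, mul_one, sub_self]
    have h1 : P *ᵥ (g - (v ⬝ᵥ g) • f0) = Matrix.diagonal dv *ᵥ (g - (v ⬝ᵥ g) • f0) := by
      funext x
      rw [Matrix.mulVec_diagonal]
      by_cases hx : 0 < c x
      · rw [hP1 _ hg' x hx]
        simp only [dv, if_pos hx]
      · rw [hP0 _ x (by omega)]
        simp only [dv, if_neg hx, one_mul]
    rw [Matrix.mulVec_sub, Matrix.mulVec_sub, Matrix.mulVec_smul, Matrix.mulVec_smul, hDf0] at h1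
    have h2 : P *ᵥ g = Matrix.diagonal dv *ᵥ g - (v ⬝ᵥ g) • (T • f0) + (v ⬝ᵥ g) • (P *ᵥ f0) := by
      rw [← h1]
      abel
    rw [h2]
    simp only [u, smul_sub]
    abel
  let u' : Fin m → ℂ := fun x => di x * u x
  have hmat : P = Matrix.diagonal dv * (1 + replicateCol Unit u' * replicateRow Unit v) := by
    ext x y
    have h1 := congrFun (hact (Pi.single y 1)) x
    rw [Matrix.mulVec_single_one, Pi.add_apply, Matrix.mulVec_single_one, Pi.smul_apply,
      smul_eq_mul, dotProduct_single, mul_one] at h1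
    have h2 : P x y = Matrix.diagonal dv x y + v y * u x := h1
    rw [h2, Matrix.mul_add, Matrix.mul_one, Matrix.add_apply, Matrix.diagonal_mul]
    have h3 : (replicateCol Unit u' * replicateRow Unit v) x y = u' x * v y := by
      rw [Matrix.mul_apply]
      simp
    rw [h3]
    have h4 : dv x * (u' x * v y) = (dv x * di x) * (u x * v y) := by
      simp only [u']
      ring
    rw [h4, hdd, one_mul, mul_comm (v y)]
  have hvu : v ⬝ᵥ u' = T⁻¹ * (1 - T) := by
    have h1 : v ⬝ᵥ u' = T⁻¹ * (v ⬝ᵥ u) := by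
      unfold dotProduct
      rw [Finset.mul_sum]
      refine Finset.sum_congr rfl fun x _ => ?_
      by_cases hx : 0 < c x
      · simp only [u', di, if_pos hx]
        ring
      · rw [hv x (by omega), zero_mul, zero_mul, mul_zero]
    rw [h1]
    simp only [u]
    rw [dotProduct_sub, hP2, hf0, dotProduct_smul, hf0, smul_eq_mul, mul_one]
  rw [hmat, Matrix.det_mul, det_one_add_replicateCol_mul_replicateRow, hvu, Matrix.det_diagonal]
  have h5 : ∏ x, dv x = T ^ (Finset.univ.filter fun x : Fin m => 0 < c x).card := by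
    simp only [dv]
    rw [Finset.prod_ite, Finset.prod_const, Finset.prod_const_one, mul_one]
  rw [h5]
  have h6 : T * (1 + T⁻¹ * (1 - T)) = 1 := by
    field_simp
    ring
  calc T * (T ^ (Finset.univ.filter fun x : Fin m => 0 < c x).card * (1 + T⁻¹ * (1 - T)))
      = T ^ (Finset.univ.filter fun x : Fin m => 0 < c x).card * (T * (1 + T⁻¹ * (1 - T))) := by
        ring
    _ = _ := by rw [h6, mul_one]

theorem fin1 {m : ℕ} {w : List (ℕ × Bool)} (hw : PureWord m w) (c : ℕ → ℕ) {N : ℕ} {A : ℂ}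
    (hA : IsPrimitiveRoot A N) (hN : 4 < N) (hNc : ∀ l, l < m → 4 * c l < N)
    (h : ¬ ColInfinite m c A w 1) (f : ℕ → ℂ) (l : ℂ) (hf : ∃ x, x < m ∧ 0 < c x ∧ f x ≠ 0)
    (hfl : ∀ x, x < m → 0 < c x → gl c (A⁻¹ ^ 4) (A ^ 4) w f x = l * f x) :
    ∃ M, 0 < M ∧ l ^ M = 1 := by
  classical
  have hA0 : A ≠ 0 := hA.ne_zero (by omega)
  have hA4 : A ^ 4 ≠ 1 := hA.pow_ne_one_of_pos_of_lt (by omega) hN
  set Q : ℂ := A⁻¹ ^ 4 with hQdef
  set Qi : ℂ := A ^ 4 with hQidef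
  have hQQi : Q * Qi = 1 := by
    rw [hQdef, hQidef, ← mul_pow, inv_mul_cancel₀ hA0, one_pow]
  have hQN : Q ^ N = 1 := by
    rw [hQdef, ← pow_mul, mul_comm 4 N, pow_mul, inv_pow, hA.pow_eq_one, inv_one, one_pow]
  have hQ0 : Q ≠ 0 := by
    intro h0
    rw [h0, zero_mul] at hQQi
    exact zero_ne_one hQQi
  have hcoef : ∀ x, x < m → 0 < c x → 1 - Q ^ c x ≠ 0 := by
    intro x hx hc h0
    have h1 : Q ^ c x = 1 := (sub_eq_zero.mp h0).symm
    rw [hQdef, ← pow_mul, inv_pow, inv_eq_one] at h1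
    exact hA.pow_ne_one_of_pos_of_lt (by omega) (hNc x hx) h1
  by_cases hphi : ∑ x ∈ Finset.range m, (1 - Q ^ c x) * f x = 0
  swap
  · -- the functional does not vanish
    have h1 := gl_phi hw c hQQi f
    have h2 : ∑ x ∈ Finset.range m, (1 - Q ^ c x) * gl c Q Qi w f x =
        l * ∑ x ∈ Finset.range m, (1 - Q ^ c x) * f x := by
      rw [Finset.mul_sum]
      refine Finset.sum_congr rfl fun x hx => ?_
      by_cases hc : 0 < c x
      · rw [hfl x (Finset.mem_range.mp hx) hc]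
        ring
      · have hc0 : c x = 0 := by omega
        rw [hc0, pow_zero, sub_self, zero_mul, zero_mul, mul_zero]
    rw [h2] at h1
    have h3 : l = 1 := by
      have h4 : (l - 1) * ∑ x ∈ Finset.range m, (1 - Q ^ c x) * f x = 0 := by
        rw [sub_mul, h1, one_mul, sub_self]
      exact sub_eq_zero.mp ((mul_eq_zero.mp h4).resolve_right hphi)
    exact ⟨1, one_pos, by rw [h3, one_pow]⟩
  -- the kernel of the functional
  unfold ColInfinite at h
  push Not at h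
  obtain ⟨p0, hp0, T, hT⟩ := h
  obtain ⟨e, he⟩ := ph_word hw.1 c (rfl : off c m = off c m) hA0
  set B : ℂ := (A ^ e) ^ p0 with hB
  have hB0 : B ≠ 0 := pow_ne_zero _ (zpow_ne_zero _ hA0)
  have hker : ∀ g : ℕ → ℂ, ∑ x ∈ Finset.range m, (1 - Q ^ c x) * g x = 0 →
      ∀ x, x < m → 0 < c x → ((fin1G c Q Qi w) ^ p0) g x = (T / B) * g x := by
    intro g hg x hx hc
    have h1 := hT _ (ph_mem c hA0 hA4 g hg)
    rw [fin1_word hw c he g p0] at h1
    have h2 : Ph (off c m) m c A (B • (((fin1G c Q Qi w) ^ p0) g) + (-T) • g) = 0 := by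
      rw [fin1_ph_add, fin1_ph_smul, fin1_ph_smul, hB, h1, neg_smul, add_neg_cancel]
    have h3 := ph_inj c hA0 _ h2 hx hc
    rw [Pi.add_apply, Pi.smul_apply, Pi.smul_apply, smul_eq_mul, smul_eq_mul] at h3
    have h4 : B * ((fin1G c Q Qi w) ^ p0) g x = T * g x := by
      linear_combination h3
    rw [div_mul_eq_mul_div, eq_div_iff hB0, mul_comm]
    exact h4
  set T' : ℂ := T / B with hT'
  obtain ⟨x1, hx1m, hx1c, hx1f⟩ := hf
  -- the eigenvalue
  have hlp : l ^ p0 = T' := by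
    have h1 := hker f hphi x1 hx1m hx1c
    rw [fin1_pow_eig hw c Q Qi f l hfl p0 x1 hx1m hx1c] at h1
    exact mul_right_cancel₀ hx1f h1
  -- the matrix
  set MM := fin1M m c Q Qi w with hMM
  obtain ⟨a, b, hab⟩ := gl_det hw c hQQi
  have hdetM : MM.det * Q ^ a = Q ^ b := hab
  have hdetN : MM.det ^ N = 1 := by
    have h1 : (MM.det * Q ^ a) ^ N = (Q ^ b) ^ N := by rw [hdetM]
    have h2 : ∀ j : ℕ, (Q ^ j) ^ N = 1 := by
      intro j
      rw [← pow_mul, mul_comm j N, pow_mul, hQN, one_pow]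
    rw [mul_pow, h2, h2, mul_one] at h1
    exact h1
  have hdet0 : MM.det ≠ 0 := by
    intro h0
    rw [h0, zero_pow (by omega)] at hdetN
    exact zero_ne_one hdetN
  -- the eigenvalue is not zero
  have hl0 : l ≠ 0 := by
    intro h0
    let g : Fin m → ℂ := fun x => if 0 < c x then f x else 0
    have hg : MM *ᵥ g = 0 := by
      funext x
      have h1 := congrFun (fin1_step hw c Q Qi g) x
      rw [fin1E_val, fin1G_apply] at h1
      rw [← hMM] at h1
      rw [h1]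
      by_cases hc : 0 < c x
      · have h2 : gl c Q Qi w (fin1E g) x = gl c Q Qi w f x := by
          refine gl_indep hw c Q Qi (fun y hy hcy => ?_) x.2 hc
          have h3 : fin1E g y = g ⟨y, hy⟩ := fin1E_val g ⟨y, hy⟩
          rw [h3]
          simp only [g, if_pos hcy]
        rw [h2, hfl x x.2 hc, h0, zero_mul]
        rfl
      · rw [gl_deleted hw c Q Qi _ (Or.inr (by omega)), fin1E_val]
        simp only [g, if_neg hc]
        rfl
    have hg0 : g ≠ 0 := by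
      intro hz
      have h1 := congrFun hz ⟨x1, hx1m⟩
      simp only [g, if_pos hx1c, Pi.zero_apply] at h1
      exact hx1f h1
    exact hdet0 (Matrix.exists_mulVec_eq_zero_iff.mp ⟨g, hg0, hg⟩)
  have hT'0 : T' ≠ 0 := by
    rw [← hlp]
    exact pow_ne_zero _ hl0
  -- the determinant of the power
  let v : Fin m → ℂ := fun x => 1 - Q ^ c x
  have hvsum : ∀ g : Fin m → ℂ, v ⬝ᵥ g = ∑ x ∈ Finset.range m, (1 - Q ^ c x) * fin1E g x := by
    intro g
    rw [Finset.sum_range]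
    unfold dotProduct
    refine Finset.sum_congr rfl fun x _ => ?_
    rw [fin1E_val]
  have hpow : ∀ (g : Fin m → ℂ) (x : Fin m), ((MM ^ p0) *ᵥ g) x =
      ((fin1G c Q Qi w) ^ p0) (fin1E g) x := by
    intro g x
    have h1 := congrFun (fin1_pow hw c Q Qi g p0) x
    rw [fin1E_val] at h1
    exact h1
  have hdetP := fin1_det (fun x : Fin m => c x) v (fun x hx => by
      simp only [v, hx, pow_zero, sub_self]) (MM ^ p0) T' hT'0 ?_ ?_ ?_
      (x0 := ⟨x1, hx1m⟩) hx1c (hcoef x1 hx1m hx1c)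
  rotate_left
  · intro g x hx
    rw [hpow, fin1_pow_deleted hw c Q Qi _ (Or.inr hx), fin1E_val]
  · intro g hg x hx
    rw [hpow, hker _ (by rw [← hvsum]; exact hg) x x.2 hx, fin1E_val]
  · intro g
    rw [hvsum, hvsum, fin1_pow hw c Q Qi g p0, fin1_pow_phi hw c hQQi]
  -- at least two strands
  have hcard : 2 ≤ (Finset.univ.filter fun x : Fin m => 0 < c x).card := by
    by_contra hlt
    have h1 : (Finset.univ.filter fun x : Fin m => 0 < c x).card ≤ 1 := by omega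
    rw [Finset.card_le_one] at h1
    have h2 : ∀ x ∈ Finset.range m, x ≠ x1 → (1 - Q ^ c x) * f x = 0 := by
      intro x hx hne
      by_cases hc : 0 < c x
      · exfalso
        have h3 := h1 ⟨x, Finset.mem_range.mp hx⟩ (Finset.mem_filter.mpr ⟨Finset.mem_univ _, hc⟩)
          ⟨x1, hx1m⟩ (Finset.mem_filter.mpr ⟨Finset.mem_univ _, hx1c⟩)
        exact hne (congrArg Fin.val h3)
      · have hc0 : c x = 0 := by omega
        rw [hc0, pow_zero, sub_self, zero_mul]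
    rw [Finset.sum_eq_single x1 h2 (fun hx => absurd (Finset.mem_range.mpr hx1m) hx)] at hphi
    exact (mul_ne_zero (hcoef x1 hx1m hx1c) hx1f) hphi
  obtain ⟨s, hs⟩ : ∃ s, (Finset.univ.filter fun x : Fin m => 0 < c x).card = s + 1 :=
    ⟨_, (Nat.succ_pred_eq_of_pos (by omega)).symm⟩
  have hs1 : 1 ≤ s := by omega
  have hdetP' : (MM ^ p0).det = T' ^ s := by
    have h1 : T' * (MM ^ p0).det = T' * T' ^ s := by
      rw [hdetP, hs, pow_succ, mul_comm]
    exact mul_left_cancel₀ hT'0 h1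
  refine ⟨p0 * (s * N), Nat.mul_pos hp0 (Nat.mul_pos hs1 (by omega)), ?_⟩
  rw [pow_mul, hlp, pow_mul, ← hdetP', Matrix.det_pow, ← pow_mul, mul_comm p0 N, pow_mul, hdetN,
    one_pow]

end Pool.Agent.AMU
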