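import Pool.Agent.AMU0.Lmat

open Matrix

namespace Pool.Agent.AMU

private theorem lcub_gt {R : Type*} [CommRing R] {m : ℕ} (ξ : Pr m → R) {i j : ℕ} (h : i < j)
    (hj : j < m) : gt ξ i j = ξ ⟨(⟨i, by omega⟩, ⟨j, hj⟩), by simpa using h⟩ := by
  unfold gt
  rw [dif_pos ⟨h, hj⟩]

private theorem lcub_val {R : Type*} [CommRing R] {m : ℕ} (ξ : Pr m → R) (x : Pr m) :
    ξ x = gt ξ x.1.1 x.1.2 := by
  have h1 : (x.1.1 : ℕ) < x.1.2 := x.2
  rw [lcub_gt ξ h1 x.1.2.2]

private theorem lcub_jk {R : Type*} [CommRing R] {m : ℕ} (q t : R) {k i : ℕ} (hk : k + 1 < m)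
    (ξ : Pr m → R) (hi : i < k) :
    gt (lop m q t k ξ) i k = (1 - q) * gt ξ i k + gt ξ i (k + 1) := by
  rw [lcub_gt _ hi (by omega)]
  unfold lop
  simp only
  rw [if_neg (by omega), if_pos trivial]

private theorem lcub_jk1 {R : Type*} [CommRing R] {m : ℕ} (q t : R) {k i : ℕ} (hk : k + 1 < m)
    (ξ : Pr m → R) (hi : i < k) :
    gt (lop m q t k ξ) i (k + 1) = q * gt ξ i k := by
  rw [lcub_gt _ (by omega) hk]
  unfold lop
  simp only
  rw [if_neg (by omega), if_neg (by omega), if_pos trivial]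

private theorem lcub_ik {R : Type*} [CommRing R] {m : ℕ} (q t : R) {k j : ℕ}
    (ξ : Pr m → R) (hj : k + 1 < j) (hjm : j < m) :
    gt (lop m q t k ξ) k j = gt ξ (k + 1) j := by
  rw [lcub_gt _ (by omega) hjm]
  unfold lop
  simp only
  rw [if_neg (by omega), if_neg (by omega), if_neg (by omega), if_pos trivial]

private theorem lcub_ik1 {R : Type*} [CommRing R] {m : ℕ} (q t : R) {k j : ℕ}
    (ξ : Pr m → R) (hj : k + 1 < j) (hjm : j < m) :
    gt (lop m q t k ξ) (k + 1) j = q * gt ξ k j + (1 - q) * gt ξ (k + 1) j := by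
  rw [lcub_gt _ hj hjm]
  unfold lop
  simp only
  rw [if_neg (by omega), if_neg (by omega), if_neg (by omega), if_neg (by omega), if_pos trivial]

private theorem lcub_else {R : Type*} [CommRing R] {m : ℕ} (q t : R) {k i j : ℕ}
    (ξ : Pr m → R) (hij : i < j) (hjm : j < m) (h1 : j ≠ k) (h2 : j ≠ k + 1) (h3 : i ≠ k)
    (h4 : i ≠ k + 1) : gt (lop m q t k ξ) i j = gt ξ i j := by
  rw [lcub_gt _ hij hjm]
  unfold lop
  simp only
  rw [if_neg (by omega), if_neg h1, if_neg h2, if_neg h3, if_neg h4]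

/-- the quadratic relation outside of the row `(k, k + 1)` -/
private theorem lcub_quad {R : Type*} [CommRing R] {m : ℕ} (q t : R) {k : ℕ} (hk : k + 1 < m)
    (ξ : Pr m → R) {i j : ℕ} (hij : i < j) (hjm : j < m) (hne : ¬ (i = k ∧ j = k + 1)) :
    gt (lop m q t k (lop m q t k ξ)) i j + (q - 1) * gt (lop m q t k ξ) i j =
      q * gt ξ i j := by
  by_cases h1 : j = k
  · subst h1
    rw [lcub_jk q t hk _ hij, lcub_jk q t hk _ hij, lcub_jk1 q t hk _ hij]
    ring
  by_cases h2 : j = k + 1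
  · subst h2
    have hi : i < k := by omega
    rw [lcub_jk1 q t hk _ hi, lcub_jk1 q t hk _ hi, lcub_jk q t hk _ hi]
    ring
  by_cases h3 : i = k
  · subst h3
    have hj : i + 1 < j := by omega
    rw [lcub_ik q t _ hj hjm, lcub_ik q t _ hj hjm, lcub_ik1 q t _ hj hjm]
    ring
  by_cases h4 : i = k + 1
  · subst h4
    rw [lcub_ik1 q t _ hij hjm, lcub_ik1 q t _ hij hjm, lcub_ik q t _ hij hjm]
    ring
  rw [lcub_else q t _ hij hjm h1 h2 h3 h4, lcub_else q t _ hij hjm h1 h2 h3 h4]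
  ring

/-- the vector `e_{(k, k + 1)}` -/
private theorem lcub_fix {R : Type*} [CommRing R] {m : ℕ} (q t : R) {k : ℕ} (hk : k + 1 < m)
    (ξ : Pr m → R) (hξ : ∀ i j, ¬ (i = k ∧ j = k + 1) → gt ξ i j = 0) :
    lop m q t k ξ = (t * q ^ 2) • ξ := by
  funext x
  rw [lcub_val (lop m q t k ξ) x, Pi.smul_apply, lcub_val ξ x, smul_eq_mul]
  have hij : (x.1.1 : ℕ) < x.1.2 := x.2
  have hjm : (x.1.2 : ℕ) < m := x.1.2.2
  generalize (x.1.1 : ℕ) = i at *
  generalize (x.1.2 : ℕ) = j at *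
  by_cases h0 : i = k ∧ j = k + 1
  · obtain ⟨rfl, rfl⟩ := h0
    rw [lcub_gt (lop m q t i ξ) hij hjm]
    unfold lop
    simp only
    rw [if_pos ⟨trivial, trivial⟩]
    have s1 : ∑ i' ∈ Finset.range i, q ^ (i - i' + 1) * (q - 1) * gt ξ i' (i + 1) = 0 := by
      refine Finset.sum_eq_zero fun i' hi' => ?_
      rw [hξ _ _ (fun h => by have := Finset.mem_range.1 hi'; omega), mul_zero]
    have s2 : ∑ j' ∈ Finset.Ico (i + 2) m, q * (q - 1) * gt ξ i j' = 0 := by
      refine Finset.sum_eq_zero fun j' hj' => ?_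
      rw [hξ _ _ (fun h => by have := Finset.mem_Ico.1 hj'; omega), mul_zero]
    have s3 : ∑ i' ∈ Finset.range i, ∑ j' ∈ Finset.Ico (i + 2) m,
          q ^ (i - i') * (q - 1) ^ 2 * gt ξ i' j' = 0 := by
      refine Finset.sum_eq_zero fun i' hi' => Finset.sum_eq_zero fun j' hj' => ?_
      rw [hξ _ _ (fun h => by have := Finset.mem_Ico.1 hj'; omega), mul_zero]
    rw [s1, s2, s3]
    ring
  · rw [hξ i j h0, mul_zero]
    by_cases h1 : j = k
    · subst h1
      rw [lcub_jk q t hk _ hij, hξ _ _ (by omega), hξ _ _ (by omega)]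
      ring
    by_cases h2 : j = k + 1
    · subst h2
      have hi : i < k := by omega
      rw [lcub_jk1 q t hk _ hi, hξ _ _ (by omega)]
      ring
    by_cases h3 : i = k
    · subst h3
      have hj : i + 1 < j := by omega
      rw [lcub_ik q t _ hj hjm, hξ _ _ (by omega)]
    by_cases h4 : i = k + 1
    · subst h4
      rw [lcub_ik1 q t _ hij hjm, hξ _ _ (by omega), hξ _ _ (by omega)]
      ring
    rw [lcub_else q t _ hij hjm h1 h2 h3 h4, hξ _ _ h0]

private theorem lcub_gt_zero {R : Type*} [CommRing R] {m : ℕ} (ξ : Pr m → R) {i j : ℕ}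
    (h : ¬ (i < j ∧ j < m)) : gt ξ i j = 0 := by
  unfold gt
  rw [dif_neg h]

private theorem lcub_gt_comb {R : Type*} [CommRing R] {m : ℕ} (ξ η ζ : Pr m → R) (a b : R)
    (i j : ℕ) : gt (ξ + a • η - b • ζ) i j = gt ξ i j + a * gt η i j - b * gt ζ i j := by
  by_cases h : i < j ∧ j < m
  · rw [lcub_gt _ h.1 h.2, lcub_gt _ h.1 h.2, lcub_gt _ h.1 h.2, lcub_gt _ h.1 h.2]
    simp
  · rw [lcub_gt_zero _ h, lcub_gt_zero _ h, lcub_gt_zero _ h, lcub_gt_zero _ h]
    simp

private theorem lcub_comm {R : Type*} [CommRing R] {ι : Type*} [Fintype ι] [DecidableEq ι]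
    (A : Matrix ι ι R) (q s : R) :
    (A - 1) * (A + q • 1) * (A - s • 1) = (A - s • 1) * (A * A + (q - 1) • A - q • 1) := by
  have h1 : (A - 1) * (A + q • 1) = A * A + (q - 1) • A - q • 1 := by
    rw [sub_mul, mul_add, one_mul, mul_smul_comm, mul_one, sub_smul, one_smul]
    abel
  rw [h1]
  simp only [sub_mul, add_mul, mul_sub, mul_add, smul_mul_assoc, mul_smul_comm, mul_one, one_mul,
    mul_assoc]
  module

theorem lmat_cubic {R : Type*} [CommRing R] {m : ℕ} (q t : R) {k : ℕ} (hk : k + 1 < m) :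
    (lmat m q t k - 1) * (lmat m q t k + q • 1) * (lmat m q t k - (t * q ^ 2) • 1) = 0 := by
  rw [lcub_comm]
  apply Matrix.ext_of_mulVec_single
  intro y
  generalize (Pi.single y (1 : R) : Pr m → R) = ξ
  rw [← Matrix.mulVec_mulVec, Matrix.zero_mulVec, Matrix.sub_mulVec _ _ ξ, Matrix.add_mulVec,
    Matrix.smul_mulVec, Matrix.smul_mulVec, Matrix.one_mulVec, ← Matrix.mulVec_mulVec,
    Matrix.sub_mulVec, lmat_mulVec, lmat_mulVec, lmat_mulVec, Matrix.smul_mulVec,
    Matrix.one_mulVec]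
  rw [lcub_fix q t hk, sub_self]
  intro i j hij
  rw [lcub_gt_comb]
  by_cases h : i < j ∧ j < m
  · rw [lcub_quad q t hk ξ h.1 h.2 hij, sub_self]
  · rw [lcub_gt_zero _ h, lcub_gt_zero _ h, lcub_gt_zero _ h]
    ring

private theorem lcub_vec {R : Type*} [CommRing R] {m : ℕ} (q t l : R) {k : ℕ} (hk : k + 1 < m)
    {v : Pr m → R} (hv : lmat m q t k *ᵥ v = l • v) :
    ((l - 1) * (l + q) * (l - t * q ^ 2)) • v = 0 := by
  have h := congrArg (fun M => M *ᵥ v) (lmat_cubic (m := m) q t hk)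
  simp only [Matrix.zero_mulVec] at h
  rw [← Matrix.mulVec_mulVec, ← Matrix.mulVec_mulVec] at h
  have h1 : (lmat m q t k - (t * q ^ 2) • 1) *ᵥ v = (l - t * q ^ 2) • v := by
    rw [Matrix.sub_mulVec, hv, Matrix.smul_mulVec, Matrix.one_mulVec, sub_smul]
  have h2 : (lmat m q t k + q • 1) *ᵥ v = (l + q) • v := by
    rw [Matrix.add_mulVec, hv, Matrix.smul_mulVec, Matrix.one_mulVec, add_smul]
  have h3 : (lmat m q t k - 1) *ᵥ v = (l - 1) • v := by
    rw [Matrix.sub_mulVec, hv, Matrix.one_mulVec, sub_smul, one_smul]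
  rw [h1, Matrix.mulVec_smul, h2, Matrix.mulVec_smul, Matrix.mulVec_smul, h3] at h
  rw [← h, smul_smul, smul_smul]
  congr 1
  ring

theorem lmat_isUnit {K : Type*} [Field K] {m : ℕ} {q t : K} (hq : q ≠ 0) (ht : t ≠ 0) {k : ℕ}
    (hk : k + 1 < m) : IsUnit (lmat m q t k).det := by
  rw [isUnit_iff_ne_zero]
  intro h0
  obtain ⟨v, hv0, hv⟩ := Matrix.exists_mulVec_eq_zero_iff.2 h0
  have h1 := lcub_vec (m := m) q t 0 hk (v := v) (by rw [hv, zero_smul])
  rcases smul_eq_zero.1 h1 with h2 | h2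
  · have : t * q ^ 3 = 0 := by linear_combination h2
    rcases mul_eq_zero.1 this with h3 | h3
    · exact ht h3
    · exact hq (pow_eq_zero_iff (by norm_num) |>.1 h3)
  · exact hv0 h2

private theorem lcub_det {m : ℕ} {q t : ℂ} {N : ℕ} (hq : q ^ N = 1) (ht : t ^ N = 1)
    {k : ℕ} (hk : k + 1 < m) : (lmat m q t k).det ^ (2 * N) = 1 := by
  have h0 : (lmat m q t k).charpoly.roots.prod ^ (2 * N) =
      ((lmat m q t k).charpoly.roots.map fun l => l ^ (2 * N)).prod := by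
    rw [Multiset.prod_map_pow, Multiset.map_id']
  rw [Matrix.det_eq_prod_roots_charpoly, h0, Multiset.map_congr rfl
    (g := fun _ => (1 : ℂ)) ?_]
  · simp
  · intro l hl
    obtain ⟨v, hv0, hv⟩ := (eig_iff_root (lmat m q t k) l).2 hl
    have h1 := lcub_vec (m := m) q t l hk hv
    rcases smul_eq_zero.1 h1 with h2 | h2
    · rcases mul_eq_zero.1 h2 with h3 | h3
      · rcases mul_eq_zero.1 h3 with h4 | h4
        · rw [sub_eq_zero.1 h4, one_pow]
        · rw [eq_neg_of_add_eq_zero_left h4, pow_mul, neg_sq, ← pow_mul, mul_comm, pow_mul, hq,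
            one_pow]
      · rw [sub_eq_zero.1 h3, mul_pow, ← pow_mul, mul_comm 2 N, pow_mul t, ht, one_pow, one_mul,
          show 2 * (N * 2) = N * 4 by ring, pow_mul q, hq, one_pow]
    · exact absurd h2 hv0

/-- the determinant of a word is a root of unity if `q` and `t` are -/
theorem lwm_det_root {m : ℕ} {q t : ℂ} {N : ℕ} (hN : 0 < N) (hq : q ^ N = 1) (ht : t ^ N = 1)
    {w : List (ℕ × Bool)} (hw : Letters m w) : ∃ M, 0 < M ∧ (lwm m q t w).det ^ M = 1 := by
  refine ⟨2 * N, by omega, ?_⟩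
  induction w with
  | nil => simp [lwm]
  | cons x w ih =>
      have h1 : (lwm m q t w).det ^ (2 * N) = 1 := ih fun y hy => hw y (by simp [hy])
      have h2 : lwm m q t (x :: w) =
          (if x.2 then lmat m q t x.1 else (lmat m q t x.1)⁻¹) * lwm m q t w := by
        simp [lwm]
      have hx : x.1 + 1 < m := hw x (by simp)
      rw [h2, Matrix.det_mul, mul_pow, h1, mul_one]
      split_ifs
      · exact lcub_det hq ht hx
      · rw [Matrix.det_nonsing_inv, Ring.inverse_eq_inv', inv_pow, lcub_det hq ht hx, inv_one]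

end Pool.Agent.AMU
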