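import Pool.Agent.AMU0.V2

open Matrix

namespace Pool.Agent.AMU

private theorem v2i_gt_smul {m : ℕ} (a : ℂ) (ξ : Pr m → ℂ) (i j : ℕ) :
    gt (a • ξ) i j = a * gt ξ i j := by
  unfold gt
  split_ifs
  · rfl
  · rw [mul_zero]

private theorem v2i_gt_sub {m : ℕ} (ξ η : Pr m → ℂ) (i j : ℕ) :
    gt (ξ - η) i j = gt ξ i j - gt η i j := by
  unfold gt
  split_ifs
  · rfl
  · rw [sub_zero]

private theorem v2i_vco_smul {m : ℕ} (q a : ℂ) (ξ : Pr m → ℂ) (i j : ℕ) :
    vco q (a • ξ) i j = a * vco q ξ i j := by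
  unfold vco
  simp only [v2i_gt_smul]
  rw [mul_sub, Finset.mul_sum, Finset.mul_sum, Finset.mul_sum]
  congr 1
  exact Finset.sum_congr rfl (fun x _ => by ring)

private theorem v2i_vco_sub {m : ℕ} (q : ℂ) (ξ η : Pr m → ℂ) (i j : ℕ) :
    vco q (ξ - η) i j = vco q ξ i j - vco q η i j := by
  unfold vco
  simp only [v2i_gt_sub]
  have h : ∑ i' ∈ Finset.range i, q ^ (i - i' - 1) * (gt ξ i' j - gt η i' j) =
      ∑ i' ∈ Finset.range i, q ^ (i - i' - 1) * gt ξ i' j -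
        ∑ i' ∈ Finset.range i, q ^ (i - i' - 1) * gt η i' j := by
    rw [← Finset.sum_sub_distrib]
    exact Finset.sum_congr rfl (fun x _ => by ring)
  rw [h]
  ring

private theorem v2i_wc {A : ℂ} {c i j : ℕ} (hc : 0 < c) : wc A (c * i) c (c * j) =
    if i = j then A ^ (4 * (c * i)) * (A⁻¹) ^ (2 * (c * j)) else 0 := by
  unfold wc
  by_cases h : i = j
  · subst h
    rw [if_pos rfl, if_pos ⟨le_refl _, by omega⟩]
  · rw [if_neg h, if_neg]
    rintro ⟨h1, h2⟩
    have h3 : i ≤ j := Nat.le_of_mul_le_mul_left h1 hc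
    have h4 : c * j < c * (i + 1) := by rw [Nat.mul_succ]; exact h2
    have h5 : j < i + 1 := Nat.lt_of_mul_lt_mul_left h4
    omega

private theorem v2i_off (c : ℕ) : ∀ m : ℕ, off (fun _ => c) m = c * m
  | 0 => by simp [off]
  | m + 1 => by rw [off_succ, v2i_off c m, Nat.mul_succ]

theorem psi_inj {m c : ℕ} (hc : 0 < c) {A : ℂ} (hA : A ≠ 0) (hA4 : A ^ 4 * A⁻¹ ^ (4 * c) ≠ 1)
    (ξ : Pr m → ℂ) (h : Ps (off (fun _ => c) m) m c A ξ = 0) : ξ = 0 := by
  rw [v2i_off] at h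
  have hv : ∀ i j, i < j → j < m → vco (A⁻¹ ^ (4 * c)) ξ i j = 0 := by
    intro i j hij hj
    have h1 := vec2_zero h (p := c * i) (p' := c * j) (Nat.mul_lt_mul_of_pos_left hij hc)
      (Nat.mul_lt_mul_of_pos_left hj hc)
    have hA1 : ∀ x, A ^ (4 * (c * x)) * (A⁻¹) ^ (2 * (c * x)) ≠ 0 := fun x =>
      mul_ne_zero (pow_ne_zero _ hA) (pow_ne_zero _ (inv_ne_zero hA))
    have e1 : ∑ a ∈ Finset.range m,
        (-(1 - A⁻¹ ^ (4 * c)) * (∑ i ∈ Finset.range a, vco (A⁻¹ ^ (4 * c)) ξ i a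
          + A ^ 4 * ∑ j ∈ Finset.Ico (a + 1) m, vco (A⁻¹ ^ (4 * c)) ξ a j))
          * wc A (c * a) c (c * i) * wc A (c * a) c (c * j) = 0 := by
      refine Finset.sum_eq_zero (fun a _ => ?_)
      rw [v2i_wc hc, v2i_wc hc]
      by_cases ha : a = i
      · rw [if_neg (fun h2 : a = j => by omega), mul_zero]
      · rw [if_neg ha, mul_zero, zero_mul]
    have e2 : ∑ i' ∈ Finset.range m, ∑ j' ∈ Finset.Ico (i' + 1) m,
        (1 - A ^ 4 * A⁻¹ ^ (4 * c)) * vco (A⁻¹ ^ (4 * c)) ξ i' j' * wc A (c * i') c (c * i) *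
          wc A (c * j') c (c * j) =
        (1 - A ^ 4 * A⁻¹ ^ (4 * c)) * vco (A⁻¹ ^ (4 * c)) ξ i j *
          (A ^ (4 * (c * i)) * (A⁻¹) ^ (2 * (c * i))) *
          (A ^ (4 * (c * j)) * (A⁻¹) ^ (2 * (c * j))) := by
      rw [Finset.sum_eq_single i, Finset.sum_eq_single j]
      · rw [v2i_wc hc, v2i_wc hc, if_pos rfl, if_pos rfl]
      · intro j' _ hj'
        rw [v2i_wc hc (i := j'), if_neg hj', mul_zero]
      · intro h2
        exact absurd (Finset.mem_Ico.2 ⟨hij, hj⟩) h2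
      · intro i' _ hi'
        refine Finset.sum_eq_zero (fun j' _ => ?_)
        rw [v2i_wc hc (i := i'), if_neg hi', mul_zero, zero_mul]
      · intro h2
        exact absurd (Finset.mem_range.2 (by omega)) h2
    rw [e1, e2, add_zero] at h1
    have h3 := (mul_eq_zero.1 h1).resolve_right (hA1 j)
    have h4 := (mul_eq_zero.1 h3).resolve_right (hA1 i)
    exact (mul_eq_zero.1 h4).resolve_left (sub_ne_zero.2 (fun h5 => hA4 h5.symm))
  have hg : ∀ i j, i < j → j < m → gt ξ i j = 0 := by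
    intro i
    induction i using Nat.strong_induction_on with
    | _ i ih =>
      intro j hij hj
      have h1 := hv i j hij hj
      unfold vco at h1
      have h2 : ∑ i' ∈ Finset.range i, (A⁻¹ ^ (4 * c)) ^ (i - i' - 1) * gt ξ i' j = 0 := by
        refine Finset.sum_eq_zero (fun i' hi' => ?_)
        have h3 := Finset.mem_range.1 hi'
        rw [ih i' h3 j (by omega) hj, mul_zero]
      rw [h2, mul_zero, sub_zero] at h1
      exact h1
  funext x
  obtain ⟨⟨⟨i, hi⟩, ⟨j, hj⟩⟩, hx⟩ := x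
  have hij : i < j := by simpa using hx
  have h1 := hg i j hij hj
  unfold gt at h1
  rw [dif_pos ⟨hij, hj⟩] at h1
  exact h1

theorem psi_smul {n m c : ℕ} {A : ℂ} (a : ℂ) (ξ : Pr m → ℂ) :
    Ps n m c A (a • ξ) = a • Ps n m c A ξ := by
  unfold Ps
  rw [← vec2_smul]
  refine vec2_congr (fun p p' _ _ => ?_)
  simp only [v2i_vco_smul]
  rw [mul_add]
  refine congrArg₂ (· + ·) ?_ ?_
  · rw [Finset.mul_sum]
    refine Finset.sum_congr rfl (fun i _ => ?_)
    rw [Finset.mul_sum]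
    exact Finset.sum_congr rfl (fun j _ => by ring)
  · rw [Finset.mul_sum]
    refine Finset.sum_congr rfl (fun i _ => ?_)
    rw [← Finset.mul_sum, ← Finset.mul_sum]
    ring

theorem psi_sub {n m c : ℕ} {A : ℂ} (ξ η : Pr m → ℂ) :
    Ps n m c A (ξ - η) = Ps n m c A ξ - Ps n m c A η := by
  have h : ξ - η = ξ + (-1 : ℂ) • η := by
    rw [neg_smul, one_smul, sub_eq_add_neg]
  have h2 : Ps n m c A ξ - Ps n m c A η = Ps n m c A ξ + (-1 : ℂ) • Ps n m c A η := by
    rw [neg_smul, one_smul, sub_eq_add_neg]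
  rw [h2]
  unfold Ps
  rw [← vec2_smul, ← vec2_add]
  refine vec2_congr (fun p p' _ _ => ?_)
  simp only [v2i_vco_sub]
  rw [mul_add, add_add_add_comm]
  refine congrArg₂ (· + ·) ?_ ?_
  · rw [Finset.mul_sum, ← Finset.sum_add_distrib]
    refine Finset.sum_congr rfl (fun i _ => ?_)
    rw [Finset.mul_sum, ← Finset.sum_add_distrib]
    exact Finset.sum_congr rfl (fun j _ => by ring)
  · rw [Finset.mul_sum, ← Finset.sum_add_distrib]
    refine Finset.sum_congr rfl (fun i _ => ?_)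
    rw [Finset.sum_sub_distrib, Finset.sum_sub_distrib]
    ring

end Pool.Agent.AMU
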