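import Pool.Agent.AMU0.V2R

open Matrix

namespace Pool.Agent.AMU

/-- the geometric sum over the part of a cable in `[0, y)` -/
private theorem v2m_sum (r : ℂ) (o c y : ℕ) :
    ∑ p ∈ Finset.range y, (if o ≤ p ∧ p < o + c then r ^ (p - o) else 0) =
      ∑ u ∈ Finset.range (min (y - o) c), r ^ u := by
  induction y with
  | zero => simp
  | succ y ih =>
      rw [Finset.sum_range_succ, ih]
      by_cases h1 : y < o
      · rw [if_neg (by omega), show y + 1 - o = 0 by omega, show y - o = 0 by omega, add_zero]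
      · by_cases h2 : y < o + c
        · rw [if_pos ⟨by omega, h2⟩, show min (y + 1 - o) c = (y - o) + 1 by omega,
            show min (y - o) c = y - o by omega, Finset.sum_range_succ]
        · rw [if_neg (by omega), show min (y + 1 - o) c = c by omega,
            show min (y - o) c = c by omega, add_zero]

private theorem v2m_wc {A : ℂ} (hA : A ≠ 0) (k : ℤ) (o c p : ℕ) :
    A ^ (k - 2 * (p : ℤ)) * wc A o c p =
      A ^ k * (if o ≤ p ∧ p < o + c then (A⁻¹ ^ 4) ^ (p - o) else 0) := by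
  unfold wc
  by_cases h : o ≤ p ∧ p < o + c
  · rw [if_pos h, if_pos h]
    obtain ⟨u, rfl⟩ := Nat.exists_eq_add_of_le h.1
    rw [show o + u - o = u by omega]
    have e1 : A⁻¹ ^ (2 * (o + u)) = A ^ (-(2 * ((o : ℤ) + u))) := by
      rw [inv_pow, ← zpow_natCast, ← _root_.zpow_neg]
      push_cast
      rfl
    have e2 : A ^ (4 * o) = A ^ (4 * (o : ℤ)) := by
      rw [← zpow_natCast]
      push_cast
      rfl
    have e3 : (A⁻¹ ^ 4) ^ u = A ^ (-(4 * (u : ℤ))) := by
      rw [← pow_mul, inv_pow, ← zpow_natCast, ← _root_.zpow_neg]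
      push_cast
      rfl
    rw [e1, e2, e3, ← zpow_add₀ hA, ← zpow_add₀ hA, ← zpow_add₀ hA]
    congr 1
    push_cast
    ring
  · rw [if_neg h, if_neg h, mul_zero, mul_zero]

private theorem v2m_part {A : ℂ} (hA : A ≠ 0) (k : ℤ) (o c y : ℕ) :
    ∑ p ∈ Finset.range y, A ^ (k - 2 * (p : ℤ)) * wc A o c p =
      A ^ k * ∑ u ∈ Finset.range (min (y - o) c), (A⁻¹ ^ 4) ^ u := by
  rw [← v2m_sum, Finset.mul_sum]
  exact Finset.sum_congr rfl fun p _ => v2m_wc hA k o c p

private theorem v2m_part' {A : ℂ} (hA : A ≠ 0) (k : ℤ) (o c x y : ℕ) (hxy : x ≤ y) :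
    ∑ p ∈ Finset.Ico x y, A ^ (k - 2 * (p : ℤ)) * wc A o c p =
      A ^ k * (∑ u ∈ Finset.range (min (y - o) c), (A⁻¹ ^ 4) ^ u -
        ∑ u ∈ Finset.range (min (x - o) c), (A⁻¹ ^ 4) ^ u) := by
  rw [Finset.sum_Ico_eq_sub _ hxy, v2m_part hA, v2m_part hA, mul_sub]

/-- the function of two particles -/
private noncomputable def v2mF (m c : ℕ) (A : ℂ) (U : ℕ → ℕ → ℂ) (D : ℕ → ℂ) (p p' : ℕ) : ℂ :=
  (∑ i ∈ Finset.range m, ∑ j ∈ Finset.Ico (i + 1) m,
      U i j * wc A (c * i) c p * wc A (c * j) c p')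
    + ∑ a ∈ Finset.range m, D a * wc A (c * a) c p * wc A (c * a) c p'

private theorem v2m_at {c a u : ℕ} (A : ℂ) (hu : u < c) (j : ℕ) :
    wc A (c * j) c (c * a + u) = if j = a then wc A (c * a) c (c * a + u) else 0 := by
  split_ifs with h
  · rw [h]
  · unfold wc
    rw [if_neg]
    rintro ⟨h1, h2⟩
    rcases Nat.lt_or_gt_of_ne h with h3 | h3
    · have := Nat.mul_le_mul_left c (show j + 1 ≤ a from h3)
      rw [mul_add, mul_one] at this
      omega
    · have := Nat.mul_le_mul_left c (show a + 1 ≤ j from h3)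
      rw [mul_add, mul_one] at this
      omega

private theorem v2m_left {m c a u : ℕ} (A : ℂ) (U : ℕ → ℕ → ℂ) (D : ℕ → ℂ) (ha : a < m)
    (hu : u < c) (p : ℕ) :
    v2mF m c A U D p (c * a + u) = wc A (c * a) c (c * a + u) *
      (∑ i ∈ Finset.range a, U i a * wc A (c * i) c p + D a * wc A (c * a) c p) := by
  unfold v2mF
  have h1 : ∑ i ∈ Finset.range m, ∑ j ∈ Finset.Ico (i + 1) m,
      U i j * wc A (c * i) c p * wc A (c * j) c (c * a + u) =
      ∑ i ∈ Finset.range a, U i a * wc A (c * i) c p * wc A (c * a) c (c * a + u) := by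
    have h2 : ∀ i ∈ Finset.range m, ∑ j ∈ Finset.Ico (i + 1) m,
        U i j * wc A (c * i) c p * wc A (c * j) c (c * a + u) =
        if i < a then U i a * wc A (c * i) c p * wc A (c * a) c (c * a + u) else 0 := by
      intro i _
      rw [Finset.sum_congr rfl fun j _ => by rw [v2m_at A hu j, mul_ite, mul_zero],
        Finset.sum_ite_eq']
      by_cases h : i < a
      · rw [if_pos h, if_pos (Finset.mem_Ico.2 ⟨h, ha⟩)]
      · rw [if_neg h, if_neg]
        intro h'
        have := Finset.mem_Ico.1 h'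
        omega
    rw [Finset.sum_congr rfl h2, ← Finset.sum_filter]
    congr 1
    ext i
    simp only [Finset.mem_filter, Finset.mem_range]
    omega
  have h3 : ∑ b ∈ Finset.range m, D b * wc A (c * b) c p * wc A (c * b) c (c * a + u) =
      D a * wc A (c * a) c p * wc A (c * a) c (c * a + u) := by
    rw [Finset.sum_congr rfl fun j _ => by rw [v2m_at A hu j, mul_ite, mul_zero],
      Finset.sum_ite_eq', if_pos (Finset.mem_range.2 ha)]
  rw [h1, h3, mul_add, Finset.mul_sum]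
  congr 1
  · exact Finset.sum_congr rfl fun i _ => by ring
  · ring

private theorem v2m_right {m c a u : ℕ} (A : ℂ) (U : ℕ → ℕ → ℂ) (D : ℕ → ℂ) (ha : a < m)
    (hu : u < c) (p : ℕ) :
    v2mF m c A U D (c * a + u) p = wc A (c * a) c (c * a + u) *
      (∑ j ∈ Finset.Ico (a + 1) m, U a j * wc A (c * j) c p + D a * wc A (c * a) c p) := by
  unfold v2mF
  have h1 : ∑ i ∈ Finset.range m, ∑ j ∈ Finset.Ico (i + 1) m,
      U i j * wc A (c * i) c (c * a + u) * wc A (c * j) c p =
      ∑ j ∈ Finset.Ico (a + 1) m, U a j * wc A (c * a) c (c * a + u) * wc A (c * j) c p := by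
    rw [Finset.sum_eq_single a]
    · intro i _ hi
      refine Finset.sum_eq_zero fun j _ => ?_
      rw [v2m_at A hu i, if_neg hi]
      ring
    · intro h
      exact absurd (Finset.mem_range.2 ha) h
  have h3 : ∑ b ∈ Finset.range m, D b * wc A (c * b) c (c * a + u) * wc A (c * b) c p =
      D a * wc A (c * a) c (c * a + u) * wc A (c * a) c p := by
    rw [Finset.sum_eq_single a]
    · intro i _ hi
      rw [v2m_at A hu i, if_neg hi]
      ring
    · intro h
      exact absurd (Finset.mem_range.2 ha) h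
  rw [h1, h3, mul_add, Finset.mul_sum]
  congr 1
  · exact Finset.sum_congr rfl fun i _ => by ring
  · ring

private theorem v2m_dist {S T : Finset ℕ} (W d : ℂ) (g : ℕ → ℂ) (U : ℕ → ℂ) (w : ℕ → ℕ → ℂ)
    (a : ℕ) :
    ∑ p ∈ S, g p * (W * (∑ i ∈ T, U i * w i p + d * w a p)) =
      W * (∑ i ∈ T, U i * (∑ p ∈ S, g p * w i p) + d * ∑ p ∈ S, g p * w a p) := by
  have h1 : ∀ p ∈ S, g p * (W * (∑ i ∈ T, U i * w i p + d * w a p)) =
      ∑ i ∈ T, W * (U i * (g p * w i p)) + W * (d * (g p * w a p)) := by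
    intro p _
    rw [mul_add, mul_add, Finset.mul_sum, Finset.mul_sum]
    congr 1
    · exact Finset.sum_congr rfl fun i _ => by ring
    · ring
  rw [Finset.sum_congr rfl h1, Finset.sum_add_distrib, Finset.sum_comm, mul_add, Finset.mul_sum]
  congr 1
  · refine Finset.sum_congr rfl fun i _ => ?_
    rw [Finset.mul_sum, Finset.mul_sum]
  · rw [Finset.mul_sum, Finset.mul_sum]

/-- the coefficient of the raised vector -/
private theorem v2m_coef {m c : ℕ} {A : ℂ} (hA : A ≠ 0) (V : ℕ → ℕ → ℂ) {s : ℕ}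
    (hs : s < c * m) (n : ℕ) (hn : n = c * m) :
    (∑ p ∈ Finset.range s, A ^ ((n : ℤ) - 3 - 2 * p) *
      v2mF m c A (fun i j => (1 - A ^ 4 * A⁻¹ ^ (4 * c)) * V i j)
        (fun a => -(1 - A⁻¹ ^ (4 * c)) * (∑ i ∈ Finset.range a, V i a +
          A ^ 4 * ∑ j ∈ Finset.Ico (a + 1) m, V a j)) p s)
    + ∑ p ∈ Finset.Ico (s + 1) n, A ^ ((n : ℤ) + 1 - 2 * p) *
      v2mF m c A (fun i j => (1 - A ^ 4 * A⁻¹ ^ (4 * c)) * V i j)
        (fun a => -(1 - A⁻¹ ^ (4 * c)) * (∑ i ∈ Finset.range a, V i a +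
          A ^ 4 * ∑ j ∈ Finset.Ico (a + 1) m, V a j)) s p = 0 := by
  have hc : 0 < c := by
    rcases Nat.eq_zero_or_pos c with h | h
    · subst h
      omega
    · exact h
  obtain ⟨a, u, hu, rfl, ha⟩ : ∃ a u, u < c ∧ s = c * a + u ∧ a < m := by
    refine ⟨s / c, s % c, Nat.mod_lt _ hc, (Nat.div_add_mod s c).symm, ?_⟩
    rw [Nat.div_lt_iff_lt_mul hc, mul_comm]
    exact hs
  have hma : c * a + c ≤ c * m := by
    have := Nat.mul_le_mul_left c (show a + 1 ≤ m from ha)
    rwa [mul_add, mul_one] at this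
  simp only [v2m_left A _ _ ha hu, v2m_right A _ _ ha hu]
  rw [v2m_dist, v2m_dist]
  set r : ℂ := A⁻¹ ^ 4 with hr
  set g : ℕ → ℂ := fun k => ∑ u ∈ Finset.range k, r ^ u with hg
  set W := wc A (c * a) c (c * a + u) with hW
  -- the sums over the cables
  have e1 : ∀ i ∈ Finset.range a, ∑ p ∈ Finset.range (c * a + u),
      A ^ ((n : ℤ) - 3 - 2 * p) * wc A (c * i) c p = A ^ ((n : ℤ) - 3) * g c := by
    intro i hi
    have h1 := Nat.mul_le_mul_left c (show i + 1 ≤ a from Finset.mem_range.1 hi)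
    rw [mul_add, mul_one] at h1
    rw [v2m_part hA, show min (c * a + u - c * i) c = c by omega]
  have e2 : ∑ p ∈ Finset.range (c * a + u),
      A ^ ((n : ℤ) - 3 - 2 * p) * wc A (c * a) c p = A ^ ((n : ℤ) - 3) * g u := by
    rw [v2m_part hA, show min (c * a + u - c * a) c = u by omega]
  have e3 : ∀ j ∈ Finset.Ico (a + 1) m, ∑ p ∈ Finset.Ico (c * a + u + 1) n,
      A ^ ((n : ℤ) + 1 - 2 * p) * wc A (c * j) c p = A ^ ((n : ℤ) + 1) * g c := by
    intro j hj
    have h1 := Nat.mul_le_mul_left c (Finset.mem_Ico.1 hj).1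
    have h2 := Nat.mul_le_mul_left c (show j + 1 ≤ m from (Finset.mem_Ico.1 hj).2)
    rw [mul_add, mul_one] at h1 h2
    rw [v2m_part' hA _ _ _ _ _ (by omega), show min (n - c * j) c = c by omega,
      show min (c * a + u + 1 - c * j) c = 0 by omega, Finset.range_zero, Finset.sum_empty,
      sub_zero]
  have e4 : ∑ p ∈ Finset.Ico (c * a + u + 1) n,
      A ^ ((n : ℤ) + 1 - 2 * p) * wc A (c * a) c p = A ^ ((n : ℤ) + 1) * (g c - g (u + 1)) := by
    rw [v2m_part' hA _ _ _ _ _ (by omega), show min (n - c * a) c = c by omega,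
      show min (c * a + u + 1 - c * a) c = u + 1 by omega]
  set t : ℂ := A ^ 4 with ht
  set Q : ℂ := A⁻¹ ^ (4 * c) with hQ0
  have f1 : ∑ i ∈ Finset.range a, (1 - t * Q) * V i a * (∑ p ∈ Finset.range (c * a + u),
      A ^ ((n : ℤ) - 3 - 2 * p) * wc A (c * i) c p) =
      (1 - t * Q) * (∑ i ∈ Finset.range a, V i a) * (A ^ ((n : ℤ) - 3) * g c) := by
    rw [Finset.mul_sum, Finset.sum_mul]
    exact Finset.sum_congr rfl fun i hi => by rw [e1 i hi]
  have f2 : ∑ j ∈ Finset.Ico (a + 1) m, (1 - t * Q) * V a j *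
      (∑ p ∈ Finset.Ico (c * a + u + 1) n, A ^ ((n : ℤ) + 1 - 2 * p) * wc A (c * j) c p) =
      (1 - t * Q) * (∑ j ∈ Finset.Ico (a + 1) m, V a j) * (A ^ ((n : ℤ) + 1) * g c) := by
    rw [Finset.mul_sum, Finset.sum_mul]
    exact Finset.sum_congr rfl fun i hi => by rw [e3 i hi]
  rw [f1, f2, e2, e4]
  -- the identities
  have hAr : t * r = 1 := by
    rw [hr, ht, ← mul_pow, mul_inv_cancel₀ hA, one_pow]
  have hp : A ^ ((n : ℤ) + 1) = A ^ ((n : ℤ) - 3) * t := by
    rw [ht, ← zpow_natCast A 4, ← zpow_add₀ hA]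
    congr 1
    push_cast
    ring
  have hgs : g (u + 1) = 1 + r * g u := by
    rw [hg]
    simp only
    rw [Finset.sum_range_succ', Finset.mul_sum, pow_zero, add_comm]
    congr 1
    exact Finset.sum_congr rfl fun k _ => by ring
  have hgc : g c * (1 - r) = 1 - Q := by
    have h1 := geom_sum_mul r c
    have h2 : Q = r ^ c := by rw [hQ0, hr, pow_mul]
    rw [h2, hg]
    linear_combination -h1
  rw [hp, hgs]
  have hQ : Q = 1 - g c * (1 - r) := by rw [hgc]; ring
  rw [hQ]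
  linear_combination (-(A ^ ((n : ℤ) - 3) * W * (∑ i ∈ Finset.range a, V i a +
    t * ∑ j ∈ Finset.Ico (a + 1) m, V a j) * g c * (1 - (1 - r) * g u))) * hAr

private theorem v2m_wc_succ {A : ℂ} {c l u : ℕ} (hu : u + 1 < c) (i : ℕ) :
    wc A (c * i) c (c * l + u + 1) = A⁻¹ ^ 2 * wc A (c * i) c (c * l + u) := by
  have h1 := v2m_at (a := l) A hu i
  have h2 := v2m_at (a := l) A (show u < c by omega) i
  rw [show c * l + u + 1 = c * l + (u + 1) by ring, h1, h2]
  by_cases h : i = l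
  · rw [if_pos h, if_pos h]
    unfold wc
    rw [if_pos ⟨by omega, by omega⟩, if_pos ⟨by omega, by omega⟩]
    ring
  · rw [if_neg h, if_neg h, mul_zero]

theorem psi_mem {m c : ℕ} {A : ℂ} (hA : A ≠ 0) (hA4 : A ^ 4 ≠ 1) (ξ : Pr m → ℂ) :
    Ps (off (fun _ => c) m) m c A ξ ∈ colBlock m (fun _ => c) A 2 := by
  have _ := hA4
  have hoff : ∀ l, off (fun _ => c) l = c * l := by
    intro l
    simp [off, mul_comm]
  have hP : Ps (off (fun _ => c) m) m c A ξ = vec2 (off (fun _ => c) m)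
      (v2mF m c A (fun i j => (1 - A ^ 4 * A⁻¹ ^ (4 * c)) * vco (A⁻¹ ^ (4 * c)) ξ i j)
        (fun a => -(1 - A⁻¹ ^ (4 * c)) * (∑ i ∈ Finset.range a, vco (A⁻¹ ^ (4 * c)) ξ i a +
          A ^ 4 * ∑ j ∈ Finset.Ico (a + 1) m, vco (A⁻¹ ^ (4 * c)) ξ a j))) := rfl
  refine ⟨⟨?_, ?_⟩, ?_⟩
  · rw [hP, raise_vec2 hA]
    rw [vec1_congr (ψ := fun _ => 0 * 0), vec1_smul, zero_smul]
    intro s hs
    rw [mul_zero]
    exact v2m_coef hA (vco (A⁻¹ ^ (4 * c)) ξ) (by rwa [hoff] at hs) _ (hoff m)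
  · intro x hx
    unfold Ps vec2
    rw [if_neg hx]
  · intro l u hl hu
    replace hu : u + 2 ≤ c := hu
    have hlm := Nat.mul_le_mul_left c (show l + 1 ≤ m from hl)
    rw [mul_add, mul_one] at hlm
    rw [hP, hoff l]
    apply tl_vec2 (by rw [hoff m]; omega) hA
    · intro p' _
      unfold v2mF
      rw [mul_add, Finset.mul_sum, Finset.mul_sum]
      congr 1
      · refine Finset.sum_congr rfl fun i _ => ?_
        rw [Finset.mul_sum]
        refine Finset.sum_congr rfl fun j _ => ?_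
        rw [v2m_wc_succ (show u + 1 < c by omega)]
        ring
      · refine Finset.sum_congr rfl fun j _ => ?_
        rw [v2m_wc_succ (show u + 1 < c by omega)]
        ring
    · intro p' _ _
      unfold v2mF
      rw [mul_add, Finset.mul_sum, Finset.mul_sum]
      congr 1
      · refine Finset.sum_congr rfl fun i _ => ?_
        rw [Finset.mul_sum]
        refine Finset.sum_congr rfl fun j _ => ?_
        rw [v2m_wc_succ (show u + 1 < c by omega)]
        ring
      · refine Finset.sum_congr rfl fun j _ => ?_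
        rw [v2m_wc_succ (show u + 1 < c by omega)]
        ring

end Pool.Agent.AMU
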