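import Pool.Agent.AMU0.V2P
import Pool.Agent.AMU0.V2M
import Pool.Agent.AMU0.V2I
import Pool.Agent.AMU0.Lcub

open Matrix

namespace Pool.Agent.AMU

private theorem fin2_cs (c k : ℕ) : cs (fun _ => c) k = fun _ => c := rfl

private theorem fin2_outc (c : ℕ) : ∀ w : List (ℕ × Bool), outc (fun _ => c) w = fun _ => c
  | [] => rfl
  | x :: w => by
    show cs (outc (fun _ => c) w) x.1 = _
    rw [fin2_outc c w, fin2_cs]

private theorem fin2_pos {m c : ℕ} {A : ℂ} (hA : A ≠ 0) {k : ℕ} (hk : k + 1 < m) (ξ : Pr m → ℂ) :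
    wordMat (off (fun _ => c) m) A A⁻¹ (blockLetter (fun _ => c) (k, true)) *ᵥ
      Ps (off (fun _ => c) m) m c A ξ = A ^ (c * c) •
        Ps (off (fun _ => c) m) m c A (lmat m (A⁻¹ ^ (4 * c)) (A ^ 4) k *ᵥ ξ) := by
  rw [lmat_mulVec]
  exact psi_letter rfl hA hk ξ

private theorem fin2_neg {m c : ℕ} {A : ℂ} (hA : A ≠ 0) {k : ℕ} (hk : k + 1 < m) (ξ : Pr m → ℂ) :
    wordMat (off (fun _ => c) m) A A⁻¹ (blockLetter (fun _ => c) (k, false)) *ᵥ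
      Ps (off (fun _ => c) m) m c A ξ = A ^ (-((c * c : ℕ) : ℤ)) •
        Ps (off (fun _ => c) m) m c A ((lmat m (A⁻¹ ^ (4 * c)) (A ^ 4) k)⁻¹ *ᵥ ξ) := by
  have hu : IsUnit (lmat m (A⁻¹ ^ (4 * c)) (A ^ 4) k).det :=
    lmat_isUnit (pow_ne_zero _ (inv_ne_zero hA)) (pow_ne_zero _ hA) hk
  have hbl : blockLetter (fun _ => c) (k, false) = winv (blockLetter (fun _ => c) (k, true)) := rfl
  set B := wordMat (off (fun _ => c) m) A A⁻¹ (blockLetter (fun _ => c) (k, true)) with hB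
  have h1 := wordMat_mul_winv (off (fun _ => c) m) A A⁻¹ (mul_inv_cancel₀ hA)
    (blockLetter (fun _ => c) (k, true))
  rw [← hB, ← hbl] at h1
  have h2 := mul_eq_one_comm.1 h1
  have h3 := fin2_pos (c := c) hA hk ((lmat m (A⁻¹ ^ (4 * c)) (A ^ 4) k)⁻¹ *ᵥ ξ)
  rw [← hB, Matrix.mulVec_mulVec, Matrix.mul_nonsing_inv _ hu, Matrix.one_mulVec] at h3
  set B' := wordMat (off (fun _ => c) m) A A⁻¹ (blockLetter (fun _ => c) (k, false)) with hB'
  have h4 : B' *ᵥ (B *ᵥ Ps (off (fun _ => c) m) m c A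
      ((lmat m (A⁻¹ ^ (4 * c)) (A ^ 4) k)⁻¹ *ᵥ ξ)) =
      Ps (off (fun _ => c) m) m c A ((lmat m (A⁻¹ ^ (4 * c)) (A ^ 4) k)⁻¹ *ᵥ ξ) := by
    rw [Matrix.mulVec_mulVec, h2, Matrix.one_mulVec]
  rw [h3, Matrix.mulVec_smul] at h4
  rw [← h4, smul_smul, _root_.zpow_neg, zpow_natCast, inv_mul_cancel₀ (pow_ne_zero _ hA), one_smul]

private theorem fin2_word {m c : ℕ} {A : ℂ} (hA : A ≠ 0) : ∀ {w : List (ℕ × Bool)}, Letters m w →
    ∃ e : ℤ, ∀ ξ : Pr m → ℂ,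
      wordMat (off (fun _ => c) m) A A⁻¹ (cab (fun _ => c) w) *ᵥ Ps (off (fun _ => c) m) m c A ξ =
        A ^ e • Ps (off (fun _ => c) m) m c A (lwm m (A⁻¹ ^ (4 * c)) (A ^ 4) w *ᵥ ξ)
  | [], _ => ⟨0, fun ξ => by simp [cab, lwm, wordMat_nil]⟩
  | x :: w, hw => by
    obtain ⟨e, he⟩ := fin2_word hA (w := w) (fun y hy => hw y (by simp [hy]))
    have hx : x.1 + 1 < m := hw x (by simp)
    have h1 : ∃ e' : ℤ, ∀ ξ : Pr m → ℂ,
        wordMat (off (fun _ => c) m) A A⁻¹ (blockLetter (fun _ => c) x) *ᵥ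
          Ps (off (fun _ => c) m) m c A ξ = A ^ e' • Ps (off (fun _ => c) m) m c A
            ((if x.2 then lmat m (A⁻¹ ^ (4 * c)) (A ^ 4) x.1
              else (lmat m (A⁻¹ ^ (4 * c)) (A ^ 4) x.1)⁻¹) *ᵥ ξ) := by
      rcases x with ⟨k, b⟩
      cases b with
      | true =>
        refine ⟨((c * c : ℕ) : ℤ), fun ξ => ?_⟩
        rw [zpow_natCast]
        exact fin2_pos hA hx ξ
      | false =>
        exact ⟨-((c * c : ℕ) : ℤ), fun ξ => fin2_neg hA hx ξ⟩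
    obtain ⟨e', he'⟩ := h1
    refine ⟨e' + e, fun ξ => ?_⟩
    have h2 : cab (fun _ => c) (x :: w) = blockLetter (fun _ => c) x ++ cab (fun _ => c) w := by
      show blockLetter (outc (fun _ => c) w) x ++ cab (fun _ => c) w = _
      rw [fin2_outc]
    have h3 : lwm m (A⁻¹ ^ (4 * c)) (A ^ 4) (x :: w) =
        (if x.2 then lmat m (A⁻¹ ^ (4 * c)) (A ^ 4) x.1
          else (lmat m (A⁻¹ ^ (4 * c)) (A ^ 4) x.1)⁻¹) * lwm m (A⁻¹ ^ (4 * c)) (A ^ 4) w := by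
      simp [lwm]
    rw [h2, h3, wordMat_append, ← Matrix.mulVec_mulVec, he, Matrix.mulVec_smul, he', smul_smul,
      Matrix.mulVec_mulVec, zpow_add₀ hA, mul_comm (A ^ e) (A ^ e')]

theorem fin2 {m : ℕ} {w : List (ℕ × Bool)} (hw : PureWord m w) {c N : ℕ} (hc : 2 ≤ c) {A : ℂ}
    (hA : IsPrimitiveRoot A N) (hN : 4 * c < N) (h : ¬ ColInfinite m (fun _ => c) A w 2) (l : ℂ)
    (hl : Eig (lwm m (A⁻¹ ^ (4 * c)) (A ^ 4) w) l) : ∃ M, 0 < M ∧ l ^ M = 1 := by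
  have hN0 : 0 < N := by omega
  have hAN : A ^ N = 1 := hA.pow_eq_one
  have hA0 : A ≠ 0 := fun h0 => by
    rw [h0, zero_pow (by omega)] at hAN
    exact zero_ne_one hAN
  have hA4 : A ^ 4 ≠ 1 := hA.pow_ne_one_of_pos_of_lt (by norm_num) (by omega)
  have hA4' : A ^ 4 * A⁻¹ ^ (4 * c) ≠ 1 := by
    intro h1
    have h2 : A ^ (4 * c - 4) = 1 := by
      have h3 : A ^ (4 * c) = A ^ (4 * c - 4) * A ^ 4 := by
        rw [← pow_add]
        congr 1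
        omega
      have h4 : A ^ (4 * c - 4) * (A ^ 4 * A⁻¹ ^ (4 * c)) = 1 := by
        rw [← mul_assoc, ← h3, inv_pow, mul_inv_cancel₀ (pow_ne_zero _ hA0)]
      rwa [h1, mul_one] at h4
    exact hA.pow_ne_one_of_pos_of_lt (by omega) (by omega) h2
  unfold ColInfinite at h
  push Not at h
  obtain ⟨p0, hp0, T, hT⟩ := h
  obtain ⟨e, he⟩ := fin2_word (c := c) hA0 hw.1
  set L := lwm m (A⁻¹ ^ (4 * c)) (A ^ 4) w with hLdef
  set W := wordMat (off (fun _ => c) m) A A⁻¹ (cab (fun _ => c) w) with hW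
  have hpow : ∀ (p : ℕ) (ξ : Pr m → ℂ), W ^ p *ᵥ Ps (off (fun _ => c) m) m c A ξ =
      (A ^ e) ^ p • Ps (off (fun _ => c) m) m c A (L ^ p *ᵥ ξ) := by
    intro p
    induction p with
    | zero => intro ξ; simp
    | succ p ih =>
      intro ξ
      rw [pow_succ, ← Matrix.mulVec_mulVec, he, Matrix.mulVec_smul, ih, smul_smul,
        Matrix.mulVec_mulVec, ← pow_succ, ← pow_succ']
  have hAe : (A ^ e) ^ p0 ≠ 0 := pow_ne_zero _ (zpow_ne_zero _ hA0)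
  set T' := ((A ^ e) ^ p0)⁻¹ * T with hT'
  have hLp : ∀ ξ : Pr m → ℂ, L ^ p0 *ᵥ ξ = T' • ξ := by
    intro ξ
    have h1 := hT _ (psi_mem (c := c) hA0 hA4 ξ)
    rw [hpow] at h1
    have h2 : Ps (off (fun _ => c) m) m c A (L ^ p0 *ᵥ ξ) =
        T' • Ps (off (fun _ => c) m) m c A ξ := by
      rw [hT', ← smul_smul, ← h1, smul_smul, inv_mul_cancel₀ hAe, one_smul]
    have h3 : Ps (off (fun _ => c) m) m c A (L ^ p0 *ᵥ ξ - T' • ξ) = 0 := by
      rw [psi_sub, psi_smul, h2, sub_self]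
    exact sub_eq_zero.1 (psi_inj (by omega) hA0 hA4' _ h3)
  have hLT : L ^ p0 = T' • (1 : Matrix (Pr m) (Pr m) ℂ) := by
    apply Matrix.ext_of_mulVec_single
    intro i
    rw [hLp, Matrix.smul_mulVec, Matrix.one_mulVec]
  have hdet : L.det ^ p0 = T' ^ Fintype.card (Pr m) := by
    rw [← Matrix.det_pow, hLT, Matrix.det_smul, Matrix.det_one, mul_one]
  have hqN : (A⁻¹ ^ (4 * c)) ^ N = 1 := by
    rw [← pow_mul, mul_comm (4 * c) N, pow_mul, inv_pow, hAN, inv_one, one_pow]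
  have htN : (A ^ 4) ^ N = 1 := by
    rw [← pow_mul, mul_comm 4 N, pow_mul, hAN, one_pow]
  obtain ⟨M, hM, hM1⟩ := lwm_det_root hN0 hqN htN hw.1
  rw [← hLdef] at hM1
  obtain ⟨v, hv, hLv⟩ := hl
  have hlp : l ^ p0 = T' := by
    have h1 := eig_pow L hLv p0
    rw [hLp] at h1
    by_contra hne
    apply hv
    have h2 : (l ^ p0 - T') • v = 0 := by rw [sub_smul, h1, sub_self]
    exact (smul_eq_zero.1 h2).resolve_left (sub_ne_zero.2 hne)
  have hcard : 0 < Fintype.card (Pr m) := by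
    rw [Fintype.card_pos_iff]
    by_contra hno
    rw [not_nonempty_iff] at hno
    exact hv (funext fun x => (hno.false x).elim)
  refine ⟨p0 * Fintype.card (Pr m) * M, Nat.mul_pos (Nat.mul_pos hp0 hcard) hM, ?_⟩
  rw [pow_mul, pow_mul, hlp, ← hdet, ← pow_mul, mul_comm p0 M, pow_mul, hM1, one_pow]

end Pool.Agent.AMU
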