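import Pool.Agent.AMU0.Red

open Matrix

namespace Pool.Agent.AMU

private lemma desc_succ (n : ℕ) : desc (n + 1) = n :: desc n := by
  unfold desc
  rw [List.range_succ, List.reverse_append]
  rfl

private lemma lt_desc (n : ℕ) : Lt (n + 1) (desc n) := by
  intro x hx
  unfold desc at hx
  rw [List.mem_reverse, List.mem_range] at hx
  omega

private lemma lt_mono {m n : ℕ} (h : m ≤ n) {X : List ℕ} (hX : Lt m X) : Lt n X :=
  fun x hx => lt_of_lt_of_le (hX x hx) h

theorem hw_lt (m : ℕ) : Lt m (hw m) := by
  induction m with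
  | zero => exact lt_nil 0
  | succ m ih =>
    show Lt (m + 1) (hw m ++ desc m)
    exact lt_append.2 ⟨lt_mono (Nat.le_succ m) ih, lt_desc m⟩

private lemma pm_desc (n x : ℕ) :
    pm (desc n) x = if x = 0 then n else if x ≤ n then x - 1 else x := by
  induction n with
  | zero =>
    show x = _
    split_ifs <;> omega
  | succ n ih =>
    rw [desc_succ, pm_cons, Equiv.Perm.mul_apply, ih, Equiv.swap_apply_def]
    split_ifs <;> omega

/-- the permutation of the half twist -/
theorem pm_hw (m x : ℕ) : pm (hw m) x = if x < m then m - 1 - x else x := by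
  induction m generalizing x with
  | zero =>
    show x = _
    simp
  | succ m ih =>
    show pm (hw m ++ desc m) x = _
    rw [pm_append, Equiv.Perm.mul_apply, ih, pm_desc]
    split_ifs <;> omega

/-- the word `m - 1, m - 2, …, m - j` -/
private def dl (m j : ℕ) : List ℕ := (List.range j).map fun i => m - 1 - i

private lemma dl_succ (m j : ℕ) : dl m (j + 1) = dl m j ++ [m - 1 - j] := by
  unfold dl
  rw [List.range_succ, List.map_append]
  rfl

private lemma dl_full (m : ℕ) : dl m m = desc m := by
  unfold dl desc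
  apply List.ext_getElem
  · simp
  · intro i h1 h2
    simp

private lemma pm_dl (m j : ℕ) (hj : j ≤ m) :
    (∀ x, x < m - j → pm (dl m j) x = x) ∧ pm (dl m j) (m - j) = m := by
  induction j with
  | zero => exact ⟨fun x _ => rfl, rfl⟩
  | succ j ih =>
    obtain ⟨h1, h2⟩ := ih (by omega)
    rw [dl_succ, pm_append]
    have h3 : pm [m - 1 - j] = Equiv.swap (m - 1 - j) (m - 1 - j + 1) := by
      rw [pm_cons]
      rfl
    rw [h3]
    constructor
    · intro x hx
      rw [Equiv.Perm.mul_apply, Equiv.swap_apply_of_ne_of_ne (by omega) (by omega)]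
      exact h1 x (by omega)
    · have h4 : m - (j + 1) = m - 1 - j := by omega
      have h5 : m - 1 - j + 1 = m - j := by omega
      rw [Equiv.Perm.mul_apply, h4, Equiv.swap_apply_left, h5]
      exact h2

private lemma red_dl (m : ℕ) (h : Red (hw m)) (j : ℕ) (hj : j ≤ m) : Red (hw m ++ dl m j) := by
  induction j with
  | zero =>
    show Red (hw m ++ [])
    rw [List.append_nil]
    exact h
  | succ j ih =>
    rw [dl_succ, ← List.append_assoc]
    refine red_append (ih (by omega)) ?_
    obtain ⟨h1, h2⟩ := pm_dl m j (by omega)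
    have h5 : m - 1 - j + 1 = m - j := by omega
    rw [pm_append, Equiv.Perm.mul_apply, Equiv.Perm.mul_apply, h1 _ (by omega), h5, h2, pm_hw,
      pm_hw]
    split_ifs <;> omega

theorem hw_red (m : ℕ) : Red (hw m) := by
  induction m with
  | zero => exact trivial
  | succ m ih =>
    show Red (hw m ++ desc m)
    rw [← dl_full]
    exact red_dl m ih m le_rfl

theorem hw_linvr {m i j : ℕ} (hij : i < j) (h : linvr (hw m) i j) : j < m := by
  by_contra hj
  unfold linvr at h
  have h1 : (pm (hw m))⁻¹ j = j := by
    rw [Equiv.Perm.inv_eq_iff_eq, pm_hw, if_neg hj]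
  obtain ⟨y, hy⟩ : ∃ y, y = (pm (hw m))⁻¹ i := ⟨_, rfl⟩
  rw [h1, ← hy] at h
  have h2 : pm (hw m) y = i := by
    rw [hy]; exact (pm (hw m)).apply_symm_apply i
  rw [pm_hw] at h2
  split_ifs at h2 <;> omega

end Pool.Agent.AMU
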