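import Pool.Agent.AMU0.Linv
import Pool.Agent.AMU0.Half1

open Matrix

namespace Pool.Agent.AMU

section
variable {R : Type*} [CommRing R]

private theorem lhw_gt_of {m : ℕ} (ξ : Pr m → R) {i j : ℕ} (hij : i < j) (hj : j < m) :
    gt ξ i j = ξ ⟨(⟨i, by omega⟩, ⟨j, hj⟩), by simpa using hij⟩ := by
  unfold gt
  rw [dif_pos ⟨hij, hj⟩]

private theorem lhw_ext {m : ℕ} {ξ η : Pr m → R}
    (h : ∀ i j : ℕ, i < j → j < m → gt ξ i j = gt η i j) : ξ = η := by
  funext x
  obtain ⟨⟨⟨i, hi⟩, ⟨j, hj⟩⟩, hij⟩ := x
  have hij' : i < j := by simpa using hij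
  have := h i j hij' hj
  rwa [lhw_gt_of ξ hij' hj, lhw_gt_of η hij' hj] at this

/-- the rows of the operator of a letter -/
private theorem lhw_lop (m : ℕ) (q t : R) (k : ℕ) (ξ : Pr m → R) {i j : ℕ} (hij : i < j)
    (hj : j < m) : gt (lop m q t k ξ) i j =
      if i = k ∧ j = k + 1 then
        t * (q ^ 2 * gt ξ k (k + 1)
          + ∑ i' ∈ Finset.range k, q ^ (k - i' + 1) * (q - 1) * gt ξ i' (k + 1)
          + ∑ j' ∈ Finset.Ico (k + 2) m, q * (q - 1) * gt ξ k j'
          + ∑ i' ∈ Finset.range k, ∑ j' ∈ Finset.Ico (k + 2) m,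
              q ^ (k - i') * (q - 1) ^ 2 * gt ξ i' j')
      else if j = k then (1 - q) * gt ξ i k + gt ξ i (k + 1)
      else if j = k + 1 then q * gt ξ i k
      else if i = k then gt ξ (k + 1) j
      else if i = k + 1 then q * gt ξ k j + (1 - q) * gt ξ (k + 1) j
      else gt ξ i j := by
  rw [lhw_gt_of _ hij hj]
  rfl

/-- the action of a positive word -/
private theorem lhw_cons (m : ℕ) (q t : R) (k : ℕ) (X : List ℕ) (ξ : Pr m → R) :
    lpm m q t (k :: X) *ᵥ ξ = lop m q t k (lpm m q t X *ᵥ ξ) := by
  rw [← lmat_mulVec, mulVec_mulVec]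
  simp [lpm]

private theorem lhw_app (m : ℕ) (q t : R) (X Y : List ℕ) (ξ : Pr m → R) :
    lpm m q t (X ++ Y) *ᵥ ξ = lpm m q t X *ᵥ (lpm m q t Y *ᵥ ξ) := by
  rw [lpm_append, mulVec_mulVec]

private theorem lhw_nil (m : ℕ) (q t : R) (ξ : Pr m → R) : lpm m q t [] *ᵥ ξ = ξ := by
  simp [lpm]

/-- the functional `F_i` -/
private def lhwF {m : ℕ} (q t : R) (ξ : Pr m → R) (i : ℕ) : R :=
  t * q ^ (i + 1) * (q * gt ξ 0 (i + 1) + (q - 1) * ∑ j ∈ Finset.Ico (i + 2) m, gt ξ 0 j)

private theorem lhw_desc_succ (n : ℕ) : desc (n + 1) = n :: desc n := by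
  simp [desc, List.range_succ]

/-- the formula (D) -/
private theorem lhw_D (m : ℕ) (q t : R) (ξ : Pr m → R) (n : ℕ) (hn : n < m) (i j : ℕ)
    (hij : i < j) (hj : j < m) : gt (lpm m q t (desc n) *ᵥ ξ) i j =
      if i < n then
        if j < n then gt ξ (i + 1) (j + 1) + (1 - q) * q ^ (j - i - 1) * lhwF q t ξ i
        else if j = n then q ^ (n - i - 1) * lhwF q t ξ i
        else gt ξ (i + 1) j
      else if i = n then
        q ^ n * gt ξ 0 j + (1 - q) * ∑ l ∈ Finset.range n, q ^ (n - 1 - l) * gt ξ (l + 1) j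
      else gt ξ i j := by
  induction n generalizing i j with
  | zero =>
    have : desc 0 = [] := rfl
    rw [this, lhw_nil]
    by_cases h0 : i = 0
    · subst h0; simp
    · rw [if_neg (by omega), if_neg h0]
  | succ n ih =>
    have ih' := ih (by omega)
    rw [lhw_desc_succ, lhw_cons, lhw_lop _ _ _ _ _ hij hj]
    set η := lpm m q t (desc n) *ᵥ ξ with hη
    -- the values of `η`
    have e1 : ∀ a b, a < n → n < b → b < m → gt η a b = gt ξ (a + 1) b := by
      intro a b ha hb hbm
      rw [ih' a b (by omega) hbm, if_pos ha, if_neg (by omega), if_neg (by omega)]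
    have e2 : ∀ b, n < b → b < m → gt η n b =
        q ^ n * gt ξ 0 b + (1 - q) * ∑ l ∈ Finset.range n, q ^ (n - 1 - l) * gt ξ (l + 1) b := by
      intro b hb hbm
      rw [ih' n b hb hbm, if_neg (by omega), if_pos rfl]
    have e3 : ∀ a, a < n → gt η a n = q ^ (n - a - 1) * lhwF q t ξ a := by
      intro a ha
      rw [ih' a n ha (by omega), if_pos ha, if_neg (by omega), if_pos rfl]
    have e4 : ∀ b, n < b → b < m →
        q * gt η n b + ∑ i' ∈ Finset.range n, q ^ (n - i') * (q - 1) * gt η i' b =
          q ^ (n + 1) * gt ξ 0 b := by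
      intro b hb hbm
      rw [e2 b hb hbm]
      have hs : ∑ i' ∈ Finset.range n, q ^ (n - i') * (q - 1) * gt η i' b =
          (q - 1) * q * ∑ l ∈ Finset.range n, q ^ (n - 1 - l) * gt ξ (l + 1) b := by
        rw [Finset.mul_sum]
        refine Finset.sum_congr rfl fun l hl => ?_
        have hl' := Finset.mem_range.1 hl
        rw [e1 l b hl' hb hbm, show n - l = (n - 1 - l) + 1 by omega, pow_succ]
        ring
      rw [hs]
      ring
    by_cases h1 : i = n ∧ j = n + 1
    · obtain ⟨rfl, rfl⟩ := h1
      rw [if_pos ⟨rfl, rfl⟩, if_pos (by omega), if_neg (by omega), if_pos rfl]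
      have hx : i + 1 - i - 1 = 0 := by omega
      rw [hx, pow_zero, one_mul]
      have f1 : q ^ 2 * gt η i (i + 1)
          + ∑ i' ∈ Finset.range i, q ^ (i - i' + 1) * (q - 1) * gt η i' (i + 1) =
          q * (q ^ (i + 1) * gt ξ 0 (i + 1)) := by
        rw [← e4 (i + 1) (by omega) hj, mul_add, Finset.mul_sum]
        congr 1
        · ring
        · refine Finset.sum_congr rfl fun l _ => ?_
          ring
      have f2 : ∑ j' ∈ Finset.Ico (i + 2) m, q * (q - 1) * gt η i j'
          + ∑ i' ∈ Finset.range i, ∑ j' ∈ Finset.Ico (i + 2) m,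
              q ^ (i - i') * (q - 1) ^ 2 * gt η i' j' =
          (q - 1) * (q ^ (i + 1) * ∑ j' ∈ Finset.Ico (i + 2) m, gt ξ 0 j') := by
        rw [Finset.sum_comm, ← Finset.sum_add_distrib, Finset.mul_sum, Finset.mul_sum]
        refine Finset.sum_congr rfl fun b hb => ?_
        have hb' := Finset.mem_Ico.1 hb
        rw [← e4 b (by omega) hb'.2, mul_add, Finset.mul_sum]
        congr 1
        · ring
        · refine Finset.sum_congr rfl fun l _ => ?_
          ring
      rw [f1, add_assoc, f2, lhwF]
      ring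
    · rw [if_neg h1]
      by_cases h2 : j = n
      · subst h2
        rw [if_pos rfl, if_pos (by omega), if_pos (by omega), e3 i hij,
          e1 i (j + 1) hij (by omega) (by omega)]
        ring
      · rw [if_neg h2]
        by_cases h3 : j = n + 1
        · subst h3
          have hi : i < n := by omega
          rw [if_pos rfl, if_pos (by omega), if_neg (by omega), if_pos rfl, e3 i hi,
            show n + 1 - i - 1 = (n - i - 1) + 1 by omega, pow_succ]
          ring
        · rw [if_neg h3]
          by_cases h4 : i = n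
          · subst h4
            rw [if_pos rfl, if_pos (by omega), if_neg (by omega), if_neg (by omega),
              ih' (i + 1) j (by omega) hj, if_neg (by omega), if_neg (by omega)]
          · rw [if_neg h4]
            by_cases h5 : i = n + 1
            · subst h5
              rw [if_pos rfl, if_neg (by omega), if_pos rfl, e2 j (by omega) hj,
                ih' (n + 1) j hij hj, if_neg (by omega), if_neg (by omega),
                Finset.sum_range_succ, show n + 1 - 1 - n = 0 by omega]
              have hs : ∑ l ∈ Finset.range n, q ^ (n + 1 - 1 - l) * gt ξ (l + 1) j =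
                  q * ∑ l ∈ Finset.range n, q ^ (n - 1 - l) * gt ξ (l + 1) j := by
                rw [Finset.mul_sum]
                refine Finset.sum_congr rfl fun l hl => ?_
                have hl' := Finset.mem_range.1 hl
                rw [show n + 1 - 1 - l = (n - 1 - l) + 1 by omega, pow_succ]
                ring
              rw [hs]
              ring
            · rw [if_neg h5, ih' i j hij hj]
              by_cases h6 : i < n
              · rw [if_pos h6, if_pos (show i < n + 1 by omega)]
                by_cases h7 : j < n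
                · rw [if_pos h7, if_pos (by omega)]
                · rw [if_neg h7, if_neg h2, if_neg (by omega), if_neg h3]
              · rw [if_neg h6, if_neg h4, if_neg (by omega), if_neg h5]

/-- the telescoping sum in the case `j = n` of (H) -/
private theorem lhw_tel {m : ℕ} (q : R) (ξ : Pr m → R) (n : ℕ) (hn : n < m) (i : ℕ) (hi : i ≤ n) :
    q ^ i * ∑ j ∈ Finset.Ico (n - i + 1) m, gt ξ 0 j -
      ∑ l ∈ Finset.range i, q ^ l * (q * gt ξ 0 (n - l) +
        (q - 1) * ∑ j ∈ Finset.Ico (n - l + 1) m, gt ξ 0 j) =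
      ∑ j ∈ Finset.Ico (n + 1) m, gt ξ 0 j := by
  induction i with
  | zero => simp
  | succ i ih =>
    have ih' := ih (by omega)
    rw [Finset.sum_range_succ]
    have hI : ∑ j ∈ Finset.Ico (n - (i + 1) + 1) m, gt ξ 0 j =
        gt ξ 0 (n - i) + ∑ j ∈ Finset.Ico (n - i + 1) m, gt ξ 0 j := by
      rw [show n - (i + 1) + 1 = n - i by omega, ← Finset.sum_eq_sum_Ico_succ_bot (by omega)]
    rw [hI, ← ih']
    ring

/-- the formula (H) -/
private theorem lhw_H (m : ℕ) (q t : R) (n : ℕ) (hn : n ≤ m) (ξ : Pr m → R) (i j : ℕ)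
    (hij : i < j) (hj : j < m) : gt (lpm m q t (hw n) *ᵥ ξ) i j =
      if j < n then t * q ^ (i + j + 1) * gt ξ (n - 1 - j) (n - 1 - i) +
        t * q ^ j * (q - 1) * ∑ l ∈ Finset.Ico n m, gt ξ (n - 1 - j) l
      else if i < n then q ^ i * gt ξ (n - 1 - i) j +
        (1 - q) * ∑ l ∈ Finset.range i, q ^ l * gt ξ (n - 1 - l) j
      else gt ξ i j := by
  induction n generalizing i j ξ with
  | zero =>
    have : hw 0 = [] := rfl
    rw [this, lhw_nil]
    rw [if_neg (by omega), if_neg (by omega)]
  | succ n ih =>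
    have hh : hw (n + 1) = hw n ++ desc n := rfl
    rw [hh, lhw_app, ih (by omega) _ i j hij hj]
    have hD := lhw_D m q t ξ n (by omega)
    set η := lpm m q t (desc n) *ᵥ ξ with hη
    have e1 : ∀ a b, a < n → n < b → b < m → gt η a b = gt ξ (a + 1) b := by
      intro a b ha hb hbm
      rw [hD a b (by omega) hbm, if_pos ha, if_neg (by omega), if_neg (by omega)]
    have e3 : ∀ a, a < n → gt η a n = q ^ (n - a - 1) * lhwF q t ξ a := by
      intro a ha
      rw [hD a n ha (by omega), if_pos ha, if_neg (by omega), if_pos rfl]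
    by_cases h1 : j < n
    · rw [if_pos h1, if_pos (by omega)]
      have ha : n - 1 - j < n := by omega
      have hab : n - 1 - j < n - 1 - i := by omega
      rw [hD (n - 1 - j) (n - 1 - i) hab (by omega), if_pos ha, if_pos (by omega),
        Finset.sum_eq_sum_Ico_succ_bot (by omega : n < m), e3 _ ha]
      have hs : ∑ l ∈ Finset.Ico (n + 1) m, gt η (n - 1 - j) l =
          ∑ l ∈ Finset.Ico (n + 1) m, gt ξ (n + 1 - 1 - j) l := by
        refine Finset.sum_congr rfl fun l hl => ?_
        have hl' := Finset.mem_Ico.1 hl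
        rw [e1 _ l ha (by omega) hl'.2, show n - 1 - j + 1 = n + 1 - 1 - j by omega]
      rw [hs, show n - 1 - j + 1 = n + 1 - 1 - j by omega,
        show n - 1 - i + 1 = n + 1 - 1 - i by omega,
        show n - 1 - i - (n - 1 - j) - 1 = j - i - 1 by omega,
        show n - (n - 1 - j) - 1 = j by omega]
      have hp : q ^ (i + j + 1) * q ^ (j - i - 1) = q ^ j * q ^ j := by
        rw [← pow_add, ← pow_add]
        congr 1
        omega
      linear_combination (t * (1 - q) * lhwF q t ξ (n - 1 - j)) * hp
    · rw [if_neg h1]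
      by_cases h2 : j = n
      · subst h2
        rw [if_pos hij, if_pos (by omega), e3 _ (by omega)]
        have hs : ∑ l ∈ Finset.range i, q ^ l * gt η (j - 1 - l) j =
            t * q ^ j * ∑ l ∈ Finset.range i, q ^ l * (q * gt ξ 0 (j - l) +
              (q - 1) * ∑ j' ∈ Finset.Ico (j - l + 1) m, gt ξ 0 j') := by
          rw [Finset.mul_sum]
          refine Finset.sum_congr rfl fun l hl => ?_
          have hl' := Finset.mem_range.1 hl
          rw [e3 _ (by omega), lhwF, show j - (j - 1 - l) - 1 = l by omega,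
            show j - 1 - l + 1 = j - l by omega, show j - 1 - l + 2 = j - l + 1 by omega]
          have hp : q ^ l * q ^ (j - l) = q ^ j := by
            rw [← pow_add]
            congr 1
            omega
          linear_combination (t * q ^ l * (q * gt ξ 0 (j - l) +
            (q - 1) * ∑ j' ∈ Finset.Ico (j - l + 1) m, gt ξ 0 j')) * hp
        have ht := lhw_tel q ξ j hj i (by omega)
        rw [hs, lhwF, show j - (j - 1 - i) - 1 = i by omega,
          show j - 1 - i + 1 = j - i by omega, show j - 1 - i + 2 = j - i + 1 by omega,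
          show j + 1 - 1 - j = 0 by omega, show j + 1 - 1 - i = j - i by omega]
        have hp : q ^ i * q ^ (j - i) = q ^ j := by
          rw [← pow_add]
          congr 1
          omega
        rw [pow_succ q (i + j), pow_add q i j]
        linear_combination (t * q ^ i * (q * gt ξ 0 (j - i) +
            (q - 1) * ∑ j' ∈ Finset.Ico (j - i + 1) m, gt ξ 0 j')) * hp +
            (t * q ^ j * (q - 1)) * ht
      · have h3 : n < j := by omega
        rw [if_neg (show ¬ j < n + 1 by omega)]
        by_cases h4 : i < n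
        · rw [if_pos h4, if_pos (by omega), e1 _ j (by omega) h3 hj]
          have hs : ∑ l ∈ Finset.range i, q ^ l * gt η (n - 1 - l) j =
              ∑ l ∈ Finset.range i, q ^ l * gt ξ (n + 1 - 1 - l) j := by
            refine Finset.sum_congr rfl fun l hl => ?_
            have hl' := Finset.mem_range.1 hl
            rw [e1 _ j (by omega) h3 hj, show n - 1 - l + 1 = n + 1 - 1 - l by omega]
          rw [hs, show n - 1 - i + 1 = n + 1 - 1 - i by omega]
        · rw [if_neg h4]
          by_cases h5 : i = n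
          · subst h5
            rw [if_pos (by omega), hD i j hij hj, if_neg (by omega), if_pos rfl,
              show i + 1 - 1 - i = 0 by omega]
            congr 2
            rw [← Finset.sum_range_reflect]
            refine Finset.sum_congr rfl fun l hl => ?_
            have hl' := Finset.mem_range.1 hl
            rw [show i - 1 - (i - 1 - l) = l by omega,
              show i - 1 - l + 1 = i + 1 - 1 - l by omega]
          · rw [if_neg (by omega), hD i j hij hj, if_neg h4, if_neg h5]

end

/-- the half twist in Krammer's representation -/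
theorem lhw {R : Type*} [CommRing R] (m : ℕ) (q t : R) (ξ : Pr m → R) :
    lpm m q t (hw m) *ᵥ ξ = fun x =>
      t * q ^ ((x.1.1 : ℕ) + x.1.2 + 1) * gt ξ (m - 1 - x.1.2) (m - 1 - x.1.1) := by
  refine lhw_ext fun i j hij hj => ?_
  rw [lhw_H m q t m le_rfl ξ i j hij hj, if_pos hj, lhw_gt_of _ hij hj]
  simp

theorem lhw_sq {R : Type*} [CommRing R] (m : ℕ) (q t : R) :
    lpm m q t (hw m ++ hw m) = (t ^ 2 * q ^ (2 * m)) • 1 := by
  refine Matrix.ext_iff_mulVec.2 fun ξ => ?_
  rw [lhw_app]
  refine lhw_ext fun i j hij hj => ?_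
  rw [lhw, lhw_gt_of _ hij hj, lhw, lhw_gt_of _ (by omega : m - 1 - j < m - 1 - i) (by omega),
    smul_mulVec, one_mulVec, lhw_gt_of _ hij hj, Pi.smul_apply, smul_eq_mul,
    ← lhw_gt_of ξ hij hj]
  have h1 : m - 1 - (m - 1 - i) = i := by omega
  have h2 : m - 1 - (m - 1 - j) = j := by omega
  have hp : q ^ (i + j + 1) * q ^ (m - 1 - j + (m - 1 - i) + 1) = q ^ (2 * m) := by
    rw [← pow_add]
    congr 1
    omega
  simp only [h1, h2]
  linear_combination (t ^ 2 * gt ξ i j) * hp

end Pool.Agent.AMU
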