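import Pool.Agent.AMU0.Base

open Matrix

namespace Pool.Agent.AMU

/-- unimodularity on a dense set -/
theorem unimod_dense {ι E : Type*} [Fintype ι] [DecidableEq ι] [TopologicalSpace E]
    (M : E → Matrix ι ι ℂ) (x : E) (hc : ContinuousAt M x) (S : Set E) (hx : x ∈ closure S)
    (h : ∀ y ∈ S, ∀ l, Eig (M y) l → ‖l‖ = 1) (l : ℂ) (hl : Eig (M x) l) : ‖l‖ = 1 := by
  by_contra hne
  have hη : 0 < |‖l‖ - 1| ^ Fintype.card ι := by
    have : 0 < |‖l‖ - 1| := abs_pos.2 (sub_ne_zero.2 hne)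
    positivity
  have hc' : ContinuousAt (fun y : E => ‖(Matrix.scalar ι l - M y).det‖) x := by
    have h1 : ContinuousAt (fun y : E => Matrix.scalar ι l - M y) x :=
      continuousAt_const.sub hc
    have h2 : Continuous fun M : Matrix ι ι ℂ => ‖M.det‖ :=
      continuous_id.matrix_det.norm
    exact ContinuousAt.comp (g := fun M : Matrix ι ι ℂ => ‖M.det‖) h2.continuousAt h1
  have h0 : ‖(Matrix.scalar ι l - M x).det‖ < |‖l‖ - 1| ^ Fintype.card ι := by
    rw [(eig_iff_det _ _).1 hl, norm_zero]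
    exact hη
  have h3 := hc'.eventually_lt_const h0
  obtain ⟨y, hy, hyS⟩ := (mem_closure_iff_frequently.1 hx).and_eventually h3 |>.exists
  have h2 := norm_det_ge _ (h y hy) l
  exact absurd h2 (not_le.2 hyS)

private lemma zd_exp_arg {z : ℂ} (hz : ‖z‖ = 1) : ((Circle.exp (Complex.arg z) : Circle) : ℂ) = z := by
  rw [Circle.coe_exp]
  have h := Complex.norm_mul_exp_arg_mul_I z
  rw [hz] at h
  simpa using h

private lemma zd_toCircle {z : ℂ} (hz : ‖z‖ = 1) :
    ((AddCircle.toCircle ((Complex.arg z : ℝ) : AddCircle (2 * Real.pi)) : Circle) : ℂ) = z := by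
  rw [AddCircle.toCircle_apply_mk, div_self Real.two_pi_pos.ne', one_mul]
  exact zd_exp_arg hz

/-- the powers of an element of infinite order are dense in the circle -/
theorem dense_pow {A : ℂ} (hA : ‖A‖ = 1) (hinf : ∀ n : ℕ, 0 < n → A ^ n ≠ 1) {z : ℂ}
    (hz : ‖z‖ = 1) {ε : ℝ} (hε : 0 < ε) : ∃ c : ℕ, 2 ≤ c ∧ ‖A⁻¹ ^ (4 * c) - z‖ < ε := by
  have hfact : Fact (0 < 2 * Real.pi) := ⟨Real.two_pi_pos⟩
  have hB : ‖A⁻¹ ^ 4‖ = 1 := by rw [norm_pow, norm_inv, hA]; norm_num
  set a : AddCircle (2 * Real.pi) := ((Complex.arg (A⁻¹ ^ 4) : ℝ) : AddCircle (2 * Real.pi)) with ha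
  have hac : ((AddCircle.toCircle a : Circle) : ℂ) = A⁻¹ ^ 4 := zd_toCircle hB
  have hpow : ∀ n : ℕ, ((AddCircle.toCircle (n • a) : Circle) : ℂ) = A⁻¹ ^ (4 * n) := by
    intro n
    rw [pow_mul, ← hac]
    induction n with
    | zero => simp
    | succ n ih =>
      rw [succ_nsmul, AddCircle.toCircle_add, Circle.coe_mul, ih, pow_succ]
  have hord : addOrderOf a = 0 := by
    by_contra hne
    have h1 := addOrderOf_nsmul_eq_zero a
    have h2 := hpow (addOrderOf a)
    rw [h1, AddCircle.toCircle_zero, Circle.coe_one] at h2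
    refine hinf (4 * addOrderOf a) (by omega) ?_
    have h3 : (A⁻¹ ^ (4 * addOrderOf a)) = (A ^ (4 * addOrderOf a))⁻¹ := inv_pow _ _
    rw [h3] at h2
    exact inv_eq_one.1 h2.symm
  have hd : DenseRange (· • a : ℤ → AddCircle (2 * Real.pi)) :=
    AddCircle.denseRange_zsmul_iff.2 hord
  set b : AddCircle (2 * Real.pi) := ((Complex.arg z : ℝ) : AddCircle (2 * Real.pi)) with hb
  have hbc : ((AddCircle.toCircle b : Circle) : ℂ) = z := zd_toCircle hz
  have hmem : b ∈ (AddSubgroup.zmultiples a).topologicalClosure := by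
    have := hd b
    exact this
  have hcl := mapClusterPt_atTop_nsmul_iff_mem_topologicalClosure_zmultiples.2 hmem
  have hcont : Continuous fun y : AddCircle (2 * Real.pi) =>
      ‖((AddCircle.toCircle y : Circle) : ℂ) - z‖ := by
    have h1 : Continuous (AddCircle.toCircle : AddCircle (2 * Real.pi) → Circle) :=
      AddCircle.continuous_toCircle
    exact ((continuous_subtype_val.comp h1).sub continuous_const).norm
  have hnhds : {y : AddCircle (2 * Real.pi) | ‖((AddCircle.toCircle y : Circle) : ℂ) - z‖ < ε} ∈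
      nhds b := by
    refine (isOpen_lt hcont continuous_const).mem_nhds ?_
    change ‖((AddCircle.toCircle b : Circle) : ℂ) - z‖ < ε
    rw [hbc, sub_self, norm_zero]
    exact hε
  obtain ⟨c, hc1, hc2⟩ := (hcl.frequently hnhds).and_eventually (Filter.eventually_ge_atTop 2)
    |>.exists
  refine ⟨c, hc2, ?_⟩
  rw [← hpow]
  exact hc1

/-- elements of infinite order are dense in the circle -/
theorem dense_inf {z : ℂ} (hz : ‖z‖ = 1) {ε : ℝ} (hε : 0 < ε) :
    ∃ A : ℂ, ‖A‖ = 1 ∧ (∀ n : ℕ, 0 < n → A ^ n ≠ 1) ∧ ‖A ^ 4 - z‖ < ε := by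
  have hcont : Continuous fun t : ℝ => ‖((Circle.exp t : Circle) : ℂ) ^ 4 - z‖ := by
    have h1 : Continuous fun t : ℝ => ((Circle.exp t : Circle) : ℂ) :=
      continuous_subtype_val.comp Circle.exp.continuous
    exact ((h1.pow 4).sub continuous_const).norm
  set t0 : ℝ := Complex.arg z / 4 with ht0
  have h0 : ((Circle.exp t0 : Circle) : ℂ) ^ 4 = z := by
    rw [← Circle.coe_pow, ← Circle.exp_nsmul]
    have : (4 : ℕ) • t0 = Complex.arg z := by rw [ht0, nsmul_eq_mul]; push_cast; ring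
    rw [this]
    exact zd_exp_arg hz
  have hopen : IsOpen {t : ℝ | ‖((Circle.exp t : Circle) : ℂ) ^ 4 - z‖ < ε} :=
    isOpen_lt hcont continuous_const
  have hne : {t : ℝ | ‖((Circle.exp t : Circle) : ℂ) ^ 4 - z‖ < ε}.Nonempty := by
    refine ⟨t0, ?_⟩
    change ‖((Circle.exp t0 : Circle) : ℂ) ^ 4 - z‖ < ε
    rw [h0, sub_self, norm_zero]
    exact hε
  have hcount : {t : ℝ | ∃ q : ℚ, t = q * (2 * Real.pi)}.Countable := by
    have : {t : ℝ | ∃ q : ℚ, t = q * (2 * Real.pi)} = Set.range fun q : ℚ => (q : ℝ) * (2 * Real.pi) := by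
      ext t
      constructor
      · rintro ⟨q, rfl⟩
        exact ⟨q, rfl⟩
      · rintro ⟨q, rfl⟩
        exact ⟨q, rfl⟩
    rw [this]
    exact Set.countable_range _
  have hdense : Dense {t : ℝ | ∃ q : ℚ, t = q * (2 * Real.pi)}ᶜ := hcount.dense_compl ℝ
  obtain ⟨t, ht1, ht2⟩ := hdense.inter_open_nonempty _ hopen hne
  refine ⟨((Circle.exp t : Circle) : ℂ), Circle.norm_coe _, ?_, ht1⟩
  intro n hn h
  apply ht2
  rw [← Circle.coe_pow, ← Circle.exp_nsmul, nsmul_eq_mul] at h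
  have h2 : Circle.exp ((n : ℝ) * t) = 1 := Circle.ext (by rw [h, Circle.coe_one])
  rw [Circle.exp_eq_one] at h2
  obtain ⟨k, hk⟩ := h2
  refine ⟨(k : ℚ) / n, ?_⟩
  have hn' : (n : ℝ) ≠ 0 := by positivity
  push_cast
  field_simp
  linarith

end Pool.Agent.AMU
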