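import Pool.Agent.AMU0.Base

open Matrix Polynomial

namespace Pool.Agent.AMU

private lemma zo_exponent {ι : Type*} [Fintype ι] [DecidableEq ι] (T : Matrix ι ι ℂ)
    (h : ∀ l, Eig T l → ∃ M, 0 < M ∧ l ^ M = 1) : ∃ M, 0 < M ∧ ∀ l, Eig T l → l ^ M = 1 := by
  have key : ∀ s : Multiset ℂ, (∀ l ∈ s, ∃ M, 0 < M ∧ l ^ M = 1) →
      ∃ M, 0 < M ∧ ∀ l ∈ s, l ^ M = 1 := by
    intro s
    induction s using Multiset.induction_on with
    | empty => exact fun _ => ⟨1, one_pos, by simp⟩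
    | cons a s ih =>
      intro hs
      obtain ⟨M, hM, hM'⟩ := ih fun l hl => hs l (Multiset.mem_cons_of_mem hl)
      obtain ⟨P, hP, hP'⟩ := hs a (Multiset.mem_cons_self a s)
      refine ⟨M * P, Nat.mul_pos hM hP, fun l hl => ?_⟩
      rcases Multiset.mem_cons.1 hl with rfl | hl
      · rw [mul_comm, pow_mul, hP', one_pow]
      · rw [pow_mul, hM' l hl, one_pow]
  obtain ⟨M, hM, hM'⟩ := key T.charpoly.roots fun l hl => h l ((eig_iff_root T l).2 hl)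
  exact ⟨M, hM, fun l hl => hM' l ((eig_iff_root T l).1 hl)⟩

/-- Galois transfer of the unipotency of a power. -/
private lemma zo_transfer {ι : Type*} [Fintype ι] [DecidableEq ι] (T : Matrix ι ι ℤ[X][X])
    {N : ℕ} (hN : 0 < N) {A A' : ℂ} (hA : IsPrimitiveRoot A N)
    (hA' : IsPrimitiveRoot A' N) (M D : ℕ)
    (h : ((T.map (ev2 A A⁻¹)) ^ M - 1) ^ D = 0) : ((T.map (ev2 A' A'⁻¹)) ^ M - 1) ^ D = 0 := by
  let g : ℤ[X][X] →+* ℤ[X] := Polynomial.evalRingHom (X ^ (N - 1) : ℤ[X])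
  have hcomp : ∀ B : ℂ, IsPrimitiveRoot B N →
      ((aeval B : ℤ[X] →ₐ[ℤ] ℂ).toRingHom).comp g = ev2 B B⁻¹ := by
    intro B hB
    have h1 : B ^ (N - 1) = B⁻¹ := by
      have h2 : B ^ (N - 1) * B = 1 := by rw [← pow_succ, Nat.sub_add_cancel hN, hB.pow_eq_one]
      exact eq_inv_of_mul_eq_one_left h2
    refine Polynomial.ringHom_ext ?_ ?_
    · intro a
      simp [g, ev2]
    · simp [g, ev2, h1]
  have key : ∀ B : ℂ, IsPrimitiveRoot B N →
      (((T.map g) ^ M - 1) ^ D).map (aeval B : ℤ[X] →ₐ[ℤ] ℂ).toRingHom =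
        ((T.map (ev2 B B⁻¹)) ^ M - 1) ^ D := by
    intro B hB
    have h3 : T.map (ev2 B B⁻¹) = (T.map g).map (aeval B : ℤ[X] →ₐ[ℤ] ℂ).toRingHom := by
      rw [← hcomp B hB]
      rfl
    rw [h3]
    show (RingHom.mapMatrix _ _) = _
    rw [map_pow, map_sub, map_pow, map_one]
    rfl
  rw [← key A' hA']
  rw [← key A hA] at h
  ext i j
  have h1 := congrFun (congrFun h i) j
  simp only [Matrix.map_apply, Matrix.zero_apply] at h1 ⊢
  generalize (((T.map g) ^ M - 1) ^ D) i j = P at h1 ⊢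
  have h2 : aeval A P = 0 := h1
  have h3 : minpoly ℤ A ∣ P := minpoly.isIntegrallyClosed_dvd (hA.isIntegral hN) h2
  have h4 : minpoly ℤ A = minpoly ℤ A' := by
    rw [← cyclotomic_eq_minpoly hA hN, ← cyclotomic_eq_minpoly hA' hN]
  obtain ⟨Q, hQ⟩ := h3
  show aeval A' P = 0
  rw [hQ, h4, map_mul, minpoly.aeval, zero_mul]

private lemma zo_cont (p : ℤ[X][X]) : Continuous fun x : ℂ × ℂ => ev2 x.1 x.2 p := by
  have h1 : ∀ x : ℂ × ℂ, ev2 x.1 x.2 p =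
      ∑ i ∈ Finset.range (p.natDegree + 1), Polynomial.aeval x.1 (p.coeff i) * x.2 ^ i := by
    intro x
    unfold ev2
    rw [Polynomial.coe_eval₂RingHom, Polynomial.eval₂_eq_sum_range]
    rfl
  rw [show (fun x : ℂ × ℂ => ev2 x.1 x.2 p) = fun x : ℂ × ℂ =>
    ∑ i ∈ Finset.range (p.natDegree + 1), Polynomial.aeval x.1 (p.coeff i) * x.2 ^ i from
    funext h1]
  refine continuous_finsetSum _ fun i _ => ?_
  exact ((Polynomial.continuous_aeval (p.coeff i)).comp continuous_fst).mul (continuous_snd.pow i)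

private lemma zo_contAt {ι : Type*} [Fintype ι] [DecidableEq ι] (T : Matrix ι ι ℤ[X][X])
    {A0 : ℂ} (h : A0 ≠ 0) : ContinuousAt (fun A : ℂ => T.map (ev2 A A⁻¹)) A0 := by
  have h1 : ContinuousAt (fun A : ℂ => (A, A⁻¹)) A0 :=
    continuousAt_id.prodMk (continuousAt_inv₀ h)
  have h2 : Continuous fun x : ℂ × ℂ => T.map (ev2 x.1 x.2) := by
    refine continuous_pi fun i => continuous_pi fun j => ?_
    exact zo_cont (T i j)
  exact ContinuousAt.comp (f := fun A : ℂ => (A, A⁻¹))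
    (g := fun x : ℂ × ℂ => T.map (ev2 x.1 x.2)) h2.continuousAt h1

/-- the zero-one principle for integral matrices in `A` and `A⁻¹` -/
theorem zo {ι : Type*} [Fintype ι] [DecidableEq ι] (N : Matrix ι ι ℤ[X][X])
    (h : ∀ N0 : ℕ, ∃ n, N0 ≤ n ∧ ∃ A : ℂ, IsPrimitiveRoot A n ∧
      ∀ l, Eig (N.map (ev2 A A⁻¹)) l → ∃ M, 0 < M ∧ l ^ M = 1) (A : ℂ) (hA : ‖A‖ = 1) (l : ℂ)
    (hl : Eig (N.map (ev2 A A⁻¹)) l) : ‖l‖ = 1 := by
  have h' : ∀ N0 : ℕ, ∃ n, N0 ≤ n ∧ ∀ A' : ℂ, IsPrimitiveRoot A' n →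
      ∀ l, Eig (N.map (ev2 A' A'⁻¹)) l → ‖l‖ = 1 := by
    intro N0
    obtain ⟨n, hn, A1, hA1, hA1'⟩ := h (max N0 1)
    have hn0 : 0 < n := lt_of_lt_of_le Nat.one_pos ((le_max_right _ _).trans hn)
    refine ⟨n, (le_max_left _ _).trans hn, ?_⟩
    intro A' hA' l hl
    obtain ⟨M, hM, hM'⟩ := zo_exponent _ hA1'
    have h1 := zo_transfer N hn0 hA1 hA' M _ (unipotent_of_eig _ M hM')
    exact norm_eq_one_of_pow hM (eig_of_unipotent _ M _ h1 hl)
  by_contra hne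
  have hη : 0 < |‖l‖ - 1| ^ Fintype.card ι := by
    have : 0 < |‖l‖ - 1| := abs_pos.2 (sub_ne_zero.2 hne)
    positivity
  have hA0' : A ≠ 0 := by rintro rfl; simp at hA
  have hc : ContinuousAt (fun B : ℂ => ‖(Matrix.scalar ι l - N.map (ev2 B B⁻¹)).det‖) A := by
    have h1 : ContinuousAt (fun B : ℂ => Matrix.scalar ι l - N.map (ev2 B B⁻¹)) A :=
      continuousAt_const.sub (zo_contAt N hA0')
    have h2 : Continuous fun M : Matrix ι ι ℂ => ‖M.det‖ := continuous_id.matrix_det.norm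
    exact ContinuousAt.comp (g := fun M : Matrix ι ι ℂ => ‖M.det‖) h2.continuousAt h1
  rw [Metric.continuousAt_iff] at hc
  obtain ⟨ε, hε, hc⟩ := hc _ hη
  obtain ⟨N0, hN0⟩ := primitive_dense A hA ε hε
  obtain ⟨n, hn, hn'⟩ := h' N0
  obtain ⟨B, hB, hBd⟩ := hN0 n hn
  have h1 := hc hBd
  rw [(eig_iff_det _ _).1 hl, norm_zero, Real.dist_eq, sub_zero, abs_of_nonneg (norm_nonneg _)] at h1
  have h2 := norm_det_ge _ (hn' B hB) l
  linarith

end Pool.Agent.AMU
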