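import Pool.Agent.AMU0.Main
import Pool.Agent.AMU0.TUD1
import Pool.Agent.AMU0.CabD

open Matrix

namespace Pool.Agent.AMU

/-- The pure braid of the word `w` on `m` strands has a pseudo-Anosov part: after deleting some
strands (those with `c0 = 0`) one gets a braid on `off c0 m ≥ 3` strands which commutes with no
conjugate of the full twist on `l` neighbouring strands, `2 ≤ l < off c0 m`, that is, which preserves
no essential curve and is not central. -/
def HasPA (m : ℕ) (w : List (ℕ × Bool)) : Prop :=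
  ∃ c0 : ℕ → ℕ, (∀ i, c0 i ≤ 1) ∧ Irr (off c0 m) (braid (off c0 m) (cab c0 w))

/-- an irreducible pure braid satisfies the conclusion of the AMU conjecture, for colours which are
multiples of `d` -/
theorem amu_irrd {d m : ℕ} (hd : 0 < d) {w : List (ℕ × Bool)} (hw : PureWord m w)
    (hI : Irr m (braid m w)) : ¬ FailD d m w := by
  intro hF
  obtain ⟨hm, hI⟩ := hI
  have h1 := tud1 hd hw hF
  have h2 := tud2 hd hw hF
  obtain ⟨X, U, e, hX, hU, hXp, hb, hn⟩ := ga (by omega) hw h2
  have key : ∃ (g : BraidGroup m) (o l : ℕ), 2 ≤ l ∧ l < m ∧ o + l ≤ m ∧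
      Commute (pw m X) (g * tw (sg m) o l * g⁻¹) := by
    rcases hn with rfl | hn
    · exact ⟨1, 0, 2, le_rfl, by omega, by omega, by simp [pw]⟩
    · by_cases hne : X = []
      · subst hne
        exact ⟨1, 0, 2, le_rfl, by omega, by omega, by simp [pw]⟩
      · refine comb hm hne hX hXp ?_ hn
        refine u1_conj (u := posw U) (e := e) hw hXp ?_ ?_ h1
        · intro x hx
          unfold posw at hx
          obtain ⟨y, hy, rfl⟩ := List.mem_map.1 hx
          exact hU y hy
        · rw [hb, braid_posw, braid_posw]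
  obtain ⟨g, o, l, h3, h4, h5, h6⟩ := key
  refine hI (pw m U * g) o l h3 h4 h5 ?_
  rw [hb]
  have h7 : Commute (pw m U * pw m X * (pw m U)⁻¹)
      (pw m U * (g * tw (sg m) o l * g⁻¹) * (pw m U)⁻¹) := by
    unfold Commute SemiconjBy at h6 ⊢
    calc pw m U * pw m X * (pw m U)⁻¹ * (pw m U * (g * tw (sg m) o l * g⁻¹) * (pw m U)⁻¹)
        = pw m U * (pw m X * (g * tw (sg m) o l * g⁻¹)) * (pw m U)⁻¹ := by group
      _ = pw m U * ((g * tw (sg m) o l * g⁻¹) * pw m X) * (pw m U)⁻¹ := by rw [h6]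
      _ = _ := by group
  have h8 : pw m U * g * tw (sg m) o l * (pw m U * g)⁻¹ =
      pw m U * (g * tw (sg m) o l * g⁻¹) * (pw m U)⁻¹ := by group
  rw [h8]
  exact Commute.mul_left (Commute.zpow_left (tw_comm _) e) h7

/-- The AMU conjecture for pure braids, that is, in genus `0`: the colours can be chosen independent
of the level, divisible by any given number, and with at most two particles. -/
theorem amu_final {m : ℕ} {w : List (ℕ × Bool)} (hw : PureWord m w) (h : HasPA m w) {d : ℕ}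
    (hd : 0 < d) :
    ∃ (c : ℕ → ℕ) (k N0 : ℕ), (∀ i, d ∣ c i) ∧ k ≤ 2 ∧ 2 * k ≤ off c m ∧
      ∀ N, N0 ≤ N → ∀ A : ℂ, IsPrimitiveRoot A N → ColInfinite m c A w k := by
  obtain ⟨c0, hc0, hI⟩ := h
  have h1 := amu_irrd hd (cab_pure hw c0) hI
  unfold FailD at h1
  push Not at h1
  obtain ⟨c', k, N0, hdc, hk2, h2⟩ := h1
  obtain ⟨c, hcd, hoff, hc⟩ := cab_cab_dvd (m := m) w c0 hc0 c'
  have hk : ∀ N, N0 ≤ N → ∀ A : ℂ, IsPrimitiveRoot A N → ColInfinite m c A w k :=
    fun N hN A hA => hc A k (h2 N hN A hA)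
  refine ⟨c, k, N0, hcd d hdc, hk2, ?_, hk⟩
  set N := max N0 (4 * off c m + 1) with hN
  have hN0 : N0 ≤ N := le_max_left _ _
  have hN1 : 4 * off c m < N := lt_of_lt_of_le (Nat.lt_succ_self _) (le_max_right _ _)
  have hA := Complex.isPrimitiveRoot_exp N (by omega)
  obtain ⟨v, hv, hne⟩ := hk N hN0 _ hA 1 one_pos 0
  refine block_wt_le (gen_of_primitive hA hN1) hv.1 ?_
  rintro rfl
  apply hne
  rw [Matrix.mulVec_zero, smul_zero]

end Pool.Agent.AMU
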