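import Pool.Agent.AMU0.Kprime
import Pool.Agent.AMU0.Half3

open Matrix

namespace Pool.Agent.AMU

/-! ### The positive monoid -/

/-- positive braids -/
def garP (m : ℕ) (g : BraidGroup m) : Prop := ∃ Y, Lt m Y ∧ pw m Y = g

/-- left divisibility -/
def garLe {m : ℕ} (a b : BraidGroup m) : Prop := garP m (a⁻¹ * b)

lemma garP_one (m : ℕ) : garP m 1 := ⟨[], lt_nil m, pw_nil m⟩

lemma garP_mul {m : ℕ} {a b : BraidGroup m} (ha : garP m a) (hb : garP m b) : garP m (a * b) := by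
  obtain ⟨X, hX, rfl⟩ := ha
  obtain ⟨Y, hY, rfl⟩ := hb
  exact ⟨X ++ Y, lt_append.2 ⟨hX, hY⟩, pw_append m X Y⟩

lemma garP_sg {m i : ℕ} (hi : i + 1 < m) : garP m (sg m i) :=
  ⟨[i], lt_cons.2 ⟨hi, lt_nil m⟩, pw_single m i⟩

lemma garP_pow {m : ℕ} {a : BraidGroup m} (ha : garP m a) (n : ℕ) : garP m (a ^ n) := by
  induction n with
  | zero => rw [pow_zero]; exact garP_one m
  | succ n ih => rw [pow_succ]; exact garP_mul ih ha

lemma garLe_refl {m : ℕ} (a : BraidGroup m) : garLe a a := by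
  unfold garLe
  rw [inv_mul_cancel]
  exact garP_one m

lemma garLe_trans {m : ℕ} {a b c : BraidGroup m} (h1 : garLe a b) (h2 : garLe b c) :
    garLe a c := by
  unfold garLe at *
  have h3 := garP_mul h1 h2
  rw [show a⁻¹ * b * (b⁻¹ * c) = a⁻¹ * c by group] at h3
  exact h3

lemma garLe_mul {m : ℕ} {a b : BraidGroup m} (g : BraidGroup m) : garLe (g * a) (g * b) ↔
    garLe a b := by
  unfold garLe
  rw [show (g * a)⁻¹ * (g * b) = a⁻¹ * b by group]

lemma garLe_iff {m : ℕ} {a b : BraidGroup m} (g : BraidGroup m) : garLe (g * a) b ↔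
    garLe a (g⁻¹ * b) := by
  unfold garLe
  rw [show (g * a)⁻¹ * b = a⁻¹ * (g⁻¹ * b) by group]

lemma garLe_right {m : ℕ} (a : BraidGroup m) {b : BraidGroup m} (hb : garP m b) :
    garLe a (a * b) := by
  unfold garLe
  rw [inv_mul_cancel_left]
  exact hb

lemma garP_of_le {m : ℕ} {a b : BraidGroup m} (ha : garP m a) (h : garLe a b) : garP m b := by
  have h1 := garP_mul ha h
  rw [mul_inv_cancel_left] at h1
  exact h1

lemma garLe_one {m : ℕ} {a : BraidGroup m} (ha : garP m a) : garLe 1 a := by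
  unfold garLe
  rw [inv_one, one_mul]
  exact ha

/-- a positive braid is trivial or starts with a generator -/
lemma garP_cases {m : ℕ} {a : BraidGroup m} (ha : garP m a) : a = 1 ∨
    ∃ i b, i + 1 < m ∧ garP m b ∧ a = sg m i * b := by
  obtain ⟨Y, hY, rfl⟩ := ha
  cases Y with
  | nil => exact Or.inl (pw_nil m)
  | cons i Y =>
    obtain ⟨h1, h2⟩ := lt_cons.1 hY
    exact Or.inr ⟨i, pw m Y, h1, ⟨Y, h2, rfl⟩, pw_cons m i Y⟩

/-! ### Length -/

/-- a length function -/
lemma gar_len (m : ℕ) : ∃ len : BraidGroup m → ℤ, (∀ a b, len (a * b) = len a + len b) ∧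
    (∀ i, i + 1 < m → len (sg m i) = 1) ∧ (∀ a, garP m a → 0 ≤ len a) ∧
    ∀ a, garP m a → len a ≤ 0 → a = 1 := by
  obtain ⟨φ, hφ⟩ := exists_len m
  refine ⟨fun a => (φ a).toAdd, fun a b => ?_, fun i hi => ?_, ?_, ?_⟩
  · show (φ (a * b)).toAdd = _
    rw [map_mul, toAdd_mul]
  · have h1 := hφ [i] (lt_cons.2 ⟨hi, lt_nil m⟩)
    rw [pw_single] at h1
    show (φ (sg m i)).toAdd = 1
    rw [h1]
    simp
  · rintro a ⟨Y, hY, rfl⟩
    show 0 ≤ (φ (pw m Y)).toAdd
    rw [hφ Y hY, toAdd_ofAdd]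
    positivity
  · rintro a ⟨Y, hY, rfl⟩ h
    have h1 : (φ (pw m Y)).toAdd ≤ 0 := h
    rw [hφ Y hY, toAdd_ofAdd] at h1
    have h2 : Y.length = 0 := by
      have : (Y.length : ℤ) ≤ 0 := h1
      omega
    rw [List.length_eq_zero_iff.1 h2, pw_nil]

/-! ### Common multiples of two generators -/

lemma gar_zr {m i : ℕ} {c : BraidGroup m} (hi : i + 1 < m) {Y : List ℕ} (hY : Lt m Y)
    (hc : pw m Y = c) (h : garLe (sg m i) c) : zr Y i (i + 1) := by
  obtain ⟨Z, hZ, hz⟩ := h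
  have h1 : pw m (i :: Z) = pw m Y := by
    rw [pw_cons, hz, hc]
    group
  refine (zr_pw (lt_cons.2 ⟨hi, hZ⟩) hY h1 (Nat.lt_succ_self i) hi).1 ?_
  unfold zr
  rw [if_pos ⟨rfl, rfl⟩]
  trivial

lemma gar_kprime {m : ℕ} {u Y : List ℕ} {c : BraidGroup m} (hu : Lt m u) (hY : Lt m Y)
    (hc : pw m Y = c) (hr : Red u) (h : ∀ i j, i < j → linvr u i j → zr Y i j) :
    garLe (pw m u) c := by
  obtain ⟨Z, hZ, hz⟩ := kprime hu hY hr h
  refine ⟨Z, hZ, ?_⟩
  rw [← hc, hz]
  group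

lemma gar_pm3 (i : ℕ) : (pm [i, i + 1, i])⁻¹ = Equiv.swap i (i + 2) := by
  have h1 : pm [i, i + 1, i] = Equiv.swap i (i + 2) := by
    simp only [pm, List.map_cons, List.map_nil, List.prod_cons, List.prod_nil, mul_one]
    rw [← mul_assoc, Equiv.swap_comm i (i + 1), Equiv.swap_comm (i + 1) (i + 1 + 1)]
    exact Equiv.swap_mul_swap_mul_swap (x := i + 2) (y := i + 1) (z := i) (by omega) (by omega)
  rw [h1, Equiv.swap_inv]

lemma gar_two_lt {m i j : ℕ} (hj : j + 1 < m) (hij : i < j) :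
    ∃ x x' : BraidGroup m, sg m i * x = sg m j * x' ∧ garP m x ∧ garP m x' ∧
      (∃ (k : ℕ) (y : BraidGroup m), k + 1 < m ∧ garP m y ∧ x = sg m k * y) ∧
      ∀ c, garP m c → garLe (sg m i) c → garLe (sg m j) c → garLe (sg m i * x) c := by
  have hi : i + 1 < m := by omega
  by_cases hf : i + 2 ≤ j
  · refine ⟨sg m j, sg m i, sg_far hf, garP_sg hj, garP_sg hi, ⟨j, 1, hj, garP_one m, by simp⟩, ?_⟩
    rintro c ⟨Y, hY, hc⟩ h1 h2
    have h3 := gar_zr hi hY hc h1
    have h4 := gar_zr hj hY hc h2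
    have h5 := gar_kprime (u := [i, j]) (lt_cons.2 ⟨hi, lt_cons.2 ⟨hj, lt_nil m⟩⟩) hY hc
      (by
        refine ⟨⟨trivial, ?_⟩, ?_⟩
        · simp [pm]
        · simp only [pm, List.map_cons, List.map_nil, List.prod_cons, List.prod_nil, mul_one,
            Equiv.swap_inv]
          rw [Equiv.swap_apply_of_ne_of_ne (by omega) (by omega),
            Equiv.swap_apply_of_ne_of_ne (by omega) (by omega)]
          omega)
      (by
        intro a b hab h
        simp only [linvr, pm, List.map_cons, List.map_nil, List.prod_cons, List.prod_nil, mul_one,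
          _root_.mul_inv_rev, Equiv.swap_inv, Equiv.Perm.mul_apply, Equiv.swap_apply_def] at h
        have h6 : (a = i ∧ b = i + 1) ∨ (a = j ∧ b = j + 1) := by
          split_ifs at h <;> omega
        rcases h6 with ⟨rfl, rfl⟩ | ⟨rfl, rfl⟩
        · exact h3
        · exact h4)
    rw [pw_cons, pw_single] at h5
    exact h5
  · have hj1 : j = i + 1 := by omega
    subst hj1
    refine ⟨sg m (i + 1) * sg m i, sg m i * sg m (i + 1), ?_, garP_mul (garP_sg hj) (garP_sg hi),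
      garP_mul (garP_sg hi) (garP_sg hj), ⟨i + 1, sg m i, hj, garP_sg hi, rfl⟩, ?_⟩
    · rw [← mul_assoc, ← mul_assoc]
      exact sg_near (by omega)
    · rintro c ⟨Y, hY, hc⟩ h1 h2
      have h3 := gar_zr hi hY hc h1
      have h4 := gar_zr hj hY hc h2
      have h7 : zr Y i (i + 1 + 1) := zr_trans (by omega) (by omega) h3 h4
      have h5 := gar_kprime (u := [i, i + 1, i])
        (lt_cons.2 ⟨hi, lt_cons.2 ⟨hj, lt_cons.2 ⟨hi, lt_nil m⟩⟩⟩) hY hc
        (by
          refine ⟨⟨⟨trivial, ?_⟩, ?_⟩, ?_⟩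
          · simp [pm]
          · simp only [pm, List.map_cons, List.map_nil, List.prod_cons, List.prod_nil, mul_one,
              Equiv.swap_inv, Equiv.swap_apply_def]
            split_ifs <;> omega
          · simp only [pm, List.map_cons, List.map_nil, List.prod_cons, List.prod_nil, mul_one,
              _root_.mul_inv_rev, Equiv.swap_inv, Equiv.Perm.mul_apply, Equiv.swap_apply_def]
            split_ifs <;> omega)
        (by
          intro a b hab h
          unfold linvr at h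
          rw [gar_pm3, Equiv.swap_apply_def, Equiv.swap_apply_def] at h
          have h6 : (a = i ∧ b = i + 1) ∨ (a = i + 1 ∧ b = i + 1 + 1) ∨
              (a = i ∧ b = i + 1 + 1) := by
            split_ifs at h <;> omega
          rcases h6 with ⟨rfl, rfl⟩ | ⟨rfl, rfl⟩ | ⟨rfl, rfl⟩
          · exact h3
          · exact h4
          · exact h7)
      rw [pw_cons, pw_cons, pw_single] at h5
      exact h5

lemma gar_two {m i j : ℕ} (hi : i + 1 < m) (hj : j + 1 < m) (hij : i ≠ j) :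
    ∃ x x' : BraidGroup m, sg m i * x = sg m j * x' ∧ garP m x ∧ garP m x' ∧
      (∃ (k : ℕ) (y : BraidGroup m), k + 1 < m ∧ garP m y ∧ x = sg m k * y) ∧
      (∃ (k : ℕ) (y : BraidGroup m), k + 1 < m ∧ garP m y ∧ x' = sg m k * y) ∧
      ∀ c, garP m c → garLe (sg m i) c → garLe (sg m j) c → garLe (sg m i * x) c := by
  obtain ⟨len, l1, l2, l3, l4⟩ := gar_len m
  have key : ∀ (i j : ℕ) (x x' : BraidGroup m), i + 1 < m → j + 1 < m → garP m x' →
      sg m i * x = sg m j * x' →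
      (∃ (k : ℕ) (y : BraidGroup m), k + 1 < m ∧ garP m y ∧ x = sg m k * y) →
      (∃ (k : ℕ) (y : BraidGroup m), k + 1 < m ∧ garP m y ∧ x' = sg m k * y) := by
    intro i j x x' hi hj hx' he ⟨k, y, hk, hy, hx⟩
    rcases garP_cases hx' with h | h
    · exfalso
      have h1 : len (sg m i * x) = len (sg m j * x') := by rw [he]
      rw [h, hx, mul_one, l1, l1, l2 i hi, l2 j hj, l2 k hk] at h1
      have := l3 y hy
      omega
    · exact h
  rcases lt_or_gt_of_ne hij with h | h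
  · obtain ⟨x, x', h1, h2, h3, h4, h5⟩ := gar_two_lt hj h
    exact ⟨x, x', h1, h2, h3, h4, key i j x x' hi hj h3 h1 h4, h5⟩
  · obtain ⟨x, x', h1, h2, h3, h4, h5⟩ := gar_two_lt hi h
    refine ⟨x', x, h1.symm, h3, h2, key j i x x' hj hi h3 h1 h4, h4, ?_⟩
    intro c hc h6 h7
    rw [← h1]
    exact h5 c hc h7 h6

/-! ### Least common multiples -/

lemma gar_lcm {m : ℕ} (len : BraidGroup m → ℤ) (l1 : ∀ a b, len (a * b) = len a + len b)
    (l2 : ∀ i, i + 1 < m → len (sg m i) = 1) (l3 : ∀ a, garP m a → 0 ≤ len a) :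
    ∀ (n : ℕ) (a b c : BraidGroup m), garP m a → garP m b → garLe a c → garLe b c →
      len c < n → ∃ d, garLe a d ∧ garLe b d ∧ ∀ c', garLe a c' → garLe b c' → garLe d c' := by
  intro n
  induction n with
  | zero =>
    intro a b c ha hb hac hbc hn
    have := l3 c (garP_of_le ha hac)
    exfalso
    push_cast at hn
    omega
  | succ n ih =>
    intro a b c ha hb hac hbc hn
    rcases garP_cases ha with rfl | ⟨i, a', hi, ha', rfl⟩
    · exact ⟨b, garLe_one hb, garLe_refl b, fun c' _ h => h⟩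
    rcases garP_cases hb with rfl | ⟨j, b', hj, hb', rfl⟩
    · exact ⟨sg m i * a', garLe_refl _, garLe_one ha, fun c' h _ => h⟩
    have hinv : ∀ (g x : BraidGroup m), len (g⁻¹ * x) = len x - len g := by
      intro g x
      have h1 := l1 g (g⁻¹ * x)
      rw [mul_inv_cancel_left] at h1
      omega
    have hcP : garP m c := garP_of_le ha hac
    by_cases hij : i = j
    · subst hij
      obtain ⟨d, d1, d2, d3⟩ := ih a' b' ((sg m i)⁻¹ * c) ha' hb' ((garLe_iff _).1 hac)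
        ((garLe_iff _).1 hbc) (by rw [hinv, l2 i hi]; push_cast at hn; omega)
      exact ⟨sg m i * d, (garLe_mul _).2 d1, (garLe_mul _).2 d2,
        fun c' h1 h2 => (garLe_iff _).2 (d3 _ ((garLe_iff _).1 h1) ((garLe_iff _).1 h2))⟩
    · obtain ⟨x, x', hxx, hx, hx', ⟨k, y, hk, hy, hxk⟩, -, hD⟩ := gar_two hi hj hij
      have hiP := fun (c' : BraidGroup m) (h1 : garLe (sg m i * a') c') =>
        garLe_trans (garLe_right (sg m i) ha') h1
      have hjP := fun (c' : BraidGroup m) (h1 : garLe (sg m j * b') c') =>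
        garLe_trans (garLe_right (sg m j) hb') h1
      have hDc : ∀ c', garLe (sg m i * a') c' → garLe (sg m j * b') c' →
          garLe (sg m i * x) c' := fun c' h1 h2 =>
        hD c' (garP_of_le ha h1) (hiP c' h1) (hjP c' h2)
      have hDc1 := hDc c hac hbc
      -- the two lcms
      obtain ⟨e₁, p1, p2, p3⟩ := ih a' x ((sg m i)⁻¹ * c) ha' hx ((garLe_iff _).1 hac)
        ((garLe_iff _).1 hDc1) (by rw [hinv, l2 i hi]; push_cast at hn; omega)
      obtain ⟨e₂, q1, q2, q3⟩ := ih b' x' ((sg m j)⁻¹ * c) hb' hx' ((garLe_iff _).1 hbc)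
        ((garLe_iff _).1 (by rw [← hxx]; exact hDc1))
        (by rw [hinv, l2 j hj]; push_cast at hn; omega)
      have hE : ∀ c', garLe (sg m i * a') c' → garLe (sg m j * b') c' →
          garLe (x⁻¹ * e₁) ((sg m i * x)⁻¹ * c') ∧ garLe (x'⁻¹ * e₂) ((sg m i * x)⁻¹ * c') := by
        intro c' h1 h2
        have h3 := hDc c' h1 h2
        constructor
        · have h4 := p3 _ ((garLe_iff _).1 h1) ((garLe_iff _).1 h3)
          rw [← garLe_iff, mul_assoc, mul_inv_cancel_left, garLe_iff]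
          exact h4
        · have h4 := q3 _ ((garLe_iff _).1 h2) ((garLe_iff _).1 (by rw [← hxx]; exact h3))
          rw [← garLe_iff, hxx, mul_assoc, mul_inv_cancel_left, garLe_iff]
          exact h4
      obtain ⟨hE1, hE2⟩ := hE c hac hbc
      have hlen : len ((sg m i * x)⁻¹ * c) < n := by
        rw [hinv, l1, l2 i hi, hxk, l1, l2 k hk]
        have := l3 y hy
        push_cast at hn
        omega
      obtain ⟨f, f1, f2, f3⟩ := ih (x⁻¹ * e₁) (x'⁻¹ * e₂) ((sg m i * x)⁻¹ * c) p2 q2 hE1 hE2 hlen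
      refine ⟨sg m i * x * f, ?_, ?_, ?_⟩
      · have h1 : garLe (sg m i * x * (x⁻¹ * e₁)) (sg m i * x * f) := (garLe_mul _).2 f1
        rw [mul_assoc, mul_inv_cancel_left] at h1
        exact garLe_trans ((garLe_mul _).2 p1) h1
      · have h1 : garLe (sg m i * x * (x'⁻¹ * e₂)) (sg m i * x * f) := (garLe_mul _).2 f2
        rw [hxx, mul_assoc, mul_inv_cancel_left] at h1
        rw [hxx]
        exact garLe_trans ((garLe_mul _).2 q1) h1
      · intro c' h1 h2
        obtain ⟨h3, h4⟩ := hE c' h1 h2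
        exact (garLe_iff _).2 (f3 _ h3 h4)

/-- conjugation into the positive monoid -/
theorem gar {m : ℕ} (h : BraidGroup m) (C : ℕ)
    (hC : ∀ p : ℕ, ∃ Y, Lt m Y ∧ tw (sg m) 0 m ^ C * h ^ p = pw m Y) :
    ∃ U X : List ℕ, Lt m U ∧ Lt m X ∧ h * pw m U = pw m U * pw m X := by
  obtain ⟨len, l1, l2, l3, l4⟩ := gar_len m
  have hlcm : ∀ (a b c : BraidGroup m), garP m a → garP m b → garLe a c → garLe b c →
      ∃ d, garLe a d ∧ garLe b d ∧ ∀ c', garLe a c' → garLe b c' → garLe d c' := by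
    intro a b c ha hb hac hbc
    refine gar_lcm len l1 l2 l3 (len c).toNat.succ a b c ha hb hac hbc ?_
    push_cast
    have := Int.self_le_toNat (len c)
    omega
  have hP : ∀ p : ℕ, garP m (tw (sg m) 0 m ^ C * h ^ p) := by
    intro p
    obtain ⟨Y, hY, he⟩ := hC p
    exact ⟨Y, hY, he.symm⟩
  -- the greatest common divisor
  obtain ⟨u, huP, huS, humax⟩ : ∃ u, garP m u ∧ (∀ p : ℕ, garLe u (tw (sg m) 0 m ^ C * h ^ p)) ∧
      ∀ v, garP m v → (∀ p : ℕ, garLe v (tw (sg m) 0 m ^ C * h ^ p)) → len v ≤ len u := by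
    by_contra hcon
    push Not at hcon
    have h1 : ∀ n : ℕ, ∃ u, garP m u ∧ (∀ p : ℕ, garLe u (tw (sg m) 0 m ^ C * h ^ p)) ∧
        (n : ℤ) ≤ len u := by
      intro n
      induction n with
      | zero =>
        exact ⟨1, garP_one m, fun p => garLe_one (hP p), by
          have := l3 1 (garP_one m)
          push_cast
          exact this⟩
      | succ n ih =>
        obtain ⟨u, u1, u2, u3⟩ := ih
        obtain ⟨v, v1, v2, v3⟩ := hcon u u1 u2
        exact ⟨v, v1, v2, by push_cast; omega⟩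
    obtain ⟨u, u1, u2, u3⟩ := h1 ((len (tw (sg m) 0 m ^ C * h ^ 0)).toNat + 1)
    have h2 := l3 _ (u2 0)
    have h3 := l1 u (u⁻¹ * (tw (sg m) 0 m ^ C * h ^ 0))
    rw [mul_inv_cancel_left] at h3
    have h4 := Int.self_le_toNat (len (tw (sg m) 0 m ^ C * h ^ 0))
    push_cast at u3
    omega
  have hgcd : ∀ v, garP m v → (∀ p : ℕ, garLe v (tw (sg m) 0 m ^ C * h ^ p)) → garLe v u := by
    intro v hv hvS
    obtain ⟨d, d1, d2, d3⟩ := hlcm u v _ huP hv (huS 0) (hvS 0)
    have h1 := humax d (garP_of_le huP d1) (fun p => d3 _ (huS p) (hvS p))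
    have h2 := l1 u (u⁻¹ * d)
    rw [mul_inv_cancel_left] at h2
    have h3 := l4 _ d1 (by omega)
    have h4 : d = u := by
      rw [inv_mul_eq_one] at h3
      exact h3.symm
    rw [← h4]
    exact d2
  -- the positive element `tw ^ k * h`
  obtain ⟨k, Y, hY, hk⟩ := exists_positive m h
  have htw : garP m (tw (sg m) 0 m) := by
    rw [← hw_sq]
    exact garP_mul ⟨_, hw_lt m, rfl⟩ ⟨_, hw_lt m, rfl⟩
  have hc : ∀ (j : ℕ) (g : BraidGroup m), tw (sg m) 0 m ^ j * g = g * tw (sg m) 0 m ^ j :=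
    fun j g => ((tw_comm g).pow_left j).eq
  have hk0 : garP m (tw (sg m) 0 m ^ k * h) := ⟨Y, hY, hk.symm⟩
  have hstep : ∀ p : ℕ, tw (sg m) 0 m ^ k * h * (tw (sg m) 0 m ^ C * h ^ p) =
      tw (sg m) 0 m ^ k * (tw (sg m) 0 m ^ C * h ^ (p + 1)) := by
    intro p
    rw [mul_assoc, pow_succ', ← mul_assoc (tw (sg m) 0 m ^ C) h, hc C h, mul_assoc h]
  have hle1 : ∀ p : ℕ, garLe (tw (sg m) 0 m ^ k * u)
      (tw (sg m) 0 m ^ k * h * (tw (sg m) 0 m ^ C * h ^ p)) := by
    intro p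
    rw [hstep]
    exact (garLe_mul _).2 (huS (p + 1))
  have hle2 : ∀ p : ℕ, garLe (tw (sg m) 0 m ^ k * h)
      (tw (sg m) 0 m ^ k * h * (tw (sg m) 0 m ^ C * h ^ p)) := fun p => garLe_right _ (hP p)
  obtain ⟨d, d1, d2, d3⟩ := hlcm _ _ _ hk0 (garP_mul (garP_pow htw k) huP) (hle2 0) (hle1 0)
  have hS : ∀ p : ℕ, garLe ((tw (sg m) 0 m ^ k * h)⁻¹ * d) (tw (sg m) 0 m ^ C * h ^ p) := by
    intro p
    have h1 := d3 _ (hle2 p) (hle1 p)
    rw [← garLe_mul (tw (sg m) 0 m ^ k * h), mul_inv_cancel_left]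
    exact h1
  have h1 := hgcd _ d1 hS
  have h2 : garLe d (tw (sg m) 0 m ^ k * h * u) := by
    rw [← garLe_mul (tw (sg m) 0 m ^ k * h), mul_inv_cancel_left] at h1
    exact h1
  obtain ⟨X, hX, hx⟩ := garLe_trans d2 h2
  obtain ⟨U, hU, rfl⟩ := huP
  refine ⟨U, X, hU, hX, ?_⟩
  rw [hx, mul_assoc (tw (sg m) 0 m ^ k) h]
  group

end Pool.Agent.AMU
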