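import Pool.Agent.AMU0.Base

open Matrix Polynomial

namespace Pool.Agent.AMU

private lemma pow_seq {R : Type*} [CommRing R] (a c : ℕ → R) (t : R) (d ν : ℕ)
    (hc : ∀ i, i ≤ d → t ^ (ν * i) ∣ c (d - i))
    (ha : ∀ p, d ≤ p → a p = - ∑ k ∈ Finset.range d, c k * a (p - d + k)) (p : ℕ) :
    t ^ (ν * p) ∣ t ^ (ν * d) * a p := by
  induction p using Nat.strong_induction_on with
  | _ p ih =>
    by_cases hp : p < d
    · exact Dvd.dvd.mul_right (pow_dvd_pow _ (Nat.mul_le_mul_left ν hp.le)) _
    · push Not at hp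
      rw [ha p hp, mul_neg, dvd_neg, Finset.mul_sum]
      refine Finset.dvd_sum fun k hk => ?_
      have hk' : k < d := Finset.mem_range.1 hk
      rw [mul_left_comm]
      have h5 := ih (p - d + k) (by omega)
      have h6 := hc (d - k) (Nat.sub_le _ _)
      have h7 : d - (d - k) = k := by omega
      rw [h7] at h6
      have h8 : ν * p = ν * (d - k) + ν * (p - d + k) := by
        rw [← Nat.mul_add]
        congr 1
        omega
      rw [h8, pow_add]
      exact mul_dvd_mul h6 h5

variable {ι : Type*} [Fintype ι] [DecidableEq ι]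

private lemma pow_rec {R : Type*} [CommRing R] [Nontrivial R] (N : Matrix ι ι R) (x y : ι) (p : ℕ)
    (hp : Fintype.card ι ≤ p) : (N ^ p) x y = - ∑ k ∈ Finset.range (Fintype.card ι),
      N.charpoly.coeff k * (N ^ (p - Fintype.card ι + k)) x y := by
  have hnd : N.charpoly.natDegree = Fintype.card ι := N.charpoly_natDegree_eq_dim
  have hmon : N.charpoly.Monic := N.charpoly_monic
  have hCH : N ^ Fintype.card ι =
      - ∑ k ∈ Finset.range (Fintype.card ι), N.charpoly.coeff k • N ^ k := by
    have h1 := N.aeval_self_charpoly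
    rw [Polynomial.aeval_eq_sum_range, hnd, Finset.sum_range_succ] at h1
    have h2 : N.charpoly.coeff (Fintype.card ι) = 1 := by
      have := hmon.coeff_natDegree
      rwa [hnd] at this
    rw [h2, one_smul] at h1
    exact eq_neg_of_add_eq_zero_right h1
  have h3 : N ^ p = - ∑ k ∈ Finset.range (Fintype.card ι),
      N.charpoly.coeff k • N ^ (p - Fintype.card ι + k) := by
    have h4 : p = p - Fintype.card ι + Fintype.card ι := by omega
    conv_lhs => rw [h4, pow_add, hCH, mul_neg, Finset.mul_sum]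
    congr 1
    refine Finset.sum_congr rfl fun k _ => ?_
    rw [mul_smul_comm, ← pow_add]
  rw [h3, Matrix.neg_apply, Matrix.sum_apply]
  congr 1

/-- Cayley–Hamilton: valuations of powers -/
theorem pow_val (N : Matrix ι ι ℤ[X][X]) (ν : ℕ)
    (h : ∀ i, i ≤ Fintype.card ι →
      (X : ℤ[X][X]) ^ (ν * i) ∣ N.charpoly.coeff (Fintype.card ι - i)) :
    ∃ C : ℕ, ∀ p : ℕ, ∀ x y, (X : ℤ[X][X]) ^ (ν * p) ∣ X ^ C * (N ^ p) x y :=
  ⟨ν * Fintype.card ι, fun p x y => pow_seq (fun n => (N ^ n) x y)
    (fun k => N.charpoly.coeff k) X _ ν h (fun p hp => pow_rec N x y p hp) p⟩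

end Pool.Agent.AMU
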