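import Pool.Agent.AMU0.Lmat
import Pool.Agent.AMU0.Trk

open Matrix

namespace Pool.Agent.AMU

/-- the number of crossings between two strands in a positive word -/
def cnt (Y : List ℕ) (i j : ℕ) : ℕ :=
  ((Finset.range Y.length).filter fun t => ev (trk Y) t i j ∨ ev (trk Y) t j i).card

private def qone_gu {R : Type*} [CommRing R] {m : ℕ} (ξ : Pr m → R) (a b : ℕ) : R :=
  gt ξ (min a b) (max a b)

private theorem qone_gu_symm {R : Type*} [CommRing R] {m : ℕ} (ξ : Pr m → R) (a b : ℕ) :
    qone_gu ξ a b = qone_gu ξ b a := by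
  unfold qone_gu
  rw [min_comm, max_comm]

private theorem qone_gu_lt {R : Type*} [CommRing R] {m : ℕ} (ξ : Pr m → R) {a b : ℕ} (h : a < b) :
    qone_gu ξ a b = gt ξ a b := by
  unfold qone_gu
  rw [min_eq_left h.le, max_eq_right h.le]

private theorem qone_gt {R : Type*} [CommRing R] {m : ℕ} (ξ : Pr m → R) {i j : ℕ} (hij : i < j)
    (hj : j < m) :
    gt ξ i j = ξ ⟨(⟨i, by omega⟩, ⟨j, hj⟩), by simpa using hij⟩ := by
  unfold gt
  rw [dif_pos ⟨hij, hj⟩]

private theorem qone_cons {R : Type*} [CommRing R] {m : ℕ} (q t : R) (k : ℕ) (Y : List ℕ)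
    (x y : Pr m) :
    lpm m q t (k :: Y) x y = lop m q t k (fun z => lpm m q t Y z y) x := by
  have h1 : lpm m q t (k :: Y) = lmat m q t k * lpm m q t Y := by
    unfold lpm
    rw [List.map_cons, List.prod_cons]
  rw [h1, ← lmat_mulVec]
  rfl

private theorem qone_lop {R : Type*} [CommRing R] {m : ℕ} (t : R) (k : ℕ) (η : Pr m → R)
    {i j : ℕ} (hij : i < j) (hj : j < m) :
    gt (lop m 1 t k η) i j = (if i = k ∧ j = k + 1 then t else 1) *
      qone_gu η (Equiv.swap k (k + 1) i) (Equiv.swap k (k + 1) j) := by
  rw [qone_gt _ hij hj]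
  unfold lop
  dsimp only
  by_cases c1 : i = k ∧ j = k + 1
  · rw [if_pos c1, if_pos c1]
    obtain ⟨rfl, rfl⟩ := c1
    rw [Equiv.swap_apply_left, Equiv.swap_apply_right, qone_gu_symm, qone_gu_lt _ hij]
    simp
  · rw [if_neg c1, if_neg c1, one_mul]
    by_cases c2 : j = k
    · subst c2
      rw [if_pos rfl, Equiv.swap_apply_left,
        Equiv.swap_apply_of_ne_of_ne (by omega) (by omega), qone_gu_lt _ (by omega)]
      ring
    · rw [if_neg c2]
      by_cases c3 : j = k + 1
      · subst c3
        have hik : i ≠ k := fun h => c1 ⟨h, rfl⟩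
        rw [if_pos rfl, Equiv.swap_apply_right,
          Equiv.swap_apply_of_ne_of_ne hik (by omega), qone_gu_lt _ (by omega)]
        ring
      · rw [if_neg c3]
        by_cases c4 : i = k
        · subst c4
          rw [if_pos rfl, Equiv.swap_apply_left,
            Equiv.swap_apply_of_ne_of_ne c2 c3, qone_gu_lt _ (by omega), one_mul]
        · rw [if_neg c4]
          by_cases c5 : i = k + 1
          · subst c5
            rw [if_pos rfl, Equiv.swap_apply_right,
              Equiv.swap_apply_of_ne_of_ne c2 c3, qone_gu_lt _ (by omega)]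
            ring
          · rw [if_neg c5, Equiv.swap_apply_of_ne_of_ne c4 c5,
              Equiv.swap_apply_of_ne_of_ne c2 c3, qone_gu_lt _ hij, one_mul]

private theorem qone_cnt_symm (Y : List ℕ) (i j : ℕ) : cnt Y i j = cnt Y j i := by
  unfold cnt
  congr 1
  ext t
  simp only [Finset.mem_filter, or_comm]

private theorem qone_conf (k : ℕ) (Y : List ℕ) {t : ℕ} (ht : t ≤ Y.length) :
    conf (trk (k :: Y)) t = conf (trk Y) t :=
  conf_congr t fun u hu => trk_cons_lt (by omega)

private theorem qone_cnt (k : ℕ) (Y : List ℕ) (i j : ℕ) :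
    cnt (k :: Y) i j = cnt Y i j +
      (if (conf (trk Y) Y.length k = i ∧ conf (trk Y) Y.length (k + 1) = j) ∨
        (conf (trk Y) Y.length k = j ∧ conf (trk Y) Y.length (k + 1) = i) then 1 else 0) := by
  unfold cnt
  rw [List.length_cons, Finset.range_add_one, Finset.filter_insert]
  have h1 : ∀ a b, ev (trk (k :: Y)) Y.length a b ↔
      (conf (trk Y) Y.length k = a ∧ conf (trk Y) Y.length (k + 1) = b) := by
    intro a b
    unfold ev
    rw [qone_conf k Y le_rfl, trk_cons]
  have h2 : (Finset.range Y.length).filter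
      (fun t => ev (trk (k :: Y)) t i j ∨ ev (trk (k :: Y)) t j i) =
      (Finset.range Y.length).filter (fun t => ev (trk Y) t i j ∨ ev (trk Y) t j i) := by
    apply Finset.filter_congr
    intro t ht
    rw [Finset.mem_range] at ht
    unfold ev
    rw [qone_conf k Y ht.le, trk_cons_lt ht]
  rw [h2]
  simp only [h1]
  split_ifs with h
  · rw [Finset.card_insert_of_notMem]
    simp
  · rfl

private theorem qone_main {R : Type*} [CommRing R] (t : R) {m : ℕ} (y : Pr m) :
    ∀ Y : List ℕ, Lt m Y → ∀ a b : ℕ, a < m → b < m → a ≠ b →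
      qone_gu (fun z => lpm m 1 t Y z y) a b =
        t ^ cnt Y (conf (trk Y) Y.length a) (conf (trk Y) Y.length b) *
          qone_gu (fun z => (1 : Matrix (Pr m) (Pr m) R) z y) (conf (trk Y) Y.length a)
            (conf (trk Y) Y.length b) := by
  intro Y
  induction Y with
  | nil =>
    intro _ a b _ _ _
    show _ = t ^ cnt [] a b * qone_gu _ a b
    have : cnt [] a b = 0 := rfl
    rw [this, pow_zero, one_mul]
    rfl
  | cons k Y ih =>
    intro hY a b ha hb hab
    have hk : k + 1 < m := hY k (by simp)
    have hY' : Lt m Y := fun x hx => hY x (by simp [hx])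
    -- reduce to a < b
    have key : ∀ a b : ℕ, a < b → b < m →
        qone_gu (fun z => lpm m 1 t (k :: Y) z y) a b =
        t ^ cnt (k :: Y) (conf (trk (k :: Y)) (k :: Y).length a)
          (conf (trk (k :: Y)) (k :: Y).length b) *
          qone_gu (fun z => (1 : Matrix (Pr m) (Pr m) R) z y)
            (conf (trk (k :: Y)) (k :: Y).length a) (conf (trk (k :: Y)) (k :: Y).length b) := by
      intro a b hab hb
      have hc : ∀ s, conf (trk (k :: Y)) (k :: Y).length s =
          conf (trk Y) Y.length (Equiv.swap k (k + 1) s) := by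
        intro s
        show (conf (trk (k :: Y)) Y.length * Equiv.swap (trk (k :: Y) Y.length)
          (trk (k :: Y) Y.length + 1)) s = _
        rw [qone_conf k Y le_rfl, trk_cons]
        rfl
      rw [hc, hc, qone_gu_lt _ hab]
      have h1 : (fun z => lpm m 1 t (k :: Y) z y) = lop m 1 t k (fun z => lpm m 1 t Y z y) := by
        funext z
        exact qone_cons 1 t k Y z y
      have hsw : ∀ s, s < m → Equiv.swap k (k + 1) s < m := by
        intro s hs
        by_cases h1 : s = k
        · rw [h1, Equiv.swap_apply_left]; exact hk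
        · by_cases h2 : s = k + 1
          · rw [h2, Equiv.swap_apply_right]; omega
          · rw [Equiv.swap_apply_of_ne_of_ne h1 h2]; exact hs
      rw [h1, qone_lop t k _ hab hb, ih hY' _ _ (hsw a (by omega)) (hsw b hb)
        (fun h => hab.ne ((Equiv.swap k (k + 1)).injective h)), qone_cnt]
      have hiff : ((conf (trk Y) Y.length k = conf (trk Y) Y.length (Equiv.swap k (k + 1) a) ∧
          conf (trk Y) Y.length (k + 1) = conf (trk Y) Y.length (Equiv.swap k (k + 1) b)) ∨
          (conf (trk Y) Y.length k = conf (trk Y) Y.length (Equiv.swap k (k + 1) b) ∧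
          conf (trk Y) Y.length (k + 1) = conf (trk Y) Y.length (Equiv.swap k (k + 1) a))) ↔
          (a = k ∧ b = k + 1) := by
        simp only [(conf (trk Y) Y.length).injective.eq_iff]
        have e1 : ∀ s, k = Equiv.swap k (k + 1) s ↔ s = k + 1 := by
          intro s
          constructor
          · intro h
            have := congrArg (Equiv.swap k (k + 1)) h
            rw [Equiv.swap_apply_self, Equiv.swap_apply_left] at this
            exact this.symm
          · rintro rfl
            rw [Equiv.swap_apply_right]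
        have e2 : ∀ s, k + 1 = Equiv.swap k (k + 1) s ↔ s = k := by
          intro s
          constructor
          · intro h
            have := congrArg (Equiv.swap k (k + 1)) h
            rw [Equiv.swap_apply_self, Equiv.swap_apply_right] at this
            exact this.symm
          · rintro rfl
            rw [Equiv.swap_apply_left]
        rw [e1, e2, e1, e2]
        omega
      rw [if_congr hiff rfl rfl]
      split_ifs with h
      · rw [pow_succ]; ring
      · rw [Nat.add_zero]; ring
    rcases lt_or_gt_of_ne hab with h | h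
    · exact key a b h hb
    · rw [qone_gu_symm, key b a h ha, qone_cnt_symm, qone_gu_symm]

private theorem qone_conf_pure {m : ℕ} {Y : List ℕ} (hp : PureWord m (posw Y)) :
    conf (trk Y) Y.length = 1 := by
  rw [conf_trk, inv_eq_one]
  ext s
  rw [← outl_posw, hp.2 s]
  rfl

theorem lpm_one {R : Type*} [CommRing R] (t : R) {m : ℕ} {Y : List ℕ} (hY : Lt m Y)
    (hp : PureWord m (posw Y)) :
    lpm m 1 t Y = Matrix.diagonal fun x : Pr m => t ^ cnt Y x.1.1 x.1.2 := by
  ext x y
  obtain ⟨⟨i, j⟩, hx⟩ := x
  have hij : (i : ℕ) < j := hx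
  have h1 := qone_main t y Y hY i j i.2 j.2 hij.ne
  rw [qone_conf_pure hp] at h1
  simp only [Equiv.Perm.coe_one, id] at h1
  rw [qone_gu_lt _ hij, qone_gu_lt _ hij, qone_gt _ hij j.2, qone_gt _ hij j.2] at h1
  refine h1.trans ?_
  rw [Matrix.diagonal_apply, Matrix.one_apply]
  split_ifs with h
  · rw [mul_one]
  · rw [mul_zero]

private theorem qone_parity (p : ℕ → ℕ) {i j : ℕ} (hij : i < j) (n : ℕ) :
    (ps p n i < ps p n j ∧
      Even ((Finset.range n).filter fun t => ev p t i j ∨ ev p t j i).card) ∨
    (ps p n j < ps p n i ∧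
      ¬ Even ((Finset.range n).filter fun t => ev p t i j ∨ ev p t j i).card) := by
  induction n with
  | zero =>
    left
    exact ⟨hij, by simp⟩
  | succ n ih =>
    rw [Finset.range_add_one, Finset.filter_insert]
    have hn : n ∉ (Finset.range n).filter (fun t => ev p t i j ∨ ev p t j i) := by simp
    rcases ih with ⟨h1, h2⟩ | ⟨h1, h2⟩
    · by_cases he : ev p n i j
      · right
        rw [if_pos (Or.inl he), Finset.card_insert_of_notMem hn]
        refine ⟨ev_lt' he, ?_⟩
        rw [Nat.even_add_one, not_not]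
        exact h2
      · left
        have he' : ¬ ev p n j i := fun h => lt_asymm h1 (ev_lt h)
        rw [if_neg (by tauto)]
        exact ⟨(order_succ h1).resolve_right he, h2⟩
    · by_cases he : ev p n j i
      · left
        rw [if_pos (Or.inr he), Finset.card_insert_of_notMem hn]
        refine ⟨ev_lt' he, ?_⟩
        rw [Nat.even_add_one]
        exact h2
      · right
        have he' : ¬ ev p n i j := fun h => lt_asymm h1 (ev_lt h)
        rw [if_neg (by tauto)]
        exact ⟨(order_succ h1).resolve_right he, h2⟩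

theorem cnt_even {m : ℕ} {Y : List ℕ} (hY : Lt m Y) (hp : PureWord m (posw Y)) {i j : ℕ}
    (hij : i < j) : Even (cnt Y i j) := by
  rcases qone_parity (trk Y) hij Y.length with ⟨_, h2⟩ | ⟨h1, _⟩
  · exact h2
  · exfalso
    unfold ps at h1
    rw [qone_conf_pure hp] at h1
    simp only [inv_one, Equiv.Perm.coe_one, id] at h1
    omega

theorem cnt_zero {m : ℕ} {Y : List ℕ} (hY : Lt m Y) (hne : Y ≠ []) (hp : PureWord m (posw Y))
    {i j : ℕ} (h : cnt Y i j = 0) : ¬ Crs (trk Y) i j := by
  rintro ⟨t, ht⟩
  have hT := isTrack_trk hne hY hp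
  have : ∃ u, u < Y.length ∧ (ev (trk Y) u i j ∨ ev (trk Y) u j i) := by
    rcases ht with ht | ht
    · obtain ⟨u, -, hu, he⟩ := ev_window hT ht 0
      exact ⟨u, by omega, Or.inl he⟩
    · obtain ⟨u, -, hu, he⟩ := ev_window hT ht 0
      exact ⟨u, by omega, Or.inr he⟩
  obtain ⟨u, hu, he⟩ := this
  unfold cnt at h
  rw [Finset.card_eq_zero, Finset.filter_eq_empty_iff] at h
  exact h (Finset.mem_range.2 hu) he

end Pool.Agent.AMU
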