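import Pool.Agent.AMU0.Top

open Matrix Polynomial

namespace Pool.Agent.AMU

variable {ι : Type*} [Fintype ι] [DecidableEq ι]

/-- choice of the steepest edge of the Newton polygon -/
private lemma val_choice (d ν : ℕ) (c : ℕ → ℤ[X][X]) (i₁ : ℕ) (hi₁ : i₁ ≤ d)
    (hbad : ¬ (X : ℤ[X][X]) ^ (ν * i₁) ∣ c i₁) :
    ∃ b a : ℕ, 1 ≤ b ∧ b ≤ d ∧ a < ν * b ∧ (c b).coeff a ≠ 0 ∧
      (∀ i, i ≤ d → ∀ j, b * j < a * i → (c i).coeff j = 0 ∨ i = 0) ∧
      (∀ i, i ≤ d → b < i → ∀ j, b * j ≤ a * i → (c i).coeff j = 0) := by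
  classical
  let S : Finset ℕ := (Finset.range (d + 1)).filter fun i => 1 ≤ i ∧ c i ≠ 0
  let f : ℕ → ℚ := fun i => ((c i).natTrailingDegree : ℚ) / i
  have hc₁ : c i₁ ≠ 0 := by
    intro h
    rw [h] at hbad
    exact hbad (dvd_zero _)
  have hi₁' : 1 ≤ i₁ := by
    rcases Nat.eq_zero_or_pos i₁ with h | h
    · rw [h, mul_zero, pow_zero] at hbad
      exact absurd (one_dvd _) hbad
    · exact h
  have hv₁ : (c i₁).natTrailingDegree < ν * i₁ := by
    by_contra h
    push Not at h
    apply hbad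
    rw [X_pow_dvd_iff]
    intro j hj
    exact coeff_eq_zero_of_lt_natTrailingDegree (lt_of_lt_of_le hj h)
  have hS₁ : i₁ ∈ S := by
    simp only [S, Finset.mem_filter, Finset.mem_range]
    exact ⟨by omega, hi₁', hc₁⟩
  obtain ⟨i₀, hi₀, hmin⟩ := S.exists_min_image f ⟨i₁, hS₁⟩
  let S' : Finset ℕ := S.filter fun i => f i = f i₀
  have hS' : S'.Nonempty := ⟨i₀, Finset.mem_filter.2 ⟨hi₀, rfl⟩⟩
  obtain ⟨b, hb, hmax⟩ := S'.exists_max_image (fun i => i) hS'
  have hbS : b ∈ S := (Finset.mem_filter.1 hb).1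
  have hfb : f b = f i₀ := (Finset.mem_filter.1 hb).2
  have hb2 := (Finset.mem_filter.1 hbS).2
  have hbd : b ≤ d := by
    have := Finset.mem_range.1 (Finset.mem_filter.1 hbS).1
    omega
  have hb1 : 1 ≤ b := hb2.1
  have hbQ : (0 : ℚ) < b := by exact_mod_cast hb1
  let a := (c b).natTrailingDegree
  have hle : ∀ i ∈ S, a * i ≤ (c i).natTrailingDegree * b := by
    intro i hi
    have h1 : f b ≤ f i := by rw [hfb]; exact hmin i hi
    have hi1 : 1 ≤ i := (Finset.mem_filter.1 hi).2.1
    have hiQ : (0 : ℚ) < i := by exact_mod_cast hi1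
    have h2 : ((a : ℕ) : ℚ) / b ≤ ((c i).natTrailingDegree : ℚ) / i := h1
    rw [div_le_div_iff₀ hbQ hiQ] at h2
    exact_mod_cast h2
  have hlt : ∀ i ∈ S, b < i → a * i < (c i).natTrailingDegree * b := by
    intro i hi hbi
    have h1 : f b < f i := by
      rcases lt_or_eq_of_le (by rw [hfb]; exact hmin i hi : f b ≤ f i) with h | h
      · exact h
      · exfalso
        have h3 : i ∈ S' := Finset.mem_filter.2 ⟨hi, by rw [← h, hfb]⟩
        have h4 : i ≤ b := hmax i h3
        omega
    have hi1 : 1 ≤ i := (Finset.mem_filter.1 hi).2.1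
    have hiQ : (0 : ℚ) < i := by exact_mod_cast hi1
    have h2 : ((a : ℕ) : ℚ) / b < ((c i).natTrailingDegree : ℚ) / i := h1
    rw [div_lt_div_iff₀ hbQ hiQ] at h2
    exact_mod_cast h2
  refine ⟨b, a, hb1, hbd, ?_, ?_, ?_, ?_⟩
  · have h1 := hle i₁ hS₁
    have h2 : (c i₁).natTrailingDegree * b < (ν * i₁) * b :=
      Nat.mul_lt_mul_of_pos_right hv₁ hb1
    have h3 : a * i₁ < (ν * b) * i₁ := by
      calc a * i₁ ≤ (c i₁).natTrailingDegree * b := h1
        _ < (ν * i₁) * b := h2
        _ = (ν * b) * i₁ := by ring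
    exact Nat.lt_of_mul_lt_mul_right h3
  · have h1 : (c b).trailingCoeff ≠ 0 := by
      rw [Ne, trailingCoeff_eq_zero]
      exact hb2.2
    exact h1
  · intro i hi j hj
    rcases Nat.eq_zero_or_pos i with h0 | h0
    · right; exact h0
    · left
      by_cases hci : c i = 0
      · rw [hci, coeff_zero]
      · have hiS : i ∈ S := by
          simp only [S, Finset.mem_filter, Finset.mem_range]
          exact ⟨by omega, h0, hci⟩
        have h1 := hle i hiS
        apply coeff_eq_zero_of_lt_natTrailingDegree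
        have h2 : b * j < b * (c i).natTrailingDegree := by
          calc b * j < a * i := hj
            _ ≤ (c i).natTrailingDegree * b := h1
            _ = b * (c i).natTrailingDegree := by ring
        exact Nat.lt_of_mul_lt_mul_left h2
  · intro i hi hbi j hj
    by_cases hci : c i = 0
    · rw [hci, coeff_zero]
    · have hiS : i ∈ S := by
        simp only [S, Finset.mem_filter, Finset.mem_range]
        exact ⟨by omega, by omega, hci⟩
      have h1 := hlt i hiS hbi
      apply coeff_eq_zero_of_lt_natTrailingDegree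
      have h2 : b * j < b * (c i).natTrailingDegree := by
        calc b * j ≤ a * i := hj
          _ < (c i).natTrailingDegree * b := h1
          _ = b * (c i).natTrailingDegree := by ring
      exact Nat.lt_of_mul_lt_mul_left h2

private lemma val_ev2_expand (q s : ℂ) (b : ℕ) (p : ℤ[X][X]) :
    ev2 q s (expand ℤ[X] b p) = ev2 q (s ^ b) p := by
  unfold ev2
  rw [coe_eval₂RingHom, coe_eval₂RingHom, expand_eq_comp_X_pow, eval₂_comp, eval₂_pow, eval₂_X]

private lemma val_ev2_X (q s : ℂ) : ev2 q s X = s := by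
  unfold ev2
  rw [coe_eval₂RingHom, eval₂_X]

/-- integrality of the slopes -/
theorem val_thm (N : Matrix ι ι ℤ[X][X]) (ν : ℕ)
    (hU : ∀ q t : ℂ, ‖q‖ = 1 → ‖t‖ = 1 → ∀ l, Eig (N.map (ev2 q t)) l → ‖l‖ = 1)
    (h1 : ∀ i, i ≤ Fintype.card ι → (X : ℤ[X]) ^ (ν * i) ∣
      (N.charpoly.coeff (Fintype.card ι - i)).map (Polynomial.evalRingHom (1 : ℤ))) :
    ∀ i, i ≤ Fintype.card ι → (X : ℤ[X][X]) ^ (ν * i) ∣ N.charpoly.coeff (Fintype.card ι - i) := by
  classical
  set d := Fintype.card ι with hd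
  set P := N.charpoly with hP
  by_contra hcon
  push Not at hcon
  obtain ⟨i₁, hi₁, hbad⟩ := hcon
  obtain ⟨b, a, hb1, hbd, hab, hg, hlow, hhigh⟩ :=
    val_choice d ν (fun i => P.coeff (d - i)) i₁ hi₁ hbad
  have hb0 : 0 < b := hb1
  -- the reduced coefficients
  have hdvd : ∀ i, i ≤ d → (X : ℤ[X][X]) ^ (a * i) ∣ expand ℤ[X] b (P.coeff (d - i)) := by
    intro i hi
    rw [X_pow_dvd_iff]
    intro n hn
    rw [coeff_expand hb0]
    split_ifs with hbn
    · obtain ⟨m, rfl⟩ := hbn
      rw [Nat.mul_div_cancel_left m hb0]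
      rcases hlow i hi m hn with h | h
      · exact h
      · rw [h, mul_zero] at hn
        omega
    · rfl
  have hex : ∀ i, ∃ e : ℤ[X][X], i ≤ d → expand ℤ[X] b (P.coeff (d - i)) = X ^ (a * i) * e := by
    intro i
    by_cases hi : i ≤ d
    · obtain ⟨e, he⟩ := hdvd i hi
      exact ⟨e, fun _ => he⟩
    · exact ⟨0, fun h => absurd h hi⟩
  choose e he using hex
  have hPd : P.coeff d = 1 := by
    have h2 := N.charpoly_monic
    rw [Monic, leadingCoeff, N.charpoly_natDegree_eq_dim] at h2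
    exact h2
  have he0 : e 0 = 1 := by
    have h2 := he 0 (Nat.zero_le _)
    rw [Nat.sub_zero, hPd, map_one, mul_zero, pow_zero, one_mul] at h2
    exact h2.symm
  let P' : ℤ[X][X][X] := ∑ n ∈ Finset.range (d + 1), monomial n (e (d - n))
  have hco : ∀ n, P'.coeff n = if n ≤ d then e (d - n) else 0 := by
    intro n
    simp only [P', finsetSum_coeff, coeff_monomial]
    rw [Finset.sum_ite_eq']
    simp only [Finset.mem_range, Nat.lt_succ_iff]
  have hdeg : P'.natDegree ≤ d := by
    rw [natDegree_le_iff_coeff_eq_zero]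
    intro n hn
    rw [hco, if_neg (by omega)]
  have hmon : P'.Monic := by
    apply monic_of_natDegree_le_of_coeff_eq_one d hdeg
    rw [hco, if_pos le_rfl, Nat.sub_self, he0]
  -- roots
  have hroot : ∀ q s : ℂ, ‖q‖ = 1 → ‖s‖ = 1 → ∀ l, (P'.map (ev2 q s)).IsRoot l → ‖l‖ = 1 := by
    intro q s hq hs l hl
    have hPs : ∀ n, n ≤ d → ev2 q (s ^ b) (P.coeff n) = s ^ (a * (d - n)) * ev2 q s (e (d - n)) := by
      intro n hn
      have h2 := he (d - n) (Nat.sub_le _ _)
      rw [Nat.sub_sub_self hn] at h2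
      rw [← val_ev2_expand, h2, map_mul, map_pow, val_ev2_X]
    have h3 : (P.map (ev2 q (s ^ b))).eval (s ^ a * l) = 0 := by
      have h4 : (P.map (ev2 q (s ^ b))).natDegree < d + 1 := by
        have h5 : (P.map (ev2 q (s ^ b))).natDegree ≤ P.natDegree := natDegree_map_le
        have h6 : P.natDegree = d := N.charpoly_natDegree_eq_dim
        omega
      have h7 : (P'.map (ev2 q s)).natDegree < d + 1 := by
        have h5 : (P'.map (ev2 q s)).natDegree ≤ P'.natDegree := natDegree_map_le
        omega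
      have h8 : (P'.map (ev2 q s)).eval l = 0 := hl
      rw [eval_eq_sum_range' h7] at h8
      rw [eval_eq_sum_range' h4]
      have h9 : ∑ n ∈ Finset.range (d + 1), (P.map (ev2 q (s ^ b))).coeff n * (s ^ a * l) ^ n =
          s ^ (a * d) * ∑ n ∈ Finset.range (d + 1), (P'.map (ev2 q s)).coeff n * l ^ n := by
        rw [Finset.mul_sum]
        apply Finset.sum_congr rfl
        intro n hn
        have hn' : n ≤ d := by
          have := Finset.mem_range.1 hn
          omega
        rw [coeff_map, coeff_map, hco, if_pos hn', hPs n hn', mul_pow, ← pow_mul]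
        have h10 : s ^ (a * d) = s ^ (a * (d - n)) * s ^ (a * n) := by
          rw [← pow_add, ← mul_add, Nat.sub_add_cancel hn']
        rw [h10]
        ring
      rw [h9, h8, mul_zero]
    have h11 : Eig (N.map (ev2 q (s ^ b))) (s ^ a * l) := by
      rw [eig_iff_root]
      have h12 : (N.map (ev2 q (s ^ b))).charpoly = P.map (ev2 q (s ^ b)) :=
        Matrix.charpoly_map N (ev2 q (s ^ b))
      rw [mem_roots (Matrix.charpoly_monic _).ne_zero, h12]
      exact h3
    have h13 := hU q (s ^ b) hq (by rw [norm_pow, hs, one_pow]) _ h11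
    rw [norm_mul, norm_pow, hs, one_pow, one_mul] at h13
    exact h13
  obtain ⟨k, hk⟩ := top_lemma P' hmon hroot
  -- the coefficients at zero
  have hz : ∀ i, i ≤ d → (e i).coeff 0 = (expand ℤ[X] b (P.coeff (d - i))).coeff (a * i) := by
    intro i hi
    rw [he i hi]
    have h2 := coeff_X_pow_mul (e i) (a * i) 0
    rw [zero_add] at h2
    exact h2.symm
  have hP0 : ∀ n, n ≤ d → (P'.map (evalRingHom (0 : ℤ[X]))).coeff n = (e (d - n)).coeff 0 := by
    intro n hn
    rw [coeff_map, hco, if_pos hn, coe_evalRingHom, coeff_zero_eq_eval_zero]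
  have hval : (P'.map (evalRingHom (0 : ℤ[X]))).coeff (d - b) = (P.coeff (d - b)).coeff a := by
    rw [hP0 _ (Nat.sub_le _ _), Nat.sub_sub_self hbd, hz b hbd, coeff_expand hb0,
      if_pos (dvd_mul_left b a), Nat.mul_div_cancel a hb0]
  have hzero : ∀ n, n < d - b → (P'.map (evalRingHom (0 : ℤ[X]))).coeff n = 0 := by
    intro n hn
    rw [hP0 n (by omega), hz (d - n) (Nat.sub_le _ _), coeff_expand hb0]
    split_ifs with hbn
    · apply hhigh (d - n) (Nat.sub_le _ _) (by omega)
      rw [Nat.mul_div_cancel' hbn]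
    · rfl
  have htd : (P'.map (evalRingHom (0 : ℤ[X]))).natTrailingDegree = d - b := by
    apply le_antisymm
    · apply natTrailingDegree_le_of_ne_zero
      rw [hval]
      exact hg
    · apply le_natTrailingDegree
      · intro h
        rw [h, coeff_zero] at hval
        exact hg hval.symm
      · exact hzero
  have htc : (P'.map (evalRingHom (0 : ℤ[X]))).trailingCoeff = (P.coeff (d - b)).coeff a := by
    rw [trailingCoeff, htd, hval]
  rw [htc] at hk
  have h14 := h1 b hbd
  rw [X_pow_dvd_iff] at h14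
  have h15 := h14 a hab
  rw [coeff_map, coe_evalRingHom] at h15
  rcases hk with hk | hk
  · rw [hk] at h15
    simp at h15
  · rw [hk] at h15
    simp at h15

end Pool.Agent.AMU
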