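import Pool.Agent.AMU0.Iter
import Pool.Agent.AMU0.Gar
import Pool.Agent.AMU0.Val
import Pool.Agent.AMU0.Pow
import Pool.Agent.AMU0.QOne

open Matrix Polynomial

namespace Pool.Agent.AMU

/-! ### Repeated words -/

/-- the word `Z` repeated -/
private def ga_rep (Z : List ℕ) : ℕ → List ℕ
  | 0 => []
  | n + 1 => Z ++ ga_rep Z n

private lemma ga_rep_lt {m : ℕ} {Z : List ℕ} (hZ : Lt m Z) : ∀ n, Lt m (ga_rep Z n)
  | 0 => lt_nil m
  | n + 1 => lt_append.2 ⟨hZ, ga_rep_lt hZ n⟩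

private lemma ga_rep_pw (m : ℕ) (Z : List ℕ) : ∀ n, pw m (ga_rep Z n) = pw m Z ^ n
  | 0 => by rw [pow_zero]; rfl
  | n + 1 => by
    rw [pow_succ', ← ga_rep_pw m Z n, ← pw_append]
    rfl

private lemma ga_rep_lpm {R : Type*} [CommRing R] (m : ℕ) (q t : R) (Z : List ℕ) :
    ∀ n, lpm m q t (ga_rep Z n) = lpm m q t Z ^ n
  | 0 => by rw [pow_zero]; rfl
  | n + 1 => by
    rw [pow_succ', ← ga_rep_lpm m q t Z n, ← lpm_append]
    rfl

private lemma ga_hh_lt (m : ℕ) : Lt m (hw m ++ hw m) := lt_append.2 ⟨hw_lt m, hw_lt m⟩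

private lemma ga_hh_pw (m : ℕ) : pw m (hw m ++ hw m) = tw (sg m) 0 m := by
  rw [pw_append, hw_sq]

/-- the word of a power of the full twist and a positive word -/
private lemma ga_tw_pw (m : ℕ) (k : ℕ) (Z : List ℕ) :
    pw m (ga_rep (hw m ++ hw m) k ++ Z) = tw (sg m) 0 m ^ k * pw m Z := by
  rw [pw_append, ga_rep_pw, ga_hh_pw]

private lemma ga_tw_lt {m : ℕ} (k : ℕ) {Z : List ℕ} (hZ : Lt m Z) :
    Lt m (ga_rep (hw m ++ hw m) k ++ Z) :=
  lt_append.2 ⟨ga_rep_lt (ga_hh_lt m) k, hZ⟩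

private lemma ga_tw_lpm {R : Type*} [CommRing R] (m : ℕ) (q t : R) (k : ℕ) (Z : List ℕ) :
    lpm m q t (ga_rep (hw m ++ hw m) k ++ Z) = (t ^ 2 * q ^ (2 * m)) ^ k • lpm m q t Z := by
  rw [lpm_append, ga_rep_lpm, lhw_sq, _root_.smul_pow, one_pow, smul_mul_assoc, one_mul]

/-! ### Permutations -/

private lemma ga_pm_hw (m : ℕ) : pm (hw m) * pm (hw m) = 1 := by
  ext x
  rw [Equiv.Perm.mul_apply, pm_hw, pm_hw, Equiv.Perm.one_apply]
  split_ifs <;> omega

private lemma ga_perm_tw {m : ℕ} {φ : BraidGroup m →* Equiv.Perm ℕ}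
    (hφ : ∀ X, Lt m X → φ (pw m X) = pm X) : φ (tw (sg m) 0 m) = 1 := by
  rw [← hw_sq, map_mul, hφ _ (hw_lt m), ga_pm_hw]

private lemma ga_pure_of {m : ℕ} {Y : List ℕ} (hY : Lt m Y) (h : pm Y = 1) :
    PureWord m (posw Y) :=
  ⟨letters_posw hY, fun l => by rw [outl_posw, h, Equiv.Perm.one_apply]⟩

/-! ### The spectrum -/

private lemma ga_lpm_lwm {m : ℕ} {w : List (ℕ × Bool)} (hw' : Letters m w) {Y : List ℕ}
    (hY : Lt m Y) {e : ℕ} (h : tw (sg m) 0 m ^ e * braid m w = pw m Y) {q t : ℂ} (hq : q ≠ 0)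
    (ht : t ≠ 0) : lpm m q t Y = (t ^ 2 * q ^ (2 * m)) ^ e • lwm m q t w := by
  have h1 : braid m (posw (ga_rep (hw m ++ hw m) e) ++ w) = braid m (posw Y) := by
    rw [braid_append, braid_posw, braid_posw, ga_rep_pw, ga_hh_pw, h]
  have h2 : Letters m (posw (ga_rep (hw m ++ hw m) e) ++ w) :=
    letters_append (letters_posw (ga_rep_lt (ga_hh_lt m) e)) hw'
  have h3 := lwm_braid h2 (letters_posw hY) h1 hq ht
  rw [lwm_append, lwm_posw, lwm_posw, ga_rep_lpm, lhw_sq, _root_.smul_pow, one_pow, smul_mul_assoc,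
    one_mul] at h3
  exact h3.symm

private lemma ga_unimod {m : ℕ} {w : List (ℕ × Bool)} (hw' : Letters m w) (hU : U2 m w)
    {Y : List ℕ} (hY : Lt m Y) {e : ℕ} (h : tw (sg m) 0 m ^ e * braid m w = pw m Y) (q t : ℂ)
    (hq : ‖q‖ = 1) (ht : ‖t‖ = 1) (l : ℂ) (hl : Eig (lpm m q t Y) l) : ‖l‖ = 1 := by
  have hq0 : q ≠ 0 := by
    rintro rfl
    rw [norm_zero] at hq
    exact zero_ne_one hq
  have ht0 : t ≠ 0 := by
    rintro rfl
    rw [norm_zero] at ht
    exact zero_ne_one ht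
  obtain ⟨c, hc⟩ : ∃ c : ℂ, c = (t ^ 2 * q ^ (2 * m)) ^ e := ⟨_, rfl⟩
  have hcn : ‖c‖ = 1 := by
    rw [hc, norm_pow, norm_mul, norm_pow, norm_pow, hq, ht]
    simp
  have hc0 : c ≠ 0 := by
    rintro h0
    rw [h0, norm_zero] at hcn
    exact zero_ne_one hcn
  rw [ga_lpm_lwm hw' hY h hq0 ht0, ← hc] at hl
  obtain ⟨v, hv0, hv⟩ := hl
  have h1 : Eig (lwm m q t w) (c⁻¹ * l) := by
    refine ⟨v, hv0, ?_⟩
    rw [Matrix.smul_mulVec] at hv
    rw [mul_smul, ← hv, smul_smul, inv_mul_cancel₀ hc0, one_smul]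
  have h2 := hU q t hq ht _ h1
  rw [norm_mul, norm_inv, hcn, inv_one, one_mul] at h2
  exact h2

/-! ### Coefficients of the characteristic polynomial of a diagonal matrix -/

private lemma ga_esymm {R : Type*} [CommRing R] (c : R) (s : Multiset R) (h : ∀ a ∈ s, c ∣ a)
    (i : ℕ) : c ^ i ∣ s.esymm i := by
  unfold Multiset.esymm
  refine Multiset.dvd_sum fun a ha => ?_
  obtain ⟨u, hu, rfl⟩ := Multiset.mem_map.1 ha
  obtain ⟨hu1, hu2⟩ := Multiset.mem_powersetCard.1 hu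
  rw [← hu2]
  clear hu2 hu ha
  have h' : ∀ a ∈ u, c ∣ a := fun a ha => h a (Multiset.mem_of_le hu1 ha)
  clear hu1
  induction u using Multiset.induction_on with
  | empty => simp
  | cons a u ih =>
    rw [Multiset.card_cons, Multiset.prod_cons, pow_succ']
    exact mul_dvd_mul (h' a (Multiset.mem_cons_self a u))
      (ih fun b hb => h' b (Multiset.mem_cons_of_mem hb))

private lemma ga_diag {ι R : Type*} [Fintype ι] [DecidableEq ι] [CommRing R] (c : R) (d : ι → R)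
    (h : ∀ x, c ∣ d x) (i : ℕ) (hi : i ≤ Fintype.card ι) :
    c ^ i ∣ (Matrix.diagonal d).charpoly.coeff (Fintype.card ι - i) := by
  rw [charpoly_diagonal]
  have h1 : (∏ x, (X - C (d x))) =
      ((Finset.univ.val.map d).map fun t => X - C t).prod := by
    rw [Multiset.map_map]
    rfl
  have hc : Multiset.card (Finset.univ.val.map d) = Fintype.card ι := by
    rw [Multiset.card_map]
    rfl
  rw [h1, Multiset.prod_X_sub_C_coeff _ (by rw [hc]; exact Nat.sub_le _ _), hc,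
    Nat.sub_sub_self hi]
  refine Dvd.dvd.mul_left (ga_esymm c _ (fun a ha => ?_) i) _
  obtain ⟨x, _, rfl⟩ := Multiset.mem_map.1 ha
  exact h x

/-- If all eigenvalues of the LKB matrices of a pure braid are unimodular, then up to full twists
the braid is conjugate to a positive braid with two strands which never cross. -/
theorem ga {m : ℕ} (hm : 2 ≤ m) {w : List (ℕ × Bool)} (hw : PureWord m w) (hU : U2 m w) :
    ∃ (X U : List ℕ) (e : ℤ), Lt m X ∧ Lt m U ∧ PureWord m (posw X) ∧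
      braid m w = tw (sg m) 0 m ^ e * (pw m U * pw m X * (pw m U)⁻¹) ∧
      (X = [] ∨ ∃ i j, i < j ∧ j < m ∧ ¬ Crs (trk X) i j) := by
  obtain ⟨e0, Y, hY, he⟩ := exists_positive m (braid m w)
  obtain ⟨φ, hφ, hφ'⟩ := exists_perm m
  have hφw : φ (braid m w) = 1 := by
    ext l
    rw [hφ' w hw.1, hw.2, Equiv.Perm.one_apply]
  have hφt := ga_perm_tw hφ
  have hpY : pm Y = 1 := by
    rw [← hφ Y hY, ← he, map_mul, map_pow, hφt, one_pow, one_mul, hφw]
  have hPY := ga_pure_of hY hpY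
  -- the minimal number of crossings
  obtain ⟨x0, -, hx0⟩ := (Finset.univ : Finset (Pr m)).exists_min_image
    (fun x : Pr m => cnt Y x.1.1 x.1.2)
    ⟨⟨(⟨0, by omega⟩, ⟨1, by omega⟩), by
      show (0 : ℕ) < 1
      norm_num⟩, Finset.mem_univ _⟩
  obtain ⟨μ, hμ⟩ := cnt_even hY hPY (i := x0.1.1) (j := x0.1.2) x0.2
  obtain ⟨ν, hν⟩ : ∃ ν, ν = cnt Y x0.1.1 x0.1.2 := ⟨_, rfl⟩
  rw [← hν] at hμ
  have hmin : ∀ x : Pr m, ν ≤ cnt Y x.1.1 x.1.2 := fun x => by
    rw [hν]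
    exact hx0 x (Finset.mem_univ x)
  -- the universal matrix
  obtain ⟨N, hN⟩ : ∃ N : Matrix (Pr m) (Pr m) ℤ[X][X],
      N = lpm m (C (Polynomial.X : ℤ[X])) (Polynomial.X : ℤ[X][X]) Y := ⟨_, rfl⟩
  have hNU : ∀ q t : ℂ, ‖q‖ = 1 → ‖t‖ = 1 → ∀ l, Eig (N.map (ev2 q t)) l → ‖l‖ = 1 := by
    intro q t hq ht l hl
    refine ga_unimod hw.1 hU hY he q t hq ht l ?_
    have h1 : ev2 q t (C (Polynomial.X : ℤ[X])) = q := by
      unfold ev2
      rw [coe_eval₂RingHom, eval₂_C]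
      exact aeval_X q
    have h2 : ev2 q t (Polynomial.X : ℤ[X][X]) = t := by
      unfold ev2
      rw [coe_eval₂RingHom, eval₂_X]
    rw [hN, lpm_map, h1, h2] at hl
    exact hl
  have hN1 : ∀ i, i ≤ Fintype.card (Pr m) → (Polynomial.X : ℤ[X]) ^ (ν * i) ∣
      (N.charpoly.coeff (Fintype.card (Pr m) - i)).map (Polynomial.evalRingHom (1 : ℤ)) := by
    intro i hi
    have h1 : N.map (Polynomial.mapRingHom (Polynomial.evalRingHom (1 : ℤ))) =
        Matrix.diagonal fun x : Pr m => (Polynomial.X : ℤ[X]) ^ cnt Y x.1.1 x.1.2 := by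
      rw [hN, lpm_map]
      have h2 : Polynomial.mapRingHom (Polynomial.evalRingHom (1 : ℤ)) (C (Polynomial.X : ℤ[X])) =
          1 := by
        simp
      have h3 : Polynomial.mapRingHom (Polynomial.evalRingHom (1 : ℤ)) (Polynomial.X : ℤ[X][X]) =
          Polynomial.X := by
        simp
      rw [h2, h3]
      exact lpm_one _ hY hPY
    have h4 : (N.charpoly.coeff (Fintype.card (Pr m) - i)).map (Polynomial.evalRingHom (1 : ℤ)) =
        (N.map (Polynomial.mapRingHom (Polynomial.evalRingHom (1 : ℤ)))).charpoly.coeff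
          (Fintype.card (Pr m) - i) := by
      rw [Matrix.charpoly_map, Polynomial.coeff_map]
      rfl
    rw [h4, h1, pow_mul]
    exact ga_diag _ _ (fun x => pow_dvd_pow _ (hmin x)) i hi
  obtain ⟨K, hK⟩ := pow_val N ν (val_thm N ν hNU hN1)
  -- the element
  obtain ⟨T, hT⟩ : ∃ T : BraidGroup m, T = tw (sg m) 0 m := ⟨_, rfl⟩
  have hTc : ∀ (f : BraidGroup m), Commute T f := fun f => by rw [hT]; exact tw_comm f
  obtain ⟨h, hh⟩ : ∃ h : BraidGroup m, h = (T ^ μ)⁻¹ * pw m Y := ⟨_, rfl⟩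
  have hpow : ∀ p : ℕ, h ^ p = (T ^ (μ * p))⁻¹ * pw m Y ^ p := by
    intro p
    rw [hh, ((hTc (pw m Y)).pow_left μ).inv_left.mul_pow, inv_pow, ← pow_mul]
  have hgar : ∀ p : ℕ, ∃ Z, Lt m Z ∧ tw (sg m) 0 m ^ (K + 1) * h ^ p = pw m Z := by
    intro p
    have h1 : ∀ x y, (Polynomial.X : ℤ[X][X]) ^ (2 * ((ν * p - K) / 2)) ∣
        lpm m (C Polynomial.X) Polynomial.X (ga_rep Y p) x y := by
      intro x y
      rw [ga_rep_lpm, ← hN]
      have h2 := hK p x y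
      have h3 : (Polynomial.X : ℤ[X][X]) ^ (ν * p - K) ∣ (N ^ p) x y := by
        rcases le_total K (ν * p) with h4 | h4
        · have h5 : ν * p = K + (ν * p - K) := by omega
          rw [h5, pow_add] at h2
          exact (mul_dvd_mul_iff_left (pow_ne_zero K Polynomial.X_ne_zero)).1 h2
        · rw [Nat.sub_eq_zero_of_le h4, pow_zero]
          exact one_dvd _
      exact (pow_dvd_pow _ (by omega)).trans h3
    obtain ⟨Z, hZ, hz⟩ := iter _ (ga_rep_lt hY p) h1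
    rw [ga_rep_pw, pow_mul, pow_two, hw_sq, ← hT] at hz
    refine ⟨ga_rep (Pool.Agent.AMU.hw m ++ Pool.Agent.AMU.hw m)
      (K + 1 + (ν * p - K) / 2 - μ * p) ++ Z, ga_tw_lt _ hZ, ?_⟩
    rw [ga_tw_pw, ← hT, hpow p, hz]
    have h6 : μ * p ≤ K + 1 + (ν * p - K) / 2 := by
      have h7 : ν * p = 2 * (μ * p) := by
        rw [hμ]
        ring
      omega
    have h8 : K + 1 + (ν * p - K) / 2 = μ * p + (K + 1 + (ν * p - K) / 2 - μ * p) := by omega
    have h9 : T ^ (K + 1) * ((T ^ (μ * p))⁻¹ * (T ^ ((ν * p - K) / 2) * pw m Z)) =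
        (T ^ (μ * p))⁻¹ * T ^ (K + 1 + (ν * p - K) / 2) * pw m Z := by
      have h10 : T ^ (K + 1) * (T ^ (μ * p))⁻¹ = (T ^ (μ * p))⁻¹ * T ^ (K + 1) :=
        ((Commute.refl T).pow_pow (K + 1) (μ * p)).inv_right.eq
      rw [pow_add T (K + 1) ((ν * p - K) / 2)]
      simp only [← mul_assoc]
      rw [h10]
    have h11 : (T ^ (μ * p))⁻¹ * T ^ (K + 1 + (ν * p - K) / 2) =
        T ^ (K + 1 + (ν * p - K) / 2 - μ * p) := by
      conv_lhs => rw [h8]
      rw [pow_add, inv_mul_cancel_left]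
    rw [h9, h11]
  obtain ⟨U, X, hUl, hX, hUX⟩ := gar h (K + 1) hgar
  have hφh : φ h = 1 := by
    rw [hh, map_mul, map_inv, map_pow, hT, hφt, one_pow, inv_one, one_mul, hφ Y hY, hpY]
  have hPX : PureWord m (posw X) := by
    refine ga_pure_of hX ?_
    have h1 := congrArg φ hUX
    rw [map_mul, map_mul, hφh, one_mul, hφ X hX] at h1
    exact (mul_eq_left.1 h1.symm)
  have hhU : h = pw m U * pw m X * (pw m U)⁻¹ := by
    rw [← hUX, mul_inv_cancel_right]
  have hYh : pw m Y = T ^ μ * h := by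
    rw [hh, mul_inv_cancel_left]
  refine ⟨X, U, (μ : ℤ) - e0, hX, hUl, hPX, ?_, ?_⟩
  · rw [← hhU, ← hT, _root_.zpow_sub, zpow_natCast, zpow_natCast]
    have h1 : T ^ e0 * braid m w = T ^ μ * h := by
      rw [hT, he, hYh, hT]
    have h2 : braid m w = (T ^ e0)⁻¹ * (T ^ μ * h) := by
      rw [← h1, inv_mul_cancel_left]
    have h3 : T ^ μ * (T ^ e0)⁻¹ = (T ^ e0)⁻¹ * T ^ μ :=
      ((Commute.refl T).pow_pow μ e0).inv_right.eq
    rw [h2, h3, mul_assoc]
  · by_cases hne : X = []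
    · exact Or.inl hne
    right
    -- the matrices at `q = 1`, `t = 2`
    have h1 : pw m (Y ++ U) = pw m (ga_rep (Pool.Agent.AMU.hw m ++ Pool.Agent.AMU.hw m) μ ++
        (U ++ X)) := by
      rw [ga_tw_pw, pw_append, pw_append, ← hT, hYh, mul_assoc, hUX]
    have h2 := lpm_pw (1 : ℂ) 2 (lt_append.2 ⟨hY, hUl⟩)
      (ga_tw_lt μ (lt_append.2 ⟨hUl, hX⟩)) h1
    rw [ga_tw_lpm, lpm_append, lpm_append, lpm_one _ hY hPY, lpm_one _ hX hPX] at h2
    -- the matrix of `U` is invertible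
    have h3 : ∀ V : List ℕ, Lt m V → IsUnit (lpm m (1 : ℂ) 2 V) := by
      intro V
      induction V with
      | nil =>
        intro _
        exact isUnit_one
      | cons v V ih =>
        intro hV
        obtain ⟨h4, h5⟩ := lt_cons.1 hV
        have h6 : lpm m (1 : ℂ) 2 (v :: V) = lmat m 1 2 v * lpm m (1 : ℂ) 2 V := by
          unfold lpm
          rw [List.map_cons, List.prod_cons]
        rw [h6]
        refine IsUnit.mul ?_ (ih h5)
        rw [Matrix.isUnit_iff_isUnit_det]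
        exact lmat_isUnit one_ne_zero two_ne_zero h4
    obtain ⟨B, hB⟩ := (h3 U hUl).exists_right_inv
    have h4 : ∃ y, lpm m (1 : ℂ) 2 U x0 y ≠ 0 := by
      by_contra hcon
      push Not at hcon
      have h5 := congrFun (congrFun hB x0) x0
      rw [Matrix.mul_apply, Matrix.one_apply_eq, Finset.sum_eq_zero] at h5
      · exact zero_ne_one h5
      · intro y _
        rw [hcon y, zero_mul]
    obtain ⟨y, hy⟩ := h4
    have h5 := congrFun (congrFun h2 x0) y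
    rw [Matrix.diagonal_mul, Matrix.smul_apply, Matrix.mul_diagonal, smul_eq_mul, ← hν, hμ] at h5
    have h6 : (2 : ℂ) ^ cnt X y.1.1 y.1.2 = 1 := by
      have h7 : (2 : ℂ) ^ (μ + μ) = (2 ^ 2 * 1 ^ (2 * m)) ^ μ := by
        rw [one_pow, mul_one, ← pow_mul]
        congr 1
        ring
      rw [← h7] at h5
      have h8 : (2 : ℂ) ^ (μ + μ) * lpm m (1 : ℂ) 2 U x0 y ≠ 0 :=
        mul_ne_zero (pow_ne_zero _ two_ne_zero) hy
      have h9 : (2 : ℂ) ^ (μ + μ) * lpm m (1 : ℂ) 2 U x0 y * 2 ^ cnt X y.1.1 y.1.2 =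
          (2 : ℂ) ^ (μ + μ) * lpm m (1 : ℂ) 2 U x0 y * 1 := by
        rw [mul_one, mul_assoc]
        exact h5.symm
      exact mul_left_cancel₀ h8 h9
    have h7 : cnt X y.1.1 y.1.2 = 0 := by
      by_contra h8
      have h9 : ‖(2 : ℂ) ^ cnt X y.1.1 y.1.2‖ = 1 := by rw [h6, norm_one]
      rw [norm_pow] at h9
      have h10 : (1 : ℝ) < ‖(2 : ℂ)‖ := by norm_num
      exact absurd h9 (one_lt_pow₀ h10 h8).ne'
    exact ⟨y.1.1, y.1.2, y.2, y.1.2.2, cnt_zero hX hne hPX h7⟩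

end Pool.Agent.AMU
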