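import Pool.Agent.AMU0.Base

open Matrix

namespace Pool.Agent.AMU

theorem gw_append (q z : ℂ) (K : ℕ) (w w' : List (ℕ × Bool)) (F : GV) :
    gw q z K (w ++ w') F = gw q z K w (gw q z K w' F) := by
  induction w with
  | nil => rfl
  | cons x w ih => rw [List.cons_append, gw, gw, ih]

private lemma ginv_gop_add (q z : ℂ) (K k : ℕ) (F F' : GV) :
    gop q z K k (F + F') = gop q z K k F + gop q z K k F' := by
  funext κ p
  simp only [gop, Pi.add_apply]
  split_ifs <;> ring

private lemma ginv_gopi_add (q z : ℂ) (K k : ℕ) (F F' : GV) :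
    gopi q z K k (F + F') = gopi q z K k F + gopi q z K k F' := by
  funext κ p
  simp only [gopi, Pi.add_apply]
  split_ifs <;> ring

private lemma ginv_gop_smul (q z : ℂ) (K k : ℕ) (a : ℂ) (F : GV) :
    gop q z K k (a • F) = a • gop q z K k F := by
  funext κ p
  simp only [gop, Pi.smul_apply, smul_eq_mul]
  split_ifs <;> ring

private lemma ginv_gopi_smul (q z : ℂ) (K k : ℕ) (a : ℂ) (F : GV) :
    gopi q z K k (a • F) = a • gopi q z K k F := by
  funext κ p
  simp only [gopi, Pi.smul_apply, smul_eq_mul]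
  split_ifs <;> ring

theorem gw_add (q z : ℂ) (K : ℕ) (w : List (ℕ × Bool)) (F F' : GV) :
    gw q z K w (F + F') = gw q z K w F + gw q z K w F' := by
  induction w with
  | nil => rfl
  | cons x w ih =>
    rw [gw, gw, gw, ih]
    split_ifs
    · exact ginv_gop_add q z K x.1 _ _
    · exact ginv_gopi_add q z K x.1 _ _

theorem gw_smul (q z : ℂ) (K : ℕ) (w : List (ℕ × Bool)) (a : ℂ) (F : GV) :
    gw q z K w (a • F) = a • gw q z K w F := by
  induction w with
  | nil => rfl
  | cons x w ih =>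
    rw [gw, gw, ih]
    split_ifs
    · exact ginv_gop_smul q z K x.1 a _
    · exact ginv_gopi_smul q z K x.1 a _

private lemma ginv_wt0 (q z : ℂ) (K : ℕ) : wt4 q z K 0 = 1 := by simp [wt4]

private lemma ginv_wt_ne {q z : ℂ} (hq : q ≠ 0) (hz : z ≠ 0) (K : ℕ) (i : Fin 4) :
    wt4 q z K i ≠ 0 := by
  fin_cases i <;> simp [wt4, hq, hz]

private lemma ginv_csw_left (κ : ℕ → Fin 4) (k : ℕ) : csw κ k k = κ (k + 1) := by
  simp [csw]

private lemma ginv_csw_right (κ : ℕ → Fin 4) (k : ℕ) : csw κ k (k + 1) = κ k := by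
  simp [csw]

private lemma ginv_csw_ne (κ : ℕ → Fin 4) {k l : ℕ} (h1 : l ≠ k) (h2 : l ≠ k + 1) :
    csw κ k l = κ l := by
  simp [csw, Equiv.swap_apply_of_ne_of_ne h1 h2]

private lemma ginv_csw_csw (κ : ℕ → Fin 4) (k : ℕ) : csw (csw κ k) k = κ := by
  funext l
  simp [csw]

private lemma ginv_left (q z : ℂ) (K k : ℕ) (F : GV) (κ : ℕ → Fin 4) :
    gop q z K k F κ k = if κ k = 0 ∨ κ (k + 1) = 0 then F (csw κ k) (k + 1)
      else (1 - wt4 q z K (κ (k + 1))) * F (csw κ k) k + F (csw κ k) (k + 1) := by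
  simp [gop]

private lemma ginv_right (q z : ℂ) (K k : ℕ) (F : GV) (κ : ℕ → Fin 4) :
    gop q z K k F κ (k + 1) = if κ k = 0 ∨ κ (k + 1) = 0 then F (csw κ k) k
      else wt4 q z K (κ k) * F (csw κ k) k := by
  simp [gop]

private lemma ginv_ne (q z : ℂ) (K k : ℕ) (F : GV) (κ : ℕ → Fin 4) {p : ℕ} (h1 : p ≠ k)
    (h2 : p ≠ k + 1) : gop q z K k F κ p = F (csw κ k) p := by
  simp [gop, h1, h2]

private lemma ginv_ileft (q z : ℂ) (K k : ℕ) (F : GV) (κ : ℕ → Fin 4) :
    gopi q z K k F κ k = if κ k = 0 ∨ κ (k + 1) = 0 then F (csw κ k) (k + 1)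
      else (wt4 q z K (κ (k + 1)))⁻¹ * F (csw κ k) (k + 1) := by
  simp [gopi]

private lemma ginv_iright (q z : ℂ) (K k : ℕ) (F : GV) (κ : ℕ → Fin 4) :
    gopi q z K k F κ (k + 1) = if κ k = 0 ∨ κ (k + 1) = 0 then F (csw κ k) k
      else F (csw κ k) k -
        (1 - wt4 q z K (κ k)) * (wt4 q z K (κ (k + 1)))⁻¹ * F (csw κ k) (k + 1) := by
  simp [gopi]

private lemma ginv_ine (q z : ℂ) (K k : ℕ) (F : GV) (κ : ℕ → Fin 4) {p : ℕ} (h1 : p ≠ k)
    (h2 : p ≠ k + 1) : gopi q z K k F κ p = F (csw κ k) p := by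
  simp [gopi, h1, h2]

private lemma ginv_inv1 {q z : ℂ} (hq : q ≠ 0) (hz : z ≠ 0) (K k : ℕ) (F : GV) :
    gopi q z K k (gop q z K k F) = F := by
  funext κ p
  by_cases h1 : p = k
  · subst h1
    rw [ginv_ileft, ginv_right, ginv_csw_csw, ginv_csw_left, ginv_csw_right]
    by_cases h : κ p = 0 ∨ κ (p + 1) = 0
    · rw [if_pos h, if_pos h.symm]
    · rw [if_neg h, if_neg (fun h2 => h h2.symm), ← mul_assoc,
        inv_mul_cancel₀ (ginv_wt_ne hq hz K _), one_mul]
  · by_cases h2 : p = k + 1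
    · subst h2
      rw [ginv_iright, ginv_left, ginv_right, ginv_csw_csw, ginv_csw_left, ginv_csw_right]
      by_cases h : κ k = 0 ∨ κ (k + 1) = 0
      · rw [if_pos h, if_pos h.symm]
      · rw [if_neg h, if_neg (fun h2 => h h2.symm), if_neg (fun h2 => h h2.symm)]
        have := ginv_wt_ne hq hz K (κ (k + 1))
        field_simp
        ring
    · rw [ginv_ine _ _ _ _ _ _ h1 h2, ginv_ne _ _ _ _ _ _ h1 h2, ginv_csw_csw]

private lemma ginv_inv2 {q z : ℂ} (hq : q ≠ 0) (hz : z ≠ 0) (K k : ℕ) (F : GV) :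
    gop q z K k (gopi q z K k F) = F := by
  funext κ p
  by_cases h1 : p = k
  · subst h1
    rw [ginv_left, ginv_ileft, ginv_iright, ginv_csw_csw, ginv_csw_left, ginv_csw_right]
    by_cases h : κ p = 0 ∨ κ (p + 1) = 0
    · rw [if_pos h, if_pos h.symm]
    · rw [if_neg h, if_neg (fun h2 => h h2.symm), if_neg (fun h2 => h h2.symm)]
      have := ginv_wt_ne hq hz K (κ p)
      field_simp
      ring
  · by_cases h2 : p = k + 1
    · subst h2
      rw [ginv_right, ginv_ileft, ginv_csw_csw, ginv_csw_left, ginv_csw_right]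
      by_cases h : κ k = 0 ∨ κ (k + 1) = 0
      · rw [if_pos h, if_pos h.symm]
      · rw [if_neg h, if_neg (fun h2 => h h2.symm), ← mul_assoc,
          mul_inv_cancel₀ (ginv_wt_ne hq hz K _), one_mul]
    · rw [ginv_ne _ _ _ _ _ _ h1 h2, ginv_ine _ _ _ _ _ _ h1 h2, ginv_csw_csw]

theorem gw_winv {q z : ℂ} (hq : q ≠ 0) (hz : z ≠ 0) (K : ℕ) (w : List (ℕ × Bool)) (F : GV) :
    gw q z K (winv w) (gw q z K w F) = F := by
  induction w with
  | nil => rfl
  | cons x w ih =>
    have h2 : winv (x :: w) = winv w ++ [linv x] := by simp [winv]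
    rw [h2, gw_append]
    have h3 : gw q z K [linv x] (gw q z K (x :: w) F) = gw q z K w F := by
      rcases x with ⟨i, s⟩
      cases s
      · simp only [gw, linv, Bool.not_false, if_true, Bool.false_eq_true, if_false]
        exact ginv_inv2 hq hz K i _
      · simp only [gw, linv, Bool.not_true, if_true, Bool.false_eq_true, if_false]
        exact ginv_inv1 hq hz K i _
    rw [h3, ih]

private lemma ginv_csw_far (κ : ℕ → Fin 4) {i j : ℕ} (h : i + 2 ≤ j) :
    csw (csw κ i) j = csw (csw κ j) i := by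
  funext l
  by_cases h1 : l = i
  · subst h1
    rw [ginv_csw_ne _ (by omega) (by omega), ginv_csw_left, ginv_csw_left,
      ginv_csw_ne _ (by omega) (by omega)]
  · by_cases h2 : l = i + 1
    · subst h2
      rw [ginv_csw_ne _ (by omega) (by omega), ginv_csw_right, ginv_csw_right,
        ginv_csw_ne _ (by omega) (by omega)]
    · by_cases h3 : l = j
      · subst h3
        rw [ginv_csw_left, ginv_csw_ne _ (by omega) (by omega), ginv_csw_ne _ (by omega) (by omega),
          ginv_csw_left]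
      · by_cases h4 : l = j + 1
        · subst h4
          rw [ginv_csw_right, ginv_csw_ne _ (by omega) (by omega),
            ginv_csw_ne _ (by omega) (by omega), ginv_csw_right]
        · rw [ginv_csw_ne _ h3 h4, ginv_csw_ne _ h1 h2, ginv_csw_ne _ h1 h2, ginv_csw_ne _ h3 h4]

private lemma ginv_far (q z : ℂ) (K : ℕ) {i j : ℕ} (h : i + 2 ≤ j) (F : GV) :
    gop q z K i (gop q z K j F) = gop q z K j (gop q z K i F) := by
  funext κ p
  by_cases h1 : p = i
  · subst h1
    rw [ginv_left, ginv_ne _ _ _ _ _ _ (by omega) (by omega),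
      ginv_ne _ _ _ _ _ _ (by omega) (by omega), ginv_ne _ _ _ _ _ _ (by omega) (by omega),
      ginv_left, ginv_csw_far _ h, ginv_csw_ne κ (k := j) (l := p) (by omega) (by omega),
      ginv_csw_ne κ (k := j) (l := p + 1) (by omega) (by omega)]
  · by_cases h2 : p = i + 1
    · subst h2
      rw [ginv_right, ginv_ne _ _ _ _ _ _ (by omega) (by omega),
        ginv_ne _ _ _ _ _ _ (by omega) (by omega),
        ginv_right, ginv_csw_far _ h, ginv_csw_ne κ (k := j) (l := i) (by omega) (by omega),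
        ginv_csw_ne κ (k := j) (l := i + 1) (by omega) (by omega)]
    · by_cases h3 : p = j
      · subst h3
        rw [ginv_ne _ _ _ _ _ _ h1 h2, ginv_left, ginv_left,
          ginv_ne _ _ _ _ _ _ (by omega) (by omega), ginv_ne _ _ _ _ _ _ (by omega) (by omega),
          ginv_csw_far _ h, ginv_csw_ne κ (k := i) (l := p) (by omega) (by omega),
          ginv_csw_ne κ (k := i) (l := p + 1) (by omega) (by omega)]
      · by_cases h4 : p = j + 1
        · subst h4
          rw [ginv_ne _ _ _ _ _ _ h1 h2, ginv_right, ginv_right,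
            ginv_ne _ _ _ _ _ _ (by omega) (by omega),
            ginv_csw_far _ h, ginv_csw_ne κ (k := i) (l := j) (by omega) (by omega),
            ginv_csw_ne κ (k := i) (l := j + 1) (by omega) (by omega)]
        · rw [ginv_ne _ _ _ _ _ _ h1 h2, ginv_ne _ _ _ _ _ _ h3 h4, ginv_ne _ _ _ _ _ _ h3 h4,
            ginv_ne _ _ _ _ _ _ h1 h2, ginv_csw_far _ h]

private lemma ginv_csw_near (κ : ℕ → Fin 4) (i : ℕ) :
    csw (csw (csw κ i) (i + 1)) i = csw (csw (csw κ (i + 1)) i) (i + 1) := by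
  have l1 : ∀ κ : ℕ → Fin 4, csw κ (i + 1) i = κ i := fun κ =>
    ginv_csw_ne κ (by omega) (by omega)
  have l2 : ∀ κ : ℕ → Fin 4, csw κ i (i + 2) = κ (i + 2) := fun κ =>
    ginv_csw_ne κ (by omega) (by omega)
  have l3 : ∀ κ : ℕ → Fin 4, csw κ (i + 1) (i + 2) = κ (i + 1) := fun κ =>
    ginv_csw_right κ (i + 1)
  have l4 : ∀ κ : ℕ → Fin 4, csw κ (i + 1) (i + 1) = κ (i + 2) := fun κ =>
    ginv_csw_left κ (i + 1)
  funext l
  by_cases h1 : l = i
  · subst h1
    simp only [l1, l2, l3, l4, ginv_csw_left, ginv_csw_right]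
  · by_cases h2 : l = i + 1
    · subst h2
      simp only [l1, l2, l3, l4, ginv_csw_left, ginv_csw_right]
    · by_cases h3 : l = i + 2
      · subst h3
        simp only [l1, l2, l3, l4, ginv_csw_left, ginv_csw_right]
      · rw [ginv_csw_ne _ h1 h2, ginv_csw_ne _ h2 h3, ginv_csw_ne _ h1 h2, ginv_csw_ne _ h2 h3,
          ginv_csw_ne _ h1 h2, ginv_csw_ne _ h2 h3]

private lemma ginv_near (q z : ℂ) (K i : ℕ) (F : GV) :
    gop q z K i (gop q z K (i + 1) (gop q z K i F)) =
      gop q z K (i + 1) (gop q z K i (gop q z K (i + 1) F)) := by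
  have l1 : ∀ κ : ℕ → Fin 4, csw κ (i + 1) i = κ i := fun κ =>
    ginv_csw_ne κ (by omega) (by omega)
  have l2 : ∀ κ : ℕ → Fin 4, csw κ i (i + 2) = κ (i + 2) := fun κ =>
    ginv_csw_ne κ (by omega) (by omega)
  have l3 : ∀ κ : ℕ → Fin 4, csw κ (i + 1) (i + 2) = κ (i + 1) := fun κ =>
    ginv_csw_right κ (i + 1)
  have l4 : ∀ κ : ℕ → Fin 4, csw κ (i + 1) (i + 1) = κ (i + 2) := fun κ =>
    ginv_csw_left κ (i + 1)
  have g1 : ∀ (G : GV) (κ : ℕ → Fin 4), gop q z K (i + 1) G κ (i + 1) =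
      if κ (i + 1) = 0 ∨ κ (i + 2) = 0 then G (csw κ (i + 1)) (i + 2)
      else (1 - wt4 q z K (κ (i + 2))) * G (csw κ (i + 1)) (i + 1) + G (csw κ (i + 1)) (i + 2) :=
    fun G κ => ginv_left q z K (i + 1) G κ
  have g2 : ∀ (G : GV) (κ : ℕ → Fin 4), gop q z K (i + 1) G κ (i + 2) =
      if κ (i + 1) = 0 ∨ κ (i + 2) = 0 then G (csw κ (i + 1)) (i + 1)
      else wt4 q z K (κ (i + 1)) * G (csw κ (i + 1)) (i + 1) :=
    fun G κ => ginv_right q z K (i + 1) G κ
  have g3 : ∀ (G : GV) (κ : ℕ → Fin 4), gop q z K (i + 1) G κ i = G (csw κ (i + 1)) i :=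
    fun G κ => ginv_ne q z K (i + 1) G κ (by omega) (by omega)
  have g4 : ∀ (G : GV) (κ : ℕ → Fin 4), gop q z K i G κ (i + 2) = G (csw κ i) (i + 2) :=
    fun G κ => ginv_ne q z K i G κ (by omega) (by omega)
  funext κ p
  by_cases h1 : p = i
  · subst h1
    simp only [ginv_left, ginv_right, g1, g2, g3, g4, l1, l2, l3, l4, ginv_csw_left,
      ginv_csw_right, ginv_csw_near]
    by_cases ha : κ p = 0 <;> by_cases hb : κ (p + 1) = 0 <;> by_cases hc : κ (p + 2) = 0 <;>
      simp only [ha, hb, hc, or_true, true_or, or_false, false_or, if_true, if_false, ginv_wt0] <;>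
      ring
  · by_cases h2 : p = i + 1
    · subst h2
      simp only [ginv_left, ginv_right, g1, g2, g3, g4, l1, l2, l3, l4, ginv_csw_left,
        ginv_csw_right, ginv_csw_near]
      by_cases ha : κ i = 0 <;> by_cases hb : κ (i + 1) = 0 <;> by_cases hc : κ (i + 2) = 0 <;>
        simp only [ha, hb, hc, or_true, true_or, or_false, false_or, if_true, if_false, ginv_wt0] <;>
        ring
    · by_cases h3 : p = i + 2
      · subst h3
        simp only [ginv_left, ginv_right, g1, g2, g3, g4, l1, l2, l3, l4, ginv_csw_left,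
          ginv_csw_right, ginv_csw_near]
        by_cases ha : κ i = 0 <;> by_cases hb : κ (i + 1) = 0 <;> by_cases hc : κ (i + 2) = 0 <;>
          simp only [ha, hb, hc, or_true, true_or, or_false, false_or, if_true, if_false,
            ginv_wt0] <;>
          ring
      · rw [ginv_ne _ _ _ _ _ _ h1 h2, ginv_ne _ _ _ _ _ _ h2 h3, ginv_ne _ _ _ _ _ _ h1 h2,
          ginv_ne _ _ _ _ _ _ h2 h3, ginv_ne _ _ _ _ _ _ h1 h2, ginv_ne _ _ _ _ _ _ h2 h3,
          ginv_csw_near]

/-- the operators as permutations -/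
private noncomputable def ginvP {q z : ℂ} (hq : q ≠ 0) (hz : z ≠ 0) (K k : ℕ) :
    Equiv.Perm GV where
  toFun := gop q z K k
  invFun := gopi q z K k
  left_inv := ginv_inv1 hq hz K k
  right_inv := ginv_inv2 hq hz K k

private lemma ginv_prod {q z : ℂ} (hq : q ≠ 0) (hz : z ≠ 0) (K : ℕ) (w : List (ℕ × Bool))
    (F : GV) : (w.map fun x => if x.2 then ginvP hq hz K x.1 else (ginvP hq hz K x.1)⁻¹).prod F =
      gw q z K w F := by
  induction w with
  | nil => rfl
  | cons x w ih =>
    rw [List.map_cons, List.prod_cons, Equiv.Perm.mul_apply, ih, gw]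
    split_ifs
    · rfl
    · rfl

theorem gw_braid {m : ℕ} {w w' : List (ℕ × Bool)} (hw : Letters m w) (hw' : Letters m w')
    (h : braid m w = braid m w') {q z : ℂ} (hq : q ≠ 0) (hz : z ≠ 0) (K : ℕ) (F : GV) :
    gw q z K w F = gw q z K w' F := by
  obtain ⟨φ, hφ⟩ := exists_hom (m := m) (s := ginvP hq hz K)
    ⟨fun i j h1 _ => by
      refine Equiv.ext fun F => ?_
      exact ginv_far q z K h1 F, fun i _ => by
      refine Equiv.ext fun F => ?_
      exact ginv_near q z K i F⟩
  rw [← ginv_prod hq hz, ← ginv_prod hq hz, ← hom_braid hφ hw, ← hom_braid hφ hw', h]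

private lemma ginv_dep (q z : ℂ) (K : ℕ) {F F' : GV} : ∀ (w : List (ℕ × Bool)) (κ : ℕ → Fin 4),
    F (fun l => κ (outl l w)) = F' (fun l => κ (outl l w)) → gw q z K w F κ = gw q z K w F' κ
  | [], κ, h => h
  | x :: w, κ, h => by
    have h1 : gw q z K w F (csw κ x.1) = gw q z K w F' (csw κ x.1) := ginv_dep q z K w _ h
    rw [gw, gw]
    funext p
    split_ifs
    · simp only [gop, h1]
    · simp only [gopi, h1]

/-- a pure word preserves the colouring -/
theorem gw_pure {m : ℕ} {w : List (ℕ × Bool)} (hw : PureWord m w) (q z : ℂ) (K : ℕ) {F F' : GV}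
    {κ : ℕ → Fin 4} (h : F κ = F' κ) : gw q z K w F κ = gw q z K w F' κ := by
  refine ginv_dep q z K w κ ?_
  have h1 : (fun l => κ (outl l w)) = κ := by
    funext l
    rw [hw.2 l]
  rw [h1, h]

private lemma ginv_outl_ge {m p : ℕ} (hp : m ≤ p) : ∀ {w : List (ℕ × Bool)}, Letters m w →
    outl p w = p
  | [], _ => rfl
  | x :: w, hw => by
    have h1 : x.1 + 1 < m := hw x (by simp)
    have h2 : Letters m w := fun y hy => hw y (by simp [hy])
    rw [outl, ginv_outl_ge hp h2]
    exact Equiv.swap_apply_of_ne_of_ne (by omega) (by omega)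

private lemma ginv_del {m : ℕ} (q z : ℂ) (K : ℕ) (F : GV) (p : ℕ) : ∀ (w : List (ℕ × Bool)),
    Letters m w → ∀ κ : ℕ → Fin 4, (m ≤ p ∨ κ (outl p w) = 0) →
    gw q z K w F κ (outl p w) = F (fun l => κ (outl l w)) p
  | [], _, κ, _ => rfl
  | x :: w, hw, κ, h => by
    have h1 : x.1 + 1 < m := hw x (by simp)
    have h2 : Letters m w := fun y hy => hw y (by simp [hy])
    have h3 : gw q z K w F (csw κ x.1) (outl p w) = F (fun l => csw κ x.1 (outl l w)) p :=
      ginv_del q z K F p w h2 (csw κ x.1) h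
    have h4 : gw q z K (x :: w) F κ (outl p (x :: w)) =
        gw q z K w F (csw κ x.1) (outl p w) := by
      have h5 : outl p (x :: w) = Equiv.swap x.1 (x.1 + 1) (outl p w) := rfl
      rw [h5] at h ⊢
      rw [gw]
      by_cases e1 : outl p w = x.1
      · rw [e1, Equiv.swap_apply_left] at h ⊢
        have h6 : κ (x.1 + 1) = 0 := by
          rcases h with h | h
          · exfalso
            rw [ginv_outl_ge h h2] at e1
            omega
          · exact h
        split_ifs
        · rw [ginv_right, if_pos (Or.inr h6)]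
        · rw [ginv_iright, if_pos (Or.inr h6)]
      · by_cases e2 : outl p w = x.1 + 1
        · rw [e2, Equiv.swap_apply_right] at h ⊢
          have h6 : κ x.1 = 0 := by
            rcases h with h | h
            · exfalso
              rw [ginv_outl_ge h h2] at e2
              omega
            · exact h
          split_ifs
          · rw [ginv_left, if_pos (Or.inl h6)]
          · rw [ginv_ileft, if_pos (Or.inl h6)]
        · rw [Equiv.swap_apply_of_ne_of_ne e1 e2]
          split_ifs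
          · rw [ginv_ne _ _ _ _ _ _ e1 e2]
          · rw [ginv_ine _ _ _ _ _ _ e1 e2]
    rw [h4, h3]
    rfl

/-- a pure word acts trivially on deleted strands -/
theorem gw_deleted {m : ℕ} {w : List (ℕ × Bool)} (hw : PureWord m w) (q z : ℂ) (K : ℕ) (F : GV)
    {κ : ℕ → Fin 4} {p : ℕ} (h : m ≤ p ∨ κ p = 0) : gw q z K w F κ p = F κ p := by
  have h1 := ginv_del q z K F p w hw.1 κ (by rw [hw.2 p]; exact h)
  rw [hw.2 p] at h1
  rw [h1]
  have h2 : (fun l => κ (outl l w)) = κ := by
    funext l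
    rw [hw.2 l]
  rw [h2]

end Pool.Agent.AMU
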