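import Pool.Agent.AMU0.Trk

open Matrix

namespace Pool.Agent.AMU

open Classical in
/-- the signs: the strand `n` is going to cross `r` before it leaves the region to the left of
the walls -/
noncomputable def sgn (p : ℕ → ℕ) (W : Finset ℕ) (t n r : ℕ) : Bool :=
  decide (∃ u, t ≤ u ∧ ev p u r n ∧ ∀ v, t ≤ v → v ≤ u → inP p W v n)

variable {m L : ℕ} {p : ℕ → ℕ} {R W : Finset ℕ}

theorem sgn_per (h : IsTrack m L p) (W : Finset ℕ) (t n r N : ℕ) :
    sgn p W (t + N * L) n r = sgn p W t n r := by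
  classical
  have hin : ∀ v, inP p W (v + N * L) n ↔ inP p W v n := fun v => by
    unfold inP
    constructor
    · intro h1 w hw
      have h2 := h1 w hw
      rwa [ps_mul h, ps_mul h] at h2
    · intro h1 w hw
      rw [ps_mul h, ps_mul h]
      exact h1 w hw
  unfold sgn
  rw [decide_eq_decide]
  constructor
  · rintro ⟨u, hu1, hu2, hu3⟩
    obtain ⟨u', rfl⟩ : ∃ u', u = u' + N * L := ⟨u - N * L, by omega⟩
    exact ⟨u', by omega, (ev_mul h _ _ _ _).1 hu2,
      fun v h1 h2 => (hin v).1 (hu3 (v + N * L) (by omega) (by omega))⟩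
  · rintro ⟨u, hu1, hu2, hu3⟩
    refine ⟨u + N * L, by omega, (ev_mul h _ _ _ _).2 hu2, fun v h1 h2 => ?_⟩
    obtain ⟨v', rfl⟩ : ∃ v', v = v' + N * L := ⟨v - N * L, by omega⟩
    exact (hin v').2 (hu3 v' (by omega) (by omega))

/-- the strands of the region to the right of a strand of `R` cross all strands of `R` and `W` -/
theorem rw_typeA (h : IsTrack m L p) (hRW : RW m p R W) {n t r : ℕ} (hn : n < m) (hnR : n ∉ R)
    (hin : inP p W t n) (hr : r ∈ R) (hlt : ps p t r < ps p t n) :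
    (∀ r ∈ R, Crs p n r) ∧ ∀ w ∈ W, Crs p n w := by
  have hnW : n ∉ W := fun hw => lt_irrefl _ (hin n hw)
  rcases hRW.oth n hn hnR hnW with h1 | h1 | h1
  · exact h1
  · have h2 := never_lt (h1 r hr).1 (h1 r hr).2 t
    omega
  · obtain ⟨w, hw⟩ := hRW.Wne
    have h2 := never_lt (fun hc => (h1 w hw).1 (crs_symm hc)) (h1 w hw).2 t
    have h3 := hin w hw
    omega

theorem hrw_left (h : IsTrack m L p) (hRW : RW m p R W) (t : ℕ) :
    ∀ r ∈ R, ∀ w ∈ W, ps p t r < ps p t w :=
  fun r hr w hw => never_lt (hRW.nev r hr w hw) (hRW.lt r hr w hw) t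

theorem hrw_rn {t x y : ℕ} (he : ev p t x y) (hy : inP p W t y) : sgn p W t y x = true := by
  classical
  unfold sgn
  rw [decide_eq_true_iff]
  refine ⟨t, le_rfl, he, fun v h1 h2 => ?_⟩
  have h3 : v = t := by omega
  rw [h3]
  exact hy

theorem hrw_lv {t x y r : ℕ} (he : ev p t x y) (hy : y ∈ W) : sgn p W t x r = false := by
  classical
  unfold sgn
  rw [decide_eq_false_iff_not]
  rintro ⟨u, hu1, hu2, hu3⟩
  rcases Nat.lt_or_ge t u with h1 | h1
  · have h2 := hu3 (t + 1) (by omega) (by omega) y hy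
    have h3 := ev_lt' he
    omega
  · have h3 : u = t := by omega
    rw [h3] at hu2
    exact absurd (ev_unique he hu2).2.symm (ev_ne he)

theorem hrw_keep {t n r : ℕ} (h1 : inP p W t n) (h2 : inP p W (t + 1) n)
    (h3 : ps p t r < ps p t n) (h4 : ps p (t + 1) r < ps p (t + 1) n) :
    sgn p W (t + 1) n r = sgn p W t n r := by
  classical
  have hne : ¬ ev p t r n := fun he => by
    have h5 := ev_lt' he
    omega
  unfold sgn
  rw [decide_eq_decide]
  constructor
  · rintro ⟨u, hu1, hu2, hu3⟩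
    refine ⟨u, by omega, hu2, fun v h5 h6 => ?_⟩
    rcases Nat.lt_or_ge t v with h7 | h7
    · exact hu3 v h7 h6
    · have h8 : v = t := by omega
      rw [h8]
      exact h1
  · rintro ⟨u, hu1, hu2, hu3⟩
    have h5 : t ≠ u := by
      rintro rfl
      exact hne hu2
    exact ⟨u, by omega, hu2, fun v h6 h7 => hu3 v (by omega) h7⟩

theorem hrw_enter1 (h : IsTrack m L p) (h1 : NoRR m p) {i j : ℕ}
    (hRW : RW m p {i} {j}) {t y : ℕ} (he : ev p t j y) : sgn p {j} (t + 1) y i = true := by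
  classical
  have hij : i < j := hRW.lt i (Finset.mem_singleton_self i) j (Finset.mem_singleton_self j)
  have hnc : ¬ Crs p i j :=
    hRW.nev i (Finset.mem_singleton_self i) j (Finset.mem_singleton_self j)
  have hjm : j < m := hRW.Wm j (Finset.mem_singleton_self j)
  have hym : y < m := (ev_ltm h he).2
  have hyj : y ≠ j := (ev_ne he).symm
  have hyi : y ≠ i := by
    rintro rfl
    exact hnc ⟨t, Or.inr he⟩
  have hc : Crs p y i := by
    rcases hRW.oth y hym (fun h2 => hyi (Finset.mem_singleton.1 h2))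
      (fun h2 => hyj (Finset.mem_singleton.1 h2)) with h2 | h2 | h2
    · exact h2.1 i (Finset.mem_singleton_self i)
    · obtain ⟨h3, h4⟩ := h2 i (Finset.mem_singleton_self i)
      have h5 := never_lt h3 h4 t
      have h6 := never_lt hnc hij t
      have h7 := ev_lt he
      omega
    · exact absurd ⟨t, Or.inr he⟩ (h2 j (Finset.mem_singleton_self j)).1
  obtain ⟨⟨v, hv1, -, hv2⟩, -⟩ := crs_both h (crs_symm hc) (t + 1)
  have hex : ∃ v, t + 1 ≤ v ∧ ev p v i y := ⟨v, hv1, hv2⟩
  obtain ⟨h2, h3⟩ := Nat.find_spec hex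
  unfold sgn
  rw [decide_eq_true_iff]
  refine ⟨Nat.find hex, h2, h3, fun v' h4 h5 w hw => ?_⟩
  rw [Finset.mem_singleton.1 hw]
  by_contra h6
  have h7 : ps p v' y ≠ ps p v' j := fun e => hyj (ps_inj e)
  obtain ⟨v'', h8, h9, h10⟩ := exists_ev h4 (ev_lt' he) (show ps p v' j < ps p v' y by omega)
  exact h1 i j y t v'' hij hjm hym hnc hc (by omega) he h10 fun u' h11 h12 h13 =>
    Nat.find_min hex (by omega) ⟨h11, h13⟩

end Pool.Agent.AMU
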