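import Pool.Agent.AMU0.HRW1

open Matrix

namespace Pool.Agent.AMU

variable {m L : ℕ} {p : ℕ → ℕ} {R W : Finset ℕ}

/-- a strand which stays in the region does not cross a wall -/
private lemma hrw2_stay {v x w : ℕ} (hw : w ∈ W) (hin : inP p W (v + 1) x) : ¬ ev p v x w := by
  intro he
  have h1 := ev_lt' he
  have h2 := hin w hw
  omega

/-- the last time before `t` with a given property -/
private lemma hrw2_last (P : ℕ → Prop) {t : ℕ} (h : ∃ a, a < t ∧ P a) :
    ∃ s, s < t ∧ P s ∧ ∀ v, s < v → v < t → ¬ P v := by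
  induction t with
  | zero =>
    obtain ⟨a, ha, -⟩ := h
    omega
  | succ t ih =>
    by_cases h1 : P t
    · exact ⟨t, by omega, h1, fun v h2 h3 => by omega⟩
    · obtain ⟨a, ha, ha'⟩ := h
      have hat : a ≠ t := by
        rintro rfl
        exact h1 ha'
      obtain ⟨s, hs, hs', hs''⟩ := ih ⟨a, by omega, ha'⟩
      refine ⟨s, by omega, hs', fun v h2 h3 => ?_⟩
      by_cases hv : v = t
      · rw [hv]
        exact h1
      · exact hs'' v h2 (by omega)

/-- the first exit of a strand -/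
private lemma hrw2_exit (h : IsTrack m L p) {t y w : ℕ} (hw : w ∈ W) (hc : Crs p y w)
    (hin : inP p W t y) : ∃ u w', t ≤ u ∧ w' ∈ W ∧ ev p u y w' ∧
      ∀ v, t ≤ v → v ≤ u → inP p W v y := by
  classical
  have hex : ∃ d, ¬ inP p W (t + d + 1) y := by
    obtain ⟨u, hu1, -, hu⟩ := (crs_both h hc t).1
    obtain ⟨d, rfl⟩ := Nat.exists_eq_add_of_le hu1
    exact ⟨d, fun h1 => hrw2_stay hw h1 hu⟩
  have h1 := Nat.find_spec hex
  have h2 : ∀ d, d < Nat.find hex → inP p W (t + d + 1) y := fun d hd => by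
    have := Nat.find_min hex hd
    exact not_not.1 this
  generalize Nat.find hex = d at h1 h2
  have h3 : ∀ v, t ≤ v → v ≤ t + d → inP p W v y := by
    intro v hv1 hv2
    rcases Nat.eq_or_lt_of_le hv1 with h4 | h4
    · rw [← h4]
      exact hin
    · obtain ⟨e, rfl⟩ := Nat.exists_eq_add_of_le h4
      have h5 := h2 e (by omega)
      rwa [show t + 1 + e = t + e + 1 by ring]
  have h4 := h3 (t + d) (by omega) le_rfl
  unfold inP at h1
  simp only [not_forall] at h1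
  obtain ⟨w', hw', hw''⟩ := h1
  refine ⟨t + d, w', by omega, hw', ?_, h3⟩
  rcases order_succ (h4 w' hw') with h5 | h5
  · omega
  · exact h5

theorem hrw_nr (h : IsTrack m L p) (hRW : RW m p R W) (h2 : NoLL m p) {t x y : ℕ}
    (he : ev p t x y) (hx : x ∉ R) (hy : y ∈ R) : sgn p W (t + 1) x y = false := by
  classical
  unfold sgn
  rw [decide_eq_false_iff_not]
  rintro ⟨u, hu1, hu, hin⟩
  obtain ⟨w, hw⟩ := hRW.Wne
  have hA := rw_typeA h hRW (ev_ltm h he).1 hx (hin (t + 1) le_rfl hu1) hy (ev_lt' he)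
  exact h2 y w x t u (hRW.lt y hy w hw) (hRW.Wm w hw) (ev_ltm h he).1 (hRW.nev y hy w hw)
    (hA.2 w hw) (by omega) he hu fun v hv1 hv2 => hrw2_stay hw (hin (v + 1) (by omega) (by omega))

theorem hrw_nn (h : IsTrack m L p) (hRW : RW m p R W) (h2 : NoLL m p) (h3 : NoBad m p)
    {t x y r : ℕ} (ht : L ≤ t) (he : ev p t x y) (hx : x ∉ R) (hy : y ∉ R) (hr : r ∈ R)
    (hx' : inP p W t x) (hy' : inP p W t y) (hlt : ps p t r < ps p t x) :
    ¬ (sgn p W t x r = true ∧ sgn p W t y r = false) := by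
  classical
  unfold sgn
  rw [decide_eq_true_iff, decide_eq_false_iff_not]
  rintro ⟨⟨u, hu1, hu, hin⟩, hn⟩
  have hxm := (ev_ltm h he).1
  have hym := (ev_ltm h he).2
  have hut : t < u := by
    rcases Nat.eq_or_lt_of_le hu1 with h4 | h4
    · rw [← h4] at hu
      obtain ⟨h5, -⟩ := ev_unique he hu
      rw [h5] at hx
      exact absurd hr hx
    · exact h4
  have hAx := rw_typeA h hRW hxm hx hx' hr hlt
  have hAy := rw_typeA h hRW hym hy hy' hr (hlt.trans (ev_lt he))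
  obtain ⟨w, hw⟩ := hRW.Wne
  obtain ⟨u', w2, hu'1, hw2, hu', hin'⟩ := hrw2_exit h hw (hAy.2 w hw) hy'
  have hu't : t < u' := by
    rcases Nat.eq_or_lt_of_le hu'1 with h4 | h4
    · rw [← h4] at hu'
      exact absurd (ev_unique he hu').1 (ev_ne he)
    · exact h4
  have hny : ∀ v, t < v → v < u' → ¬ ev p v r y := by
    intro v hv1 hv2 hv
    exact hn ⟨v, by omega, hv, fun v' h4 h5 => hin' v' h4 (by omega)⟩
  -- the last entry over `w2`
  obtain ⟨s, hs1, hs, hs'⟩ := hrw2_last (fun v => ev p v w2 x) (t := t) (by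
    obtain ⟨v, hv1, hv2, hv⟩ := (crs_both h (hAx.2 w2 hw2) (t - L)).2
    exact ⟨v, by omega, hv⟩)
  refine h3 r w2 x y s t u' (hRW.lt r hr w2 hw2) (hRW.Wm w2 hw2) hxm hym (hRW.nev r hr w2 hw2)
    (hAx.1 r hr) (hAy.1 r hr) hs1 hu't hs he hu' ?_ hny
  intro v hv1 hv2 hv
  obtain ⟨v', hv'1, hv'2, hv'⟩ := exists_ev (t := v + 1) (t' := t) (by omega) (ev_lt' hv) hlt
  refine h2 r w2 x v' u (hRW.lt r hr w2 hw2) (hRW.Wm w2 hw2) hxm (hRW.nev r hr w2 hw2)
    (hAx.2 w2 hw2) (by omega) hv' hu ?_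
  intro a ha1 ha2 ha
  rcases Nat.lt_or_ge a t with h4 | h4
  · obtain ⟨b, hb1, hb2, hb⟩ := exists_ev (t := a + 1) (t' := t) (by omega) (ev_lt' ha)
      (hx' w2 hw2)
    exact hs' b (by omega) hb2 hb
  · exact hrw2_stay hw2 (hin (a + 1) (by omega) (by omega)) ha

end Pool.Agent.AMU
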