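import Pool.Agent.AMU0.Half1

open Matrix

namespace Pool.Agent.AMU

section half2

variable {G : Type*} [Group G] {s : ℕ → G} {M : ℕ}

/-- `s_0 s_1 ⋯ s_{n-1}` -/
private def half2dd (s : ℕ → G) (n : ℕ) : G := ((List.range n).map s).prod

/-- `s_{n-1} ⋯ s_0` -/
private def half2DD (s : ℕ → G) (n : ℕ) : G := ((desc n).map s).prod

/-- the half twist -/
private def half2HH (s : ℕ → G) (n : ℕ) : G := ((hw n).map s).prod

/-- `s_n s_{n-1} ⋯ s_{n-k+1}` -/
private def half2RR (s : ℕ → G) (n k : ℕ) : G := ((List.range k).map fun j => s (n - j)).prod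

private lemma half2dd_succ (s : ℕ → G) (n : ℕ) : half2dd s (n + 1) = half2dd s n * s n := by
  simp [half2dd, List.range_succ]

private lemma half2DD_succ (s : ℕ → G) (n : ℕ) : half2DD s (n + 1) = s n * half2DD s n := by
  simp [half2DD, desc, List.range_succ]

private lemma half2HH_succ (s : ℕ → G) (n : ℕ) :
    half2HH s (n + 1) = half2HH s n * half2DD s n := by
  simp [half2HH, half2DD, hw]

private lemma half2RR_succ (s : ℕ → G) (n k : ℕ) :
    half2RR s n (k + 1) = half2RR s n k * s (n - k) := by
  simp [half2RR, List.range_succ]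

private lemma half2RR_succ' (s : ℕ → G) (n k : ℕ) :
    half2RR s n (k + 1) = s n * half2RR s (n - 1) k := by
  induction k with
  | zero => simp [half2RR]
  | succ k ih =>
    rw [half2RR_succ, ih, half2RR_succ, mul_assoc]
    have : n - (k + 1) = n - 1 - k := by omega
    rw [this]

private lemma half2_comm_dd (h : BrRel s M) {n k : ℕ} (hk : n + 1 ≤ k) (hkM : k + 1 < M) :
    s k * half2dd s n = half2dd s n * s k := by
  induction n with
  | zero => simp [half2dd]
  | succ n ih =>
    rw [half2dd_succ, ← mul_assoc, ih (by omega), mul_assoc, mul_assoc,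
      h.1 n k (by omega) hkM]

private lemma half2_comm_DD (h : BrRel s M) {n k : ℕ} (hk : n + 1 ≤ k) (hkM : k + 1 < M) :
    s k * half2DD s n = half2DD s n * s k := by
  induction n with
  | zero => simp [half2DD, desc]
  | succ n ih =>
    rw [half2DD_succ, ← mul_assoc, ← h.1 n k (by omega) hkM, mul_assoc, ih (by omega), mul_assoc]

private lemma half2_comm_HH (h : BrRel s M) {n k : ℕ} (hk : n ≤ k) (hkM : k + 1 < M) :
    s k * half2HH s n = half2HH s n * s k := by
  induction n with
  | zero => simp [half2HH, hw]
  | succ n ih =>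
    rw [half2HH_succ, ← mul_assoc, ih (by omega), mul_assoc, mul_assoc,
      half2_comm_DD h hk hkM]

/-- (a), first part -/
private lemma half2_dd_shift (h : BrRel s M) {n j : ℕ} (hn : n + 1 ≤ M) (hj : j + 2 ≤ n) :
    half2dd s n * s j = s (j + 1) * half2dd s n := by
  induction n with
  | zero => omega
  | succ n ih =>
    rcases Nat.lt_or_ge n (j + 2) with h2 | h2
    · obtain rfl : n = j + 1 := by omega
      rw [half2dd_succ, half2dd_succ]
      calc half2dd s j * s j * s (j + 1) * s j
          = half2dd s j * (s j * s (j + 1) * s j) := by group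
        _ = half2dd s j * (s (j + 1) * s j * s (j + 1)) := by rw [h.2 j (by omega)]
        _ = (half2dd s j * s (j + 1)) * (s j * s (j + 1)) := by group
        _ = (s (j + 1) * half2dd s j) * (s j * s (j + 1)) := by
            rw [half2_comm_dd h (n := j) (k := j + 1) le_rfl (by omega)]
        _ = s (j + 1) * (half2dd s j * s j * s (j + 1)) := by group
    · rw [half2dd_succ, mul_assoc, ← h.1 j n h2 (by omega), ← mul_assoc, ih (by omega) h2,
        mul_assoc]

/-- (a), second part -/
private lemma half2_DD_shift (h : BrRel s M) {n j : ℕ} (hn : n + 1 ≤ M) (hj : j + 2 ≤ n) :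
    half2DD s n * s (j + 1) = s j * half2DD s n := by
  induction n with
  | zero => omega
  | succ n ih =>
    rcases Nat.lt_or_ge n (j + 2) with h2 | h2
    · obtain rfl : n = j + 1 := by omega
      rw [half2DD_succ, half2DD_succ]
      calc s (j + 1) * (s j * half2DD s j) * s (j + 1)
          = s (j + 1) * s j * (half2DD s j * s (j + 1)) := by group
        _ = s (j + 1) * s j * (s (j + 1) * half2DD s j) := by
            rw [half2_comm_DD h (n := j) (k := j + 1) le_rfl (by omega)]
        _ = (s (j + 1) * s j * s (j + 1)) * half2DD s j := by group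
        _ = (s j * s (j + 1) * s j) * half2DD s j := by rw [h.2 j (by omega)]
        _ = s j * (s (j + 1) * (s j * half2DD s j)) := by group
    · rw [half2DD_succ, mul_assoc, ih (by omega) h2, ← mul_assoc, ← h.1 j n h2 (by omega),
        mul_assoc]

/-- (b) -/
private lemma half2_b (h : BrRel s M) {n : ℕ} (hn : n + 1 ≤ M) :
    half2dd s n * half2HH s n = half2HH s (n + 1) := by
  induction n with
  | zero => simp [half2dd, half2HH, hw, desc]
  | succ n ih =>
    calc half2dd s (n + 1) * half2HH s (n + 1)
        = half2dd s n * s n * (half2HH s n * half2DD s n) := by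
          rw [half2dd_succ, half2HH_succ]
      _ = half2dd s n * (s n * half2HH s n) * half2DD s n := by group
      _ = half2dd s n * (half2HH s n * s n) * half2DD s n := by
          rw [half2_comm_HH h (n := n) (k := n) le_rfl (by omega)]
      _ = half2dd s n * half2HH s n * (s n * half2DD s n) := by group
      _ = half2HH s (n + 1 + 1) := by
          rw [ih (by omega), ← half2DD_succ, ← half2HH_succ]

/-- (c) -/
private lemma half2_c (h : BrRel s M) : ∀ {m i : ℕ}, m ≤ M → i + 1 < m →
    half2HH s m * s i = s (m - 2 - i) * half2HH s m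
  | 0, i, _, hi => by omega
  | n + 1, 0, hm, hi => by
    rcases Nat.lt_or_ge n 2 with h2 | h2
    · obtain rfl : n = 1 := by omega
      simp [half2HH, hw, desc]
    · obtain ⟨k, rfl⟩ : ∃ k, n = k + 2 := ⟨n - 2, by omega⟩
      have e1 := half2_c h (m := k + 2) (i := 0) (by omega) (by omega)
      have e2 : k + 2 - 2 - 0 = k := by omega
      have e3 : k + 2 + 1 - 2 - 0 = k + 1 := by omega
      rw [e2] at e1
      rw [e3, ← half2_b h hm, mul_assoc, e1, ← mul_assoc, half2_dd_shift h hm (by omega),
        mul_assoc]
  | n + 1, i + 1, hm, hi => by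
    have e1 := half2_c h (m := n) (i := i) (by omega) (by omega)
    have e3 : n + 1 - 2 - (i + 1) = n - 2 - i := by omega
    rw [e3, half2HH_succ, mul_assoc, half2_DD_shift h hm (by omega), ← mul_assoc, e1, mul_assoc]

/-- the step of (d) -/
private lemma half2_rr (h : BrRel s M) {n k : ℕ} (hn : n + 2 ≤ M) (hk : k ≤ n) :
    half2RR s n k * half2dd s (n + 1) = half2dd s n * half2RR s n (k + 1) := by
  have key : ∀ j, j ≤ n → half2RR s n j * half2dd s (n + 1) =
      half2dd s (n + 1) * half2RR s (n - 1) j := by
    intro j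
    induction j with
    | zero => intro _; simp [half2RR]
    | succ j ih =>
      intro hj
      have e1 : n - j = (n - 1 - j) + 1 := by omega
      have e2 := half2_dd_shift h (n := n + 1) (j := n - 1 - j) (by omega) (by omega)
      rw [half2RR_succ, half2RR_succ, e1, mul_assoc, ← e2, ← mul_assoc, ih (by omega), mul_assoc]
  rw [key k hk, half2RR_succ', half2dd_succ, mul_assoc]

/-- the powers of `s_0 ⋯ s_n` -/
private lemma half2_pow (h : BrRel s M) {n k : ℕ} (hn : n + 2 ≤ M) (hk : k ≤ n + 1) :
    half2dd s (n + 1) ^ k = half2dd s n ^ k * half2RR s n k := by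
  induction k with
  | zero => simp [half2RR]
  | succ k ih =>
    rw [pow_succ, ih (by omega), mul_assoc, half2_rr h hn (by omega), ← mul_assoc, ← pow_succ]

private lemma half2_rr_full (s : ℕ → G) (n : ℕ) : half2RR s n (n + 1) = half2DD s (n + 1) := by
  induction n with
  | zero => simp [half2RR, half2DD, desc]
  | succ n ih =>
    rw [half2RR_succ', half2DD_succ s (n + 1), ← ih]
    simp

/-- (d) -/
private lemma half2_sq (h : BrRel s M) : ∀ {m : ℕ}, m ≤ M →
    half2HH s m * half2HH s m = half2dd s (m - 1) ^ m
  | 0, _ => by simp [half2HH, hw]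
  | 1, _ => by simp [half2HH, hw, desc, half2dd]
  | n + 2, hm => by
    have ih := half2_sq h (m := n + 1) (by omega)
    have e1 : n + 1 - 1 = n := by omega
    have e2 : n + 2 - 1 = n + 1 := by omega
    rw [e1] at ih
    rw [e2]
    calc half2HH s (n + 2) * half2HH s (n + 2)
        = (half2dd s (n + 1) * half2HH s (n + 1)) * (half2HH s (n + 1) * half2DD s (n + 1)) := by
          rw [half2_b h (n := n + 1) (by omega), half2HH_succ s (n + 1)]
      _ = half2dd s (n + 1) * (half2HH s (n + 1) * half2HH s (n + 1)) * half2DD s (n + 1) := by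
          group
      _ = half2dd s (n + 1) * (half2dd s n ^ (n + 1) * half2RR s n (n + 1)) := by
          rw [ih, half2_rr_full, mul_assoc]
      _ = half2dd s (n + 1) ^ (n + 2) := by
          rw [← half2_pow h (by omega) le_rfl, ← pow_succ']

end half2

theorem hw_conj {m i : ℕ} (hi : i + 1 < m) :
    pw m (hw m) * sg m i = sg m (m - 2 - i) * pw m (hw m) :=
  half2_c (sg_brRel m) le_rfl hi

theorem hw_sq (m : ℕ) : pw m (hw m) * pw m (hw m) = tw (sg m) 0 m := by
  have h := half2_sq (sg_brRel m) (le_refl m)
  have e : half2dd (sg m) (m - 1) = ((List.range (m - 1)).map fun j => sg m (0 + j)).prod := by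
    unfold half2dd
    congr 2
    funext j
    rw [zero_add]
  rw [e] at h
  exact h

theorem tw_comm {m : ℕ} (f : BraidGroup m) : Commute (tw (sg m) 0 m) f := by
  have hgen : ∀ i, i + 1 < m → Commute (tw (sg m) 0 m) (sg m i) := by
    intro i hi
    have e1 := hw_conj hi
    have e2 := hw_conj (m := m) (i := m - 2 - i) (by omega)
    have e3 : m - 2 - (m - 2 - i) = i := by omega
    rw [e3] at e2
    unfold Commute SemiconjBy
    rw [← hw_sq, mul_assoc, e1, ← mul_assoc, e2, mul_assoc]
  obtain ⟨w, hw', rfl⟩ := exists_braid m f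
  induction w with
  | nil => rw [braid_nil]; exact Commute.one_right _
  | cons x w ih =>
    rw [braid_cons]
    refine Commute.mul_right ?_ (ih fun y hy => hw' y (by simp [hy]))
    have hx : x.1 + 1 < m := hw' x (by simp)
    split_ifs
    · exact hgen _ hx
    · exact (hgen _ hx).inv_right

end Pool.Agent.AMU
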