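import Pool.Agent.AMU0.Kprime
import Pool.Agent.AMU0.Lhw
import Pool.Agent.AMU0.Half3

open Matrix Polynomial

namespace Pool.Agent.AMU

private theorem iter_not_dvd (k : ℕ) : ¬ (X : ℤ[X][X]) ∣ (C (X : ℤ[X])) ^ k := by
  rw [Polynomial.X_dvd_iff, ← C_pow, coeff_C_zero]
  exact pow_ne_zero _ X_ne_zero

/-- a positive word whose Krammer matrix is divisible by `t ^ n` is divisible by `Δ ^ n` -/
theorem iter {m : ℕ} (n : ℕ) {Y : List ℕ} (hY : Lt m Y)
    (h : ∀ x y, (X : ℤ[X][X]) ^ n ∣ lpm m (C X) X Y x y) :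
    ∃ Y', Lt m Y' ∧ pw m Y = pw m (hw m) ^ n * pw m Y' := by
  induction n generalizing Y with
  | zero => exact ⟨Y, hY, by simp⟩
  | succ n ih =>
    have h1 : ∀ x y, (X : ℤ[X][X]) ∣ lpm m (C (X : ℤ[X])) (X : ℤ[X][X]) Y x y := fun x y =>
      (dvd_pow_self _ (Nat.succ_ne_zero n)).trans (h x y)
    obtain ⟨Y1, hY1, e1⟩ := kprime (hw_lt m) hY (hw_red m)
      (fun i j hij hl => zr_of_dvd hY h1 hij (hw_linvr hij hl))
    have hL : Lt m (hw m ++ Y1) := by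
      intro z hz
      rcases List.mem_append.1 hz with hz | hz
      · exact hw_lt m z hz
      · exact hY1 z hz
    have e2 : lpm m (C (X : ℤ[X])) (X : ℤ[X][X]) Y = lpm m (C (X : ℤ[X])) (X : ℤ[X][X]) (hw m) *
        lpm m (C (X : ℤ[X])) (X : ℤ[X][X]) Y1 := by
      rw [← lpm_append]
      apply lpm_pw _ _ hY hL
      rw [e1]
      simp [pw]
    have key : ∀ x y, (X : ℤ[X][X]) ^ n ∣ lpm m (C (X : ℤ[X])) (X : ℤ[X][X]) Y1 x y := by
      intro x y
      obtain ⟨⟨i, j⟩, hij⟩ := x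
      have hij' : (i : ℕ) < j := hij
      have hi := i.2
      have hj := j.2
      have h3 := h ⟨(⟨m - 1 - j, by omega⟩, ⟨m - 1 - i, by omega⟩), by
        show (⟨m - 1 - j, _⟩ : Fin m) < ⟨m - 1 - i, _⟩
        rw [Fin.mk_lt_mk]; omega⟩ y
      rw [e2] at h3
      have h4 := congrFun (lhw m (C (X : ℤ[X])) (X : ℤ[X][X])
        (fun z => lpm m (C (X : ℤ[X])) (X : ℤ[X][X]) Y1 z y)) ⟨(⟨m - 1 - j, by omega⟩, ⟨m - 1 - i, by omega⟩), by
        show (⟨m - 1 - j, _⟩ : Fin m) < ⟨m - 1 - i, _⟩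
        rw [Fin.mk_lt_mk]; omega⟩
      rw [Matrix.mul_apply] at h3
      simp only [Matrix.mulVec, dotProduct] at h4
      rw [h4] at h3
      have e3 : m - 1 - (m - 1 - (i : ℕ)) = i := by omega
      have e4 : m - 1 - (m - 1 - (j : ℕ)) = j := by omega
      rw [e3, e4] at h3
      unfold gt at h3
      rw [dif_pos ⟨hij', hj⟩] at h3
      rw [pow_succ', mul_assoc] at h3
      have h5 := (mul_dvd_mul_iff_left (X_ne_zero (R := ℤ[X]))).1 h3
      exact Prime.pow_dvd_of_dvd_mul_left prime_X n (iter_not_dvd _) h5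
    obtain ⟨Y', hY', e5⟩ := ih hY1 key
    refine ⟨Y', hY', ?_⟩
    rw [e1, e5, pow_succ', mul_assoc]

end Pool.Agent.AMU
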