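import Pool.Agent.AMU0.Base

open Matrix

namespace Pool.Agent.AMU

lemma red_inv (x : ℕ) (X : List ℕ) (y : ℕ) :
    (pm (x :: X))⁻¹ y = (pm X)⁻¹ (Equiv.swap x (x + 1) y) := by
  rw [pm_cons, _root_.mul_inv_rev, Equiv.swap_inv, Equiv.Perm.mul_apply]

lemma red_sl (x : ℕ) : Equiv.swap x (x + 1) x = x + 1 := Equiv.swap_apply_left _ _

lemma red_sr (x : ℕ) : Equiv.swap x (x + 1) (x + 1) = x := Equiv.swap_apply_right _ _

lemma red_sn {x y : ℕ} (h1 : y ≠ x) (h2 : y ≠ x + 1) : Equiv.swap x (x + 1) y = y :=
  Equiv.swap_apply_of_ne_of_ne h1 h2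

/-- a reduced word with the left inversion `(k, k + 1)` can be rewritten to start with `σ_k` -/
theorem red_split {m : ℕ} {u : List ℕ} (hu : Lt m u) (hr : Red u) {k : ℕ} (hk : k + 1 < m)
    (h : linvr u k (k + 1)) : ∃ u', Lt m u' ∧ Red (k :: u') ∧ pm (k :: u') = pm u ∧
      pw m (k :: u') = pw m u ∧ u'.length + 1 = u.length := by
  obtain ⟨n, hn⟩ : ∃ n, u.length = n := ⟨_, rfl⟩
  induction n using Nat.strong_induction_on generalizing u k with
  | _ n ih =>
  cases u with
  | nil =>
    exfalso
    unfold linvr pm at h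
    simp at h
  | cons a v =>
    obtain ⟨hr1, hr2⟩ := hr
    obtain ⟨ha, hv⟩ := lt_cons.1 hu
    have hvn : v.length < n := by
      rw [← hn, List.length_cons]
      omega
    unfold linvr at h
    rw [red_inv, red_inv] at h
    rcases Nat.lt_trichotomy a k with hak | hak | hak
    · by_cases hak1 : k = a + 1
      · subst hak1
        rw [red_sr, red_sn (by omega) (by omega)] at h
        obtain ⟨v', v1, ⟨v2, v3⟩, v4, v5, v6⟩ := ih v.length hvn hv hr1 (k := a + 1) hk
          (by unfold linvr; omega) rfl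
        have e1 : (pm v')⁻¹ (a + 1) = (pm v)⁻¹ (a + 1 + 1) := by rw [← v4, red_inv, red_sr]
        have e2 : (pm v')⁻¹ (a + 1 + 1) = (pm v)⁻¹ (a + 1) := by rw [← v4, red_inv, red_sl]
        have e3 : (pm v')⁻¹ a = (pm v)⁻¹ a := by
          rw [← v4, red_inv, red_sn (by omega) (by omega)]
        obtain ⟨w, w1, ⟨w2, w3⟩, w4, w5, w6⟩ := ih v'.length (by omega) v1 v2 (k := a) ha
          (by unfold linvr; omega) rfl
        have f1 : (pm w)⁻¹ a = (pm v')⁻¹ (a + 1) := by rw [← w4, red_inv, red_sr]
        have f2 : (pm w)⁻¹ (a + 1) = (pm v')⁻¹ a := by rw [← w4, red_inv, red_sl]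
        have f3 : (pm w)⁻¹ (a + 1 + 1) = (pm v')⁻¹ (a + 1 + 1) := by
          rw [← w4, red_inv, red_sn (by omega) (by omega)]
        refine ⟨a :: (a + 1) :: w, lt_cons.2 ⟨ha, lt_cons.2 ⟨hk, w1⟩⟩, ⟨⟨⟨w2, ?_⟩, ?_⟩, ?_⟩,
          ?_, ?_, ?_⟩
        · omega
        · rw [red_inv, red_inv, red_sl, red_sn (by omega) (by omega)]
          omega
        · rw [red_inv, red_inv, red_inv, red_inv, red_sr, red_sn (x := a + 1) (y := a) (by omega)
            (by omega), red_sn (x := a) (y := a + 1 + 1) (by omega) (by omega), red_sr]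
          omega
        · rw [pm_cons a v, ← v4, pm_cons (a + 1) v', ← w4, pm_cons a w, pm_cons, pm_cons, pm_cons]
          have := (swap_brRel m).2 a (by omega)
          simp only at this
          rw [← mul_assoc, ← mul_assoc, ← this, mul_assoc, mul_assoc]
        · rw [pw_cons m a v, ← v5, pw_cons m (a + 1) v', ← w5, pw_cons m a w, pw_cons, pw_cons,
            pw_cons]
          have := sg_near (m := m) (i := a) (by omega)
          rw [← mul_assoc, ← mul_assoc, ← this, mul_assoc, mul_assoc]
        · simp only [List.length_cons]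
          omega
      · have hf : a + 2 ≤ k := by omega
        rw [red_sn (x := a) (y := k + 1) (by omega) (by omega), red_sn (x := a) (y := k) (by omega)
          (by omega)] at h
        obtain ⟨v', v1, ⟨v2, v3⟩, v4, v5, v6⟩ := ih v.length hvn hv hr1 (k := k) hk h rfl
        have e1 : (pm v')⁻¹ a = (pm v)⁻¹ a := by
          rw [← v4, red_inv, red_sn (by omega) (by omega)]
        have e2 : (pm v')⁻¹ (a + 1) = (pm v)⁻¹ (a + 1) := by
          rw [← v4, red_inv, red_sn (by omega) (by omega)]
        refine ⟨a :: v', lt_cons.2 ⟨ha, v1⟩, ⟨⟨v2, ?_⟩, ?_⟩, ?_, ?_, ?_⟩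
        · rw [e1, e2]
          exact hr2
        · rw [red_inv, red_inv, red_sn (x := a) (y := k + 1) (by omega) (by omega),
            red_sn (x := a) (y := k) (by omega) (by omega)]
          exact v3
        · rw [pm_cons a v, ← v4, pm_cons k v', pm_cons, pm_cons]
          have := (swap_brRel m).1 a k hf hk
          simp only at this
          rw [← mul_assoc, ← mul_assoc, this]
        · rw [pw_cons m a v, ← v5, pw_cons m k v', pw_cons, pw_cons, ← mul_assoc, ← mul_assoc,
            sg_far hf]
        · simp only [List.length_cons]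
          omega
    · subst hak
      exact ⟨v, hv, ⟨hr1, hr2⟩, rfl, rfl, rfl⟩
    · by_cases hak1 : a = k + 1
      · subst hak1
        rw [red_sl, red_sn (by omega) (by omega)] at h
        obtain ⟨v', v1, ⟨v2, v3⟩, v4, v5, v6⟩ := ih v.length hvn hv hr1 (k := k) hk
          (by unfold linvr; omega) rfl
        have e1 : (pm v')⁻¹ k = (pm v)⁻¹ (k + 1) := by rw [← v4, red_inv, red_sr]
        have e2 : (pm v')⁻¹ (k + 1) = (pm v)⁻¹ k := by rw [← v4, red_inv, red_sl]
        have e3 : (pm v')⁻¹ (k + 1 + 1) = (pm v)⁻¹ (k + 1 + 1) := by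
          rw [← v4, red_inv, red_sn (by omega) (by omega)]
        obtain ⟨w, w1, ⟨w2, w3⟩, w4, w5, w6⟩ := ih v'.length (by omega) v1 v2 (k := k + 1) ha
          (by unfold linvr; omega) rfl
        have f1 : (pm w)⁻¹ k = (pm v')⁻¹ k := by
          rw [← w4, red_inv, red_sn (by omega) (by omega)]
        have f2 : (pm w)⁻¹ (k + 1) = (pm v')⁻¹ (k + 1 + 1) := by rw [← w4, red_inv, red_sr]
        have f3 : (pm w)⁻¹ (k + 1 + 1) = (pm v')⁻¹ (k + 1) := by rw [← w4, red_inv, red_sl]
        refine ⟨(k + 1) :: k :: w, lt_cons.2 ⟨ha, lt_cons.2 ⟨hk, w1⟩⟩, ⟨⟨⟨w2, ?_⟩, ?_⟩, ?_⟩,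
          ?_, ?_, ?_⟩
        · omega
        · rw [red_inv, red_inv, red_sr, red_sn (by omega) (by omega)]
          omega
        · rw [red_inv, red_inv, red_inv, red_inv, red_sl, red_sn (x := k + 1) (y := k) (by omega)
            (by omega), red_sn (x := k) (y := k + 1 + 1) (by omega) (by omega), red_sl]
          omega
        · rw [pm_cons (k + 1) v, ← v4, pm_cons k v', ← w4, pm_cons (k + 1) w, pm_cons, pm_cons,
            pm_cons]
          have := (swap_brRel m).2 k (by omega)
          simp only at this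
          rw [← mul_assoc, ← mul_assoc, this, mul_assoc, mul_assoc]
        · rw [pw_cons m (k + 1) v, ← v5, pw_cons m k v', ← w5, pw_cons m (k + 1) w, pw_cons,
            pw_cons, pw_cons]
          have := sg_near (m := m) (i := k) (by omega)
          rw [← mul_assoc, ← mul_assoc, this, mul_assoc, mul_assoc]
        · simp only [List.length_cons]
          omega
      · have hf : k + 2 ≤ a := by omega
        rw [red_sn (x := a) (y := k + 1) (by omega) (by omega), red_sn (x := a) (y := k) (by omega)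
          (by omega)] at h
        obtain ⟨v', v1, ⟨v2, v3⟩, v4, v5, v6⟩ := ih v.length hvn hv hr1 (k := k) hk h rfl
        have e1 : (pm v')⁻¹ a = (pm v)⁻¹ a := by
          rw [← v4, red_inv, red_sn (by omega) (by omega)]
        have e2 : (pm v')⁻¹ (a + 1) = (pm v)⁻¹ (a + 1) := by
          rw [← v4, red_inv, red_sn (by omega) (by omega)]
        refine ⟨a :: v', lt_cons.2 ⟨ha, v1⟩, ⟨⟨v2, ?_⟩, ?_⟩, ?_, ?_, ?_⟩
        · rw [e1, e2]
          exact hr2
        · rw [red_inv, red_inv, red_sn (x := a) (y := k + 1) (by omega) (by omega),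
            red_sn (x := a) (y := k) (by omega) (by omega)]
          exact v3
        · rw [pm_cons a v, ← v4, pm_cons k v', pm_cons, pm_cons]
          have := (swap_brRel m).1 k a hf ha
          simp only at this
          rw [← mul_assoc, ← mul_assoc, this]
        · rw [pw_cons m a v, ← v5, pw_cons m k v', pw_cons, pw_cons, ← mul_assoc, ← mul_assoc,
            sg_far hf]
        · simp only [List.length_cons]
          omega

/-- appending a letter to a reduced word -/
theorem red_append {u : List ℕ} (hr : Red u) {l : ℕ} (h : pm u l < pm u (l + 1)) :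
    Red (u ++ [l]) := by
  induction u with
  | nil =>
    refine ⟨trivial, ?_⟩
    simp [pm]
  | cons a v ih =>
    obtain ⟨hr1, hr2⟩ := hr
    rw [pm_cons, Equiv.Perm.mul_apply, Equiv.Perm.mul_apply] at h
    have hne : pm v l ≠ pm v (l + 1) := fun h => by
      have := (pm v).injective h
      omega
    have h1 : pm v l < pm v (l + 1) := by
      by_contra hcon
      have h2 : pm v (l + 1) < pm v l := by omega
      have h3 : pm v l = a + 1 ∧ pm v (l + 1) = a := by
        rw [Equiv.swap_apply_def, Equiv.swap_apply_def] at h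
        split_ifs at h <;> omega
      have h4 : (pm v)⁻¹ (a + 1) = l := by
        rw [← h3.1]
        exact Equiv.symm_apply_apply (pm v) l
      have h5 : (pm v)⁻¹ a = l + 1 := by
        rw [← h3.2]
        exact Equiv.symm_apply_apply (pm v) (l + 1)
      omega
    refine ⟨ih hr1 h1, ?_⟩
    have h6 : ∀ y, (pm (v ++ [l]))⁻¹ y = Equiv.swap l (l + 1) ((pm v)⁻¹ y) := by
      intro y
      rw [pm_append, _root_.mul_inv_rev, Equiv.Perm.mul_apply]
      simp [pm]
    show (pm (v ++ [l]))⁻¹ a < (pm (v ++ [l]))⁻¹ (a + 1)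
    rw [h6, h6]
    by_contra hcon
    have h7 : (pm v)⁻¹ a = l ∧ (pm v)⁻¹ (a + 1) = l + 1 := by
      rw [Equiv.swap_apply_def, Equiv.swap_apply_def] at hcon
      split_ifs at hcon <;> omega
    have h8 : pm v l = a := by
      rw [← h7.1]
      exact Equiv.apply_symm_apply (pm v) a
    have h9 : pm v (l + 1) = a + 1 := by
      rw [← h7.2]
      exact Equiv.apply_symm_apply (pm v) (a + 1)
    rw [h8, h9, red_sl, red_sr] at h
    omega

end Pool.Agent.AMU
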