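import Pool.Agent.AMU0.Zrow
import Pool.Agent.AMU0.Red

open Matrix

namespace Pool.Agent.AMU

theorem zr_trans {y : List ℕ} {i j k : ℕ} (hij : i < j) (hjk : j < k) (h1 : zr y i j)
    (h2 : zr y j k) : zr y i k := by
  induction y generalizing i j k with
  | nil => exact h1.elim
  | cons a y ih =>
    simp only [zr] at h1 h2 ⊢
    grind

private lemma kprime_ai (e : Equiv.Perm ℕ) (x : ℕ) : e (e⁻¹ x) = x := Equiv.apply_symm_apply e x

private lemma kprime_ia (e : Equiv.Perm ℕ) (x : ℕ) : e⁻¹ (e x) = x := Equiv.symm_apply_apply e x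

private lemma kprime_swap (k x : ℕ) : Equiv.swap k (k + 1) x =
    if x = k then k + 1 else if x = k + 1 then k else x := by
  rw [Equiv.swap_apply_def]

private lemma kprime_inv_cons (k x : ℕ) (u : List ℕ) :
    (pm (k :: u))⁻¹ x = (pm u)⁻¹ (Equiv.swap k (k + 1) x) := by
  rw [pm_cons, _root_.mul_inv_rev, Equiv.Perm.mul_apply, Equiv.swap_inv]

private lemma kprime_inv_snoc (l x : ℕ) (u : List ℕ) :
    (pm (u ++ [l]))⁻¹ x = Equiv.swap l (l + 1) ((pm u)⁻¹ x) := by
  rw [pm_append, _root_.mul_inv_rev, Equiv.Perm.mul_apply, pm_cons]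
  simp [pm]

private lemma kprime_lt {m : ℕ} {X : List ℕ} (hX : Lt m X) {x : ℕ} (hx : x < m) :
    (pm X)⁻¹ x < m := by
  by_contra hc
  push Not at hc
  have h1 := pm_ge hX hc
  rw [kprime_ai] at h1
  omega

private lemma kprime_lt' {m : ℕ} {X : List ℕ} (hX : Lt m X) {x : ℕ} (hx : x < m) :
    pm X x < m := by
  by_contra hc
  push Not at hc
  have h1 := pm_ge hX hc
  have h2 := (pm X).injective h1
  omega

/-- the statement of `kprime` for one word `y` -/
private def KP (m : ℕ) (y : List ℕ) : Prop := ∀ u, Lt m u → Red u →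
  (∀ i j, i < j → linvr u i j → zr y i j) → ∃ y', Lt m y' ∧ pw m y = pw m u * pw m y'

private lemma kprime_case1 {m k : ℕ} {y : List ℕ} (ih : KP m y) (hk : k + 1 < m) {u : List ℕ}
    (hu : Lt m u) (hr : Red u) (h : ∀ i j, i < j → linvr u i j → zr (k :: y) i j)
    (hl : linvr u k (k + 1)) : ∃ y', Lt m y' ∧ pw m (k :: y) = pw m u * pw m y' := by
  obtain ⟨v, hv, hrv, hp, hw, -⟩ := red_split hu hr hk hl
  obtain ⟨y', hy', he⟩ := ih v hv hrv.1 (fun i j hij hlin => by
    have h1 : ∀ x, (pm u)⁻¹ x = (pm v)⁻¹ (Equiv.swap k (k + 1) x) := fun x => by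
      rw [← hp, kprime_inv_cons]
    have hne : ¬ (i = k ∧ j = k + 1) := by
      rintro ⟨rfl, rfl⟩
      have h2 := hrv.2
      unfold linvr at hlin
      omega
    have hlt : Equiv.swap k (k + 1) i < Equiv.swap k (k + 1) j := by
      rw [kprime_swap, kprime_swap]
      split_ifs <;> omega
    have h3 := h _ _ hlt (by
      unfold linvr
      rw [h1, h1, Equiv.swap_apply_self, Equiv.swap_apply_self]
      exact hlin)
    rw [kprime_swap, kprime_swap] at h3
    simp only [zr] at h3
    grind)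
  refine ⟨y', hy', ?_⟩
  rw [pw_cons, he, ← hw, pw_cons, mul_assoc]

private lemma kprime_step {p : ℕ → Prop} [DecidablePred p] {a b : ℕ} (hab : a < b) (ha : p a)
    (hb : ¬ p b) : ∃ l, a ≤ l ∧ l < b ∧ p l ∧ ¬ p (l + 1) := by
  induction b, hab using Nat.le_induction with
  | base => exact ⟨a, le_refl _, Nat.lt_succ_self _, ha, hb⟩
  | succ b hb' ih =>
    by_cases h : p b
    · exact ⟨b, by omega, by omega, h, hb⟩
    · obtain ⟨l, h1, h2, h3⟩ := ih h
      exact ⟨l, h1, by omega, h3⟩

open Classical in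
/-- the number of pairs which are not inverted -/
private noncomputable def kpn (m : ℕ) (u : List ℕ) : ℕ :=
  ((Finset.range m ×ˢ Finset.range m).filter fun x => x.1 < x.2 ∧ ¬ linvr u x.1 x.2).card

private lemma kprime_cons {m k : ℕ} {y : List ℕ} (ih : KP m y) (hk : k + 1 < m) :
    KP m (k :: y) := by
  intro u hu hr h
  induction hn : kpn m u using Nat.strong_induction_on generalizing u with
  | _ n IH =>
  by_cases hl : linvr u k (k + 1)
  · exact kprime_case1 ih hk hu hr h hl
  have hz : zr (k :: y) k (k + 1) := by simp [zr]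
  have h0 : (pm u)⁻¹ k < (pm u)⁻¹ (k + 1) := by
    unfold linvr at hl
    have h1 : (pm u)⁻¹ k ≠ (pm u)⁻¹ (k + 1) := fun hc => by
      have := (pm u)⁻¹.injective hc
      omega
    omega
  obtain ⟨l, hl1, hl2, hl3, hl4⟩ := kprime_step (p := fun x => pm u x ≤ k) h0
    (by show pm u ((pm u)⁻¹ k) ≤ k; rw [kprime_ai])
    (by show ¬ pm u ((pm u)⁻¹ (k + 1)) ≤ k; rw [kprime_ai]; omega)
  simp only [not_le] at hl4
  have ha : (pm u)⁻¹ (pm u l) = l := kprime_ia _ _
  have hb : (pm u)⁻¹ (pm u (l + 1)) = l + 1 := kprime_ia _ _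
  have hzab : zr (k :: y) (pm u l) (pm u (l + 1)) := by
    have hz1 : zr (k :: y) (pm u l) (k + 1) := by
      rcases Nat.eq_or_lt_of_le hl3 with h1 | h1
      · rw [h1]; exact hz
      · refine zr_trans h1 (Nat.lt_succ_self k) (h _ _ h1 ?_) hz
        unfold linvr
        rw [ha]
        have h2 : (pm u)⁻¹ k ≠ l := fun hc => by
          rw [← hc, kprime_ai] at h1
          omega
        omega
    rcases Nat.eq_or_lt_of_le (Nat.succ_le_of_lt hl4) with h1 | h1
    · rw [← h1]; exact hz1
    · refine zr_trans (by omega) h1 hz1 (h _ _ h1 ?_)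
      unfold linvr
      rw [hb]
      have h2 : (pm u)⁻¹ (k + 1) ≠ l + 1 := fun hc => by
        rw [← hc, kprime_ai] at h1
        omega
      show l + 1 < (pm u)⁻¹ (k + 1)
      omega
  have hlm : l + 1 < m := by
    have := kprime_lt hu hk
    omega
  have hbm : pm u (l + 1) < m := kprime_lt' hu hlm
  have hab : pm u l < pm u (l + 1) := by omega
  have hu' : Lt m (u ++ [l]) := lt_append.2 ⟨hu, by rw [lt_cons]; exact ⟨hlm, lt_nil m⟩⟩
  have hinv : ∀ x, (pm (u ++ [l]))⁻¹ x = if (pm u)⁻¹ x = l then l + 1 else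
      if (pm u)⁻¹ x = l + 1 then l else (pm u)⁻¹ x := fun x => by
    rw [kprime_inv_snoc, kprime_swap]
  have heq : ∀ x, (pm u)⁻¹ x = l → x = pm u l := fun x hx => by
    rw [← hx, kprime_ai]
  have heq' : ∀ x, (pm u)⁻¹ x = l + 1 → x = pm u (l + 1) := fun x hx => by
    rw [← hx, kprime_ai]
  have hmono : ∀ i j, i < j → linvr u i j → linvr (u ++ [l]) i j := by
    intro i j hij hlin
    unfold linvr at hlin ⊢
    rw [hinv, hinv]
    by_cases c1 : (pm u)⁻¹ j = l
    · by_cases c2 : (pm u)⁻¹ i = l + 1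
      · have := heq _ c1
        have := heq' _ c2
        omega
      · split_ifs <;> omega
    · split_ifs <;> omega
  have hback : ∀ i j, i < j → linvr (u ++ [l]) i j → linvr u i j ∨
      (i = pm u l ∧ j = pm u (l + 1)) := by
    intro i j hij hlin
    by_contra hc
    push Not at hc
    obtain ⟨hc1, hc2⟩ := hc
    unfold linvr at hlin hc1
    rw [hinv, hinv] at hlin
    have hne : (pm u)⁻¹ i ≠ (pm u)⁻¹ j := fun hc => by
      have := (pm u)⁻¹.injective hc
      omega
    by_cases c1 : (pm u)⁻¹ i = l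
    · by_cases c2 : (pm u)⁻¹ j = l + 1
      · exact hc2 (heq _ c1) (heq' _ c2)
      · split_ifs at hlin <;> omega
    · split_ifs at hlin <;> omega
  have hnab : ¬ linvr u (pm u l) (pm u (l + 1)) := by
    unfold linvr
    rw [ha, hb]
    omega
  have hab' : linvr (u ++ [l]) (pm u l) (pm u (l + 1)) := by
    unfold linvr
    rw [hinv, hinv, ha, hb]
    simp
  have hlt : kpn m (u ++ [l]) < n := by
    rw [← hn]
    unfold kpn
    refine Finset.card_lt_card ?_
    rw [Finset.ssubset_iff_of_subset]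
    · refine ⟨(pm u l, pm u (l + 1)), ?_, ?_⟩
      · simp only [Finset.mem_filter, Finset.mem_product, Finset.mem_range]
        exact ⟨⟨by omega, hbm⟩, hab, hnab⟩
      · simp only [Finset.mem_filter, Finset.mem_product, Finset.mem_range]
        exact fun hc => hc.2.2 hab'
    · intro x hx
      simp only [Finset.mem_filter, Finset.mem_product, Finset.mem_range] at hx ⊢
      exact ⟨hx.1, hx.2.1, fun hc => hx.2.2 (hmono _ _ hx.2.1 hc)⟩
  obtain ⟨y', hy', he⟩ := IH _ hlt (u ++ [l]) hu' (red_append hr hab) (fun i j hij hlin => by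
    rcases hback i j hij hlin with h1 | ⟨h1, h2⟩
    · exact h i j hij h1
    · rw [h1, h2]; exact hzab) rfl
  refine ⟨l :: y', lt_cons.2 ⟨hlm, hy'⟩, ?_⟩
  rw [he, pw_append, pw_cons, pw_cons, pw_nil, mul_one, mul_assoc]

/-- the Boolean description of the simple left divisors -/
theorem kprime {m : ℕ} {u y : List ℕ} (hu : Lt m u) (hy : Lt m y) (hr : Red u)
    (h : ∀ i j, i < j → linvr u i j → zr y i j) : ∃ y', Lt m y' ∧ pw m y = pw m u * pw m y' := by
  have key : ∀ y, Lt m y → KP m y := by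
    intro y
    induction y with
    | nil =>
      intro _ u hu hr h
      cases u with
      | nil => exact ⟨[], lt_nil m, by simp [pw]⟩
      | cons k v =>
        exfalso
        have h1 := h k (k + 1) (Nat.lt_succ_self k) (by
          unfold linvr
          rw [kprime_inv_cons, kprime_inv_cons, Equiv.swap_apply_left, Equiv.swap_apply_right]
          exact hr.2)
        exact h1
    | cons k y ih =>
      intro hy
      exact kprime_cons (ih (lt_cons.1 hy).2) (lt_cons.1 hy).1
  exact key y hy u hu hr h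

end Pool.Agent.AMU
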