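import Pool.Agent.AMU0.Lmat

open Matrix

namespace Pool.Agent.AMU

variable {R : Type*} [CommRing R]

private theorem lfar_gt {m : ℕ} (ξ : Pr m → R) {a b : ℕ} (h : a < b) (hb : b < m) :
    gt ξ a b = ξ ⟨(⟨a, h.trans hb⟩, ⟨b, hb⟩), h⟩ := by
  unfold gt
  rw [dif_pos ⟨h, hb⟩]

private theorem lfar_ext {m : ℕ} (ξ η : Pr m → R)
    (h : ∀ a b, a < b → b < m → gt ξ a b = gt η a b) : ξ = η := by
  funext x
  obtain ⟨⟨⟨a, ha⟩, ⟨b, hb⟩⟩, hx⟩ := x
  have hab : a < b := hx
  have h1 := h a b hab hb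
  rw [lfar_gt ξ hab hb, lfar_gt η hab hb] at h1
  exact h1

/-- the row `(k, k + 1)` -/
private def lfarK (m : ℕ) (q t : R) (k : ℕ) (F : ℕ → ℕ → R) : R :=
  t * (q ^ 2 * F k (k + 1)
      + ∑ i' ∈ Finset.range k, q ^ (k - i' + 1) * (q - 1) * F i' (k + 1)
      + ∑ j' ∈ Finset.Ico (k + 2) m, q * (q - 1) * F k j'
      + ∑ i' ∈ Finset.range k, ∑ j' ∈ Finset.Ico (k + 2) m,
          q ^ (k - i') * (q - 1) ^ 2 * F i' j')

private theorem lfar_r1 {m : ℕ} (q t : R) {k : ℕ} (ξ : Pr m → R) (hk : k + 1 < m) :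
    gt (lop m q t k ξ) k (k + 1) = lfarK m q t k (gt ξ) := by
  rw [lfar_gt _ (Nat.lt_succ_self k) hk]
  simp [lop, lfarK]

private theorem lfar_r2 {m : ℕ} (q t : R) {k : ℕ} (ξ : Pr m → R) {a : ℕ} (ha : a < k)
    (hk : k < m) : gt (lop m q t k ξ) a k = (1 - q) * gt ξ a k + gt ξ a (k + 1) := by
  rw [lfar_gt _ ha hk]
  simp only [lop]
  rw [if_neg (by omega)]
  simp

private theorem lfar_r3 {m : ℕ} (q t : R) {k : ℕ} (ξ : Pr m → R) {a : ℕ} (ha : a < k)
    (hk : k + 1 < m) : gt (lop m q t k ξ) a (k + 1) = q * gt ξ a k := by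
  rw [lfar_gt _ (by omega) hk]
  simp only [lop]
  rw [if_neg (by omega), if_neg (by omega)]
  simp

private theorem lfar_r4 {m : ℕ} (q t : R) {k : ℕ} (ξ : Pr m → R) {b : ℕ} (hb : k + 1 < b)
    (hm : b < m) : gt (lop m q t k ξ) k b = gt ξ (k + 1) b := by
  rw [lfar_gt _ (by omega) hm]
  simp only [lop]
  rw [if_neg (by omega), if_neg (by omega), if_neg (by omega)]
  simp

private theorem lfar_r5 {m : ℕ} (q t : R) {k : ℕ} (ξ : Pr m → R) {b : ℕ} (hb : k + 1 < b)
    (hm : b < m) :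
    gt (lop m q t k ξ) (k + 1) b = q * gt ξ k b + (1 - q) * gt ξ (k + 1) b := by
  rw [lfar_gt _ (by omega) hm]
  simp only [lop]
  rw [if_neg (by omega), if_neg (by omega), if_neg (by omega), if_neg (by omega)]
  simp

private theorem lfar_r6 {m : ℕ} (q t : R) {k : ℕ} (ξ : Pr m → R) {a b : ℕ} (hab : a < b)
    (hm : b < m) (h1 : a ≠ k) (h2 : a ≠ k + 1) (h3 : b ≠ k) (h4 : b ≠ k + 1) :
    gt (lop m q t k ξ) a b = gt ξ a b := by
  rw [lfar_gt _ hab hm]
  simp only [lop]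
  rw [if_neg (by omega), if_neg h3, if_neg h4, if_neg h1, if_neg h2]

private theorem lfar_sum {s : Finset ℕ} {j : ℕ} (h1 : j ∈ s) (h2 : j + 1 ∈ s) (f g : ℕ → R)
    (D : R) (hj : f j = g j + D) (hj1 : f (j + 1) = g (j + 1) - D)
    (ho : ∀ x ∈ s, x ≠ j → x ≠ j + 1 → f x = g x) : ∑ x ∈ s, f x = ∑ x ∈ s, g x := by
  have h3 : ∀ x ∈ s, f x = g x + ((if x = j then D else 0) - (if x = j + 1 then D else 0)) := by
    intro x hx
    by_cases hxj : x = j
    · subst hxj
      rw [if_pos rfl, if_neg (by omega), hj]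
      ring
    · by_cases hxj1 : x = j + 1
      · subst hxj1
        rw [if_neg hxj, if_pos rfl, hj1]
        ring
      · rw [if_neg hxj, if_neg hxj1, ho x hx hxj hxj1]
        ring
  rw [Finset.sum_congr rfl h3, Finset.sum_add_distrib, Finset.sum_sub_distrib,
    Finset.sum_ite_eq', Finset.sum_ite_eq', if_pos h1, if_pos h2]
  ring

private theorem lfar_k1 {m : ℕ} (q t : R) {i j : ℕ} (h : i + 2 ≤ j) (hj : j + 1 < m)
    (ξ : Pr m → R) : lfarK m q t i (gt (lop m q t j ξ)) = lfarK m q t i (gt ξ) := by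
  have hs : ∀ c : R, ∀ r, r ≤ i → ∑ j' ∈ Finset.Ico (i + 2) m, c * gt (lop m q t j ξ) r j' =
      ∑ j' ∈ Finset.Ico (i + 2) m, c * gt ξ r j' := by
    intro c r hr
    refine lfar_sum (j := j) (by rw [Finset.mem_Ico]; omega) (by rw [Finset.mem_Ico]; omega)
      _ _ (c * (gt ξ r (j + 1) - q * gt ξ r j)) ?_ ?_ ?_
    · rw [lfar_r2 q t ξ (by omega) (by omega)]
      ring
    · rw [lfar_r3 q t ξ (by omega) (by omega)]
      ring
    · intro x hx h1 h2
      rw [Finset.mem_Ico] at hx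
      rw [lfar_r6 q t ξ (by omega) (by omega) (by omega) (by omega) h1 h2]
  have hs1 : ∑ i' ∈ Finset.range i, q ^ (i - i' + 1) * (q - 1) * gt (lop m q t j ξ) i' (i + 1) =
      ∑ i' ∈ Finset.range i, q ^ (i - i' + 1) * (q - 1) * gt ξ i' (i + 1) := by
    refine Finset.sum_congr rfl fun i' hi' => ?_
    rw [Finset.mem_range] at hi'
    rw [lfar_r6 q t ξ (by omega) (by omega) (by omega) (by omega) (by omega) (by omega)]
  have hs2 : ∑ i' ∈ Finset.range i, ∑ j' ∈ Finset.Ico (i + 2) m,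
        q ^ (i - i') * (q - 1) ^ 2 * gt (lop m q t j ξ) i' j' =
      ∑ i' ∈ Finset.range i, ∑ j' ∈ Finset.Ico (i + 2) m,
        q ^ (i - i') * (q - 1) ^ 2 * gt ξ i' j' :=
    Finset.sum_congr rfl fun i' hi' => hs _ i' (le_of_lt (Finset.mem_range.1 hi'))
  unfold lfarK
  rw [lfar_r6 q t ξ (by omega) (by omega) (by omega) (by omega) (by omega) (by omega),
    hs _ i le_rfl, hs1, hs2]

private theorem lfar_k2 {m : ℕ} (q t : R) {i j : ℕ} (h : i + 2 ≤ j) (hj : j + 1 < m)
    (ξ : Pr m → R) : lfarK m q t j (gt (lop m q t i ξ)) = lfarK m q t j (gt ξ) := by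
  have hs : ∀ c : R, ∀ l, j < l → l < m →
      ∑ i' ∈ Finset.range j, q ^ (j - i') * c * gt (lop m q t i ξ) i' l =
      ∑ i' ∈ Finset.range j, q ^ (j - i') * c * gt ξ i' l := by
    intro c l hl hlm
    have hp : q ^ (j - i) = q * q ^ (j - (i + 1)) := by
      rw [← pow_succ']
      congr 1
      omega
    refine lfar_sum (j := i) (by rw [Finset.mem_range]; omega) (by rw [Finset.mem_range]; omega)
      _ _ (q ^ (j - i) * c * (gt ξ (i + 1) l - gt ξ i l)) ?_ ?_ ?_
    · rw [lfar_r4 q t ξ (by omega) (by omega)]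
      ring
    · rw [lfar_r5 q t ξ (by omega) (by omega), hp]
      ring
    · intro x hx h1 h2
      rw [Finset.mem_range] at hx
      rw [lfar_r6 q t ξ (by omega) (by omega) h1 h2 (by omega) (by omega)]
  have hs1 : ∑ i' ∈ Finset.range j, q ^ (j - i' + 1) * (q - 1) * gt (lop m q t i ξ) i' (j + 1) =
      ∑ i' ∈ Finset.range j, q ^ (j - i' + 1) * (q - 1) * gt ξ i' (j + 1) := by
    have h1 := hs (q * (q - 1)) (j + 1) (by omega) (by omega)
    calc _ = ∑ i' ∈ Finset.range j, q ^ (j - i') * (q * (q - 1)) *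
          gt (lop m q t i ξ) i' (j + 1) := Finset.sum_congr rfl fun i' _ => by ring
      _ = _ := h1
      _ = _ := Finset.sum_congr rfl fun i' _ => by ring
  have hs2 : ∑ i' ∈ Finset.range j, ∑ j' ∈ Finset.Ico (j + 2) m,
        q ^ (j - i') * (q - 1) ^ 2 * gt (lop m q t i ξ) i' j' =
      ∑ i' ∈ Finset.range j, ∑ j' ∈ Finset.Ico (j + 2) m,
        q ^ (j - i') * (q - 1) ^ 2 * gt ξ i' j' := by
    rw [Finset.sum_comm]
    rw [Finset.sum_comm (s := Finset.range j)]
    refine Finset.sum_congr rfl fun j' hj' => ?_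
    rw [Finset.mem_Ico] at hj'
    exact hs _ j' (by omega) (by omega)
  have hs3 : ∑ j' ∈ Finset.Ico (j + 2) m, q * (q - 1) * gt (lop m q t i ξ) j j' =
      ∑ j' ∈ Finset.Ico (j + 2) m, q * (q - 1) * gt ξ j j' := by
    refine Finset.sum_congr rfl fun j' hj' => ?_
    rw [Finset.mem_Ico] at hj'
    rw [lfar_r6 q t ξ (by omega) (by omega) (by omega) (by omega) (by omega) (by omega)]
  unfold lfarK
  rw [lfar_r6 q t ξ (by omega) (by omega) (by omega) (by omega) (by omega) (by omega), hs1, hs2,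
    hs3]

private theorem lfar_op {m : ℕ} (q t : R) {i j : ℕ} (h : i + 2 ≤ j) (hj : j + 1 < m)
    (ξ : Pr m → R) : lop m q t i (lop m q t j ξ) = lop m q t j (lop m q t i ξ) := by
  refine lfar_ext _ _ fun a b hab hb => ?_
  by_cases hb1 : b = i
  · subst hb1
    simp (disch := omega) only [lfar_r2, lfar_r3, lfar_r4, lfar_r5, lfar_r6]
  by_cases hb2 : b = i + 1
  · subst hb2
    by_cases ha : a = i
    · subst ha
      rw [lfar_r1 q t _ (by omega), lfar_k1 q t h hj]
      simp (disch := omega) only [lfar_r6]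
      rw [lfar_r1 q t _ (by omega)]
    · simp (disch := omega) only [lfar_r2, lfar_r3, lfar_r4, lfar_r5, lfar_r6]
  by_cases hb3 : b = j
  · subst hb3
    by_cases ha1 : a = i
    · subst ha1
      simp (disch := omega) only [lfar_r2, lfar_r3, lfar_r4, lfar_r5, lfar_r6]
    by_cases ha2 : a = i + 1
    · subst ha2
      simp (disch := omega) only [lfar_r2, lfar_r3, lfar_r4, lfar_r5, lfar_r6]
      ring
    simp (disch := omega) only [lfar_r2, lfar_r3, lfar_r4, lfar_r5, lfar_r6]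
  by_cases hb4 : b = j + 1
  · subst hb4
    by_cases ha : a = j
    · subst ha
      rw [lfar_r6 q t _ (by omega) (by omega) (by omega) (by omega) (by omega) (by omega),
        lfar_r1 q t _ (by omega), lfar_r1 q t _ (by omega), lfar_k2 q t h hj]
    by_cases ha1 : a = i
    · subst ha1
      simp (disch := omega) only [lfar_r2, lfar_r3, lfar_r4, lfar_r5, lfar_r6]
    by_cases ha2 : a = i + 1
    · subst ha2
      simp (disch := omega) only [lfar_r2, lfar_r3, lfar_r4, lfar_r5, lfar_r6]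
      ring
    simp (disch := omega) only [lfar_r2, lfar_r3, lfar_r4, lfar_r5, lfar_r6]
  by_cases ha1 : a = i
  · subst ha1
    simp (disch := omega) only [lfar_r2, lfar_r3, lfar_r4, lfar_r5, lfar_r6]
  by_cases ha2 : a = i + 1
  · subst ha2
    simp (disch := omega) only [lfar_r2, lfar_r3, lfar_r4, lfar_r5, lfar_r6]
  by_cases ha3 : a = j
  · subst ha3
    simp (disch := omega) only [lfar_r2, lfar_r3, lfar_r4, lfar_r5, lfar_r6]
  by_cases ha4 : a = j + 1
  · subst ha4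
    simp (disch := omega) only [lfar_r2, lfar_r3, lfar_r4, lfar_r5, lfar_r6]
  simp (disch := omega) only [lfar_r2, lfar_r3, lfar_r4, lfar_r5, lfar_r6]

theorem lmat_far {m : ℕ} (q t : R) {i j : ℕ} (h : i + 2 ≤ j) (hj : j + 1 < m) :
    lmat m q t i * lmat m q t j = lmat m q t j * lmat m q t i := by
  refine Matrix.ext_of_mulVec_single fun x => ?_
  rw [← Matrix.mulVec_mulVec, ← Matrix.mulVec_mulVec, lmat_mulVec, lmat_mulVec, lmat_mulVec,
    lmat_mulVec]
  exact lfar_op q t h hj _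

end Pool.Agent.AMU
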