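import Pool.Agent.AMU0.Lmat

open Matrix

set_option linter.unusedSimpArgs false

namespace Pool.Agent.AMU

variable {R : Type*} [CommRing R]

private lemma lnear_gt_pos {m : ℕ} (ξ : Pr m → R) {i j : ℕ} (h : i < j ∧ j < m) :
    gt ξ i j = ξ ⟨(⟨i, by omega⟩, ⟨j, h.2⟩), by simpa using h.1⟩ := dif_pos h

private lemma lnear_gt_neg {m : ℕ} (ξ : Pr m → R) {i j : ℕ} (h : ¬ (i < j ∧ j < m)) :
    gt ξ i j = 0 := dif_neg h

private lemma lnear_gt {m : ℕ} (q t : R) (k : ℕ) (ξ : Pr m → R) {i j : ℕ} (h : i < j ∧ j < m) :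
    gt (lop m q t k ξ) i j = if i = k ∧ j = k + 1 then
    t * (q ^ 2 * gt ξ k (k + 1)
      + ∑ i' ∈ Finset.range k, q ^ (k - i' + 1) * (q - 1) * gt ξ i' (k + 1)
      + ∑ j' ∈ Finset.Ico (k + 2) m, q * (q - 1) * gt ξ k j'
      + ∑ i' ∈ Finset.range k, ∑ j' ∈ Finset.Ico (k + 2) m,
          q ^ (k - i') * (q - 1) ^ 2 * gt ξ i' j')
  else if j = k then (1 - q) * gt ξ i k + gt ξ i (k + 1)
  else if j = k + 1 then q * gt ξ i k
  else if i = k then gt ξ (k + 1) j
  else if i = k + 1 then q * gt ξ k j + (1 - q) * gt ξ (k + 1) j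
  else gt ξ i j := by
  rw [lnear_gt_pos _ h]
  rfl

private lemma lnear_r2 {m : ℕ} (q t : R) {k : ℕ} (ξ : Pr m → R) {i : ℕ} (h : i < k) (hk : k < m) :
    gt (lop m q t k ξ) i k = (1 - q) * gt ξ i k + gt ξ i (k + 1) := by
  rw [lnear_gt q t k ξ ⟨h, hk⟩, if_neg (by omega), if_pos rfl]

private lemma lnear_r3 {m : ℕ} (q t : R) {k : ℕ} (ξ : Pr m → R) {i : ℕ} (h : i < k)
    (hk : k + 1 < m) : gt (lop m q t k ξ) i (k + 1) = q * gt ξ i k := by
  rw [lnear_gt q t k ξ ⟨by omega, hk⟩, if_neg (by omega), if_neg (by omega), if_pos rfl]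

private lemma lnear_r4 {m : ℕ} (q t : R) {k : ℕ} (ξ : Pr m → R) {j : ℕ} (h : k + 1 < j)
    (hj : j < m) : gt (lop m q t k ξ) k j = gt ξ (k + 1) j := by
  rw [lnear_gt q t k ξ ⟨by omega, hj⟩, if_neg (by omega), if_neg (by omega), if_neg (by omega),
    if_pos rfl]

private lemma lnear_r5 {m : ℕ} (q t : R) {k : ℕ} (ξ : Pr m → R) {j : ℕ} (h : k + 1 < j)
    (hj : j < m) :
    gt (lop m q t k ξ) (k + 1) j = q * gt ξ k j + (1 - q) * gt ξ (k + 1) j := by
  rw [lnear_gt q t k ξ ⟨by omega, hj⟩, if_neg (by omega), if_neg (by omega), if_neg (by omega),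
    if_neg (by omega), if_pos rfl]

private lemma lnear_r6 {m : ℕ} (q t : R) {k : ℕ} (ξ : Pr m → R) {i j : ℕ} (h1 : i ≠ k)
    (h2 : i ≠ k + 1) (h3 : j ≠ k) (h4 : j ≠ k + 1) :
    gt (lop m q t k ξ) i j = gt ξ i j := by
  by_cases h : i < j ∧ j < m
  · rw [lnear_gt q t k ξ h, if_neg (by omega), if_neg h3, if_neg h4, if_neg h1, if_neg h2]
  · rw [lnear_gt_neg _ h, lnear_gt_neg _ h]

/-- the sums over the rows above -/
private def lnA {m : ℕ} (q : R) (k : ℕ) (ξ : Pr m → R) (c : ℕ) : R :=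
  ∑ i' ∈ Finset.range k, q ^ (k - i') * gt ξ i' c

/-- the sums over the columns on the right -/
private def lnB {m : ℕ} (k : ℕ) (ξ : Pr m → R) (r : ℕ) : R :=
  ∑ j' ∈ Finset.Ico (k + 3) m, gt ξ r j'

/-- the double sum -/
private def lnG {m : ℕ} (q : R) (k : ℕ) (ξ : Pr m → R) : R :=
  ∑ i' ∈ Finset.range k, ∑ j' ∈ Finset.Ico (k + 3) m, q ^ (k - i') * gt ξ i' j'

private lemma lnear_S01 {m : ℕ} (q t : R) {k : ℕ} (hk : k + 2 < m) (ξ : Pr m → R) :
    gt (lop m q t k ξ) k (k + 1) = t * (q ^ 2 * gt ξ k (k + 1) + q * (q - 1) * lnA q k ξ (k + 1) +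
      q * (q - 1) * (gt ξ k (k + 2) + lnB k ξ k) +
      (q - 1) ^ 2 * (lnA q k ξ (k + 2) + lnG q k ξ)) := by
  rw [lnear_gt q t k ξ ⟨by omega, by omega⟩, if_pos ⟨rfl, rfl⟩]
  have e1 : ∑ i' ∈ Finset.range k, q ^ (k - i' + 1) * (q - 1) * gt ξ i' (k + 1) =
      q * (q - 1) * lnA q k ξ (k + 1) := by
    unfold lnA
    rw [Finset.mul_sum]
    refine Finset.sum_congr rfl fun i' _ => ?_
    rw [pow_succ]
    ring
  have e2 : ∑ j' ∈ Finset.Ico (k + 2) m, q * (q - 1) * gt ξ k j' =
      q * (q - 1) * (gt ξ k (k + 2) + lnB k ξ k) := by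
    unfold lnB
    rw [← Finset.mul_sum, Finset.sum_eq_sum_Ico_succ_bot hk]
  have e3 : ∑ i' ∈ Finset.range k, ∑ j' ∈ Finset.Ico (k + 2) m,
      q ^ (k - i') * (q - 1) ^ 2 * gt ξ i' j' =
      (q - 1) ^ 2 * (lnA q k ξ (k + 2) + lnG q k ξ) := by
    unfold lnA lnG
    rw [← Finset.sum_add_distrib, Finset.mul_sum]
    refine Finset.sum_congr rfl fun i' _ => ?_
    rw [Finset.sum_eq_sum_Ico_succ_bot hk, mul_add, Finset.mul_sum]
    congr 1
    · ring
    · exact Finset.sum_congr rfl fun j' _ => by ring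
  rw [e1, e2, e3]

private lemma lnear_T12 {m : ℕ} (q t : R) {k : ℕ} (hk : k + 2 < m) (ξ : Pr m → R) :
    gt (lop m q t (k + 1) ξ) (k + 1) (k + 2) = t * (q ^ 2 * gt ξ (k + 1) (k + 2) +
      q * (q - 1) * (q * lnA q k ξ (k + 2) + q * gt ξ k (k + 2)) +
      q * (q - 1) * lnB k ξ (k + 1) +
      (q - 1) ^ 2 * (q * lnG q k ξ + q * lnB k ξ k)) := by
  rw [lnear_gt q t (k + 1) ξ ⟨by omega, hk⟩, if_pos ⟨rfl, rfl⟩]
  have hpow : ∀ i' ∈ Finset.range k, q ^ (k + 1 - i') = q * q ^ (k - i') := by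
    intro i' hi'
    have h1 : i' < k := Finset.mem_range.mp hi'
    have h2 : k + 1 - i' = (k - i') + 1 := by omega
    rw [h2, pow_succ]
    ring
  have h11 : k + 1 - k = 1 := by omega
  have e1 : ∑ i' ∈ Finset.range (k + 1), q ^ (k + 1 - i' + 1) * (q - 1) * gt ξ i' (k + 1 + 1) =
      q * (q - 1) * (q * lnA q k ξ (k + 2) + q * gt ξ k (k + 2)) := by
    unfold lnA
    rw [Finset.sum_range_succ, h11, mul_add, Finset.mul_sum, Finset.mul_sum]
    congr 1
    · refine Finset.sum_congr rfl fun i' hi' => ?_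
      rw [pow_succ, hpow i' hi']
      ring
    · ring
  have e2 : ∑ j' ∈ Finset.Ico (k + 1 + 2) m, q * (q - 1) * gt ξ (k + 1) j' =
      q * (q - 1) * lnB k ξ (k + 1) := by
    unfold lnB
    rw [← Finset.mul_sum]
  have e3 : ∑ i' ∈ Finset.range (k + 1), ∑ j' ∈ Finset.Ico (k + 1 + 2) m,
      q ^ (k + 1 - i') * (q - 1) ^ 2 * gt ξ i' j' =
      (q - 1) ^ 2 * (q * lnG q k ξ + q * lnB k ξ k) := by
    unfold lnG lnB
    rw [Finset.sum_range_succ, h11, mul_add, Finset.mul_sum, Finset.mul_sum, Finset.mul_sum,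
      Finset.mul_sum]
    congr 1
    · refine Finset.sum_congr rfl fun i' hi' => ?_
      rw [Finset.mul_sum, Finset.mul_sum]
      refine Finset.sum_congr rfl fun j' _ => ?_
      rw [hpow i' hi']
      ring
    · exact Finset.sum_congr rfl fun j' _ => by ring
  rw [e1, e2, e3]

section aggregates

variable {m : ℕ} (q t : R) {k : ℕ} (hk : k + 2 < m) (ξ : Pr m → R)

include hk

private lemma lnear_SA0 : lnA q k (lop m q t k ξ) k = (1 - q) * lnA q k ξ k + lnA q k ξ (k + 1) := by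
  unfold lnA
  rw [Finset.mul_sum, ← Finset.sum_add_distrib]
  refine Finset.sum_congr rfl fun i' hi' => ?_
  rw [lnear_r2 q t ξ (Finset.mem_range.mp hi') (by omega)]
  ring

private lemma lnear_SA1 : lnA q k (lop m q t k ξ) (k + 1) = q * lnA q k ξ k := by
  unfold lnA
  rw [Finset.mul_sum]
  refine Finset.sum_congr rfl fun i' hi' => ?_
  rw [lnear_r3 q t ξ (Finset.mem_range.mp hi') (by omega)]
  ring

omit hk in
private lemma lnear_SA2 : lnA q k (lop m q t k ξ) (k + 2) = lnA q k ξ (k + 2) := by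
  unfold lnA
  refine Finset.sum_congr rfl fun i' hi' => ?_
  have h := Finset.mem_range.mp hi'
  rw [lnear_r6 q t ξ (by omega) (by omega) (by omega) (by omega)]

omit hk in
private lemma lnear_SB0 : lnB k (lop m q t k ξ) k = lnB k ξ (k + 1) := by
  unfold lnB
  refine Finset.sum_congr rfl fun j' hj' => ?_
  have h := Finset.mem_Ico.mp hj'
  rw [lnear_r4 q t ξ (by omega) h.2]

omit hk in
private lemma lnear_SB1 : lnB k (lop m q t k ξ) (k + 1) =
    q * lnB k ξ k + (1 - q) * lnB k ξ (k + 1) := by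
  unfold lnB
  rw [Finset.mul_sum, Finset.mul_sum, ← Finset.sum_add_distrib]
  refine Finset.sum_congr rfl fun j' hj' => ?_
  have h := Finset.mem_Ico.mp hj'
  rw [lnear_r5 q t ξ (by omega) h.2]

omit hk in
private lemma lnear_SG : lnG q k (lop m q t k ξ) = lnG q k ξ := by
  unfold lnG
  refine Finset.sum_congr rfl fun i' hi' => Finset.sum_congr rfl fun j' hj' => ?_
  have h1 := Finset.mem_range.mp hi'
  have h2 := Finset.mem_Ico.mp hj'
  rw [lnear_r6 q t ξ (by omega) (by omega) (by omega) (by omega)]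

omit hk in
private lemma lnear_TA0 : lnA q k (lop m q t (k + 1) ξ) k = lnA q k ξ k := by
  unfold lnA
  refine Finset.sum_congr rfl fun i' hi' => ?_
  have h := Finset.mem_range.mp hi'
  rw [lnear_r6 q t ξ (by omega) (by omega) (by omega) (by omega)]

private lemma lnear_TA1 : lnA q k (lop m q t (k + 1) ξ) (k + 1) =
    (1 - q) * lnA q k ξ (k + 1) + lnA q k ξ (k + 2) := by
  unfold lnA
  rw [Finset.mul_sum, ← Finset.sum_add_distrib]
  refine Finset.sum_congr rfl fun i' hi' => ?_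
  have h := Finset.mem_range.mp hi'
  rw [lnear_r2 q t ξ (by omega) (by omega)]
  ring

private lemma lnear_TA2 : lnA q k (lop m q t (k + 1) ξ) (k + 2) = q * lnA q k ξ (k + 1) := by
  unfold lnA
  rw [Finset.mul_sum]
  refine Finset.sum_congr rfl fun i' hi' => ?_
  have h := Finset.mem_range.mp hi'
  rw [lnear_r3 q t ξ (by omega) hk]
  ring

omit hk in
private lemma lnear_TB0 : lnB k (lop m q t (k + 1) ξ) k = lnB k ξ k := by
  unfold lnB
  refine Finset.sum_congr rfl fun j' hj' => ?_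
  have h := Finset.mem_Ico.mp hj'
  rw [lnear_r6 q t ξ (by omega) (by omega) (by omega) (by omega)]

omit hk in
private lemma lnear_TB1 : lnB k (lop m q t (k + 1) ξ) (k + 1) = lnB k ξ (k + 2) := by
  unfold lnB
  refine Finset.sum_congr rfl fun j' hj' => ?_
  have h := Finset.mem_Ico.mp hj'
  rw [lnear_r4 q t ξ (by omega) h.2]

omit hk in
private lemma lnear_TG : lnG q k (lop m q t (k + 1) ξ) = lnG q k ξ := by
  unfold lnG
  refine Finset.sum_congr rfl fun i' hi' => Finset.sum_congr rfl fun j' hj' => ?_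
  have h1 := Finset.mem_range.mp hi'
  have h2 := Finset.mem_Ico.mp hj'
  rw [lnear_r6 q t ξ (by omega) (by omega) (by omega) (by omega)]

end aggregates

private lemma lnear_ext {m : ℕ} {ξ η : Pr m → R}
    (h : ∀ i j, i < j → j < m → gt ξ i j = gt η i j) : ξ = η := by
  funext x
  obtain ⟨⟨i, j⟩, hij⟩ := x
  have h1 := h i j (by simpa using hij) j.2
  rw [lnear_gt_pos ξ ⟨by simpa using hij, j.2⟩, lnear_gt_pos η ⟨by simpa using hij, j.2⟩] at h1
  exact h1

private lemma lnear_main {m : ℕ} (q t : R) {k : ℕ} (hk : k + 2 < m) (ξ : Pr m → R) :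
    lop m q t k (lop m q t (k + 1) (lop m q t k ξ)) =
      lop m q t (k + 1) (lop m q t k (lop m q t (k + 1) ξ)) := by
  refine lnear_ext fun i j hij hj => ?_
  by_cases hi : i < k
  · have S0 : ∀ η : Pr m → R, gt (lop m q t k η) i k = (1 - q) * gt η i k + gt η i (k + 1) :=
      fun η => lnear_r2 q t η hi (by omega)
    have S1 : ∀ η : Pr m → R, gt (lop m q t k η) i (k + 1) = q * gt η i k :=
      fun η => lnear_r3 q t η hi (by omega)
    have S2 : ∀ η : Pr m → R, gt (lop m q t k η) i (k + 2) = gt η i (k + 2) :=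
      fun η => lnear_r6 q t η (by omega) (by omega) (by omega) (by omega)
    have T0 : ∀ η : Pr m → R, gt (lop m q t (k + 1) η) i k = gt η i k :=
      fun η => lnear_r6 q t η (by omega) (by omega) (by omega) (by omega)
    have T1 : ∀ η : Pr m → R, gt (lop m q t (k + 1) η) i (k + 1) =
        (1 - q) * gt η i (k + 1) + gt η i (k + 2) :=
      fun η => lnear_r2 q t η (by omega) (by omega)
    have T2 : ∀ η : Pr m → R, gt (lop m q t (k + 1) η) i (k + 2) = q * gt η i (k + 1) :=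
      fun η => lnear_r3 q t η (by omega) (by omega)
    by_cases h0 : j = k
    · subst h0
      simp only [S0, S1, S2, T0, T1, T2]
      ring
    by_cases h1 : j = k + 1
    · subst h1
      simp only [S0, S1, S2, T0, T1, T2]
      ring
    by_cases h2 : j = k + 2
    · subst h2
      simp only [S0, S1, S2, T0, T1, T2]
    rw [lnear_r6 q t _ (by omega) (by omega) (by omega) (by omega),
      lnear_r6 q t _ (by omega) (by omega) (by omega) (by omega),
      lnear_r6 q t _ (by omega) (by omega) (by omega) (by omega),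
      lnear_r6 q t _ (by omega) (by omega) (by omega) (by omega),
      lnear_r6 q t _ (by omega) (by omega) (by omega) (by omega),
      lnear_r6 q t _ (by omega) (by omega) (by omega) (by omega)]
  by_cases hj2 : k + 2 < j
  · have S0 : ∀ η : Pr m → R, gt (lop m q t k η) k j = gt η (k + 1) j :=
      fun η => lnear_r4 q t η (by omega) hj
    have S1 : ∀ η : Pr m → R, gt (lop m q t k η) (k + 1) j =
        q * gt η k j + (1 - q) * gt η (k + 1) j :=
      fun η => lnear_r5 q t η (by omega) hj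
    have S2 : ∀ η : Pr m → R, gt (lop m q t k η) (k + 2) j = gt η (k + 2) j :=
      fun η => lnear_r6 q t η (by omega) (by omega) (by omega) (by omega)
    have T0 : ∀ η : Pr m → R, gt (lop m q t (k + 1) η) k j = gt η k j :=
      fun η => lnear_r6 q t η (by omega) (by omega) (by omega) (by omega)
    have T1 : ∀ η : Pr m → R, gt (lop m q t (k + 1) η) (k + 1) j = gt η (k + 2) j :=
      fun η => lnear_r4 q t η (by omega) hj
    have T2 : ∀ η : Pr m → R, gt (lop m q t (k + 1) η) (k + 2) j =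
        q * gt η (k + 1) j + (1 - q) * gt η (k + 2) j :=
      fun η => lnear_r5 q t η (by omega) hj
    by_cases h0 : i = k
    · subst h0
      simp only [S0, S1, S2, T0, T1, T2]
    by_cases h1 : i = k + 1
    · subst h1
      simp only [S0, S1, S2, T0, T1, T2]
    by_cases h2 : i = k + 2
    · subst h2
      simp only [S0, S1, S2, T0, T1, T2]
      ring
    rw [lnear_r6 q t _ (by omega) (by omega) (by omega) (by omega),
      lnear_r6 q t _ (by omega) (by omega) (by omega) (by omega),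
      lnear_r6 q t _ (by omega) (by omega) (by omega) (by omega),
      lnear_r6 q t _ (by omega) (by omega) (by omega) (by omega),
      lnear_r6 q t _ (by omega) (by omega) (by omega) (by omega),
      lnear_r6 q t _ (by omega) (by omega) (by omega) (by omega)]
  have S02 : ∀ η : Pr m → R, gt (lop m q t k η) k (k + 2) = gt η (k + 1) (k + 2) :=
    fun η => lnear_r4 q t η (by omega) hk
  have S12 : ∀ η : Pr m → R, gt (lop m q t k η) (k + 1) (k + 2) =
      q * gt η k (k + 2) + (1 - q) * gt η (k + 1) (k + 2) :=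
    fun η => lnear_r5 q t η (by omega) hk
  have T01 : ∀ η : Pr m → R, gt (lop m q t (k + 1) η) k (k + 1) =
      (1 - q) * gt η k (k + 1) + gt η k (k + 2) :=
    fun η => lnear_r2 q t η (by omega) (by omega)
  have T02 : ∀ η : Pr m → R, gt (lop m q t (k + 1) η) k (k + 2) = q * gt η k (k + 1) :=
    fun η => lnear_r3 q t η (by omega) hk
  have hcase : (i = k ∧ j = k + 1) ∨ (i = k ∧ j = k + 2) ∨ (i = k + 1 ∧ j = k + 2) := by omega
  rcases hcase with ⟨rfl, rfl⟩ | ⟨rfl, rfl⟩ | ⟨rfl, rfl⟩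
  · simp only [lnear_S01 q t hk, lnear_T12 q t hk, S02, S12, T01, T02, lnear_SA0 q t hk,
      lnear_SA1 q t hk, lnear_SA2 q t, lnear_SB0 q t, lnear_SB1 q t, lnear_SG q t,
      lnear_TA0 q t, lnear_TA1 q t hk, lnear_TA2 q t hk, lnear_TB0 q t, lnear_TB1 q t,
      lnear_TG q t]
    ring
  · simp only [lnear_S01 q t hk, lnear_T12 q t hk, S02, S12, T01, T02, lnear_SA0 q t hk,
      lnear_SA1 q t hk, lnear_SA2 q t, lnear_SB0 q t, lnear_SB1 q t, lnear_SG q t,
      lnear_TA0 q t, lnear_TA1 q t hk, lnear_TA2 q t hk, lnear_TB0 q t, lnear_TB1 q t,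
      lnear_TG q t]
    ring
  · simp only [lnear_S01 q t hk, lnear_T12 q t hk, S02, S12, T01, T02, lnear_SA0 q t hk,
      lnear_SA1 q t hk, lnear_SA2 q t, lnear_SB0 q t, lnear_SB1 q t, lnear_SG q t,
      lnear_TA0 q t, lnear_TA1 q t hk, lnear_TA2 q t hk, lnear_TB0 q t, lnear_TB1 q t,
      lnear_TG q t]
    ring

theorem lmat_near {m : ℕ} (q t : R) {i : ℕ} (h : i + 2 < m) :
    lmat m q t i * lmat m q t (i + 1) * lmat m q t i =
      lmat m q t (i + 1) * lmat m q t i * lmat m q t (i + 1) := by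
  refine Matrix.ext_of_mulVec_single fun y => ?_
  simp only [← Matrix.mulVec_mulVec, lmat_mulVec]
  exact lnear_main q t h _

end Pool.Agent.AMU
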