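import Pool.Agent.AMU0.Lfar
import Pool.Agent.AMU0.Lnear
import Pool.Agent.AMU0.Lcub

open Matrix

namespace Pool.Agent.AMU

section

variable {K : Type*} [Field K]

/-- the units of the matrices of the generators -/
private noncomputable def linvU (m : ℕ) {q t : K} (hq : q ≠ 0) (ht : t ≠ 0) (k : ℕ) :
    (Matrix (Pr m) (Pr m) K)ˣ :=
  if h : k + 1 < m then Matrix.nonsingInvUnit (lmat m q t k) (lmat_isUnit hq ht h) else 1

private theorem linvU_coe (m : ℕ) {q t : K} (hq : q ≠ 0) (ht : t ≠ 0) {k : ℕ} (hk : k + 1 < m) :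
    ((linvU m hq ht k : (Matrix (Pr m) (Pr m) K)ˣ) : Matrix (Pr m) (Pr m) K) = lmat m q t k := by
  unfold linvU
  rw [dif_pos hk]
  rfl

private theorem linv_brRel (m : ℕ) {q t : K} (hq : q ≠ 0) (ht : t ≠ 0) :
    BrRel (linvU m hq ht) m := by
  constructor
  · intro i j h hj
    apply Units.ext
    rw [Units.val_mul, Units.val_mul, linvU_coe m hq ht (by omega), linvU_coe m hq ht hj]
    exact lmat_far q t h hj
  · intro i hi
    apply Units.ext
    rw [Units.val_mul, Units.val_mul, Units.val_mul, Units.val_mul,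
      linvU_coe m hq ht (k := i) (by omega), linvU_coe m hq ht (k := i + 1) (by omega)]
    exact lmat_near q t hi

private theorem linv_lpm_field {q t : K} (hq : q ≠ 0) (ht : t ≠ 0) {m : ℕ} {X Y : List ℕ}
    (hX : Lt m X) (hY : Lt m Y) (h : pw m X = pw m Y) : lpm m q t X = lpm m q t Y := by
  obtain ⟨φ, hφ⟩ := exists_hom (linv_brRel m hq ht)
  have key : ∀ Z : List ℕ, Lt m Z →
      ((φ (pw m Z) : (Matrix (Pr m) (Pr m) K)ˣ) : Matrix (Pr m) (Pr m) K) = lpm m q t Z := by
    intro Z hZ
    rw [hom_pw hφ hZ]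
    unfold lpm
    clear hX hY h
    induction Z with
    | nil => rfl
    | cons x Z ih =>
      obtain ⟨h1, h2⟩ := lt_cons.1 hZ
      rw [List.map_cons, List.prod_cons, Units.val_mul, ih h2, linvU_coe m hq ht h1,
        List.map_cons, List.prod_cons]
  rw [← key X hX, ← key Y hY, h]

end

theorem lwm_braid {m : ℕ} {w w' : List (ℕ × Bool)} (hw : Letters m w) (hw' : Letters m w')
    (h : braid m w = braid m w') {q t : ℂ} (hq : q ≠ 0) (ht : t ≠ 0) :
    lwm m q t w = lwm m q t w' := by
  obtain ⟨φ, hφ⟩ := exists_hom (linv_brRel m hq ht)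
  have key : ∀ v : List (ℕ × Bool), Letters m v →
      ((φ (braid m v) : (Matrix (Pr m) (Pr m) ℂ)ˣ) : Matrix (Pr m) (Pr m) ℂ) = lwm m q t v := by
    intro v hv
    rw [hom_braid hφ hv]
    unfold lwm
    clear hw hw' h
    induction v with
    | nil => rfl
    | cons x v ih =>
      have h1 : x.1 + 1 < m := hv x (by simp)
      have h2 : Letters m v := fun y hy => hv y (by simp [hy])
      rw [List.map_cons, List.prod_cons, Units.val_mul, ih h2, List.map_cons, List.prod_cons]
      congr 1
      rcases x with ⟨i, b⟩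
      cases b with
      | true =>
        simp only [if_true]
        exact linvU_coe m hq ht h1
      | false =>
        simp only [Bool.false_eq_true, if_false]
        rw [Matrix.coe_units_inv, linvU_coe m hq ht h1]
  rw [← key w hw, ← key w' hw', h]

open Polynomial in
theorem lpm_pw {R : Type*} [CommRing R] (q t : R) {m : ℕ} {X Y : List ℕ} (hX : Lt m X) (hY : Lt m Y)
    (h : pw m X = pw m Y) : lpm m q t X = lpm m q t Y := by
  -- the universal case
  have huniv : lpm m (C (Polynomial.X : ℤ[X])) (Polynomial.X : ℤ[X][X]) X =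
      lpm m (C (Polynomial.X : ℤ[X])) (Polynomial.X : ℤ[X][X]) Y := by
    have hinj : Function.Injective (algebraMap ℤ[X][X] (FractionRing ℤ[X][X])) :=
      IsFractionRing.injective _ _
    have hq0 : algebraMap ℤ[X][X] (FractionRing ℤ[X][X]) (C (Polynomial.X : ℤ[X])) ≠ 0 := by
      rw [Ne, map_eq_zero_iff _ hinj, C_eq_zero]
      exact X_ne_zero
    have ht0 : algebraMap ℤ[X][X] (FractionRing ℤ[X][X]) (Polynomial.X : ℤ[X][X]) ≠ 0 := by
      rw [Ne, map_eq_zero_iff _ hinj]
      exact X_ne_zero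
    have h1 := linv_lpm_field hq0 ht0 hX hY h
    rw [← lpm_map, ← lpm_map] at h1
    exact Matrix.map_injective hinj h1
  have h2 := lpm_map (eval₂RingHom (eval₂RingHom (Int.castRingHom R) q) t) m
    (C (Polynomial.X : ℤ[X])) (Polynomial.X : ℤ[X][X]) X
  have h3 := lpm_map (eval₂RingHom (eval₂RingHom (Int.castRingHom R) q) t) m
    (C (Polynomial.X : ℤ[X])) (Polynomial.X : ℤ[X][X]) Y
  have e1 : (eval₂RingHom (eval₂RingHom (Int.castRingHom R) q) t) (C (Polynomial.X : ℤ[X])) = q := by
    simp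
  have e2 : (eval₂RingHom (eval₂RingHom (Int.castRingHom R) q) t) (Polynomial.X : ℤ[X][X]) = t := by
    simp
  rw [e1, e2] at h2 h3
  rw [← h2, ← h3, huniv]

end Pool.Agent.AMU
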