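import Pool.Agent.AMU0.Base

open Matrix

namespace Pool.Agent.AMU

section
variable {R : Type*} [CommRing R]

private lemma lmat_gt_add {m : ℕ} (ξ η : Pr m → R) (i j : ℕ) :
    gt (ξ + η) i j = gt ξ i j + gt η i j := by
  unfold gt
  split_ifs
  · rfl
  · rw [add_zero]

private lemma lmat_gt_smul {m : ℕ} (a : R) (ξ : Pr m → R) (i j : ℕ) :
    gt (a • ξ) i j = a * gt ξ i j := by
  unfold gt
  split_ifs
  · rfl
  · rw [mul_zero]

private lemma lmat_gt_map {S : Type*} [CommRing S] (f : R →+* S) {m : ℕ} (ξ : Pr m → R) (i j : ℕ) :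
    f (gt ξ i j) = gt (fun x => f (ξ x)) i j := by
  unfold gt
  split_ifs
  · rfl
  · rw [map_zero]

theorem lop_add (m : ℕ) (q t : R) (k : ℕ) (ξ η : Pr m → R) :
    lop m q t k (ξ + η) = lop m q t k ξ + lop m q t k η := by
  funext x
  simp only [lop, Pi.add_apply, lmat_gt_add]
  split_ifs
  · simp only [mul_add, Finset.sum_add_distrib]
    ring
  all_goals ring

theorem lop_smul (m : ℕ) (q t : R) (k : ℕ) (a : R) (ξ : Pr m → R) :
    lop m q t k (a • ξ) = a • lop m q t k ξ := by
  funext x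
  simp only [lop, Pi.smul_apply, lmat_gt_smul, smul_eq_mul]
  split_ifs
  · have h1 : ∑ i' ∈ Finset.range k, q ^ (k - i' + 1) * (q - 1) * (a * gt ξ i' (k + 1)) =
        a * ∑ i' ∈ Finset.range k, q ^ (k - i' + 1) * (q - 1) * gt ξ i' (k + 1) := by
      rw [Finset.mul_sum]
      exact Finset.sum_congr rfl fun _ _ => by ring
    have h2 : ∑ j' ∈ Finset.Ico (k + 2) m, q * (q - 1) * (a * gt ξ k j') =
        a * ∑ j' ∈ Finset.Ico (k + 2) m, q * (q - 1) * gt ξ k j' := by
      rw [Finset.mul_sum]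
      exact Finset.sum_congr rfl fun _ _ => by ring
    have h3 : ∑ i' ∈ Finset.range k, ∑ j' ∈ Finset.Ico (k + 2) m,
          q ^ (k - i') * (q - 1) ^ 2 * (a * gt ξ i' j') =
        a * ∑ i' ∈ Finset.range k, ∑ j' ∈ Finset.Ico (k + 2) m,
          q ^ (k - i') * (q - 1) ^ 2 * gt ξ i' j' := by
      rw [Finset.mul_sum]
      refine Finset.sum_congr rfl fun _ _ => ?_
      rw [Finset.mul_sum]
      exact Finset.sum_congr rfl fun _ _ => by ring
    rw [h1, h2, h3]
    ring
  all_goals ring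

private lemma lmat_lop_zero (m : ℕ) (q t : R) (k : ℕ) : lop m q t k (0 : Pr m → R) = 0 := by
  have h := lop_smul m q t k (0 : R) (0 : Pr m → R)
  rw [zero_smul, zero_smul] at h
  exact h

private lemma lmat_lop_sum {ι : Type*} (m : ℕ) (q t : R) (k : ℕ) (s : Finset ι)
    (F : ι → Pr m → R) : lop m q t k (∑ i ∈ s, F i) = ∑ i ∈ s, lop m q t k (F i) := by
  classical
  induction s using Finset.induction_on with
  | empty => rw [Finset.sum_empty, Finset.sum_empty, lmat_lop_zero]
  | insert i s hi ih => rw [Finset.sum_insert hi, Finset.sum_insert hi, lop_add, ih]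

theorem lmat_mulVec (m : ℕ) (q t : R) (k : ℕ) (ξ : Pr m → R) :
    lmat m q t k *ᵥ ξ = lop m q t k ξ := by
  have h : ξ = ∑ y, ξ y • (Pi.single y 1 : Pr m → R) := by
    funext x
    rw [Finset.sum_apply, Finset.sum_eq_single x]
    · simp
    · intro y _ hy
      rw [Pi.smul_apply, Pi.single_eq_of_ne hy.symm, smul_zero]
    · intro hx
      exact absurd (Finset.mem_univ x) hx
  conv_rhs => rw [h]
  rw [lmat_lop_sum]
  funext x
  rw [Finset.sum_apply]
  simp only [Matrix.mulVec, dotProduct]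
  refine Finset.sum_congr rfl fun y _ => ?_
  rw [lop_smul, Pi.smul_apply, smul_eq_mul, mul_comm]
  rfl

private lemma lmat_lop_map {S : Type*} [CommRing S] (f : R →+* S) (m : ℕ) (q t : R) (k : ℕ)
    (ξ : Pr m → R) (x : Pr m) :
    f (lop m q t k ξ x) = lop m (f q) (f t) k (fun y => f (ξ y)) x := by
  simp only [lop]
  split_ifs <;>
  simp only [map_mul, map_add, map_sum, map_pow, map_sub, map_one, lmat_gt_map]

theorem lmat_map {S : Type*} [CommRing S] (f : R →+* S) (m : ℕ) (q t : R) (k : ℕ) :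
    (lmat m q t k).map f = lmat m (f q) (f t) k := by
  ext x y
  rw [Matrix.map_apply]
  show f (lop m q t k (Pi.single y 1) x) = lop m (f q) (f t) k (Pi.single y 1) x
  rw [lmat_lop_map]
  have h : (fun z => f ((Pi.single y 1 : Pr m → R) z)) = (Pi.single y 1 : Pr m → S) := by
    funext z
    by_cases hz : z = y
    · subst hz
      simp
    · rw [Pi.single_eq_of_ne hz, Pi.single_eq_of_ne hz, map_zero]
  rw [h]

theorem lpm_map {S : Type*} [CommRing S] (f : R →+* S) (m : ℕ) (q t : R) (X : List ℕ) :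
    (lpm m q t X).map f = lpm m (f q) (f t) X := by
  induction X with
  | nil => exact Matrix.map_one f (map_zero f) (map_one f)
  | cons x X ih =>
    have h1 : lpm m q t (x :: X) = lmat m q t x * lpm m q t X := by simp [lpm]
    have h2 : lpm m (f q) (f t) (x :: X) = lmat m (f q) (f t) x * lpm m (f q) (f t) X := by
      simp [lpm]
    rw [h1, h2, Matrix.map_mul, ih, lmat_map]

theorem lpm_append (m : ℕ) (q t : R) (X Y : List ℕ) :
    lpm m q t (X ++ Y) = lpm m q t X * lpm m q t Y := by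
  simp [lpm]

end

theorem lwm_append (m : ℕ) (q t : ℂ) (u w : List (ℕ × Bool)) :
    lwm m q t (u ++ w) = lwm m q t u * lwm m q t w := by
  simp [lwm]

theorem lwm_posw (m : ℕ) (q t : ℂ) (X : List ℕ) : lwm m q t (posw X) = lpm m q t X := by
  unfold lwm lpm posw
  rw [List.map_map]
  congr 1

end Pool.Agent.AMU
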