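import Pool.Agent.AMU0.Fin1
import Pool.Agent.AMU0.ZO
import Pool.Agent.AMU0.ZD
import Pool.Agent.AMU0.Ginv

open Matrix Polynomial

namespace Pool.Agent.AMU

/-- the colouring of the positions after a word -/
private def tu1Out (κ : ℕ → Fin 4) : List (ℕ × Bool) → ℕ → Fin 4
  | [] => κ
  | x :: w => csw (tu1Out κ w) x.1

/-- the numbers of parallel strands for the four colours -/
private def tu1Col (c1 c2 K : ℕ) (i : Fin 4) : ℕ := ![0, c1, c2, K * c2] i

private lemma tu1_out_outl (κ : ℕ → Fin 4) (l : ℕ) : ∀ w, tu1Out κ w (outl l w) = κ l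
  | [] => rfl
  | x :: w => by
    rw [tu1Out, outl, csw, Function.comp, Equiv.swap_apply_self]
    exact tu1_out_outl κ l w

private lemma tu1_out_pure {m : ℕ} {w : List (ℕ × Bool)} (hw : PureWord m w) (κ : ℕ → Fin 4) :
    tu1Out κ w = κ := by
  funext l
  have := tu1_out_outl κ l w
  rwa [hw.2 l] at this

private lemma tu1_outc (c1 c2 K : ℕ) (κ : ℕ → Fin 4) : ∀ w,
    outc (fun i => tu1Col c1 c2 K (κ i)) w = fun i => tu1Col c1 c2 K (tu1Out κ w i)
  | [] => rfl
  | x :: w => by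
    rw [outc, tu1_outc c1 c2 K κ w]
    rfl

private lemma tu1_wt (Q : ℂ) (c1 c2 K : ℕ) (i : Fin 4) :
    wt4 (Q ^ c2) (Q ^ c1) K i = Q ^ tu1Col c1 c2 K i := by
  fin_cases i
  · simp [wt4, tu1Col]
  · simp [wt4, tu1Col]
  · simp [wt4, tu1Col]
  · simp [wt4, tu1Col, pow_mul, mul_comm K c2]

private lemma tu1_col_eq {c1 c2 K : ℕ} (h1 : 1 ≤ c1) (h2 : 1 ≤ c2) (hK : 1 ≤ K) (i : Fin 4) :
    tu1Col c1 c2 K i = 0 ↔ i = 0 := by
  have h3 : 0 < K * c2 := Nat.mul_pos hK h2
  fin_cases i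
  · simp [tu1Col]
  · simp [tu1Col]
    omega
  · simp [tu1Col]
    omega
  · simp [tu1Col]
    omega

/-- the operator at one colouring as an operator on coefficients -/
private lemma tu1_gw_gl {c1 c2 K : ℕ} (h1 : 1 ≤ c1) (h2 : 1 ≤ c2) (hK : 1 ≤ K) {Q Qi : ℂ}
    (hQ : Q * Qi = 1) (κ : ℕ → Fin 4) (F : GV) : ∀ (w : List (ℕ × Bool)) (p : ℕ),
    gw (Q ^ c2) (Q ^ c1) K w F (tu1Out κ w) p =
      gl (fun i => tu1Col c1 c2 K (κ i)) Q Qi w (F κ) p
  | [], p => rfl
  | x :: w, p => by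
    have ih := tu1_gw_gl h1 h2 hK hQ κ F w
    have hQ0 : Q ≠ 0 := left_ne_zero_of_mul_eq_one hQ
    have hQi : Qi = Q⁻¹ := (eq_inv_of_mul_eq_one_right hQ)
    rw [gl, tu1_outc]
    obtain ⟨k, s⟩ := x
    have hcsw : csw (tu1Out κ ((k, s) :: w)) k = tu1Out κ w := by
      funext l
      simp [tu1Out, csw]
    have hk : tu1Out κ ((k, s) :: w) k = tu1Out κ w (k + 1) := by
      simp [tu1Out, csw]
    have hk1 : tu1Out κ ((k, s) :: w) (k + 1) = tu1Out κ w k := by
      simp [tu1Out, csw]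
    simp only [glet, tu1_col_eq h1 h2 hK]
    cases s with
    | true =>
      simp only [gw, if_true, gop, hcsw, hk, hk1, ih, tu1_wt]
      by_cases hc : tu1Out κ w k = 0 ∨ tu1Out κ w (k + 1) = 0
      · rw [if_pos hc]
        have hc' : tu1Out κ w (k + 1) = 0 ∨ tu1Out κ w k = 0 := hc.symm
        rw [if_pos hc', if_pos hc']
        by_cases hp1 : p = k + 1
        · subst hp1
          simp
        · by_cases hp : p = k
          · subst hp
            simp
          · rw [if_neg hp1, if_neg hp, Equiv.swap_apply_of_ne_of_ne hp hp1]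
      · rw [if_neg hc]
        have hc' : ¬ (tu1Out κ w (k + 1) = 0 ∨ tu1Out κ w k = 0) := fun h => hc h.symm
        rw [if_neg hc', if_neg hc']
    | false =>
      simp only [gw, Bool.false_eq_true, if_false, gopi, hcsw, hk, hk1, ih, tu1_wt]
      by_cases hc : tu1Out κ w k = 0 ∨ tu1Out κ w (k + 1) = 0
      · rw [if_pos hc]
        have hc' : tu1Out κ w (k + 1) = 0 ∨ tu1Out κ w k = 0 := hc.symm
        rw [if_pos hc', if_pos hc']
        by_cases hp : p = k
        · subst hp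
          simp
        · by_cases hp1 : p = k + 1
          · subst hp1
            simp
          · rw [if_neg hp, if_neg hp1, Equiv.swap_apply_of_ne_of_ne hp hp1]
      · rw [if_neg hc]
        have hc' : ¬ (tu1Out κ w (k + 1) = 0 ∨ tu1Out κ w k = 0) := fun h => hc h.symm
        rw [if_neg hc', if_neg hc']
        simp only [hQi, inv_pow]

/-- the basis function of a position -/
private def tu1Bas (y : ℕ) : GV := fun _ p => if p = y then 1 else 0

/-- the matrix of the operator of a word at one colouring -/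
private noncomputable def tu1Mat (m K : ℕ) (w : List (ℕ × Bool)) (κ : ℕ → Fin 4) (x : ℂ × ℂ) :
    Matrix (Fin m) (Fin m) ℂ := fun i j => gw x.1 x.2 K w (tu1Bas j) κ i

private lemma tu1_gw_zero (q z : ℂ) (K : ℕ) (w : List (ℕ × Bool)) : gw q z K w 0 = 0 := by
  have := gw_smul q z K w 0 0
  simpa using this

private lemma tu1_gw_sum (q z : ℂ) (K : ℕ) (w : List (ℕ × Bool)) {ι : Type*} (s : Finset ι)
    (a : ι → ℂ) (G : ι → GV) : gw q z K w (∑ i ∈ s, a i • G i) = ∑ i ∈ s, a i • gw q z K w (G i) := by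
  classical
  induction s using Finset.induction_on with
  | empty => simp [tu1_gw_zero]
  | insert i s hi ih => rw [Finset.sum_insert hi, Finset.sum_insert hi, gw_add, gw_smul, ih]

private lemma tu1_mulVec {m : ℕ} {w : List (ℕ × Bool)} (hw : PureWord m w) (K : ℕ)
    (κ : ℕ → Fin 4) (x : ℂ × ℂ) (F : GV) (hF : ∀ p, m ≤ p → F κ p = 0) (i : Fin m) :
    (tu1Mat m K w κ x *ᵥ fun j : Fin m => F κ j) i = gw x.1 x.2 K w F κ i := by
  have h1 : F κ = (∑ j : Fin m, F κ j • tu1Bas j : GV) κ := by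
    funext p
    rw [Finset.sum_apply, Finset.sum_apply]
    simp only [Pi.smul_apply, tu1Bas, smul_eq_mul, mul_ite, mul_one, mul_zero]
    by_cases hp : p < m
    · rw [Finset.sum_eq_single (⟨p, hp⟩ : Fin m)]
      · simp
      · intro j _ hj
        rw [if_neg]
        intro h
        exact hj (Fin.ext h.symm)
      · intro h
        exact absurd (Finset.mem_univ _) h
    · rw [hF p (by omega), Finset.sum_eq_zero]
      intro j _
      rw [if_neg]
      have := j.2
      omega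
  rw [gw_pure hw x.1 x.2 K h1, tu1_gw_sum, Finset.sum_apply, Finset.sum_apply]
  simp only [Matrix.mulVec, dotProduct, tu1Mat, Pi.smul_apply, smul_eq_mul]
  exact Finset.sum_congr rfl fun j _ => mul_comm _ _

private lemma tu1_wt_cont (K : ℕ) (i : Fin 4) (x : ℂ × ℂ) :
    ContinuousAt (fun x : ℂ × ℂ => wt4 x.1 x.2 K i) x := by
  have h : Continuous (fun x : ℂ × ℂ => wt4 x.1 x.2 K i) := by
    fin_cases i
    · simpa [wt4] using continuous_const
    · simpa [wt4] using continuous_snd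
    · simpa [wt4] using continuous_fst
    · change Continuous fun x : ℂ × ℂ => x.1 ^ K
      exact continuous_fst.pow K
  exact h.continuousAt

private lemma tu1_wt_ne {q z : ℂ} (hq : q ≠ 0) (hz : z ≠ 0) (K : ℕ) (i : Fin 4) :
    wt4 q z K i ≠ 0 := by
  fin_cases i
  · simp [wt4]
  · simpa [wt4] using hz
  · simpa [wt4] using hq
  · simpa [wt4] using fun h => absurd h hq

private lemma tu1_cont (K : ℕ) (F : GV) (x : ℂ × ℂ) (h1 : x.1 ≠ 0) (h2 : x.2 ≠ 0) :
    ∀ (w : List (ℕ × Bool)) (κ : ℕ → Fin 4) (p : ℕ),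
      ContinuousAt (fun x : ℂ × ℂ => gw x.1 x.2 K w F κ p) x
  | [], κ, p => continuousAt_const
  | y :: w, κ, p => by
    have ih := tu1_cont K F x h1 h2 w
    obtain ⟨k, s⟩ := y
    have hc : ∀ i, ContinuousAt (fun x : ℂ × ℂ => wt4 x.1 x.2 K i) x := fun i =>
      tu1_wt_cont K i x
    have hi : ∀ i, ContinuousAt (fun x : ℂ × ℂ => (wt4 x.1 x.2 K i)⁻¹) x := fun i =>
      (hc i).inv₀ (tu1_wt_ne h1 h2 K i)
    cases s with
    | true =>
      simp only [gw, if_true, gop]
      split_ifs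
      · exact ih _ _
      · exact (hc _).mul (ih _ _)
      · exact ih _ _
      · exact ((continuousAt_const.sub (hc _)).mul (ih _ _)).add (ih _ _)
      · exact ih _ _
    | false =>
      simp only [gw, Bool.false_eq_true, if_false, gopi]
      split_ifs
      · exact ih _ _
      · exact (hi _).mul (ih _ _)
      · exact ih _ _
      · exact (ih _ _).sub (((continuousAt_const.sub (hc _)).mul (hi _)).mul (ih _ _))
      · exact ih _ _

/-- the integral form of the matrix -/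
private noncomputable def tu1Int (m : ℕ) (c : ℕ → ℕ) (w : List (ℕ × Bool)) :
    Matrix (Fin m) (Fin m) ℤ[X][X] := fun x y =>
  gl c (X ^ 4) ((C X) ^ 4) w (fun p => if p = y then 1 else 0) x

private lemma tu1_int_map (m : ℕ) (c : ℕ → ℕ) (w : List (ℕ × Bool)) (A : ℂ) (x y : Fin m) :
    (tu1Int m c w).map (ev2 A A⁻¹) x y =
      gl c (A⁻¹ ^ 4) (A ^ 4) w (fun p => if p = y then 1 else 0) x := by
  rw [Matrix.map_apply, tu1Int, gl_map]
  have e1 : ev2 A A⁻¹ (X ^ 4) = A⁻¹ ^ 4 := by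
    simp [ev2]
  have e2 : ev2 A A⁻¹ ((C X) ^ 4) = A ^ 4 := by
    rw [map_pow]
    simp [ev2]
  rw [e1, e2]
  have e3 : (fun p : ℕ => ev2 A A⁻¹ (if p = (y : ℕ) then 1 else 0)) =
      fun p : ℕ => if p = (y : ℕ) then (1 : ℂ) else 0 := by
    funext p
    split_ifs
    · exact map_one _
    · exact map_zero _
  rw [e3]

private lemma tu1_int_mulVec {m : ℕ} (c : ℕ → ℕ) (w : List (ℕ × Bool)) (A : ℂ) (v : Fin m → ℂ)
    (i : Fin m) : ((tu1Int m c w).map (ev2 A A⁻¹) *ᵥ v) i =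
      gl c (A⁻¹ ^ 4) (A ^ 4) w (fun p => if h : p < m then v ⟨p, h⟩ else 0) i := by
  have hsum : ∀ (s : Finset (Fin m)) (a : Fin m → ℂ) (g : Fin m → ℕ → ℂ),
      gl c (A⁻¹ ^ 4) (A ^ 4) w (∑ j ∈ s, a j • g j) =
        ∑ j ∈ s, a j • gl c (A⁻¹ ^ 4) (A ^ 4) w (g j) := by
    intro s a g
    induction s using Finset.induction_on with
    | empty =>
      have := gl_smul c (A⁻¹ ^ 4) (A ^ 4) w 0 (0 : ℕ → ℂ)
      simpa using this
    | insert i s hi ih => rw [Finset.sum_insert hi, Finset.sum_insert hi, gl_add, gl_smul, ih]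
  have h1 : (fun p => if h : p < m then v ⟨p, h⟩ else 0) =
      ∑ j : Fin m, v j • (fun p : ℕ => if p = (j : ℕ) then (1 : ℂ) else 0) := by
    funext p
    rw [Finset.sum_apply]
    simp only [Pi.smul_apply, smul_eq_mul, mul_ite, mul_one, mul_zero]
    by_cases hp : p < m
    · rw [dif_pos hp, Finset.sum_eq_single (⟨p, hp⟩ : Fin m)]
      · simp
      · intro j _ hj
        rw [if_neg]
        intro h
        exact hj (Fin.ext h.symm)
      · intro h
        exact absurd (Finset.mem_univ _) h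
    · rw [dif_neg hp, Finset.sum_eq_zero]
      intro j _
      rw [if_neg]
      have := j.2
      omega
  rw [h1, hsum, Finset.sum_apply]
  simp only [Matrix.mulVec, dotProduct, tu1_int_map, Pi.smul_apply, smul_eq_mul]
  exact Finset.sum_congr rfl fun j _ => mul_comm _ _

/-- all eigenvalues are unimodular for all powers on the circle -/
private lemma tu1_unimod {m : ℕ} {w : List (ℕ × Bool)} (hw : PureWord m w) (hF : Fail m w)
    (c : ℕ → ℕ) (A : ℂ) (hA : ‖A‖ = 1) (l : ℂ)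
    (hl : Eig ((tu1Int m c w).map (ev2 A A⁻¹)) l) : ‖l‖ = 1 := by
  refine zo (tu1Int m c w) (fun N0 => ?_) A hA l hl
  obtain ⟨N, hN, B, hB, hinf⟩ := hF c 1 (N0 + 5 + 4 * ∑ l ∈ Finset.range m, c l)
  refine ⟨N, by omega, B, hB, fun l hl => ?_⟩
  obtain ⟨v, hv, hl⟩ := hl
  have hc : ∀ l, l < m → 4 * c l < N := by
    intro l hl
    have := Finset.single_le_sum (f := c) (fun i _ => Nat.zero_le _) (Finset.mem_range.2 hl)
    omega
  have hfl : ∀ x, (hx : x < m) → gl c (B⁻¹ ^ 4) (B ^ 4) w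
      (fun p => if h : p < m then v ⟨p, h⟩ else 0) x = l * v ⟨x, hx⟩ := by
    intro x hx
    have := congrFun hl ⟨x, hx⟩
    rw [tu1_int_mulVec] at this
    simpa using this
  obtain ⟨i, hi⟩ : ∃ i, v i ≠ 0 := by
    by_contra h
    push Not at h
    exact hv (funext h)
  by_cases h0 : ∃ i : Fin m, c i = 0 ∧ v i ≠ 0
  · obtain ⟨i, hi0, hi⟩ := h0
    have h2 := hfl i i.2
    rw [gl_deleted hw c _ _ _ (Or.inr hi0), dif_pos i.2] at h2
    refine ⟨1, one_pos, ?_⟩
    have h3 : (l - 1) * v i = 0 := by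
      rw [sub_mul, one_mul, sub_eq_zero]
      exact h2.symm
    rcases mul_eq_zero.1 h3 with h4 | h4
    · rw [pow_one]
      exact sub_eq_zero.1 h4
    · exact absurd h4 hi
  · push Not at h0
    have hci : 0 < c i := by
      rcases Nat.eq_zero_or_pos (c i) with h | h
      · exact absurd (h0 i h) hi
      · exact h
    refine fin1 hw c hB (by omega) hc hinf (fun p => if h : p < m then v ⟨p, h⟩ else 0) l
      ⟨i, i.2, hci, by rw [dif_pos i.2]; exact hi⟩ fun x hx _ => ?_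
    rw [hfl x hx, dif_pos hx]

theorem tu1 {m : ℕ} {w : List (ℕ × Bool)} (hw : PureWord m w) (hF : Fail m w) : U1 w := by
  intro K q z hK hq hz F l hF0 hl
  obtain ⟨κ, hκ⟩ : ∃ κ, F κ ≠ 0 := by
    by_contra h
    push Not at h
    exact hF0 (funext h)
  by_cases hd : ∃ p, (m ≤ p ∨ κ p = 0) ∧ F κ p ≠ 0
  · obtain ⟨p, hp, hFp⟩ := hd
    have h1 := gw_deleted hw q z K F hp
    rw [hl] at h1
    have h2 : (l - 1) * F κ p = 0 := by
      rw [sub_mul, one_mul, sub_eq_zero]
      exact h1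
    rcases mul_eq_zero.1 h2 with h3 | h3
    · rw [sub_eq_zero.1 h3, norm_one]
    · exact absurd h3 hFp
  push Not at hd
  have hFm : ∀ p, m ≤ p → F κ p = 0 := fun p hp => hd p (Or.inl hp)
  have hq0 : q ≠ 0 := by
    rintro rfl
    rw [norm_zero] at hq
    exact zero_ne_one hq
  have hz0 : z ≠ 0 := by
    rintro rfl
    rw [norm_zero] at hz
    exact zero_ne_one hz
  -- the eigenvector
  have hE : Eig (tu1Mat m K w κ (q, z)) l := by
    refine ⟨fun j : Fin m => F κ j, ?_, ?_⟩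
    · intro h
      apply hκ
      funext p
      by_cases hp : p < m
      · exact congrFun h ⟨p, hp⟩
      · exact hFm p (by omega)
    · funext i
      rw [tu1_mulVec hw K κ (q, z) F hFm i]
      simp only [hl]
      rfl
  -- the dense set
  let S : Set (ℂ × ℂ) := {x | ∃ (A : ℂ) (c1 c2 : ℕ), ‖A‖ = 1 ∧ 1 ≤ c1 ∧ 1 ≤ c2 ∧
    x = (A⁻¹ ^ (4 * c2), A⁻¹ ^ (4 * c1))}
  refine unimod_dense (tu1Mat m K w κ) (q, z) ?_ S ?_ ?_ l hE
  · refine continuousAt_pi.2 fun i => continuousAt_pi.2 fun j => ?_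
    exact tu1_cont K (tu1Bas j) (q, z) hq0 hz0 w κ i
  · rw [Metric.mem_closure_iff]
    intro ε hε
    obtain ⟨A, hA, hinf, -⟩ := dense_inf (z := 1) norm_one (ε := 1) one_pos
    obtain ⟨c2, hc2, h2⟩ := dense_pow hA hinf hq hε
    obtain ⟨c1, hc1, h1⟩ := dense_pow hA hinf hz hε
    refine ⟨(A⁻¹ ^ (4 * c2), A⁻¹ ^ (4 * c1)), ⟨A, c1, c2, hA, by omega, by omega, rfl⟩, ?_⟩
    rw [Prod.dist_eq, max_lt_iff]
    refine ⟨?_, ?_⟩
    · rw [dist_comm, dist_eq_norm]
      exact h2
    · rw [dist_comm, dist_eq_norm]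
      exact h1
  · rintro x ⟨A, c1, c2, hA, hc1, hc2, rfl⟩ l' hl'
    have hA0 : A ≠ 0 := by
      rintro rfl
      rw [norm_zero] at hA
      exact zero_ne_one hA
    refine tu1_unimod hw hF (fun i => tu1Col c1 c2 K (κ i)) A hA l' ?_
    have hM : (tu1Int m (fun i => tu1Col c1 c2 K (κ i)) w).map (ev2 A A⁻¹) =
        tu1Mat m K w κ (A⁻¹ ^ (4 * c2), A⁻¹ ^ (4 * c1)) := by
      ext i j
      rw [tu1_int_map, tu1Mat]
      have h3 := tu1_gw_gl hc1 hc2 hK (Q := A⁻¹ ^ 4) (Qi := A ^ 4)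
        (by rw [← mul_pow, inv_mul_cancel₀ hA0, one_pow]) κ (tu1Bas j) w i
      rw [tu1_out_pure hw] at h3
      rw [pow_mul, pow_mul]
      exact h3.symm
    rw [hM]
    exact hl'

end Pool.Agent.AMU
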