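import Pool.Agent.AMU0.Fin2
import Pool.Agent.AMU0.ZO
import Pool.Agent.AMU0.ZD
import Pool.Agent.AMU0.Lhw
import Pool.Agent.AMU0.Half3

open Matrix Polynomial

namespace Pool.Agent.AMU

/-- powers of the full twist as words -/
private def tu2W (m : ℕ) : ℕ → List (ℕ × Bool)
  | 0 => []
  | e + 1 => posw (hw m ++ hw m) ++ tu2W m e

private theorem tu2W_letters (m : ℕ) : ∀ e : ℕ, Letters m (tu2W m e)
  | 0 => fun x hx => by simp [tu2W] at hx
  | e + 1 => letters_append (letters_posw (lt_append.2 ⟨hw_lt m, hw_lt m⟩)) (tu2W_letters m e)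

private theorem tu2W_braid (m : ℕ) : ∀ e : ℕ, braid m (tu2W m e) = tw (sg m) 0 m ^ e
  | 0 => by simp [tu2W, braid_nil]
  | e + 1 => by
    rw [tu2W, braid_append, braid_posw, pw_append, hw_sq, tu2W_braid m e, pow_succ']

private theorem tu2W_lwm (m : ℕ) (q t : ℂ) (w : List (ℕ × Bool)) : ∀ e : ℕ,
    lwm m q t (tu2W m e ++ w) = (t ^ 2 * q ^ (2 * m)) ^ e • lwm m q t w
  | 0 => by
    rw [pow_zero, one_smul]
    rfl
  | e + 1 => by
    rw [tu2W, List.append_assoc, lwm_append, lwm_posw, lhw_sq, tu2W_lwm m q t w e,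
      smul_mul_assoc, one_mul, smul_smul]
    congr 1
    ring

private theorem tu2_key {m : ℕ} {w : List (ℕ × Bool)} (hw : Letters m w) :
    ∃ (e : ℕ) (Y : List ℕ), ∀ q t : ℂ, q ≠ 0 → t ≠ 0 →
      lpm m q t Y = (t ^ 2 * q ^ (2 * m)) ^ e • lwm m q t w := by
  obtain ⟨e, Y, hY, h⟩ := exists_positive m (braid m w)
  refine ⟨e, Y, fun q t hq ht => ?_⟩
  rw [← lwm_posw, ← tu2W_lwm]
  refine lwm_braid (letters_posw hY) (letters_append (tu2W_letters m e) hw) ?_ hq ht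
  rw [braid_posw, braid_append, tu2W_braid, h]

private theorem tu2_eig {ι : Type*} [Fintype ι] {M : Matrix ι ι ℂ} {a l : ℂ} (h : Eig M l) :
    Eig (a • M) (a * l) := by
  obtain ⟨v, hv, h1⟩ := h
  refine ⟨v, hv, ?_⟩
  rw [Matrix.smul_mulVec, h1, smul_smul]

private theorem tu2_eig' {ι : Type*} [Fintype ι] {M : Matrix ι ι ℂ} {a l : ℂ} (ha : a ≠ 0)
    (h : Eig (a • M) l) : Eig M (a⁻¹ * l) := by
  have h1 := tu2_eig (a := a⁻¹) h
  rwa [smul_smul, inv_mul_cancel₀ ha, one_smul] at h1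

private theorem tu2_cont (m : ℕ) (k : ℕ) :
    Continuous (fun x : ℂ × ℂ => lmat m x.1 x.2 k) := by
  refine continuous_matrix (fun i j => ?_)
  unfold lmat lop
  simp only []
  split_ifs <;> fun_prop

private theorem tu2_cont' (m : ℕ) : ∀ Y : List ℕ,
    Continuous (fun x : ℂ × ℂ => lpm m x.1 x.2 Y)
  | [] => by
    unfold lpm
    simp only [List.map_nil, List.prod_nil]
    exact continuous_const
  | k :: Y => by
    have h1 := tu2_cont' m Y
    have h2 := tu2_cont m k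
    have h3 : (fun x : ℂ × ℂ => lpm m x.1 x.2 (k :: Y)) =
        fun x : ℂ × ℂ => lmat m x.1 x.2 k * lpm m x.1 x.2 Y := by
      funext x
      simp [lpm]
    rw [h3]
    exact h2.matrix_mul h1

theorem tu2 {m : ℕ} {w : List (ℕ × Bool)} (hw : PureWord m w) (hF : Fail m w) : U2 m w := by
  intro q t hq ht l hl
  obtain ⟨e, Y, hY⟩ := tu2_key hw.1
  have hq0 : q ≠ 0 := fun h => by rw [h, norm_zero] at hq; exact zero_ne_one hq
  have ht0 : t ≠ 0 := fun h => by rw [h, norm_zero] at ht; exact zero_ne_one ht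
  -- the special points
  have hspec : ∀ c : ℕ, 2 ≤ c → ∀ A : ℂ, ‖A‖ = 1 → ∀ l',
      Eig (lpm m (A⁻¹ ^ (4 * c)) (A ^ 4) Y) l' → ‖l'‖ = 1 := by
    intro c hc A hA l' hl'
    have hmap : ∀ B : ℂ, (lpm m ((Polynomial.X : ℤ[X][X]) ^ (4 * c)) (C ((Polynomial.X : ℤ[X]) ^ 4)) Y).map
        (ev2 B B⁻¹) = lpm m (B⁻¹ ^ (4 * c)) (B ^ 4) Y := by
      intro B
      rw [lpm_map]
      have e1 : ev2 B B⁻¹ ((Polynomial.X : ℤ[X][X]) ^ (4 * c)) = B⁻¹ ^ (4 * c) := by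
        simp [ev2]
      have e2 : ev2 B B⁻¹ (C ((Polynomial.X : ℤ[X]) ^ 4)) = B ^ 4 := by
        unfold ev2
        rw [Polynomial.coe_eval₂RingHom, Polynomial.eval₂_C]
        simp
      rw [e1, e2]
    refine zo (lpm m ((Polynomial.X : ℤ[X][X]) ^ (4 * c)) (C ((Polynomial.X : ℤ[X]) ^ 4)) Y) ?_ A hA l'
      (by rw [hmap]; exact hl')
    intro N0
    obtain ⟨n, hn, B, hB, hcol⟩ := hF (fun _ => c) 2 (max N0 (4 * c + 1))
    refine ⟨n, le_trans (le_max_left _ _) hn, B, hB, fun l'' hl'' => ?_⟩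
    have hn1 : 4 * c < n := lt_of_lt_of_le (by omega) (le_trans (le_max_right N0 (4 * c + 1)) hn)
    have hn0 : 0 < n := by omega
    have hBn : B ^ n = 1 := hB.pow_eq_one
    have hB0 : B ≠ 0 := fun h => by
      rw [h, zero_pow (by omega)] at hBn
      exact zero_ne_one hBn
    rw [hmap, hY _ _ (pow_ne_zero _ (inv_ne_zero hB0)) (pow_ne_zero _ hB0)] at hl''
    set a : ℂ := ((B ^ 4) ^ 2 * (B⁻¹ ^ (4 * c)) ^ (2 * m)) ^ e with ha
    have ha0 : a ≠ 0 := pow_ne_zero _ (mul_ne_zero (pow_ne_zero _ (pow_ne_zero _ hB0))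
      (pow_ne_zero _ (pow_ne_zero _ (inv_ne_zero hB0))))
    obtain ⟨M, hM, hM1⟩ := fin2 hw hc hB hn1 hcol _ (tu2_eig' ha0 hl'')
    have han : a ^ n = 1 := by
      have hBi : B⁻¹ ^ n = 1 := by rw [inv_pow, hBn, inv_one]
      have e1 : a ^ n = (((B ^ n) ^ 4) ^ 2 * ((B⁻¹ ^ n) ^ (4 * c)) ^ (2 * m)) ^ e := by
        rw [ha]
        ring
      rw [e1, hBn, hBi]
      simp
    refine ⟨M * n, Nat.mul_pos hM hn0, ?_⟩
    have e2 : l'' = a * (a⁻¹ * l'') := by rw [← mul_assoc, mul_inv_cancel₀ ha0, one_mul]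
    calc l'' ^ (M * n) = (a * (a⁻¹ * l'')) ^ (M * n) := by rw [← e2]
      _ = (a ^ n) ^ M * ((a⁻¹ * l'') ^ M) ^ n := by
        rw [mul_pow, pow_mul (a⁻¹ * l'') M n, mul_comm M n, pow_mul a n M]
      _ = 1 := by rw [han, hM1]; simp
  -- density
  have hx : ((q, t) : ℂ × ℂ) ∈ closure {x : ℂ × ℂ | ∃ (c : ℕ) (A : ℂ), 2 ≤ c ∧ ‖A‖ = 1 ∧
      x = (A⁻¹ ^ (4 * c), A ^ 4)} := by
    rw [Metric.mem_closure_iff]
    intro ε hε
    obtain ⟨A, hA, hinf, hAt⟩ := dense_inf ht hε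
    obtain ⟨c, hc, hcq⟩ := dense_pow hA hinf hq hε
    refine ⟨(A⁻¹ ^ (4 * c), A ^ 4), ⟨c, A, hc, hA, rfl⟩, ?_⟩
    rw [Prod.dist_eq, max_lt_iff]
    constructor
    · rw [dist_comm, dist_eq_norm]
      exact hcq
    · rw [dist_comm, dist_eq_norm]
      exact hAt
  have hl1 : Eig (lpm m q t Y) ((t ^ 2 * q ^ (2 * m)) ^ e * l) := by
    rw [hY q t hq0 ht0]
    exact tu2_eig hl
  have h1 := unimod_dense (fun x : ℂ × ℂ => lpm m x.1 x.2 Y) (q, t) (tu2_cont' m Y).continuousAt _ hx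
    (by
      rintro y ⟨c, A, hc, hA, rfl⟩ l' hl'
      exact hspec c hc A hA l' hl') _ hl1
  rw [norm_mul, norm_pow, norm_mul, norm_pow, norm_pow, hq, ht] at h1
  simpa using h1

end Pool.Agent.AMU
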