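import Pool.Agent.AMU0.Comb
import Pool.Agent.AMU0.GA
import Pool.Agent.AMU0.TU1
import Pool.Agent.AMU0.TU2
import Pool.Agent.AMU0.CabCab

open Matrix

namespace Pool.Agent.AMU

/-- an irreducible pure braid satisfies the conclusion of the AMU conjecture -/
theorem amu_irr {m : ℕ} {w : List (ℕ × Bool)} (hw : PureWord m w) (hI : Irr m (braid m w)) :
    ¬ Fail m w := by
  intro hF
  obtain ⟨hm, hI⟩ := hI
  have h1 := tu1 hw hF
  have h2 := tu2 hw hF
  obtain ⟨X, U, e, hX, hU, hXp, hb, hn⟩ := ga (by omega) hw h2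
  have key : ∃ (g : BraidGroup m) (o l : ℕ), 2 ≤ l ∧ l < m ∧ o + l ≤ m ∧
      Commute (pw m X) (g * tw (sg m) o l * g⁻¹) := by
    rcases hn with rfl | hn
    · exact ⟨1, 0, 2, le_rfl, by omega, by omega, by simp [pw]⟩
    · by_cases hne : X = []
      · subst hne
        exact ⟨1, 0, 2, le_rfl, by omega, by omega, by simp [pw]⟩
      · refine comb hm hne hX hXp ?_ hn
        refine u1_conj (u := posw U) (e := e) hw hXp ?_ ?_ h1
        · intro x hx
          unfold posw at hx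
          obtain ⟨y, hy, rfl⟩ := List.mem_map.1 hx
          exact hU y hy
        · rw [hb, braid_posw, braid_posw]
  obtain ⟨g, o, l, h3, h4, h5, h6⟩ := key
  refine hI (pw m U * g) o l h3 h4 h5 ?_
  rw [hb]
  have h7 : Commute (pw m U * pw m X * (pw m U)⁻¹)
      (pw m U * (g * tw (sg m) o l * g⁻¹) * (pw m U)⁻¹) := by
    unfold Commute SemiconjBy at h6 ⊢
    calc pw m U * pw m X * (pw m U)⁻¹ * (pw m U * (g * tw (sg m) o l * g⁻¹) * (pw m U)⁻¹)
        = pw m U * (pw m X * (g * tw (sg m) o l * g⁻¹)) * (pw m U)⁻¹ := by group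
      _ = pw m U * ((g * tw (sg m) o l * g⁻¹) * pw m X) * (pw m U)⁻¹ := by rw [h6]
      _ = _ := by group
  have h8 : pw m U * g * tw (sg m) o l * (pw m U * g)⁻¹ =
      pw m U * (g * tw (sg m) o l * g⁻¹) * (pw m U)⁻¹ := by group
  rw [h8]
  exact Commute.mul_left (Commute.zpow_left (tw_comm _) e) h7

/-- The AMU conjecture in genus `0`. -/
theorem amu_genus0 {m : ℕ} {w : List (ℕ × Bool)} (hw : PureWord m w) (c0 : ℕ → ℕ)
    (hc0 : ∀ i, c0 i ≤ 1) (hI : Irr (off c0 m) (braid (off c0 m) (cab c0 w))) :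
    ∃ (c : ℕ → ℕ) (k N0 : ℕ), ∀ N, N0 ≤ N → ∀ A : ℂ, IsPrimitiveRoot A N → ColInfinite m c A w k := by
  have h1 := amu_irr (cab_pure hw c0) hI
  unfold Fail at h1
  push Not at h1
  obtain ⟨c', k, N0, h2⟩ := h1
  obtain ⟨c, hc⟩ := cab_cab hw c0 hc0 c'
  exact ⟨c, k, N0, fun N hN A hA => hc A k (h2 N hN A hA)⟩

end Pool.Agent.AMU
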