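import Pool.Agent.AMU0.Base

open Matrix Polynomial

namespace Pool.Agent.AMU

private lemma mono_geom {N : ℕ} {ζ : ℂ} (hζ : IsPrimitiveRoot ζ N) {i j : ℕ}
    (hi : i < N) (hj : j < N) :
    ∑ k ∈ Finset.range N, (ζ ^ k) ^ i * ((ζ ^ k)⁻¹) ^ j = if i = j then (N : ℂ) else 0 := by
  have hz : ζ ≠ 0 := hζ.ne_zero (by omega)
  have h1 : ∀ k, (ζ ^ k) ^ i * ((ζ ^ k)⁻¹) ^ j = (ζ ^ i * (ζ⁻¹) ^ j) ^ k := by
    intro k
    rw [mul_pow, ← pow_mul, ← pow_mul, ← pow_mul, ← inv_pow, ← pow_mul, mul_comm k i, mul_comm k j]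
  rw [Finset.sum_congr rfl fun k _ => h1 k]
  by_cases hij : i = j
  · rw [if_pos hij, hij, ← mul_pow, mul_inv_cancel₀ hz, one_pow]
    simp
  · rw [if_neg hij]
    have h2 : ζ ^ i * (ζ⁻¹) ^ j ≠ 1 := by
      intro h3
      have h4 : ζ ^ i = ζ ^ j := by
        have h5 : (ζ ^ j : ℂ) ≠ 0 := pow_ne_zero _ hz
        rw [inv_pow] at h3
        exact (mul_inv_eq_one₀ h5).mp h3
      exact hij (hζ.pow_inj hi hj h4)
    have h6 : (ζ ^ i * (ζ⁻¹) ^ j) ^ N = 1 := by
      rw [mul_pow, ← pow_mul, ← pow_mul, mul_comm i N, mul_comm j N, pow_mul, pow_mul,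
        hζ.pow_eq_one, inv_pow, hζ.pow_eq_one]
      simp
    have h7 := mul_geom_sum (ζ ^ i * (ζ⁻¹) ^ j) N
    rw [h6, sub_self] at h7
    exact (mul_eq_zero.mp h7).resolve_left (sub_ne_zero.mpr h2)

private lemma mono_parseval (P : ℤ[X]) {N : ℕ} (hN : N = P.natDegree + 1) {ζ : ℂ}
    (hζ : IsPrimitiveRoot ζ N) :
    ∑ k ∈ Finset.range N, Polynomial.aeval (ζ ^ k) P * Polynomial.aeval ((ζ ^ k)⁻¹) P =
      (N : ℂ) * ((∑ i ∈ Finset.range N, (P.coeff i) ^ 2 : ℤ) : ℂ) := by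
  have h1 : ∀ z : ℂ, Polynomial.aeval z P = ∑ i ∈ Finset.range N, (P.coeff i : ℂ) * z ^ i := by
    intro z
    rw [Polynomial.aeval_eq_sum_range, ← hN]
    refine Finset.sum_congr rfl fun i _ => ?_
    rw [zsmul_eq_mul]
  calc ∑ k ∈ Finset.range N, Polynomial.aeval (ζ ^ k) P * Polynomial.aeval ((ζ ^ k)⁻¹) P
      = ∑ k ∈ Finset.range N, ∑ i ∈ Finset.range N, ∑ j ∈ Finset.range N,
          ((P.coeff i : ℂ) * (P.coeff j : ℂ)) * ((ζ ^ k) ^ i * ((ζ ^ k)⁻¹) ^ j) := by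
        refine Finset.sum_congr rfl fun k _ => ?_
        rw [h1, h1, Finset.sum_mul_sum]
        refine Finset.sum_congr rfl fun i _ => Finset.sum_congr rfl fun j _ => ?_
        ring
    _ = ∑ i ∈ Finset.range N, ∑ j ∈ Finset.range N, ((P.coeff i : ℂ) * (P.coeff j : ℂ)) *
          ∑ k ∈ Finset.range N, (ζ ^ k) ^ i * ((ζ ^ k)⁻¹) ^ j := by
        rw [Finset.sum_comm]
        refine Finset.sum_congr rfl fun i _ => ?_
        rw [Finset.sum_comm]
        refine Finset.sum_congr rfl fun j _ => ?_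
        rw [Finset.mul_sum]
    _ = ∑ i ∈ Finset.range N, ((P.coeff i : ℂ) * (P.coeff i : ℂ)) * (N : ℂ) := by
        refine Finset.sum_congr rfl fun i hi => ?_
        rw [Finset.sum_eq_single i]
        · rw [mono_geom hζ (Finset.mem_range.mp hi) (Finset.mem_range.mp hi), if_pos rfl]
        · intro j hj hji
          rw [mono_geom hζ (Finset.mem_range.mp hi) (Finset.mem_range.mp hj),
            if_neg (Ne.symm hji), mul_zero]
        · intro h
          exact absurd hi h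
    _ = (N : ℂ) * ((∑ i ∈ Finset.range N, (P.coeff i) ^ 2 : ℤ) : ℂ) := by
        rw [Int.cast_sum, Finset.mul_sum]
        refine Finset.sum_congr rfl fun i _ => ?_
        push_cast
        ring

/-- an integral polynomial bounded by `1` on the circle is `0` or a monomial -/
theorem monomial_of_le_one (P : ℤ[X]) (h : ∀ q : ℂ, ‖q‖ = 1 → ‖Polynomial.aeval q P‖ ≤ 1) :
    P = 0 ∨ ∃ k : ℕ, P = X ^ k ∨ P = -X ^ k := by
  set N := P.natDegree + 1 with hN
  have hNpos : 0 < N := by omega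
  have hζ : IsPrimitiveRoot (Complex.exp (2 * Real.pi * Complex.I / N)) N :=
    Complex.isPrimitiveRoot_exp N (by omega)
  set ζ := Complex.exp (2 * Real.pi * Complex.I / N) with hζdef
  have hnorm : ‖ζ‖ = 1 := by
    exact norm_eq_one_of_pow hNpos hζ.pow_eq_one
  have hP := mono_parseval P hN hζ
  have hle : ‖∑ k ∈ Finset.range N, Polynomial.aeval (ζ ^ k) P *
      Polynomial.aeval ((ζ ^ k)⁻¹) P‖ ≤ N := by
    calc ‖∑ k ∈ Finset.range N, Polynomial.aeval (ζ ^ k) P * Polynomial.aeval ((ζ ^ k)⁻¹) P‖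
        ≤ ∑ k ∈ Finset.range N, ‖Polynomial.aeval (ζ ^ k) P *
            Polynomial.aeval ((ζ ^ k)⁻¹) P‖ := norm_sum_le _ _
      _ ≤ ∑ k ∈ Finset.range N, (1 : ℝ) := by
          refine Finset.sum_le_sum fun k _ => ?_
          rw [norm_mul]
          have h1 : ‖ζ ^ k‖ = 1 := by rw [norm_pow, hnorm, one_pow]
          have h2 : ‖(ζ ^ k)⁻¹‖ = 1 := by rw [norm_inv, h1, inv_one]
          calc _ ≤ (1 : ℝ) * 1 :=
                mul_le_mul (h _ h1) (h _ h2) (norm_nonneg _) zero_le_one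
            _ = 1 := one_mul 1
      _ = N := by simp
  rw [hP, norm_mul, Complex.norm_natCast] at hle
  have hNr : (0 : ℝ) < N := by exact_mod_cast hNpos
  have hs1 : ‖((∑ i ∈ Finset.range N, (P.coeff i) ^ 2 : ℤ) : ℂ)‖ ≤ 1 := by
    by_contra hcon
    push Not at hcon
    have h3 : (N : ℝ) * 1 < (N : ℝ) * ‖((∑ i ∈ Finset.range N, (P.coeff i) ^ 2 : ℤ) : ℂ)‖ :=
      mul_lt_mul_of_pos_left hcon hNr
    linarith
  rw [Complex.norm_intCast] at hs1
  have hs2 : |(∑ i ∈ Finset.range N, (P.coeff i) ^ 2 : ℤ)| ≤ 1 := by exact_mod_cast hs1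
  have hs3 : (∑ i ∈ Finset.range N, (P.coeff i) ^ 2 : ℤ) ≤ 1 := (abs_le.mp hs2).2
  by_cases hP0 : P = 0
  · exact Or.inl hP0
  refine Or.inr ?_
  have hlead : P.coeff P.natDegree ≠ 0 := by
    rw [Polynomial.coeff_natDegree]
    exact Polynomial.leadingCoeff_ne_zero.mpr hP0
  have hsq : 1 ≤ (P.coeff P.natDegree) ^ 2 := by
    have : 0 < (P.coeff P.natDegree) ^ 2 := by positivity
    omega
  have hmem : P.natDegree ∈ Finset.range N := Finset.mem_range.mpr (by omega)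
  have hsplit := Finset.add_sum_erase (Finset.range N) (fun i => (P.coeff i) ^ 2) hmem
  have hrest : 0 ≤ ∑ i ∈ (Finset.range N).erase P.natDegree, (P.coeff i) ^ 2 :=
    Finset.sum_nonneg fun i _ => sq_nonneg _
  have hsplit' : (P.coeff P.natDegree) ^ 2 +
      ∑ i ∈ (Finset.range N).erase P.natDegree, (P.coeff i) ^ 2 =
      ∑ i ∈ Finset.range N, (P.coeff i) ^ 2 := hsplit
  have hrest0 : ∑ i ∈ (Finset.range N).erase P.natDegree, (P.coeff i) ^ 2 = 0 := by omega
  have hone : (P.coeff P.natDegree) ^ 2 = 1 := by omega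
  have hzero : ∀ i, i ≠ P.natDegree → P.coeff i = 0 := by
    intro i hi
    by_cases hiN : i < N
    · have h4 := (Finset.sum_eq_zero_iff_of_nonneg (fun i _ => sq_nonneg (P.coeff i))).mp hrest0 i
        (Finset.mem_erase.mpr ⟨hi, Finset.mem_range.mpr hiN⟩)
      exact pow_eq_zero_iff (two_ne_zero) |>.mp h4
    · exact Polynomial.coeff_eq_zero_of_natDegree_lt (by omega)
  have hform : P = C (P.coeff P.natDegree) * X ^ P.natDegree := by
    ext i
    rw [Polynomial.coeff_C_mul, Polynomial.coeff_X_pow]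
    by_cases hi : i = P.natDegree
    · rw [if_pos hi, mul_one, hi]
    · rw [if_neg hi, mul_zero, hzero i hi]
  refine ⟨P.natDegree, ?_⟩
  have hone' : P.coeff P.natDegree * P.coeff P.natDegree = 1 := by
    rw [← sq]; exact hone
  rcases mul_self_eq_one_iff.mp hone' with h5 | h5
  · left
    rw [h5] at hform
    simpa using hform
  · right
    rw [h5] at hform
    simpa using hform

end Pool.Agent.AMU
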