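import Pool.Agent.AMU0.Wall

open Matrix Polynomial

namespace Pool.Agent.AMU

private lemma rank_map {m : ℕ} {p : ℕ → ℕ} (T Z : Finset ℕ) (e : ℕ → ℕ) (s0 n : ℕ) :
    (dmat m T (fun s => if s ∈ Z then (0 : ℤ[X]) else X ^ e s) p s0 n).map
      (evalRingHom (1 : ℤ)) = dmat m T (fun s => if s ∈ Z then (0 : ℤ) else 1) p s0 n := by
  rw [dmat_map]
  have h1 : (fun x => (evalRingHom (1 : ℤ)) (if x ∈ Z then (0 : ℤ[X]) else X ^ e x)) =
      fun s => if s ∈ Z then (0 : ℤ) else 1 := by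
    funext x
    by_cases hx : x ∈ Z
    · rw [if_pos hx, if_pos hx, map_zero]
    · rw [if_neg hx, if_neg hx, map_pow, coe_evalRingHom, eval_X, one_pow]
  rw [h1]

private lemma rank_alg {κ : Type*} [Fintype κ] [DecidableEq κ] (B : Matrix κ κ ℤ[X])
    (hB : ∃ k : ℕ, B.charpoly.trailingCoeff = X ^ k ∨ B.charpoly.trailingCoeff = -X ^ k)
    (h1 : ∃ d : ℕ, (B.map (evalRingHom (1 : ℤ))).charpoly = X ^ d * (X - 1)) :
    ∃ k : ℕ, B.trace = X ^ k := by
  obtain ⟨k, hk⟩ := hB
  obtain ⟨d, hd⟩ := h1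
  have hmap : (B.map (evalRingHom (1 : ℤ))).charpoly = B.charpoly.map (evalRingHom (1 : ℤ)) :=
    Matrix.charpoly_map B (evalRingHom (1 : ℤ))
  rw [hmap] at hd
  have hco : ∀ n, (B.charpoly.coeff n).eval 1 = if n = d + 1 then 1 else if n = d then -1 else 0 := by
    intro n
    have h2 : (B.charpoly.map (evalRingHom (1 : ℤ))).coeff n = (B.charpoly.coeff n).eval 1 := by
      rw [coeff_map, coe_evalRingHom]
    rw [← h2, hd, mul_sub, mul_one, ← pow_succ, coeff_sub, coeff_X_pow, coeff_X_pow]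
    by_cases h3 : n = d + 1
    · rw [if_pos h3, if_pos h3, if_neg (by omega)]; norm_num
    · rw [if_neg h3, if_neg h3]
      by_cases h4 : n = d
      · rw [if_pos h4, if_pos h4]; norm_num
      · rw [if_neg h4, if_neg h4]; norm_num
  have hdeg : B.charpoly.natDegree = d + 1 := by
    have h2 : (B.charpoly.map (evalRingHom (1 : ℤ))).natDegree = B.charpoly.natDegree :=
      B.charpoly_monic.natDegree_map (evalRingHom (1 : ℤ))
    rw [← h2, hd]
    have h3 : (X - 1 : ℤ[X]).Monic := by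
      have := monic_X_sub_C (1 : ℤ)
      rwa [C_1] at this
    rw [Monic.natDegree_mul (monic_X_pow d) h3, natDegree_X_pow]
    have h4 : (X - 1 : ℤ[X]).natDegree = 1 := by
      have := natDegree_X_sub_C (1 : ℤ)
      rwa [C_1] at this
    rw [h4]
  have hcard : Fintype.card κ = d + 1 := by
    rw [← hdeg, B.charpoly_natDegree_eq_dim]
  have hne : Nonempty κ := by
    rw [← Fintype.card_pos_iff, hcard]
    omega
  have hr : B.charpoly.natTrailingDegree = d := by
    apply le_antisymm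
    · apply natTrailingDegree_le_of_ne_zero
      intro h5
      have h6 := hco d
      rw [h5, eval_zero, if_neg (by omega), if_pos rfl] at h6
      norm_num at h6
    · by_contra h5
      push Not at h5
      have h6 := hco B.charpoly.natTrailingDegree
      rw [if_neg (by omega), if_neg (by omega)] at h6
      have h7 : (B.charpoly.trailingCoeff).eval 1 = 0 := h6
      rcases hk with hk | hk
      · rw [hk] at h7
        simp at h7
      · rw [hk] at h7
        simp at h7
  have htc : B.charpoly.trailingCoeff = B.charpoly.coeff d := by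
    rw [trailingCoeff, hr]
  have h8 := hco d
  rw [if_neg (by omega), if_pos rfl, ← htc] at h8
  refine ⟨k, ?_⟩
  rw [Matrix.trace_eq_neg_charpoly_coeff, hcard, Nat.add_sub_cancel, ← htc]
  rcases hk with hk | hk
  · rw [hk] at h8
    simp at h8
  · rw [hk, neg_neg]

private lemma rank_alg_det {κ : Type*} [Fintype κ] [DecidableEq κ] (B : Matrix κ κ ℤ[X])
    (hB : ∃ k : ℕ, B.charpoly.trailingCoeff = X ^ k ∨ B.charpoly.trailingCoeff = -X ^ k)
    (h1 : B.map (evalRingHom (1 : ℤ)) = 1) :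
    ∃ k : ℕ, B.det = X ^ k := by
  obtain ⟨k, hk⟩ := hB
  have hdet : (B.det).eval 1 = 1 := by
    have h2 : (evalRingHom (1 : ℤ)) B.det = ((evalRingHom (1 : ℤ)).mapMatrix B).det :=
      RingHom.map_det (evalRingHom (1 : ℤ)) B
    rw [RingHom.mapMatrix_apply, h1, Matrix.det_one, coe_evalRingHom] at h2
    exact h2
  have hsg := Matrix.det_eq_sign_charpoly_coeff B
  have hc0 : B.charpoly.coeff 0 ≠ 0 := by
    intro h3
    rw [h3, mul_zero] at hsg
    rw [hsg, eval_zero] at hdet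
    norm_num at hdet
  have hr : B.charpoly.natTrailingDegree = 0 := by
    have := natTrailingDegree_le_of_ne_zero hc0
    omega
  have htc : B.charpoly.trailingCoeff = B.charpoly.coeff 0 := by
    rw [trailingCoeff, hr]
  rw [← htc] at hsg
  refine ⟨k, ?_⟩
  have h4 : B.det = X ^ k ∨ B.det = -X ^ k := by
    rcases neg_one_pow_eq_or ℤ[X] (Fintype.card κ) with h5 | h5 <;> rcases hk with hk | hk
    · left; rw [hsg, h5, hk, one_mul]
    · right; rw [hsg, h5, hk, one_mul]
    · right; rw [hsg, h5, hk]; ring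
    · left; rw [hsg, h5, hk]; ring
  rcases h4 with h4 | h4
  · exact h4
  · exfalso
    rw [h4] at hdet
    simp at hdet

/-- If the block to the right of a wall has the characteristic polynomial `λ ^ (d - 1) (λ - 1)` at
`q = 1`, then its trace is a monomial. -/
theorem rank_one {m L : ℕ} {p : ℕ → ℕ} (h : IsTrack m L p) (hG : Good m L p) (T Z : Finset ℕ)
    (K : ℕ) (e : ℕ → ℕ) (hK : 1 ≤ K) (he : ∀ s, e s = 1 ∨ e s = K) {w : ℕ} (hwT : w ∈ T) (hwZ : w ∈ Z)
    (s0 n : ℕ)
    (h1 : ∃ d : ℕ, ((dmat m T (fun s => if s ∈ Z then (0 : ℤ) else 1) p s0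
        (n * L)).toSquareBlockProp fun a => (a : ℕ) ∈ T ∧ ps p s0 w < ps p s0 a).charpoly
          = X ^ d * (X - 1)) :
    ∃ k : ℕ, ∑ a : Fin m, (if (a : ℕ) ∈ T ∧ ps p s0 w < ps p s0 a then
      dmat m T (fun s => if s ∈ Z then (0 : ℤ[X]) else X ^ e s) p s0 (n * L) a a else 0) = X ^ k := by
  have hB := wall_block h hG T Z K e hK he hwT hwZ s0 n
  rw [← rank_map T Z e s0 (n * L)] at h1
  obtain ⟨k, hk⟩ := rank_alg _ hB h1
  refine ⟨k, ?_⟩
  rw [← hk, Matrix.trace, ← Finset.sum_filter]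
  exact Finset.sum_subtype _ (fun x => by rw [Finset.mem_filter]; simp) _

/-- The same for determinants. -/
theorem det_one {m L : ℕ} {p : ℕ → ℕ} (h : IsTrack m L p) (hG : Good m L p) (T Z : Finset ℕ)
    (K : ℕ) (e : ℕ → ℕ) (hK : 1 ≤ K) (he : ∀ s, e s = 1 ∨ e s = K) {w : ℕ} (hwT : w ∈ T) (hwZ : w ∈ Z)
    (s0 n : ℕ)
    (h1 : ((dmat m T (fun s => if s ∈ Z then (0 : ℤ) else 1) p s0
        (n * L)).toSquareBlockProp fun a => (a : ℕ) ∈ T ∧ ps p s0 w < ps p s0 a) = 1) :
    ∃ k : ℕ, ((dmat m T (fun s => if s ∈ Z then (0 : ℤ[X]) else X ^ e s) p s0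
        (n * L)).toSquareBlockProp fun a => (a : ℕ) ∈ T ∧ ps p s0 w < ps p s0 a).det = X ^ k := by
  have hB := wall_block h hG T Z K e hK he hwT hwZ s0 n
  rw [← rank_map T Z e s0 (n * L)] at h1
  exact rank_alg_det _ hB h1

end Pool.Agent.AMU
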