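import Pool.Agent.AMU0.Base

open Matrix

namespace Pool.Agent.AMU

/-- the case in which `V'` is disconnected -/
private lemma seins_key {α : Type*} (V : Finset α) (v : α) (hv : v ∈ V)
    (E : α → α → Prop) (hs : ∀ a b, E a b → E b a) (hV : 2 ≤ V.card)
    (hP : ∀ a ∈ V, ∀ b ∈ V, ∀ c ∈ V, ∀ d ∈ V, a ≠ b → b ≠ c → c ≠ d → a ≠ c → a ≠ d → b ≠ d →
      E a b → E b c → E c d → ¬ E a c → ¬ E a d → ¬ E b d → False)
    (A₀ : Finset α) (hA₀ : A₀ ⊆ V) (hvA₀ : v ∉ A₀) (hne : A₀.Nonempty)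
    (hne' : ∃ z ∈ V, z ≠ v ∧ z ∉ A₀)
    (hcl : ∀ a ∈ A₀, ∀ b ∈ V, b ≠ v → b ∉ A₀ → ¬ E a b) :
    (∃ A ⊆ V, A.Nonempty ∧ A ≠ V ∧ ∀ a ∈ A, ∀ b ∈ V, b ∉ A → ¬ E a b) ∨
      ∃ A ⊆ V, A.Nonempty ∧ A ≠ V ∧ ∀ a ∈ A, ∀ b ∈ V, b ∉ A → E a b := by
  classical
  by_contra hcon
  rw [not_or] at hcon
  obtain ⟨hc1, hc2⟩ := hcon
  -- `v` has a non-neighbour `x`
  have hx : ∃ x ∈ V, x ≠ v ∧ ¬ E v x := by
    by_contra hx
    apply hc2
    refine ⟨{v}, by simpa using hv, Finset.singleton_nonempty v, ?_, ?_⟩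
    · intro h
      rw [← h] at hV
      simp at hV
    · intro a ha b hb hb'
      rw [Finset.mem_singleton] at ha hb'
      subst ha
      by_contra h
      exact hx ⟨b, hb, hb', h⟩
  obtain ⟨x, hxV, hxv, hvx⟩ := hx
  -- closed sets which contain `x`
  let P : Finset α → Prop := fun A => A ⊆ V ∧ v ∉ A ∧ x ∈ A ∧ (∃ z ∈ V, z ≠ v ∧ z ∉ A) ∧
    ∀ a ∈ A, ∀ b ∈ V, b ≠ v → b ∉ A → ¬ E a b
  have hex : ∃ A, P A := by
    by_cases hxA : x ∈ A₀
    · exact ⟨A₀, hA₀, hvA₀, hxA, hne', hcl⟩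
    · refine ⟨(V.erase v) \ A₀, ?_, ?_, ?_, ?_, ?_⟩
      · exact Finset.sdiff_subset.trans (Finset.erase_subset _ _)
      · simp
      · simp [hxv, hxV, hxA]
      · obtain ⟨z, hz⟩ := hne
        refine ⟨z, hA₀ hz, ?_, ?_⟩
        · rintro rfl
          exact hvA₀ hz
        · simp [hz]
      · intro a ha b hb hbv hb'
        simp only [Finset.mem_sdiff, Finset.mem_erase] at ha hb'
        have hbA : b ∈ A₀ := by
          by_contra h
          exact hb' ⟨⟨hbv, hb⟩, h⟩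
        intro h
        exact hcl b hbA a ha.1.2 ha.1.1 ha.2 (hs _ _ h)
  have hmin : ∃ A, P A ∧ ∀ B, P B → A.card ≤ B.card := by
    have h1 : ∃ n, ∃ A, P A ∧ A.card = n := by
      obtain ⟨A, hA⟩ := hex
      exact ⟨A.card, A, hA, rfl⟩
    obtain ⟨A, hA, hA'⟩ := Nat.find_spec h1
    refine ⟨A, hA, fun B hB => ?_⟩
    rw [hA']
    exact Nat.find_min' h1 ⟨B, hB, rfl⟩
  obtain ⟨A, ⟨hAV, hvA, hxA, ⟨z₀, hz₀V, hz₀v, hz₀A⟩, hAcl⟩, hAmin⟩ := hmin
  -- a neighbour `y` of `v` in `A`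
  have hy : ∃ y ∈ A, E v y := by
    by_contra hy
    apply hc1
    refine ⟨A, hAV, ⟨x, hxA⟩, ?_, ?_⟩
    · rintro rfl
      exact hvA hv
    · intro a ha b hb hb' hE
      by_cases hbv : b = v
      · subst hbv
        exact hy ⟨a, ha, hs _ _ hE⟩
      · exact hAcl a ha b hb hbv hb' hE
  -- a neighbour `z` of `v` outside of `A`
  have hz : ∃ z ∈ V, z ≠ v ∧ z ∉ A ∧ E v z := by
    by_contra hz
    apply hc1
    refine ⟨(V.erase v) \ A, Finset.sdiff_subset.trans (Finset.erase_subset _ _),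
      ⟨z₀, by simp [hz₀V, hz₀v, hz₀A]⟩, ?_, ?_⟩
    · intro h
      rw [← h] at hv
      simp at hv
    · intro a ha b hb hb' hE
      simp only [Finset.mem_sdiff, Finset.mem_erase] at ha hb'
      by_cases hbv : b = v
      · subst hbv
        exact hz ⟨a, ha.1.2, ha.1.1, ha.2, hs _ _ hE⟩
      · have hbA : b ∈ A := by
          by_contra h
          exact hb' ⟨⟨hbv, hb⟩, h⟩
        exact hAcl b hbA a ha.1.2 ha.1.1 ha.2 (hs _ _ hE)
  obtain ⟨y, hyA, hvy⟩ := hy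
  obtain ⟨z, hzV, hzv, hzA, hvz⟩ := hz
  -- an edge from a non-neighbour to a neighbour in `A`
  have hedge : ∃ a ∈ A, ∃ b ∈ A, ¬ E v a ∧ E v b ∧ E a b := by
    by_contra hcon
    have hS : P (A.filter fun a => ¬ E v a) := by
      refine ⟨(Finset.filter_subset _ _).trans hAV, ?_, ?_, ?_, ?_⟩
      · intro h
        exact hvA (Finset.mem_filter.1 h).1
      · exact Finset.mem_filter.2 ⟨hxA, hvx⟩
      · exact ⟨z₀, hz₀V, hz₀v, fun h => hz₀A (Finset.mem_filter.1 h).1⟩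
      · intro a ha b hb hbv hb' hE
        obtain ⟨ha1, ha2⟩ := Finset.mem_filter.1 ha
        by_cases hbA : b ∈ A
        · have hvb : E v b := by
            by_contra h
            exact hb' (Finset.mem_filter.2 ⟨hbA, h⟩)
          exact hcon ⟨a, ha1, b, hbA, ha2, hvb, hE⟩
        · exact hAcl a ha1 b hb hbv hbA hE
    have h1 := hAmin _ hS
    have h2 : (A.filter fun a => ¬ E v a).card < A.card := by
      apply Finset.card_lt_card
      rw [Finset.ssubset_iff_subset_ne]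
      refine ⟨Finset.filter_subset _ _, fun h => ?_⟩
      rw [← h] at hyA
      exact (Finset.mem_filter.1 hyA).2 hvy
    omega
  obtain ⟨a, haA, b, hbA, hva, hvb, hab⟩ := hedge
  have hav : a ≠ v := fun h => hvA (h ▸ haA)
  have hbv : b ≠ v := fun h => hvA (h ▸ hbA)
  have hza : z ≠ a := fun h => hzA (h ▸ haA)
  have hzb : z ≠ b := fun h => hzA (h ▸ hbA)
  have hba : b ≠ a := fun h => hva (h ▸ hvb)
  exact hP z hzV v hv b (hAV hbA) a (hAV haA) hzv hbv.symm hba hzb hza hav.symm (hs _ _ hvz) hvb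
    (hs _ _ hab) (fun h => hAcl b hbA z hzV hzv hzA (hs _ _ h))
    (fun h => hAcl a haA z hzV hzv hzA (hs _ _ h)) hva

private lemma seins_ind {α : Type*} : ∀ (n : ℕ) (V : Finset α) (E : α → α → Prop),
    (∀ a b, E a b → E b a) → V.card = n + 2 →
    (∀ a ∈ V, ∀ b ∈ V, ∀ c ∈ V, ∀ d ∈ V, a ≠ b → b ≠ c → c ≠ d → a ≠ c → a ≠ d → b ≠ d →
      E a b → E b c → E c d → ¬ E a c → ¬ E a d → ¬ E b d → False) →
    (∃ A ⊆ V, A.Nonempty ∧ A ≠ V ∧ ∀ a ∈ A, ∀ b ∈ V, b ∉ A → ¬ E a b) ∨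
      ∃ A ⊆ V, A.Nonempty ∧ A ≠ V ∧ ∀ a ∈ A, ∀ b ∈ V, b ∉ A → E a b := by
  classical
  intro n
  induction n with
  | zero =>
    intro V E hs hV hP
    obtain ⟨a, b, hab, rfl⟩ := Finset.card_eq_two.1 hV
    have hne : ({a} : Finset α) ≠ {a, b} := by
      intro h
      have h1 := congrArg Finset.card h
      rw [Finset.card_singleton, Finset.card_pair hab] at h1
      omega
    have hsub : ({a} : Finset α) ⊆ {a, b} := by simp
    by_cases hE : E a b
    · right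
      refine ⟨{a}, hsub, Finset.singleton_nonempty a, hne, ?_⟩
      intro x hx y hy hy'
      simp only [Finset.mem_singleton, Finset.mem_insert] at hx hy hy'
      subst hx
      rcases hy with hy | hy
      · exact absurd hy hy'
      · rw [hy]
        exact hE
    · left
      refine ⟨{a}, hsub, Finset.singleton_nonempty a, hne, ?_⟩
      intro x hx y hy hy'
      simp only [Finset.mem_singleton, Finset.mem_insert] at hx hy hy'
      subst hx
      rcases hy with hy | hy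
      · exact absurd hy hy'
      · rw [hy]
        exact hE
  | succ n ih =>
    intro V E hs hV hP
    have hVne : V.Nonempty := by
      rw [← Finset.card_pos]
      omega
    obtain ⟨v, hv⟩ := hVne
    have hcard : (V.erase v).card = n + 2 := by
      rw [Finset.card_erase_of_mem hv]
      omega
    have hsub : V.erase v ⊆ V := Finset.erase_subset _ _
    have hout : ∀ A ⊆ V.erase v, A ≠ V.erase v → v ∉ A ∧ ∃ z ∈ V, z ≠ v ∧ z ∉ A := by
      intro A hA hA'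
      refine ⟨fun h => Finset.notMem_erase v V (hA h), ?_⟩
      by_contra hcon
      apply hA'
      apply Finset.Subset.antisymm hA
      intro z hz
      obtain ⟨h1, h2⟩ := Finset.mem_erase.1 hz
      by_contra h3
      exact hcon ⟨z, h2, h1, h3⟩
    rcases ih (V.erase v) E hs hcard (fun a ha b hb c hc d hd =>
      hP a (hsub ha) b (hsub hb) c (hsub hc) d (hsub hd)) with
      ⟨A, hA, hAne, hAne', hAcl⟩ | ⟨A, hA, hAne, hAne', hAcl⟩
    · obtain ⟨h1, h2⟩ := hout A hA hAne'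
      exact seins_key V v hv E hs (by omega) hP A (hA.trans hsub) h1 hAne h2
        (fun a ha b hb hbv hb' => hAcl a ha b (Finset.mem_erase.2 ⟨hbv, hb⟩) hb')
    · obtain ⟨h1, h2⟩ := hout A hA hAne'
      have h3 := seins_key V v hv (fun a b => ¬ E a b) (fun a b h h' => h (hs _ _ h')) (by omega)
        (fun a ha b hb c hc d hd hab hbc hcd hac had hbd e1 e2 e3 e4 e5 e6 =>
          hP c hc a ha d hd b hb hac.symm had hbd.symm hcd hbc.symm hab
            (hs _ _ (not_not.1 e4)) (not_not.1 e5) (hs _ _ (not_not.1 e6))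
            e3 (fun h => e2 (hs _ _ h)) e1)
        A (hA.trans hsub) h1 hAne h2
        (fun a ha b hb hbv hb' => not_not.2 (hAcl a ha b (Finset.mem_erase.2 ⟨hbv, hb⟩) hb'))
      rcases h3 with ⟨B, hB1, hB2, hB3, hB4⟩ | ⟨B, hB1, hB2, hB3, hB4⟩
      · exact Or.inr ⟨B, hB1, hB2, hB3, fun a ha b hb hb' => not_not.1 (hB4 a ha b hb hb')⟩
      · exact Or.inl ⟨B, hB1, hB2, hB3, hB4⟩

/-- `P_4`-free relations are disconnected or co-disconnected -/
theorem seinsche {α : Type*} (V : Finset α) (E : α → α → Prop) (hs : ∀ a b, E a b → E b a)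
    (hV : 2 ≤ V.card)
    (hP : ∀ a ∈ V, ∀ b ∈ V, ∀ c ∈ V, ∀ d ∈ V, a ≠ b → b ≠ c → c ≠ d → a ≠ c → a ≠ d → b ≠ d →
      E a b → E b c → E c d → ¬ E a c → ¬ E a d → ¬ E b d → False) :
    (∃ A ⊆ V, A.Nonempty ∧ A ≠ V ∧ ∀ a ∈ A, ∀ b ∈ V, b ∉ A → ¬ E a b) ∨
      ∃ A ⊆ V, A.Nonempty ∧ A ≠ V ∧ ∀ a ∈ A, ∀ b ∈ V, b ∉ A → E a b :=
  seins_ind (V.card - 2) V E hs (by omega) hP

end Pool.Agent.AMU
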