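import Pool.Agent.AMU0.Base

open Matrix

namespace Pool.Agent.AMU

variable {G : Type*} [Group G] {s : ℕ → G} {m : ℕ}

/-- a generator or its inverse -/
private def sort2G (s : ℕ → G) (e : Bool) (i : ℕ) : G := if e then s i else (s i)⁻¹

private theorem sort2_cons (s : ℕ → G) (b : ℕ) (e : Bool) (es : List Bool) :
    col s b (e :: es) = sort2G s e b * col s (b + 1) es := rfl

private theorem sort2_nil (s : ℕ → G) (b : ℕ) : col s b [] = 1 := rfl

private theorem sort2_commG {x : G} {i : ℕ} (h : Commute (s i) x) (e : Bool) :
    Commute (sort2G s e i) x := by
  cases e with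
  | true => exact h
  | false => exact h.inv_left

private theorem sort2_commG' {x : G} {i : ℕ} (h : Commute x (s i)) (e : Bool) :
    Commute x (sort2G s e i) := (sort2_commG h.symm e).symm

private theorem sort2_br {a b : G} (hab : a * b * a = b * a * b) (x y : Bool)
    (hxy : ¬ (x = true ∧ y = false)) :
    (if x then b else b⁻¹) * (if y then a else a⁻¹) * b =
      a * (if y then b else b⁻¹) * (if x then a else a⁻¹) := by
  cases x with
  | true =>
    cases y with
    | true => exact hab.symm
    | false => exact absurd ⟨rfl, rfl⟩ hxy
  | false =>
    cases y with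
    | true =>
      show b⁻¹ * a * b = a * b * a⁻¹
      calc b⁻¹ * a * b = b⁻¹ * (a * b * a) * a⁻¹ := by group
        _ = b⁻¹ * (b * a * b) * a⁻¹ := by rw [hab]
        _ = a * b * a⁻¹ := by group
    | false =>
      show b⁻¹ * a⁻¹ * b = a * b⁻¹ * a⁻¹
      calc b⁻¹ * a⁻¹ * b = a * (a * b * a)⁻¹ * b := by group
        _ = a * (b * a * b)⁻¹ * b := by rw [hab]
        _ = a * b⁻¹ * a⁻¹ := by group

theorem col_append (s : ℕ → G) (b : ℕ) (u v : List Bool) :
    col s b (u ++ v) = col s b u * col s (b + u.length) v := by
  induction u generalizing b with
  | nil => rw [List.nil_append, sort2_nil, one_mul, List.length_nil, add_zero]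
  | cons e u ih =>
    rw [List.cons_append, sort2_cons, sort2_cons, ih (b + 1), mul_assoc, List.length_cons]
    have e1 : b + 1 + u.length = b + (u.length + 1) := by omega
    rw [e1]

private theorem sort2_snoc (s : ℕ → G) (b : ℕ) (u : List Bool) (e : Bool) :
    col s b (u ++ [e]) = col s b u * sort2G s e (b + u.length) := by
  rw [col_append, sort2_cons, sort2_nil, mul_one]

/-- columns commute with far generators -/
theorem col_far (h : BrRel s m) {b j : ℕ} {es : List Bool} (hb : b + es.length + 1 ≤ m)
    (hj : j + 1 < m) (hj' : j + 1 < b ∨ b + es.length + 1 ≤ j) : Commute (col s b es) (s j) := by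
  induction es generalizing b with
  | nil =>
    rw [sort2_nil]
    exact Commute.one_left _
  | cons e es ih =>
    rw [sort2_cons]
    rw [List.length_cons] at hb hj'
    refine Commute.mul_left (sort2_commG ?_ e) (ih (by omega) (by omega))
    rcases hj' with h1 | h1
    · exact (h.1 j b (by omega) (by omega)).symm
    · exact h.1 b j (by omega) (by omega)

/-- two columns cross -/
theorem col_col (h : BrRel s m) (b : ℕ) (ex ey : List Bool) (hl : ex.length = ey.length)
    (hb : b + ex.length + 2 ≤ m)
    (hok : ∀ i : ℕ, ¬ (ex[i]? = some true ∧ ey[i]? = some false)) :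
    col s (b + 1) ex * col s b ey * s (b + ex.length) =
      s b * (col s (b + 1) ey * col s b ex) := by
  induction ex using List.reverseRecOn generalizing ey with
  | nil =>
    have hy : ey = [] := List.length_eq_zero_iff.mp (by rw [← hl]; rfl)
    subst hy
    simp [sort2_nil]
  | append_singleton ex x ih =>
    rw [List.length_append, List.length_singleton] at hl hb
    rcases List.eq_nil_or_concat ey with hy | ⟨ey', y, hy⟩
    · subst hy
      rw [List.length_nil] at hl
      omega
    · rw [List.concat_eq_append] at hy
      subst hy
      rw [List.length_append, List.length_singleton] at hl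
      have hl' : ex.length = ey'.length := by omega
      have hxy : ¬ (x = true ∧ y = false) := by
        rintro ⟨h1, h2⟩
        refine hok ex.length ⟨?_, ?_⟩
        · rw [List.getElem?_append_right le_rfl, Nat.sub_self, h1]
          rfl
        · rw [hl', List.getElem?_append_right le_rfl, Nat.sub_self, h2]
          rfl
      have hok' : ∀ i : ℕ, ¬ (ex[i]? = some true ∧ ey'[i]? = some false) := by
        rintro i ⟨h1, h2⟩
        obtain ⟨hi, _⟩ := List.getElem?_eq_some_iff.mp h1
        obtain ⟨hi', _⟩ := List.getElem?_eq_some_iff.mp h2
        refine hok i ⟨?_, ?_⟩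
        · rw [List.getElem?_append_left hi, h1]
        · rw [List.getElem?_append_left hi', h2]
      have IH := ih ey' hl' (by omega) hok'
      have hrel := h.2 (b + ex.length) (by omega)
      have hbr := sort2_br hrel x y hxy
      have hbr' : sort2G s x (b + ex.length + 1) * sort2G s y (b + ex.length) *
          s (b + ex.length + 1) =
          s (b + ex.length) * sort2G s y (b + ex.length + 1) * sort2G s x (b + ex.length) := hbr
      have e1 : b + 1 + ex.length = b + ex.length + 1 := by omega
      have e2 : b + (ex ++ [x]).length = b + ex.length + 1 := by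
        rw [List.length_append, List.length_singleton]
        omega
      rw [e2, sort2_snoc, sort2_snoc, sort2_snoc, sort2_snoc, ← hl', e1]
      have c1 : Commute (col s b ey') (sort2G s x (b + ex.length + 1)) :=
        sort2_commG' (col_far h (by omega) (by omega) (Or.inr (by omega))) x
      have c2 : Commute (col s b ex) (sort2G s y (b + ex.length + 1)) :=
        sort2_commG' (col_far h (by omega) (by omega) (Or.inr (by omega))) y
      calc col s (b + 1) ex * sort2G s x (b + ex.length + 1) *
            (col s b ey' * sort2G s y (b + ex.length)) * s (b + ex.length + 1)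
          = col s (b + 1) ex * (sort2G s x (b + ex.length + 1) * col s b ey') *
              sort2G s y (b + ex.length) * s (b + ex.length + 1) := by simp only [mul_assoc]
        _ = col s (b + 1) ex * (col s b ey' * sort2G s x (b + ex.length + 1)) *
              sort2G s y (b + ex.length) * s (b + ex.length + 1) := by rw [c1.eq]
        _ = col s (b + 1) ex * col s b ey' * (sort2G s x (b + ex.length + 1) *
              sort2G s y (b + ex.length) * s (b + ex.length + 1)) := by simp only [mul_assoc]
        _ = col s (b + 1) ex * col s b ey' * (s (b + ex.length) *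
              sort2G s y (b + ex.length + 1) * sort2G s x (b + ex.length)) := by rw [hbr']
        _ = (col s (b + 1) ex * col s b ey' * s (b + ex.length)) *
              sort2G s y (b + ex.length + 1) * sort2G s x (b + ex.length) := by
            simp only [mul_assoc]
        _ = (s b * (col s (b + 1) ey' * col s b ex)) *
              sort2G s y (b + ex.length + 1) * sort2G s x (b + ex.length) := by rw [IH]
        _ = s b * (col s (b + 1) ey' * (col s b ex * sort2G s y (b + ex.length + 1)) *
              sort2G s x (b + ex.length)) := by simp only [mul_assoc]
        _ = s b * (col s (b + 1) ey' * (sort2G s y (b + ex.length + 1) * col s b ex) *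
              sort2G s x (b + ex.length)) := by rw [c2.eq]
        _ = s b * (col s (b + 1) ey' * sort2G s y (b + ex.length + 1) *
              (col s b ex * sort2G s x (b + ex.length))) := by simp only [mul_assoc]

/-- a crossing inside the block passes a column -/
theorem col_slide (h : BrRel s m) (b : ℕ) (u v : List Bool) (ex ey : Bool)
    (hb : b + u.length + v.length + 3 ≤ m) (hok : ¬ (ex = false ∧ ey = true)) :
    col s b (u ++ ey :: ex :: v) * s (b + u.length) =
      s (b + u.length + 1) * col s b (u ++ ex :: ey :: v) := by
  rw [col_append, col_append, sort2_cons, sort2_cons, sort2_cons, sort2_cons]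
  have c1 : Commute (col s (b + u.length + 1 + 1) v) (s (b + u.length)) :=
    col_far h (by omega) (by omega) (Or.inl (by omega))
  have c2 : Commute (col s b u) (s (b + u.length + 1)) :=
    col_far h (by omega) (by omega) (Or.inr (by omega))
  have hrel := h.2 (b + u.length) (by omega)
  have hbr := sort2_br hrel.symm ey ex (fun hh => hok ⟨hh.2, hh.1⟩)
  have hbr' : sort2G s ey (b + u.length) * sort2G s ex (b + u.length + 1) * s (b + u.length) =
      s (b + u.length + 1) * sort2G s ex (b + u.length) * sort2G s ey (b + u.length + 1) := hbr
  calc col s b u * (sort2G s ey (b + u.length) * (sort2G s ex (b + u.length + 1) *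
        col s (b + u.length + 1 + 1) v)) * s (b + u.length)
      = col s b u * (sort2G s ey (b + u.length) * sort2G s ex (b + u.length + 1)) *
          (col s (b + u.length + 1 + 1) v * s (b + u.length)) := by simp only [mul_assoc]
    _ = col s b u * (sort2G s ey (b + u.length) * sort2G s ex (b + u.length + 1)) *
          (s (b + u.length) * col s (b + u.length + 1 + 1) v) := by rw [c1.eq]
    _ = col s b u * (sort2G s ey (b + u.length) * sort2G s ex (b + u.length + 1) *
          s (b + u.length)) * col s (b + u.length + 1 + 1) v := by simp only [mul_assoc]
    _ = col s b u * (s (b + u.length + 1) * sort2G s ex (b + u.length) *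
          sort2G s ey (b + u.length + 1)) * col s (b + u.length + 1 + 1) v := by rw [hbr']
    _ = (col s b u * s (b + u.length + 1)) * (sort2G s ex (b + u.length) *
          (sort2G s ey (b + u.length + 1) * col s (b + u.length + 1 + 1) v)) := by
        simp only [mul_assoc]
    _ = (s (b + u.length + 1) * col s b u) * (sort2G s ex (b + u.length) *
          (sort2G s ey (b + u.length + 1) * col s (b + u.length + 1 + 1) v)) := by rw [c2.eq]
    _ = s (b + u.length + 1) * (col s b u * (sort2G s ex (b + u.length) *
          (sort2G s ey (b + u.length + 1) * col s (b + u.length + 1 + 1) v))) := by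
        simp only [mul_assoc]

end Pool.Agent.AMU
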