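import Pool.Agent.AMU0.Sort2

open Matrix

namespace Pool.Agent.AMU

variable {G : Type*} [Group G] {s : ℕ → G} {m : ℕ} {R : Finset ℕ} {eps eps' : ℕ → ℕ → Bool}
  {P : List ℕ}

private lemma strl_append (x : ℕ) :
    srt s R eps (P ++ [x]) = sst s R eps (srt s R eps P) x := by
  simp [srt, List.foldl_append]

theorem srt_in {x : ℕ} (hx : x ∈ R) :
    srt s R eps (P ++ [x]) = ((srt s R eps P).1, (srt s R eps P).2.1 ++ [x], (srt s R eps P).2.2) := by
  rw [strl_append, sst, if_pos hx]

theorem srt_out {x : ℕ} (hx : x ∉ R) :
    srt s R eps (P ++ [x]) = ((srt s R eps P).1 + 1, (srt s R eps P).2.1,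
      col s (srt s R eps P).1 ((srt s R eps P).2.1.map (eps x)) * (srt s R eps P).2.2) := by
  rw [strl_append, sst, if_neg hx]

theorem srt_list : (srt s R eps P).2.1 = P.filter (· ∈ R) := by
  induction P using List.reverseRecOn with
  | nil => simp [srt]
  | append_singleton P x ih =>
    by_cases hx : x ∈ R
    · rw [srt_in hx, List.filter_append]
      simp [ih, hx]
    · rw [srt_out hx, List.filter_append]
      simp [ih, hx]

theorem srt_length : (srt s R eps P).1 + (srt s R eps P).2.1.length = P.length := by
  induction P using List.reverseRecOn with
  | nil => simp [srt]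
  | append_singleton P x ih =>
    by_cases hx : x ∈ R
    · rw [srt_in hx]
      simp only [List.length_append, List.length_singleton]
      omega
    · rw [srt_out hx]
      simp only [List.length_append, List.length_singleton]
      omega

/-- the sorting braid commutes with the generators beyond the list -/
theorem srt_far (h : BrRel s m) {j : ℕ} (hj : P.length ≤ j) (hj' : j + 1 < m) :
    Commute (srt s R eps P).2.2 (s j) := by
  induction P using List.reverseRecOn with
  | nil => exact Commute.one_left _
  | append_singleton P x ih =>
    simp only [List.length_append, List.length_singleton] at hj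
    have ih' := ih (by omega)
    by_cases hx : x ∈ R
    · rw [srt_in hx]
      exact ih'
    · rw [srt_out hx]
      have hlen := srt_length (s := s) (R := R) (eps := eps) (P := P)
      refine Commute.mul_left (col_far h ?_ hj' (Or.inr ?_)) ih'
      · rw [List.length_map]
        omega
      · rw [List.length_map]
        omega

/-- only the signs of `n ∉ R` and `r ∈ R` with `r` before `n` in the list matter -/
theorem srt_congr (h : ∀ n r, n ∉ R → r ∈ R → List.Sublist [r, n] P → eps' n r = eps n r) :
    srt s R eps' P = srt s R eps P := by
  induction P using List.reverseRecOn with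
  | nil => rfl
  | append_singleton P x ih =>
    have ih' := ih fun n r hn hr hs => h n r hn hr (hs.trans (List.sublist_append_left _ _))
    by_cases hx : x ∈ R
    · rw [srt_in hx, srt_in hx, ih']
    · rw [srt_out hx, srt_out hx, ih']
      have hmap : (srt s R eps P).2.1.map (eps' x) = (srt s R eps P).2.1.map (eps x) := by
        refine List.map_congr_left fun r hr => ?_
        rw [srt_list, List.mem_filter] at hr
        refine h x r hx (by simpa using hr.2) ?_
        have h1 : List.Sublist [r] P := List.singleton_sublist.2 hr.1
        exact h1.append (List.Sublist.refl [x])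
      rw [hmap]

end Pool.Agent.AMU
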