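import Pool.Agent.AMU0.StrW
import Pool.Agent.AMU0.Trk

open Matrix

namespace Pool.Agent.AMU

/-- the position of the first wall -/
noncomputable def fp (p : ℕ → ℕ) (W : Finset ℕ) (t : ℕ) : ℕ := sInf {x | ∃ w ∈ W, ps p t w = x}

/-- the strands to the left of all walls, from the left to the right -/
noncomputable def lstr (p : ℕ → ℕ) (W : Finset ℕ) (t : ℕ) : List ℕ :=
  (List.range (fp p W t)).map (conf p t)

/-- the sorting braid at time `t` -/
noncomputable def gam {G : Type*} [Group G] (s : ℕ → G) (p : ℕ → ℕ) (R W : Finset ℕ)
    (eps : ℕ → ℕ → ℕ → Bool) (t : ℕ) : ℕ × List ℕ × G := srt s R (eps t) (lstr p W t)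

/-! ### auxiliary lemmas -/

private lemma strs_fp_mem {p : ℕ → ℕ} {W : Finset ℕ} (hWn : W.Nonempty) (t : ℕ) :
    ∃ w ∈ W, ps p t w = fp p W t := by
  obtain ⟨w, hw⟩ := hWn
  have h : (sInf {x | ∃ w ∈ W, ps p t w = x}) ∈ {x | ∃ w ∈ W, ps p t w = x} :=
    Nat.sInf_mem ⟨ps p t w, w, hw, rfl⟩
  exact h

private lemma strs_fp_le {p : ℕ → ℕ} {W : Finset ℕ} {w : ℕ} (hw : w ∈ W) (t : ℕ) :
    fp p W t ≤ ps p t w := Nat.sInf_le ⟨w, hw, rfl⟩

private lemma strs_fp_eq {p : ℕ → ℕ} {W : Finset ℕ} {t K w0 : ℕ} (hw0 : w0 ∈ W)
    (h0 : ps p t w0 = K) (h : ∀ w ∈ W, K ≤ ps p t w) : fp p W t = K := by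
  obtain ⟨w, hw, hw'⟩ := strs_fp_mem ⟨w0, hw0⟩ (p := p) t
  have h1 := strs_fp_le hw0 (p := p) t
  have h2 := h w hw
  omega

private lemma strs_inP {p : ℕ → ℕ} {W : Finset ℕ} (hWn : W.Nonempty) {t n : ℕ} :
    inP p W t n ↔ ps p t n < fp p W t := by
  constructor
  · intro h
    obtain ⟨w, hw, hw'⟩ := strs_fp_mem hWn (p := p) t
    rw [← hw']
    exact h w hw
  · intro h w hw
    exact lt_of_lt_of_le h (strs_fp_le hw t)

private lemma strs_mem {p : ℕ → ℕ} {t K n : ℕ} :
    n ∈ (List.range K).map (conf p t) ↔ ps p t n < K := by
  rw [List.mem_map]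
  constructor
  · rintro ⟨a, ha, rfl⟩
    rw [ps_conf]
    exact List.mem_range.1 ha
  · intro h
    exact ⟨ps p t n, List.mem_range.2 h, conf_ps p t n⟩

private lemma strs_pair {p : ℕ → ℕ} {t K : ℕ} :
    ((List.range K).map (conf p t)).Pairwise (fun a b => ps p t a < ps p t b) := by
  rw [List.pairwise_map]
  refine List.Pairwise.imp ?_ (List.pairwise_lt_range (n := K))
  intro a b hab
  rw [ps_conf, ps_conf]
  exact hab

private lemma strs_nodup {p : ℕ → ℕ} {t K : ℕ} : ((List.range K).map (conf p t)).Nodup :=
  (List.nodup_range).map (conf p t).injective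

private lemma strs_sub {p : ℕ → ℕ} {t K r n : ℕ}
    (h : List.Sublist [r, n] ((List.range K).map (conf p t))) :
    ps p t r < ps p t n ∧ ps p t n < K := by
  constructor
  · have h1 := (strs_pair (p := p) (t := t) (K := K)).sublist h
    rw [List.pairwise_pair] at h1
    exact h1
  · exact strs_mem.1 (h.subset (by simp))

private lemma strs_conf {p : ℕ → ℕ} {t j : ℕ} (h1 : j ≠ p t) (h2 : j ≠ p t + 1) :
    conf p (t + 1) j = conf p t j := by
  show conf p t (Equiv.swap (p t) (p t + 1) j) = _
  rw [Equiv.swap_apply_of_ne_of_ne h1 h2]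

private lemma strs_map {p : ℕ → ℕ} {t K : ℕ} (h : K ≤ p t) :
    (List.range K).map (conf p (t + 1)) = (List.range K).map (conf p t) := by
  refine List.map_congr_left fun a ha => ?_
  have := List.mem_range.1 ha
  exact strs_conf (by omega) (by omega)

private lemma strs_ps {p : ℕ → ℕ} {t n : ℕ} (h : ps p t n < p t) :
    ps p (t + 1) n = ps p t n := by
  rw [ps_succ, Equiv.swap_apply_of_ne_of_ne]
  · omega
  · omega

private lemma strs_range {k F : ℕ} (h : k + 1 < F) :
    List.range F = List.range k ++ k :: (k + 1) :: List.range' (k + 2) (F - k - 2) := by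
  obtain ⟨n, rfl⟩ : ∃ n, F = k + (n + 2) := ⟨F - k - 2, by omega⟩
  rw [show k + (n + 2) - k - 2 = n by omega, List.range_eq_range', List.range_eq_range',
    ← List.range'_append_1, Nat.zero_add]
  rfl

section
variable {G : Type*} [Group G] {s : ℕ → G} {m L t : ℕ} {p : ℕ → ℕ} {R W : Finset ℕ}
  {eps : ℕ → ℕ → ℕ → Bool}

private lemma strs_filter {K : ℕ} (hR : ∀ r ∈ R, ps p t r < K) :
    (((List.range K).map (conf p t)).filter (· ∈ R)).length = R.card := by
  have h1 : (((List.range K).map (conf p t)).filter (· ∈ R)).Nodup := strs_nodup.filter _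
  rw [← List.toFinset_card_of_nodup h1]
  congr 1
  ext r
  rw [List.mem_toFinset, List.mem_filter]
  constructor
  · rintro ⟨_, h⟩
    simpa using h
  · intro h
    exact ⟨strs_mem.2 (hR r h), by simpa using h⟩

/-- the parts of the two lists to the left of the crossing -/
private lemma strs_congr (h : IsTrack m L p) (hs : StrH m p R W eps t) (hWn : W.Nonempty)
    {K : ℕ} (h1 : K ≤ p t) (h2 : K ≤ fp p W t) (h3 : K ≤ fp p W (t + 1)) :
    srt s R (eps (t + 1)) ((List.range K).map (conf p t)) =
      srt s R (eps t) ((List.range K).map (conf p t)) := by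
  refine srt_congr fun n r hn hr hsub => ?_
  obtain ⟨h4, h5⟩ := strs_sub hsub
  have h6 : ps p (t + 1) n = ps p t n := strs_ps (by omega)
  have h7 : ps p (t + 1) r = ps p t r := strs_ps (by omega)
  have h8 := h.lt t
  refine hs.keep n r ((ps_lt h t n).1 (by omega)) hn hr ((strs_inP hWn).2 (by omega))
    ((strs_inP hWn).2 (by omega)) h4 (by omega)

theorem gam_per (h : IsTrack m L p) (he : ∀ n r, eps (t + L) n r = eps t n r) :
    gam s p R W eps (t + L) = gam s p R W eps t := by
  have h1 : conf p (t + L) = conf p t := conf_add h t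
  have h2 : fp p W (t + L) = fp p W t := by
    unfold fp ps
    rw [h1]
  have h3 : lstr p W (t + L) = lstr p W t := by
    unfold lstr
    rw [h2, h1]
  have h4 : eps (t + L) = eps t := by
    funext n r
    exact he n r
  unfold gam
  rw [h3, h4]

theorem gam_card (h : IsTrack m L p) (hW : ∀ w ∈ W, w < m) (hWn : W.Nonempty)
    (hl : ∀ r ∈ R, ∀ w ∈ W, ps p t r < ps p t w) :
    (gam s p R W eps t).1 + R.card = fp p W t ∧ fp p W t < m := by
  constructor
  · have h1 := srt_length (s := s) (R := R) (eps := eps t) (P := lstr p W t)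
    rw [srt_list] at h1
    have h2 : ((lstr p W t).filter (· ∈ R)).length = R.card :=
      strs_filter (fun r hr => (strs_inP hWn).1 (hl r hr))
    rw [h2] at h1
    have h3 : (lstr p W t).length = fp p W t := by
      unfold lstr
      simp
    rw [h3] at h1
    exact h1
  · obtain ⟨w, hw, hw'⟩ := strs_fp_mem hWn (p := p) t
    rw [← hw', ps_lt h]
    exact hW w hw

/-- one crossing -/
theorem gam_step (hB : BrRel s m) (h : IsTrack m L p) (hW : ∀ w ∈ W, w < m) (hWn : W.Nonempty)
    (hl : ∀ t, ∀ r ∈ R, ∀ w ∈ W, ps p t r < ps p t w) (hs : StrH m p R W eps t) :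
    (∃ g : G, (gam s p R W eps (t + 1)).1 = (gam s p R W eps t).1 ∧
      (gam s p R W eps (t + 1)).2.2 * s (p t) = g * (gam s p R W eps t).2.2 ∧
      (g = 1 ∨ ∃ j, g = s j ∧ j + 1 < m ∧ (j + 1 < (gam s p R W eps t).1 ∨
        ((gam s p R W eps t).1 ≤ j ∧ j + 1 < (gam s p R W eps t).1 + R.card) ∨
        (gam s p R W eps t).1 + R.card < j ∨
        (j = (gam s p R W eps t).1 + R.card ∧ ∃ a ∈ W, ∃ b ∈ W, ev p t a b)))) ∨
    (∃ a ∈ W, ∃ b, b ∉ R ∧ b ∉ W ∧ ev p t a b ∧ inP p W (t + 1) b ∧
      (gam s p R W eps (t + 1)).1 = (gam s p R W eps t).1 + 1 ∧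
      ∃ l : List ℕ, l.length = R.card ∧ (∀ r ∈ l, r ∈ R) ∧
        (gam s p R W eps (t + 1)).2.2 * s (p t) = col s (gam s p R W eps t).1
          (l.map (eps (t + 1) b)) * (s ((gam s p R W eps t).1 + R.card) * (gam s p R W eps t).2.2)) ∨
    (∃ a, a ∉ R ∧ a ∉ W ∧ ∃ b ∈ W, ev p t a b ∧ inP p W t a ∧
      (gam s p R W eps t).1 = (gam s p R W eps (t + 1)).1 + 1 ∧
      ∃ l : List ℕ, l.length = R.card ∧ (∀ r ∈ l, r ∈ R) ∧
        (gam s p R W eps (t + 1)).2.2 * s (p t) = s ((gam s p R W eps (t + 1)).1 + R.card) *
          ((col s (gam s p R W eps (t + 1)).1 (l.map (eps t a)))⁻¹ * (gam s p R W eps t).2.2)) := by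
  obtain ⟨hc1, hF⟩ := gam_card (s := s) (eps := eps) h hW hWn (hl t)
  obtain ⟨hc2, hF'⟩ := gam_card (s := s) (eps := eps) h hW hWn (hl (t + 1))
  have hkm := h.lt t
  have he := ev_self p t
  obtain ⟨hx, hy⟩ := ev_ps.1 he
  set x := conf p t (p t) with hxdef
  set y := conf p t (p t + 1) with hydef
  obtain ⟨w0, hw0, hw0'⟩ := strs_fp_mem hWn (p := p) t
  have hxy := ev_ne he
  -- walls other than `x` and `y` do not move
  have hmv : ∀ w, w ≠ x → w ≠ y → ps p (t + 1) w = ps p t w := fun w h1 h2 => ps_succ_ne he h1 h2
  have hxs := ps_succ_left he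
  have hys := ps_succ_right he
  have hlen : ∀ K, ((List.range K).map (conf p t)).length = K := fun K => by simp
  rcases lt_trichotomy (p t) (fp p W t) with hlt | heq | hgt
  · rcases Nat.lt_or_ge (p t + 1) (fp p W t) with hlt2 | hge
    · -- both strands are to the left of the walls
      have hw0x : w0 ≠ x := by
        intro h1
        rw [h1] at hw0'
        omega
      have hw0y : w0 ≠ y := by
        intro h1
        rw [h1] at hw0'
        omega
      have hFF : fp p W (t + 1) = fp p W t := by
        refine strs_fp_eq hw0 ?_ ?_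
        · rw [hmv w0 hw0x hw0y, hw0']
        · intro w hw
          have h1 := strs_fp_le hw (p := p) t
          have h2 : w ≠ x := by
            intro h3
            rw [h3] at h1
            omega
          have h4 : w ≠ y := by
            intro h3
            rw [h3] at h1
            omega
          rw [hmv w h2 h4]
          exact h1
      have hl1 : lstr p W t = (List.range (p t)).map (conf p t) ++ x :: y ::
          (List.range' (p t + 2) (fp p W t - p t - 2)).map (conf p t) := by
        unfold lstr
        rw [strs_range hlt2, List.map_append, List.map_cons, List.map_cons]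
      have hl2 : lstr p W (t + 1) = (List.range (p t)).map (conf p t) ++ y :: x ::
          (List.range' (p t + 2) (fp p W t - p t - 2)).map (conf p t) := by
        unfold lstr
        rw [hFF, strs_range hlt2, List.map_append, List.map_cons, List.map_cons,
          strs_map le_rfl]
        congr 1
        congr 1
        · show conf p t (Equiv.swap (p t) (p t + 1) (p t)) = _
          rw [Equiv.swap_apply_left]
        · congr 1
          · show conf p t (Equiv.swap (p t) (p t + 1) (p t + 1)) = _
            rw [Equiv.swap_apply_right]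
          · refine List.map_congr_left fun a ha => ?_
            rw [List.mem_range'_1] at ha
            exact strs_conf (by omega) (by omega)
      have hin : ∀ n, n ∈ lstr p W t → inP p W t n := fun n hn =>
        (strs_inP hWn).2 (strs_mem.1 hn)
      have hxP : inP p W t x := (strs_inP hWn).2 (by omega)
      have hyP : inP p W t y := (strs_inP hWn).2 (by omega)
      have hnd := strs_nodup (p := p) (t := t) (K := fp p W t)
      change (lstr p W t).Nodup at hnd
      have hpair := strs_pair (p := p) (t := t) (K := fp p W t)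
      change (lstr p W t).Pairwise _ at hpair
      have hll : (lstr p W t).length = fp p W t := hlen _
      have key := srt_swap (s := s) (m := m) (R := R) (eps := eps t) (eps' := eps (t + 1)) hB
        (A := (List.range (p t)).map (conf p t))
        (B := (List.range' (p t + 2) (fp p W t - p t - 2)).map (conf p t)) (x := x) (y := y)
        (by rw [← hl1]; exact hnd) (by rw [← hl1, hll]; omega)
        (by
          rw [← hl1, ← hl2]
          intro n r hn hr h1 h2
          obtain ⟨h3, h4⟩ := strs_sub h1
          obtain ⟨h5, h6⟩ := strs_sub h2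
          exact hs.keep n r ((ps_lt h t n).1 (by omega)) hn hr ((strs_inP hWn).2 (by omega))
            ((strs_inP hWn).2 (by omega)) h3 h5)
        (by
          intro hxR hyR n hn hnR
          have hn1 : n ∈ lstr p W t := by
            rw [hl1]
            simp only [List.mem_append, List.mem_cons]
            exact Or.inr (Or.inr (Or.inr hn))
          have hn2 : ps p t y < ps p t n := by
            obtain ⟨a, ha, rfl⟩ := List.mem_map.1 hn
            rw [List.mem_range'_1] at ha
            have h1 : ps p t (conf p t a) = a := ps_conf _ _ _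
            omega
          have hnm : n < m := by
            have h1 := strs_mem.1 hn1
            exact (ps_lt h t n).1 (by omega)
          exact hs.rr x y n he hxR hyR hnm hnR (hin n hn1) hn2)
        (by
          intro hxR hyR r hr hrR
          have hr2 : ps p t r < ps p t x := by
            have h1 := strs_mem.1 hr
            omega
          exact hs.nn x y r he hxR hyR hrR hxP hyP hr2)
        (fun hxR hyR => hs.nr x y he hxR hyR hxP) (fun hxR hyR => hs.rn x y he hxR hyR hyP)
      rw [← hl1, ← hl2, hlen] at key
      obtain ⟨k1, g, k2, k3⟩ := key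
      left
      refine ⟨g, k1, k2, ?_⟩
      rcases k3 with k3 | ⟨j, rfl, k4 | ⟨k4, k5⟩⟩
      · exact Or.inl k3
      · refine Or.inr ⟨j, rfl, ?_, Or.inl k4⟩
        change j + 1 < (gam s p R W eps t).1 at k4
        omega
      · refine Or.inr ⟨j, rfl, ?_, Or.inr (Or.inl ⟨k4, ?_⟩)⟩
        · rw [hll] at k5
          omega
        · rw [hll] at k5
          omega
    · -- `x` leaves
      have hfp : fp p W t = p t + 1 := by omega
      have hyW : y ∈ W := by
        have h1 : w0 = y := ps_inj (hw0'.trans (hfp.trans hy.symm))
        rw [← h1]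
        exact hw0
      have hxW : x ∉ W := by
        intro h1
        have h2 := strs_fp_le h1 (p := p) t
        omega
      have hxR : x ∉ R := by
        intro h1
        have h2 := hl (t + 1) x h1 y hyW
        omega
      have hfp' : fp p W (t + 1) = p t := by
        refine strs_fp_eq hyW hys ?_
        intro w hw
        by_cases h1 : w = y
        · rw [h1, hys]
        · have h2 : w ≠ x := fun h3 => hxW (h3 ▸ hw)
          rw [hmv w h2 h1]
          have h3 := strs_fp_le hw (p := p) t
          omega
      have hl1 : lstr p W t = (List.range (p t)).map (conf p t) ++ [x] := by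
        unfold lstr
        rw [hfp, List.range_succ, List.map_append]
        rfl
      have hl2 : lstr p W (t + 1) = (List.range (p t)).map (conf p t) := by
        unfold lstr
        rw [hfp', strs_map le_rfl]
      have hg1 : gam s p R W eps (t + 1) =
          srt s R (eps t) ((List.range (p t)).map (conf p t)) := by
        unfold gam
        rw [hl2]
        exact strs_congr h hs hWn le_rfl (by omega) (by omega)
      have hg2 : gam s p R W eps t = ((gam s p R W eps (t + 1)).1 + 1,
          (gam s p R W eps (t + 1)).2.1,
          col s (gam s p R W eps (t + 1)).1 ((gam s p R W eps (t + 1)).2.1.map (eps t x)) *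
            (gam s p R W eps (t + 1)).2.2) := by
        rw [hg1]
        show srt s R (eps t) (lstr p W t) = _
        rw [hl1, srt_out hxR]
      have hcomm : Commute (gam s p R W eps (t + 1)).2.2 (s (p t)) := by
        rw [hg1]
        exact srt_far hB (by rw [hlen]) hkm
      have hlist : (gam s p R W eps (t + 1)).2.1 =
          ((List.range (p t)).map (conf p t)).filter (· ∈ R) := by
        rw [hg1, srt_list]
      right
      right
      refine ⟨x, hxR, hxW, y, hyW, he, (strs_inP hWn).2 (by omega), by rw [hg2],
        (gam s p R W eps (t + 1)).2.1, ?_, ?_, ?_⟩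
      · rw [hlist]
        refine strs_filter fun r hr => ?_
        have h1 := hl t r hr y hyW
        have h2 : r ≠ x := fun h3 => hxR (h3 ▸ hr)
        have h3 : ps p t r ≠ ps p t x := fun h4 => h2 (ps_inj h4)
        omega
      · intro r hr
        rw [hlist, List.mem_filter] at hr
        simpa using hr.2
      · rw [hcomm.eq, show (gam s p R W eps (t + 1)).1 + R.card = p t by omega]
        conv_rhs => rw [hg2]
        rw [inv_mul_cancel_left]
  · -- `x` is the first wall
    have hxW : x ∈ W := by
      have h1 : w0 = x := ps_inj (hw0'.trans (heq.symm.trans hx.symm))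
      rw [← h1]
      exact hw0
    have hcomm : Commute (gam s p R W eps t).2.2 (s (p t)) := by
      refine srt_far hB ?_ hkm
      show ((List.range (fp p W t)).map (conf p t)).length ≤ _
      rw [hlen]
      omega
    by_cases hyW : y ∈ W
    · have hFF : fp p W (t + 1) = fp p W t := by
        refine strs_fp_eq hyW (by rw [hys]; exact heq) ?_
        intro w hw
        by_cases h1 : w = y
        · rw [h1, hys]
          exact heq.ge
        · by_cases h2 : w = x
          · rw [h2, hxs]
            omega
          · rw [hmv w h2 h1]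
            exact strs_fp_le hw t
      have hll : lstr p W (t + 1) = lstr p W t := by
        unfold lstr
        rw [hFF, strs_map heq.ge]
      have hg : gam s p R W eps (t + 1) = gam s p R W eps t := by
        unfold gam
        rw [hll]
        exact strs_congr h hs hWn heq.ge le_rfl (by omega)
      left
      refine ⟨s (p t), by rw [hg], by rw [hg]; exact hcomm.eq,
        Or.inr ⟨p t, rfl, hkm, Or.inr (Or.inr (Or.inr ⟨by omega, x, hxW, y, hyW, he⟩))⟩⟩
    · have hyR : y ∉ R := by
        intro h1
        have h2 := hl t y h1 x hxW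
        omega
      have hfp' : fp p W (t + 1) = p t + 1 := by
        refine strs_fp_eq hxW hxs ?_
        intro w hw
        by_cases h2 : w = x
        · rw [h2, hxs]
        · have h1 : w ≠ y := fun h3 => hyW (h3 ▸ hw)
          rw [hmv w h2 h1]
          have h3 := strs_fp_le hw (p := p) t
          have h4 : ps p t w ≠ ps p t x := fun h5 => h2 (ps_inj h5)
          omega
      have hl2 : lstr p W (t + 1) = lstr p W t ++ [y] := by
        unfold lstr
        rw [hfp', List.range_succ, List.map_append, strs_map le_rfl, ← heq]
        congr 1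
        show [conf p t (Equiv.swap (p t) (p t + 1) (p t))] = _
        rw [Equiv.swap_apply_left]
      have hg1 : srt s R (eps (t + 1)) (lstr p W t) = gam s p R W eps t :=
        strs_congr h hs hWn heq.ge le_rfl (by omega)
      have hg2 : gam s p R W eps (t + 1) = ((gam s p R W eps t).1 + 1,
          (gam s p R W eps t).2.1,
          col s (gam s p R W eps t).1 ((gam s p R W eps t).2.1.map (eps (t + 1) y)) *
            (gam s p R W eps t).2.2) := by
        show srt s R (eps (t + 1)) (lstr p W (t + 1)) = _
        rw [hl2, srt_out hyR, hg1]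
      have hlist : (gam s p R W eps t).2.1 = (lstr p W t).filter (· ∈ R) := srt_list
      right
      left
      refine ⟨x, hxW, y, hyR, hyW, he, (strs_inP hWn).2 (by omega), by rw [hg2],
        (gam s p R W eps t).2.1, ?_, ?_, ?_⟩
      · rw [hlist]
        refine strs_filter fun r hr => ?_
        have h1 := hl t r hr x hxW
        omega
      · intro r hr
        rw [hlist, List.mem_filter] at hr
        simpa using hr.2
      · conv_lhs => rw [hg2]
        rw [mul_assoc, hcomm.eq, show (gam s p R W eps t).1 + R.card = p t by omega]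
  · -- to the right of the first wall
    have hcomm : Commute (gam s p R W eps t).2.2 (s (p t)) := by
      refine srt_far hB ?_ hkm
      show ((List.range (fp p W t)).map (conf p t)).length ≤ _
      rw [hlen]
      omega
    have hw0x : w0 ≠ x := by
      intro h1
      rw [h1] at hw0'
      omega
    have hw0y : w0 ≠ y := by
      intro h1
      rw [h1] at hw0'
      omega
    have hFF : fp p W (t + 1) = fp p W t := by
      refine strs_fp_eq hw0 ?_ ?_
      · rw [hmv w0 hw0x hw0y, hw0']
      · intro w hw
        by_cases h1 : w = y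
        · rw [h1, hys]
          omega
        · by_cases h2 : w = x
          · rw [h2, hxs]
            omega
          · rw [hmv w h2 h1]
            exact strs_fp_le hw t
    have hll : lstr p W (t + 1) = lstr p W t := by
      unfold lstr
      rw [hFF, strs_map hgt.le]
    have hg : gam s p R W eps (t + 1) = gam s p R W eps t := by
      unfold gam
      rw [hll]
      exact strs_congr h hs hWn hgt.le le_rfl (by omega)
    left
    refine ⟨s (p t), by rw [hg], by rw [hg]; exact hcomm.eq,
      Or.inr ⟨p t, rfl, hkm, Or.inr (Or.inr (Or.inl (by omega)))⟩⟩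

end

end Pool.Agent.AMU
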