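import Pool.Agent.AMU0.StrL

open Matrix

namespace Pool.Agent.AMU

section strw

variable {G : Type*} [Group G] {s : ℕ → G} {m : ℕ} {R : Finset ℕ} {eps eps' : ℕ → ℕ → Bool}
  {A B : List ℕ} {x y : ℕ}

private lemma strw_snoc (A B : List ℕ) (x y n : ℕ) :
    A ++ x :: y :: (B ++ [n]) = (A ++ x :: y :: B) ++ [n] := by simp

private lemma strw_two (A : List ℕ) (x y : ℕ) : A ++ [x, y] = (A ++ [x]) ++ [y] := by simp

private lemma strw_len (A B : List ℕ) (x y : ℕ) :
    (A ++ x :: y :: B).length = A.length + B.length + 2 := by
  simp only [List.length_append, List.length_cons]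
  omega

private lemma strw_col1 (s : ℕ → G) (b : ℕ) (u : List Bool) (e : Bool) :
    col s b (u ++ [e]) = col s b u * (if e then s (b + u.length) else (s (b + u.length))⁻¹) := by
  rw [col_append]
  simp [col]

/-- the signs of the part `A` agree -/
private lemma strw_congA
    (hcong : ∀ n r, n ∉ R → r ∈ R → List.Sublist [r, n] (A ++ x :: y :: B) →
      List.Sublist [r, n] (A ++ y :: x :: B) → eps' n r = eps n r) :
    srt s R eps' A = srt s R eps A :=
  srt_congr fun n r hn hr hs => hcong n r hn hr (hs.trans (List.sublist_append_left _ _))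
    (hs.trans (List.sublist_append_left _ _))

/-- the signs of a later strand -/
private lemma strw_map {z : ℕ} (hz : z ∈ x :: y :: B) (hz' : z ∈ y :: x :: B) (hzR : z ∉ R)
    (hcong : ∀ n r, n ∉ R → r ∈ R → List.Sublist [r, n] (A ++ x :: y :: B) →
      List.Sublist [r, n] (A ++ y :: x :: B) → eps' n r = eps n r) :
    (srt s R eps A).2.1.map (eps' z) = (srt s R eps A).2.1.map (eps z) := by
  refine List.map_congr_left fun r hr => ?_
  rw [srt_list, List.mem_filter] at hr
  have h1 : List.Sublist [r] A := List.singleton_sublist.2 hr.1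
  exact hcong z r hzR (by simpa using hr.2) (h1.append (List.singleton_sublist.2 hz))
    (h1.append (List.singleton_sublist.2 hz'))

/-- the base of the first three cases -/
private lemma strw_base (h : BrRel s m) (hlen : A.length + 2 ≤ m)
    (hcong : ∀ n r, n ∉ R → r ∈ R → List.Sublist [r, n] (A ++ x :: y :: B) →
      List.Sublist [r, n] (A ++ y :: x :: B) → eps' n r = eps n r)
    (hnr : x ∉ R → y ∈ R → eps' x y = false) (hrn : x ∈ R → y ∉ R → eps y x = true)
    (hne : ¬ (x ∉ R ∧ y ∉ R)) (hne' : ¬ (x ∈ R ∧ y ∈ R)) :
    (srt s R eps' (A ++ [y, x])).1 = (srt s R eps (A ++ [x, y])).1 ∧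
    (srt s R eps' (A ++ [y, x])).2.1 = (srt s R eps (A ++ [x, y])).2.1 ∧
    (srt s R eps' (A ++ [y, x])).2.2 * s A.length = (srt s R eps (A ++ [x, y])).2.2 := by
  have hA : srt s R eps' A = srt s R eps A := strw_congA hcong
  have hfar : Commute (srt s R eps A).2.2 (s A.length) := srt_far h le_rfl (by omega)
  have hl : (srt s R eps A).1 + (srt s R eps A).2.1.length = A.length := srt_length
  by_cases hx : x ∈ R
  · have hy : y ∉ R := fun hy => hne' ⟨hx, hy⟩
    have hm := strw_map (s := s) (eps := eps) (eps' := eps') (A := A) (B := B) (x := x) (y := y)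
      (z := y) (by simp) (by simp) hy hcong
    rw [strw_two, strw_two, srt_in hx, srt_out hy, srt_out hy, srt_in hx, hA]
    refine ⟨rfl, rfl, ?_⟩
    simp only [List.map_append, List.map_cons, List.map_nil]
    rw [strw_col1, hrn hx hy, List.length_map, hl, if_pos rfl, hm, mul_assoc, mul_assoc, hfar.eq]
  · have hy : y ∈ R := by
      by_contra hy
      exact hne ⟨hx, hy⟩
    have hm := strw_map (s := s) (eps := eps) (eps' := eps') (A := A) (B := B) (x := x) (y := y)
      (z := x) (by simp) (by simp) hx hcong
    rw [strw_two, strw_two, srt_in hy, srt_out hx, srt_out hx, srt_in hy, hA]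
    refine ⟨rfl, rfl, ?_⟩
    simp only [List.map_append, List.map_cons, List.map_nil]
    rw [strw_col1, hnr hx hy, List.length_map, hl, if_neg (by simp), hm, mul_assoc, hfar.eq]
    group

/-- the first three cases -/
private lemma strw_mixed (h : BrRel s m) (hlen : A.length + B.length + 2 ≤ m)
    (hcong : ∀ n r, n ∉ R → r ∈ R → List.Sublist [r, n] (A ++ x :: y :: B) →
      List.Sublist [r, n] (A ++ y :: x :: B) → eps' n r = eps n r)
    (hnr : x ∉ R → y ∈ R → eps' x y = false) (hrn : x ∈ R → y ∉ R → eps y x = true)
    (hne : ¬ (x ∉ R ∧ y ∉ R)) (hne' : ¬ (x ∈ R ∧ y ∈ R)) :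
    (srt s R eps' (A ++ y :: x :: B)).1 = (srt s R eps (A ++ x :: y :: B)).1 ∧
    (srt s R eps' (A ++ y :: x :: B)).2.1 = (srt s R eps (A ++ x :: y :: B)).2.1 ∧
    (srt s R eps' (A ++ y :: x :: B)).2.2 * s A.length = (srt s R eps (A ++ x :: y :: B)).2.2 := by
  induction B using List.reverseRecOn with
  | nil => exact strw_base h (by simpa using hlen) hcong hnr hrn hne hne'
  | append_singleton B n ih =>
    simp only [List.length_append, List.length_singleton] at hlen
    have hsub : ∀ a b : ℕ, List.Sublist (A ++ a :: b :: B) (A ++ a :: b :: (B ++ [n])) := by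
      intro a b
      rw [strw_snoc]
      exact List.sublist_append_left _ _
    obtain ⟨h1, h2, h3⟩ := ih (by omega) fun n' r hn hr hs hs' =>
      hcong n' r hn hr (hs.trans (hsub x y)) (hs'.trans (hsub y x))
    rw [strw_snoc, strw_snoc] at *
    by_cases hn : n ∈ R
    · rw [srt_in hn, srt_in hn, h2]
      exact ⟨h1, rfl, h3⟩
    · have hm : (srt s R eps (A ++ x :: y :: B)).2.1.map (eps' n) =
          (srt s R eps (A ++ x :: y :: B)).2.1.map (eps n) := by
        refine List.map_congr_left fun r hr => ?_
        rw [srt_list, List.mem_filter] at hr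
        have hr1 : r ∈ A ++ y :: x :: B := by
          have := hr.1
          simp only [List.mem_append, List.mem_cons] at this ⊢
          tauto
        exact hcong n r hn (by simpa using hr.2)
          ((List.singleton_sublist.2 hr.1).append (List.Sublist.refl [n]))
          ((List.singleton_sublist.2 hr1).append (List.Sublist.refl [n]))
      rw [srt_out hn, srt_out hn, h1, h2, hm]
      refine ⟨rfl, rfl, ?_⟩
      show (_ * _) * _ = _ * _
      rw [mul_assoc, h3]

/-- two strands outside `R` -/
private lemma strw_nn (h : BrRel s m) (hlen : A.length + B.length + 2 ≤ m)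
    (hcong : ∀ n r, n ∉ R → r ∈ R → List.Sublist [r, n] (A ++ x :: y :: B) →
      List.Sublist [r, n] (A ++ y :: x :: B) → eps' n r = eps n r)
    (hnn : ∀ r ∈ A, r ∈ R → ¬ (eps x r = true ∧ eps y r = false)) (hx : x ∉ R) (hy : y ∉ R) :
    (srt s R eps' (A ++ y :: x :: B)).1 = (srt s R eps (A ++ x :: y :: B)).1 ∧
    (srt s R eps' (A ++ y :: x :: B)).2.1 = (srt s R eps (A ++ x :: y :: B)).2.1 ∧
    (srt s R eps A).1 + 2 ≤ (srt s R eps (A ++ x :: y :: B)).1 ∧
    (srt s R eps' (A ++ y :: x :: B)).2.2 * s A.length =
      s (srt s R eps A).1 * (srt s R eps (A ++ x :: y :: B)).2.2 := by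
  induction B using List.reverseRecOn with
  | nil =>
    have hA : srt s R eps' A = srt s R eps A := strw_congA hcong
    have hfar : Commute (srt s R eps A).2.2 (s A.length) :=
      srt_far h le_rfl (by simp at hlen; omega)
    have hl : (srt s R eps A).1 + (srt s R eps A).2.1.length = A.length := srt_length
    have hmx := strw_map (s := s) (eps := eps) (eps' := eps') (A := A) (B := []) (x := x) (y := y)
      (z := x) (by simp) (by simp) hx hcong
    have hmy := strw_map (s := s) (eps := eps) (eps' := eps') (A := A) (B := []) (x := x) (y := y)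
      (z := y) (by simp) (by simp) hy hcong
    rw [strw_two, strw_two, srt_out hx, srt_out hy, srt_out hy, srt_out hx, hA]
    refine ⟨rfl, rfl, le_rfl, ?_⟩
    simp only
    rw [hmx, hmy]
    have hcc := col_col h (srt s R eps A).1 ((srt s R eps A).2.1.map (eps x))
      ((srt s R eps A).2.1.map (eps y)) (by simp)
      (by rw [List.length_map, hl]; simp at hlen; omega) ?_
    · rw [List.length_map, hl] at hcc
      calc _ = (col s ((srt s R eps A).1 + 1) ((srt s R eps A).2.1.map (eps x)) *
            col s (srt s R eps A).1 ((srt s R eps A).2.1.map (eps y))) *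
              ((srt s R eps A).2.2 * s A.length) := by group
        _ = (col s ((srt s R eps A).1 + 1) ((srt s R eps A).2.1.map (eps x)) *
            col s (srt s R eps A).1 ((srt s R eps A).2.1.map (eps y)) * s A.length) *
              (srt s R eps A).2.2 := by rw [hfar.eq]; group
        _ = _ := by rw [hcc]; group
    · intro i hi
      obtain ⟨hi1, hi2⟩ := hi
      rw [List.getElem?_map] at hi1 hi2
      cases hri : (srt s R eps A).2.1[i]? with
      | none => rw [hri] at hi1; simp at hi1
      | some r =>
        rw [hri] at hi1 hi2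
        simp only [Option.map_some, Option.some.injEq] at hi1 hi2
        have hr := List.mem_of_getElem? hri
        rw [srt_list, List.mem_filter] at hr
        exact hnn r hr.1 (by simpa using hr.2) ⟨hi1, hi2⟩
  | append_singleton B n ih =>
    simp only [List.length_append, List.length_singleton] at hlen
    have hsub : ∀ a b : ℕ, List.Sublist (A ++ a :: b :: B) (A ++ a :: b :: (B ++ [n])) := by
      intro a b
      rw [strw_snoc]
      exact List.sublist_append_left _ _
    obtain ⟨h1, h2, h4, h3⟩ := ih (by omega) fun n' r hn hr hs hs' =>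
      hcong n' r hn hr (hs.trans (hsub x y)) (hs'.trans (hsub y x))
    rw [strw_snoc, strw_snoc] at *
    by_cases hn : n ∈ R
    · rw [srt_in hn, srt_in hn, h2]
      exact ⟨h1, rfl, h4, h3⟩
    · have hm : (srt s R eps (A ++ x :: y :: B)).2.1.map (eps' n) =
          (srt s R eps (A ++ x :: y :: B)).2.1.map (eps n) := by
        refine List.map_congr_left fun r hr => ?_
        rw [srt_list, List.mem_filter] at hr
        have hr1 : r ∈ A ++ y :: x :: B := by
          have := hr.1
          simp only [List.mem_append, List.mem_cons] at this ⊢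
          tauto
        exact hcong n r hn (by simpa using hr.2)
          ((List.singleton_sublist.2 hr.1).append (List.Sublist.refl [n]))
          ((List.singleton_sublist.2 hr1).append (List.Sublist.refl [n]))
      have hl : (srt s R eps (A ++ x :: y :: B)).1 +
          (srt s R eps (A ++ x :: y :: B)).2.1.length = (A ++ x :: y :: B).length := srt_length
      rw [strw_len] at hl
      have hcf : Commute (col s (srt s R eps (A ++ x :: y :: B)).1
          ((srt s R eps (A ++ x :: y :: B)).2.1.map (eps n))) (s (srt s R eps A).1) := by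
        refine col_far h ?_ (by omega) (Or.inl (by omega))
        rw [List.length_map]
        omega
      rw [srt_out hn, srt_out hn, h1, h2, hm]
      refine ⟨rfl, rfl, ?_, ?_⟩
      · show _ ≤ _ + 1
        omega
      show (_ * _) * _ = _ * (_ * _)
      rw [mul_assoc, h3, ← mul_assoc, hcf.eq, mul_assoc]

/-- two strands in `R` -/
private lemma strw_rr (h : BrRel s m) (hlen : A.length + B.length + 2 ≤ m)
    (hcong : ∀ n r, n ∉ R → r ∈ R → List.Sublist [r, n] (A ++ x :: y :: B) →
      List.Sublist [r, n] (A ++ y :: x :: B) → eps' n r = eps n r)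
    (hrr : ∀ n ∈ B, n ∉ R → ¬ (eps n x = false ∧ eps n y = true)) (hx : x ∈ R) (hy : y ∈ R) :
    (srt s R eps' (A ++ y :: x :: B)).1 = (srt s R eps (A ++ x :: y :: B)).1 ∧
    (srt s R eps' (A ++ y :: x :: B)).2.2 *
      s A.length = s ((srt s R eps (A ++ x :: y :: B)).1 + (srt s R eps A).2.1.length) *
        (srt s R eps (A ++ x :: y :: B)).2.2 := by
  induction B using List.reverseRecOn with
  | nil =>
    have hA : srt s R eps' A = srt s R eps A := strw_congA hcong
    have hfar : Commute (srt s R eps A).2.2 (s A.length) :=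
      srt_far h le_rfl (by simp at hlen; omega)
    have hl : (srt s R eps A).1 + (srt s R eps A).2.1.length = A.length := srt_length
    rw [strw_two, strw_two, srt_in hx, srt_in hy, srt_in hy, srt_in hx, hA]
    refine ⟨rfl, ?_⟩
    show _ = s ((srt s R eps A).1 + (srt s R eps A).2.1.length) * _
    rw [hl]
    exact hfar.eq
  | append_singleton B n ih =>
    simp only [List.length_append, List.length_singleton] at hlen
    have hsub : ∀ a b : ℕ, List.Sublist (A ++ a :: b :: B) (A ++ a :: b :: (B ++ [n])) := by
      intro a b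
      rw [strw_snoc]
      exact List.sublist_append_left _ _
    obtain ⟨h1, h3⟩ := ih (by omega) (fun n' r hn hr hs hs' =>
      hcong n' r hn hr (hs.trans (hsub x y)) (hs'.trans (hsub y x)))
      fun n' hn' => hrr n' (by simp [hn'])
    rw [strw_snoc, strw_snoc] at *
    by_cases hn : n ∈ R
    · rw [srt_in hn, srt_in hn]
      exact ⟨h1, h3⟩
    · have hl : (srt s R eps (A ++ x :: y :: B)).1 +
          (srt s R eps (A ++ x :: y :: B)).2.1.length = (A ++ x :: y :: B).length := srt_length
      rw [strw_len] at hl
      have hL1 : (srt s R eps (A ++ x :: y :: B)).2.1 =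
          A.filter (· ∈ R) ++ x :: y :: B.filter (· ∈ R) := by
        rw [srt_list, List.filter_append, List.filter_cons_of_pos (by simpa using hx),
          List.filter_cons_of_pos (by simpa using hy)]
      have hL2 : (srt s R eps' (A ++ y :: x :: B)).2.1 =
          A.filter (· ∈ R) ++ y :: x :: B.filter (· ∈ R) := by
        rw [srt_list, List.filter_append, List.filter_cons_of_pos (by simpa using hy),
          List.filter_cons_of_pos (by simpa using hx)]
      have hm : (srt s R eps' (A ++ y :: x :: B)).2.1.map (eps' n) =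
          (srt s R eps' (A ++ y :: x :: B)).2.1.map (eps n) := by
        refine List.map_congr_left fun r hr => ?_
        rw [srt_list, List.mem_filter] at hr
        have hr1 : r ∈ A ++ x :: y :: B := by
          have := hr.1
          simp only [List.mem_append, List.mem_cons] at this ⊢
          tauto
        exact hcong n r hn (by simpa using hr.2)
          ((List.singleton_sublist.2 hr1).append (List.Sublist.refl [n]))
          ((List.singleton_sublist.2 hr.1).append (List.Sublist.refl [n]))
      rw [srt_out hn, srt_out hn, hm, h1, hL1, hL2]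
      refine ⟨rfl, ?_⟩
      show (_ * _) * _ = s (_ + 1 + _) * (_ * _)
      rw [srt_list] at h3 ⊢
      rw [mul_assoc, h3]
      simp only [List.map_append, List.map_cons]
      have hlen2 : (srt s R eps (A ++ x :: y :: B)).1 + ((A.filter (· ∈ R)).length +
          ((B.filter (· ∈ R)).length + 2)) = A.length + B.length + 2 := by
        rw [hL1] at hl
        simp only [List.length_append, List.length_cons] at hl
        omega
      have hcs := col_slide h (srt s R eps (A ++ x :: y :: B)).1
        ((A.filter (· ∈ R)).map (eps n)) ((B.filter (· ∈ R)).map (eps n)) (eps n x) (eps n y)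
        (by rw [List.length_map, List.length_map]; omega) (hrr n (by simp) hn)
      rw [List.length_map] at hcs
      rw [← mul_assoc, hcs]
      rw [show (srt s R eps (A ++ x :: y :: B)).1 + (A.filter (· ∈ R)).length + 1 =
        (srt s R eps (A ++ x :: y :: B)).1 + 1 + (A.filter (· ∈ R)).length by omega]
      rw [mul_assoc]

end strw

/-- a crossing of two neighbouring strands of the list -/
theorem srt_swap {G : Type*} [Group G] {s : ℕ → G} {m : ℕ} {R : Finset ℕ}
    {eps eps' : ℕ → ℕ → Bool} (h : BrRel s m) {A B : List ℕ} {x y : ℕ}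
    (hnd : (A ++ x :: y :: B).Nodup) (hlen : (A ++ x :: y :: B).length ≤ m)
    (hcong : ∀ n r, n ∉ R → r ∈ R → List.Sublist [r, n] (A ++ x :: y :: B) →
      List.Sublist [r, n] (A ++ y :: x :: B) → eps' n r = eps n r)
    (hrr : x ∈ R → y ∈ R → ∀ n ∈ B, n ∉ R → ¬ (eps n x = false ∧ eps n y = true))
    (hnn : x ∉ R → y ∉ R → ∀ r ∈ A, r ∈ R → ¬ (eps x r = true ∧ eps y r = false))
    (hnr : x ∉ R → y ∈ R → eps' x y = false) (hrn : x ∈ R → y ∉ R → eps y x = true) :
    (srt s R eps' (A ++ y :: x :: B)).1 = (srt s R eps (A ++ x :: y :: B)).1 ∧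
    ∃ g : G, (srt s R eps' (A ++ y :: x :: B)).2.2 * s A.length =
        g * (srt s R eps (A ++ x :: y :: B)).2.2 ∧
      (g = 1 ∨ ∃ j, g = s j ∧ (j + 1 < (srt s R eps (A ++ x :: y :: B)).1 ∨
        ((srt s R eps (A ++ x :: y :: B)).1 ≤ j ∧ j + 1 < (A ++ x :: y :: B).length))) := by
  rw [strw_len] at hlen
  by_cases hx : x ∈ R
  · by_cases hy : y ∈ R
    · obtain ⟨h1, h2⟩ := strw_rr h hlen hcong (hrr hx hy) hx hy
      refine ⟨h1, _, h2, Or.inr ⟨_, rfl, Or.inr ⟨Nat.le_add_right _ _, ?_⟩⟩⟩
      have hl : (srt s R eps (A ++ x :: y :: B)).1 +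
          (srt s R eps (A ++ x :: y :: B)).2.1.length = (A ++ x :: y :: B).length := srt_length
      have hL1 : (srt s R eps (A ++ x :: y :: B)).2.1 =
          A.filter (· ∈ R) ++ x :: y :: B.filter (· ∈ R) := by
        rw [srt_list, List.filter_append, List.filter_cons_of_pos (by simpa using hx),
          List.filter_cons_of_pos (by simpa using hy)]
      rw [hL1] at hl
      simp only [List.length_append, List.length_cons] at hl
      rw [srt_list]
      simp only [List.length_append, List.length_cons]
      omega
    · obtain ⟨h1, _, h2⟩ := strw_mixed h hlen hcong hnr hrn (fun h => h.1 hx) (fun h => hy h.2)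
      exact ⟨h1, 1, by rw [one_mul]; exact h2, Or.inl rfl⟩
  · by_cases hy : y ∈ R
    · obtain ⟨h1, _, h2⟩ := strw_mixed h hlen hcong hnr hrn (fun h => h.2 hy) (fun h => hx h.1)
      exact ⟨h1, 1, by rw [one_mul]; exact h2, Or.inl rfl⟩
    · obtain ⟨h1, _, h3, h2⟩ := strw_nn h hlen hcong (hnn hx hy) hx hy
      exact ⟨h1, _, h2, Or.inr ⟨_, rfl, Or.inl (by omega)⟩⟩

end Pool.Agent.AMU
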