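import Pool.Agent.AMU0.Mono

open Matrix Polynomial

namespace Pool.Agent.AMU

/-- the Graeffe transform: a monic polynomial whose roots are the squares of the roots -/
private lemma topGraeffe {R : Type*} [CommRing R] [IsDomain R] (P : R[X]) (hP : P.Monic) :
    ∃ Q : R[X], Q.Monic ∧ Q.natDegree = P.natDegree ∧
      expand R 2 Q = (-1) ^ P.natDegree * (P * P.comp (-X)) := by
  have hPd : P = expand R 2 (contract 2 P) + X * expand R 2 (contract 2 (divX P)) := by
    ext n
    rcases Nat.even_or_odd' n with ⟨k, hk | hk⟩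
    · subst hk
      rw [coeff_add, mul_comm 2 k, coeff_expand_mul (by norm_num), coeff_contract (by norm_num)]
      rcases Nat.eq_zero_or_pos k with h0 | h0
      · subst h0
        simp
      · obtain ⟨j, rfl⟩ : ∃ j, k = j + 1 := ⟨k - 1, by omega⟩
        have e1 : (j + 1) * 2 = (2 * j + 1) + 1 := by ring
        rw [e1, coeff_X_mul, coeff_expand (by norm_num), if_neg (by omega), add_zero]
    · subst hk
      rw [coeff_add, coeff_expand (by norm_num), if_neg (by omega), zero_add, coeff_X_mul,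
        mul_comm 2 k, coeff_expand_mul (by norm_num), coeff_contract (by norm_num), coeff_divX]
  set E := contract 2 P with hE
  set O := contract 2 (divX P) with hO
  have hcE : (expand R 2 E).comp (-X) = expand R 2 E := by
    rw [expand_eq_comp_X_pow, comp_assoc]
    simp
  have hcO : (expand R 2 O).comp (-X) = expand R 2 O := by
    rw [expand_eq_comp_X_pow, comp_assoc]
    simp
  have hPn : P.comp (-X) = expand R 2 E - X * expand R 2 O := by
    conv_lhs => rw [hPd]
    rw [add_comp, mul_comp, hcE, hcO, X_comp]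
    ring
  have hprod : P * P.comp (-X) = expand R 2 (E ^ 2 - X * O ^ 2) := by
    rw [hPn]
    conv_lhs => rw [hPd]
    rw [map_sub, map_mul, map_pow, map_pow, expand_X]
    ring
  refine ⟨(-1) ^ P.natDegree * (E ^ 2 - X * O ^ 2), ?_, ?_, ?_⟩
  all_goals
    have hexp : expand R 2 ((-1) ^ P.natDegree * (E ^ 2 - X * O ^ 2)) =
        (-1) ^ P.natDegree * (P * P.comp (-X)) := by
      rw [map_mul, map_pow, map_neg, map_one, hprod]
  · have hm := hP.mul hP.neg_one_pow_natDegree_mul_comp_neg_X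
    have h1 : P * ((-1) ^ P.natDegree * P.comp (-X)) =
        expand R 2 ((-1) ^ P.natDegree * (E ^ 2 - X * O ^ 2)) := by
      rw [hexp]; ring
    rw [h1] at hm
    have h2 := hm.leadingCoeff
    rw [leadingCoeff_expand (by norm_num)] at h2
    exact h2
  · have h1 : P * ((-1) ^ P.natDegree * P.comp (-X)) =
        expand R 2 ((-1) ^ P.natDegree * (E ^ 2 - X * O ^ 2)) := by
      rw [hexp]; ring
    have h2 : (P * ((-1) ^ P.natDegree * P.comp (-X))).natDegree = P.natDegree + P.natDegree := by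
      rw [hP.natDegree_mul hP.neg_one_pow_natDegree_mul_comp_neg_X]
      congr 1
      have h3 : ((-1 : R[X]) ^ P.natDegree * P.comp (-X)).natDegree = (P.comp (-X)).natDegree := by
        have h4 : ((-1 : R[X]) ^ P.natDegree) = C ((-1) ^ P.natDegree) := by simp
        rw [h4]
        apply natDegree_C_mul_of_isUnit
        exact (isUnit_one.neg).pow _
      rw [h3]
      have h5 := natDegree_comp (p := P) (q := -X)
      rw [h5]
      simp
    rw [h1, natDegree_expand] at h2
    omega
  · exact hexp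

/-- the invariant of the iteration -/
private def topG (P : ℤ[X][X][X]) (d r : ℕ) (c : ℤ[X]) : Prop :=
  P.Monic ∧ P.natDegree = d ∧
    (∀ q t : ℂ, ‖q‖ = 1 → ‖t‖ = 1 → ∀ l, (P.map (ev2 q t)).IsRoot l → ‖l‖ = 1) ∧
    X ^ r ∣ P.map (Polynomial.evalRingHom (0 : ℤ[X])) ∧
    ((P.map (Polynomial.evalRingHom (0 : ℤ[X]))).coeff r = c ∨
      (P.map (Polynomial.evalRingHom (0 : ℤ[X]))).coeff r = -c)

private lemma topG_step {P : ℤ[X][X][X]} {d r : ℕ} {c : ℤ[X]} (h : topG P d r c) :
    ∃ Q, topG Q d r (c ^ 2) := by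
  obtain ⟨hP, hd, hU, hX, hc⟩ := h
  obtain ⟨Q, hQ, hQd, hQe⟩ := topGraeffe P hP
  refine ⟨Q, hQ, by rw [hQd, hd], ?_, ?_⟩
  · intro q t hq ht l hl
    obtain ⟨z, hz⟩ : ∃ z : ℂ, z ^ 2 = l := IsAlgClosed.exists_pow_nat_eq l (by norm_num)
    have h1 := congrArg (fun p => (p.map (ev2 q t)).eval z) hQe
    simp only [Polynomial.map_mul, Polynomial.map_pow, Polynomial.map_neg, Polynomial.map_one,
      map_expand, expand_eval, Polynomial.map_comp, map_X, eval_mul, eval_comp, eval_neg,
      eval_X, eval_pow, eval_one] at h1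
    rw [hz, hl.eq_zero] at h1
    have h2 : eval z (P.map (ev2 q t)) = 0 ∨ eval (-z) (P.map (ev2 q t)) = 0 := by
      rcases mul_eq_zero.1 h1.symm with h3 | h3
      · exact absurd h3 (pow_ne_zero _ (by norm_num))
      · exact mul_eq_zero.1 h3
    have h4 : ‖z‖ = 1 := by
      rcases h2 with h3 | h3
      · exact hU q t hq ht z h3
      · have := hU q t hq ht (-z) h3
        rwa [norm_neg] at this
    rw [← hz, norm_pow, h4, one_pow]
  · set P0 := P.map (Polynomial.evalRingHom (0 : ℤ[X])) with hP0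
    set Q0 := Q.map (Polynomial.evalRingHom (0 : ℤ[X])) with hQ0
    have he : expand ℤ[X] 2 Q0 = (-1) ^ P.natDegree * (P0 * P0.comp (-X)) := by
      have := congrArg (Polynomial.map (Polynomial.evalRingHom (0 : ℤ[X]))) hQe
      simpa only [Polynomial.map_mul, Polynomial.map_pow, Polynomial.map_neg, Polynomial.map_one,
        map_expand, Polynomial.map_comp, map_X] using this
    obtain ⟨S, hS⟩ := hX
    have he2 : expand ℤ[X] 2 Q0 =
        X ^ (r * 2) * ((-1) ^ P.natDegree * (-1) ^ r * (S * S.comp (-X))) := by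
      rw [he, hS, mul_comp, pow_comp, X_comp, neg_pow (X : ℤ[X][X]) r]
      ring
    have hS0 : P0.coeff r = S.coeff 0 := by
      rw [hS, coeff_X_pow_mul', if_pos le_rfl, Nat.sub_self]
    constructor
    · rw [X_pow_dvd_iff]
      intro k hk
      rw [← coeff_expand_mul (p := 2) (by norm_num) Q0 k, he2, coeff_X_pow_mul',
        if_neg (by omega)]
    · have h1 : Q0.coeff r = (-1) ^ P.natDegree * (-1) ^ r * (S.coeff 0 * S.coeff 0) := by
        rw [← coeff_expand_mul (p := 2) (by norm_num) Q0 r, he2, coeff_X_pow_mul',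
          if_pos le_rfl, Nat.sub_self, coeff_zero_eq_eval_zero]
        simp only [eval_mul, eval_pow, eval_neg, eval_one, eval_comp, eval_X, neg_zero]
        rw [coeff_zero_eq_eval_zero]
      have h2 : S.coeff 0 * S.coeff 0 = c ^ 2 := by
        rw [← hS0]
        rcases hc with h | h <;> rw [h] <;> ring
      rw [h1, h2, ← pow_add]
      rcases neg_one_pow_eq_or ℤ[X] (P.natDegree + r) with h | h <;> rw [h]
      · left; ring
      · right; ring

private lemma topG_iter {P : ℤ[X][X][X]} {d r : ℕ} {c : ℤ[X]} (h : topG P d r c) (k : ℕ) :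
    ∃ Q, topG Q d r (c ^ 2 ^ k) := by
  induction k with
  | zero => exact ⟨P, by simpa using h⟩
  | succ k ih =>
    obtain ⟨Q, hQ⟩ := ih
    obtain ⟨Q', hQ'⟩ := topG_step hQ
    refine ⟨Q', ?_⟩
    rwa [← pow_mul, ← pow_succ] at hQ'

/-- the maximum modulus principle on the unit disc for a polynomial -/
private lemma top_max (g : ℂ[X]) (B : ℝ) (h : ∀ t : ℂ, ‖t‖ = 1 → ‖g.eval t‖ ≤ B) :
    ‖g.eval 0‖ ≤ B := by
  refine Complex.norm_le_of_forall_mem_frontier_norm_le (U := Metric.ball (0 : ℂ) 1)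
    Metric.isBounded_ball (f := fun t => g.eval t) ?_ ?_ ?_
  · exact g.differentiable.diffContOnCl
  · intro z hz
    apply h
    rw [frontier_ball (0 : ℂ) one_ne_zero] at hz
    simpa using hz
  · exact subset_closure (Metric.mem_ball_self one_pos)

private lemma topG_bound {P : ℤ[X][X][X]} {d r : ℕ} {c : ℤ[X]} (h : topG P d r c) (q : ℂ)
    (hq : ‖q‖ = 1) : ‖Polynomial.aeval q c‖ ≤ d.choose r := by
  obtain ⟨hP, hd, hU, hX, hc⟩ := h
  set g : ℂ[X] := (P.coeff r).map (aeval q : ℤ[X] →ₐ[ℤ] ℂ).toRingHom with hg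
  have h1 : ∀ t : ℂ, g.eval t = (P.map (ev2 q t)).coeff r := by
    intro t
    rw [hg, coeff_map, ev2, coe_eval₂RingHom, eval_map]
  have h2 : ∀ t : ℂ, ‖t‖ = 1 → ‖g.eval t‖ ≤ d.choose r := by
    intro t ht
    rw [h1]
    have h3 := coeff_le_of_roots_le (p := P.map (ev2 q t)) (f := RingHom.id ℂ) (B := 1) r
      (hP.map _) (IsAlgClosed.splits _) (by
        intro z hz
        rw [Polynomial.map_id, mem_roots (hP.map _).ne_zero] at hz
        exact (hU q t hq ht z hz).le)
    rw [Polynomial.map_id, one_pow, one_mul, hP.natDegree_map, hd] at h3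
    exact h3
  have h3 := top_max g _ h2
  have h4 : g.eval 0 = Polynomial.aeval q
      ((P.map (Polynomial.evalRingHom (0 : ℤ[X]))).coeff r) := by
    rw [hg, coeff_map, eval_map, eval₂_at_zero]
    rw [coe_evalRingHom, ← coeff_zero_eq_eval_zero]
    rfl
  rw [h4] at h3
  rcases hc with h | h
  · rwa [h] at h3
  · rwa [h, map_neg, norm_neg] at h3

/-- If all roots of a monic polynomial over `ℤ[q][t]` are unimodular on the torus, then the lowest
coefficient at `t = 0` is a monomial. -/
theorem top_lemma (P : ℤ[X][X][X]) (hP : P.Monic)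
    (hU : ∀ q t : ℂ, ‖q‖ = 1 → ‖t‖ = 1 → ∀ l, (P.map (ev2 q t)).IsRoot l → ‖l‖ = 1) :
    ∃ k : ℕ, (P.map (Polynomial.evalRingHom (0 : ℤ[X]))).trailingCoeff = X ^ k ∨
      (P.map (Polynomial.evalRingHom (0 : ℤ[X]))).trailingCoeff = -X ^ k := by
  set P0 := P.map (Polynomial.evalRingHom (0 : ℤ[X])) with hP0
  have hG : topG P P.natDegree P0.natTrailingDegree P0.trailingCoeff := by
    refine ⟨hP, rfl, hU, ?_, Or.inl rfl⟩
    rw [X_pow_dvd_iff]
    intro k hk
    exact coeff_eq_zero_of_lt_natTrailingDegree hk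
  have hle : ∀ q : ℂ, ‖q‖ = 1 → ‖Polynomial.aeval q P0.trailingCoeff‖ ≤ 1 := by
    intro q hq
    by_contra hcon
    push Not at hcon
    obtain ⟨n, hn⟩ := pow_unbounded_of_one_lt
      ((P.natDegree.choose P0.natTrailingDegree : ℕ) : ℝ) hcon
    obtain ⟨Q, hQ⟩ := topG_iter hG n
    have h1 := topG_bound hQ q hq
    rw [map_pow, norm_pow] at h1
    have h2 : ‖Polynomial.aeval q P0.trailingCoeff‖ ^ n ≤
        ‖Polynomial.aeval q P0.trailingCoeff‖ ^ 2 ^ n :=
      pow_le_pow_right₀ hcon.le (Nat.lt_two_pow_self).le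
    linarith
  rcases monomial_of_le_one _ hle with h | h
  · exfalso
    have : P0 ≠ 0 := (hP.map _).ne_zero
    exact this (trailingCoeff_eq_zero.1 h)
  · exact h

end Pool.Agent.AMU
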