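import Pool.Agent.AMU0.Top
import Pool.Agent.AMU0.Dm

open Matrix Polynomial

namespace Pool.Agent.AMU

theorem topall {m L : ℕ} {p : ℕ → ℕ} (hG : Good m L p) (T Z : Finset ℕ) (K : ℕ) (e : ℕ → ℕ)
    (hK : 1 ≤ K) (he : ∀ s, e s = 1 ∨ e s = K) (s0 n : ℕ) :
    ∃ k : ℕ, (dmat m T (fun s => if s ∈ Z then (0 : ℤ[X]) else X ^ e s) p s0
        (n * L)).charpoly.trailingCoeff = X ^ k ∨
      (dmat m T (fun s => if s ∈ Z then (0 : ℤ[X]) else X ^ e s) p s0
        (n * L)).charpoly.trailingCoeff = -X ^ k := by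
  set M : Matrix (Fin m) (Fin m) ℤ[X][X] :=
    dmat m T (fun s => if s ∈ Z then (X : ℤ[X][X]) else C (X ^ e s)) p s0 (n * L) with hM
  have h0 : M.charpoly.map (Polynomial.evalRingHom (0 : ℤ[X])) =
      (dmat m T (fun s => if s ∈ Z then (0 : ℤ[X]) else X ^ e s) p s0 (n * L)).charpoly := by
    have h1 : M.map (Polynomial.evalRingHom (0 : ℤ[X])) =
        dmat m T (fun s => if s ∈ Z then (0 : ℤ[X]) else X ^ e s) p s0 (n * L) := by
      rw [hM, dmat_map]
      congr 1
      funext s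
      split_ifs <;> simp
    rw [← h1]
    exact (M.charpoly_map (Polynomial.evalRingHom (0 : ℤ[X]))).symm
  rw [← h0]
  refine top_lemma M.charpoly M.charpoly_monic ?_
  intro q t hq ht l hl
  have h1 : M.map (ev2 q t) = dmat m T (fun s => if s ∈ Z then t else q ^ e s) p s0 (n * L) := by
    rw [hM, dmat_map]
    congr 1
    funext s
    split_ifs
    · simp [ev2]
    · rw [ev2, coe_eval₂RingHom, eval₂_C]
      simp
  rw [← M.charpoly_map (ev2 q t), h1] at hl
  refine hG T Z K e hK he q t hq ht s0 n l ?_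
  rw [eig_iff_root, Polynomial.mem_roots (Matrix.charpoly_monic _).ne_zero]
  exact hl

end Pool.Agent.AMU
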