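import Pool.Agent.AMU0.Base

open Matrix

namespace Pool.Agent.AMU

variable {n : ℕ} {A : ℂ}

/-! ### Configurations and bits -/

/-- the configuration with the last bit `0` -/
def v1L {n : ℕ} (x : Idx n) : Idx (n + 1) := Sum.inl x

/-- the configuration with the last bit `1` -/
def v1R {n : ℕ} (x : Idx n) : Idx (n + 1) := Sum.inr x

lemma v1_cases {n : ℕ} (x : Idx (n + 1)) : (∃ y, x = v1L y) ∨ ∃ y, x = v1R y := by
  rcases x with y | y
  · exact Or.inl ⟨y, rfl⟩
  · exact Or.inr ⟨y, rfl⟩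

lemma v1_blkL {n : ℕ} (a b c d : Matrix (Idx n) (Idx n) ℂ) (v : Idx (n + 1) → ℂ) (x : Idx n) :
    (blk a b c d *ᵥ v) (v1L x) =
      (a *ᵥ fun y => v (v1L y)) x + (b *ᵥ fun y => v (v1R y)) x :=
  congrFun (Matrix.fromBlocks_mulVec a b c d v) (Sum.inl x)

lemma v1_blkR {n : ℕ} (a b c d : Matrix (Idx n) (Idx n) ℂ) (v : Idx (n + 1) → ℂ) (x : Idx n) :
    (blk a b c d *ᵥ v) (v1R x) =
      (c *ᵥ fun y => v (v1L y)) x + (d *ᵥ fun y => v (v1R y)) x :=
  congrFun (Matrix.fromBlocks_mulVec a b c d v) (Sum.inr x)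

lemma v1_onesL {n : ℕ} (x : Idx n) : ones (n + 1) (v1L x) = ones n x := rfl

lemma v1_onesR {n : ℕ} (x : Idx n) : ones (n + 1) (v1R x) = ones n x + 1 := rfl

lemma v1_bitL {n : ℕ} (x : Idx n) (i : ℕ) :
    bit (n + 1) (v1L x) i = if i = n then false else bit n x i := rfl

lemma v1_bitR {n : ℕ} (x : Idx n) (i : ℕ) :
    bit (n + 1) (v1R x) i = if i = n then true else bit n x i := rfl

lemma v1_swLL {n : ℕ} (x : Idx n) : swapIdx (n + 2) n (v1L (v1L x)) = v1L (v1L x) := by
  unfold swapIdx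
  exact if_pos rfl

lemma v1_swLR {n : ℕ} (x : Idx n) : swapIdx (n + 2) n (v1L (v1R x)) = v1R (v1L x) := by
  unfold swapIdx
  exact if_pos rfl

lemma v1_swRL {n : ℕ} (x : Idx n) : swapIdx (n + 2) n (v1R (v1L x)) = v1L (v1R x) := by
  unfold swapIdx
  exact if_pos rfl

lemma v1_swRR {n : ℕ} (x : Idx n) : swapIdx (n + 2) n (v1R (v1R x)) = v1R (v1R x) := by
  unfold swapIdx
  exact if_pos rfl

lemma v1_swL {n i : ℕ} (h : i ≠ n) (x : Idx (n + 1)) :
    swapIdx (n + 2) i (v1L x) = v1L (swapIdx (n + 1) i x) := by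
  generalize hy : swapIdx (n + 1) i x = y
  unfold swapIdx
  refine Eq.trans (if_neg h) ?_
  rw [← hy]
  rfl

lemma v1_swR {n i : ℕ} (h : i ≠ n) (x : Idx (n + 1)) :
    swapIdx (n + 2) i (v1R x) = v1R (swapIdx (n + 1) i x) := by
  generalize hy : swapIdx (n + 1) i x = y
  unfold swapIdx
  refine Eq.trans (if_neg h) ?_
  rw [← hy]
  rfl

lemma v1_exists_conf : ∀ (n : ℕ) (f : ℕ → Bool), ∃ x : Idx n, ∀ j, j < n → bit n x j = f j
  | 0, _ => ⟨(), fun j hj => by omega⟩
  | n + 1, f => by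
    obtain ⟨x, hx⟩ := v1_exists_conf n f
    cases hf : f n
    · refine ⟨v1L x, fun j hj => ?_⟩
      rw [v1_bitL]
      by_cases h : j = n
      · rw [if_pos h, h, hf]
      · rw [if_neg h]
        exact hx j (by omega)
    · refine ⟨v1R x, fun j hj => ?_⟩
      rw [v1_bitR]
      by_cases h : j = n
      · rw [if_pos h, h, hf]
      · rw [if_neg h]
        exact hx j (by omega)

/-- the number of ones is the sum of the bits -/
lemma v1_ones_eq : ∀ (n : ℕ) (x : Idx n), ones n x = ∑ p ∈ Finset.range n,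
    (if bit n x p then 1 else 0)
  | 0, _ => by simp [ones]
  | n + 1, x => by
    rw [Finset.sum_range_succ]
    rcases v1_cases x with ⟨y, rfl⟩ | ⟨y, rfl⟩
    · have h1 : ∀ p ∈ Finset.range n, (if bit (n + 1) (v1L y) p then 1 else 0) =
          (if bit n y p then 1 else 0) := by
        intro p hp
        have : p ≠ n := (Finset.mem_range.1 hp).ne
        rw [v1_bitL, if_neg this]
      rw [Finset.sum_congr rfl h1, ← v1_ones_eq n y, v1_onesL, v1_bitL]
      simp
    · have h1 : ∀ p ∈ Finset.range n, (if bit (n + 1) (v1R y) p then 1 else 0) =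
          (if bit n y p then 1 else 0) := by
        intro p hp
        have : p ≠ n := (Finset.mem_range.1 hp).ne
        rw [v1_bitR, if_neg this]
      rw [Finset.sum_congr rfl h1, ← v1_ones_eq n y, v1_onesR, v1_bitR]
      simp

lemma v1_ones_of {n : ℕ} {x : Idx n} {p : ℕ} (hp : p < n)
    (h : ∀ j, j < n → bit n x j = decide (j = p)) : ones n x = 1 := by
  rw [v1_ones_eq]
  rw [Finset.sum_eq_single p]
  · rw [h p hp]
    simp
  · intro j hj hjp
    rw [h j (Finset.mem_range.1 hj)]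
    simp [hjp]
  · intro h'
    exact absurd (Finset.mem_range.2 hp) h'

lemma v1_exists_pos {n : ℕ} {x : Idx n} (h : ones n x = 1) :
    ∃ p, p < n ∧ ∀ j, j < n → bit n x j = decide (j = p) := by
  rw [v1_ones_eq, ← Finset.sum_filter, Finset.sum_const, smul_eq_mul, mul_one,
    Finset.card_eq_one] at h
  obtain ⟨p, hp⟩ := h
  have h1 : p ∈ (Finset.range n).filter (fun p => bit n x p = true) := by
    rw [hp]
    exact Finset.mem_singleton_self p
  rw [Finset.mem_filter, Finset.mem_range] at h1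
  refine ⟨p, h1.1, fun j hj => ?_⟩
  by_cases hjp : j = p
  · subst hjp
    simp [h1.2]
  · have h2 : j ∉ (Finset.range n).filter (fun p => bit n x p = true) := by
      rw [hp]
      simpa using hjp
    rw [Finset.mem_filter, Finset.mem_range] at h2
    simp only [hjp, decide_false]
    by_contra h3
    exact h2 ⟨hj, by simpa using h3⟩

lemma v1_vec1_of_ne {n : ℕ} {x : Idx n} (h : ones n x ≠ 1) (φ : ℕ → ℂ) : vec1 n φ x = 0 := by
  simp [vec1, h]

lemma v1_vec1_of {n : ℕ} {x : Idx n} {p : ℕ} (hp : p < n)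
    (h : ∀ j, j < n → bit n x j = decide (j = p)) (φ : ℕ → ℂ) : vec1 n φ x = φ p := by
  unfold vec1
  rw [if_pos (v1_ones_of hp h), Finset.sum_eq_single p]
  · rw [h p hp]
    simp
  · intro j hj hjp
    rw [h j (Finset.mem_range.1 hj)]
    simp [hjp]
  · intro h'
    exact absurd (Finset.mem_range.2 hp) h'

/-- the exchange of two neighbouring bits does not change the number of ones -/
lemma v1_ones_swap {n i : ℕ} (hi : i + 1 < n) (x : Idx n) : ones n (swapIdx n i x) = ones n x := by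
  rw [v1_ones_eq, v1_ones_eq]
  refine Finset.sum_bij (fun j _ => Equiv.swap i (i + 1) j) ?_ ?_ ?_ ?_
  · intro j hj
    rw [Finset.mem_range] at hj ⊢
    by_cases h1 : j = i
    · rw [h1, Equiv.swap_apply_left]
      omega
    · by_cases h2 : j = i + 1
      · rw [h2, Equiv.swap_apply_right]
        omega
      · rw [Equiv.swap_apply_of_ne_of_ne h1 h2]
        exact hj
  · intro a _ b _ h
    exact (Equiv.swap i (i + 1)).injective h
  · intro j hj
    rw [Finset.mem_range] at hj
    refine ⟨Equiv.swap i (i + 1) j, ?_, Equiv.swap_apply_self _ _ _⟩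
    rw [Finset.mem_range]
    by_cases h1 : j = i
    · rw [h1, Equiv.swap_apply_left]
      omega
    · by_cases h2 : j = i + 1
      · rw [h2, Equiv.swap_apply_right]
        omega
      · rw [Equiv.swap_apply_of_ne_of_ne h1 h2]
        exact hj
  · intro j hj
    rw [bit_swap n i x j hi (Finset.mem_range.1 hj)]

/-! ### The Temperley–Lieb generators -/

private lemma v1_tl_aux (A : ℂ) : ∀ (n i : ℕ), i + 1 < n → ∀ (v : Idx n → ℂ) (x : Idx n),
    (tl n A A⁻¹ i *ᵥ v) x =
      if bit n x i = bit n x (i + 1) then 0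
      else if bit n x i then v (swapIdx n i x) - A⁻¹ ^ 2 * v x
      else v (swapIdx n i x) - A ^ 2 * v x
  | 0, i, hi, _, _ => by omega
  | 1, i, hi, _, _ => by omega
  | n + 2, i, hi, v, x => by
    by_cases h : i = n
    · subst h
      have hb1 : (i : ℕ) ≠ i + 1 := by omega
      rw [tl_last]
      unfold tlLast
      rcases v1_cases x with ⟨x, rfl⟩ | ⟨x, rfl⟩ <;> rcases v1_cases x with ⟨x, rfl⟩ | ⟨x, rfl⟩
      · rw [v1_blkL, v1_blkL, v1_blkL, v1_bitL, v1_bitL, v1_bitL]
        simp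
      · rw [v1_blkL, v1_blkR, v1_blkR, v1_bitL, v1_bitL, v1_bitR, v1_swLR]
        simp [Matrix.neg_mulVec, Matrix.smul_mulVec]
        ring
      · rw [v1_blkR, v1_blkL, v1_blkL, v1_bitR, v1_bitR, v1_bitL, v1_swRL]
        simp [Matrix.neg_mulVec, Matrix.smul_mulVec]
        ring
      · rw [v1_blkR, v1_blkR, v1_blkR, v1_bitR, v1_bitR, v1_bitR]
        simp
    · rw [tl_of_ne h]
      have h1 : i ≠ n + 1 := by omega
      have h2 : i + 1 ≠ n + 1 := by omega
      rcases v1_cases x with ⟨x, rfl⟩ | ⟨x, rfl⟩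
      · rw [v1_blkL, Matrix.zero_mulVec, Pi.zero_apply, add_zero,
          v1_tl_aux A (n + 1) i (by omega), v1_bitL, v1_bitL, if_neg h1, if_neg h2, v1_swL h]
      · rw [v1_blkR, Matrix.zero_mulVec, Pi.zero_apply, zero_add,
          v1_tl_aux A (n + 1) i (by omega), v1_bitR, v1_bitR, if_neg h1, if_neg h2, v1_swR h]

/-- the action of a Temperley–Lieb generator in coordinates -/
theorem tl_apply {i : ℕ} (hi : i + 1 < n) (A : ℂ) (v : Idx n → ℂ) (x : Idx n) :
    (tl n A A⁻¹ i *ᵥ v) x =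
      if bit n x i = bit n x (i + 1) then 0
      else if bit n x i then v (swapIdx n i x) - A⁻¹ ^ 2 * v x
      else v (swapIdx n i x) - A ^ 2 * v x :=
  v1_tl_aux A n i hi v x

/-- the position of the particle after the exchange of two bits -/
lemma v1_bit_swap_of {n i : ℕ} (hi : i + 1 < n) {x : Idx n} {p : ℕ}
    (h : ∀ j, j < n → bit n x j = decide (j = p)) :
    ∀ j, j < n → bit n (swapIdx n i x) j = decide (j = Equiv.swap i (i + 1) p) := by
  intro j hj
  rw [bit_swap n i x j hi hj]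
  have h1 : Equiv.swap i (i + 1) j < n := by
    by_cases h1 : j = i
    · rw [h1, Equiv.swap_apply_left]
      omega
    · by_cases h2 : j = i + 1
      · rw [h2, Equiv.swap_apply_right]
        omega
      · rw [Equiv.swap_apply_of_ne_of_ne h1 h2]
        exact hj
  rw [h _ h1]
  have h2 : (Equiv.swap i (i + 1) j = p) ↔ (j = Equiv.swap i (i + 1) p) := by
    constructor
    · rintro rfl
      exact (Equiv.swap_apply_self _ _ _).symm
    · rintro rfl
      exact Equiv.swap_apply_self _ _ _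
  simp only [h2]

theorem letter_vec1 (hA : A ≠ 0) {i : ℕ} (hi : i + 1 < n) (φ : ℕ → ℂ) :
    letter n A A⁻¹ (i, true) *ᵥ vec1 n φ = A • vec1 n (fun p =>
      if p = i + 1 then A⁻¹ ^ 2 * φ i
      else if p = i then (1 - A⁻¹ ^ 4) * φ i + A⁻¹ ^ 2 * φ (i + 1)
      else φ p) := by
  have hAA : A * A⁻¹ = 1 := mul_inv_cancel₀ hA
  funext x
  have h0 : letter n A A⁻¹ (i, true) = A • 1 + A⁻¹ • tl n A A⁻¹ i := by
    simp [letter]
  rw [h0, Matrix.add_mulVec, Matrix.smul_mulVec, Matrix.smul_mulVec, Matrix.one_mulVec,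
    Pi.add_apply, Pi.smul_apply, Pi.smul_apply, Pi.smul_apply, smul_eq_mul, smul_eq_mul,
    smul_eq_mul, tl_apply hi]
  by_cases h : ones n x = 1
  · obtain ⟨p, hp, hx⟩ := v1_exists_pos h
    have hs := v1_bit_swap_of hi hx
    rw [v1_vec1_of hp hx, v1_vec1_of hp hx, hx i (by omega), hx (i + 1) hi]
    by_cases h1 : p = i
    · subst h1
      have h2 : Equiv.swap p (p + 1) p = p + 1 := Equiv.swap_apply_left _ _
      rw [h2] at hs
      rw [v1_vec1_of hi hs]
      rw [if_neg (by simp), if_pos (by simp), if_neg (by omega), if_pos rfl]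
      linear_combination (A⁻¹ * φ (p + 1) - A⁻¹ ^ 3 * φ p) * (-hAA)
    · by_cases h2 : p = i + 1
      · subst h2
        have h3 : Equiv.swap i (i + 1) (i + 1) = i := Equiv.swap_apply_right _ _
        rw [h3] at hs
        rw [v1_vec1_of (by omega) hs]
        rw [if_neg (by simp), if_neg (by simp), if_pos rfl]
        linear_combination (-(A⁻¹ * φ i) - A * φ (i + 1)) * hAA
      · rw [if_pos (by simp [Ne.symm h1, Ne.symm h2]), if_neg h2, if_neg h1]
        ring
  · have h1 : ones n (swapIdx n i x) ≠ 1 := by rwa [v1_ones_swap hi]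
    rw [v1_vec1_of_ne h, v1_vec1_of_ne h, v1_vec1_of_ne h1]
    simp

theorem tl_vec1 {i : ℕ} (hi : i + 1 < n) (φ : ℕ → ℂ) :
    tl n A A⁻¹ i *ᵥ vec1 n φ = vec1 n (fun p =>
      if p = i + 1 then φ i - A ^ 2 * φ (i + 1)
      else if p = i then -(A⁻¹ ^ 2) * φ i + φ (i + 1)
      else 0) := by
  funext x
  rw [tl_apply hi]
  by_cases h : ones n x = 1
  · obtain ⟨p, hp, hx⟩ := v1_exists_pos h
    have hs := v1_bit_swap_of hi hx
    rw [v1_vec1_of hp hx, v1_vec1_of hp hx, hx i (by omega), hx (i + 1) hi]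
    by_cases h1 : p = i
    · subst h1
      have h2 : Equiv.swap p (p + 1) p = p + 1 := Equiv.swap_apply_left _ _
      rw [h2] at hs
      rw [v1_vec1_of hi hs]
      rw [if_neg (by simp), if_pos (by simp), if_neg (by omega), if_pos rfl]
      ring
    · by_cases h2 : p = i + 1
      · subst h2
        have h3 : Equiv.swap i (i + 1) (i + 1) = i := Equiv.swap_apply_right _ _
        rw [h3] at hs
        rw [v1_vec1_of (by omega) hs]
        rw [if_neg (by simp), if_neg (by simp), if_pos rfl]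
      · rw [if_pos (by simp [Ne.symm h1, Ne.symm h2]), if_neg h2, if_neg h1]
  · have h1 : ones n (swapIdx n i x) ≠ 1 := by rwa [v1_ones_swap hi]
    rw [v1_vec1_of_ne h, v1_vec1_of_ne h, v1_vec1_of_ne h1]
    simp

/-! ### The raising operator -/

/-- the configuration without particles, with the coefficient `a` -/
noncomputable def v1vac (n : ℕ) (a : ℂ) : Idx n → ℂ := fun y => if ones n y = 0 then a else 0

lemma v1_vacL (n : ℕ) (a : ℂ) : (fun y : Idx n => v1vac (n + 1) a (v1L y)) = v1vac n a := rfl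

lemma v1_vacR (n : ℕ) (a : ℂ) : (fun y : Idx n => v1vac (n + 1) a (v1R y)) = 0 := by
  funext y
  unfold v1vac
  rw [v1_onesR]
  simp

/-- the operator `K⁻¹` on multiples of the configuration without particles -/
lemma v1_kinv_vac (A a : ℂ) : ∀ (n : ℕ) (x : Idx n),
    (kinv n A A⁻¹ *ᵥ v1vac n a) x = if ones n x = 0 then A⁻¹ ^ n * a else 0
  | 0, x => by simp [kinv, v1vac]
  | n + 1, x => by
    rcases v1_cases x with ⟨x, rfl⟩ | ⟨x, rfl⟩
    · have h1 := v1_kinv_vac A a n x
      rw [kinv_succ, v1_blkL, Matrix.zero_mulVec, Pi.zero_apply, add_zero, Matrix.smul_mulVec,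
        Pi.smul_apply, smul_eq_mul, v1_vacL, h1, v1_onesL]
      split_ifs
      · ring
      · ring
    · rw [kinv_succ, v1_blkR, Matrix.zero_mulVec, Pi.zero_apply, zero_add, Matrix.smul_mulVec,
        Pi.smul_apply, smul_eq_mul, v1_vacR, Matrix.mulVec_zero, v1_onesR]
      simp

/-- the raising operator kills the configuration without particles -/
lemma v1_raise_vac (A a : ℂ) : ∀ (n : ℕ), raise n A A⁻¹ *ᵥ v1vac n a = 0
  | 0 => by simp [raise]
  | n + 1 => by
    funext x
    rcases v1_cases x with ⟨x, rfl⟩ | ⟨x, rfl⟩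
    · rw [raise_succ, v1_blkL, Matrix.smul_mulVec, Pi.smul_apply, smul_eq_mul, v1_vacL, v1_vacR,
        Matrix.mulVec_zero, v1_raise_vac A a n]
      simp
    · rw [raise_succ, v1_blkR, Matrix.zero_mulVec, Pi.zero_apply, zero_add, Matrix.smul_mulVec,
        Pi.smul_apply, smul_eq_mul, v1_vacR, Matrix.mulVec_zero]
      simp

lemma v1_vec1L (n : ℕ) (φ : ℕ → ℂ) :
    (fun y : Idx n => vec1 (n + 1) φ (v1L y)) = vec1 n φ := by
  funext y
  have h1 : ∀ p ∈ Finset.range n, (if bit (n + 1) (v1L y) p then φ p else 0) =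
      (if bit n y p then φ p else 0) := by
    intro p hp
    have : p ≠ n := (Finset.mem_range.1 hp).ne
    rw [v1_bitL, if_neg this]
  unfold vec1
  rw [v1_onesL, Finset.sum_range_succ, Finset.sum_congr rfl h1, v1_bitL]
  simp

lemma v1_vec1R (n : ℕ) (φ : ℕ → ℂ) :
    (fun y : Idx n => vec1 (n + 1) φ (v1R y)) = v1vac n (φ n) := by
  funext y
  have h1 : ∀ p ∈ Finset.range n, (if bit (n + 1) (v1R y) p then φ p else 0) =
      (if bit n y p then φ p else 0) := by
    intro p hp
    have : p ≠ n := (Finset.mem_range.1 hp).ne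
    rw [v1_bitR, if_neg this]
  unfold vec1 v1vac
  rw [v1_onesR, Finset.sum_range_succ, Finset.sum_congr rfl h1, v1_bitR]
  by_cases h : ones n y = 0
  · have h2 : ∀ p ∈ Finset.range n, (if bit n y p then φ p else 0) = 0 := by
      intro p hp
      rw [v1_ones_eq, Finset.sum_eq_zero_iff] at h
      have h3 := h p hp
      by_cases h4 : bit n y p = true
      · simp [h4] at h3
      · simp [h4]
    rw [Finset.sum_eq_zero h2]
    simp [h]
  · simp [h]

private lemma v1_raise_aux (A : ℂ) (φ : ℕ → ℂ) : ∀ (n : ℕ) (x : Idx n),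
    (raise n A A⁻¹ *ᵥ vec1 n φ) x =
      if ones n x = 0 then ∑ p ∈ Finset.range n, A⁻¹ ^ p * A ^ (n - 1 - p) * φ p else 0
  | 0, x => by simp [raise]
  | n + 1, x => by
    rcases v1_cases x with ⟨x, rfl⟩ | ⟨x, rfl⟩
    · rw [raise_succ, v1_blkL, v1_vec1L, v1_vec1R, Matrix.smul_mulVec, Pi.smul_apply,
        smul_eq_mul, v1_raise_aux A φ n x, v1_kinv_vac, v1_onesL]
      by_cases h : ones n x = 0
      · rw [if_pos h, if_pos h, if_pos h, Finset.sum_range_succ, Finset.mul_sum]
        congr 1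
        · refine Finset.sum_congr rfl fun p hp => ?_
          have hp' := Finset.mem_range.1 hp
          have h1 : n + 1 - 1 - p = (n - 1 - p) + 1 := by omega
          rw [h1, pow_succ]
          ring
        · have h1 : n + 1 - 1 - n = 0 := by omega
          rw [h1]
          ring
      · rw [if_neg h, if_neg h, if_neg h]
        ring
    · rw [raise_succ, v1_blkR, v1_vec1L, v1_vec1R, Matrix.zero_mulVec, Pi.zero_apply,
        zero_add, Matrix.smul_mulVec, Pi.smul_apply, smul_eq_mul, v1_raise_vac, Pi.zero_apply,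
        mul_zero, v1_onesR]
      simp

theorem raise_vec1 (hA : A ≠ 0) (φ : ℕ → ℂ) (x : Idx n) :
    (raise n A A⁻¹ *ᵥ vec1 n φ) x =
      if ones n x = 0 then ∑ p ∈ Finset.range n, A⁻¹ ^ p * A ^ (n - 1 - p) * φ p else 0 := by
  have _ := hA
  exact v1_raise_aux A φ n x

theorem vec1_congr {φ ψ : ℕ → ℂ} (h : ∀ p, p < n → φ p = ψ p) : vec1 n φ = vec1 n ψ := by
  funext x
  unfold vec1
  have h1 : ∀ p ∈ Finset.range n, (if bit n x p then φ p else 0) =
      (if bit n x p then ψ p else 0) := by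
    intro p hp
    rw [h p (Finset.mem_range.1 hp)]
  rw [Finset.sum_congr rfl h1]

theorem vec1_add (φ ψ : ℕ → ℂ) : vec1 n (fun p => φ p + ψ p) = vec1 n φ + vec1 n ψ := by
  funext x
  rw [Pi.add_apply]
  by_cases h : ones n x = 1
  · obtain ⟨p, hp, hx⟩ := v1_exists_pos h
    rw [v1_vec1_of hp hx, v1_vec1_of hp hx, v1_vec1_of hp hx]
  · rw [v1_vec1_of_ne h, v1_vec1_of_ne h, v1_vec1_of_ne h, add_zero]

theorem vec1_smul (a : ℂ) (φ : ℕ → ℂ) : vec1 n (fun p => a * φ p) = a • vec1 n φ := by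
  funext x
  rw [Pi.smul_apply, smul_eq_mul]
  by_cases h : ones n x = 1
  · obtain ⟨p, hp, hx⟩ := v1_exists_pos h
    rw [v1_vec1_of hp hx, v1_vec1_of hp hx]
  · rw [v1_vec1_of_ne h, v1_vec1_of_ne h, mul_zero]

theorem vec1_zero {φ : ℕ → ℂ} (h : vec1 n φ = 0) {p : ℕ} (hp : p < n) : φ p = 0 := by
  obtain ⟨x, hx⟩ := v1_exists_conf n (fun j => decide (j = p))
  have h1 := congrFun h x
  rw [v1_vec1_of hp hx] at h1
  exact h1

end Pool.Agent.AMU
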