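import Pool.Agent.AMU0.V1

open Matrix

namespace Pool.Agent.AMU

variable {n : ℕ} {A : ℂ}

/-- the coefficients after a row of crossings -/
noncomputable def v1b_row (A : ℂ) (o a : ℕ) (φ : ℕ → ℂ) (p : ℕ) : ℂ :=
  if p = o then (1 - A⁻¹ ^ 4) * ∑ j ∈ Finset.range a, A⁻¹ ^ (2 * j) * φ (o + j) +
    A⁻¹ ^ (2 * a) * φ (o + a)
  else if o < p ∧ p ≤ o + a then A⁻¹ ^ 2 * φ (p - 1) else φ p

theorem v1b_row_vec (hA : A ≠ 0) : ∀ (a o : ℕ) (φ : ℕ → ℂ), o + a < n →
    wordMat n A A⁻¹ (row o a) *ᵥ vec1 n φ = A ^ a • vec1 n (v1b_row A o a φ)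
  | 0, o, φ, _ => by
    have h1 : row o 0 = [] := rfl
    have h2 : wordMat n A A⁻¹ [] = 1 := rfl
    rw [h1, h2, Matrix.one_mulVec, pow_zero, one_smul]
    refine vec1_congr fun p _ => ?_
    unfold v1b_row
    split_ifs with h3 h4
    · simp [h3]
    · omega
    · rfl
  | a + 1, o, φ, ho => by
    rw [row_succ, wordMat_cons, ← Matrix.mulVec_mulVec, v1b_row_vec hA a (o + 1) φ (by omega),
      Matrix.mulVec_smul, letter_vec1 hA (by omega), smul_smul, ← pow_succ]
    congr 1
    refine vec1_congr fun p _ => ?_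
    by_cases h1 : p = o + 1
    · rw [if_pos h1]
      have h2 : v1b_row A (o + 1) a φ o = φ o := by
        unfold v1b_row
        rw [if_neg (by omega), if_neg (by omega)]
      rw [h2]
      unfold v1b_row
      rw [if_neg (by omega), if_pos (by omega), h1, Nat.add_sub_cancel]
    · rw [if_neg h1]
      by_cases h3 : p = o
      · rw [if_pos h3]
        have h2 : v1b_row A (o + 1) a φ o = φ o := by
          unfold v1b_row
          rw [if_neg (by omega), if_neg (by omega)]
        have h4 : v1b_row A (o + 1) a φ (o + 1) =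
            (1 - A⁻¹ ^ 4) * ∑ j ∈ Finset.range a, A⁻¹ ^ (2 * j) * φ (o + 1 + j) +
              A⁻¹ ^ (2 * a) * φ (o + 1 + a) := by
          unfold v1b_row
          rw [if_pos rfl]
        rw [h2, h4]
        unfold v1b_row
        rw [if_pos h3, Finset.sum_range_succ']
        have h5 : ∑ j ∈ Finset.range a, A⁻¹ ^ (2 * (j + 1)) * φ (o + (j + 1)) =
            A⁻¹ ^ 2 * ∑ j ∈ Finset.range a, A⁻¹ ^ (2 * j) * φ (o + 1 + j) := by
          rw [Finset.mul_sum]
          refine Finset.sum_congr rfl fun j _ => ?_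
          rw [show o + (j + 1) = o + 1 + j by ring]
          ring
        rw [h5, show o + (a + 1) = o + 1 + a by ring]
        simp only [mul_zero, pow_zero, one_mul, add_zero]
        ring
      · rw [if_neg h3]
        unfold v1b_row
        rw [if_neg h1, if_neg h3]
        by_cases h4 : o + 1 < p ∧ p ≤ o + 1 + a
        · rw [if_pos h4, if_pos (by omega)]
        · rw [if_neg h4, if_neg (by omega)]

lemma v1b_wc_in (A : ℂ) {o a p : ℕ} (h : o ≤ p ∧ p < o + a) :
    wc A o a p = A ^ (4 * o) * (A⁻¹) ^ (2 * p) := by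
  unfold wc
  rw [if_pos h]

lemma v1b_wc_out (A : ℂ) {o a p : ℕ} (h : ¬ (o ≤ p ∧ p < o + a)) : wc A o a p = 0 := by
  unfold wc
  rw [if_neg h]

lemma v1b_geom (B : ℂ) (a : ℕ) :
    (1 - B ^ 4) * ∑ j ∈ Finset.range a, B ^ (4 * j) = 1 - B ^ (4 * a) := by
  induction a with
  | zero => simp
  | succ a ih =>
    rw [Finset.sum_range_succ, mul_add, ih]
    ring

/-- crossing of two cables, the particle elsewhere -/
theorem bw_vec1_far (hA : A ≠ 0) {o a b : ℕ} (hn : o + a + b ≤ n) (φ : ℕ → ℂ)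
    (hφ : ∀ p, o ≤ p → p < o + a + b → φ p = 0) :
    wordMat n A A⁻¹ (bw o a b) *ᵥ vec1 n φ = A ^ (a * b) • vec1 n φ := by
  induction b with
  | zero =>
    have h2 : wordMat n A A⁻¹ (bw o a 0) = 1 := rfl
    rw [h2, Matrix.one_mulVec, mul_zero, pow_zero, one_smul]
  | succ b ih =>
    have h1 : bw o a (b + 1) = row (o + b) a ++ bw o a b := rfl
    rw [h1, wordMat_append, ← Matrix.mulVec_mulVec,
      ih (by omega) (fun p h3 h4 => hφ p h3 (by omega)), Matrix.mulVec_smul,
      v1b_row_vec hA a (o + b) φ (by omega), smul_smul, ← pow_add, Nat.mul_succ]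
    congr 1
    refine vec1_congr fun p _ => ?_
    unfold v1b_row
    beta_reduce
    split_ifs with h3 h4
    · rw [h3, hφ (o + b + a) (by omega) (by omega), hφ (o + b) (by omega) (by omega),
        Finset.sum_eq_zero fun j hj => ?_]
      · ring
      · rw [hφ (o + b + j) (by omega) (by have := Finset.mem_range.1 hj; omega), mul_zero]
    · rw [hφ (p - 1) (by omega) (by omega), hφ p (by omega) (by omega), mul_zero]
    · rfl

/-- crossing of two cables, the particle in the left cable -/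
theorem bw_vec1_left (hA : A ≠ 0) {o a b : ℕ} (hn : o + a + b ≤ n) :
    wordMat n A A⁻¹ (bw o a b) *ᵥ vec1 n (wc A o a) = A ^ (a * b) • vec1 n (fun p =>
      (1 - A⁻¹ ^ (4 * a)) * wc A o b p + A⁻¹ ^ (4 * b) * wc A (o + b) a p) := by
  induction b with
  | zero =>
    have h2 : wordMat n A A⁻¹ (bw o a 0) = 1 := rfl
    rw [h2, Matrix.one_mulVec, mul_zero, pow_zero, one_smul]
    refine vec1_congr fun p _ => ?_
    rw [v1b_wc_out A (o := o) (a := 0) (p := p) (by omega)]
    simp
  | succ b ih =>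
    have h1 : bw o a (b + 1) = row (o + b) a ++ bw o a b := rfl
    rw [h1, wordMat_append, ← Matrix.mulVec_mulVec, ih (by omega), Matrix.mulVec_smul,
      v1b_row_vec hA a (o + b) _ (by omega), smul_smul, ← pow_add, Nat.mul_succ]
    congr 1
    refine vec1_congr fun p _ => ?_
    have hAi : A * A⁻¹ = 1 := mul_inv_cancel₀ hA
    unfold v1b_row
    beta_reduce
    split_ifs with h3 h4
    · -- p = o + b
      have h5 : ∀ j ∈ Finset.range a, A⁻¹ ^ (2 * j) *
          ((1 - A⁻¹ ^ (4 * a)) * wc A o b (o + b + j) +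
            A⁻¹ ^ (4 * b) * wc A (o + b) a (o + b + j)) =
          (A ^ (4 * o) * A⁻¹ ^ (2 * (o + b))) * A⁻¹ ^ (4 * j) := by
        intro j hj
        have hj' := Finset.mem_range.1 hj
        rw [v1b_wc_out A (o := o) (a := b) (by omega), v1b_wc_in A (o := o + b) (by omega)]
        have h6 : A⁻¹ ^ (4 * b) * A ^ (4 * (o + b)) = A ^ (4 * o) := by
          rw [show 4 * (o + b) = 4 * o + 4 * b by ring, pow_add, mul_comm (A ^ (4 * o)),
            ← mul_assoc, ← mul_pow, mul_comm A⁻¹ A, hAi, one_pow, one_mul]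
        calc A⁻¹ ^ (2 * j) * ((1 - A⁻¹ ^ (4 * a)) * 0 +
            A⁻¹ ^ (4 * b) * (A ^ (4 * (o + b)) * A⁻¹ ^ (2 * (o + b + j))))
            = (A⁻¹ ^ (4 * b) * A ^ (4 * (o + b))) * (A⁻¹ ^ (2 * j) * A⁻¹ ^ (2 * (o + b + j))) := by
              ring
          _ = _ := by
              rw [h6, ← pow_add, show 2 * j + 2 * (o + b + j) = 2 * (o + b) + 4 * j by ring,
                pow_add, ← mul_assoc]
      rw [Finset.sum_congr rfl h5, ← Finset.mul_sum, v1b_wc_out A (o := o) (a := b) (by omega),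
        v1b_wc_out A (o := o + b) (a := a) (by omega), h3,
        v1b_wc_in A (o := o) (a := b + 1) (by omega),
        v1b_wc_out A (o := o + (b + 1)) (a := a) (by omega)]
      have h6 := v1b_geom A⁻¹ a
      calc (1 - A⁻¹ ^ 4) * (A ^ (4 * o) * A⁻¹ ^ (2 * (o + b)) *
            ∑ i ∈ Finset.range a, A⁻¹ ^ (4 * i)) +
            A⁻¹ ^ (2 * a) * ((1 - A⁻¹ ^ (4 * a)) * 0 + A⁻¹ ^ (4 * b) * 0)
          = (A ^ (4 * o) * A⁻¹ ^ (2 * (o + b))) *
            ((1 - A⁻¹ ^ 4) * ∑ i ∈ Finset.range a, A⁻¹ ^ (4 * i)) := by ring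
        _ = _ := by rw [h6]; ring
    · rw [v1b_wc_out A (o := o) (a := b) (by omega), v1b_wc_in A (o := o + b) (by omega),
        v1b_wc_out A (o := o) (a := b + 1) (by omega),
        v1b_wc_in A (o := o + (b + 1)) (by omega)]
      obtain ⟨r, rfl⟩ : ∃ r, p = r + 1 := ⟨p - 1, by omega⟩
      rw [Nat.add_sub_cancel]
      have h6 : A⁻¹ ^ (4 * (b + 1)) * A ^ (4 * (o + (b + 1))) =
          A⁻¹ ^ (4 * b) * A ^ (4 * (o + b)) := by
        rw [show 4 * (b + 1) = 4 * b + 4 by ring, show 4 * (o + (b + 1)) = 4 * (o + b) + 4 by ring,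
          pow_add, pow_add]
        calc A⁻¹ ^ (4 * b) * A⁻¹ ^ 4 * (A ^ (4 * (o + b)) * A ^ 4)
            = A⁻¹ ^ (4 * b) * A ^ (4 * (o + b)) * (A * A⁻¹) ^ 4 := by ring
          _ = _ := by rw [hAi, one_pow, mul_one]
      calc A⁻¹ ^ 2 * ((1 - A⁻¹ ^ (4 * a)) * 0 +
            A⁻¹ ^ (4 * b) * (A ^ (4 * (o + b)) * A⁻¹ ^ (2 * r)))
          = (A⁻¹ ^ (4 * b) * A ^ (4 * (o + b))) * A⁻¹ ^ (2 * (r + 1)) := by ring
        _ = _ := by rw [← h6]; ring
    · by_cases h7 : o ≤ p ∧ p < o + b
      · rw [v1b_wc_in A h7, v1b_wc_out A (o := o + b) (a := a) (by omega),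
          v1b_wc_in A (o := o) (a := b + 1) (by omega),
          v1b_wc_out A (o := o + (b + 1)) (a := a) (by omega), mul_zero, mul_zero]
      · rw [v1b_wc_out A h7, v1b_wc_out A (o := o + b) (a := a) (by omega),
          v1b_wc_out A (o := o) (a := b + 1) (by omega),
          v1b_wc_out A (o := o + (b + 1)) (a := a) (by omega), mul_zero, mul_zero, mul_zero]

/-- crossing of two cables, the particle in the right cable -/
theorem bw_vec1_right (hA : A ≠ 0) {o a b : ℕ} (hn : o + a + b ≤ n) :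
    wordMat n A A⁻¹ (bw o a b) *ᵥ vec1 n (wc A (o + a) b) = A ^ (a * b) • vec1 n (wc A o b) := by
  induction b with
  | zero =>
    have h2 : wordMat n A A⁻¹ (bw o a 0) = 1 := rfl
    rw [h2, Matrix.one_mulVec, mul_zero, pow_zero, one_smul]
    refine vec1_congr fun p _ => ?_
    rw [v1b_wc_out A (o := o) (a := 0) (p := p) (by omega),
      v1b_wc_out A (o := o + a) (a := 0) (p := p) (by omega)]
  | succ b ih =>
    have hAi : A * A⁻¹ = 1 := mul_inv_cancel₀ hA
    have h1 : bw o a (b + 1) = row (o + b) a ++ bw o a b := rfl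
    -- the last term
    have h3 : vec1 n (wc A (o + a) (b + 1)) = vec1 n (wc A (o + a) b) +
        vec1 n (fun p => if p = o + a + b then A ^ (4 * (o + a)) * A⁻¹ ^ (2 * p) else 0) := by
      rw [← vec1_add]
      refine vec1_congr fun p _ => ?_
      by_cases h4 : p = o + a + b
      · rw [if_pos h4, v1b_wc_in A (o := o + a) (a := b + 1) (by omega),
          v1b_wc_out A (o := o + a) (a := b) (by omega), zero_add]
      · rw [if_neg h4, add_zero]
        by_cases h5 : o + a ≤ p ∧ p < o + a + b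
        · rw [v1b_wc_in A h5, v1b_wc_in A (by omega)]
        · rw [v1b_wc_out A h5, v1b_wc_out A (by omega)]
    have h4 := bw_vec1_far (n := n) hA (o := o) (a := a) (b := b) (by omega)
      (fun p => if p = o + a + b then A ^ (4 * (o + a)) * A⁻¹ ^ (2 * p) else 0)
      (fun p _ h5 => if_neg (by omega))
    rw [h1, wordMat_append, ← Matrix.mulVec_mulVec, h3, Matrix.mulVec_add, ih (by omega), h4,
      ← smul_add, ← vec1_add, Matrix.mulVec_smul, v1b_row_vec hA a (o + b) _ (by omega),
      smul_smul, ← pow_add, Nat.mul_succ]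
    congr 1
    refine vec1_congr fun p _ => ?_
    unfold v1b_row
    beta_reduce
    by_cases h5 : p = o + b
    · rw [if_pos h5]
      have h7 : ∀ j ∈ Finset.range a, A⁻¹ ^ (2 * j) * (wc A o b (o + b + j) +
          if o + b + j = o + a + b then A ^ (4 * (o + a)) * A⁻¹ ^ (2 * (o + b + j)) else 0) = 0 := by
        intro j hj
        have hj' := Finset.mem_range.1 hj
        rw [v1b_wc_out A (o := o) (a := b) (by omega),
          if_neg (show ¬ (o + b + j = o + a + b) by omega), add_zero, mul_zero]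
      rw [Finset.sum_eq_zero h7, v1b_wc_out A (o := o) (a := b) (by omega),
        if_pos (show o + b + a = o + a + b by omega), h5,
        v1b_wc_in A (o := o) (a := b + 1) (by omega), mul_zero, zero_add, zero_add,
        show 4 * (o + a) = 4 * o + (2 * a + 2 * a) by ring,
        show 2 * (o + b + a) = 2 * (o + b) + 2 * a by ring, pow_add, pow_add, pow_add]
      calc A⁻¹ ^ (2 * a) * (A ^ (4 * o) * (A ^ (2 * a) * A ^ (2 * a)) *
            (A⁻¹ ^ (2 * (o + b)) * A⁻¹ ^ (2 * a)))
          = A ^ (4 * o) * A⁻¹ ^ (2 * (o + b)) * ((A ^ (2 * a) * A⁻¹ ^ (2 * a)) *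
            (A ^ (2 * a) * A⁻¹ ^ (2 * a))) := by ring
        _ = _ := by rw [← mul_pow, hAi, one_pow, mul_one, mul_one]
    · rw [if_neg h5]
      by_cases h6 : o + b < p ∧ p ≤ o + b + a
      · rw [if_pos h6, v1b_wc_out A (o := o) (a := b) (p := p - 1) (by omega),
          if_neg (show ¬ (p - 1 = o + a + b) by omega),
          v1b_wc_out A (o := o) (a := b + 1) (by omega), add_zero, mul_zero]
      · rw [if_neg h6]
        by_cases h7 : o ≤ p ∧ p < o + b
        · rw [v1b_wc_in A h7, if_neg (show ¬ (p = o + a + b) by omega),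
            v1b_wc_in A (o := o) (a := b + 1) (by omega), add_zero]
        · rw [v1b_wc_out A h7, v1b_wc_out A (o := o) (a := b + 1) (by omega),
            if_neg (show ¬ (p = o + a + b) by omega), add_zero]

end Pool.Agent.AMU
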