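import Pool.Agent.AMU0.V1B

open Matrix

namespace Pool.Agent.AMU

private theorem v1w_wc0 (A : ℂ) (o p : ℕ) : wc A o 0 p = 0 := by
  unfold wc
  rw [if_neg (by omega)]

private theorem v1w_wc {A : ℂ} {o a p : ℕ} (h : p < o ∨ o + a ≤ p) : wc A o a p = 0 := by
  unfold wc
  rw [if_neg (by omega)]

private theorem v1w_split {m k : ℕ} (hk : k + 1 < m) (g : ℕ → ℂ) :
    ∑ l ∈ Finset.range m, g l = g k + (g (k + 1) +
      ∑ l ∈ ((Finset.range m).erase k).erase (k + 1), g l) := by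
  have h1 : k ∈ Finset.range m := Finset.mem_range.2 (by omega)
  have h2 : k + 1 ∈ (Finset.range m).erase k :=
    Finset.mem_erase.2 ⟨by omega, Finset.mem_range.2 hk⟩
  rw [Finset.add_sum_erase _ g h2, Finset.add_sum_erase _ g h1]

private theorem v1w_pos {m n k : ℕ} {κ : ℕ → ℕ} (hn : off κ m = n) (hk : k + 1 < m) {A : ℂ}
    (hA : A ≠ 0) (f : ℕ → ℂ) :
    wordMat n A A⁻¹ (blockLetter κ (k, true)) *ᵥ Ph n m κ A f =
      A ^ (κ k * κ (k + 1)) • Ph n m (cs κ k) A (glet κ (A⁻¹ ^ 4) (A ^ 4) (k, true) f) := by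
  have hbl : blockLetter κ (k, true) = bw (off κ k) (κ k) (κ (k + 1)) := by simp [blockLetter]
  have ho : off κ k + κ k + κ (k + 1) ≤ n := by
    rw [← hn, ← off_succ, ← off_succ]
    exact off_mono κ (by omega)
  set o := off κ k with hodef
  set a := κ k with hadef
  set b := κ (k + 1) with hbdef
  have hoff1 : off κ (k + 1) = o + a := off_succ κ k
  set E := ((Finset.range m).erase k).erase (k + 1) with hE
  have hEmem : ∀ l ∈ E, l ≠ k ∧ l ≠ k + 1 := by
    intro l hl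
    rw [hE, Finset.mem_erase, Finset.mem_erase] at hl
    exact ⟨hl.2.1, hl.1⟩
  let φ : ℕ → ℂ := fun p => ∑ l ∈ E, f l * wc A (off κ l) (κ l) p
  have hφ : ∀ p, o ≤ p → p < o + a + b → φ p = 0 := by
    intro p hp1 hp2
    refine Finset.sum_eq_zero (fun l hl => ?_)
    obtain ⟨h1, h2⟩ := hEmem l hl
    have h3 : wc A (off κ l) (κ l) p = 0 := by
      apply v1w_wc
      rcases Nat.lt_or_ge l k with h4 | h4
      · right
        rw [← off_succ]
        exact le_trans (off_mono κ (show l + 1 ≤ k by omega)) hp1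
      · left
        have h5 : off κ (k + 2) ≤ off κ l := off_mono κ (by omega)
        rw [off_succ, off_succ] at h5
        exact lt_of_lt_of_le hp2 h5
    rw [h3, mul_zero]
  have h1 : Ph n m κ A f = f k • vec1 n (wc A o a) + (f (k + 1) • vec1 n (wc A (o + a) b) +
      vec1 n φ) := by
    rw [← vec1_smul, ← vec1_smul, ← vec1_add, ← vec1_add]
    unfold Ph
    refine vec1_congr (fun p _ => ?_)
    rw [v1w_split hk, hoff1]
  rw [h1, hbl, Matrix.mulVec_add, Matrix.mulVec_add, Matrix.mulVec_smul, Matrix.mulVec_smul,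
    bw_vec1_left hA ho, bw_vec1_right hA ho, bw_vec1_far hA ho φ hφ]
  rw [smul_comm (f k), smul_comm (f (k + 1)), ← smul_add, ← smul_add]
  congr 1
  rw [← vec1_smul, ← vec1_smul, ← vec1_add, ← vec1_add]
  unfold Ph
  refine vec1_congr (fun p _ => ?_)
  rw [v1w_split hk]
  have hoff2 : off (cs κ k) k = o := off_cs_le κ le_rfl
  have hoff3 : off (cs κ k) (k + 1) = o + b := by
    rw [off_succ, hoff2, cs_apply_left]
  rw [hoff2, hoff3, cs_apply_left, cs_apply_right, ← hadef, ← hbdef]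
  have hfar : ∑ l ∈ E, glet κ (A⁻¹ ^ 4) (A ^ 4) (k, true) f l *
      wc A (off (cs κ k) l) (cs κ k l) p = φ p := by
    refine Finset.sum_congr rfl (fun l hl => ?_)
    obtain ⟨h1, h2⟩ := hEmem l hl
    have e1 : off (cs κ k) l = off κ l := by
      rcases Nat.lt_or_ge l k with h4 | h4
      · exact off_cs_le κ (by omega)
      · exact off_cs_ge κ (by omega)
    have e2 : cs κ k l = κ l := cs_apply_ne κ h1 h2
    have e3 : glet κ (A⁻¹ ^ 4) (A ^ 4) (k, true) f l = f l := by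
      unfold glet
      simp only [if_true]
      rw [Equiv.swap_apply_of_ne_of_ne h1 h2, if_neg h2, if_neg h1]
      split_ifs <;> rfl
    rw [e1, e2, e3]
  rw [hfar]
  by_cases hz : κ k = 0 ∨ κ (k + 1) = 0
  · have e1 : glet κ (A⁻¹ ^ 4) (A ^ 4) (k, true) f k = f (k + 1) := by
      unfold glet
      rw [if_pos hz, Equiv.swap_apply_left]
    have e2 : glet κ (A⁻¹ ^ 4) (A ^ 4) (k, true) f (k + 1) = f k := by
      unfold glet
      rw [if_pos hz, Equiv.swap_apply_right]
    rw [e1, e2]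
    by_cases ha : a = 0
    · rw [ha, v1w_wc0, Nat.mul_zero, pow_zero]
      ring
    · have hb : b = 0 := by
        rcases hz with h | h
        · exact absurd h ha
        · exact h
      rw [hb, v1w_wc0, Nat.mul_zero, pow_zero]
      ring
  · have e1 : glet κ (A⁻¹ ^ 4) (A ^ 4) (k, true) f k =
        (1 - (A⁻¹ ^ 4) ^ a) * f k + f (k + 1) := by
      unfold glet
      simp only [if_true]
      rw [if_neg hz, if_neg (by omega)]
    have e2 : glet κ (A⁻¹ ^ 4) (A ^ 4) (k, true) f (k + 1) = (A⁻¹ ^ 4) ^ b * f k := by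
      unfold glet
      simp only [if_true]
      rw [if_neg hz]
    rw [e1, e2, ← pow_mul, ← pow_mul]
    ring

private theorem v1w_inv {κ : ℕ → ℕ} {k : ℕ} {Q Qi : ℂ} (hQ : Q * Qi = 1) (f : ℕ → ℂ) :
    glet (cs κ k) Q Qi (k, true) (glet κ Q Qi (k, false) f) = f := by
  funext p
  have hc1 : cs κ k k = κ (k + 1) := cs_apply_left κ k
  have hc2 : cs κ k (k + 1) = κ k := cs_apply_right κ k
  by_cases hz : κ k = 0 ∨ κ (k + 1) = 0
  · unfold glet
    simp only [hc1, hc2]
    rw [if_pos (Or.symm hz), if_pos hz, Equiv.swap_apply_self]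
  · have hz' : ¬ (κ (k + 1) = 0 ∨ κ k = 0) := fun h => hz (Or.symm h)
    have hQp : Q ^ κ k * Qi ^ κ k = 1 := by rw [← mul_pow, hQ, one_pow]
    unfold glet
    simp only [hc1, hc2, if_neg hz, if_neg hz', if_true, Bool.false_eq_true, if_false]
    by_cases h1 : p = k + 1
    · subst h1
      rw [if_pos rfl, ← mul_assoc, hQp, one_mul]
    · rw [if_neg h1]
      by_cases h2 : p = k
      · subst h2
        rw [if_pos rfl, if_neg (by omega)]
        ring
      · rw [if_neg h2, if_neg h2, if_neg h1]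

private theorem v1w_letter {m n : ℕ} {κ : ℕ → ℕ} (hn : off κ m = n) {x : ℕ × Bool}
    (hx : x.1 + 1 < m) {A : ℂ} (hA : A ≠ 0) : ∃ e : ℤ, ∀ f : ℕ → ℂ,
    wordMat n A A⁻¹ (blockLetter κ x) *ᵥ Ph n m κ A f =
      A ^ e • Ph n m (cs κ x.1) A (glet κ (A⁻¹ ^ 4) (A ^ 4) x f) := by
  rcases x with ⟨k, s⟩
  cases s with
  | true =>
    refine ⟨((κ k * κ (k + 1) : ℕ) : ℤ), fun f => ?_⟩
    rw [zpow_natCast]
    exact v1w_pos hn hx hA f
  | false =>
    have hn' : off (cs κ k) m = n := by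
      rw [off_cs_ge κ (show k + 2 ≤ m from hx), hn]
    refine ⟨-((cs κ k k * cs κ k (k + 1) : ℕ) : ℤ), fun f => ?_⟩
    have h1 := v1w_pos hn' hx hA (glet κ (A⁻¹ ^ 4) (A ^ 4) (k, false) f)
    have hQ : A⁻¹ ^ 4 * A ^ 4 = 1 := by rw [← mul_pow, inv_mul_cancel₀ hA, one_pow]
    rw [cs_cs, v1w_inv hQ] at h1
    have hbl : blockLetter κ (k, false) = winv (blockLetter (cs κ k) (k, true)) := by
      simp only [blockLetter, Bool.false_eq_true, if_false, if_true]
      rw [off_cs_le κ le_rfl, cs_apply_left, cs_apply_right]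
    have h2 := wordMat_mul_winv n A A⁻¹ (mul_inv_cancel₀ hA) (blockLetter (cs κ k) (k, true))
    rw [← hbl] at h2
    have h3 := mul_eq_one_comm.1 h2
    have h4 : wordMat n A A⁻¹ (blockLetter κ (k, false)) *ᵥ
        (wordMat n A A⁻¹ (blockLetter (cs κ k) (k, true)) *ᵥ
          Ph n m (cs κ k) A (glet κ (A⁻¹ ^ 4) (A ^ 4) (k, false) f)) =
        Ph n m (cs κ k) A (glet κ (A⁻¹ ^ 4) (A ^ 4) (k, false) f) := by
      rw [Matrix.mulVec_mulVec, h3, Matrix.one_mulVec]
    rw [h1, Matrix.mulVec_smul] at h4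
    rw [← h4, smul_smul, _root_.zpow_neg, zpow_natCast, inv_mul_cancel₀ (pow_ne_zero _ hA),
      one_smul]

private theorem v1w_off {m : ℕ} (c : ℕ → ℕ) : ∀ {w : List (ℕ × Bool)}, Letters m w →
    off (outc c w) m = off c m
  | [], _ => rfl
  | x :: w, hw => by
    have hx : x.1 + 1 < m := hw x (by simp)
    show off (cs (outc c w) x.1) m = off c m
    rw [off_cs_ge _ (show x.1 + 2 ≤ m from hx), v1w_off c (fun y hy => hw y (by simp [hy]))]

/-- cabled braids act on the vectors with one particle by the coloured Gassner representation -/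
theorem ph_word {m n : ℕ} {w : List (ℕ × Bool)} (hw : Letters m w) (c : ℕ → ℕ) (hn : off c m = n)
    {A : ℂ} (hA : A ≠ 0) : ∃ e : ℤ, ∀ f : ℕ → ℂ,
      wordMat n A A⁻¹ (cab c w) *ᵥ Ph n m c A f =
        A ^ e • Ph n m (outc c w) A (gl c (A⁻¹ ^ 4) (A ^ 4) w f) := by
  induction w with
  | nil =>
    refine ⟨0, fun f => ?_⟩
    rw [zpow_zero, one_smul]
    show wordMat n A A⁻¹ [] *ᵥ Ph n m c A f = Ph n m c A f
    rw [wordMat_nil, Matrix.one_mulVec]
  | cons x w ih =>
    have hw' : Letters m w := fun y hy => hw y (by simp [hy])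
    obtain ⟨e, he⟩ := ih hw'
    have hx : x.1 + 1 < m := hw x (by simp)
    obtain ⟨e', he'⟩ := v1w_letter (κ := outc c w) ((v1w_off c hw').trans hn) hx hA
    refine ⟨e' + e, fun f => ?_⟩
    show wordMat n A A⁻¹ (blockLetter (outc c w) x ++ cab c w) *ᵥ Ph n m c A f =
      A ^ (e' + e) • Ph n m (cs (outc c w) x.1) A
        (glet (outc c w) (A⁻¹ ^ 4) (A ^ 4) x (gl c (A⁻¹ ^ 4) (A ^ 4) w f))
    rw [wordMat_append, ← Matrix.mulVec_mulVec, he, Matrix.mulVec_smul, he', smul_smul,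
      zpow_add₀ hA, mul_comm (A ^ e) (A ^ e')]

end Pool.Agent.AMU
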