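import Pool.Agent.AMU0.V1

open Matrix

namespace Pool.Agent.AMU

variable {n : ℕ} {A : ℂ}

/-- the operator of a generator on functions of two particles, normalised -/
noncomputable def top2 (A : ℂ) (i : ℕ) (φ : ℕ → ℕ → ℂ) : ℕ → ℕ → ℂ := fun p p' =>
  if p = i ∧ p' = i + 1 then φ p p'
  else if p = i + 1 then A⁻¹ ^ 2 * φ i p'
  else if p' = i + 1 then A⁻¹ ^ 2 * φ p i
  else if p = i then (1 - A⁻¹ ^ 4) * φ i p' + A⁻¹ ^ 2 * φ (i + 1) p'
  else if p' = i then (1 - A⁻¹ ^ 4) * φ p i + A⁻¹ ^ 2 * φ p (i + 1)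
  else φ p p'

/-- the ones of the configuration `x` are at the positions `a < b` -/
def v2At (n : ℕ) (x : Idx n) (a b : ℕ) : Prop :=
  a < b ∧ b < n ∧ ∀ j, j < n → bit n x j = (decide (j = a) || decide (j = b))

lemma v2_ones {n : ℕ} {x : Idx n} {a b : ℕ} (h : v2At n x a b) : ones n x = 2 := by
  obtain ⟨hab, hb, hx⟩ := h
  rw [v1_ones_eq, ← Finset.sum_filter, Finset.sum_const, smul_eq_mul, mul_one,
    Finset.card_eq_two]
  refine ⟨a, b, hab.ne, ?_⟩
  ext j
  rw [Finset.mem_filter, Finset.mem_range, Finset.mem_insert, Finset.mem_singleton]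
  constructor
  · rintro ⟨h1, h2⟩
    rw [hx j h1] at h2
    simpa using h2
  · intro h1
    have h2 : j < n := by omega
    refine ⟨h2, ?_⟩
    rw [hx j h2]
    simpa using h1

lemma v2_exists {n : ℕ} {x : Idx n} (h : ones n x = 2) : ∃ a b, v2At n x a b := by
  have key : ∀ a b : ℕ, a < b →
      (Finset.range n).filter (fun p => bit n x p = true) = {a, b} → v2At n x a b := by
    intro a b hab hs
    have h1 : ∀ j, (j < n ∧ bit n x j = true) ↔ (j = a ∨ j = b) := by
      intro j
      have h2 : j ∈ (Finset.range n).filter (fun p => bit n x p = true) ↔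
          j ∈ ({a, b} : Finset ℕ) := by rw [hs]
      rw [Finset.mem_filter, Finset.mem_range, Finset.mem_insert, Finset.mem_singleton] at h2
      exact h2
    refine ⟨hab, ((h1 b).2 (Or.inr rfl)).1, fun j hj => ?_⟩
    by_cases h3 : j = a ∨ j = b
    · rw [((h1 j).2 h3).2]
      rcases h3 with h3 | h3 <;> simp [h3]
    · have h4 : bit n x j ≠ true := fun h5 => h3 ((h1 j).1 ⟨hj, h5⟩)
      have h5 : bit n x j = false := by simpa using h4
      rw [h5]
      have h6 : ¬ j = a := fun h => h3 (Or.inl h)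
      have h7 : ¬ j = b := fun h => h3 (Or.inr h)
      simp [h6, h7]
  rw [v1_ones_eq, ← Finset.sum_filter, Finset.sum_const, smul_eq_mul, mul_one,
    Finset.card_eq_two] at h
  obtain ⟨a, b, hab, hs⟩ := h
  rcases lt_or_gt_of_ne hab with h1 | h1
  · exact ⟨a, b, key a b h1 hs⟩
  · exact ⟨b, a, key b a h1 (by rw [hs, Finset.pair_comm])⟩

lemma v2_vec2_of_ne {n : ℕ} {x : Idx n} (h : ones n x ≠ 2) (φ : ℕ → ℕ → ℂ) : vec2 n φ x = 0 := by
  simp [vec2, h]

lemma v2_vec2_of {n : ℕ} {x : Idx n} {a b : ℕ} (h : v2At n x a b) (φ : ℕ → ℕ → ℂ) :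
    vec2 n φ x = φ a b := by
  have h0 := v2_ones h
  obtain ⟨hab, hb, hx⟩ := h
  have ha : a < n := by omega
  have h1 : ∀ j, j < n → (bit n x j = true ↔ (j = a ∨ j = b)) := by
    intro j hj
    rw [hx j hj]
    simp
  unfold vec2
  rw [if_pos h0, Finset.sum_eq_single a]
  · rw [Finset.sum_eq_single b]
    · rw [if_pos ⟨hab, (h1 a ha).2 (Or.inl rfl), (h1 b hb).2 (Or.inr rfl)⟩]
    · intro j hj hjb
      rw [if_neg]
      rintro ⟨h2, -, h3⟩
      rcases (h1 j (Finset.mem_range.1 hj)).1 h3 with h4 | h4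
      · omega
      · exact hjb h4
    · intro h'
      exact absurd (Finset.mem_range.2 hb) h'
  · intro j hj hja
    refine Finset.sum_eq_zero fun k hk => ?_
    rw [if_neg]
    rintro ⟨h2, h3, h4⟩
    rcases (h1 j (Finset.mem_range.1 hj)).1 h3 with h5 | h5
    · exact hja h5
    · rcases (h1 k (Finset.mem_range.1 hk)).1 h4 with h6 | h6 <;> omega
  · intro h'
    exact absurd (Finset.mem_range.2 ha) h'

/-- the exchange of two bits -/
lemma v2_swap {n i : ℕ} (hi : i + 1 < n) {x : Idx n} {a b : ℕ} (h : v2At n x a b)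
    (h' : ¬ (a = i ∧ b = i + 1)) :
    v2At n (swapIdx n i x) (Equiv.swap i (i + 1) a) (Equiv.swap i (i + 1) b) := by
  obtain ⟨hab, hb, hx⟩ := h
  have hsw : ∀ j, Equiv.swap i (i + 1) j = if j = i then i + 1 else if j = i + 1 then i else j :=
    fun j => Equiv.swap_apply_def i (i + 1) j
  refine ⟨?_, ?_, fun j hj => ?_⟩
  · rw [hsw, hsw]
    split_ifs <;> omega
  · rw [hsw]
    split_ifs <;> omega
  · rw [bit_swap n i x j hi hj]
    have h1 : Equiv.swap i (i + 1) j < n := by
      rw [hsw]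
      split_ifs <;> omega
    rw [hx _ h1]
    have h2 : ∀ c, (Equiv.swap i (i + 1) j = c) ↔ (j = Equiv.swap i (i + 1) c) := by
      intro c
      constructor
      · rintro rfl
        exact (Equiv.swap_apply_self _ _ _).symm
      · rintro rfl
        exact Equiv.swap_apply_self _ _ _
    simp only [h2]

lemma v2_exists_conf {n a b : ℕ} (hab : a < b) (hb : b < n) : ∃ x : Idx n, v2At n x a b := by
  obtain ⟨x, hx⟩ := v1_exists_conf n (fun j => decide (j = a) || decide (j = b))
  exact ⟨x, hab, hb, hx⟩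

theorem letter_vec2 (hA : A ≠ 0) {i : ℕ} (hi : i + 1 < n) (φ : ℕ → ℕ → ℂ) :
    letter n A A⁻¹ (i, true) *ᵥ vec2 n φ = A • vec2 n (top2 A i φ) := by
  have hAA : A * A⁻¹ = 1 := mul_inv_cancel₀ hA
  funext x
  have h0 : letter n A A⁻¹ (i, true) = A • 1 + A⁻¹ • tl n A A⁻¹ i := by
    simp [letter]
  rw [h0, Matrix.add_mulVec, Matrix.smul_mulVec, Matrix.smul_mulVec, Matrix.one_mulVec,
    Pi.add_apply, Pi.smul_apply, Pi.smul_apply, Pi.smul_apply, smul_eq_mul, smul_eq_mul,
    smul_eq_mul, tl_apply hi]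
  by_cases h : ones n x = 2
  · obtain ⟨a, b, hx⟩ := v2_exists h
    rw [v2_vec2_of hx, v2_vec2_of hx]
    by_cases h1 : a = i ∧ b = i + 1
    · obtain ⟨rfl, rfl⟩ := h1
      rw [hx.2.2 a (by omega), hx.2.2 (a + 1) hi]
      rw [if_pos (by simp)]
      unfold top2
      rw [if_pos ⟨rfl, rfl⟩]
      ring
    · have hs := v2_swap hi hx h1
      rw [v2_vec2_of hs]
      obtain ⟨hab, hb, hxb⟩ := hx
      rw [hxb i (by omega), hxb (i + 1) hi]
      unfold top2
      rw [if_neg h1]
      by_cases h2 : a = i + 1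
      · subst h2
        have e1 : Equiv.swap i (i + 1) (i + 1) = i := Equiv.swap_apply_right _ _
        have e2 : Equiv.swap i (i + 1) b = b :=
          Equiv.swap_apply_of_ne_of_ne (by omega) (by omega)
        have e3 : i ≠ b := by omega
        rw [e1, e2, if_pos rfl, if_neg (by simp [e3]), if_neg (by simp [e3])]
        linear_combination (-(A⁻¹ * φ i b) - A * φ (i + 1) b) * hAA
      · rw [if_neg h2]
        by_cases h3 : b = i + 1
        · subst h3
          have h4 : a ≠ i := fun h => h1 ⟨h, rfl⟩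
          have e1 : Equiv.swap i (i + 1) (i + 1) = i := Equiv.swap_apply_right _ _
          have e2 : Equiv.swap i (i + 1) a = a :=
            Equiv.swap_apply_of_ne_of_ne h4 h2
          rw [e1, e2, if_pos rfl, if_neg (by simp [h4.symm]), if_neg (by simp [h4.symm])]
          linear_combination (-(A⁻¹ * φ a i) - A * φ a (i + 1)) * hAA
        · rw [if_neg h3]
          by_cases h4 : a = i
          · subst h4
            have e1 : Equiv.swap a (a + 1) a = a + 1 := Equiv.swap_apply_left _ _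
            have e2 : Equiv.swap a (a + 1) b = b :=
              Equiv.swap_apply_of_ne_of_ne (by omega) h3
            have e3 : a ≠ b := by omega
            have e4 : a + 1 ≠ b := fun h => h3 h.symm
            rw [e1, e2, if_pos rfl, if_neg (by simp [e4]), if_pos (by simp)]
            linear_combination (A⁻¹ * φ (a + 1) b - A⁻¹ ^ 3 * φ a b) * (-hAA)
          · rw [if_neg h4]
            have e4 : i + 1 ≠ b := fun h => h3 h.symm
            have e5 : i + 1 ≠ a := fun h => h2 h.symm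
            have e6 : i ≠ a := fun h => h4 h.symm
            by_cases h5 : b = i
            · subst h5
              have e1 : Equiv.swap b (b + 1) b = b + 1 := Equiv.swap_apply_left _ _
              have e2 : Equiv.swap b (b + 1) a = a :=
                Equiv.swap_apply_of_ne_of_ne h4 h2
              rw [e1, e2, if_pos rfl, if_neg (by simp [e5]), if_pos (by simp)]
              linear_combination (A⁻¹ * φ a (b + 1) - A⁻¹ ^ 3 * φ a b) * (-hAA)
            · have e7 : i ≠ b := fun h => h5 h.symm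
              rw [if_neg h5, if_pos (by simp [e4, e5, e6, e7])]
              ring
  · have h1 : ones n (swapIdx n i x) ≠ 2 := by rwa [v1_ones_swap hi]
    rw [v2_vec2_of_ne h, v2_vec2_of_ne h, v2_vec2_of_ne h1]
    simp

theorem vec2_congr {φ ψ : ℕ → ℕ → ℂ} (h : ∀ p p', p < p' → p' < n → φ p p' = ψ p p') :
    vec2 n φ = vec2 n ψ := by
  funext x
  by_cases hx : ones n x = 2
  · obtain ⟨a, b, hx⟩ := v2_exists hx
    rw [v2_vec2_of hx, v2_vec2_of hx]
    exact h a b hx.1 hx.2.1
  · rw [v2_vec2_of_ne hx, v2_vec2_of_ne hx]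

theorem vec2_add (φ ψ : ℕ → ℕ → ℂ) :
    vec2 n (fun p p' => φ p p' + ψ p p') = vec2 n φ + vec2 n ψ := by
  funext x
  rw [Pi.add_apply]
  by_cases hx : ones n x = 2
  · obtain ⟨a, b, hx⟩ := v2_exists hx
    rw [v2_vec2_of hx, v2_vec2_of hx, v2_vec2_of hx]
  · rw [v2_vec2_of_ne hx, v2_vec2_of_ne hx, v2_vec2_of_ne hx, add_zero]

theorem vec2_smul (a : ℂ) (φ : ℕ → ℕ → ℂ) : vec2 n (fun p p' => a * φ p p') = a • vec2 n φ := by
  funext x
  rw [Pi.smul_apply, smul_eq_mul]
  by_cases hx : ones n x = 2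
  · obtain ⟨a, b, hx⟩ := v2_exists hx
    rw [v2_vec2_of hx, v2_vec2_of hx]
  · rw [v2_vec2_of_ne hx, v2_vec2_of_ne hx, mul_zero]

theorem vec2_zero {φ : ℕ → ℕ → ℂ} (h : vec2 n φ = 0) {p p' : ℕ} (hp : p < p') (hp' : p' < n) :
    φ p p' = 0 := by
  obtain ⟨x, hx⟩ := v2_exists_conf hp hp'
  have h1 := congrFun h x
  rw [v2_vec2_of hx] at h1
  exact h1

end Pool.Agent.AMU
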