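import Pool.Agent.AMU0.V2
import Pool.Agent.AMU0.V1B

open Matrix

namespace Pool.Agent.AMU

variable {n : ℕ} {A : ℂ}

/-- two particles in two cables -/
noncomputable def cc (A : ℂ) (o a o' a' : ℕ) : ℕ → ℕ → ℂ := fun p p' => wc A o a p * wc A o' a' p'

/-- a function of two positions with the standard weights -/
noncomputable def v2b1_E (A : ℂ) (K : ℕ → ℕ → ℂ) : ℕ → ℕ → ℂ := fun p p' =>
  A⁻¹ ^ (2 * p) * A⁻¹ ^ (2 * p') * K p p'

/-- the operator of a generator for functions without the weights -/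
noncomputable def v2b1_k (Q : ℂ) (i : ℕ) (K : ℕ → ℕ → ℂ) : ℕ → ℕ → ℂ := fun p p' =>
  if p = i ∧ p' = i + 1 then K p p'
  else if p = i + 1 then K i p'
  else if p' = i + 1 then K p i
  else if p = i then (1 - Q) * K i p' + Q * K (i + 1) p'
  else if p' = i then (1 - Q) * K p i + Q * K p (i + 1)
  else K p p'

theorem v2b1_top (A : ℂ) (i : ℕ) (K : ℕ → ℕ → ℂ) :
    top2 A i (v2b1_E A K) = v2b1_E A (v2b1_k (A⁻¹ ^ 4) i K) := by
  funext p p'
  unfold top2 v2b1_E v2b1_k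
  by_cases h1 : p = i ∧ p' = i + 1
  · rw [if_pos h1, if_pos h1]
  rw [if_neg h1, if_neg h1]
  by_cases h2 : p = i + 1
  · rw [if_pos h2, if_pos h2, h2]
    ring
  rw [if_neg h2, if_neg h2]
  by_cases h3 : p' = i + 1
  · rw [if_pos h3, if_pos h3, h3]
    ring
  rw [if_neg h3, if_neg h3]
  by_cases h4 : p = i
  · rw [if_pos h4, if_pos h4, h4]
    ring
  rw [if_neg h4, if_neg h4]
  by_cases h5 : p' = i
  · rw [if_pos h5, if_pos h5, h5]
    ring
  rw [if_neg h5, if_neg h5]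

theorem v2b1_letter (hA : A ≠ 0) {i : ℕ} (hi : i + 1 < n) (K : ℕ → ℕ → ℂ) :
    letter n A A⁻¹ (i, true) *ᵥ vec2 n (v2b1_E A K) =
      A • vec2 n (v2b1_E A (v2b1_k (A⁻¹ ^ 4) i K)) := by
  rw [letter_vec2 hA hi, v2b1_top]

theorem v2b1_congr {K K' : ℕ → ℕ → ℂ} (h : ∀ p p', p < p' → K p p' = K' p p') :
    vec2 n (v2b1_E A K) = vec2 n (v2b1_E A K') := by
  refine vec2_congr fun p p' hp _ => ?_
  unfold v2b1_E
  rw [h p p' hp]

/-- the class of a position: outside, part of the right cable which has crossed, left cable,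
moving strand, part of the right cable which has not crossed -/
def v2b1_c (o b a s e p : ℕ) : ℕ :=
  if p < o then 0 else if p < o + b then 1 else if p = o + b + s then 3
  else if p < o + b + a + 1 then 2 else if p < e then 4 else 0

/-- the class of a position between two rows -/
def v2b1_d (o b a e p : ℕ) : ℕ :=
  if p < o then 0 else if p < o + b then 1 else if p < o + b + a then 2
  else if p < e then 4 else 0

/-- table of the values -/
def v2b1_T (tAA tAB tAC tBB tBC tCC am bm mb mc : ℂ) : ℕ → ℕ → ℂ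
  | 1, 1 => tAA
  | 1, 2 => tAB
  | 1, 3 => am
  | 1, 4 => tAC
  | 2, 2 => tBB
  | 2, 3 => bm
  | 2, 4 => tBC
  | 3, 2 => mb
  | 3, 4 => mc
  | 4, 4 => tCC
  | _, _ => 0

section
variable {tAA tAB tAC tBB tBC tCC : ℂ} {AM BM MB MC : ℕ → ℂ}

theorem v2b1_step {Q : ℂ} {o b a s e : ℕ} (hs : s < a)
    (h1 : MB s = BM (s + 1)) (h2 : AM s = (1 - Q) * tAB + Q * AM (s + 1))
    (h3 : BM s = (1 - Q) * tBB + Q * BM (s + 1)) (h4 : MB s = (1 - Q) * tBB + Q * MB (s + 1))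
    (h5 : MC s = (1 - Q) * tBC + Q * MC (s + 1)) (p p' : ℕ) (hp : p < p') :
    v2b1_k Q (o + b + s) (fun p p' =>
      v2b1_T tAA tAB tAC tBB tBC tCC (AM (s + 1)) (BM (s + 1)) (MB (s + 1)) (MC (s + 1))
        (v2b1_c o b a (s + 1) e p) (v2b1_c o b a (s + 1) e p')) p p' =
      v2b1_T tAA tAB tAC tBB tBC tCC (AM s) (BM s) (MB s) (MC s)
        (v2b1_c o b a s e p) (v2b1_c o b a s e p') := by
  have ci : v2b1_c o b a (s + 1) e (o + b + s) = 2 := by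
    unfold v2b1_c
    split_ifs <;> omega
  have ci1 : v2b1_c o b a (s + 1) e (o + b + s + 1) = 3 := by
    unfold v2b1_c
    split_ifs <;> omega
  have di : v2b1_c o b a s e (o + b + s) = 3 := by
    unfold v2b1_c
    split_ifs <;> omega
  have di1 : v2b1_c o b a s e (o + b + s + 1) = 2 := by
    unfold v2b1_c
    split_ifs <;> omega
  have hne : ∀ x, x ≠ o + b + s → x ≠ o + b + s + 1 →
      v2b1_c o b a (s + 1) e x = v2b1_c o b a s e x := by
    intro x hx1 hx2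
    unfold v2b1_c
    split_ifs <;> omega
  have hlo : ∀ x, x < o + b + s → v2b1_c o b a s e x = 0 ∨ v2b1_c o b a s e x = 1 ∨
      v2b1_c o b a s e x = 2 := by
    intro x hx
    unfold v2b1_c
    split_ifs <;> omega
  have hhi : ∀ x, o + b + s + 1 < x → v2b1_c o b a s e x = 0 ∨ v2b1_c o b a s e x = 2 ∨
      v2b1_c o b a s e x = 4 := by
    intro x hx
    unfold v2b1_c
    split_ifs <;> omega
  unfold v2b1_k
  beta_reduce
  by_cases k1 : p = o + b + s ∧ p' = o + b + s + 1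
  · rw [if_pos k1, k1.1, k1.2, ci, ci1, di, di1]
    simp only [v2b1_T]
    exact h1.symm
  rw [if_neg k1]
  by_cases k2 : p = o + b + s + 1
  · rw [if_pos k2, k2, ci, di1, hne p' (by omega) (by omega)]
    rcases hhi p' (by omega) with h | h | h <;> rw [h] <;> simp only [v2b1_T]
  rw [if_neg k2]
  by_cases k3 : p' = o + b + s + 1
  · rw [if_pos k3, k3, ci, di1, hne p (by omega) (by omega)]
    rcases hlo p (by omega) with h | h | h <;> rw [h] <;> simp only [v2b1_T]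
  rw [if_neg k3]
  by_cases k4 : p = o + b + s
  · rw [if_pos k4, k4, ci, ci1, di, hne p' (by omega) (by omega)]
    rcases hhi p' (by omega) with h | h | h <;> rw [h] <;> simp only [v2b1_T]
    · ring
    · exact h4.symm
    · exact h5.symm
  rw [if_neg k4]
  by_cases k5 : p' = o + b + s
  · rw [if_pos k5, k5, ci, ci1, di, hne p (by omega) (by omega)]
    rcases hlo p (by omega) with h | h | h <;> rw [h] <;> simp only [v2b1_T]
    · ring
    · exact h2.symm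
    · exact h3.symm
  rw [if_neg k5, hne p k4 k2, hne p' k5 k3]
  have key : ∀ x, x ≠ o + b + s → x ≠ o + b + s + 1 → v2b1_c o b a s e x = 0 ∨
      v2b1_c o b a s e x = 1 ∨ v2b1_c o b a s e x = 2 ∨ v2b1_c o b a s e x = 4 := by
    intro x hx1 hx2
    unfold v2b1_c
    split_ifs <;> omega
  rcases key p k4 k2 with h | h | h | h <;> rcases key p' k5 k3 with h' | h' | h' | h' <;>
    rw [h, h'] <;> simp only [v2b1_T]

theorem v2b1_row (hA : A ≠ 0) {o b a e : ℕ} (hn : o + b + a < n)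
    (h1 : ∀ s, s < a → MB s = BM (s + 1))
    (h2 : ∀ s, s < a → AM s = (1 - A⁻¹ ^ 4) * tAB + A⁻¹ ^ 4 * AM (s + 1))
    (h3 : ∀ s, s < a → BM s = (1 - A⁻¹ ^ 4) * tBB + A⁻¹ ^ 4 * BM (s + 1))
    (h4 : ∀ s, s < a → MB s = (1 - A⁻¹ ^ 4) * tBB + A⁻¹ ^ 4 * MB (s + 1))
    (h5 : ∀ s, s < a → MC s = (1 - A⁻¹ ^ 4) * tBC + A⁻¹ ^ 4 * MC (s + 1)) :
    ∀ r s, s + r = a → wordMat n A A⁻¹ (row (o + b + s) r) *ᵥ vec2 n (v2b1_E A fun p p' =>
      v2b1_T tAA tAB tAC tBB tBC tCC (AM a) (BM a) (MB a) (MC a)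
        (v2b1_c o b a a e p) (v2b1_c o b a a e p')) =
      A ^ r • vec2 n (v2b1_E A fun p p' =>
        v2b1_T tAA tAB tAC tBB tBC tCC (AM s) (BM s) (MB s) (MC s)
          (v2b1_c o b a s e p) (v2b1_c o b a s e p')) := by
  intro r
  induction r with
  | zero =>
    intro s hs
    obtain rfl : s = a := by omega
    rw [show row (o + b + s) 0 = [] from rfl, wordMat_nil, Matrix.one_mulVec, pow_zero, one_smul]
  | succ r ih =>
    intro s hs
    rw [row_succ, wordMat_cons, ← Matrix.mulVec_mulVec,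
      show o + b + s + 1 = o + b + (s + 1) by ring, ih (s + 1) (by omega), Matrix.mulVec_smul,
      v2b1_letter hA (by omega), smul_smul, ← pow_succ,
      v2b1_congr (A := A) fun p p' hp => v2b1_step (by omega : s < a) (h1 s (by omega))
        (h2 s (by omega)) (h3 s (by omega)) (h4 s (by omega)) (h5 s (by omega)) p p' hp]

/-- the start of a row -/
theorem v2b1_start {o b a e : ℕ} {mb : ℂ} (he : o + b + a < e) (p p' : ℕ) (hp : p < p') :
    v2b1_T tAA tAB tAC tBB tBC tCC tAC tBC mb tCC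
      (v2b1_c o b a a e p) (v2b1_c o b a a e p') =
    v2b1_T tAA tAB tAC tBB tBC tCC 0 0 0 0 (v2b1_d o b a e p) (v2b1_d o b a e p') := by
  have key : (v2b1_c o b a a e p = v2b1_d o b a e p ∧ v2b1_c o b a a e p' = v2b1_d o b a e p' ∧
      v2b1_d o b a e p ≠ 3 ∧ v2b1_d o b a e p' ≠ 3 ∧
      v2b1_d o b a e p < 5 ∧ v2b1_d o b a e p' < 5) ∨
      (v2b1_c o b a a e p = 3 ∧ v2b1_d o b a e p = 4 ∧
        v2b1_c o b a a e p' = v2b1_d o b a e p' ∧
        (v2b1_d o b a e p' = 0 ∨ v2b1_d o b a e p' = 4)) ∨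
      (v2b1_c o b a a e p' = 3 ∧ v2b1_d o b a e p' = 4 ∧
        v2b1_c o b a a e p = v2b1_d o b a e p ∧
        (v2b1_d o b a e p = 0 ∨ v2b1_d o b a e p = 1 ∨ v2b1_d o b a e p = 2)) := by
    unfold v2b1_c v2b1_d
    split_ifs <;> omega
  rcases key with ⟨e1, e2, e3, e4, e5, e6⟩ | ⟨e1, e2, e3, e4⟩ | ⟨e1, e2, e3, e4⟩
  · rw [e1, e2]
    generalize v2b1_d o b a e p = x at *
    generalize v2b1_d o b a e p' = y at *
    interval_cases x <;> interval_cases y <;> first | (exfalso; omega) | simp only [v2b1_T]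
  · rw [e1, e2, e3]
    rcases e4 with h | h <;> rw [h] <;> simp only [v2b1_T]
  · rw [e1, e2, e3]
    rcases e4 with h | h | h <;> rw [h] <;> simp only [v2b1_T]

/-- the end of a row -/
theorem v2b1_end {o b a e : ℕ} {bm : ℂ} (p p' : ℕ) (hp : p < p') :
    v2b1_T tAA tAB tAC tBB tBC tCC tAA bm tAB tAC
      (v2b1_c o b a 0 e p) (v2b1_c o b a 0 e p') =
    v2b1_T tAA tAB tAC tBB tBC tCC 0 0 0 0 (v2b1_d o (b + 1) a e p) (v2b1_d o (b + 1) a e p') := by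
  have key : (v2b1_c o b a 0 e p = v2b1_d o (b + 1) a e p ∧
      v2b1_c o b a 0 e p' = v2b1_d o (b + 1) a e p' ∧
      v2b1_d o (b + 1) a e p ≠ 3 ∧ v2b1_d o (b + 1) a e p' ≠ 3 ∧
      v2b1_d o (b + 1) a e p < 5 ∧ v2b1_d o (b + 1) a e p' < 5) ∨
      (v2b1_c o b a 0 e p = 3 ∧ v2b1_d o (b + 1) a e p = 1 ∧
        v2b1_c o b a 0 e p' = v2b1_d o (b + 1) a e p' ∧
        (v2b1_d o (b + 1) a e p' = 0 ∨ v2b1_d o (b + 1) a e p' = 2 ∨
          v2b1_d o (b + 1) a e p' = 4)) ∨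
      (v2b1_c o b a 0 e p' = 3 ∧ v2b1_d o (b + 1) a e p' = 1 ∧
        v2b1_c o b a 0 e p = v2b1_d o (b + 1) a e p ∧
        (v2b1_d o (b + 1) a e p = 0 ∨ v2b1_d o (b + 1) a e p = 1)) := by
    unfold v2b1_c v2b1_d
    split_ifs <;> omega
  rcases key with ⟨e1, e2, e3, e4, e5, e6⟩ | ⟨e1, e2, e3, e4⟩ | ⟨e1, e2, e3, e4⟩
  · rw [e1, e2]
    generalize v2b1_d o (b + 1) a e p = x at *
    generalize v2b1_d o (b + 1) a e p' = y at *
    interval_cases x <;> interval_cases y <;> first | (exfalso; omega) | simp only [v2b1_T]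
  · rw [e1, e2, e3]
    rcases e4 with h | h | h <;> rw [h] <;> simp only [v2b1_T]
  · rw [e1, e2, e3]
    rcases e4 with h | h <;> rw [h] <;> simp only [v2b1_T]

/-- the crossing of two cables -/
theorem v2b1_main (hA : A ≠ 0) {o a b : ℕ} (hn : o + a + b ≤ n)
    (h1 : ∀ s, s < a → MB s = BM (s + 1))
    (h2 : ∀ s, s < a → AM s = (1 - A⁻¹ ^ 4) * tAB + A⁻¹ ^ 4 * AM (s + 1))
    (h3 : ∀ s, s < a → BM s = (1 - A⁻¹ ^ 4) * tBB + A⁻¹ ^ 4 * BM (s + 1))
    (h4 : ∀ s, s < a → MB s = (1 - A⁻¹ ^ 4) * tBB + A⁻¹ ^ 4 * MB (s + 1))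
    (h5 : ∀ s, s < a → MC s = (1 - A⁻¹ ^ 4) * tBC + A⁻¹ ^ 4 * MC (s + 1))
    (g1 : AM 0 = tAA) (g2 : MB 0 = tAB) (g3 : MC 0 = tAC) (g4 : AM a = tAC) (g5 : BM a = tBC)
    (g6 : MC a = tCC) : ∀ b', b' ≤ b →
    wordMat n A A⁻¹ (bw o a b') *ᵥ vec2 n (v2b1_E A fun p p' =>
      v2b1_T tAA tAB tAC tBB tBC tCC 0 0 0 0
        (v2b1_d o 0 a (o + a + b) p) (v2b1_d o 0 a (o + a + b) p')) =
      A ^ (a * b') • vec2 n (v2b1_E A fun p p' =>
        v2b1_T tAA tAB tAC tBB tBC tCC 0 0 0 0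
          (v2b1_d o b' a (o + a + b) p) (v2b1_d o b' a (o + a + b) p')) := by
  intro b'
  induction b' with
  | zero =>
    intro _
    rw [show bw o a 0 = [] from rfl, wordMat_nil, Matrix.one_mulVec, Nat.mul_zero, pow_zero,
      one_smul]
  | succ b' ih =>
    intro hb
    have hr := v2b1_row (tAA := tAA) (tAC := tAC) (tCC := tCC) (e := o + a + b) hA
      (show o + b' + a < n by omega) h1 h2 h3 h4 h5 a 0 (by omega)
    rw [g1, g2, g3, g4, g5, g6] at hr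
    rw [v2b1_congr (A := A) fun p p' hp => v2b1_start (mb := MB a)
        (show o + b' + a < o + a + b by omega) p p' hp,
      v2b1_congr (A := A) fun p p' hp => v2b1_end (bm := BM 0) p p' hp] at hr
    rw [show bw o a (b' + 1) = row (o + b') a ++ bw o a b' from rfl, wordMat_append,
      ← Matrix.mulVec_mulVec, ih (by omega), Matrix.mulVec_smul]
    rw [show o + b' + 0 = o + b' by ring] at hr
    rw [hr, smul_smul, ← pow_add]
    congr 2

end

theorem v2b1_pow (hA : A ≠ 0) (m : ℕ) : A⁻¹ ^ m * A ^ m = 1 := by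
  rw [← mul_pow, inv_mul_cancel₀ hA, one_pow]

/-- the value of a weight function -/
theorem v2b1_wc (o a p : ℕ) : wc A o a p =
    A⁻¹ ^ (2 * p) * (if o ≤ p ∧ p < o + a then A ^ (4 * o) else 0) := by
  unfold wc
  split_ifs
  · ring
  · ring

theorem v2b1_d0 (o a b p : ℕ) :
    (v2b1_d o 0 a (o + a + b) p = 0 ∧ ¬ (o ≤ p ∧ p < o + a) ∧
      ¬ (o + a ≤ p ∧ p < o + a + b)) ∨
    (v2b1_d o 0 a (o + a + b) p = 2 ∧ (o ≤ p ∧ p < o + a) ∧
      ¬ (o + a ≤ p ∧ p < o + a + b)) ∨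
    (v2b1_d o 0 a (o + a + b) p = 4 ∧ ¬ (o ≤ p ∧ p < o + a) ∧
      (o + a ≤ p ∧ p < o + a + b)) := by
  unfold v2b1_d
  split_ifs <;> omega

theorem v2b1_d1 (o a b p : ℕ) :
    (v2b1_d o b a (o + a + b) p = 0 ∧ ¬ (o ≤ p ∧ p < o + b) ∧
      ¬ (o + b ≤ p ∧ p < o + b + a)) ∨
    (v2b1_d o b a (o + a + b) p = 1 ∧ (o ≤ p ∧ p < o + b) ∧
      ¬ (o + b ≤ p ∧ p < o + b + a)) ∨
    (v2b1_d o b a (o + a + b) p = 2 ∧ ¬ (o ≤ p ∧ p < o + b) ∧
      (o + b ≤ p ∧ p < o + b + a)) := by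
  unfold v2b1_d
  split_ifs <;> omega

section
variable (hA : A ≠ 0) {o a b : ℕ} (hn : o + a + b ≤ n)
include hA hn

theorem bw_LL : wordMat n A A⁻¹ (bw o a b) *ᵥ vec2 n (cc A o a o a) =
    A ^ (a * b) • vec2 n (fun p p' =>
      (1 - A⁻¹ ^ (4 * a)) * (1 - A ^ 4 * A⁻¹ ^ (4 * a)) * cc A o b o b p p'
        + A⁻¹ ^ (4 * b) * (1 - A ^ 4 * A⁻¹ ^ (4 * a)) * cc A o b (o + b) a p p'
        + (A⁻¹ ^ (4 * b)) ^ 2 * cc A (o + b) a (o + b) a p p') := by
  have hw : A⁻¹ ^ 4 * A ^ 4 = 1 := v2b1_pow hA 4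
  have ha : A⁻¹ ^ (4 * a) * A ^ (4 * a) = 1 := v2b1_pow hA (4 * a)
  have hb : A⁻¹ ^ (4 * b) * A ^ (4 * (o + b)) = A ^ (4 * o) := by
    have h := v2b1_pow hA (4 * b)
    linear_combination A ^ (4 * o) * h
  have hm := v2b1_main (n := n) (o := o) (a := a) (b := b)
    (tAA := A ^ (4 * o) * A ^ (4 * o) * ((1 - A⁻¹ ^ (4 * a)) * (1 - A ^ 4 * A⁻¹ ^ (4 * a))))
    (tAB := A ^ (4 * o) * A ^ (4 * o) * (1 - A ^ 4 * A⁻¹ ^ (4 * a)))
    (tAC := 0) (tBB := A ^ (4 * o) * A ^ (4 * o)) (tBC := 0) (tCC := 0)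
    (AM := fun s => A ^ (4 * o) * A ^ (4 * o) *
      ((1 - A ^ 4 * A⁻¹ ^ (4 * a)) * (1 - A⁻¹ ^ (4 * a) * A ^ (4 * s))))
    (BM := fun s => A ^ (4 * o) * A ^ (4 * o) * (1 - A⁻¹ ^ (4 * a) * A ^ (4 * s)))
    (MB := fun s => A ^ (4 * o) * A ^ (4 * o) * (1 - A⁻¹ ^ (4 * a) * A ^ (4 * (s + 1))))
    (MC := fun _ => 0) hA hn
    (fun s _ => rfl)
    (fun s _ => by
      beta_reduce
      linear_combination A ^ (4 * o) * A ^ (4 * o) * (1 - A ^ 4 * A⁻¹ ^ (4 * a)) *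
        A⁻¹ ^ (4 * a) * A ^ (4 * s) * hw)
    (fun s _ => by
      beta_reduce
      linear_combination A ^ (4 * o) * A ^ (4 * o) * A⁻¹ ^ (4 * a) * A ^ (4 * s) * hw)
    (fun s _ => by
      beta_reduce
      linear_combination A ^ (4 * o) * A ^ (4 * o) * A⁻¹ ^ (4 * a) * A ^ (4 * (s + 1)) * hw)
    (fun s _ => by ring)
    (by beta_reduce; ring) (by beta_reduce; ring) rfl
    (by
      beta_reduce
      linear_combination -(A ^ (4 * o) * A ^ (4 * o) * (1 - A ^ 4 * A⁻¹ ^ (4 * a))) * ha)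
    (by
      beta_reduce
      linear_combination -(A ^ (4 * o) * A ^ (4 * o)) * ha) rfl b le_rfl
  refine Eq.trans (congrArg _ (vec2_congr fun p p' hp _ => ?_)) (hm.trans
    (congrArg _ (vec2_congr fun p p' hp _ => ?_)))
  · unfold cc
    rw [v2b1_wc, v2b1_wc]
    unfold v2b1_E
    rcases v2b1_d0 o a b p with ⟨e1, e2, e3⟩ | ⟨e1, e2, e3⟩ | ⟨e1, e2, e3⟩ <;>
      rcases v2b1_d0 o a b p' with ⟨f1, f2, f3⟩ | ⟨f1, f2, f3⟩ | ⟨f1, f2, f3⟩ <;>
      first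
        | (exfalso; omega)
        | (simp only [e1, e2, e3, f1, f2, f3, v2b1_T, if_true, if_false, and_self]; ring)
  · unfold cc
    simp only [v2b1_wc]
    generalize A ^ (4 * (o + b)) = Y at hb ⊢
    generalize A⁻¹ ^ (4 * b) = z at hb ⊢
    rw [← hb]
    unfold v2b1_E
    rcases v2b1_d1 o a b p with ⟨e1, e2, e3⟩ | ⟨e1, e2, e3⟩ | ⟨e1, e2, e3⟩ <;>
      rcases v2b1_d1 o a b p' with ⟨f1, f2, f3⟩ | ⟨f1, f2, f3⟩ | ⟨f1, f2, f3⟩ <;>
      first
        | (exfalso; omega)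
        | (simp only [e1, e2, e3, f1, f2, f3, v2b1_T, if_true, if_false, and_self]; ring)

theorem bw_LR : wordMat n A A⁻¹ (bw o a b) *ᵥ vec2 n (cc A o a (o + a) b) =
    A ^ (a * b) • vec2 n (fun p p' =>
      (1 + A ^ 4) * (1 - A⁻¹ ^ (4 * a)) * cc A o b o b p p'
        + A ^ 4 * A⁻¹ ^ (4 * b) * cc A o b (o + b) a p p') := by
  have hw : A⁻¹ ^ 4 * A ^ 4 = 1 := v2b1_pow hA 4
  have ha : A⁻¹ ^ (4 * a) * A ^ (4 * a) = 1 := v2b1_pow hA (4 * a)
  have hb : A⁻¹ ^ (4 * b) * A ^ (4 * (o + b)) = A ^ (4 * o) := by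
    have h := v2b1_pow hA (4 * b)
    linear_combination A ^ (4 * o) * h
  have hm := v2b1_main (n := n) (o := o) (a := a) (b := b)
    (tAA := A ^ (4 * o) * A ^ (4 * o) * ((1 + A ^ 4) * (1 - A⁻¹ ^ (4 * a))))
    (tAB := A ^ (4 * o) * A ^ (4 * o) * A ^ 4)
    (tAC := A ^ (4 * o) * A ^ (4 * o) * (A ^ (4 * a) - 1)) (tBB := 0)
    (tBC := A ^ (4 * o) * A ^ (4 * o) * A ^ (4 * a)) (tCC := 0)
    (AM := fun s => A ^ (4 * o) * A ^ (4 * o) *
      (A ^ 4 + A ^ (4 * s) - (1 + A ^ 4) * A⁻¹ ^ (4 * a) * A ^ (4 * s)))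
    (BM := fun s => A ^ (4 * o) * A ^ (4 * o) * A ^ (4 * s))
    (MB := fun s => A ^ (4 * o) * A ^ (4 * o) * A ^ (4 * (s + 1)))
    (MC := fun s => A ^ (4 * o) * A ^ (4 * o) * (A ^ (4 * a) - A ^ (4 * s))) hA hn
    (fun s _ => rfl)
    (fun s _ => by
      beta_reduce
      linear_combination -(A ^ (4 * o) * A ^ (4 * o) *
        (A ^ (4 * s) - (1 + A ^ 4) * A⁻¹ ^ (4 * a) * A ^ (4 * s))) * hw)
    (fun s _ => by
      beta_reduce
      linear_combination -(A ^ (4 * o) * A ^ (4 * o) * A ^ (4 * s)) * hw)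
    (fun s _ => by
      beta_reduce
      linear_combination -(A ^ (4 * o) * A ^ (4 * o) * A ^ (4 * (s + 1))) * hw)
    (fun s _ => by
      beta_reduce
      linear_combination (A ^ (4 * o) * A ^ (4 * o) * A ^ (4 * s)) * hw)
    (by beta_reduce; ring) (by beta_reduce; ring) (by beta_reduce; ring)
    (by
      beta_reduce
      linear_combination -(A ^ (4 * o) * A ^ (4 * o) * (1 + A ^ 4)) * ha)
    rfl (by beta_reduce; ring) b le_rfl
  refine Eq.trans (congrArg _ (vec2_congr fun p p' hp _ => ?_)) (hm.trans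
    (congrArg _ (vec2_congr fun p p' hp _ => ?_)))
  · unfold cc
    rw [v2b1_wc, v2b1_wc]
    unfold v2b1_E
    rcases v2b1_d0 o a b p with ⟨e1, e2, e3⟩ | ⟨e1, e2, e3⟩ | ⟨e1, e2, e3⟩ <;>
      rcases v2b1_d0 o a b p' with ⟨f1, f2, f3⟩ | ⟨f1, f2, f3⟩ | ⟨f1, f2, f3⟩ <;>
      first
        | (exfalso; omega)
        | (simp only [e1, e2, e3, f1, f2, f3, v2b1_T, if_true, if_false, and_self]; ring)
  · unfold cc
    simp only [v2b1_wc]
    generalize A ^ (4 * (o + b)) = Y at hb ⊢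
    generalize A⁻¹ ^ (4 * b) = z at hb ⊢
    rw [← hb]
    unfold v2b1_E
    rcases v2b1_d1 o a b p with ⟨e1, e2, e3⟩ | ⟨e1, e2, e3⟩ | ⟨e1, e2, e3⟩ <;>
      rcases v2b1_d1 o a b p' with ⟨f1, f2, f3⟩ | ⟨f1, f2, f3⟩ | ⟨f1, f2, f3⟩ <;>
      first
        | (exfalso; omega)
        | (simp only [e1, e2, e3, f1, f2, f3, v2b1_T, if_true, if_false, and_self]; ring)

theorem bw_RR : wordMat n A A⁻¹ (bw o a b) *ᵥ vec2 n (cc A (o + a) b (o + a) b) =
    A ^ (a * b) • vec2 n (cc A o b o b) := by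
  have hw : A⁻¹ ^ 4 * A ^ 4 = 1 := v2b1_pow hA 4
  have hm := v2b1_main (n := n) (o := o) (a := a) (b := b)
    (tAA := A ^ (4 * o) * A ^ (4 * o)) (tAB := 0)
    (tAC := A ^ (4 * o) * A ^ (4 * o) * A ^ (4 * a)) (tBB := 0) (tBC := 0)
    (tCC := A ^ (4 * o) * A ^ (4 * o) * (A ^ (4 * a) * A ^ (4 * a)))
    (AM := fun s => A ^ (4 * o) * A ^ (4 * o) * A ^ (4 * s))
    (BM := fun _ => 0) (MB := fun _ => 0)
    (MC := fun s => A ^ (4 * o) * A ^ (4 * o) * (A ^ (4 * a) * A ^ (4 * s))) hA hn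
    (fun s _ => rfl)
    (fun s _ => by
      beta_reduce
      linear_combination -(A ^ (4 * o) * A ^ (4 * o) * A ^ (4 * s)) * hw)
    (fun s _ => by ring)
    (fun s _ => by ring)
    (fun s _ => by
      beta_reduce
      linear_combination -(A ^ (4 * o) * A ^ (4 * o) * A ^ (4 * a) * A ^ (4 * s)) * hw)
    (by beta_reduce; ring) rfl (by beta_reduce; ring) rfl rfl rfl b le_rfl
  refine Eq.trans (congrArg _ (vec2_congr fun p p' hp _ => ?_)) (hm.trans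
    (congrArg _ (vec2_congr fun p p' hp _ => ?_)))
  · unfold cc
    rw [v2b1_wc, v2b1_wc]
    unfold v2b1_E
    rcases v2b1_d0 o a b p with ⟨e1, e2, e3⟩ | ⟨e1, e2, e3⟩ | ⟨e1, e2, e3⟩ <;>
      rcases v2b1_d0 o a b p' with ⟨f1, f2, f3⟩ | ⟨f1, f2, f3⟩ | ⟨f1, f2, f3⟩ <;>
      first
        | (exfalso; omega)
        | (simp only [e1, e2, e3, f1, f2, f3, v2b1_T, if_true, if_false, and_self]; ring)
  · unfold cc
    simp only [v2b1_wc]
    unfold v2b1_E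
    rcases v2b1_d1 o a b p with ⟨e1, e2, e3⟩ | ⟨e1, e2, e3⟩ | ⟨e1, e2, e3⟩ <;>
      rcases v2b1_d1 o a b p' with ⟨f1, f2, f3⟩ | ⟨f1, f2, f3⟩ | ⟨f1, f2, f3⟩ <;>
      first
        | (exfalso; omega)
        | (simp only [e1, e2, e3, f1, f2, f3, v2b1_T, if_true, if_false, and_self]; ring)

end

end Pool.Agent.AMU
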