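import Pool.Agent.AMU0.V2
import Pool.Agent.AMU0.V1B

open Matrix

namespace Pool.Agent.AMU

variable {n : ℕ} {A : ℂ}

/-! ### The action on one coordinate -/

/-- the normalised operator of a generator on functions of one particle -/
noncomputable def v2b2t (A : ℂ) (i : ℕ) (φ : ℕ → ℂ) : ℕ → ℂ := fun p =>
  if p = i + 1 then A⁻¹ ^ 2 * φ i
  else if p = i then (1 - A⁻¹ ^ 4) * φ i + A⁻¹ ^ 2 * φ (i + 1)
  else φ p

/-- the normalised operator of a word -/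
noncomputable def v2b2T (A : ℂ) : List (ℕ × Bool) → (ℕ → ℂ) → (ℕ → ℂ)
  | [], φ => φ
  | x :: w, φ => v2b2t A x.1 (v2b2T A w φ)

lemma v2b2_word1 (hA : A ≠ 0) : ∀ (w : List (ℕ × Bool)) (_ : ∀ x ∈ w, x.2 = true ∧ x.1 + 1 < n)
    (φ : ℕ → ℂ), wordMat n A A⁻¹ w *ᵥ vec1 n φ = A ^ w.length • vec1 n (v2b2T A w φ)
  | [], _, φ => by
    rw [wordMat_nil, Matrix.one_mulVec, List.length_nil, pow_zero, one_smul]
    rfl
  | x :: w, h, φ => by
    have h1 := h x (by simp)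
    have h2 : x = (x.1, true) := Prod.ext rfl h1.1
    rw [wordMat_cons, ← Matrix.mulVec_mulVec, v2b2_word1 hA w (fun y hy => h y (by simp [hy])) φ,
      Matrix.mulVec_smul, h2, letter_vec1 hA h1.2, smul_smul, List.length_cons, pow_succ]
    rfl

lemma v2b2_word2 (hA : A ≠ 0) (f : (ℕ → ℂ) → ℕ → ℕ → ℂ) (S : ℕ → Prop)
    (hf : ∀ i, S i → ∀ φ, top2 A i (f φ) = f (v2b2t A i φ)) :
    ∀ (w : List (ℕ × Bool)) (_ : ∀ x ∈ w, x.2 = true ∧ x.1 + 1 < n ∧ S x.1)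
    (φ : ℕ → ℂ), wordMat n A A⁻¹ w *ᵥ vec2 n (f φ) = A ^ w.length • vec2 n (f (v2b2T A w φ))
  | [], _, φ => by
    rw [wordMat_nil, Matrix.one_mulVec, List.length_nil, pow_zero, one_smul]
    rfl
  | x :: w, h, φ => by
    have h1 := h x (by simp)
    have h2 : x = (x.1, true) := Prod.ext rfl h1.1
    rw [wordMat_cons, ← Matrix.mulVec_mulVec,
      v2b2_word2 hA f S hf w (fun y hy => h y (by simp [hy])) φ,
      Matrix.mulVec_smul, h2, letter_vec2 hA h1.2.1, hf _ h1.2.2, smul_smul, List.length_cons,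
      pow_succ]
    rfl

lemma v2b2_L {i o : ℕ} (hi : o ≤ i) (ψ : ℕ → ℂ) (hψ : ∀ p, o ≤ p → ψ p = 0) (φ : ℕ → ℂ) :
    top2 A i (fun p p' => ψ p * φ p') = fun p p' => ψ p * v2b2t A i φ p' := by
  have h0 : ψ i = 0 := hψ i hi
  have h1 : ψ (i + 1) = 0 := hψ (i + 1) (by omega)
  funext p p'
  unfold top2 v2b2t
  beta_reduce
  by_cases e1 : p = i
  · subst e1
    rw [h0, h1]
    split_ifs <;> ring
  · by_cases e2 : p = i + 1
    · subst e2
      rw [h0, h1]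
      split_ifs <;> ring
    · rw [if_neg (fun h => e1 h.1), if_neg e2]
      split_ifs <;> ring

lemma v2b2_R {i c : ℕ} (hi : i + 1 < c) (ψ : ℕ → ℂ) (hψ : ∀ p, p < c → ψ p = 0) (φ : ℕ → ℂ) :
    top2 A i (fun p p' => φ p * ψ p') = fun p p' => v2b2t A i φ p * ψ p' := by
  have h0 : ψ i = 0 := hψ i (by omega)
  have h1 : ψ (i + 1) = 0 := hψ (i + 1) hi
  funext p p'
  unfold top2 v2b2t
  beta_reduce
  by_cases e1 : p' = i
  · subst e1
    rw [h0, h1]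
    split_ifs <;> ring
  · by_cases e2 : p' = i + 1
    · subst e2
      rw [h0, h1]
      split_ifs <;> ring
    · rw [if_neg (fun h => e2 h.2)]
      split_ifs <;> ring

lemma v2b2_pos {o a : ℕ} : ∀ {b : ℕ} {x : ℕ × Bool}, x ∈ bw o a b → x.2 = true
  | 0, x, h => by simp [bw] at h
  | b + 1, x, h => by
    rw [bw, List.mem_append] at h
    rcases h with h | h
    · unfold row at h
      obtain ⟨j, -, rfl⟩ := List.mem_map.1 h
      rfl
    · exact v2b2_pos h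

lemma v2b2_len (o a : ℕ) : ∀ b : ℕ, (bw o a b).length = a * b
  | 0 => by simp [bw]
  | b + 1 => by
    rw [bw, List.length_append, v2b2_len o a b]
    unfold row
    rw [List.length_map, List.length_range]
    ring

/-- two particles from one particle -/
lemma v2b2_transfer (hA : A ≠ 0) {o a b : ℕ} (hn : o + a + b ≤ n)
    (f : (ℕ → ℂ) → ℕ → ℕ → ℂ) (hf : ∀ i, o ≤ i → i + 1 < o + a + b → ∀ φ,
      top2 A i (f φ) = f (v2b2t A i φ))
    (hc : ∀ φ φ' : ℕ → ℂ, (∀ p, p < n → φ p = φ' p) → ∀ p p', p < p' → p' < n →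
      f φ p p' = f φ' p p') (χ χ' : ℕ → ℂ)
    (h : wordMat n A A⁻¹ (bw o a b) *ᵥ vec1 n χ = A ^ (a * b) • vec1 n χ') :
    wordMat n A A⁻¹ (bw o a b) *ᵥ vec2 n (f χ) = A ^ (a * b) • vec2 n (f χ') := by
  have hw1 : ∀ x ∈ bw o a b, x.2 = true ∧ x.1 + 1 < n := by
    intro x hx
    have h1 := mem_bw hx
    exact ⟨v2b2_pos hx, by omega⟩
  have hw2 : ∀ x ∈ bw o a b, x.2 = true ∧ x.1 + 1 < n ∧ (o ≤ x.1 ∧ x.1 + 1 < o + a + b) := by
    intro x hx
    have h1 := mem_bw hx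
    exact ⟨v2b2_pos hx, by omega, h1⟩
  rw [v2b2_word1 hA _ hw1, v2b2_len] at h
  rw [v2b2_word2 hA f (fun i => o ≤ i ∧ i + 1 < o + a + b) (fun i hi => hf i hi.1 hi.2) _ hw2,
    v2b2_len]
  have h1 : vec1 n (v2b2T A (bw o a b) χ) = vec1 n χ' := by
    have h2 := congrArg (fun v => (A ^ (a * b))⁻¹ • v) h
    rw [smul_smul, smul_smul, inv_mul_cancel₀ (pow_ne_zero _ hA), one_smul, one_smul] at h2
    exact h2
  have h2 : vec1 n (fun p => v2b2T A (bw o a b) χ p + (-1) * χ' p) = 0 := by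
    rw [vec1_add, vec1_smul, h1]
    simp
  congr 1
  refine vec2_congr (hc _ _ (fun p hp => ?_))
  have h3 := vec1_zero h2 hp
  linear_combination h3

section
variable (hA : A ≠ 0) {o a b : ℕ} (hn : o + a + b ≤ n)
include hA hn

/-- one particle to the left of the crossing cables -/
theorem bw_EL (ψ : ℕ → ℂ) (hψ : ∀ p, o ≤ p → ψ p = 0) :
    wordMat n A A⁻¹ (bw o a b) *ᵥ vec2 n (fun p p' => ψ p * wc A o a p') =
      A ^ (a * b) • vec2 n (fun p p' => ψ p * ((1 - A⁻¹ ^ (4 * a)) * wc A o b p'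
        + A⁻¹ ^ (4 * b) * wc A (o + b) a p')) :=
  v2b2_transfer hA hn (fun φ p p' => ψ p * φ p') (fun _ hi _ φ => v2b2_L hi ψ hψ φ)
    (fun φ φ' h p p' _ hp' => by rw [h p' hp']) _ _ (bw_vec1_left hA hn)

theorem bw_ER (ψ : ℕ → ℂ) (hψ : ∀ p, o ≤ p → ψ p = 0) :
    wordMat n A A⁻¹ (bw o a b) *ᵥ vec2 n (fun p p' => ψ p * wc A (o + a) b p') =
      A ^ (a * b) • vec2 n (fun p p' => ψ p * wc A o b p') :=
  v2b2_transfer hA hn (fun φ p p' => ψ p * φ p') (fun _ hi _ φ => v2b2_L hi ψ hψ φ)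
    (fun φ φ' h p p' _ hp' => by rw [h p' hp']) _ _ (bw_vec1_right hA hn)

/-- one particle to the right of the crossing cables -/
theorem bw_LF (ψ : ℕ → ℂ) (hψ : ∀ p, p < o + a + b → ψ p = 0) :
    wordMat n A A⁻¹ (bw o a b) *ᵥ vec2 n (fun p p' => wc A o a p * ψ p') =
      A ^ (a * b) • vec2 n (fun p p' => ((1 - A⁻¹ ^ (4 * a)) * wc A o b p
        + A⁻¹ ^ (4 * b) * wc A (o + b) a p) * ψ p') :=
  v2b2_transfer hA hn (fun φ p p' => φ p * ψ p') (fun _ _ hi φ => v2b2_R hi ψ hψ φ)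
    (fun φ φ' h p p' hp hp' => by rw [h p (by omega)]) _ _ (bw_vec1_left hA hn)

theorem bw_RF (ψ : ℕ → ℂ) (hψ : ∀ p, p < o + a + b → ψ p = 0) :
    wordMat n A A⁻¹ (bw o a b) *ᵥ vec2 n (fun p p' => wc A (o + a) b p * ψ p') =
      A ^ (a * b) • vec2 n (fun p p' => wc A o b p * ψ p') :=
  v2b2_transfer hA hn (fun φ p p' => φ p * ψ p') (fun _ _ hi φ => v2b2_R hi ψ hψ φ)
    (fun φ φ' h p p' hp hp' => by rw [h p (by omega)]) _ _ (bw_vec1_right hA hn)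

/-- no particle in the crossing cables -/
theorem bw_EF (φ : ℕ → ℕ → ℂ) (hφ : ∀ p p', (o ≤ p ∧ p < o + a + b) ∨ (o ≤ p' ∧ p' < o + a + b) →
    φ p p' = 0) : wordMat n A A⁻¹ (bw o a b) *ᵥ vec2 n φ = A ^ (a * b) • vec2 n φ := by
  have hw2 : ∀ x ∈ bw o a b, x.2 = true ∧ x.1 + 1 < n ∧ (o ≤ x.1 ∧ x.1 + 1 < o + a + b) := by
    intro x hx
    have h1 := mem_bw hx
    exact ⟨v2b2_pos hx, by omega, h1⟩
  rw [v2b2_word2 hA (fun _ => φ) (fun i => o ≤ i ∧ i + 1 < o + a + b) ?_ _ hw2 (fun _ => 0),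
    v2b2_len]
  rintro i ⟨h1, h2⟩ _
  funext p p'
  unfold top2
  split_ifs with e1 e2 e3 e4 e5
  · rfl
  · rw [hφ i p' (Or.inl ⟨h1, by omega⟩), hφ p p' (Or.inl (by omega)), mul_zero]
  · rw [hφ p i (Or.inr ⟨h1, by omega⟩), hφ p p' (Or.inr (by omega)), mul_zero]
  · rw [hφ i p' (Or.inl ⟨h1, by omega⟩), hφ (i + 1) p' (Or.inl (by omega)),
      hφ p p' (Or.inl (by omega)), mul_zero, mul_zero, add_zero]
  · rw [hφ p i (Or.inr ⟨h1, by omega⟩), hφ p (i + 1) (Or.inr (by omega)),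
      hφ p p' (Or.inr (by omega)), mul_zero, mul_zero, add_zero]
  · rfl

end

end Pool.Agent.AMU
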