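import Pool.Agent.AMU0.V2B1
import Pool.Agent.AMU0.V2B2
import Pool.Agent.AMU0.Lmat

open Matrix

namespace Pool.Agent.AMU

/-! ### Coefficients -/

private noncomputable def v2pAv (q : ℂ) (x : ℕ → ℕ → ℂ) (l j : ℕ) : ℂ :=
  ∑ i' ∈ Finset.range l, q ^ (l - i' - 1) * x i' j

private noncomputable def v2pV (q : ℂ) (x : ℕ → ℕ → ℂ) (i j : ℕ) : ℂ :=
  x i j - (1 - q) * v2pAv q x i j

private theorem v2pAv_zero (q : ℂ) (x : ℕ → ℕ → ℂ) (j : ℕ) : v2pAv q x 0 j = 0 := by
  simp [v2pAv]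

private theorem v2pAv_succ (q : ℂ) (x : ℕ → ℕ → ℂ) (l j : ℕ) :
    v2pAv q x (l + 1) j = q * v2pAv q x l j + x l j := by
  unfold v2pAv
  rw [Finset.sum_range_succ, Finset.mul_sum]
  congr 1
  · apply Finset.sum_congr rfl
    intro i hi
    have hi' : i < l := Finset.mem_range.mp hi
    have h1 : l + 1 - i - 1 = (l - i - 1) + 1 := by omega
    rw [h1, pow_succ]
    ring
  · have h1 : l + 1 - l - 1 = 0 := by omega
    rw [h1, pow_zero, one_mul]

private theorem v2pAv_succ' (q : ℂ) (x : ℕ → ℕ → ℂ) (l j : ℕ) :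
    v2pAv q x (l + 1) j = v2pAv q x l j + v2pV q x l j := by
  rw [v2pAv_succ]
  unfold v2pV
  ring

private theorem v2pV_sum (q : ℂ) (x : ℕ → ℕ → ℂ) (l j : ℕ) :
    ∑ i ∈ Finset.range l, v2pV q x i j = v2pAv q x l j := by
  induction l with
  | zero => simp [v2pAv_zero]
  | succ l ih => rw [Finset.sum_range_succ, ih, v2pAv_succ']

private theorem v2pAv_congr {q : ℂ} {x y : ℕ → ℕ → ℂ} {j l : ℕ}
    (h : ∀ i, i < l → x i j = y i j) : v2pAv q x l j = v2pAv q y l j := by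
  unfold v2pAv
  apply Finset.sum_congr rfl
  intro i hi
  rw [h i (Finset.mem_range.mp hi)]

/-- the transformation rules of the coordinates -/
private structure V2pH (m k : ℕ) (q t : ℂ) (x x' : ℕ → ℕ → ℂ) : Prop where
  h1 : ∀ i j, i ≠ k → i ≠ k + 1 → j ≠ k → j ≠ k + 1 → x' i j = x i j
  h2 : ∀ i, i < k → x' i k = (1 - q) * x i k + x i (k + 1)
  h3 : ∀ i, i < k → x' i (k + 1) = q * x i k
  h4 : ∀ j, k + 1 < j → x' k j = x (k + 1) j
  h5 : ∀ j, k + 1 < j → x' (k + 1) j = q * x k j + (1 - q) * x (k + 1) j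
  h6 : x' k (k + 1) = t * (q ^ 2 * v2pV q x k (k + 1) -
    q * (1 - q) * ∑ j ∈ Finset.Ico (k + 2) m, v2pV q x k j)

private noncomputable def v2pD (m : ℕ) (q t : ℂ) (x : ℕ → ℕ → ℂ) (a : ℕ) : ℂ :=
  -(1 - q) * (∑ i ∈ Finset.range a, v2pV q x i a +
    t * ∑ j ∈ Finset.Ico (a + 1) m, v2pV q x a j)

section
variable {m k : ℕ} {q t : ℂ} {x x' : ℕ → ℕ → ℂ} (H : V2pH m k q t x x')
include H

private theorem v2p_A1 {j l : ℕ} (h1 : j ≠ k) (h2 : j ≠ k + 1) (hl : l ≤ k) :
    v2pAv q x' l j = v2pAv q x l j :=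
  v2pAv_congr fun i hi => H.h1 i j (by omega) (by omega) h1 h2

private theorem v2p_A2 {j : ℕ} (hj : k + 1 < j) (l : ℕ) :
    v2pAv q x' (k + 2 + l) j = v2pAv q x (k + 2 + l) j := by
  induction l with
  | zero =>
    have e : k + 2 + 0 = k + 1 + 1 := by omega
    rw [e, v2pAv_succ, v2pAv_succ, v2pAv_succ, v2pAv_succ,
      v2p_A1 H (by omega) (by omega) le_rfl, H.h4 j hj, H.h5 j hj]
    ring
  | succ l ih =>
    have e : k + 2 + (l + 1) = (k + 2 + l) + 1 := by omega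
    rw [e, v2pAv_succ, v2pAv_succ, ih, H.h1 _ _ (by omega) (by omega) (by omega) (by omega)]

private theorem v2p_A2' {j l : ℕ} (hj : k + 1 < j) (hl : k + 2 ≤ l) :
    v2pAv q x' l j = v2pAv q x l j := by
  obtain ⟨r, rfl⟩ := Nat.exists_eq_add_of_le hl
  exact v2p_A2 H hj r

private theorem v2p_A3 {l : ℕ} (hl : l ≤ k) :
    v2pAv q x' l k = (1 - q) * v2pAv q x l k + v2pAv q x l (k + 1) := by
  unfold v2pAv
  rw [Finset.mul_sum, ← Finset.sum_add_distrib]
  apply Finset.sum_congr rfl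
  intro i hi
  have hi' : i < l := Finset.mem_range.mp hi
  rw [H.h2 i (by omega)]
  ring

private theorem v2p_A4 {l : ℕ} (hl : l ≤ k) :
    v2pAv q x' l (k + 1) = q * v2pAv q x l k := by
  unfold v2pAv
  rw [Finset.mul_sum]
  apply Finset.sum_congr rfl
  intro i hi
  have hi' : i < l := Finset.mem_range.mp hi
  rw [H.h3 i (by omega)]
  ring

private theorem v2p_V1 {i j : ℕ} (hij : i < j) (h1 : i ≠ k) (h2 : i ≠ k + 1) (h3 : j ≠ k)
    (h4 : j ≠ k + 1) : v2pV q x' i j = v2pV q x i j := by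
  unfold v2pV
  rw [H.h1 i j h1 h2 h3 h4]
  rcases lt_or_ge i k with h | h
  · rw [v2p_A1 H h3 h4 h.le]
  · rw [v2p_A2' H (by omega) (by omega)]

private theorem v2p_V2 {i : ℕ} (hi : i < k) :
    v2pV q x' i k = (1 - q) * v2pV q x i k + v2pV q x i (k + 1) := by
  unfold v2pV
  rw [H.h2 i hi, v2p_A3 H hi.le]
  ring

private theorem v2p_V3 {i : ℕ} (hi : i < k) : v2pV q x' i (k + 1) = q * v2pV q x i k := by
  unfold v2pV
  rw [H.h3 i hi, v2p_A4 H hi.le]
  ring

private theorem v2p_V4 {j : ℕ} (hj : k + 1 < j) :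
    v2pV q x' k j = (1 - q) * v2pV q x k j + v2pV q x (k + 1) j := by
  unfold v2pV
  rw [H.h4 j hj, v2p_A1 H (by omega) (by omega) le_rfl, v2pAv_succ]
  ring

private theorem v2p_V5 {j : ℕ} (hj : k + 1 < j) :
    v2pV q x' (k + 1) j = q * v2pV q x k j := by
  unfold v2pV
  rw [H.h5 j hj, v2pAv_succ, v2p_A1 H (by omega) (by omega) le_rfl, H.h4 j hj]
  ring

omit H in
private theorem v2p_D_eq (x : ℕ → ℕ → ℂ) (a : ℕ) : v2pD m q t x a = -(1 - q) * (v2pAv q x a a +
    t * ∑ j ∈ Finset.Ico (a + 1) m, v2pV q x a j) := by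
  unfold v2pD
  rw [v2pV_sum]

omit H in
private theorem v2p_Ico (hk : k + 1 < m) (f : ℕ → ℂ) : ∑ j ∈ Finset.Ico (k + 1) m, f j =
    f (k + 1) + ∑ j ∈ Finset.Ico (k + 2) m, f j := by
  rw [Finset.sum_eq_sum_Ico_succ_bot hk]

private theorem v2p_V6 (hk : k + 1 < m) :
    v2pV q x' k (k + 1) = q * v2pD m q t x k + t * q * v2pV q x k (k + 1) := by
  rw [v2p_D_eq, v2p_Ico hk]
  conv_lhs => unfold v2pV
  rw [H.h6, v2p_A4 H le_rfl]
  ring

private theorem v2p_S4 : ∑ j ∈ Finset.Ico (k + 2) m, v2pV q x' k j =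
    (1 - q) * ∑ j ∈ Finset.Ico (k + 2) m, v2pV q x k j +
      ∑ j ∈ Finset.Ico (k + 2) m, v2pV q x (k + 1) j := by
  rw [Finset.mul_sum, ← Finset.sum_add_distrib]
  apply Finset.sum_congr rfl
  intro j hj
  have := (Finset.mem_Ico.mp hj).1
  exact v2p_V4 H (by omega)

private theorem v2p_S5 : ∑ j ∈ Finset.Ico (k + 2) m, v2pV q x' (k + 1) j =
    q * ∑ j ∈ Finset.Ico (k + 2) m, v2pV q x k j := by
  rw [Finset.mul_sum]
  apply Finset.sum_congr rfl
  intro j hj
  have := (Finset.mem_Ico.mp hj).1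
  exact v2p_V5 H (by omega)

private theorem v2p_D3 (hk : k + 1 < m) :
    v2pD m q t x' (k + 1) = q ^ 2 * v2pD m q t x k := by
  have h0 := v2p_V6 H hk
  rw [v2p_D_eq x' (k + 1), show k + 1 + 1 = k + 2 from rfl, v2p_S5 H, v2pAv_succ',
    v2p_A4 H le_rfl, h0]
  rw [v2p_D_eq x k, v2p_Ico hk]
  ring

private theorem v2p_D2 (hk : k + 1 < m) :
    v2pD m q t x' k = (1 - q) * (1 - t * q) * v2pD m q t x k +
      (1 + t) * (1 - q) * (1 - t * q) * v2pV q x k (k + 1) + v2pD m q t x (k + 1) := by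
  have h0 := v2p_V6 H hk
  rw [v2p_D_eq x' k, v2p_Ico hk, v2p_S4 H, v2p_A3 H le_rfl, h0, v2p_D_eq x (k + 1),
    show k + 1 + 1 = k + 2 from rfl, v2pAv_succ']
  rw [v2p_D_eq x k, v2p_Ico hk]
  ring

private theorem v2p_D1 (hk : k + 1 < m) {a : ℕ} (h1 : a ≠ k) (h2 : a ≠ k + 1) :
    v2pD m q t x' a = v2pD m q t x a := by
  rw [v2p_D_eq x' a, v2p_D_eq x a]
  rcases lt_or_ge a k with h | h
  · rw [v2p_A1 H h1 h2 h.le]
    have hs : ∑ j ∈ Finset.Ico (a + 1) m, v2pV q x' a j =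
        ∑ j ∈ Finset.Ico (a + 1) m, v2pV q x a j := by
      have hsplit : ∀ f : ℕ → ℂ, ∑ j ∈ Finset.Ico (a + 1) m, f j =
          ∑ j ∈ Finset.Ico (a + 1) k, f j + (f k + (f (k + 1) +
            ∑ j ∈ Finset.Ico (k + 2) m, f j)) := by
        intro f
        rw [← Finset.sum_Ico_consecutive f (show a + 1 ≤ k by omega) (show k ≤ m by omega),
          Finset.sum_eq_sum_Ico_succ_bot (show k < m by omega),
          Finset.sum_eq_sum_Ico_succ_bot (show k + 1 < m by omega)]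
      rw [hsplit, hsplit, v2p_V2 H h, v2p_V3 H h]
      have e1 : ∑ j ∈ Finset.Ico (a + 1) k, v2pV q x' a j =
          ∑ j ∈ Finset.Ico (a + 1) k, v2pV q x a j := by
        apply Finset.sum_congr rfl
        intro j hj
        rw [Finset.mem_Ico] at hj
        exact v2p_V1 H (by omega) h1 h2 (by omega) (by omega)
      have e2 : ∑ j ∈ Finset.Ico (k + 2) m, v2pV q x' a j =
          ∑ j ∈ Finset.Ico (k + 2) m, v2pV q x a j := by
        apply Finset.sum_congr rfl
        intro j hj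
        rw [Finset.mem_Ico] at hj
        exact v2p_V1 H (by omega) h1 h2 (by omega) (by omega)
      rw [e1, e2]
      ring
    rw [hs]
  · rw [v2p_A2' H (by omega) (by omega)]
    have hs : ∑ j ∈ Finset.Ico (a + 1) m, v2pV q x' a j =
        ∑ j ∈ Finset.Ico (a + 1) m, v2pV q x a j := by
      apply Finset.sum_congr rfl
      intro j hj
      rw [Finset.mem_Ico] at hj
      exact v2p_V1 H (by omega) h1 h2 (by omega) (by omega)
    rw [hs]

end

/-! ### The coordinates after a generator -/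

private theorem v2p_gt_of_not {m : ℕ} {R : Type*} [CommRing R] (ξ : Pr m → R) {i j : ℕ}
    (h : ¬ (i < j ∧ j < m)) : gt ξ i j = 0 := by
  unfold gt
  rw [dif_neg h]

private theorem v2p_gt_lop {m : ℕ} (q t : ℂ) (k : ℕ) (ξ : Pr m → ℂ) {i j : ℕ}
    (h : i < j ∧ j < m) : gt (lop m q t k ξ) i j =
      if i = k ∧ j = k + 1 then
        t * (q ^ 2 * gt ξ k (k + 1)
          + ∑ i' ∈ Finset.range k, q ^ (k - i' + 1) * (q - 1) * gt ξ i' (k + 1)
          + ∑ j' ∈ Finset.Ico (k + 2) m, q * (q - 1) * gt ξ k j'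
          + ∑ i' ∈ Finset.range k, ∑ j' ∈ Finset.Ico (k + 2) m,
              q ^ (k - i') * (q - 1) ^ 2 * gt ξ i' j')
      else if j = k then (1 - q) * gt ξ i k + gt ξ i (k + 1)
      else if j = k + 1 then q * gt ξ i k
      else if i = k then gt ξ (k + 1) j
      else if i = k + 1 then q * gt ξ k j + (1 - q) * gt ξ (k + 1) j
      else gt ξ i j := by
  conv_lhs => unfold gt
  rw [dif_pos h]
  rfl

private theorem v2p_H {m : ℕ} (q t : ℂ) {k : ℕ} (hk : k + 1 < m) (ξ : Pr m → ℂ) :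
    V2pH m k q t (gt ξ) (gt (lop m q t k ξ)) where
  h1 i j h1 h2 h3 h4 := by
    by_cases h : i < j ∧ j < m
    · rw [v2p_gt_lop q t k ξ h, if_neg (by omega), if_neg h3, if_neg h4, if_neg h1, if_neg h2]
    · rw [v2p_gt_of_not _ h, v2p_gt_of_not _ h]
  h2 i hi := by
    rw [v2p_gt_lop q t k ξ (by omega), if_neg (by omega), if_pos rfl]
  h3 i hi := by
    rw [v2p_gt_lop q t k ξ (by omega), if_neg (by omega), if_neg (by omega), if_pos rfl]
  h4 j hj := by
    by_cases h : j < m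
    · rw [v2p_gt_lop q t k ξ (by omega), if_neg (by omega), if_neg (by omega),
        if_neg (by omega), if_pos rfl]
    · rw [v2p_gt_of_not _ (by omega), v2p_gt_of_not _ (by omega)]
  h5 j hj := by
    by_cases h : j < m
    · rw [v2p_gt_lop q t k ξ (by omega), if_neg (by omega), if_neg (by omega),
        if_neg (by omega), if_neg (by omega), if_pos rfl]
    · rw [v2p_gt_of_not _ (show ¬ (k + 1 < j ∧ j < m) by omega),
        v2p_gt_of_not _ (show ¬ (k + 1 < j ∧ j < m) by omega),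
        v2p_gt_of_not _ (show ¬ (k < j ∧ j < m) by omega)]
      ring
  h6 := by
    rw [v2p_gt_lop q t k ξ (by omega), if_pos ⟨rfl, rfl⟩]
    have e1 : ∑ i' ∈ Finset.range k, q ^ (k - i' + 1) * (q - 1) * gt ξ i' (k + 1) =
        q ^ 2 * (q - 1) * v2pAv q (gt ξ) k (k + 1) := by
      unfold v2pAv
      rw [Finset.mul_sum]
      apply Finset.sum_congr rfl
      intro i hi
      have hi' : i < k := Finset.mem_range.mp hi
      have e : k - i + 1 = (k - i - 1) + 2 := by omega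
      rw [e, pow_add]
      ring
    have e2 : ∑ i' ∈ Finset.range k, ∑ j' ∈ Finset.Ico (k + 2) m,
        q ^ (k - i') * (q - 1) ^ 2 * gt ξ i' j' =
        q * (q - 1) ^ 2 * ∑ j' ∈ Finset.Ico (k + 2) m, v2pAv q (gt ξ) k j' := by
      unfold v2pAv
      rw [Finset.sum_comm, Finset.mul_sum]
      apply Finset.sum_congr rfl
      intro j hj
      rw [Finset.mul_sum]
      apply Finset.sum_congr rfl
      intro i hi
      have hi' : i < k := Finset.mem_range.mp hi
      have e : k - i = (k - i - 1) + 1 := by omega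
      rw [e, pow_succ]
      simp only [Nat.add_sub_cancel]
      ring
    have e3 : ∑ j ∈ Finset.Ico (k + 2) m, v2pV q (gt ξ) k j =
        ∑ j ∈ Finset.Ico (k + 2) m, gt ξ k j -
          (1 - q) * ∑ j ∈ Finset.Ico (k + 2) m, v2pAv q (gt ξ) k j := by
      unfold v2pV
      rw [Finset.sum_sub_distrib, Finset.mul_sum]
    rw [e1, e2, e3, ← Finset.mul_sum]
    unfold v2pV
    ring

/-! ### Sums over the pairs -/

private theorem v2p_split2 {V : Type*} [AddCommMonoid V] {m k : ℕ} (hk : k + 1 < m)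
    (F : ℕ → ℕ → V) : ∑ i ∈ Finset.range m, ∑ j ∈ Finset.Ico (i + 1) m, F i j =
      (∑ i ∈ Finset.range k, ∑ j ∈ Finset.Ico (i + 1) k, F i j) +
      (∑ i ∈ Finset.range k, (F i k + F i (k + 1))) +
      (∑ i ∈ Finset.range k, ∑ j ∈ Finset.Ico (k + 2) m, F i j) +
      F k (k + 1) + (∑ j ∈ Finset.Ico (k + 2) m, (F k j + F (k + 1) j)) +
      ∑ i ∈ Finset.Ico (k + 2) m, ∑ j ∈ Finset.Ico (i + 1) m, F i j := by
  have h1 : ∀ G : ℕ → V, ∑ i ∈ Finset.range m, G i =
      ∑ i ∈ Finset.range k, G i + (G k + (G (k + 1) + ∑ i ∈ Finset.Ico (k + 2) m, G i)) := by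
    intro G
    rw [Finset.range_eq_Ico, ← Finset.sum_Ico_consecutive G (Nat.zero_le k) (show k ≤ m by omega),
      Finset.sum_eq_sum_Ico_succ_bot (show k < m by omega),
      Finset.sum_eq_sum_Ico_succ_bot (show k + 1 < m by omega), Finset.range_eq_Ico]
  have h2 : ∀ i, i < k → ∑ j ∈ Finset.Ico (i + 1) m, F i j =
      ∑ j ∈ Finset.Ico (i + 1) k, F i j + ((F i k + F i (k + 1)) +
        ∑ j ∈ Finset.Ico (k + 2) m, F i j) := by
    intro i hi
    rw [← Finset.sum_Ico_consecutive (F i) (show i + 1 ≤ k by omega) (show k ≤ m by omega),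
      Finset.sum_eq_sum_Ico_succ_bot (show k < m by omega),
      Finset.sum_eq_sum_Ico_succ_bot (show k + 1 < m by omega), add_assoc (F i k)]
  rw [h1, Finset.sum_congr rfl fun i hi => h2 i (Finset.mem_range.mp hi)]
  rw [Finset.sum_add_distrib, Finset.sum_add_distrib,
    Finset.sum_eq_sum_Ico_succ_bot (show k + 1 < m by omega),
    Finset.sum_add_distrib (f := fun j => F k j)]
  show _ + (_ + ∑ j ∈ Finset.Ico (k + 2) m, F k j + (∑ j ∈ Finset.Ico (k + 2) m, F (k + 1) j + _)) = _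
  abel

private theorem v2p_split1 {V : Type*} [AddCommMonoid V] {m k : ℕ} (hk : k + 1 < m)
    (G : ℕ → V) : ∑ i ∈ Finset.range m, G i =
      ∑ i ∈ Finset.range k, G i + (G k + (G (k + 1) + ∑ i ∈ Finset.Ico (k + 2) m, G i)) := by
  rw [Finset.range_eq_Ico, ← Finset.sum_Ico_consecutive G (Nat.zero_le k) (show k ≤ m by omega),
    Finset.sum_eq_sum_Ico_succ_bot (show k < m by omega),
    Finset.sum_eq_sum_Ico_succ_bot (show k + 1 < m by omega), Finset.range_eq_Ico]

/-! ### The vectors -/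

private noncomputable def v2pE (n c : ℕ) (A : ℂ) (i j : ℕ) : Idx n → ℂ :=
  vec2 n (fun p p' => wc A (c * i) c p * wc A (c * j) c p')

private theorem v2p_vec2_zero (n : ℕ) : vec2 n (fun _ _ => (0 : ℂ)) = 0 := by
  have h := vec2_smul (n := n) 0 (fun _ _ => (0 : ℂ))
  simpa using h

private theorem v2p_vec2_sum {n : ℕ} {ι : Type*} (s : Finset ι) (φ : ι → ℕ → ℕ → ℂ) :
    vec2 n (fun p p' => ∑ i ∈ s, φ i p p') = ∑ i ∈ s, vec2 n (φ i) := by
  classical
  induction s using Finset.induction_on with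
  | empty => simpa using v2p_vec2_zero n
  | insert a s ha ih =>
    rw [Finset.sum_insert ha, ← ih, ← vec2_add]
    apply vec2_congr
    intro p p' _ _
    rw [Finset.sum_insert ha]

private theorem v2p_Ps (n m c : ℕ) (A : ℂ) (ξ : Pr m → ℂ) : Ps n m c A ξ =
    ∑ i ∈ Finset.range m, ∑ j ∈ Finset.Ico (i + 1) m,
      ((1 - A ^ 4 * A⁻¹ ^ (4 * c)) * v2pV (A⁻¹ ^ (4 * c)) (gt ξ) i j) • v2pE n c A i j +
    ∑ a ∈ Finset.range m, v2pD m (A⁻¹ ^ (4 * c)) (A ^ 4) (gt ξ) a • v2pE n c A a a := by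
  unfold Ps
  rw [vec2_add, v2p_vec2_sum, v2p_vec2_sum]
  congr 1
  · apply Finset.sum_congr rfl
    intro i _
    rw [v2p_vec2_sum]
    apply Finset.sum_congr rfl
    intro j _
    unfold v2pE
    rw [← vec2_smul]
    apply vec2_congr
    intro p p' _ _
    show _ * vco _ ξ i j * _ * _ = _ * (gt ξ i j - (1 - _) * _) * (_ * _)
    unfold vco v2pAv
    ring
  · apply Finset.sum_congr rfl
    intro a _
    unfold v2pE
    rw [← vec2_smul]
    apply vec2_congr
    intro p p' _ _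
    rw [← mul_assoc]
    rfl

private theorem v2p_wc_zero {A : ℂ} {c i p : ℕ} (h : p < c * i ∨ c * (i + 1) ≤ p) :
    wc A (c * i) c p = 0 := by
  unfold wc
  rw [if_neg]
  rw [Nat.mul_succ] at h
  omega

section
variable {m c n : ℕ} {A : ℂ} (hA : A ≠ 0) {k : ℕ} (hn : c * k + c + c ≤ n)
include hA hn

private theorem v2p_LL : wordMat n A A⁻¹ (bw (c * k) c c) *ᵥ v2pE n c A k k =
    A ^ (c * c) • (((1 - A⁻¹ ^ (4 * c)) * (1 - A ^ 4 * A⁻¹ ^ (4 * c))) • v2pE n c A k k +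
      (A⁻¹ ^ (4 * c) * (1 - A ^ 4 * A⁻¹ ^ (4 * c))) • v2pE n c A k (k + 1) +
      ((A⁻¹ ^ (4 * c)) ^ 2) • v2pE n c A (k + 1) (k + 1)) := by
  have h := bw_LL hA hn
  have e : vec2 n (cc A (c * k) c (c * k) c) = v2pE n c A k k := rfl
  rw [e] at h
  rw [h]
  congr 1
  unfold v2pE
  rw [← vec2_smul, ← vec2_smul, ← vec2_smul, ← vec2_add, ← vec2_add]
  rfl

private theorem v2p_LR : wordMat n A A⁻¹ (bw (c * k) c c) *ᵥ v2pE n c A k (k + 1) =
    A ^ (c * c) • (((1 + A ^ 4) * (1 - A⁻¹ ^ (4 * c))) • v2pE n c A k k +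
      (A ^ 4 * A⁻¹ ^ (4 * c)) • v2pE n c A k (k + 1)) := by
  have h := bw_LR hA hn
  have e : vec2 n (cc A (c * k) c (c * k + c) c) = v2pE n c A k (k + 1) := rfl
  rw [e] at h
  rw [h]
  congr 1
  unfold v2pE
  rw [← vec2_smul, ← vec2_smul, ← vec2_add]
  rfl

private theorem v2p_RR : wordMat n A A⁻¹ (bw (c * k) c c) *ᵥ v2pE n c A (k + 1) (k + 1) =
    A ^ (c * c) • v2pE n c A k k :=
  bw_RR hA hn

private theorem v2p_EL {i : ℕ} (hi : i < k) :
    wordMat n A A⁻¹ (bw (c * k) c c) *ᵥ v2pE n c A i k =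
    A ^ (c * c) • ((1 - A⁻¹ ^ (4 * c)) • v2pE n c A i k +
      (A⁻¹ ^ (4 * c)) • v2pE n c A i (k + 1)) := by
  have h := bw_EL hA hn (wc A (c * i) c) (fun p hp => v2p_wc_zero (Or.inr
    ((Nat.mul_le_mul_left c (show i + 1 ≤ k by omega)).trans hp)))
  have e : vec2 n (fun p p' => wc A (c * i) c p * wc A (c * k) c p') = v2pE n c A i k := rfl
  rw [e] at h
  rw [h]
  congr 1
  unfold v2pE
  rw [← vec2_smul, ← vec2_smul, ← vec2_add]
  apply vec2_congr
  intro p p' _ _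
  show _ = _ * _ + _ * (_ * wc A (c * k + c) c p')
  ring

private theorem v2p_ER {i : ℕ} (hi : i < k) :
    wordMat n A A⁻¹ (bw (c * k) c c) *ᵥ v2pE n c A i (k + 1) =
    A ^ (c * c) • v2pE n c A i k :=
  bw_ER hA hn (wc A (c * i) c) (fun p hp => v2p_wc_zero (Or.inr
    ((Nat.mul_le_mul_left c (show i + 1 ≤ k by omega)).trans hp)))

private theorem v2p_LF {j : ℕ} (hj : k + 1 < j) :
    wordMat n A A⁻¹ (bw (c * k) c c) *ᵥ v2pE n c A k j =
    A ^ (c * c) • ((1 - A⁻¹ ^ (4 * c)) • v2pE n c A k j +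
      (A⁻¹ ^ (4 * c)) • v2pE n c A (k + 1) j) := by
  have hle : c * k + c + c ≤ c * j := by
    have := Nat.mul_le_mul_left c (show k + 2 ≤ j by omega)
    rw [Nat.mul_add] at this
    omega
  have h := bw_LF hA hn (wc A (c * j) c) (fun p hp => v2p_wc_zero (Or.inl (hp.trans_le hle)))
  have e : vec2 n (fun p p' => wc A (c * k) c p * wc A (c * j) c p') = v2pE n c A k j := rfl
  rw [e] at h
  rw [h]
  congr 1
  unfold v2pE
  rw [← vec2_smul, ← vec2_smul, ← vec2_add]
  apply vec2_congr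
  intro p p' _ _
  show _ = _ * _ + _ * (wc A (c * k + c) c p * _)
  ring

private theorem v2p_RF {j : ℕ} (hj : k + 1 < j) :
    wordMat n A A⁻¹ (bw (c * k) c c) *ᵥ v2pE n c A (k + 1) j =
    A ^ (c * c) • v2pE n c A k j := by
  have hle : c * k + c + c ≤ c * j := by
    have := Nat.mul_le_mul_left c (show k + 2 ≤ j by omega)
    rw [Nat.mul_add] at this
    omega
  exact bw_RF hA hn (wc A (c * j) c) (fun p hp => v2p_wc_zero (Or.inl (hp.trans_le hle)))

omit hA hn in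
private theorem v2p_wc_win {i p : ℕ} (h1 : i ≠ k) (h2 : i ≠ k + 1)
    (h : c * k ≤ p ∧ p < c * k + c + c) : wc A (c * i) c p = 0 := by
  apply v2p_wc_zero
  rcases lt_or_ge i k with h3 | h3
  · right
    exact (Nat.mul_le_mul_left c (show i + 1 ≤ k by omega)).trans h.1
  · left
    have := Nat.mul_le_mul_left c (show k + 2 ≤ i by omega)
    rw [Nat.mul_add] at this
    omega

private theorem v2p_EF {i j : ℕ} (h1 : i ≠ k) (h2 : i ≠ k + 1) (h3 : j ≠ k) (h4 : j ≠ k + 1) :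
    wordMat n A A⁻¹ (bw (c * k) c c) *ᵥ v2pE n c A i j = A ^ (c * c) • v2pE n c A i j := by
  apply bw_EF hA hn
  intro p p' h
  rcases h with h | h
  · rw [v2p_wc_win h1 h2 h, zero_mul]
  · rw [v2p_wc_win h3 h4 h, mul_zero]

end

/-- cabled generators act on the vectors with two particles by Krammer's representation -/
theorem psi_letter {m c n : ℕ} (hn : off (fun _ => c) m = n) {A : ℂ} (hA : A ≠ 0) {k : ℕ}
    (hk : k + 1 < m) (ξ : Pr m → ℂ) :
    wordMat n A A⁻¹ (blockLetter (fun _ => c) (k, true)) *ᵥ Ps n m c A ξ =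
      A ^ (c * c) • Ps n m c A (lop m (A⁻¹ ^ (4 * c)) (A ^ 4) k ξ) := by
  have hoff : ∀ l, off (fun _ => c) l = c * l := by
    intro l
    unfold off
    rw [Finset.sum_const, Finset.card_range, smul_eq_mul, mul_comm]
  have hbl : blockLetter (fun _ => c) (k, true) = bw (c * k) c c := by
    show bw (off (fun _ => c) k) c c = _
    rw [hoff]
  have hn' : c * k + c + c ≤ n := by
    rw [← hn, hoff]
    have := Nat.mul_le_mul_left c (show k + 2 ≤ m by omega)
    rw [Nat.mul_add] at this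
    omega
  rw [hbl, v2p_Ps, v2p_Ps]
  have H := v2p_H (A⁻¹ ^ (4 * c)) (A ^ 4) hk ξ
  have hLL := v2p_LL hA hn'
  have hLR := v2p_LR hA hn'
  have hRR := v2p_RR hA hn'
  have hEL := fun i (hi : i < k) => v2p_EL hA hn' hi
  have hER := fun i (hi : i < k) => v2p_ER hA hn' hi
  have hLF := fun j (hj : k + 1 < j) => v2p_LF hA hn' hj
  have hRF := fun j (hj : k + 1 < j) => v2p_RF hA hn' hj
  have hEF := fun i j (h1 : i ≠ k) (h2 : i ≠ k + 1) (h3 : j ≠ k) (h4 : j ≠ k + 1) =>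
    v2p_EF hA hn' h1 h2 h3 h4
  generalize gt (lop m (A⁻¹ ^ (4 * c)) (A ^ 4) k ξ) = x' at H ⊢
  generalize gt ξ = x at H ⊢
  generalize A⁻¹ ^ (4 * c) = q at *
  generalize A ^ 4 = t at *
  generalize A ^ (c * c) = K at *
  generalize v2pE n c A = E at *
  generalize wordMat n A A⁻¹ (bw (c * k) c c) = M at *
  rw [Matrix.mulVec_add, Matrix.mulVec_sum, Matrix.mulVec_sum]
  have hsum : ∀ i ∈ Finset.range m, M *ᵥ ∑ j ∈ Finset.Ico (i + 1) m,
      ((1 - t * q) * v2pV q x i j) • E i j =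
      ∑ j ∈ Finset.Ico (i + 1) m, ((1 - t * q) * v2pV q x i j) • (M *ᵥ E i j) := by
    intro i _
    rw [Matrix.mulVec_sum]
    apply Finset.sum_congr rfl
    intro j _
    rw [Matrix.mulVec_smul]
  rw [Finset.sum_congr rfl hsum]
  simp only [Matrix.mulVec_smul]
  rw [v2p_split2 hk, v2p_split1 hk, v2p_split2 hk, v2p_split1 hk, hLL, hLR, hRR,
    v2p_D2 H hk, v2p_D3 H hk, v2p_V6 H hk]
  have g1 : ∑ i ∈ Finset.range k, ∑ j ∈ Finset.Ico (i + 1) k,
      ((1 - t * q) * v2pV q x i j) • (M *ᵥ E i j) =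
      K • ∑ i ∈ Finset.range k, ∑ j ∈ Finset.Ico (i + 1) k,
        ((1 - t * q) * v2pV q x' i j) • E i j := by
    rw [Finset.smul_sum]
    apply Finset.sum_congr rfl
    intro i hi
    rw [Finset.mem_range] at hi
    rw [Finset.smul_sum]
    apply Finset.sum_congr rfl
    intro j hj
    rw [Finset.mem_Ico] at hj
    rw [hEF i j (by omega) (by omega) (by omega) (by omega),
      v2p_V1 H (by omega) (by omega) (by omega) (by omega) (by omega)]
    module
  have g2 : ∑ i ∈ Finset.range k, (((1 - t * q) * v2pV q x i k) • (M *ᵥ E i k) +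
      ((1 - t * q) * v2pV q x i (k + 1)) • (M *ᵥ E i (k + 1))) =
      K • ∑ i ∈ Finset.range k, (((1 - t * q) * v2pV q x' i k) • E i k +
        ((1 - t * q) * v2pV q x' i (k + 1)) • E i (k + 1)) := by
    rw [Finset.smul_sum]
    apply Finset.sum_congr rfl
    intro i hi
    rw [Finset.mem_range] at hi
    rw [hEL i hi, hER i hi, v2p_V2 H hi, v2p_V3 H hi]
    module
  have g3 : ∑ i ∈ Finset.range k, ∑ j ∈ Finset.Ico (k + 2) m,
      ((1 - t * q) * v2pV q x i j) • (M *ᵥ E i j) =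
      K • ∑ i ∈ Finset.range k, ∑ j ∈ Finset.Ico (k + 2) m,
        ((1 - t * q) * v2pV q x' i j) • E i j := by
    rw [Finset.smul_sum]
    apply Finset.sum_congr rfl
    intro i hi
    rw [Finset.mem_range] at hi
    rw [Finset.smul_sum]
    apply Finset.sum_congr rfl
    intro j hj
    rw [Finset.mem_Ico] at hj
    rw [hEF i j (by omega) (by omega) (by omega) (by omega),
      v2p_V1 H (by omega) (by omega) (by omega) (by omega) (by omega)]
    module
  have g4 : ∑ j ∈ Finset.Ico (k + 2) m, (((1 - t * q) * v2pV q x k j) • (M *ᵥ E k j) +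
      ((1 - t * q) * v2pV q x (k + 1) j) • (M *ᵥ E (k + 1) j)) =
      K • ∑ j ∈ Finset.Ico (k + 2) m, (((1 - t * q) * v2pV q x' k j) • E k j +
        ((1 - t * q) * v2pV q x' (k + 1) j) • E (k + 1) j) := by
    rw [Finset.smul_sum]
    apply Finset.sum_congr rfl
    intro j hj
    rw [Finset.mem_Ico] at hj
    rw [hLF j (by omega), hRF j (by omega), v2p_V4 H (by omega), v2p_V5 H (by omega)]
    module
  have g5 : ∑ i ∈ Finset.Ico (k + 2) m, ∑ j ∈ Finset.Ico (i + 1) m,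
      ((1 - t * q) * v2pV q x i j) • (M *ᵥ E i j) =
      K • ∑ i ∈ Finset.Ico (k + 2) m, ∑ j ∈ Finset.Ico (i + 1) m,
        ((1 - t * q) * v2pV q x' i j) • E i j := by
    rw [Finset.smul_sum]
    apply Finset.sum_congr rfl
    intro i hi
    rw [Finset.mem_Ico] at hi
    rw [Finset.smul_sum]
    apply Finset.sum_congr rfl
    intro j hj
    rw [Finset.mem_Ico] at hj
    rw [hEF i j (by omega) (by omega) (by omega) (by omega),
      v2p_V1 H (by omega) (by omega) (by omega) (by omega) (by omega)]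
    module
  have g6 : ∑ a ∈ Finset.range k, v2pD m q t x a • (M *ᵥ E a a) =
      K • ∑ a ∈ Finset.range k, v2pD m q t x' a • E a a := by
    rw [Finset.smul_sum]
    apply Finset.sum_congr rfl
    intro a ha
    rw [Finset.mem_range] at ha
    rw [hEF a a (by omega) (by omega) (by omega) (by omega),
      v2p_D1 H hk (show a ≠ k by omega) (by omega)]
    module
  have g7 : ∑ a ∈ Finset.Ico (k + 2) m, v2pD m q t x a • (M *ᵥ E a a) =
      K • ∑ a ∈ Finset.Ico (k + 2) m, v2pD m q t x' a • E a a := by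
    rw [Finset.smul_sum]
    apply Finset.sum_congr rfl
    intro a ha
    rw [Finset.mem_Ico] at ha
    rw [hEF a a (by omega) (by omega) (by omega) (by omega),
      v2p_D1 H hk (show a ≠ k by omega) (by omega)]
    module
  rw [g1, g2, g3, g4, g5, g6, g7]
  module

end Pool.Agent.AMU
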