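import Pool.Agent.AMU0.V2

open Matrix

namespace Pool.Agent.AMU

variable {n : ℕ} {A : ℂ}

/-- the operator `K⁻¹` on vectors with one particle -/
lemma v2r_kinv_vec1 (hA : A ≠ 0) (φ : ℕ → ℂ) : ∀ n : ℕ,
    kinv n A A⁻¹ *ᵥ vec1 n φ = A ^ (2 - (n : ℤ)) • vec1 n φ
  | 0 => by
    funext x
    simp [vec1, kinv]
  | n + 1 => by
    funext x
    rcases v1_cases x with ⟨x, rfl⟩ | ⟨x, rfl⟩
    · have h1 : vec1 (n + 1) φ (v1L x) = vec1 n φ x := congrFun (v1_vec1L n φ) x
      rw [kinv_succ, v1_blkL, Matrix.zero_mulVec, Pi.zero_apply, add_zero, Matrix.smul_mulVec,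
        v1_vec1L, v2r_kinv_vec1 hA φ n, Pi.smul_apply, Pi.smul_apply, Pi.smul_apply, h1,
        smul_eq_mul, smul_eq_mul, smul_eq_mul, ← mul_assoc]
      congr 1
      rw [← _root_.zpow_neg_one, ← zpow_add₀ hA]
      congr 1
      push_cast
      ring
    · have h1 : vec1 (n + 1) φ (v1R x) = v1vac n (φ n) x := congrFun (v1_vec1R n φ) x
      rw [kinv_succ, v1_blkR, Matrix.zero_mulVec, Pi.zero_apply, zero_add, Matrix.smul_mulVec,
        v1_vec1R, Pi.smul_apply, v1_kinv_vac, Pi.smul_apply, h1]
      unfold v1vac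
      by_cases h : ones n x = 0
      · rw [if_pos h, if_pos h, smul_eq_mul, smul_eq_mul, ← mul_assoc]
        congr 1
        rw [inv_pow, ← zpow_natCast, ← _root_.zpow_neg]
        nth_rewrite 1 [← zpow_one A]
        rw [← zpow_add₀ hA]
        congr 1
        push_cast
        ring
      · rw [if_neg h, if_neg h]
        simp

lemma v2r_ones_le {n : ℕ} (x : Idx n) : ones n x + 1 = 2 ↔ ones n x = 1 := by omega

lemma v2r_vec2L (n : ℕ) (φ : ℕ → ℕ → ℂ) :
    (fun y : Idx n => vec2 (n + 1) φ (v1L y)) = vec2 n φ := by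
  funext y
  by_cases h : ones n y = 2
  · obtain ⟨a, b, hy⟩ := v2_exists h
    have h1 : v2At (n + 1) (v1L y) a b := by
      obtain ⟨hab, hb, hx⟩ := hy
      refine ⟨hab, by omega, fun j hj => ?_⟩
      rw [v1_bitL]
      by_cases h2 : j = n
      · have h3 : ¬ j = a := by omega
        have h4 : ¬ j = b := by omega
        rw [if_pos h2]
        simp [h3, h4]
      · rw [if_neg h2]
        exact hx j (by omega)
    rw [v2_vec2_of hy, v2_vec2_of h1]
  · rw [v2_vec2_of_ne h, v2_vec2_of_ne]
    rwa [v1_onesL]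

lemma v2r_vec2R (n : ℕ) (φ : ℕ → ℕ → ℂ) :
    (fun y : Idx n => vec2 (n + 1) φ (v1R y)) = vec1 n (fun p => φ p n) := by
  funext y
  by_cases h : ones n y = 1
  · obtain ⟨a, ha, hy⟩ := v1_exists_pos h
    have h1 : v2At (n + 1) (v1R y) a n := by
      refine ⟨ha, by omega, fun j hj => ?_⟩
      rw [v1_bitR]
      by_cases h2 : j = n
      · rw [if_pos h2]
        simp [h2]
      · rw [if_neg h2, hy j (by omega)]
        simp [h2]
    rw [v1_vec1_of ha hy, v2_vec2_of h1]
  · rw [v1_vec1_of_ne h, v2_vec2_of_ne]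
    rw [v1_onesR]
    omega

theorem raise_vec2 (hA : A ≠ 0) (φ : ℕ → ℕ → ℂ) :
    raise n A A⁻¹ *ᵥ vec2 n φ = vec1 n (fun s =>
      (∑ p ∈ Finset.range s, A ^ ((n : ℤ) - 3 - 2 * p) * φ p s)
        + ∑ p ∈ Finset.Ico (s + 1) n, A ^ ((n : ℤ) + 1 - 2 * p) * φ s p) := by
  induction n with
  | zero =>
    funext x
    simp [raise, vec1]
  | succ n ih =>
    funext x
    rcases v1_cases x with ⟨x, rfl⟩ | ⟨x, rfl⟩
    · have h1 : ∀ ψ : ℕ → ℂ, vec1 (n + 1) ψ (v1L x) = vec1 n ψ x :=
        fun ψ => congrFun (v1_vec1L n ψ) x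
      rw [raise_succ, v1_blkL, v2r_vec2L, v2r_vec2R, Matrix.smul_mulVec, ih, v2r_kinv_vec1 hA, h1,
        ← vec1_smul, ← vec1_smul, ← Pi.add_apply, ← vec1_add]
      refine congrFun (vec1_congr fun s hs => ?_) x
      rw [Finset.sum_Ico_succ_top (by omega : s + 1 ≤ n), mul_add, Finset.mul_sum, Finset.mul_sum,
        add_assoc]
      congr 1
      · refine Finset.sum_congr rfl fun p _ => ?_
        rw [← mul_assoc]
        congr 1
        nth_rewrite 1 [← zpow_one A]
        rw [← zpow_add₀ hA]
        congr 1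
        push_cast
        ring
      · congr 1
        · refine Finset.sum_congr rfl fun p _ => ?_
          rw [← mul_assoc]
          congr 1
          nth_rewrite 1 [← zpow_one A]
          rw [← zpow_add₀ hA]
          congr 1
          push_cast
          ring
        · congr 2
          push_cast
          ring
    · have h1 : ∀ ψ : ℕ → ℂ, vec1 (n + 1) ψ (v1R x) = v1vac n (ψ n) x :=
        fun ψ => congrFun (v1_vec1R n ψ) x
      rw [raise_succ, v1_blkR, v2r_vec2R, Matrix.zero_mulVec, Pi.zero_apply, zero_add,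
        Matrix.smul_mulVec, Pi.smul_apply, raise_vec1 hA, h1]
      unfold v1vac
      by_cases h : ones n x = 0
      · rw [if_pos h, if_pos h, Finset.Ico_self, Finset.sum_empty, add_zero, smul_eq_mul,
          Finset.mul_sum]
        refine Finset.sum_congr rfl fun p hp => ?_
        have hp' := Finset.mem_range.1 hp
        rw [← mul_assoc]
        congr 1
        have e1 : (A ^ (n - 1 - p) : ℂ) = A ^ ((n : ℤ) - 1 - p) := by
          rw [← zpow_natCast]
          congr 1
          omega
        rw [e1, inv_pow, ← zpow_natCast A p, ← _root_.zpow_neg, ← _root_.zpow_neg_one, ← zpow_add₀ hA,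
          ← zpow_add₀ hA]
        congr 1
        push_cast
        ring
      · rw [if_neg h, if_neg h, smul_zero]

theorem tl_vec2 {p : ℕ} (hp : p + 1 < n) (hA : A ≠ 0) {φ : ℕ → ℕ → ℂ}
    (h1 : ∀ p', p' < p → φ p' (p + 1) = A⁻¹ ^ 2 * φ p' p)
    (h2 : ∀ p', p' < n → p + 1 < p' → φ (p + 1) p' = A⁻¹ ^ 2 * φ p p') :
    tl n A A⁻¹ p *ᵥ vec2 n φ = 0 := by
  have hAA : A ^ 2 * A⁻¹ ^ 2 = 1 := by
    rw [← mul_pow, mul_inv_cancel₀ hA, one_pow]
  funext x
  rw [tl_apply hp, Pi.zero_apply]
  by_cases h : ones n x = 2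
  · obtain ⟨a, b, hx⟩ := v2_exists h
    rw [v2_vec2_of hx]
    by_cases h3 : a = p ∧ b = p + 1
    · obtain ⟨rfl, rfl⟩ := h3
      rw [hx.2.2 a (by omega), hx.2.2 (a + 1) hp]
      rw [if_pos (by simp)]
    · have hs := v2_swap hp hx h3
      rw [v2_vec2_of hs]
      obtain ⟨hab, hb, hxb⟩ := hx
      rw [hxb p (by omega), hxb (p + 1) hp]
      by_cases h4 : a = p + 1
      · subst h4
        have e1 : Equiv.swap p (p + 1) (p + 1) = p := Equiv.swap_apply_right _ _
        have e2 : Equiv.swap p (p + 1) b = b :=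
          Equiv.swap_apply_of_ne_of_ne (by omega) (by omega)
        have e3 : p ≠ b := by omega
        rw [e1, e2, if_neg (by simp [e3]), if_neg (by simp [e3]), h2 b hb hab]
        linear_combination (-(φ p b)) * hAA
      · by_cases h5 : b = p + 1
        · subst h5
          have h6 : a ≠ p := fun h => h3 ⟨h, rfl⟩
          have e1 : Equiv.swap p (p + 1) (p + 1) = p := Equiv.swap_apply_right _ _
          have e2 : Equiv.swap p (p + 1) a = a :=
            Equiv.swap_apply_of_ne_of_ne h6 h4
          rw [e1, e2, if_neg (by simp [h6.symm]), if_neg (by simp [h6.symm]), h1 a (by omega)]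
          linear_combination (-(φ a p)) * hAA
        · by_cases h6 : a = p
          · subst h6
            have e1 : Equiv.swap a (a + 1) a = a + 1 := Equiv.swap_apply_left _ _
            have e2 : Equiv.swap a (a + 1) b = b :=
              Equiv.swap_apply_of_ne_of_ne (by omega) h5
            have e4 : a + 1 ≠ b := fun h => h5 h.symm
            rw [e1, e2, if_neg (by simp [e4]), if_pos (by simp), h2 b hb (by omega)]
            ring
          · have e4 : p + 1 ≠ b := fun h => h5 h.symm
            have e5 : p + 1 ≠ a := fun h => h4 h.symm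
            have e6 : p ≠ a := fun h => h6 h.symm
            by_cases h7 : b = p
            · subst h7
              have e1 : Equiv.swap b (b + 1) b = b + 1 := Equiv.swap_apply_left _ _
              have e2 : Equiv.swap b (b + 1) a = a :=
                Equiv.swap_apply_of_ne_of_ne h6 h4
              rw [e1, e2, if_neg (by simp [e5]), if_pos (by simp), h1 a hab]
              ring
            · have e7 : p ≠ b := fun h => h7 h.symm
              rw [if_pos (by simp [e4, e5, e6, e7])]
  · have h3 : ones n (swapIdx n p x) ≠ 2 := by rwa [v1_ones_swap hp]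
    rw [v2_vec2_of_ne h, v2_vec2_of_ne h3]
    simp

end Pool.Agent.AMU
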