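import Pool.Agent.AMU0.TopAll

open Matrix Polynomial

namespace Pool.Agent.AMU

/-- the characteristic polynomial of a block triangular matrix -/
private lemma wall_charpoly {n R : Type*} [Fintype n] [DecidableEq n] [CommRing R]
    (M : Matrix n n R) (q : n → Prop) [DecidablePred q] (h : ∀ i, q i → ∀ j, ¬ q j → M i j = 0) :
    M.charpoly = (M.toSquareBlockProp q).charpoly *
      (M.toSquareBlockProp fun i => ¬ q i).charpoly := by
  unfold Matrix.charpoly
  rw [twoBlockTriangular_det' (M.charmatrix) q]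
  · congr 2
    · ext i j : 2
      by_cases hij : i = j
      · subst hij
        rw [toSquareBlockProp_def, of_apply, charmatrix_apply_eq, charmatrix_apply_eq,
          toSquareBlockProp_def, of_apply]
      · rw [toSquareBlockProp_def, of_apply, charmatrix_apply_ne _ _ _ hij,
          charmatrix_apply_ne _ _ _ (fun h => hij (Subtype.ext h)),
          toSquareBlockProp_def, of_apply]
    · ext i j : 2
      by_cases hij : i = j
      · subst hij
        rw [toSquareBlockProp_def, of_apply, charmatrix_apply_eq, charmatrix_apply_eq,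
          toSquareBlockProp_def, of_apply]
      · rw [toSquareBlockProp_def, of_apply, charmatrix_apply_ne _ _ _ hij,
          charmatrix_apply_ne _ _ _ (fun h => hij (Subtype.ext h)),
          toSquareBlockProp_def, of_apply]
  · intro i hi j hj
    have hij : i ≠ j := fun h => hj (h ▸ hi)
    rw [charmatrix_apply_ne _ _ _ hij, h i hi j hj]
    simp

/-- a divisor of a monomial with coefficient one is such a monomial up to the sign -/
private lemma wall_dvd {a : ℤ[X]} {k : ℕ} (h : a ∣ X ^ k) : ∃ j : ℕ, a = X ^ j ∨ a = -X ^ j := by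
  obtain ⟨j, -, hj⟩ := (dvd_prime_pow prime_X k).1 h
  refine ⟨j, ?_⟩
  obtain ⟨u, hu⟩ := hj.symm
  obtain ⟨r, hr, hru⟩ := Polynomial.isUnit_iff.1 u.isUnit
  rw [← hu, ← hru]
  rcases Int.isUnit_iff.1 hr with rfl | rfl
  · left
    simp
  · right
    simp

/-- The block to the right of a wall: the lowest coefficient of its characteristic polynomial is a
monomial. -/
theorem wall_block {m L : ℕ} {p : ℕ → ℕ} (h : IsTrack m L p) (hG : Good m L p) (T Z : Finset ℕ)
    (K : ℕ) (e : ℕ → ℕ) (hK : 1 ≤ K) (he : ∀ s, e s = 1 ∨ e s = K) {w : ℕ} (hwT : w ∈ T) (hwZ : w ∈ Z)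
    (s0 n : ℕ) :
    ∃ k : ℕ, ((dmat m T (fun s => if s ∈ Z then (0 : ℤ[X]) else X ^ e s) p s0
        (n * L)).toSquareBlockProp fun a => (a : ℕ) ∈ T ∧ ps p s0 w < ps p s0 a).charpoly.trailingCoeff
          = X ^ k ∨
      ((dmat m T (fun s => if s ∈ Z then (0 : ℤ[X]) else X ^ e s) p s0
        (n * L)).toSquareBlockProp fun a => (a : ℕ) ∈ T ∧ ps p s0 w < ps p s0 a).charpoly.trailingCoeff
          = -X ^ k := by
  set M : Matrix (Fin m) (Fin m) ℤ[X] :=
    dmat m T (fun s => if s ∈ Z then (0 : ℤ[X]) else X ^ e s) p s0 (n * L) with hM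
  have hblk : ∀ a : Fin m, ((a : ℕ) ∈ T ∧ ps p s0 w < ps p s0 a) → ∀ c : Fin m,
      ¬ ((c : ℕ) ∈ T ∧ ps p s0 w < ps p s0 c) → M a c = 0 := by
    intro a ha c hc
    by_cases hcT : (c : ℕ) ∈ T
    · have hc' : ps p s0 c ≤ ps p s0 w := by
        by_contra hlt
        exact hc ⟨hcT, by omega⟩
      refine wall_tri h hwT (by simp [hwZ]) ha.1 hcT hc' ?_
      rw [ps_mul h, ps_mul h]
      exact ha.2
    · rw [hM, dmat_out (Or.inr hcT), if_neg]
      intro hac
      exact hcT (hac ▸ ha.1)
  have hmul := wall_charpoly M (fun a : Fin m => (a : ℕ) ∈ T ∧ ps p s0 w < ps p s0 a) hblk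
  obtain ⟨k, hk⟩ := topall hG T Z K e hK he s0 n
  rw [← hM, hmul, trailingCoeff_mul] at hk
  refine wall_dvd (k := k) ?_
  rcases hk with hk | hk
  · exact ⟨_, hk.symm⟩
  · rw [← dvd_neg]
    exact ⟨_, hk.symm⟩

end Pool.Agent.AMU
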