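import Pool.Agent.AMU0.Linv

open Matrix

namespace Pool.Agent.AMU

private theorem zrow_gt {R : Type*} [CommRing R] {m : ℕ} (ξ : Pr m → R) {i j : ℕ} (hij : i < j)
    (hj : j < m) :
    gt ξ i j = ξ ⟨(⟨i, by omega⟩, ⟨j, hj⟩), by simpa using hij⟩ := by
  unfold gt
  rw [dif_pos ⟨hij, hj⟩]

private theorem zrow_cons {R : Type*} [CommRing R] {m : ℕ} (q t : R) (k : ℕ) (Y : List ℕ)
    (x y : Pr m) :
    lpm m q t (k :: Y) x y = lop m q t k (fun z => lpm m q t Y z y) x := by
  have h1 : lpm m q t (k :: Y) = lmat m q t k * lpm m q t Y := by
    unfold lpm
    rw [List.map_cons, List.prod_cons]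
  rw [h1, ← lmat_mulVec]
  rfl

private theorem zrow_main {m : ℕ} {r : ℝ} (hr0 : 0 < r) (hr1 : r < 1) :
    ∀ X : List ℕ, Lt m X → ∀ i j : ℕ, i < j → j < m →
      (∀ y, 0 ≤ gt (fun z => lpm m r 0 X z y) i j) ∧
      (zr X i j ↔ ∀ y, gt (fun z => lpm m r 0 X z y) i j = 0) := by
  intro X
  induction X with
  | nil =>
    intro _ i j hij hj
    have h1 : ∀ y : Pr m, gt (fun z => lpm m r 0 [] z y) i j =
        (1 : Matrix (Pr m) (Pr m) ℝ) ⟨(⟨i, by omega⟩, ⟨j, hj⟩), by simpa using hij⟩ y := by
      intro y
      rw [zrow_gt _ hij hj]
      rfl
    constructor
    · intro y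
      rw [h1, Matrix.one_apply]
      split_ifs <;> norm_num
    · constructor
      · intro h
        exact absurd h (by simp [zr])
      · intro h
        have := h ⟨(⟨i, by omega⟩, ⟨j, hj⟩), by simpa using hij⟩
        rw [h1, Matrix.one_apply_eq] at this
        norm_num at this
  | cons k Y ih =>
    intro hX i j hij hj
    have hk : k + 1 < m := hX k (by simp)
    have hY : Lt m Y := fun x hx => hX x (by simp [hx])
    have IH := ih hY
    have hcons : ∀ y, gt (fun z => lpm m r 0 (k :: Y) z y) i j =
        lop m r 0 k (fun z => lpm m r 0 Y z y)
          ⟨(⟨i, by omega⟩, ⟨j, hj⟩), by simpa using hij⟩ := by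
      intro y
      rw [zrow_gt _ hij hj, zrow_cons]
    -- sums of two nonnegative rows
    have hr1' : 0 < 1 - r := by linarith
    by_cases c1 : i = k ∧ j = k + 1
    · have h1 : ∀ y, gt (fun z => lpm m r 0 (k :: Y) z y) i j = 0 := by
        intro y
        rw [hcons]
        unfold lop; dsimp only
        rw [if_pos c1, zero_mul]
      have h2 : zr (k :: Y) i j := by
        rw [zr]
        rw [if_pos c1]
        trivial
      exact ⟨fun y => (h1 y).ge, fun _ => h1, fun _ => h2⟩
    · by_cases c2 : j = k
      · subst c2
        have h1 : ∀ y, gt (fun z => lpm m r 0 (j :: Y) z y) i j =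
            (1 - r) * gt (fun z => lpm m r 0 Y z y) i j +
              gt (fun z => lpm m r 0 Y z y) i (j + 1) := by
          intro y
          rw [hcons]
          unfold lop; dsimp only
          rw [if_neg c1, if_pos rfl]
        have h2 : zr (j :: Y) i j ↔ (zr Y i j ∧ zr Y i (j + 1)) := by
          rw [zr]
          rw [if_neg c1, if_pos rfl]
        have a := IH i j hij hj
        have b := IH i (j + 1) (by omega) hk
        constructor
        · intro y
          rw [h1]
          have := a.1 y
          have := b.1 y
          positivity
        · rw [h2, a.2, b.2]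
          constructor
          · rintro ⟨ha, hb⟩ y
            rw [h1, ha y, hb y]; ring
          · intro h
            constructor
            · intro y
              have e := h y
              rw [h1] at e
              have := a.1 y
              have := b.1 y
              nlinarith
            · intro y
              have e := h y
              rw [h1] at e
              have := a.1 y
              have := b.1 y
              nlinarith
      · by_cases c3 : j = k + 1
        · subst c3
          have hik : i ≠ k := fun h => c1 ⟨h, rfl⟩
          have h1 : ∀ y, gt (fun z => lpm m r 0 (k :: Y) z y) i (k + 1) =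
              r * gt (fun z => lpm m r 0 Y z y) i k := by
            intro y
            rw [hcons]
            unfold lop; dsimp only
            rw [if_neg c1, if_neg c2, if_pos rfl]
          have h2 : zr (k :: Y) i (k + 1) ↔ zr Y i k := by
            rw [zr]
            rw [if_neg c1, if_neg c2, if_pos rfl]
          have a := IH i k (by omega) (by omega)
          constructor
          · intro y
            rw [h1]
            have := a.1 y
            positivity
          · rw [h2, a.2]
            constructor
            · intro h y
              rw [h1, h y, mul_zero]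
            · intro h y
              have e := h y
              rw [h1] at e
              exact (mul_eq_zero.1 e).resolve_left hr0.ne'
        · by_cases c4 : i = k
          · subst c4
            have h1 : ∀ y, gt (fun z => lpm m r 0 (i :: Y) z y) i j =
                gt (fun z => lpm m r 0 Y z y) (i + 1) j := by
              intro y
              rw [hcons]
              unfold lop; dsimp only
              rw [if_neg c1, if_neg c2, if_neg c3, if_pos rfl]
            have h2 : zr (i :: Y) i j ↔ zr Y (i + 1) j := by
              rw [zr]
              rw [if_neg c1, if_neg c2, if_neg c3, if_pos rfl]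
            have a := IH (i + 1) j (by omega) hj
            simp only [h1]
            rw [h2]
            exact a
          · by_cases c5 : i = k + 1
            · subst c5
              have h1 : ∀ y, gt (fun z => lpm m r 0 (k :: Y) z y) (k + 1) j =
                  r * gt (fun z => lpm m r 0 Y z y) k j +
                    (1 - r) * gt (fun z => lpm m r 0 Y z y) (k + 1) j := by
                intro y
                rw [hcons]
                unfold lop; dsimp only
                rw [if_neg c1, if_neg c2, if_neg c3, if_neg c4, if_pos rfl]
              have h2 : zr (k :: Y) (k + 1) j ↔ (zr Y k j ∧ zr Y (k + 1) j) := by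
                rw [zr]
                rw [if_neg c1, if_neg c2, if_neg c3, if_neg c4, if_pos rfl]
              have a := IH k j (by omega) hj
              have b := IH (k + 1) j hij hj
              constructor
              · intro y
                rw [h1]
                have := a.1 y
                have := b.1 y
                positivity
              · rw [h2, a.2, b.2]
                constructor
                · rintro ⟨ha, hb⟩ y
                  rw [h1, ha y, hb y]; ring
                · intro h
                  constructor
                  · intro y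
                    have e := h y
                    rw [h1] at e
                    have := a.1 y
                    have := b.1 y
                    nlinarith
                  · intro y
                    have e := h y
                    rw [h1] at e
                    have := a.1 y
                    have := b.1 y
                    nlinarith
            · have h1 : ∀ y, gt (fun z => lpm m r 0 (k :: Y) z y) i j =
                  gt (fun z => lpm m r 0 Y z y) i j := by
                intro y
                rw [hcons]
                unfold lop; dsimp only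
                rw [if_neg c1, if_neg c2, if_neg c3, if_neg c4, if_neg c5]
              have h2 : zr (k :: Y) i j ↔ zr Y i j := by
                rw [zr]
                rw [if_neg c1, if_neg c2, if_neg c3, if_neg c4, if_neg c5]
              have a := IH i j hij hj
              simp only [h1]
              rw [h2]
              exact a

/-- positivity of the Krammer matrices at `t = 0` and the meaning of `zr` -/
theorem zr_iff {m : ℕ} {X : List ℕ} (hX : Lt m X) {r : ℝ} (hr0 : 0 < r) (hr1 : r < 1) (x : Pr m) :
    zr X x.1.1 x.1.2 ↔ ∀ y, lpm m r 0 X x y = 0 := by
  obtain ⟨⟨i, j⟩, hx⟩ := x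
  have hij : (i : ℕ) < j := hx
  rw [(zrow_main hr0 hr1 X hX i j hij j.2).2]
  refine forall_congr' fun y => ?_
  rw [zrow_gt _ hij j.2]

theorem zr_pw {m : ℕ} {X Y : List ℕ} (hX : Lt m X) (hY : Lt m Y) (h : pw m X = pw m Y) {i j : ℕ}
    (hij : i < j) (hj : j < m) : zr X i j ↔ zr Y i j := by
  have h2 : (0 : ℝ) < 1 / 2 := by norm_num
  have h3 : (1 / 2 : ℝ) < 1 := by norm_num
  have e := lpm_pw (1 / 2 : ℝ) 0 hX hY h
  rw [(zrow_main h2 h3 X hX i j hij hj).2, (zrow_main h2 h3 Y hY i j hij hj).2, e]

open Polynomial in
theorem zr_of_dvd {m : ℕ} {X : List ℕ} (hX : Lt m X)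
    (h : ∀ x y, (Polynomial.X : ℤ[X][X]) ∣ lpm m (C Polynomial.X) Polynomial.X X x y) {i j : ℕ}
    (hij : i < j) (hj : j < m) : zr X i j := by
  have h2 : (0 : ℝ) < 1 / 2 := by norm_num
  have h3 : (1 / 2 : ℝ) < 1 := by norm_num
  rw [(zrow_main h2 h3 X hX i j hij hj).2]
  intro y
  let f : ℤ[X][X] →+* ℝ :=
    Polynomial.eval₂RingHom (Polynomial.eval₂RingHom (Int.castRingHom ℝ) (1 / 2 : ℝ)) 0
  have f1 : f (C Polynomial.X) = 1 / 2 := by
    simp [f]
  have f2 : f Polynomial.X = 0 := by
    simp [f]
  rw [zrow_gt _ hij hj]
  have e := lpm_map f m (C Polynomial.X) Polynomial.X X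
  rw [f1, f2] at e
  have e2 := congrFun (congrFun e ⟨(⟨i, by omega⟩, ⟨j, hj⟩), by simpa using hij⟩) y
  rw [Matrix.map_apply] at e2
  rw [← e2]
  obtain ⟨g, hg⟩ := h ⟨(⟨i, by omega⟩, ⟨j, hj⟩), by simpa using hij⟩ y
  rw [hg, map_mul, f2, zero_mul]

end Pool.Agent.AMU
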